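import Pool.Agent.S5.Z4.CvD
import Pool.Agent.S5.Z4.R.All
import Pool.Agent.S5.E.T.TabF

/-!
# Inner nodes with four half twists: the certificates cover all pairs
-/

set_option autoImplicit false

namespace Pool.Agent.S5.Z4

/-- Cells of the vertex, class AA. -/
def KAA : List Ce := [
  ⟨820, 874, 96, 174⟩, ⟨833, 874, 95, 160⟩, ⟨807, 850, 81, 149⟩,
  ⟨816, 868, 109, 188⟩, ⟨819, 868, 102, 178⟩, ⟨808, 853, 105, 179⟩,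
  ⟨816, 868, 119, 196⟩, ⟨816, 868, 109, 188⟩, ⟨812, 859, 119, 193⟩,
  ⟨814, 869, 124, 200⟩, ⟨816, 868, 119, 196⟩, ⟨814, 869, 124, 200⟩,
  ⟨817, 870, 129, 203⟩, ⟨814, 869, 124, 200⟩, ⟨817, 870, 129, 203⟩,
  ⟨817, 870, 129, 203⟩, ⟨817, 870, 129, 203⟩, ⟨817, 870, 129, 203⟩,
  ⟨820, 875, 134, 205⟩, ⟨820, 875, 134, 205⟩, ⟨820, 875, 134, 205⟩]

/-- Cells of the neighbour, class AA. -/
def CAA : List Ce := [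
  ⟨736, 958, 360, 539⟩, ⟨886, 964, 503, 582⟩, ⟨556, 579, 710, 745⟩,
  ⟨761, 870, 218, 327⟩, ⟨771, 876, 304, 435⟩, ⟨605, 647, 291, 329⟩,
  ⟨816, 868, 119, 196⟩, ⟨795, 865, 177, 255⟩, ⟨728, 756, 126, 152⟩,
  ⟨854, 892, 65, 122⟩, ⟨835, 885, 103, 149⟩, ⟨812, 833, 57, 77⟩,
  ⟨877, 920, 36, 83⟩, ⟨861, 913, 53, 102⟩, ⟨859, 886, 25, 50⟩,
  ⟨903, 940, 16, 55⟩, ⟨891, 930, 25, 64⟩, ⟨893, 917, 13, 36⟩,
  ⟨920, 1001, 0, 42⟩, ⟨908, 1001, 0, 50⟩, ⟨916, 1001, 0, 27⟩]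

/-- Cells of the vertex, class AS. -/
def KAS : List Ce := [
  ⟨792, 869, 146, 225⟩, ⟨806, 869, 140, 207⟩, ⟨771, 837, 135, 194⟩,
  ⟨794, 864, 165, 241⟩, ⟨792, 864, 155, 232⟩, ⟨779, 846, 165, 234⟩,
  ⟨795, 865, 177, 255⟩, ⟨795, 864, 172, 245⟩, ⟨789, 854, 180, 251⟩,
  ⟨796, 867, 183, 258⟩, ⟨795, 865, 177, 255⟩, ⟨796, 867, 183, 258⟩,
  ⟨802, 869, 188, 262⟩, ⟨796, 867, 183, 258⟩, ⟨802, 869, 188, 262⟩,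
  ⟨802, 869, 188, 262⟩, ⟨802, 869, 188, 262⟩, ⟨802, 869, 188, 262⟩,
  ⟨807, 874, 191, 264⟩, ⟨807, 874, 191, 264⟩, ⟨807, 874, 191, 264⟩]

/-- Cells of the neighbour, class AS. -/
def CAS : List Ce := [
  ⟨729, 948, 353, 531⟩, ⟨851, 956, 493, 604⟩, ⟨537, 573, 688, 719⟩,
  ⟨761, 868, 212, 319⟩, ⟨763, 870, 296, 424⟩, ⟨603, 645, 276, 314⟩,
  ⟨816, 868, 109, 188⟩, ⟨795, 864, 172, 245⟩, ⟨730, 758, 118, 143⟩,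
  ⟨858, 894, 61, 116⟩, ⟨833, 885, 96, 144⟩, ⟨812, 833, 57, 77⟩,
  ⟨876, 924, 27, 79⟩, ⟨859, 912, 46, 95⟩, ⟨859, 886, 25, 50⟩,
  ⟨903, 940, 16, 55⟩, ⟨891, 930, 25, 64⟩, ⟨893, 917, 13, 36⟩,
  ⟨920, 1001, 0, 42⟩, ⟨908, 1001, 0, 50⟩, ⟨916, 1001, 0, 27⟩]

/-- Cells of the vertex, class SA. -/
def KSA : List Ce := [
  ⟨771, 861, 154, 264⟩, ⟨0, 0, 0, 0⟩, ⟨0, 0, 0, 0⟩,
  ⟨788, 860, 144, 240⟩, ⟨780, 858, 151, 251⟩, ⟨775, 836, 141, 234⟩,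
  ⟨799, 862, 140, 225⟩, ⟨792, 859, 143, 231⟩, ⟨795, 850, 138, 218⟩,
  ⟨805, 865, 137, 217⟩, ⟨799, 862, 140, 225⟩, ⟨805, 865, 137, 217⟩,
  ⟨811, 868, 137, 212⟩, ⟨805, 865, 137, 217⟩, ⟨811, 868, 137, 212⟩,
  ⟨811, 868, 137, 212⟩, ⟨811, 868, 137, 212⟩, ⟨811, 868, 137, 212⟩,
  ⟨816, 874, 138, 210⟩, ⟨816, 874, 138, 210⟩, ⟨816, 874, 138, 210⟩]

/-- Cells of the neighbour, class SA. -/
def CSA : List Ce := [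
  ⟨733, 940, 400, 615⟩, ⟨0, 0, 0, 0⟩, ⟨0, 0, 0, 0⟩,
  ⟨741, 878, 246, 380⟩, ⟨765, 881, 353, 499⟩, ⟨558, 607, 363, 411⟩,
  ⟨799, 862, 140, 225⟩, ⟨778, 861, 202, 294⟩, ⟨694, 729, 150, 183⟩,
  ⟨843, 885, 77, 140⟩, ⟨816, 877, 117, 176⟩, ⟨794, 814, 73, 92⟩,
  ⟨867, 914, 38, 90⟩, ⟨849, 904, 57, 112⟩, ⟨846, 873, 29, 56⟩,
  ⟨897, 934, 22, 62⟩, ⟨882, 927, 32, 77⟩, ⟨886, 909, 14, 39⟩,
  ⟨908, 1001, 0, 50⟩, ⟨895, 1001, 0, 61⟩, ⟨900, 1001, 0, 29⟩]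

/-- Cells of the vertex, class SS. -/
def KSS : List Ce := [
  ⟨751, 860, 226, 343⟩, ⟨0, 0, 0, 0⟩, ⟨0, 0, 0, 0⟩,
  ⟨764, 859, 211, 314⟩, ⟨757, 858, 222, 330⟩, ⟨741, 833, 214, 310⟩,
  ⟨778, 861, 202, 294⟩, ⟨770, 859, 208, 303⟩, ⟨766, 847, 202, 286⟩,
  ⟨786, 862, 200, 283⟩, ⟨778, 861, 202, 294⟩, ⟨783, 857, 198, 275⟩,
  ⟨791, 865, 198, 278⟩, ⟨791, 865, 198, 278⟩, ⟨792, 867, 195, 273⟩,
  ⟨792, 867, 195, 273⟩, ⟨792, 867, 195, 273⟩, ⟨792, 867, 195, 273⟩,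
  ⟨800, 874, 195, 272⟩, ⟨800, 874, 195, 272⟩, ⟨800, 874, 195, 272⟩]

/-- Cells of the neighbour, class SS. -/
def CSS : List Ce := [
  ⟨725, 933, 409, 604⟩, ⟨0, 0, 0, 0⟩, ⟨0, 0, 0, 0⟩,
  ⟨732, 879, 252, 393⟩, ⟨756, 882, 364, 517⟩, ⟨537, 599, 374, 431⟩,
  ⟨792, 859, 143, 231⟩, ⟨770, 859, 208, 303⟩, ⟨683, 718, 155, 188⟩,
  ⟨843, 885, 77, 140⟩, ⟨816, 877, 117, 176⟩, ⟨781, 809, 72, 97⟩,
  ⟨857, 913, 40, 101⟩, ⟨837, 904, 60, 127⟩, ⟨832, 870, 31, 62⟩,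
  ⟨891, 931, 20, 66⟩, ⟨882, 927, 32, 77⟩, ⟨876, 905, 11, 39⟩,
  ⟨908, 1001, 0, 50⟩, ⟨895, 1001, 0, 61⟩, ⟨900, 1001, 0, 29⟩]

/-- The pair `2A0`, `2A0`. -/
def xAA (j k : ℕ) : Bool := Nat.beq j 2 && Nat.beq k 2

/-- The pairs `2A?`, `2SA`. -/
def xAS (j k : ℕ) : Bool := Nat.ble j 2 && Nat.beq k 0

/-- The pairs `2SA`, `2A?`. -/
def xSA (j k : ℕ) : Bool := Nat.beq j 0 && Nat.ble k 2

/-- No pair. -/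
def xSS (_ _ : ℕ) : Bool := false

theorem ckAA : ckc E.Tfin false false KAA CAA = true := by decide +kernel

theorem ckAS : ckc E.Tfin false true KAS CAS = true := by decide +kernel

theorem ckSA : ckc E.Tfin true false KSA CSA = true := by decide +kernel

theorem ckSS : ckc E.Tfin true true KSS CSS = true := by decide +kernel

set_option maxRecDepth 1000000 in
theorem cvAA : cov false false KAA CAA KAA CAA allAA allAA xAA = true := by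
  decide +kernel

set_option maxRecDepth 1000000 in
theorem cvAS : cov false true KAS CAS KSA CSA allAS [] xAS = true := by
  decide +kernel

set_option maxRecDepth 1000000 in
theorem cvSA : cov true false KSA CSA KAS CAS [] allAS xSA = true := by
  decide +kernel

set_option maxRecDepth 1000000 in
theorem cvSS : cov true true KSS CSS KSS CSS allSS allSS xSS = true := by
  decide +kernel

end Pool.Agent.S5.Z4
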