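import Pool.Agent.S5.Z4.Ln

/-!
# The lanes of the tables: analysis
-/

set_option autoImplicit false

namespace Pool.Agent.S5.Z4

open Pool.Agent.S5.Tb Pool.Agent.H63.VC3 Pool.Agent.S3 Complex Set

/-! ### Numbers -/

theorem sqrt5_bd : (22360679774 : ℝ) / 10 ^ 10 < √5 ∧ √5 < 22360679775 / 10 ^ 10 := by
  constructor
  · apply Real.lt_sqrt_of_sq_lt
    norm_num
  · rw [Real.sqrt_lt' (by norm_num)]
    norm_num

theorem cosA_bd : (80901699435 : ℝ) / 10 ^ 11 ≤ Real.cos (Real.pi / 5) ∧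
    Real.cos (Real.pi / 5) ≤ 809016994375 / 10 ^ 12 := by
  have h := sqrt5_bd
  rw [Real.cos_pi_div_five]
  constructor
  · linarith [h.1]
  · linarith [h.2]

theorem cosC_bd : (951056516 : ℝ) / 10 ^ 9 ≤ Real.cos (Real.pi / 10) ∧
    Real.cos (Real.pi / 10) ≤ 951056517 / 10 ^ 9 := by
  have hpi := Real.pi_pos
  have h := cosA_bd
  have h0 : 0 ≤ Real.cos (Real.pi / 10) :=
    Real.cos_nonneg_of_neg_pi_div_two_le_of_le (by linarith) (by linarith)
  have h1 := Real.cos_sq (Real.pi / 10)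
  rw [show 2 * (Real.pi / 10) = Real.pi / 5 by ring] at h1
  constructor
  · refine (abs_le_of_sq_le_sq' (b := Real.cos (Real.pi / 10)) ?_ h0).2
    rw [h1]
    refine le_trans ?_ (add_le_add_right (div_le_div_of_nonneg_right h.1 (by norm_num)) _)
    norm_num
  · refine (abs_le_of_sq_le_sq' ?_ (by norm_num)).2
    rw [h1]
    refine le_trans (add_le_add_right (div_le_div_of_nonneg_right h.2 (by norm_num)) _) ?_
    norm_num

theorem cosB_bd : (309016994 : ℝ) / 10 ^ 9 ≤ Real.cos (2 * (Real.pi / 5)) ∧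
    Real.cos (2 * (Real.pi / 5)) ≤ 309016995 / 10 ^ 9 := by
  have h := cosA_bd
  rw [Real.cos_two_mul]
  constructor
  · have : ((80901699435 : ℝ) / 10 ^ 11) ^ 2 ≤ Real.cos (Real.pi / 5) ^ 2 := by
      gcongr
      exact h.1
    have e : (309016994 : ℝ) / 10 ^ 9 ≤ 2 * (80901699435 / 10 ^ 11) ^ 2 - 1 := by norm_num
    linarith
  · have h0 : 0 ≤ Real.cos (Real.pi / 5) := le_trans (by norm_num) h.1
    have : Real.cos (Real.pi / 5) ^ 2 ≤ ((809016994375 : ℝ) / 10 ^ 12) ^ 2 := by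
      gcongr
      exact h.2
    have e : 2 * ((809016994375 : ℝ) / 10 ^ 12) ^ 2 - 1 ≤ 309016995 / 10 ^ 9 := by norm_num
    linarith

theorem cosD_bd : (587785252 : ℝ) / 10 ^ 9 ≤ Real.cos (3 * (Real.pi / 10)) ∧
    Real.cos (3 * (Real.pi / 10)) ≤ 587785253 / 10 ^ 9 := by
  have hpi := Real.pi_pos
  have h := cosA_bd
  have e0 : Real.cos (3 * (Real.pi / 10)) = Real.sin (Real.pi / 5) := by
    rw [← Real.cos_pi_div_two_sub]
    congr 1
    ring
  have h0 : 0 ≤ Real.cos (3 * (Real.pi / 10)) :=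
    Real.cos_nonneg_of_neg_pi_div_two_le_of_le (by linarith) (by linarith)
  have h1 : Real.cos (3 * (Real.pi / 10)) ^ 2 = 1 - Real.cos (Real.pi / 5) ^ 2 := by
    rw [e0, Real.sin_sq]
  have hA0 : 0 ≤ Real.cos (Real.pi / 5) := le_trans (by norm_num) h.1
  have a1 : ((80901699435 : ℝ) / 10 ^ 11) ^ 2 ≤ Real.cos (Real.pi / 5) ^ 2 := by
    gcongr
    exact h.1
  have a2 : Real.cos (Real.pi / 5) ^ 2 ≤ ((809016994375 : ℝ) / 10 ^ 12) ^ 2 := by
    gcongr
    exact h.2
  constructor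
  · refine (abs_le_of_sq_le_sq' (b := Real.cos (3 * (Real.pi / 10))) ?_ h0).2
    rw [h1]
    have e : ((587785252 : ℝ) / 10 ^ 9) ^ 2 ≤ 1 - (809016994375 / 10 ^ 12) ^ 2 := by norm_num
    linarith
  · refine (abs_le_of_sq_le_sq' ?_ (by norm_num)).2
    rw [h1]
    have e : 1 - ((80901699435 : ℝ) / 10 ^ 11) ^ 2 ≤ (587785253 / 10 ^ 9) ^ 2 := by norm_num
    linarith

theorem cot_q {x c q : ℝ} (h0 : 0 < x) (h1 : x ≤ 1 / 2) (hq : 0 ≤ q)
    (hc : Real.cos (2 * (Real.pi * x)) ≤ c) (hcq : 1 + c ≤ q ^ 2 * (1 - c)) :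
    Real.pi * (Real.cos (Real.pi * x) / Real.sin (Real.pi * x)) ≤ 3141593 / 10 ^ 6 * q := by
  have hpi := Real.pi_pos
  have hs : 0 < Real.sin (Real.pi * x) :=
    Real.sin_pos_of_pos_of_lt_pi (by positivity) (by nlinarith)
  have h2 := Real.cos_sq (Real.pi * x)
  have h3 := Real.sin_sq_add_cos_sq (Real.pi * x)
  have h4 : Real.cos (Real.pi * x) ≤ q * Real.sin (Real.pi * x) := by
    refine (abs_le_of_sq_le_sq' ?_ (by positivity)).2
    have h5 : q ^ 2 * (1 - c) ≤ q ^ 2 * (1 - Real.cos (2 * (Real.pi * x))) :=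
      mul_le_mul_of_nonneg_left (by linarith) (sq_nonneg q)
    have e : (q * Real.sin (Real.pi * x)) ^ 2 =
        q ^ 2 * (1 - Real.cos (2 * (Real.pi * x))) / 2 := by
      rw [mul_pow, Real.sin_sq, h2]
      ring
    rw [e, h2]
    linarith
  have h5 : Real.cos (Real.pi * x) / Real.sin (Real.pi * x) ≤ q := (div_le_iff₀ hs).2 h4
  have h6 := Real.pi_lt_d6
  calc Real.pi * (Real.cos (Real.pi * x) / Real.sin (Real.pi * x)) ≤ Real.pi * q :=
        mul_le_mul_of_nonneg_left h5 hpi.le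
    _ ≤ 3141593 / 10 ^ 6 * q := mul_le_mul_of_nonneg_right (by norm_num at h6 ⊢; linarith) hq

theorem cotk {k : ℕ} (h1 : 1 ≤ k) (h2 : k ≤ 9) :
    Real.pi * (Real.cos (Real.pi * ((k : ℝ) / 20)) / Real.sin (Real.pi * ((k : ℝ) / 20))) *
      (15625 / 2) ≤ (sg0 (15 + k) : ℝ) ∧
    Real.pi * (Real.cos (Real.pi * ((k : ℝ) / 20)) / Real.sin (Real.pi * ((k : ℝ) / 20))) * 50 ≤
      (kvp (35 - k) : ℝ) := by
  have hA := cosA_bd
  have hB := cosB_bd
  have hC := cosC_bd
  have hD := cosD_bd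
  interval_cases k
  · have e : 2 * (Real.pi * (((1 : ℕ) : ℝ) / 20)) = Real.pi / 10 := by push_cast; ring
    have h := cot_q (x := ((1 : ℕ) : ℝ) / 20) (q := 6313752 / 10 ^ 6)
      (c := 951056517 / 10 ^ 9) (by norm_num) (by norm_num)
      (by norm_num) (by rw [e]; exact hC.2) (by norm_num)
    have s1 : sg0 (15 + 1) = 154963 := rfl
    have s2 : kvp (35 - 1) = 992 := rfl
    rw [s1, s2]
    constructor <;> push_cast at h ⊢ <;> linarith
  · have e : 2 * (Real.pi * (((2 : ℕ) : ℝ) / 20)) = Real.pi / 5 := by push_cast; ring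
    have h := cot_q (x := ((2 : ℕ) : ℝ) / 20) (q := 3077684 / 10 ^ 6)
      (c := 809016994375 / 10 ^ 12) (by norm_num) (by norm_num)
      (by norm_num) (by rw [e]; exact hA.2) (by norm_num)
    have s1 : sg0 (15 + 2) = 75538 := rfl
    have s2 : kvp (35 - 2) = 484 := rfl
    rw [s1, s2]
    constructor <;> push_cast at h ⊢ <;> linarith
  · have e : 2 * (Real.pi * (((3 : ℕ) : ℝ) / 20)) = 3 * (Real.pi / 10) := by push_cast; ring
    have h := cot_q (x := ((3 : ℕ) : ℝ) / 20) (q := 1962611 / 10 ^ 6)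
      (c := 587785253 / 10 ^ 9) (by norm_num) (by norm_num)
      (by norm_num) (by rw [e]; exact hD.2) (by norm_num)
    have s1 : sg0 (15 + 3) = 48170 := rfl
    have s2 : kvp (35 - 3) = 309 := rfl
    rw [s1, s2]
    constructor <;> push_cast at h ⊢ <;> linarith
  · have e : 2 * (Real.pi * (((4 : ℕ) : ℝ) / 20)) = 2 * (Real.pi / 5) := by push_cast; ring
    have h := cot_q (x := ((4 : ℕ) : ℝ) / 20) (q := 1376382 / 10 ^ 6)
      (c := 309016995 / 10 ^ 9) (by norm_num) (by norm_num)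
      (by norm_num) (by rw [e]; exact hB.2) (by norm_num)
    have s1 : sg0 (15 + 4) = 33782 := rfl
    have s2 : kvp (35 - 4) = 217 := rfl
    rw [s1, s2]
    constructor <;> push_cast at h ⊢ <;> linarith
  · have e : 2 * (Real.pi * (((5 : ℕ) : ℝ) / 20)) = Real.pi / 2 := by push_cast; ring
    have h := cot_q (x := ((5 : ℕ) : ℝ) / 20) (q := 1) (c := 0) (by norm_num) (by norm_num)
      (by norm_num) (by rw [e, Real.cos_pi_div_two]) (by norm_num)
    have s1 : sg0 (15 + 5) = 24544 := rfl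
    have s2 : kvp (35 - 5) = 158 := rfl
    rw [s1, s2]
    constructor <;> push_cast at h ⊢ <;> linarith
  · have e : 2 * (Real.pi * (((6 : ℕ) : ℝ) / 20)) = Real.pi - 2 * (Real.pi / 5) := by
      push_cast; ring
    have h := cot_q (x := ((6 : ℕ) : ℝ) / 20) (q := 726543 / 10 ^ 6)
      (c := -(309016994 / 10 ^ 9)) (by norm_num) (by norm_num)
      (by norm_num) (by rw [e, Real.cos_pi_sub]; linarith [hB.1]) (by norm_num)
    have s1 : sg0 (15 + 6) = 17833 := rfl
    have s2 : kvp (35 - 6) = 115 := rfl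
    rw [s1, s2]
    constructor <;> push_cast at h ⊢ <;> linarith
  · have e : 2 * (Real.pi * (((7 : ℕ) : ℝ) / 20)) = Real.pi - 3 * (Real.pi / 10) := by
      push_cast; ring
    have h := cot_q (x := ((7 : ℕ) : ℝ) / 20) (q := 509526 / 10 ^ 6)
      (c := -(587785252 / 10 ^ 9)) (by norm_num) (by norm_num)
      (by norm_num) (by rw [e, Real.cos_pi_sub]; linarith [hD.1]) (by norm_num)
    have s1 : sg0 (15 + 7) = 12506 := rfl
    have s2 : kvp (35 - 7) = 81 := rfl
    rw [s1, s2]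
    constructor <;> push_cast at h ⊢ <;> linarith
  · have e : 2 * (Real.pi * (((8 : ℕ) : ℝ) / 20)) = Real.pi - Real.pi / 5 := by
      push_cast; ring
    have h := cot_q (x := ((8 : ℕ) : ℝ) / 20) (q := 324920 / 10 ^ 6)
      (c := -(80901699435 / 10 ^ 11)) (by norm_num) (by norm_num)
      (by norm_num) (by rw [e, Real.cos_pi_sub]; linarith [hA.1]) (by norm_num)
    have s1 : sg0 (15 + 8) = 7975 := rfl
    have s2 : kvp (35 - 8) = 52 := rfl
    rw [s1, s2]
    constructor <;> push_cast at h ⊢ <;> linarith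
  · have e : 2 * (Real.pi * (((9 : ℕ) : ℝ) / 20)) = Real.pi - Real.pi / 10 := by
      push_cast; ring
    have h := cot_q (x := ((9 : ℕ) : ℝ) / 20) (q := 158385 / 10 ^ 6)
      (c := -(951056516 / 10 ^ 9)) (by norm_num) (by norm_num)
      (by norm_num) (by rw [e, Real.cos_pi_sub]; linarith [hC.1]) (by norm_num)
    have s1 : sg0 (15 + 9) = 3888 := rfl
    have s2 : kvp (35 - 9) = 25 := rfl
    rw [s1, s2]
    constructor <;> push_cast at h ⊢ <;> linarith

/-! ### The cells -/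

theorem fR_zero' (s : ℝ) : fR 0 s = Real.pi * |s| / 2 := by
  have h1 := fR_one_sub 0 s
  have h2 := fR_add_one 0 s
  rw [sub_zero] at h1
  rw [zero_add] at h2
  linarith

theorem fR_one' (s : ℝ) : fR 1 s = -(Real.pi * |s| / 2) := by
  have h1 := fR_one_sub 0 s
  rw [sub_zero, fR_zero'] at h1
  exact h1

theorem FL_lt {n : ℕ} (hn : n < 35) (s : ℝ) : FL n s = fR (((n : ℝ) - 15) / 20) s :=
  if_neg (by omega)

theorem FL_35 (s : ℝ) : FL 35 s = 0 := if_pos rfl

/-- A cell with a bound of the second derivative. -/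
theorem cellK {n : ℕ} {θ s K : ℝ} (h0 : 0 ≤ θ) (h1 : θ ≤ 1) (hK : 0 ≤ K)
    (hs : s ≠ 0 ∨ (0 ≤ ((n : ℝ) - 15) / 20 ∧ ((n : ℝ) - 14) / 20 ≤ 1))
    (hL : ∀ x ∈ Ioo (((n : ℝ) - 15) / 20) (((n : ℝ) - 14) / 20), Lgd s x ≤ K) :
    fR (((n : ℝ) - 15 + θ) / 20) s ≤ (1 - θ) * fR (((n : ℝ) - 15) / 20) s +
      θ * fR (((n : ℝ) - 14) / 20) s + K / 3200 := by
  have h2 := chord_le (a := ((n : ℝ) - 15) / 20) (b := ((n : ℝ) - 14) / 20) (by linarith) hK
    (fR_convex_x hs hL) h0 h1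
  have e : (1 - θ) * (((n : ℝ) - 15) / 20) + θ * (((n : ℝ) - 14) / 20) =
      ((n : ℝ) - 15 + θ) / 20 := by ring
  rw [e] at h2
  have e2 : K * (((n : ℝ) - 14) / 20 - ((n : ℝ) - 15) / 20) ^ 2 / 8 = K / 3200 := by ring
  rw [e2] at h2
  exact h2

theorem sg0_big {n : ℕ} (h : 25 ≤ n) : sg0 n = 0 := by
  have key : ∀ k : ℕ, k < 25 → Nat.beq n k = false := by
    intro k hk
    cases hb : Nat.beq n k
    · rfl
    · have := Nat.eq_of_beq_eq_true hb
      omega
  unfold sg0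
  simp only [key 15 (by norm_num), key 16 (by norm_num), key 17 (by norm_num),
    key 18 (by norm_num), key 19 (by norm_num), key 20 (by norm_num), key 21 (by norm_num),
    key 22 (by norm_num), key 23 (by norm_num), key 24 (by norm_num), cond_false]

/-- The cell with the sag at the height `0`. -/
theorem cell0 {n : ℕ} (h15 : 15 ≤ n) (hn : n < 35) {θ s : ℝ} (h0 : 0 ≤ θ) (h1 : θ ≤ 1) :
    fR (((n : ℝ) - 15 + θ) / 20) s ≤ (1 - θ) * fR (((n : ℝ) - 15) / 20) s +
      θ * fR (((n : ℝ) - 14) / 20) s + (sg0 n : ℝ) / 25000000 := by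
  have c1 : (15 : ℝ) ≤ n := by exact_mod_cast h15
  have c2 : (n : ℝ) ≤ 34 := by
    have : n ≤ 34 := by omega
    exact_mod_cast this
  rcases Nat.lt_or_ge n 25 with h25 | h25
  · rcases Nat.eq_or_lt_of_le h15 with h | h
    · subst h
      have h2 := fR_chord_zero (s := s) (h := 1 / 20) (by norm_num) (by norm_num) h0 h1
      have s1 : sg0 15 = 460000 := rfl
      rw [s1]
      push_cast
      have e1 : ((15 : ℝ) - 15 + θ) / 20 = θ * (1 / 20) := by ring
      have e2 : ((15 : ℝ) - 15) / 20 = 0 := by norm_num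
      have e3 : ((15 : ℝ) - 14) / 20 = 1 / 20 := by norm_num
      rw [e1, e2, e3]
      linarith
    · obtain ⟨k, rfl⟩ : ∃ k, n = 15 + k := ⟨n - 15, by omega⟩
      have hk1 : 1 ≤ k := by omega
      have hk2 : k ≤ 9 := by omega
      have hkr : (1 : ℝ) ≤ k := by exact_mod_cast hk1
      have hkr2 : (k : ℝ) ≤ 9 := by exact_mod_cast hk2
      have e : ((15 + k : ℕ) : ℝ) - 15 = k := by push_cast; ring
      have e' : ((15 + k : ℕ) : ℝ) - 14 = k + 1 := by push_cast; ring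
      have hc := (cotk hk1 hk2).1
      have hpi := Real.pi_pos
      have hpos : 0 ≤ Real.pi * (Real.cos (Real.pi * ((k : ℝ) / 20)) /
          Real.sin (Real.pi * ((k : ℝ) / 20))) := by
        refine mul_nonneg hpi.le (div_nonneg ?_ ?_)
        · exact Real.cos_nonneg_of_neg_pi_div_two_le_of_le (by nlinarith) (by nlinarith)
        · exact Real.sin_nonneg_of_nonneg_of_le_pi (by positivity) (by nlinarith)
      have h2 := cellK (n := 15 + k) (s := s) h0 h1 hpos (Or.inr ⟨by rw [e]; positivity, by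
        rw [e']; linarith⟩) (by
        intro x hx
        rw [e, e'] at hx
        exact Lgd_le_cot' (by positivity) hx.1.le (by linarith [hx.2]))
      refine h2.trans ?_
      have : Real.pi * (Real.cos (Real.pi * ((k : ℝ) / 20)) /
          Real.sin (Real.pi * ((k : ℝ) / 20))) / 3200 ≤ (sg0 (15 + k) : ℝ) / 25000000 := by
        linarith
      linarith
  · have c3 : (25 : ℝ) ≤ n := by exact_mod_cast h25
    have h2 := cellK (n := n) (s := s) (K := 0) h0 h1 le_rfl (Or.inr ⟨by linarith, by linarith⟩) (by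
      intro x hx
      exact Lgd_nonpos (by linarith [hx.1]) (by linarith [hx.2]))
    rw [sg0_big h25]
    refine h2.trans (le_of_eq ?_)
    simp

/-- The cell with the sag at the heights `≥ i / 100`. -/
theorem celli {n i : ℕ} (hi : 1 ≤ i) {θ s : ℝ} (h0 : 0 ≤ θ) (h1 : θ ≤ 1)
    (hs : (i : ℝ) / 100 ≤ |s|) :
    fR (((n : ℝ) - 15 + θ) / 20) s ≤ (1 - θ) * fR (((n : ℝ) - 15) / 20) s +
      θ * fR (((n : ℝ) - 14) / 20) s +
      ((390625000000 / (i * (1000000 + 657 * (i * i))) + 1 : ℕ) : ℝ) / 25000000 := by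
  have hi' : (1 : ℝ) ≤ i := by exact_mod_cast hi
  have hi0 : (0 : ℝ) < (i : ℝ) / 100 := by positivity
  have hs0 : 0 < |s| := lt_of_lt_of_le hi0 hs
  have hK0 : 0 < 2 * ((i : ℝ) / 100) * (1 + 657 / 100 * ((i : ℝ) / 100) ^ 2) := by positivity
  have h2 := cellK (n := n) (s := s)
    (K := 1 / (2 * ((i : ℝ) / 100) * (1 + 657 / 100 * ((i : ℝ) / 100) ^ 2))) h0 h1
    (by positivity) (Or.inl (abs_pos.1 hs0)) (by
    intro x _
    rw [← Lgd_abs]
    refine (Lgd_le_rat hs0).trans ?_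
    apply one_div_le_one_div_of_le hK0
    gcongr)
  refine h2.trans ?_
  have e : 1 / (2 * ((i : ℝ) / 100) * (1 + 657 / 100 * ((i : ℝ) / 100) ^ 2)) / 3200 =
      390625000000 / (i * (1000000 + 657 * (i * i))) / 25000000 := by
    have : (i : ℝ) ≠ 0 := by positivity
    have h3 : (1000000 + 657 * ((i : ℝ) * i)) ≠ 0 := by positivity
    field_simp
    ring
  rw [e]
  have hd : 0 < i * (1000000 + 657 * (i * i)) := by positivity
  have h4 := Nat.lt_mul_div_succ 390625000000 hd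
  have h5 : (390625000000 : ℝ) ≤ (i * (1000000 + 657 * (i * i))) *
      ((390625000000 / (i * (1000000 + 657 * (i * i))) + 1 : ℕ) : ℝ) := by
    exact_mod_cast h4.le
  have hd' : (0 : ℝ) < i * (1000000 + 657 * (i * i)) := by exact_mod_cast hd
  have h6 : (390625000000 : ℝ) / (i * (1000000 + 657 * (i * i))) ≤
      ((390625000000 / (i * (1000000 + 657 * (i * i))) + 1 : ℕ) : ℝ) := by
    rw [div_le_iff₀ hd']
    linarith
  linarith

theorem nat_min_cases (a b : ℕ) : Nat.min a b = a ∨ Nat.min a b = b := by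
  rcases le_total a b with h | h
  · exact Or.inl (Nat.min_eq_left h)
  · exact Or.inr (Nat.min_eq_right h)

/-- The cell. -/
theorem cell {n i : ℕ} (h15 : 15 ≤ n) (hn : n < 35) {θ s : ℝ} (h0 : 0 ≤ θ) (h1 : θ ≤ 1)
    (hs : (i : ℝ) / 100 ≤ |s|) :
    fR (((n : ℝ) - 15 + θ) / 20) s ≤ (1 - θ) * fR (((n : ℝ) - 15) / 20) s +
      θ * fR (((n : ℝ) - 14) / 20) s + (sgp n i : ℝ) / 25000000 := by
  unfold sgp
  rcases Nat.eq_zero_or_pos i with h | h
  · subst h
    exact cell0 h15 hn h0 h1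
  · have hb : Nat.beq i 0 = false := by
      cases hb : Nat.beq i 0
      · rfl
      · have := Nat.eq_of_beq_eq_true hb
        omega
    rw [hb, cond_false]
    rcases nat_min_cases (sg0 n) (390625000000 / (i * (1000000 + 657 * (i * i))) + 1) with h2 | h2
    · rw [h2]
      exact cell0 h15 hn h0 h1
    · rw [h2]
      exact celli h h0 h1 hs

/-! ### The lanes -/

theorem FL_neg (n : ℕ) (s : ℝ) : FL n (-s) = FL n s := by
  unfold FL
  rw [fR_neg]

theorem ble_true {a b : ℕ} (h : a ≤ b) : Nat.ble a b = true := Nat.ble_eq_true_of_le h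

theorem ble_false {a b : ℕ} (h : b < a) : Nat.ble a b = false := by
  cases hb : Nat.ble a b
  · rfl
  · have := Nat.le_of_ble_eq_true hb
    omega

theorem beq_false {a b : ℕ} (h : a ≠ b) : Nat.beq a b = false := by
  cases hb : Nat.beq a b
  · rfl
  · exact absurd (Nat.eq_of_beq_eq_true hb) h

theorem FL_x {n i : ℕ} (hn : n < 35) (hi : i ≤ 30) {θ s : ℝ} (h0 : 0 ≤ θ) (h1 : θ ≤ 1)
    (hs : (i : ℝ) / 100 ≤ |s|) :
    fR (((n : ℝ) - 15 + θ) / 20) s ≤ (1 - θ) * FL n s + θ * FL (n + 1) s +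
      (sgc n i : ℝ) / 25000000 := by
  have _ := hi
  have hpi := Real.pi_pos
  rw [FL_lt hn]
  unfold sgc
  rcases Nat.lt_or_ge n 15 with h15 | h15
  · rw [ble_false h15, cond_false, FL_lt (by omega : n + 1 < 35)]
    have h2 := cell (n := n + 20) (i := i) (by omega) (by omega) h0 h1 hs
    have e1 : ((n + 20 : ℕ) : ℝ) - 15 + θ = ((n : ℝ) - 15 + θ) + 20 := by push_cast; ring
    have e2 : ((n + 20 : ℕ) : ℝ) - 15 = ((n : ℝ) - 15) + 20 := by push_cast; ring
    have e3 : ((n + 20 : ℕ) : ℝ) - 14 = ((n : ℝ) - 14) + 20 := by push_cast; ring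
    have e4 : ((n + 1 : ℕ) : ℝ) - 15 = (n : ℝ) - 14 := by push_cast; ring
    rw [e1, e2, e3, add_div, add_div _ (20 : ℝ) 20, add_div _ (20 : ℝ) 20,
      div_self (by norm_num : (20 : ℝ) ≠ 0), fR_add_one, fR_add_one, fR_add_one] at h2
    rw [e4]
    linarith
  · rw [ble_true h15, cond_true]
    have h2 := cell (n := n) (i := i) h15 hn h0 h1 hs
    rcases Nat.eq_or_lt_of_le (by omega : n + 1 ≤ 35) with h | h
    · rw [h, FL_35]
      have e : ((n : ℝ) - 14) / 20 = 1 := by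
        have : (n : ℝ) = 34 := by
          have : n = 34 := by omega
          rw [this]
          norm_num
        rw [this]
        norm_num
      rw [e, fR_one'] at h2
      have : θ * -(Real.pi * |s| / 2) ≤ θ * 0 :=
        mul_le_mul_of_nonneg_left (by
          have := abs_nonneg s
          have : 0 ≤ Real.pi * |s| / 2 := by positivity
          linarith) h0
      linarith
    · rw [FL_lt h]
      have e4 : ((n + 1 : ℕ) : ℝ) - 15 = (n : ℝ) - 14 := by push_cast; ring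
      rw [e4]
      exact h2

/-- The vertical chord, `15 ≤ n`. -/
theorem FLp_s {n : ℕ} (h15 : 15 ≤ n) (hn : n < 35) {a b τ : ℝ} (h0 : 0 ≤ τ) (h1 : τ ≤ 1) :
    fR (((n : ℝ) - 15) / 20) ((1 - τ) * a + τ * b) ≤ (1 - τ) * fR (((n : ℝ) - 15) / 20) a +
      τ * fR (((n : ℝ) - 15) / 20) b + (kvp n : ℝ) / 400 * (b - a) ^ 2 := by
  have c1 : (15 : ℝ) ≤ n := by exact_mod_cast h15
  rcases Nat.lt_or_ge n 26 with h26 | h26
  · have c2 : (n : ℝ) ≤ 25 := by
      have : n ≤ 25 := by omega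
      exact_mod_cast this
    have h2 := fR_convex_s (x := ((n : ℝ) - 15) / 20) (by linarith) (by linarith) (a := a) (b := b)
      h0 h1
    have h3 : 0 ≤ (kvp n : ℝ) / 400 * (b - a) ^ 2 := by positivity
    linarith
  · obtain ⟨k, hk⟩ : ∃ k, k = 35 - n := ⟨35 - n, rfl⟩
    have hk1 : 1 ≤ k := by omega
    have hk2 : k ≤ 9 := by omega
    have hkr : (1 : ℝ) ≤ k := by exact_mod_cast hk1
    have hkr2 : (k : ℝ) ≤ 9 := by exact_mod_cast hk2
    have en : n = 35 - k := by omega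
    have er : (n : ℝ) = 35 - k := by
      have : n + k = 35 := by omega
      have : (n : ℝ) + k = 35 := by exact_mod_cast this
      linarith
    have hc := (cotk hk1 hk2).2
    rw [← en] at hc
    have e : 1 - ((n : ℝ) - 15) / 20 = (k : ℝ) / 20 := by rw [er]; ring
    have h2 := fR_chord_s (x := ((n : ℝ) - 15) / 20) (K := (kvp n : ℝ) / 50)
      (by rw [er]; linarith) (by rw [er]; linarith) (by rw [e]; linarith) (a := a) (b := b) h0 h1
    have h3 : (kvp n : ℝ) / 50 / 2 * (τ * (1 - τ)) * (b - a) ^ 2 ≤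
        (kvp n : ℝ) / 50 / 2 * (1 / 4) * (b - a) ^ 2 := by
      gcongr
      exact mul_one_sub_le
    have e2 : (kvp n : ℝ) / 50 / 2 * (1 / 4) * (b - a) ^ 2 = (kvp n : ℝ) / 400 * (b - a) ^ 2 := by
      ring
    linarith

theorem abs_chord {a b τ : ℝ} (h0 : 0 ≤ τ) (h1 : τ ≤ 1) :
    |(1 - τ) * a + τ * b| ≤ (1 - τ) * |a| + τ * |b| := by
  refine (abs_add_le _ _).trans ?_
  rw [abs_mul, abs_mul, abs_of_nonneg h0, abs_of_nonneg (by linarith : (0 : ℝ) ≤ 1 - τ)]

theorem FL_s {n : ℕ} (hn : n ≤ 35) {a b τ : ℝ} (h0 : 0 ≤ τ) (h1 : τ ≤ 1) :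
    FL n ((1 - τ) * a + τ * b) ≤ (1 - τ) * FL n a + τ * FL n b +
      (kv n : ℝ) / 400 * (b - a) ^ 2 := by
  rcases Nat.eq_or_lt_of_le hn with h | h
  · subst h
    rw [FL_35, FL_35, FL_35]
    have : 0 ≤ (kv 35 : ℝ) / 400 * (b - a) ^ 2 := by positivity
    linarith
  · rw [FL_lt h, FL_lt h, FL_lt h]
    unfold kv
    rcases Nat.lt_or_ge n 15 with h15 | h15
    · rw [ble_false h15, cond_false]
      have h2 := FLp_s (n := n + 20) (by omega) (by omega) (a := a) (b := b) h0 h1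
      have e2 : ((n + 20 : ℕ) : ℝ) - 15 = ((n : ℝ) - 15) + 20 := by push_cast; ring
      rw [e2, add_div, div_self (by norm_num : (20 : ℝ) ≠ 0), fR_add_one, fR_add_one,
        fR_add_one] at h2
      have h3 := abs_chord (a := a) (b := b) h0 h1
      have h4 := mul_le_mul_of_nonneg_left h3 Real.pi_pos.le
      linarith
    · rw [ble_true h15, cond_true]
      exact FLp_s h15 h h0 h1

/-! ### The table -/

theorem nat_div_add {a b : ℕ} (hb : 0 < b) {c : ℝ} (h : c * b ≤ a) :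
    c ≤ ((a / b + 1 : ℕ) : ℝ) := by
  have h4 := Nat.lt_mul_div_succ a hb
  have h5 : (a : ℝ) ≤ b * ((a / b + 1 : ℕ) : ℝ) := by exact_mod_cast h4.le
  have hb' : (0 : ℝ) < b := by exact_mod_cast hb
  have h6 : c * b ≤ ((a / b + 1 : ℕ) : ℝ) * b := by linarith
  exact le_of_mul_le_mul_right h6 hb'

theorem fR_pt (i j : ℕ) : fR ((i : ℝ) / 200) ((j : ℝ) / 200) = -Rf (pt i j) := rfl

theorem qE_lt (e : ℕ) : qE e < 1048576 := Nat.mod_lt _ (by norm_num)

/-- The table, `15 ≤ n`. -/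
theorem lfp_ok {n q : ℕ} (h15 : 15 ≤ n) (hn : n ≤ 35) (hq : q ≤ 60) :
    5000000 * (FL n ((q : ℝ) / 200) + 1) ≤ (lfp n q : ℝ) := by
  have hpi := Real.pi_lt_d4
  have hpi0 := Real.pi_pos
  unfold lfp
  rcases Nat.eq_or_lt_of_le hn with h | h
  · subst h
    rw [FL_35, ble_true le_rfl, cond_true]
    norm_num
  rw [ble_false h, cond_false, FL_lt h]
  rcases Nat.eq_or_lt_of_le h15 with h2 | h2
  · subst h2
    have e : ((15 : ℕ) : ℝ) - 15 = 0 := by norm_num
    have eb : Nat.beq 15 15 = true := rfl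
    rw [e, zero_div, fR_zero', eb, cond_true, abs_of_nonneg (by positivity)]
    push_cast
    have hq0 : (0 : ℝ) ≤ q := by positivity
    have : Real.pi * q ≤ 3.1416 * q := mul_le_mul_of_nonneg_right hpi.le hq0
    norm_num at this ⊢
    linarith
  rw [beq_false (by omega : n ≠ 15), cond_false]
  rcases Nat.lt_or_ge n 26 with h26 | h26
  · rw [ble_true (by omega : n ≤ 25), cond_true]
    have ho := ent6_ok (10 * (n - 15)) q (by omega) hq (by omega)
    have e : ((n : ℝ) - 15) / 20 = ((10 * (n - 15) : ℕ) : ℝ) / 200 := by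
      rw [Nat.cast_mul, Nat.cast_sub h15]
      push_cast
      ring
    rw [e, fR_pt]
    have h3 := (abs_le.1 ho.q).2
    refine nat_div_add (by norm_num) ?_
    push_cast
    linarith
  · rw [ble_false (by omega : 25 < n), cond_false]
    have ho := ent6_ok (10 * (35 - n)) q (by omega) hq (by omega)
    have e : ((n : ℝ) - 15) / 20 = 1 - ((10 * (35 - n) : ℕ) : ℝ) / 200 := by
      rw [Nat.cast_mul, Nat.cast_sub hn]
      push_cast
      ring
    rw [e, fR_one_sub, fR_pt]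
    have h3 := (abs_le.1 ho.q).1
    refine nat_div_add (by norm_num) ?_
    have h4 := qE_lt (ent6 (10 * (35 - n)) q)
    rw [Nat.cast_mul, Nat.cast_sub (by omega)]
    push_cast
    linarith

theorem lfd_ok {n q : ℕ} (hn : n ≤ 35) (hq : q ≤ 60) :
    5000000 * (FL n ((q : ℝ) / 200) + 1) ≤ (lfd n q : ℝ) := by
  unfold lfd
  rcases Nat.lt_or_ge n 15 with h15 | h15
  · rw [ble_false h15, cond_false]
    have h2 := lfp_ok (n := n + 20) (by omega) (by omega) hq
    have e2 : ((n + 20 : ℕ) : ℝ) - 15 = ((n : ℝ) - 15) + 20 := by push_cast; ring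
    rw [FL_lt (by omega : n + 20 < 35), e2, add_div, div_self (by norm_num : (20 : ℝ) ≠ 0),
      fR_add_one, abs_of_nonneg (by positivity : (0 : ℝ) ≤ (q : ℝ) / 200)] at h2
    rw [FL_lt (by omega : n < 35)]
    push_cast
    have hq0 : (0 : ℝ) ≤ q := by positivity
    have hpi := Real.pi_lt_d4
    have : Real.pi * q ≤ 3.1416 * q := mul_le_mul_of_nonneg_right hpi.le hq0
    norm_num at this ⊢
    linarith
  · rw [ble_true h15, cond_true]
    exact lfp_ok h15 hn hq

theorem FL_tab {n q m : ℕ} (hn : n ≤ 35) (hq : q ≤ 59) (hm : m ≤ 5) :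
    25000000 * (FL n ((5 * q + m : ℕ) / 1000) + 1) ≤
      (((5 - m) * lfd n q + m * lfd n (q + 1) : ℕ) : ℝ) + 25 / 16 * (kv n : ℝ) := by
  have hm' : (m : ℝ) ≤ 5 := by exact_mod_cast hm
  have hm0 : (0 : ℝ) ≤ m := by positivity
  have h1 := FL_s hn (a := (q : ℝ) / 200) (b := ((q + 1 : ℕ) : ℝ) / 200) (τ := (m : ℝ) / 5)
    (by positivity) (by linarith)
  have e : (1 - (m : ℝ) / 5) * ((q : ℝ) / 200) + (m : ℝ) / 5 * (((q + 1 : ℕ) : ℝ) / 200) =
      ((5 * q + m : ℕ) : ℝ) / 1000 := by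
    push_cast
    ring
  rw [e] at h1
  have h2 := lfd_ok hn (by omega : q ≤ 60)
  have h3 := lfd_ok hn (by omega : q + 1 ≤ 60)
  have e3 : (((5 - m) * lfd n q + m * lfd n (q + 1) : ℕ) : ℝ) =
      (5 - m) * lfd n q + m * lfd n (q + 1) := by
    rw [Nat.cast_add, Nat.cast_mul, Nat.cast_mul, Nat.cast_sub hm]
    push_cast
    rfl
  rw [e3]
  have e2 : (((q + 1 : ℕ) : ℝ) / 200 - (q : ℝ) / 200) ^ 2 = 1 / 40000 := by
    push_cast
    ring
  rw [e2] at h1
  have h4 := mul_le_mul_of_nonneg_left h2 (show (0 : ℝ) ≤ 5 - m by linarith)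
  have h5 := mul_le_mul_of_nonneg_left h3 hm0
  push_cast at h1 h4 h5 ⊢
  linarith

/-! ### Bounds of the tables -/

theorem lfp_le {n q : ℕ} (hq : q ≤ 60) : lfp n q ≤ 10000153 := by
  unfold lfp
  have h1 : ∀ e : ℕ, 5000000 * (1048576 + qE e + 32) / 1048576 + 1 ≤ 10000153 := by
    intro e
    have := qE_lt e
    omega
  have h2 : ∀ e : ℕ, 5000000 * (1048576 + 32 - qE e) / 1048576 + 1 ≤ 10000153 := by
    intro e
    omega
  cases Nat.ble 35 n
  · cases Nat.beq n 15
    · cases Nat.ble n 25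
      · exact h2 _
      · exact h1 _
    · show 5000000 + 39270 * q ≤ 10000153
      omega
  · show 5000000 ≤ 10000153
    norm_num

theorem lfd_lt {n q : ℕ} (hn : n ≤ 35) (hq : q ≤ 60) : lfd n q < 2 ^ 24 := by
  have _ := hn
  unfold lfd
  cases Nat.ble 15 n
  · have := lfp_le (n := n + 20) hq
    show lfp (n + 20) q + 78540 * q < 2 ^ 24
    omega
  · have := lfp_le (n := n) hq
    show lfp n q < 2 ^ 24
    omega

theorem sg0_le (n : ℕ) : sg0 n ≤ 460000 := by
  unfold sg0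
  cases Nat.beq n 15 <;> cases Nat.beq n 16 <;> cases Nat.beq n 17 <;> cases Nat.beq n 18 <;>
    cases Nat.beq n 19 <;> cases Nat.beq n 20 <;> cases Nat.beq n 21 <;> cases Nat.beq n 22 <;>
    cases Nat.beq n 23 <;> cases Nat.beq n 24 <;> simp only [cond_true, cond_false] <;> norm_num

theorem sgp_le (n i : ℕ) : sgp n i ≤ 460000 := by
  unfold sgp
  cases Nat.beq i 0
  · exact (Nat.min_le_left _ _).trans (sg0_le n)
  · exact sg0_le n

theorem sgc_le (n i : ℕ) : sgc n i ≤ 460000 := by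
  unfold sgc
  cases Nat.ble 15 n
  · exact sgp_le _ _
  · exact sgp_le _ _

theorem sgv_lt (n i : ℕ) : sgv n i ≤ 460000 := by
  unfold sgv
  cases Nat.beq n 0
  · show Nat.max (sgc (n - 1) i) (sgc n i) ≤ 460000
    exact Nat.max_le.2 ⟨sgc_le _ _, sgc_le _ _⟩
  · show sgc 0 i ≤ 460000
    exact sgc_le _ _

theorem sgc_le_sgv (n i : ℕ) : sgc n i ≤ sgv n i := by
  unfold sgv
  rcases Nat.eq_zero_or_pos n with h | h
  · subst h
    exact le_rfl
  · rw [beq_false (by omega : n ≠ 0), cond_false]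
    exact Nat.le_max_right _ _

theorem sgc_le_sgv_succ (n i : ℕ) : sgc n i ≤ sgv (n + 1) i := by
  unfold sgv
  rw [beq_false (by omega : n + 1 ≠ 0), cond_false, Nat.add_sub_cancel]
  exact Nat.le_max_left _ _

theorem kvp_le (n : ℕ) : kvp n ≤ 992 := by
  unfold kvp
  cases Nat.beq n 26 <;> cases Nat.beq n 27 <;> cases Nat.beq n 28 <;> cases Nat.beq n 29 <;>
    cases Nat.beq n 30 <;> cases Nat.beq n 31 <;> cases Nat.beq n 32 <;> cases Nat.beq n 33 <;>
    cases Nat.beq n 34 <;> simp only [cond_true, cond_false] <;> norm_num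

theorem kv_le (n : ℕ) : kv n ≤ 992 := by
  unfold kv
  cases Nat.ble 15 n
  · exact kvp_le _
  · exact kvp_le _

end Pool.Agent.S5.Z4
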