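import Pool.Agent.S5.Z4.Tl

/-!
# The first table is correct
-/

set_option autoImplicit false

namespace Pool.Agent.S5.Z4

theorem TL_eq : TL = blh (cut tlF 20496) 15 0 := by
  decide +kernel

end Pool.Agent.S5.Z4
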