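import Pool.Agent.S5.Z4.Tl

/-!
# The other tables are correct
-/

set_option autoImplicit false

namespace Pool.Agent.S5.Z4

theorem UL_eq : UL = blh (cut ulF 10416) 14 0 := by
  decide +kernel

theorem SGL_eq : SGL = blh (cut sgF 5376) 13 0 := by
  decide +kernel

theorem SUL_eq : SUL = blh (cut suF 5376) 13 0 := by
  decide +kernel

theorem KVL_eq : KVL = blh (cut kvF 336) 9 0 := by
  decide +kernel

theorem KUL_eq : KUL = blh (cut kuF 336) 9 0 := by
  decide +kernel

theorem XVJ_eq : XVJ = blh (cut vjF 336) 9 0 := by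
  decide +kernel

theorem XR_eq : XR = blh (cut xrF 336) 9 0 := by
  decide +kernel

theorem O336_eq : O336 = blh (cut (fun _ => 1) 336) 9 0 := by
  decide +kernel

theorem H336_eq : H336 = blh (cut (fun _ => 549755813888) 336) 9 0 := by
  decide +kernel

theorem MW_eq : MW = blh (cut mwF 336) 9 0 := by
  decide +kernel

theorem M336_eq : M336 = 2 ^ 13440 - 1 := by
  decide +kernel

end Pool.Agent.S5.Z4
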