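import Pool.Agent.S5.Z4.Eg
import Pool.Agent.S5.Z4.TlE
import Pool.Agent.S5.Z4.TlF
import Pool.Agent.S5.Z4.LnA

/-!
# The lanes of the literals
-/

set_option autoImplicit false

namespace Pool.Agent.S5.Z4

theorem pk_const_zero (b n : ℕ) : pk b n (fun _ => 0) = 0 := by
  unfold pk
  simp

theorem cut_pk {f : ℕ → ℕ} {n k : ℕ} (h : n ≤ 2 ^ k) : blh (cut f n) k 0 = pk (2 ^ 40) n f := by
  rw [blh_eq]
  obtain ⟨m, hm⟩ : ∃ m, 2 ^ k = n + m := ⟨2 ^ k - n, by omega⟩
  rw [hm, pk_split]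
  have e1 : pk (2 ^ 40) m (fun i => cut f n (0 + (n + i))) = 0 := by
    rw [← pk_const_zero (2 ^ 40) m]
    refine pk_congr fun i _ => ?_
    unfold cut
    rw [ble_true (by omega)]
    rfl
  have e2 : pk (2 ^ 40) n (fun i => cut f n (0 + i)) = pk (2 ^ 40) n f := by
    refine pk_congr fun i hi => ?_
    unfold cut
    rw [zero_add, ble_false hi]
    rfl
  rw [e1, e2, mul_zero, add_zero]

theorem M336_lmk : M336 = lmk 336 := by decide +kernel

theorem lit_ok {L : ℕ} {f : ℕ → ℕ} {n k c : ℕ} (hL : L = blh (cut f n) k 0) (hn : n ≤ 2 ^ k)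
    (hf : ∀ i < n, f i ≤ c) : Rp n L f c := ⟨by rw [hL, cut_pk hn], hf⟩

theorem rd_ok {L : ℕ} {f : ℕ → ℕ} {n k c : ℕ} (hL : L = blh (cut f n) k 0) (hn : n ≤ 2 ^ k)
    (hf : ∀ i < n, f i ≤ c) (hc : c < 2 ^ 40) {q : ℕ} (hq : 336 * q + 336 ≤ n) :
    Rp 336 (rd L q) (fun i => f (336 * q + i)) c := by
  obtain ⟨l, hl⟩ : ∃ l, n = 336 * q + 336 + l := ⟨n - (336 * q + 336), by omega⟩
  have h := lit_ok hL hn hf
  rw [hl] at h
  have k1 := h.window hc
  rw [← lmk_eq, ← M336_lmk] at k1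
  have e : rd L q = (L >>> (40 * (336 * q))) &&& M336 := by
    unfold rd
    rw [show 40 * (336 * q) = 13440 * q by ring]
    rfl
  rw [e]
  exact k1

theorem dm {q i : ℕ} (hi : i < 336) : (336 * q + i) % 336 = i ∧ (336 * q + i) / 336 = q := by
  omega

/-- The table `TL`. -/
theorem TL_ok {q : ℕ} (hq : q ≤ 60) :
    Rp 336 (rd TL q) (fun i => lfd (20 + i / 21 - i % 21) q) (2 ^ 24) := by
  refine (rd_ok (c := 2 ^ 24) TL_eq (by norm_num) (fun i hi => ?_) (by norm_num)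
    (by omega)).congr fun i hi => ?_
  · exact (lfd_lt (by omega) (by omega)).le
  · unfold tlF
    rw [(dm hi).1, (dm hi).2]

/-- The table `UL`. -/
theorem UL_ok {q : ℕ} (hq : q ≤ 30) :
    Rp 336 (rd UL q) (fun i => lfd (30 - i / 21) q) (2 ^ 24) := by
  refine (rd_ok (c := 2 ^ 24) UL_eq (by norm_num) (fun i hi => ?_) (by norm_num)
    (by omega)).congr fun i hi => ?_
  · exact (lfd_lt (by omega) (by omega)).le
  · unfold ulF
    rw [(dm hi).1, (dm hi).2]

/-- The table `SGL`. -/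
theorem SGL_ok {q : ℕ} (hq : q ≤ 15) :
    Rp 336 (rd SGL q) (fun i => sgv (20 + i / 21 - i % 21) q) 460000 := by
  refine (rd_ok (c := 460000) SGL_eq (by norm_num) (fun i hi => ?_) (by norm_num)
    (by omega)).congr fun i hi => ?_
  · exact sgv_lt _ _
  · unfold sgF
    rw [(dm hi).1, (dm hi).2]

/-- The table `SUL`. -/
theorem SUL_ok {q : ℕ} (hq : q ≤ 15) :
    Rp 336 (rd SUL q) (fun i => sgv (30 - i / 21) q) 460000 := by
  refine (rd_ok (c := 460000) SUL_eq (by norm_num) (fun i hi => ?_) (by norm_num)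
    (by omega)).congr fun i hi => ?_
  · exact sgv_lt _ _
  · unfold suF
    rw [(dm hi).1, (dm hi).2]

theorem KVL_ok : Rp 336 KVL (fun i => kv (20 + i / 21 - i % 21)) 992 :=
  lit_ok KVL_eq (by norm_num) fun _ _ => kv_le _

theorem KUL_ok : Rp 336 KUL (fun i => kv (30 - i / 21)) 992 :=
  lit_ok KUL_eq (by norm_num) fun _ _ => kv_le _

theorem XVJ_ok : Rp 336 XVJ (fun i => i / 21 + i % 21) 35 :=
  lit_ok XVJ_eq (by norm_num) fun i hi => by show i / 21 + i % 21 ≤ 35; omega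

theorem XR_ok : Rp 336 XR (fun i => 15 - i / 21) 15 :=
  lit_ok XR_eq (by norm_num) fun i hi => by show 15 - i / 21 ≤ 15; omega

theorem O336_ok : Rp 336 O336 (fun _ => 1) 1 :=
  lit_ok O336_eq (by norm_num) fun _ _ => le_rfl

theorem H336_pk : H336 = pk (2 ^ 40) 336 fun _ => 2 ^ 39 := by
  rw [H336_eq, cut_pk (by norm_num)]
  exact pk_congr fun _ _ => by norm_num

theorem MW_ok : Rp 336 MW (fun i => if 15 + i % 21 ≤ 20 + i / 21 then 2 ^ 40 - 1 else 0)
    (2 ^ 40 - 1) := by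
  refine (lit_ok (c := 2 ^ 40 - 1) MW_eq (by norm_num) fun i hi => ?_).congr fun i hi => ?_
  · unfold mwF
    cases Nat.ble (15 + i % 21) (20 + i / 21)
    · exact Nat.zero_le _
    · exact le_of_eq (by norm_num)
  · unfold mwF
    by_cases h : 15 + i % 21 ≤ 20 + i / 21
    · rw [if_pos h, ble_true h]
      rfl
    · rw [if_neg h, ble_false (by omega)]
      rfl

theorem pk_ones {b : ℕ} (hb : 0 < b) (n : ℕ) : pk b n (fun _ => b - 1) + 1 = b ^ n := by
  induction n with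
  | zero => simp [pk_zero]
  | succ n ih =>
    rw [pk_succ, pow_succ]
    obtain ⟨c, rfl⟩ : ∃ c, b = c + 1 := ⟨b - 1, by omega⟩
    simp only [Nat.add_sub_cancel] at ih ⊢
    rw [← ih]
    ring

theorem M336_ok : Rp 336 M336 (fun _ => 2 ^ 40 - 1) (2 ^ 40 - 1) := by
  refine ⟨?_, fun _ _ => le_rfl⟩
  rw [M336_lmk, lmk_eq, pow_mul]
  have := pk_ones (b := 2 ^ 40) (by positivity) 336
  omega

theorem pk_band {b : ℕ} (hb : 0 < b) (a m l : ℕ) :
    pk b (a + (m + l)) (fun i => if a ≤ i ∧ i < a + m then b - 1 else 0) = b ^ (a + m) - b ^ a := by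
  rw [pk_split, pk_split]
  have e1 : pk b a (fun i => if a ≤ i ∧ i < a + m then b - 1 else 0) = 0 := by
    refine (pk_congr fun i hi => ?_).trans (pk_const_zero b a)
    rw [if_neg (by omega)]
  have e2 : pk b m (fun i => if a ≤ a + i ∧ a + i < a + m then b - 1 else 0) =
      pk b m (fun _ => b - 1) := by
    refine pk_congr fun i hi => ?_
    rw [if_pos (by omega)]
  have e3 : pk b l (fun i => if a ≤ a + (m + i) ∧ a + (m + i) < a + m then b - 1 else 0) = 0 := by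
    refine (pk_congr fun i hi => ?_).trans (pk_const_zero b l)
    rw [if_neg (by omega)]
  rw [e1, e2, e3, mul_zero, add_zero, zero_add, pow_add, ← pk_ones hb m, mul_add, mul_one,
    Nat.add_sub_cancel]

theorem msk_pow (a b : ℕ) : msk a b = 2 ^ (840 * (b + 1)) - 2 ^ (840 * a) := rfl

/-- The masks. -/
theorem msk_ok {a b : ℕ} (hab : a ≤ b) (hb : b ≤ 15) :
    Rp 336 (msk a b) (fun i => if a ≤ i / 21 ∧ i / 21 ≤ b then 2 ^ 40 - 1 else 0)
      (2 ^ 40 - 1) := by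
  refine ⟨?_, fun i _ => ?_⟩
  · obtain ⟨m, rfl⟩ : ∃ m, b = a + m := ⟨b - a, by omega⟩
    obtain ⟨l, hl⟩ : ∃ l, 15 = a + m + l := ⟨15 - (a + m), by omega⟩
    have e : (336 : ℕ) = 21 * a + (21 * (m + 1) + 21 * l) := by omega
    have k := pk_band (b := 2 ^ 40) (by positivity) (21 * a) (21 * (m + 1)) (21 * l)
    rw [← e] at k
    have k2 : pk (2 ^ 40) 336
        (fun i => if a ≤ i / 21 ∧ i / 21 ≤ a + m then 2 ^ 40 - 1 else 0) =
        pk (2 ^ 40) 336
          (fun i => if 21 * a ≤ i ∧ i < 21 * a + 21 * (m + 1) then 2 ^ 40 - 1 else 0) := by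
      refine pk_congr fun i hi => ?_
      by_cases h : a ≤ i / 21 ∧ i / 21 ≤ a + m
      · rw [if_pos h, if_pos (by omega)]
      · rw [if_neg h, if_neg (by omega)]
    rw [k2, k, msk_pow, ← pow_mul, ← pow_mul, show 40 * (21 * a) = 840 * a by ring,
      show 40 * (21 * a + 21 * (m + 1)) = 840 * (a + m + 1) by ring]
  · show (if a ≤ i / 21 ∧ i / 21 ≤ b then 2 ^ 40 - 1 else 0) ≤ 2 ^ 40 - 1
    split_ifs
    · exact le_rfl
    · exact Nat.zero_le _

/-- The mask of the lanes `0` and `15`. -/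
theorem msk_lr : Rp 336 (msk 0 0 + msk 15 15)
    (fun i => if i / 21 = 0 ∨ i / 21 = 15 then 2 ^ 40 - 1 else 0) (2 ^ 40 - 1) := by
  have h := ((msk_ok (a := 0) (b := 0) le_rfl (by norm_num)).add
    (msk_ok (a := 15) (b := 15) le_rfl le_rfl)).congr
    (h := fun i => if i / 21 = 0 ∨ i / 21 = 15 then 2 ^ 40 - 1 else 0) (fun i hi => by
      show ((if 0 ≤ i / 21 ∧ i / 21 ≤ 0 then 2 ^ 40 - 1 else 0) +
        if 15 ≤ i / 21 ∧ i / 21 ≤ 15 then 2 ^ 40 - 1 else 0) = _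
      by_cases h1 : i / 21 = 0
      · rw [if_pos (by omega), if_neg (by omega), if_pos (by omega), add_zero]
      · by_cases h2 : i / 21 = 15
        · rw [if_neg (by omega), if_pos (by omega), if_pos (by omega), zero_add]
        · rw [if_neg (by omega), if_neg (by omega), if_neg (by omega)])
  refine h.le fun i _ => ?_
  show (if i / 21 = 0 ∨ i / 21 = 15 then 2 ^ 40 - 1 else 0) ≤ 2 ^ 40 - 1
  split_ifs
  · exact le_rfl
  · exact Nat.zero_le _

end Pool.Agent.S5.Z4
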