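import Pool.Agent.S5.Z4.EgD
import Pool.Agent.S5.Z4.TlR

/-!
# The engine: rows and columns
-/

set_option autoImplicit false

namespace Pool.Agent.S5.Z4

open Pool.Agent.S5.Num (fN)

private theorem fN_w {α : Type} (f : ℕ → α) (n : ℕ) : fN f n = f n := by
  cases n <;> rfl

theorem mnn_le (a b : ℕ) : mnn a b ≤ a ∧ mnn a b ≤ b := by
  unfold mnn
  rcases Nat.lt_or_ge b a with h | h
  · rw [ble_false h]
    exact ⟨h.le, le_rfl⟩
  · rw [ble_true h]
    exact ⟨le_rfl, h⟩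

theorem mnn_eq (a b : ℕ) : mnn a b = a ∨ mnn a b = b := by
  unfold mnn
  cases Nat.ble a b
  · exact Or.inr rfl
  · exact Or.inl rfl

theorem dst_cases (a b : ℕ) : (b ≤ a ∧ dst a b = a - b) ∨ (a ≤ b ∧ dst a b = b - a) := by
  unfold dst
  show (b ≤ a ∧ (a - b) + (b - a) = a - b) ∨ (a ≤ b ∧ (a - b) + (b - a) = b - a)
  omega

/-- The interpolation in the table `TL`. -/
theorem tabF_TL {s : ℕ} {k : ℕ → Bool} (hs : s ≤ 300) (H : tabF TL 59 s k = true) :
    ∃ V : ℕ, ∃ g : ℕ → ℕ, Rp 336 V g (2 ^ 27) ∧ k V = true ∧ ∀ i < 336,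
      25000000 * (FL (20 + i / 21 - i % 21) ((s : ℝ) / 1000) + 1) ≤
        (g i : ℝ) + 25 / 16 * (kv (20 + i / 21 - i % 21) : ℝ) := by
  unfold tabF at H
  rw [fN_w, fN_w, fN_w] at H
  obtain ⟨q1, q2⟩ := mnn_le (Nat.div s 5) 59
  have q3 := mnn_eq (Nat.div s 5) 59
  have q4 : Nat.div s 5 = s / 5 := rfl
  generalize mnn (Nat.div s 5) 59 = q at q1 q2 q3 H
  rw [q4] at q1 q3
  have hm : s - 5 * q ≤ 5 := by omega
  have hsq : 5 * q + (s - 5 * q) = s := by omega
  have hm' : Nat.sub s (Nat.mul 5 q) = s - 5 * q := rfl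
  rw [hm'] at H
  generalize s - 5 * q = m at *
  have t1 := (TL_ok (q := q) (by omega)).smul (5 - m)
  have t2 := (TL_ok (q := q + 1) (by omega)).smul m
  have t3 := t1.add t2
  refine ⟨_, _, t3.mono ?_, H, fun i hi => ?_⟩
  · have : (5 - m) * 2 ^ 24 + m * 2 ^ 24 = 5 * 2 ^ 24 := by
      rw [← Nat.add_mul]
      congr 1
      omega
    rw [this]
    norm_num
  · have := FL_tab (n := 20 + i / 21 - i % 21) (q := q) (m := m) (by omega) q2 hm
    rw [hsq] at this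
    exact this

theorem Gap_ok {r : Rw} {x : Cx} (hr : r.lo ≤ r.hi) (hx : x.lo ≤ x.hi) :
    Gap (mnn 15 (Nat.div (Nat.add (Nat.sub r.lo x.hi) (Nat.sub x.lo r.hi)) 10))
      (ht r.lo) (ht r.hi) (ht x.lo) (ht x.hi) := by
  have e : Nat.div (Nat.add (Nat.sub r.lo x.hi) (Nat.sub x.lo r.hi)) 10 =
      ((r.lo - x.hi) + (x.lo - r.hi)) / 10 := rfl
  rw [e]
  obtain ⟨h1, h2⟩ := mnn_le 15 (((r.lo - x.hi) + (x.lo - r.hi)) / 10)
  generalize mnn 15 (((r.lo - x.hi) + (x.lo - r.hi)) / 10) = i at *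
  refine ⟨h1, fun h z a1 a2 a3 a4 => ?_⟩
  unfold ht at a1 a2 a3 a4
  rcases Nat.lt_or_ge x.hi r.lo with c | c
  · have h3 : 10 * i + x.hi ≤ r.lo := by omega
    have h4 : 10 * (i : ℝ) + x.hi ≤ r.lo := by exact_mod_cast h3
    exact le_trans (by linarith only [h4, a4, a1]) (le_abs_self _)
  · rcases Nat.lt_or_ge r.hi x.lo with c' | c'
    · have h3 : 10 * i + r.hi ≤ x.lo := by omega
      have h4 : 10 * (i : ℝ) + r.hi ≤ x.lo := by exact_mod_cast h3
      exact le_trans (by linarith only [h4, a3, a2]) (neg_le_abs _)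
    · have h3 : i = 0 := by omega
      rw [h3]
      simp

theorem FL_dst (n a b : ℕ) : FL n (ht a - ht b) = FL n ((dst a b : ℕ) / 1000) := by
  unfold ht
  rcases dst_cases a b with ⟨h, e⟩ | ⟨h, e⟩
  · rw [e, Nat.cast_sub h]
    congr 1
    ring
  · rw [e, Nat.cast_sub h, ← FL_neg]
    congr 1
    ring

/-- **The values of a row.** -/
theorem wrow_sound {r : Rw} {x : Cx} {k : ℕ → Bool} {Y : ℕ → ℕ} (hr : RwOK r Y) (hx : CxOK x)
    (H : wrow r x k = true) : ∃ (W : ℕ) (w : ℕ → ℕ) (i : ℕ), Rp 336 W w (2 ^ 38) ∧ k W = true ∧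
      Gap i (ht r.lo) (ht r.hi) (ht x.lo) (ht x.hi) ∧
      ∀ v < 16, ∀ j < 21, VB1 r Y x i v j (w (21 * v + j)) := by
  have r0 := hr.h0
  have r1 := hr.h1
  have rd := hr.d
  have z0 := hx.z0
  have z1 := hx.z1
  have xd := hx.d
  unfold wrow at H
  rw [fN_w, fN_w, fN_w] at H
  have hs : dst r.h x.z ≤ 300 := by
    rcases dst_cases r.h x.z with ⟨-, e⟩ | ⟨-, e⟩ <;> omega
  obtain ⟨V, g, hV, H, hg⟩ := tabF_TL hs H
  rw [fN_w] at H
  have hgap := Gap_ok (r := r) (x := x) hr.lh hx.lh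
  generalize hi : mnn 15 (Nat.div (Nat.add (Nat.sub r.lo x.hi) (Nat.sub x.lo r.hi)) 10) = i
    at hgap H
  generalize ha : Nat.div (Nat.add (Nat.add r.d x.d) 40) 16 = a at H
  have ha' : a = (r.d + x.d + 40) / 16 := ha.symm
  have ha1 : r.d + x.d + 25 ≤ 16 * a := by omega
  have ha2 : a ≤ 12503 := by omega
  have hS := SGL_ok (q := i) hgap.1
  have hK := KVL_ok.smul a
  have hX := XVJ_ok.smul (3927 * (r.h + x.z))
  have hO := O336_ok.smul (39270 * x.z + 1191551924)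
  have hX2 := XVJ_ok.smul 7854000
  have hO2 := O336_ok.smul (39270 * r.h + 58905 * (r.h + x.z))
  have hA := hV.add (hS.add (hK.add (hX.add (hr.y.add hO))))
  have hB := hX2.add hO2
  have hle : ∀ l < 336, 7854000 * (l / 21 + l % 21) +
      (39270 * r.h + 58905 * (r.h + x.z)) * 1 ≤ g l +
        (sgv (20 + l / 21 - l % 21) i + (a * kv (20 + l / 21 - l % 21) +
          (3927 * (r.h + x.z) * (l / 21 + l % 21) +
            (Y l + (39270 * x.z + 1191551924) * 1)))) := by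
    intro l hl
    generalize sgv (20 + l / 21 - l % 21) i = a1
    generalize a * kv (20 + l / 21 - l % 21) = a2
    generalize 3927 * (r.h + x.z) * (l / 21 + l % 21) = a3
    omega
  have hW := hA.sub hB hle
  refine ⟨_, _, i, hW.mono ?_, H, hgap, ?_⟩
  · have h1 : a * 992 ≤ 12503 * 992 := Nat.mul_le_mul_right _ ha2
    have h2 : 3927 * (r.h + x.z) * 35 ≤ 3927 * 2300 * 35 :=
      Nat.mul_le_mul_right _ (Nat.mul_le_mul_left _ (by omega))
    have h3 : (2 : ℕ) ^ 27 + (460000 + (12503 * 992 + (3927 * 2300 * 35 + (2 ^ 36 +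
      (39270 * 1150 + 1191551924) * 1)))) ≤ 2 ^ 38 := by norm_num
    have h4 : (39270 * x.z + 1191551924) * 1 ≤ (39270 * 1150 + 1191551924) * 1 :=
      Nat.mul_le_mul_right _ (Nat.add_le_add_right (Nat.mul_le_mul_left _ z1) _)
    exact le_trans (Nat.add_le_add_left (Nat.add_le_add_left (Nat.add_le_add h1
      (Nat.add_le_add h2 (Nat.add_le_add_left h4 _))) _) _) h3
  · intro v hv j hj
    have e1 : (21 * v + j) / 21 = v := by omega
    have e2 : (21 * v + j) % 21 = j := by omega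
    have hg' := hg (21 * v + j) (by omega)
    have hle' := hle (21 * v + j) (by omega)
    rw [e1, e2] at hg' hle'
    unfold VB1
    show _ ≤ (((g (21 * v + j) + (sgv (20 + (21 * v + j) / 21 - (21 * v + j) % 21) i +
      (a * kv (20 + (21 * v + j) / 21 - (21 * v + j) % 21) +
        (3927 * (r.h + x.z) * ((21 * v + j) / 21 + (21 * v + j) % 21) +
          (Y (21 * v + j) + (39270 * x.z + 1191551924) * 1))))) -
      (7854000 * ((21 * v + j) / 21 + (21 * v + j) % 21) +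
        (39270 * r.h + 58905 * (r.h + x.z)) * 1) : ℕ) : ℝ)
    rw [e1, e2, Nat.cast_sub hle']
    rw [← FL_dst] at hg'
    have hv' : (v : ℝ) ≤ 15 := by exact_mod_cast (by omega : v ≤ 15)
    have hj' : (j : ℝ) ≤ 20 := by exact_mod_cast (by omega : j ≤ 20)
    have hv0 : (0 : ℝ) ≤ v := Nat.cast_nonneg v
    have hj0 : (0 : ℝ) ≤ j := Nat.cast_nonneg j
    have r0' : (850 : ℝ) ≤ r.h := by exact_mod_cast r0
    have r1' : (r.h : ℝ) ≤ 1150 := by exact_mod_cast r1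
    have z0' : (850 : ℝ) ≤ x.z := by exact_mod_cast z0
    have z1' : (x.z : ℝ) ≤ 1150 := by exact_mod_cast z1
    have a1' : (r.d : ℝ) + x.d + 25 ≤ 16 * a := by exact_mod_cast ha1
    have hk0 : (0 : ℝ) ≤ kv (20 + v - j) := Nat.cast_nonneg _
    have hkv := mul_le_mul_of_nonneg_left a1' hk0
    have p1 := Real.pi_gt_d6
    have p2 := Real.pi_lt_d6
    have hw : wv v j (ht r.h) (ht x.z) = FL (20 + v - j) (ht r.h - ht x.z) +
        Real.pi / 20000 * (((v : ℝ) + j - 15) * ((r.h : ℝ) + x.z - 2000)) -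
          Real.pi / 2000 * ((r.h : ℝ) - x.z) := by
      unfold wv ht
      ring
    have hP : |(v : ℝ) + j - 15| ≤ 20 := abs_le.2 ⟨by linarith only [], by linarith only [hj', hv']⟩
    have hQ : |(r.h : ℝ) + x.z - 2000| ≤ 300 := abs_le.2 ⟨by linarith only [z0', r0'], by linarith only [z1',
                                                                                            r1']⟩
    have hPQ : |((v : ℝ) + j - 15) * ((r.h : ℝ) + x.z - 2000)| ≤ 6000 := by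
      rw [abs_mul]
      calc |(v : ℝ) + j - 15| * |(r.h : ℝ) + x.z - 2000| ≤ 20 * 300 :=
            mul_le_mul hP hQ (abs_nonneg _) (by norm_num)
        _ = 6000 := by norm_num
    have e3 : 1250 * Real.pi * (((v : ℝ) + j - 15) * ((r.h : ℝ) + x.z - 2000)) ≤
        3927 * (((v : ℝ) + j - 15) * ((r.h : ℝ) + x.z - 2000)) + 60 := by
      have h1 : |1250 * Real.pi - 3927| ≤ 1 / 100 := by
        rw [abs_le]
        constructor <;> linarith
      have h2 : (1250 * Real.pi - 3927) * (((v : ℝ) + j - 15) * ((r.h : ℝ) + x.z - 2000)) ≤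
          1 / 100 * 6000 := by
        refine (le_abs_self _).trans ?_
        rw [abs_mul]
        exact mul_le_mul h1 hPQ (abs_nonneg _) (by norm_num)
      linarith only [h2]
    have e4 : -(12500 * Real.pi * ((r.h : ℝ) - x.z)) ≤ -(39270 * ((r.h : ℝ) - x.z)) + 30 := by
      have h1 : |39270 - 12500 * Real.pi| ≤ 1 / 10 := by
        rw [abs_le]
        constructor <;> linarith
      have h3 : |(r.h : ℝ) - x.z| ≤ 300 := abs_le.2 ⟨by linarith only [z1', r0'], by linarith only [z0',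
                                                                                       r1']⟩
      have h2 : (39270 - 12500 * Real.pi) * ((r.h : ℝ) - x.z) ≤ 1 / 10 * 300 := by
        refine (le_abs_self _).trans ?_
        rw [abs_mul]
        exact mul_le_mul h1 h3 (abs_nonneg _) (by norm_num)
      linarith only [h2]
    rw [hw]
    push_cast
    linarith only [e4, e3, p2, p1, hkv, hg']

/-! ### The maxima over the columns -/

theorem Rp.uniq {n x c d : ℕ} {g h : ℕ → ℕ} (hx : Rp n x g c) (hy : Rp n x h d)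
    (hc : c < 2 ^ 40) (hd : d < 2 ^ 40) {i : ℕ} (hi : i < n) : g i = h i := by
  rw [← hx.dg hc hi, ← hy.dg hd hi]

theorem VB1.congr {r : Rw} {Y Z : ℕ → ℕ} {x : Cx} {i v j m : ℕ} (H : VB1 r Y x i v j m)
    (hY : RwOK r Y) (hZ : RwOK r Z) (hv : v < 16) (hj : j < 21) : VB1 r Z x i v j m := by
  have e : Z (21 * v + j) = Y (21 * v + j) :=
    hZ.y.uniq hY.y (by norm_num) (by norm_num) (by omega)
  unfold VB1 at H ⊢
  rw [e]
  exact H

theorem VB1.mono {r : Rw} {Y : ℕ → ℕ} {x : Cx} {i v j m l : ℕ} (H : VB1 r Y x i v j m)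
    (h : m ≤ l) : VB1 r Y x i v j l := by
  unfold VB1 at H ⊢
  exact H.trans (by exact_mod_cast h)

/-- The bound of a row by the lanes `b`, on the lanes `P`. -/
def RC (r : Rw) (x : Cx) (b : ℕ → ℕ) (P : ℕ → ℕ → Prop) : Prop :=
  ∀ Y, RwOK r Y → ∃ i : ℕ, Gap i (ht r.lo) (ht r.hi) (ht x.lo) (ht x.hi) ∧
    ∀ v < 16, ∀ j < 21, P v j → VB1 r Y x i v j (b (21 * v + j))

theorem RC.mono {r : Rw} {x : Cx} {b c : ℕ → ℕ} {P : ℕ → ℕ → Prop} (H : RC r x b P)
    (h : ∀ l < 336, b l ≤ c l) : RC r x c P := by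
  intro Y hY
  obtain ⟨i, h1, h2⟩ := H Y hY
  exact ⟨i, h1, fun v hv j hj hP => (h2 v hv j hj hP).mono (h _ (by omega))⟩

theorem RC.rb {r : Rw} {x : Cx} {b M : ℕ → ℕ} {P : ℕ → ℕ → Prop} (H : RC r x b P)
    (h : ∀ v < 16, ∀ j < 21, b (21 * v + j) ≤ M j) {Y : ℕ → ℕ} (hY : RwOK r Y) :
    RB r Y x M P := by
  obtain ⟨i, h1, h2⟩ := H Y hY
  exact ⟨i, h1, fun v hv j hj hP => (h2 v hv j hj hP).mono (h v hv j hj)⟩

theorem wrow_rc {r : Rw} {x : Cx} {k : ℕ → Bool} (hr : ∃ Y, RwOK r Y) (hx : CxOK x)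
    (H : wrow r x k = true) : ∃ (W : ℕ) (w : ℕ → ℕ), Rp 336 W w (2 ^ 38) ∧ k W = true ∧
      RC r x w fun _ _ => True := by
  obtain ⟨Y, hY⟩ := hr
  obtain ⟨W, w, i, h1, h2, h3, h4⟩ := wrow_sound hY hx H
  exact ⟨W, w, h1, h2, fun Z hZ => ⟨i, h3, fun v hv j hj _ => (h4 v hv j hj).congr hY hZ hv hj⟩⟩

theorem Rp.zero {n c : ℕ} : Rp n 0 (fun _ => 0) c := ⟨(pk_const_zero _ _).symm, fun _ _ => Nat.zero_le _⟩

theorem ctx1_aux {x : Cx} {k : ℕ → Bool} (hx : CxOK x) :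
    ∀ (R : List Rw) (A : ℕ) (α : ℕ → ℕ), (∀ r ∈ R, ∃ Y, RwOK r Y) → Rp 336 A α (2 ^ 38) →
      List.rec (motive := fun _ => ℕ → Bool) (fun A => fN k (cmx H336 A))
        (fun r _ ih A => wrow r x fun W => fN ih (mxv H336 A W)) R A = true →
      ∃ (B : ℕ) (β : ℕ → ℕ), Rp 336 B β (2 ^ 38) ∧ k (cmx H336 B) = true ∧
        (∀ l < 336, α l ≤ β l) ∧ ∀ r ∈ R, RC r x β fun _ _ => True := by
  intro R
  induction R with
  | nil =>
    intro A α _ hA H
    refine ⟨A, α, hA, ?_, fun _ _ => le_rfl, fun r hr => absurd hr (List.not_mem_nil)⟩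
    have H' : fN k (cmx H336 A) = true := H
    rwa [fN_w] at H'
  | cons r R ih =>
    intro A α hR hA H
    have H' : (wrow r x fun W => fN (fun A => List.rec (motive := fun _ => ℕ → Bool)
        (fun A => fN k (cmx H336 A))
        (fun r _ ih A => wrow r x fun W => fN ih (mxv H336 A W)) R A) (mxv H336 A W)) = true := H
    obtain ⟨W, w, hW, H2, hrc⟩ := wrow_rc (hR r (List.mem_cons_self ..)) hx H'
    rw [fN_w] at H2
    obtain ⟨B, β, h1, h2, h3, h4⟩ := ih _ _ (fun s hs => hR s (List.mem_cons_of_mem _ hs))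
      (Rp.mx H336_pk hA hW (by norm_num)) H2
    refine ⟨B, β, h1, h2, fun l hl => (le_max_left _ _).trans (h3 l hl), fun s hs => ?_⟩
    rcases List.mem_cons.1 hs with rfl | hs
    · exact hrc.mono fun l hl => (le_max_right _ _).trans (h3 l hl)
    · exact h4 s hs

/-- **The maxima over the columns.** -/
theorem ctx1_sound {R : List Rw} {x : Cx} {k : ℕ → Bool} (hR : ∀ r ∈ R, ∃ Y, RwOK r Y)
    (hx : CxOK x) (H : ctx1 R x k = true) : ∃ (a : ℕ) (M : ℕ → ℕ), k a = true ∧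
      Rp 21 a M (2 ^ 38) ∧ ∀ r ∈ R, ∀ Y, RwOK r Y → RB r Y x M fun _ _ => True := by
  obtain ⟨B, β, h1, h2, -, h4⟩ := ctx1_aux hx R 0 (fun _ => 0) hR Rp.zero H
  obtain ⟨M, hM, hM2⟩ := Rp.cmx H336_pk h1 (by norm_num)
  exact ⟨_, M, h2, hM, fun r hr Y hY => (h4 r hr).rb hM2 hY⟩

theorem Rp.band {n x y c : ℕ} {g : ℕ → ℕ} {Q : ℕ → Prop} [DecidablePred Q] (hx : Rp n x g c)
    (hy : Rp n y (fun i => if Q i then 2 ^ 40 - 1 else 0) (2 ^ 40 - 1)) (hc : c < 2 ^ 40) :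
    Rp n (Nat.land x y) (fun i => if Q i then g i else 0) c := by
  have h := hx.mask hy hc fun i _ => by
    show (if Q i then 2 ^ 40 - 1 else 0) = 0 ∨ (if Q i then 2 ^ 40 - 1 else 0) = 2 ^ 40 - 1
    by_cases h : Q i
    · rw [if_pos h]
      exact Or.inr rfl
    · rw [if_neg h]
      exact Or.inl rfl
  refine h.congr fun i _ => ?_
  show (if (if Q i then 2 ^ 40 - 1 else 0) = 0 then 0 else g i) = if Q i then g i else 0
  by_cases h : Q i
  · rw [if_pos h, if_pos h, if_neg (by norm_num)]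
  · rw [if_neg h, if_neg h, if_pos rfl]

theorem ctx2_aux {x : Cx} {k : ℕ → ℕ → Bool} (hx : CxOK x) :
    ∀ (R : List Rw) (A B : ℕ) (α β : ℕ → ℕ), (∀ r ∈ R, ∃ Y, RwOK r Y) →
      Rp 336 A α (2 ^ 38) → Rp 336 B β (2 ^ 38) →
      List.rec (motive := fun _ => ℕ → ℕ → Bool)
        (fun A B => fN (fun a => fN (fun b => k a b) (cmx H336 B)) (cmx H336 A))
        (fun r _ ih A B => wrow r x fun W =>
          fN (fun A' => fN (fun B' => ih A' B')
            (mxv H336 B (cond r.f (Nat.land W (msk 0 5)) W))) (mxv H336 A W)) R A B = true →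
      ∃ (C D : ℕ) (γ δ : ℕ → ℕ), Rp 336 C γ (2 ^ 38) ∧ Rp 336 D δ (2 ^ 38) ∧
        k (cmx H336 C) (cmx H336 D) = true ∧ (∀ l < 336, α l ≤ γ l) ∧ (∀ l < 336, β l ≤ δ l) ∧
        ∀ r ∈ R, RC r x γ (fun _ _ => True) ∧ RC r x δ fun v _ => r.f = false ∨ v ≤ 5 := by
  intro R
  induction R with
  | nil =>
    intro A B α β _ hA hB H
    refine ⟨A, B, α, β, hA, hB, ?_, fun _ _ => le_rfl, fun _ _ => le_rfl,
      fun r hr => absurd hr (List.not_mem_nil)⟩
    have H' : fN (fun a => fN (fun b => k a b) (cmx H336 B)) (cmx H336 A) = true := H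
    rwa [fN_w, fN_w] at H'
  | cons r R ih =>
    intro A B α β hR hA hB H
    have H' : (wrow r x fun W => fN (fun A' => fN (fun B' =>
        List.rec (motive := fun _ => ℕ → ℕ → Bool)
        (fun A B => fN (fun a => fN (fun b => k a b) (cmx H336 B)) (cmx H336 A))
        (fun r _ ih A B => wrow r x fun W =>
          fN (fun A' => fN (fun B' => ih A' B')
            (mxv H336 B (cond r.f (Nat.land W (msk 0 5)) W))) (mxv H336 A W)) R A' B')
        (mxv H336 B (cond r.f (Nat.land W (msk 0 5)) W))) (mxv H336 A W)) = true := H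
    obtain ⟨W, w, hW, H2, hrc⟩ := wrow_rc (hR r (List.mem_cons_self ..)) hx H'
    rw [fN_w, fN_w] at H2
    obtain ⟨u, hu, hu2⟩ : ∃ u : ℕ → ℕ, Rp 336 (cond r.f (Nat.land W (msk 0 5)) W) u (2 ^ 38) ∧
        ∀ v < 16, ∀ j < 21, (r.f = false ∨ v ≤ 5) → u (21 * v + j) = w (21 * v + j) := by
      cases hf : r.f
      · exact ⟨w, hW, fun _ _ _ _ _ => rfl⟩
      · refine ⟨_, hW.band (msk_ok (a := 0) (b := 5) (by norm_num) (by norm_num)) (by norm_num),
          fun v hv j hj h => ?_⟩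
        have h5 : v ≤ 5 := by
          rcases h with h | h
          · exact absurd h (by simp)
          · exact h
        show (if 0 ≤ (21 * v + j) / 21 ∧ (21 * v + j) / 21 ≤ 5 then w (21 * v + j) else 0) = _
        rw [if_pos (by omega)]
    obtain ⟨C, D, γ, δ, h1, h1', h2, h3, h3', h4⟩ := ih _ _ _ _
      (fun s hs => hR s (List.mem_cons_of_mem _ hs))
      (Rp.mx H336_pk hA hW (by norm_num)) (Rp.mx H336_pk hB hu (by norm_num)) H2
    refine ⟨C, D, γ, δ, h1, h1', h2, fun l hl => (le_max_left _ _).trans (h3 l hl),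
      fun l hl => (le_max_left _ _).trans (h3' l hl), fun s hs => ?_⟩
    rcases List.mem_cons.1 hs with rfl | hs
    · refine ⟨hrc.mono fun l hl => (le_max_right _ _).trans (h3 l hl), fun Y hY => ?_⟩
      obtain ⟨i, g1, g2⟩ := hrc Y hY
      refine ⟨i, g1, fun v hv j hj hP => (g2 v hv j hj trivial).mono ?_⟩
      rw [← hu2 v hv j hj hP]
      exact (le_max_right _ _).trans (h3' _ (by omega))
    · exact h4 s hs

/-- **The maxima over the columns, and without the right part of the flats.** -/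
theorem ctx2_sound {R : List Rw} {x : Cx} {k : ℕ → ℕ → Bool} (hR : ∀ r ∈ R, ∃ Y, RwOK r Y)
    (hx : CxOK x) (H : ctx2 R x k = true) : ∃ (a b : ℕ) (M N : ℕ → ℕ), k a b = true ∧
      Rp 21 a M (2 ^ 38) ∧ Rp 21 b N (2 ^ 38) ∧ ∀ r ∈ R, ∀ Y, RwOK r Y →
        RB r Y x M (fun _ _ => True) ∧ RB r Y x N fun v _ => r.f = false ∨ v ≤ 5 := by
  obtain ⟨C, D, γ, δ, h1, h1', h2, -, -, h4⟩ :=
    ctx2_aux hx R 0 0 (fun _ => 0) (fun _ => 0) hR Rp.zero Rp.zero H
  obtain ⟨M, hM, hM2⟩ := Rp.cmx H336_pk h1 (by norm_num)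
  obtain ⟨N, hN, hN2⟩ := Rp.cmx H336_pk h1' (by norm_num)
  exact ⟨_, _, M, N, h2, hM, hN, fun r hr Y hY => ⟨(h4 r hr).1.rb hM2 hY, (h4 r hr).2.rb hN2 hY⟩⟩

/-- **The maxima of the own edge.** -/
theorem own_sound {o : ℕ} {Y : ℕ → ℕ} {k : ℕ → Bool} (hY : Rp 336 o Y (2 ^ 36))
    (H : (wrow ⟨o, 1000, 1000, 1000, 0, false⟩ ⟨1000, 1000, 1000, 0⟩ fun W =>
      fN k (cmx H336 (Nat.land W MW))) = true) :
    ∃ (a : ℕ) (M : ℕ → ℕ), k a = true ∧ Rp 21 a M (2 ^ 38) ∧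
      RB ⟨o, 1000, 1000, 1000, 0, false⟩ Y ⟨1000, 1000, 1000, 0⟩ M
        fun v j => 15 + j ≤ 20 + v := by
  have hr : RwOK ⟨o, 1000, 1000, 1000, 0, false⟩ Y :=
    ⟨hY, by norm_num, by norm_num, le_rfl, Nat.zero_le _⟩
  have hx : CxOK ⟨1000, 1000, 1000, 0⟩ := ⟨by norm_num, by norm_num, le_rfl, Nat.zero_le _⟩
  obtain ⟨W, w, i, h1, h2, h3, h4⟩ := wrow_sound hr hx H
  rw [fN_w] at h2
  have hb := h1.band MW_ok (by norm_num)
  obtain ⟨M, hM, hM2⟩ := Rp.cmx H336_pk hb (by norm_num)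
  refine ⟨_, M, h2, hM, i, h3, fun v hv j hj hP => (h4 v hv j hj).mono ?_⟩
  refine le_trans (le_of_eq ?_) (hM2 v hv j hj)
  show _ = if 15 + (21 * v + j) % 21 ≤ 20 + (21 * v + j) / 21 then w (21 * v + j) else 0
  rw [if_pos (by omega)]

end Pool.Agent.S5.Z4
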