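import Pool.Agent.S5.Z4.BpG
import Pool.Agent.S5.Z4.EgW

/-!
# The base point: the slopes of the slots, the constants of the rows
-/

set_option autoImplicit false

namespace Pool.Agent.S5.Z4

open Pool.Agent.H63.VC3 Pool.Agent.S3 Complex

/-- A point of the table, with the height `(a - b) / 200`. -/
noncomputable def tp (i a b : ℕ) : ℂ :=
  (((i : ℝ) / 200 : ℝ) : ℂ) + ((((a : ℝ) - b) / 200 : ℝ) : ℂ) * I

@[simp] theorem tp_re (i a b : ℕ) : (tp i a b).re = (i : ℝ) / 200 := by simp [tp]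
@[simp] theorem tp_im (i a b : ℕ) : (tp i a b).im = ((a : ℝ) - b) / 200 := by simp [tp]

theorem l4b_neg (z b : ℂ) : l4b z b = l4y b (-z) := by
  unfold l4b l4y
  rw [show b - -z = z + b by ring]
  ring

/-- **The angles of the table.** -/
theorem sgt_ok {i a b : ℕ} (h1 : 1 ≤ i) (h2 : i ≤ 100) (h : dst a b ≤ 60) :
    |(hh (tp i a b)).im * 1048576 - (sgt i a b : ℝ)| ≤ 4 :=
  hh_tab h1 h2 h (tp_re i a b) (tp_im i a b)

/-! ### The arguments of the functions at the base point -/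

/-- The share. -/
theorem half_sub_bp {t h : ℕ} (ht : t ≤ 100) : 1 / 2 - bp t h = tp (100 - t) 100 h := by
  apply Complex.ext
  · rw [sub_re, bp_re, tp_re, Nat.cast_sub ht]
    simp only [one_div, inv_re, re_ofNat, im_ofNat, normSq_ofNat]
    push_cast
    ring
  · rw [sub_im, bp_im, tp_im]
    simp only [one_div, inv_im, re_ofNat, im_ofNat, normSq_ofNat]
    push_cast
    ring

/-- The difference. -/
theorem bp_sub_zp {t h x n : ℕ} (h1 : x ≤ t + 100) : bp t h - zp x n = tp (t + 100 - x) h n := by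
  apply Complex.ext
  · rw [sub_re, bp_re, zp_re, tp_re, Nat.cast_sub h1]
    push_cast
    ring
  · rw [sub_im, bp_im, zp_im, tp_im]
    ring

/-- The sum. -/
theorem zp_add_bp {b g x n : ℕ} (h1 : 100 ≤ b + x) :
    zp x n + bp b g = tp (b + x - 100) (g + n) 200 := by
  apply Complex.ext
  · rw [add_re, bp_re, zp_re, tp_re, Nat.cast_sub h1]
    push_cast
    ring
  · rw [add_im, bp_im, zp_im, tp_im]
    push_cast
    ring

/-! ### The slope -/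

theorem tp_conj (i a b : ℕ) : (starRingEnd ℂ) (tp i a b) = tp i b a := by
  apply Complex.ext
  · rw [conj_re, tp_re, tp_re]
  · rw [conj_im, tp_im, tp_im]
    ring

theorem hh_tp {i : ℕ} (h1 : 1 ≤ i) (h2 : i ≤ 100) (a b : ℕ) :
    (hh (tp i a b)).im = -(hh (tp i b a)).im := by
  have e1 : (1 : ℝ) ≤ i := by exact_mod_cast h1
  have e2 : (i : ℝ) ≤ 100 := by exact_mod_cast h2
  rw [← tp_conj i b a, hh_conj _ (by rw [tp_re]; linarith only [e1]) (by rw [tp_re]; linarith only [e2]), conj_im]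

theorem sgt_neg {i a b : ℕ} (h1 : 1 ≤ i) (h2 : i ≤ 100) (h : dst a b ≤ 60) :
    |(hh (tp i b a)).im * 1048576 + (sgt i a b : ℝ)| ≤ 4 := by
  rw [hh_tp h1 h2, ← abs_neg]
  have := sgt_ok h1 h2 h
  rw [show -(-(hh (tp i a b)).im * 1048576 + (sgt i a b : ℝ)) =
    (hh (tp i a b)).im * 1048576 - (sgt i a b : ℝ) by ring]
  exact this

theorem l4y_im (y z : ℂ) : (l4y y z).im = 2 * (hh (1 / 2 - y)).im - (hh (y - z)).im -
    Real.pi * (y.re + z.re - 1 / 2) := by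
  unfold l4y
  rw [sub_im, sub_im, mul_im, mul_im, mul_re, mul_im]
  simp only [re_ofNat, im_ofNat, I_re, I_im, ofReal_re, ofReal_im, sub_re, sub_im, add_re, add_im,
    div_ofNat_re, one_re]
  ring

theorem Dx_cast (t h x n : ℕ) : ((Dx t h x n : ℤ) : ℝ) =
    5000 * (-2 * (sgt (100 - t) h 100 : ℝ) - (sgt (t + 100 - x) h n : ℝ)) -
      82354966 * ((t : ℝ) + x - 200) := by
  have e : Dx t h x n = 5000 * (-2 * sgt (100 - t) h 100 - sgt (t + 100 - x) h n) -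
      82354966 * (((t + x : ℕ) : ℤ) - 200) := rfl
  rw [e]
  push_cast
  ring

/-- **The slope at the base point.** -/
theorem Dx_err {t h x n : ℕ} (t1 : 1 ≤ t) (t2 : t ≤ 99) (x1 : x + 1 ≤ t + 100) (x2 : t ≤ x)
    (h1 : dst h n ≤ 60) (h2 : dst h 100 ≤ 60) :
    |5000 * 1048576 * (l4y (bp t h) (zp x n)).im - ((Dx t h x n : ℤ) : ℝ)| ≤ 65300 := by
  have a1 := sgt_neg (i := 100 - t) (a := h) (b := 100) (by omega) (by omega) h2
  have a2 := sgt_ok (i := t + 100 - x) (a := h) (b := n) (by omega) (by omega) h1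
  rw [Dx_cast, l4y_im, half_sub_bp (by omega), bp_sub_zp (by omega), bp_re, zp_re]
  obtain ⟨a3, a4⟩ := abs_le.1 a1
  obtain ⟨a5, a6⟩ := abs_le.1 a2
  have p1 := Real.pi_gt_d6
  have p2 := Real.pi_lt_d6
  have c1 : (t : ℝ) + x - 200 ≤ 97 := by
    have : t + x ≤ 297 := by omega
    have : (t : ℝ) + x ≤ 297 := by exact_mod_cast this
    linarith only [this]
  have c2 : -200 ≤ (t : ℝ) + x - 200 := by
    have c3 : (0 : ℝ) ≤ t := Nat.cast_nonneg t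
    have c4 : (0 : ℝ) ≤ x := Nat.cast_nonneg x
    linarith only []
  generalize (hh (tp (100 - t) 100 h)).im = u at *
  generalize (hh (tp (t + 100 - x) h n)).im = v at *
  generalize (sgt (100 - t) h 100 : ℝ) = U at *
  generalize (sgt (t + 100 - x) h n : ℝ) = V at *
  generalize ht : (t : ℝ) = T at *
  generalize hx : (x : ℝ) = X at *
  have k1 : (Real.pi * 26214400 - 82354966) * (T + X - 200) ≤ 26 * 200 := by
    nlinarith
  have k2 : -(26 * 200) ≤ (Real.pi * 26214400 - 82354966) * (T + X - 200) := by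
    nlinarith
  have e : 5000 * 1048576 * (2 * u - v - Real.pi * (T / 200 + (X - 100) / 200 - 1 / 2)) -
      (5000 * (-2 * U - V) - 82354966 * (T + X - 200)) =
      10000 * (u * 1048576 + U) - 5000 * (v * 1048576 - V) -
        (Real.pi * 26214400 - 82354966) * (T + X - 200) := by ring
  rw [e, abs_le]
  constructor <;> linarith

/-- **The slope of the first slot.** -/
theorem Dx_sound {t h x n : ℕ} {D : ℤ} (t1 : 1 ≤ t) (t2 : t ≤ 99) (x1 : x + 1 ≤ t + 100)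
    (x2 : t ≤ x) (h1 : dst h n ≤ 60) (h2 : dst h 100 ≤ 60) (hk : nrk (Dx t h x n) D = true) :
    |(l4y (bp t h) (zp x n)).im - (D : ℝ) / 5000| ≤ 16 / 100000 := by
  have a := Dx_err t1 t2 x1 x2 h1 h2
  have b := nrk_abs hk
  rw [abs_le] at a b ⊢
  constructor <;> linarith

/-- **The slope of the second slot.** -/
theorem Dx_sound' {g s x n : ℕ} {D : ℤ} (g1 : 1 ≤ g) (g2 : g ≤ 99) (x1 : 101 ≤ g + x)
    (x2 : g + x ≤ 200) (hn : n ≤ 200) (h1 : dst s (200 - n) ≤ 60) (h2 : dst s 100 ≤ 60)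
    (hk : nrk (Dx g s (200 - x) (200 - n)) D = true) :
    |(l4b (zp x n) (bp g s)).im - (D : ℝ) / 5000| ≤ 16 / 100000 := by
  rw [l4b_neg, neg_zp (by omega) hn]
  exact Dx_sound g1 g2 (by omega) (by omega) h1 h2 hk

/-! ### The constants of the rows -/

theorem bp_ht (t h : ℕ) : (bp t h).im = ht (Nat.add (Nat.mul 5 h) 500) := by
  have e : Nat.add (Nat.mul 5 h) 500 = 5 * h + 500 := rfl
  rw [e, bp_im, ht]
  push_cast
  ring

theorem ht_add (e : ℕ) : ht (Nat.add e 500) = ((e : ℝ) - 500) / 1000 := by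
  have e' : Nat.add e 500 = e + 500 := rfl
  rw [e', ht]
  push_cast
  ring

/-- The error term of the constants. -/
def dmc (p : Sp) : ℕ := Nat.mul 4 (mxn (dst p.e0 p.h0) (dst p.e1 p.h0))

theorem dmc_cast (p : Sp) : ((dmc p : ℕ) : ℝ) =
    4 * max |(p.e0 : ℝ) - p.h0| |(p.e1 : ℝ) - p.h0| := by
  have e : dmc p = 4 * mxn (dst p.e0 p.h0) (dst p.e1 p.h0) := rfl
  rw [e]
  push_cast
  rw [mxn_cast, dst_cast, dst_cast]

/-- The linear term, at one height. -/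
theorem lin_le {D : ℝ} {n : ℤ} (hD : |D - (n : ℝ) / 5000| ≤ 16 / 100000) (h h0 : ℕ) :
    25000000 * (D * (ht h - ht h0)) ≤ 5 * n * ((h : ℝ) - h0) + 4 * |(h : ℝ) - h0| := by
  have e : 25000000 * (D * (ht h - ht h0)) =
      5 * n * ((h : ℝ) - h0) + 25000 * ((D - n / 5000) * ((h : ℝ) - h0)) := by
    unfold ht
    ring
  rw [e]
  have h1 : (D - n / 5000) * ((h : ℝ) - h0) ≤ 16 / 100000 * |(h : ℝ) - h0| :=
    le_trans (le_abs_self _) (by
      rw [abs_mul]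
      exact mul_le_mul_of_nonneg_right hD (abs_nonneg _))
  linarith only [h1]

theorem cfl_cast (p : Sp) (dm : ℤ) (h : ℕ) : ((cfl p dm h : ℤ) : ℝ) =
    5 * p.D * ((h : ℝ) - p.h0) + dm := by
  have e : cfl p dm h = 5 * p.D * ((h : ℤ) - (p.h0 : ℤ)) + dm := rfl
  rw [e]
  push_cast
  ring

theorem cl1_cast (p : Sp) (m : ℤ) (e h : ℕ) : ((cl1 p m e h : ℤ) : ℝ) =
    25 * m * ((h : ℝ) - e) + 5 * p.D * ((e : ℝ) - p.h0) := by
  have e : cl1 p m e h = 25 * m * ((h : ℤ) - (e : ℤ)) + 5 * p.D * ((e : ℤ) - (p.h0 : ℤ)) := rfl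
  rw [e]
  push_cast
  ring

/-- **The constant of a flat**, at an end. -/
theorem cfl_sound0 {p : Sp} {D : ℝ} (hD : |D - (p.D : ℝ) / 5000| ≤ 16 / 100000) :
    25000000 * (D * (ht p.e0 - ht p.h0)) ≤ ((cfl p (Int.ofNat (dmc p)) p.e0 : ℤ) : ℝ) := by
  have e : ((Int.ofNat (dmc p) : ℤ) : ℝ) = ((dmc p : ℕ) : ℝ) := by simp
  rw [cfl_cast, e, dmc_cast]
  have := lin_le hD p.e0 p.h0
  have := le_max_left |(p.e0 : ℝ) - p.h0| |(p.e1 : ℝ) - p.h0|
  linarith [this]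

/-- **The constant of a flat**, at the other end. -/
theorem cfl_sound1 {p : Sp} {D : ℝ} (hD : |D - (p.D : ℝ) / 5000| ≤ 16 / 100000) :
    25000000 * (D * (ht p.e1 - ht p.h0)) ≤ ((cfl p (Int.ofNat (dmc p)) p.e1 : ℤ) : ℝ) := by
  have e : ((Int.ofNat (dmc p) : ℤ) : ℝ) = ((dmc p : ℕ) : ℝ) := by simp
  rw [cfl_cast, e, dmc_cast]
  have := lin_le hD p.e1 p.h0
  have := le_max_right |(p.e0 : ℝ) - p.h0| |(p.e1 : ℝ) - p.h0|
  linarith [this]

/-- **The constants of a flat.** -/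
theorem cfl_sound {p : Sp} {D a : ℝ} (hD : |D - (p.D : ℝ) / 5000| ≤ 16 / 100000) (a0 : 0 ≤ a)
    (a1 : a ≤ 1) :
    25000000 * (D * (((1 - a) * ht p.e0 + a * ht p.e1) - ht p.h0)) ≤
      (1 - a) * ((cfl p (Int.ofNat (dmc p)) p.e0 : ℤ) : ℝ) +
        a * ((cfl p (Int.ofNat (dmc p)) p.e1 : ℤ) : ℝ) := by
  have h0 := mul_le_mul_of_nonneg_left (cfl_sound0 hD) (sub_nonneg.2 a1)
  have h1 := mul_le_mul_of_nonneg_left (cfl_sound1 hD) a0
  have e : 25000000 * (D * (((1 - a) * ht p.e0 + a * ht p.e1) - ht p.h0)) =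
      (1 - a) * (25000000 * (D * (ht p.e0 - ht p.h0))) +
        a * (25000000 * (D * (ht p.e1 - ht p.h0))) := by ring
  rw [e]
  exact add_le_add h0 h1

/-- **The constant of a leg.** -/
theorem clg_sound {p : Sp} {D m η : ℝ} (hD : |D - (p.D : ℝ) / 5000| ≤ 16 / 100000)
    (m0 : (p.M0 : ℝ) / 1000 ≤ m) (m1 : m ≤ (p.M1 : ℝ) / 1000) (e0 : ht p.e0 ≤ η)
    (e1 : η ≤ ht p.e1) (h : ℕ) :
    25000000 * (m * (ht h - η) + D * (η - ht p.h0)) ≤
      ((clg p (Int.ofNat (dmc p)) h : ℤ) : ℝ) := by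
  have ec : ((clg p (Int.ofNat (dmc p)) h : ℤ) : ℝ) =
      max (max ((cl1 p p.M0 p.e0 h : ℤ) : ℝ) ((cl1 p p.M1 p.e0 h : ℤ) : ℝ))
        (max ((cl1 p p.M0 p.e1 h : ℤ) : ℝ) ((cl1 p p.M1 p.e1 h : ℤ) : ℝ)) + (dmc p : ℝ) := by
    have e : clg p (Int.ofNat (dmc p)) h = imx (imx (cl1 p p.M0 p.e0 h) (cl1 p p.M1 p.e0 h))
        (imx (cl1 p p.M0 p.e1 h) (cl1 p p.M1 p.e1 h)) + (dmc p : ℤ) := rfl
    rw [e]
    push_cast
    rw [imx_cast, imx_cast, imx_cast]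
  rw [ec, dmc_cast]
  have k0 := lin_le hD p.e0 p.h0
  have k1 := lin_le hD p.e1 p.h0
  have l0 := le_max_left |(p.e0 : ℝ) - p.h0| |(p.e1 : ℝ) - p.h0|
  have l1 := le_max_right |(p.e0 : ℝ) - p.h0| |(p.e1 : ℝ) - p.h0|
  generalize hM : max |(p.e0 : ℝ) - p.h0| |(p.e1 : ℝ) - p.h0| = dm at *
  have c1 : ((cl1 p p.M0 p.e0 h : ℤ) : ℝ) ≤
      max (max ((cl1 p p.M0 p.e0 h : ℤ) : ℝ) ((cl1 p p.M1 p.e0 h : ℤ) : ℝ))
        (max ((cl1 p p.M0 p.e1 h : ℤ) : ℝ) ((cl1 p p.M1 p.e1 h : ℤ) : ℝ)) :=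
    le_max_of_le_left (le_max_left _ _)
  have c2 : ((cl1 p p.M1 p.e0 h : ℤ) : ℝ) ≤
      max (max ((cl1 p p.M0 p.e0 h : ℤ) : ℝ) ((cl1 p p.M1 p.e0 h : ℤ) : ℝ))
        (max ((cl1 p p.M0 p.e1 h : ℤ) : ℝ) ((cl1 p p.M1 p.e1 h : ℤ) : ℝ)) :=
    le_max_of_le_left (le_max_right _ _)
  have c3 : ((cl1 p p.M0 p.e1 h : ℤ) : ℝ) ≤
      max (max ((cl1 p p.M0 p.e0 h : ℤ) : ℝ) ((cl1 p p.M1 p.e0 h : ℤ) : ℝ))
        (max ((cl1 p p.M0 p.e1 h : ℤ) : ℝ) ((cl1 p p.M1 p.e1 h : ℤ) : ℝ)) :=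
    le_max_of_le_right (le_max_left _ _)
  have c4 : ((cl1 p p.M1 p.e1 h : ℤ) : ℝ) ≤
      max (max ((cl1 p p.M0 p.e0 h : ℤ) : ℝ) ((cl1 p p.M1 p.e0 h : ℤ) : ℝ))
        (max ((cl1 p p.M0 p.e1 h : ℤ) : ℝ) ((cl1 p p.M1 p.e1 h : ℤ) : ℝ)) :=
    le_max_of_le_right (le_max_right _ _)
  generalize max (max ((cl1 p p.M0 p.e0 h : ℤ) : ℝ) ((cl1 p p.M1 p.e0 h : ℤ) : ℝ))
    (max ((cl1 p p.M0 p.e1 h : ℤ) : ℝ) ((cl1 p p.M1 p.e1 h : ℤ) : ℝ)) = C at *
  rw [cl1_cast] at c1 c2 c3 c4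
  -- the corners
  have d1 : 25000000 * ((p.M0 : ℝ) / 1000 * (ht h - ht p.e0) + D * (ht p.e0 - ht p.h0)) ≤
      C + 4 * dm := by
    have : 25000000 * ((p.M0 : ℝ) / 1000 * (ht h - ht p.e0)) = 25 * p.M0 * ((h : ℝ) - p.e0) := by
      unfold ht
      ring
    linarith only [this, c1, l0, k0]
  have d2 : 25000000 * ((p.M1 : ℝ) / 1000 * (ht h - ht p.e0) + D * (ht p.e0 - ht p.h0)) ≤
      C + 4 * dm := by
    have : 25000000 * ((p.M1 : ℝ) / 1000 * (ht h - ht p.e0)) = 25 * p.M1 * ((h : ℝ) - p.e0) := by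
      unfold ht
      ring
    linarith only [this, c2, l0, k0]
  have d3 : 25000000 * ((p.M0 : ℝ) / 1000 * (ht h - ht p.e1) + D * (ht p.e1 - ht p.h0)) ≤
      C + 4 * dm := by
    have : 25000000 * ((p.M0 : ℝ) / 1000 * (ht h - ht p.e1)) = 25 * p.M0 * ((h : ℝ) - p.e1) := by
      unfold ht
      ring
    linarith only [this, c3, l1, k1]
  have d4 : 25000000 * ((p.M1 : ℝ) / 1000 * (ht h - ht p.e1) + D * (ht p.e1 - ht p.h0)) ≤
      C + 4 * dm := by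
    have : 25000000 * ((p.M1 : ℝ) / 1000 * (ht h - ht p.e1)) = 25 * p.M1 * ((h : ℝ) - p.e1) := by
      unfold ht
      ring
    linarith only [this, c4, l1, k1]
  have f1 : 25000000 * (m * (ht h - ht p.e0) + D * (ht p.e0 - ht p.h0)) ≤ C + 4 * dm := by
    rcases le_total 0 (ht h - ht p.e0) with k | k
    · linarith only [d2, mul_nonneg (sub_nonneg.2 m1) (sub_nonneg.2 k)]
    · linarith only [d1, mul_nonneg (sub_nonneg.2 m0) (sub_nonneg.2 k)]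
  have f2 : 25000000 * (m * (ht h - ht p.e1) + D * (ht p.e1 - ht p.h0)) ≤ C + 4 * dm := by
    rcases le_total 0 (ht h - ht p.e1) with k | k
    · linarith only [d4, mul_nonneg (sub_nonneg.2 m1) (sub_nonneg.2 k)]
    · linarith only [d3, mul_nonneg (sub_nonneg.2 m0) (sub_nonneg.2 k)]
  rcases le_total 0 (D - m) with k | k
  · linarith only [f2, mul_nonneg (sub_nonneg.2 e1) (sub_nonneg.2 k)]
  · linarith only [f1, mul_nonneg (sub_nonneg.2 e0) (sub_nonneg.2 k)]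

/-- **The constant of a row with the bound of the edge.** -/
theorem cti_sound {p : Sp} {f i : ℝ} (hf : 25000000 * f ≤ (p.fub : ℝ))
    (h0 : (p.i0 : ℝ) / 1000 ≤ i) (h1 : i ≤ (p.i1 : ℝ) / 1000) (h : ℕ) :
    25000000 * (f - i * (ht h - ht p.h0)) ≤ ((cti p h : ℤ) : ℝ) := by
  have ec : ((cti p h : ℤ) : ℝ) = p.fub + max (-25 * p.i0 * ((h : ℝ) - p.h0))
      (-25 * p.i1 * ((h : ℝ) - p.h0)) := by
    have e : cti p h = p.fub + imx (-25 * p.i0 * ((h : ℤ) - (p.h0 : ℤ)))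
        (-25 * p.i1 * ((h : ℤ) - (p.h0 : ℤ))) := rfl
    rw [e]
    push_cast
    rw [imx_cast]
    push_cast
    rfl
  rw [ec]
  have e1 : 25000000 * (f - i * (ht h - ht p.h0)) =
      25000000 * f + -25000 * i * ((h : ℝ) - p.h0) := by
    unfold ht
    ring
  rw [e1]
  have l0 := le_max_left (-25 * (p.i0 : ℝ) * ((h : ℝ) - p.h0)) (-25 * p.i1 * ((h : ℝ) - p.h0))
  have l1 := le_max_right (-25 * (p.i0 : ℝ) * ((h : ℝ) - p.h0)) (-25 * p.i1 * ((h : ℝ) - p.h0))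
  rcases le_total 0 ((h : ℝ) - p.h0) with k | k
  · nlinarith
  · nlinarith

end Pool.Agent.S5.Z4
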