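import Pool.Agent.S5.Z4.FFt

/-!
# Exact flats of an inner node with four half twists
-/

set_option autoImplicit false

namespace Pool.Agent.S5

open Pool.Agent.H63.VC3 Pool.Agent.S3 Complex MeasureTheory Filter Topology Set

/-- The near case. -/
theorem ff_near {k e s u0 u w0 w : ℝ} (hk : 0 < k) (u1 : 0 < u0) (u2 : u0 < 1 / 2) (u3 : 0 ≤ u)
    (u4 : u ≤ 1 / 2) (w1 : 0 < w0) (w2 : w0 < 1 / 2) (w3 : -(2 * w0) ≤ w) (w4 : w ≤ 1 - w0)
    (w5 : u = u0 → -(2 * w0) < w) :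
    0 ≤ k * Dd e u0 u + Dd s w0 w ∧ (k * Dd e u0 u + Dd s w0 w = 0 → u = u0 ∧ w = w0) := by
  have a1 : 0 ≤ Dd e u0 u := Dd_nonneg_half u1 u2.le u3 u4
  have a2 : 0 ≤ Dd s w0 w := by
    rcases le_total w w0 with h | h
    · exact Dd_nonneg_left w1 w2.le (by linarith) w3 h
    · exact Dd_nonneg_right w1 h w4
  have a3 := mul_nonneg hk.le a1
  refine ⟨by linarith, fun h => ?_⟩
  have h1 : Dd e u0 u = 0 := by
    have : k * Dd e u0 u = 0 := by linarith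
    rcases mul_eq_zero.1 this with h2 | h2
    · linarith
    · exact h2
  have h2 : Dd s w0 w = 0 := by rw [h1] at h; linarith
  have h3 : u = u0 := by
    by_contra hne
    rcases lt_or_gt_of_ne hne with h4 | h4
    · have := Dd_pos_left (s := e) u1 u2 (by linarith) (by linarith) h4
      linarith
    · have := Dd_pos_right (s := e) u1 h4 (by linarith)
      linarith
  refine ⟨h3, ?_⟩
  by_contra hne
  rcases lt_or_gt_of_ne hne with h4 | h4
  · have := Dd_pos_left (s := s) w1 w2 (by linarith) (w5 h3) h4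
    linarith
  · have := Dd_pos_right (s := s) w1 h4 w4
    linarith

/-- The far case from the strips. -/
theorem ff_far {e s u0 u w0 b c W1 : ℝ} (he : |e| ≤ 13 / 100)
    (hs : StripOK (104 / 800) c u0 W1 0) (u1 : 0 < u0) (u2 : u0 < 1 / 2) (u3 : 0 ≤ u)
    (u4 : u ≤ 1 / 2) (hb : u + c ≤ b) (hb1 : b < w0) (hc : 0 < c) (hw : w0 ≤ W1) (hW : W1 ≤ 1 / 2) :
    0 < 2 * Dd e u0 u + Dd s w0 (1 - b) := by
  have h1 := hs u u3 (by linarith)
  have h2 := Dd_b_mono (W := W1) (b := u + c) (b' := b) (by linarith) hb (by linarith) hW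
  have h3 := Dd_base_anti (W := W1) (w0 := w0) (w := 1 - b) (by linarith) hw hW (by linarith)
  have h4 : |e| ≤ |(104 / 800 : ℝ)| := by
    rw [abs_of_pos (show (0 : ℝ) < 104 / 800 by norm_num)]
    refine he.trans (by norm_num)
  rcases le_or_gt u u0 with h5 | h5
  · have h6 := h1.1 h5
    exact ff_height (e0 := 104 / 800) (k := 2) (by norm_num) h4 u3 h5 u2.le u1 (by linarith)
      (by linarith) (by linarith) (by linarith)
  · have h6 := h1.2 h5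
    have h7 : 0 < Dd 0 w0 (1 - b) := by linarith
    have hs0 : |(0 : ℝ)| ≤ |s| := by rw [abs_zero]; exact abs_nonneg _
    have h8 := Dd_right_height hs0 (w0 := w0) (w := 1 - b) (by linarith) (by linarith) (by linarith)
    have p0 : 0 < dn 0 w0 := dn_pos (Or.inr ⟨by linarith, by
      rw [abs_of_pos (by linarith)]; linarith⟩)
    have ps : 0 < dn s w0 := lt_of_lt_of_le p0 (dn_le_height hs0 w0)
    have h9 : 0 < Dd s w0 (1 - b) :=
      (mul_pos_iff_of_pos_left ps).1 (lt_of_lt_of_le (mul_pos p0 h7) h8)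
    have := Dd_nonneg_half (s := e) u1 u2.le u3 u4
    linarith

theorem ff_cells (n : ℕ) : ∀ R ∈ ffP.zip (ffQ.drop n),
    R.1.Ok (104 / 800) 1000 ∧ R.2.Ok 0 5000 := by
  intro R hR
  obtain ⟨h1, h2⟩ := List.of_mem_zip hR
  have k1 := List.all_eq_true.1 ff_nodes1 _ (List.mem_append_right _ h1)
  have k2 := List.all_eq_true.1 ff_nodes0 _ (List.mem_append_left _ (List.mem_of_mem_drop h2))
  have e1 := Nv.ok_sound k1
  have e2 := Nv.ok_sound k2
  have c1 : ((104 : ℕ) : ℝ) = 104 := Nat.cast_ofNat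
  rw [c1] at e1
  rw [Nat.cast_zero, zero_div] at e2
  exact ⟨e1, e2⟩

theorem ff_sts (n : ℕ) : ∀ s ∈ mkS ffA (ffW.drop n) ffM, s.A.Ok (104 / 800) 1000 ∧
    s.W.Ok 0 5000 := by
  intro s hs
  obtain ⟨h1, h2⟩ := mem_mkS _ _ _ _ hs
  have k1 := List.all_eq_true.1 ff_nodes1 _ (List.mem_append_left _ h1)
  have k2 := List.all_eq_true.1 ff_nodes0 _ (List.mem_append_right _ (List.mem_of_mem_drop h2))
  have e1 := Nv.ok_sound k1
  have e2 := Nv.ok_sound k2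
  have c1 : ((104 : ℕ) : ℝ) = 104 := Nat.cast_ofNat
  rw [c1] at e1
  rw [Nat.cast_zero, zero_div] at e2
  exact ⟨e1, e2⟩

/-- The strips, first list. -/
theorem ff_st1 {u0 : ℝ} (h0 : 14 / 100 ≤ u0) (h1 : u0 ≤ 285 / 1000) :
    StripOK (104 / 800) (15 / 100) u0 (31 / 100 + u0 / 2) 0 := by
  have key := ffall_sound (h := 4) (k := 4) (c := 120) (E1 := 1000) (E0 := 5000) (w0 := 496)
    (e0 := 104 / 800) (by norm_num) (by norm_num) (ff_cells 0) _ (ff_sts 0) ff_strips1 _ _ rfl rfl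
    u0 (by
      change (((112 : ℤ) : ℝ)) / 800 ≤ u0
      push_cast
      linarith) (by
      change u0 ≤ (((232 : ℤ) : ℝ)) / 800
      push_cast
      linarith)
  rcases key with key | key
  · convert key using 1
    · push_cast; norm_num
    · push_cast; ring
  · exfalso
    have : u0 = (((232 : ℤ) : ℝ)) / 800 := key
    push_cast at this
    linarith

/-- The strips, second list. -/
theorem ff_st2 {u0 : ℝ} (h0 : 14 / 100 ≤ u0) (h1 : u0 ≤ 285 / 1000) :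
    StripOK (104 / 800) (20 / 100) u0 (335 / 1000 + u0 / 2) 0 := by
  have key := ffall_sound (h := 4) (k := 4) (c := 160) (E1 := 1000) (E0 := 5000) (w0 := 536)
    (e0 := 104 / 800) (by norm_num) (by norm_num) (ff_cells 5) _ (ff_sts 10) ff_strips2 _ _ rfl rfl
    u0 (by
      change (((112 : ℤ) : ℝ)) / 800 ≤ u0
      push_cast
      linarith) (by
      change u0 ≤ (((232 : ℤ) : ℝ)) / 800
      push_cast
      linarith)
  rcases key with key | key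
  · convert key using 1
    · push_cast; norm_num
    · push_cast; ring
  · exfalso
    have : u0 = (((232 : ℤ) : ℝ)) / 800 := key
    push_cast at this
    linarith

/-- **Both regimes, real form.** -/
theorem ff_real {e s u0 u w0 w Xm : ℝ} (he : |e| ≤ 13 / 100) (h0 : 14 / 100 ≤ u0)
    (h1 : u0 ≤ 285 / 1000) (u3 : 0 ≤ u) (u4 : u ≤ 1 / 2) (hw0 : 0 < w0) (hX : Xm ≤ 2 * w0)
    (hw1 : 1 / 2 - u - Xm ≤ w) (hw2 : w ≤ 1 / 2 - u + Xm)
    (hr : Xm ≤ 35 / 100 ∧ w0 ≤ 31 / 100 + u0 / 2 ∨ Xm ≤ 30 / 100 ∧ w0 ≤ 335 / 1000 + u0 / 2) :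
    0 ≤ 2 * Dd e u0 u + Dd s w0 w ∧ (2 * Dd e u0 u + Dd s w0 w = 0 → u = u0 ∧ w = w0) := by
  rcases le_or_gt w (1 - w0) with h | h
  · refine ff_near two_pos (by linarith) (by linarith) u3 u4 hw0 ?_ (by linarith) h
      (fun h => by linarith)
    rcases hr with ⟨-, h2⟩ | ⟨-, h2⟩ <;> linarith
  · have key : 0 < 2 * Dd e u0 u + Dd s w0 (1 - (1 - w)) := by
      rcases hr with ⟨h2, h3⟩ | ⟨h2, h3⟩
      · exact ff_far he (ff_st1 h0 h1) (by linarith) (by linarith) u3 u4 (by linarith)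
          (by linarith) (by norm_num) h3 (by linarith)
      · exact ff_far he (ff_st2 h0 h1) (by linarith) (by linarith) u3 u4 (by linarith)
          (by linarith) (by norm_num) h3 (by linarith)
    rw [sub_sub_cancel] at key
    exact ⟨key.le, fun h => by linarith⟩

theorem ff_Td1 (ys : ℂ) (x : ℝ) : Td (1 / 2 - ys) (1 / 2 - ((x : ℂ) + (ys.im : ℂ) * I)) =
    -Dd ys.im (1 / 2 - ys.re) (1 / 2 - x) := by
  have h1 : (1 / 2 - ((x : ℂ) + (ys.im : ℂ) * I)).im = (1 / 2 - ys).im := by simp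
  rw [Td_eq_Dd h1]
  have e1 : (1 / 2 - ys : ℂ).im = -ys.im := by simp
  have e2 : (1 / 2 - ys : ℂ).re = 1 / 2 - ys.re := by simp
  have e3 : (1 / 2 - ((x : ℂ) + (ys.im : ℂ) * I)).re = 1 / 2 - x := by simp
  rw [e1, e2, e3, Dd_neg_im]

theorem ff_Td2 (ys zs : ℂ) (x X : ℝ) :
    Td (ys - zs) (((x : ℂ) + (ys.im : ℂ) * I) - ((X : ℂ) + (zs.im : ℂ) * I)) =
    -Dd (ys.im - zs.im) (ys.re - zs.re) (x - X) := by
  have h1 : (((x : ℂ) + (ys.im : ℂ) * I) - ((X : ℂ) + (zs.im : ℂ) * I)).im = (ys - zs).im := by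
    simp
  rw [Td_eq_Dd h1]
  have e3 : (((x : ℂ) + (ys.im : ℂ) * I) - ((X : ℂ) + (zs.im : ℂ) * I)).re = x - X := by simp
  rw [e3, sub_re, sub_im]

/-- **FF4, weight 2.** -/
theorem ff4 {ys zs : ℂ} {x X Xm : ℝ} (x0 : 0 ≤ x) (x1 : x ≤ 1 / 2) (hX : |X| ≤ Xm)
    (hw : Xm ≤ 2 * (ys.re - zs.re)) (hw0 : zs.re < ys.re) (t0 : 43 / 200 ≤ ys.re)
    (t1 : ys.re ≤ 9 / 25) (he : |ys.im| ≤ 13 / 100)
    (hr : Xm ≤ 7 / 20 ∧ ys.re - zs.re ≤ 38 / 100 + (1 / 2 - ys.re - 14 / 100) / 2 ∨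
      Xm ≤ 3 / 10 ∧ ys.re - zs.re ≤ 405 / 1000 + (1 / 2 - ys.re - 14 / 100) / 2) :
    2 * Td (1 / 2 - ys) (1 / 2 - ((x : ℂ) + (ys.im : ℂ) * I)) +
      Td (ys - zs) (((x : ℂ) + (ys.im : ℂ) * I) - ((X : ℂ) + (zs.im : ℂ) * I)) ≤ 0 ∧
    (2 * Td (1 / 2 - ys) (1 / 2 - ((x : ℂ) + (ys.im : ℂ) * I)) +
      Td (ys - zs) (((x : ℂ) + (ys.im : ℂ) * I) - ((X : ℂ) + (zs.im : ℂ) * I)) = 0 →
      x = ys.re ∧ X = zs.re) := by
  rw [ff_Td1, ff_Td2]
  obtain ⟨X1, X2⟩ := abs_le.1 hX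
  have key := ff_real (s := ys.im - zs.im) (u0 := 1 / 2 - ys.re) (u := 1 / 2 - x)
    (w0 := ys.re - zs.re) (w := x - X) (Xm := Xm) he (by linarith) (by linarith) (by linarith)
    (by linarith) (by linarith) hw (by linarith) (by linarith) (by
      rcases hr with ⟨h1, h2⟩ | ⟨h1, h2⟩
      · exact Or.inl ⟨by linarith, by linarith⟩
      · exact Or.inr ⟨by linarith, by linarith⟩)
  refine ⟨by linarith [key.1], fun h => ?_⟩
  have := key.2 (by linarith)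
  exact ⟨by linarith [this.1], by linarith [this.1, this.2]⟩

/-- **FF4, any weight, near the flat.** -/
theorem ff4_near {k : ℝ} (hk : 0 < k) {ys zs : ℂ} {x X Xm : ℝ} (x0 : 0 ≤ x) (x1 : x ≤ 1 / 2)
    (hX : |X| ≤ Xm) (hw : Xm ≤ 2 * (ys.re - zs.re)) (hw0 : zs.re < ys.re)
    (hw1 : ys.re - zs.re < 1 / 2) (t0 : 0 < ys.re) (t1 : ys.re < 1 / 2)
    (hr : x + Xm ≤ 1 - (ys.re - zs.re)) :
    k * Td (1 / 2 - ys) (1 / 2 - ((x : ℂ) + (ys.im : ℂ) * I)) +
      Td (ys - zs) (((x : ℂ) + (ys.im : ℂ) * I) - ((X : ℂ) + (zs.im : ℂ) * I)) ≤ 0 ∧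
    (k * Td (1 / 2 - ys) (1 / 2 - ((x : ℂ) + (ys.im : ℂ) * I)) +
      Td (ys - zs) (((x : ℂ) + (ys.im : ℂ) * I) - ((X : ℂ) + (zs.im : ℂ) * I)) = 0 →
      x = ys.re ∧ X = zs.re) := by
  rw [ff_Td1, ff_Td2]
  obtain ⟨X1, X2⟩ := abs_le.1 hX
  have key := ff_near (e := ys.im) (s := ys.im - zs.im) (u0 := 1 / 2 - ys.re) (u := 1 / 2 - x)
    (w0 := ys.re - zs.re) (w := x - X) hk (by linarith) (by linarith) (by linarith)
    (by linarith) (by linarith) hw1 (by linarith) (by linarith) (fun h => by linarith)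
  refine ⟨by linarith [key.1], fun h => ?_⟩
  have := key.2 (by linarith)
  exact ⟨by linarith [this.1], by linarith [this.1, this.2]⟩

/-- **FF4, weight 1.** -/
theorem ff4w1 {ys zs : ℂ} {x X : ℝ} (x0 : 0 ≤ x) (x1 : x ≤ 3 / 20) (hX : |X| ≤ 2 / 5)
    (hw : 1 / 5 ≤ ys.re - zs.re) (hw1 : ys.re - zs.re ≤ 9 / 20) (t0 : 0 < ys.re)
    (t1 : ys.re < 1 / 2) :
    Td (1 / 2 - ys) (1 / 2 - ((x : ℂ) + (ys.im : ℂ) * I)) +
      Td (ys - zs) (((x : ℂ) + (ys.im : ℂ) * I) - ((X : ℂ) + (zs.im : ℂ) * I)) < 0 ∨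
      (x = ys.re ∧ X = zs.re) := by
  have key := ff4_near one_pos (ys := ys) (zs := zs) x0 (by linarith) hX (by linarith)
    (by linarith) (by linarith) t0 t1 (by linarith)
  rw [one_mul] at key
  rcases lt_or_eq_of_le key.1 with h | h
  · exact Or.inl h
  · exact Or.inr (key.2 h)

end Pool.Agent.S5
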