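import Pool.Agent.S5.Z4.SlR
import Pool.Agent.S5.Z4.FF
import Pool.Agent.S5.Z4.Bp

/-!
# The engine: from the columns to the node
-/

set_option autoImplicit false

namespace Pool.Agent.S5.Z4

open Complex Pool.Agent.H63.VC3 Pool.Agent.S3 Pool.Agent.S5.G

/-! ### The mirrored heights -/

/-- The mirrored height. -/
def mx (x : Cx) : Cx := ⟨2000 - x.z, 2000 - x.hi, 2000 - x.lo, x.d⟩

theorem ht_mir {n : ℕ} (h : n ≤ 2000) : ht (2000 - n) = -ht n := by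
  unfold ht
  rw [Nat.cast_sub h]
  push_cast
  ring

theorem ht_mono {a b : ℕ} (h : a ≤ b) : ht a ≤ ht b := by
  unfold ht
  have : (a : ℝ) ≤ b := by exact_mod_cast h
  linarith

private theorem ht_1000 : ht 1000 = 0 := by unfold ht; norm_num
theorem ht_1075 : ht 1075 = 3 / 40 := by unfold ht; norm_num
theorem ht_925 : ht 925 = -(3 / 40) := by unfold ht; norm_num
theorem ht_1150 : ht 1150 = 3 / 20 := by unfold ht; norm_num
theorem ht_850 : ht 850 = -(3 / 20) := by unfold ht; norm_num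

theorem cxok_mir {x : Cx} (h : CxOK x) : CxOK (mx x) := by
  have := h.z0
  have := h.z1
  have := h.lh
  refine ⟨?_, ?_, ?_, h.d⟩
  · show 850 ≤ 2000 - x.z
    omega
  · show 2000 - x.z ≤ 1150
    omega
  · show 2000 - x.hi ≤ 2000 - x.lo
    omega

theorem c2_mir {x0 x1 : Cx} {β ζ : ℝ} (h : C2 x0 x1 β ζ) (h0 : x0.hi ≤ 2000) (h1 : x1.hi ≤ 2000) :
    C2 (mx x0) (mx x1) β (-ζ) := by
  have a1 := h.o0.z1
  have a2 := h.o1.z1
  have a3 := h.o0.lh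
  have a4 := h.o1.lh
  have e0 : ht (mx x0).z = -ht x0.z := ht_mir (by omega)
  have e1 : ht (mx x1).z = -ht x1.z := ht_mir (by omega)
  refine ⟨cxok_mir h.o0, cxok_mir h.o1, h.b0, h.b1, ?_, ?_, ?_, ?_, ?_, ?_, ?_⟩
  · rw [e0, e1, h.e]
    ring
  · rw [show ht (mx x0).lo = -ht x0.hi from ht_mir h0]
    linarith [h.u0]
  · rw [show ht (mx x0).hi = -ht x0.lo from ht_mir (by omega)]
    linarith [h.l0]
  · rw [show ht (mx x1).lo = -ht x1.hi from ht_mir h1]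
    linarith [h.u1]
  · rw [show ht (mx x1).hi = -ht x1.lo from ht_mir (by omega)]
    linarith [h.l1]
  · rw [e0, e1]
    have := h.d0
    rw [show (-ht x1.z - -ht x0.z) ^ 2 = (ht x1.z - ht x0.z) ^ 2 by ring]
    exact this
  · rw [e0, e1]
    have := h.d1
    rw [show (-ht x1.z - -ht x0.z) ^ 2 = (ht x1.z - ht x0.z) ^ 2 by ring]
    exact this

theorem xj_mir {j : ℕ} {b X : ℝ} (h : XJ j b X) : XJ (19 - j) (1 - b) (-X) := by
  refine ⟨by omega, by linarith [h.b1], by linarith [h.b0], ?_⟩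
  rw [Nat.cast_sub h.hj, h.e]
  push_cast
  ring

/-- The columns of an abscissa. -/
theorem exists_xj {X : ℝ} {a c : ℕ} (hac : a < c) (hc : c ≤ 20) (h0 : (a : ℝ) ≤ 20 * X + 10)
    (h1 : 20 * X + 10 ≤ c) : ∃ j b, a ≤ j ∧ j < c ∧ XJ j b X := by
  have p0 : 0 ≤ 20 * X + 10 := le_trans (Nat.cast_nonneg a) h0
  rcases Nat.lt_or_ge ⌊20 * X + 10⌋₊ c with h | h
  · refine ⟨⌊20 * X + 10⌋₊, 20 * X + 10 - ⌊20 * X + 10⌋₊, Nat.le_floor h0, h, by omega, ?_, ?_, ?_⟩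
    · linarith [Nat.floor_le p0]
    · linarith [Nat.lt_floor_add_one (20 * X + 10)]
    · ring
  · have h2 : (c : ℝ) ≤ 20 * X + 10 := le_trans (by exact_mod_cast h) (Nat.floor_le p0)
    have h3 : 20 * X + 10 = c := le_antisymm h1 h2
    refine ⟨c - 1, 1, by omega, by omega, by omega, by norm_num, by norm_num, ?_⟩
    rw [Nat.cast_sub (by omega)]
    push_cast
    linarith

/-! ### Two slots -/

/-- A bound by columns. -/
def Sb (B : Cx → (ℕ → ℕ) → Prop) (f : ℂ → ℝ) : Prop :=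
  ∀ (x0 x1 : Cx) (β ζ : ℝ) (M0 M1 : ℕ → ℕ) (j : ℕ) (b : ℝ), C2 x0 x1 β ζ → B x0 M0 →
    B x1 M1 → ∀ z : ℂ, z.im = ζ → XJ j b z.re → f z ≤ (1 - β) * IP M0 j b + β * IP M1 j b

/-- Two columns. -/
theorem ip_add {M N : ℕ → ℕ} {j : ℕ} {b X K : ℝ} (hx : XJ j b X)
    (hk : ∀ i, (i = j ∧ b ≠ 1) ∨ (i = j + 1 ∧ b ≠ 0) → (M i : ℝ) + N (20 - i) ≤ K) :
    IP M j b + IP N (19 - j) (1 - b) ≤ (K - 19377352832) / 25000000 := by
  have hj := hx.hj
  have e1 : 19 - j + 1 = 20 - j := by omega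
  have e2 : 20 - (j + 1) = 19 - j := by omega
  unfold IP
  rw [e1]
  have u1 : (1 - b) * ((M j : ℝ) + N (20 - j)) ≤ (1 - b) * K := by
    rcases eq_or_ne b 1 with hb | hb
    · rw [hb]
      simp
    · exact mul_le_mul_of_nonneg_left (hk j (Or.inl ⟨rfl, hb⟩)) (by linarith [hx.b1])
  have u2 : b * ((M (j + 1) : ℝ) + N (19 - j)) ≤ b * K := by
    rcases eq_or_ne b 0 with hb | hb
    · rw [hb]
      simp
    · have := hk (j + 1) (Or.inr ⟨rfl, hb⟩)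
      rw [e2] at this
      exact mul_le_mul_of_nonneg_left this hx.b0
  linarith

/-- The sum of two slots. -/
theorem two_le {A B : Cx → (ℕ → ℕ) → Prop} {f g : ℂ → ℝ} (hf : Sb A f) (hg : Sb B g)
    {x0 x1 : Cx} {β : ℝ} {z : ℂ} (h : C2 x0 x1 β z.im) (h0 : x0.hi ≤ 2000) (h1 : x1.hi ≤ 2000)
    {M0 M1 N0 N1 : ℕ → ℕ} (a0 : A x0 M0) (a1 : A x1 M1) (b0 : B (mx x0) N0) (b1 : B (mx x1) N1)
    {j : ℕ} {b : ℝ} (hx : XJ j b z.re) {K0 K1 : ℝ}
    (k0 : ∀ i, (i = j ∧ b ≠ 1) ∨ (i = j + 1 ∧ b ≠ 0) → (M0 i : ℝ) + N0 (20 - i) ≤ K0)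
    (k1 : ∀ i, (i = j ∧ b ≠ 1) ∨ (i = j + 1 ∧ b ≠ 0) → (M1 i : ℝ) + N1 (20 - i) ≤ K1) :
    f z + g (-z) ≤ ((1 - β) * K0 + β * K1 - 19377352832) / 25000000 := by
  have p := hf x0 x1 β z.im M0 M1 j b h a0 a1 z rfl hx
  have q := hg (mx x0) (mx x1) β (-z.im) N0 N1 (19 - j) (1 - b) (c2_mir h h0 h1) b0 b1 (-z)
    (neg_im z) (by rw [neg_re]; exact xj_mir hx)
  have s0 := mul_le_mul_of_nonneg_left (ip_add hx k0) (sub_nonneg.2 h.b1)
  have s1 := mul_le_mul_of_nonneg_left (ip_add hx k1) h.b0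
  linarith

theorem toNat_lt {s : ℕ} {K C : ℤ} (h : s < (K - C).toNat) : (s : ℝ) ≤ K - C - 1 := by
  have h1 : (s : ℤ) < K - C := by omega
  have h2 : (s : ℤ) ≤ K - C - 1 := by omega
  have h3 : ((s : ℤ) : ℝ) ≤ ((K - C - 1 : ℤ) : ℝ) := by exact_mod_cast h2
  push_cast at h3
  exact h3

theorem col_lt {M N : ℕ → ℕ} {i : ℕ} {K C : ℤ} (h : M i + N (20 - i) < (K - C).toNat) :
    (M i : ℝ) + N (20 - i) ≤ K - C - 1 := by
  have := toNat_lt h
  push_cast at this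
  exact this

theorem exists_beta {a b x : ℝ} (h : (a ≤ x ∧ x ≤ b) ∨ (b ≤ x ∧ x ≤ a)) :
    ∃ β, 0 ≤ β ∧ β ≤ 1 ∧ x = (1 - β) * a + β * b := by
  rcases eq_or_ne a b with hab | hab
  · refine ⟨0, le_rfl, zero_le_one, ?_⟩
    subst hab
    rcases h with h | h <;> linarith
  · have hne : b - a ≠ 0 := sub_ne_zero.2 hab.symm
    refine ⟨(x - a) / (b - a), ?_, ?_, ?_⟩
    · rcases h with ⟨h1, h2⟩ | ⟨h1, h2⟩
      · exact div_nonneg (by linarith) (by linarith)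
      · exact div_nonneg_of_nonpos (by linarith) (by linarith)
    · rcases h with ⟨h1, h2⟩ | ⟨h1, h2⟩
      · have : 0 < b - a := lt_of_le_of_ne (by linarith) hne.symm
        rw [div_le_one this]
        linarith
      · have : b - a < 0 := lt_of_le_of_ne (by linarith) hne
        rw [div_le_one_of_neg this]
        linarith
    · field_simp
      ring

/-- Two contexts. -/
theorem c2_mk {x0 x1 : Cx} {ζ : ℝ} (o0 : CxOK x0) (o1 : CxOK x1)
    (h : (ht x0.z ≤ ζ ∧ ζ ≤ ht x1.z) ∨ (ht x1.z ≤ ζ ∧ ζ ≤ ht x0.z)) (l0 : ht x0.lo ≤ ζ)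
    (u0 : ζ ≤ ht x0.hi) (l1 : ht x1.lo ≤ ζ) (u1 : ζ ≤ ht x1.hi)
    (d0 : 1000000 * (ht x1.z - ht x0.z) ^ 2 ≤ (x0.d : ℝ))
    (d1 : 1000000 * (ht x1.z - ht x0.z) ^ 2 ≤ (x1.d : ℝ)) : ∃ β, C2 x0 x1 β ζ := by
  obtain ⟨β, b0, b1, e⟩ := exists_beta h
  exact ⟨β, o0, o1, b0, b1, e, l0, u0, l1, u1, d0, d1⟩

/-! ### The flats of both slots -/

theorem dT_F (S : Bool) (x : Nt) : S5.dT S ⟨4, false⟩ x .F = 0 := by
  unfold S5.dT
  have h1 : d0 S ⟨4, false⟩ x .F = 0 := by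
    unfold d0
    simp
  have h2 : d0 S x ⟨4, false⟩ (Pc.mir .F) = 0 := by
    unfold d0 Pc.mir
    simp
  rw [h1, h2]
  simp

theorem dT_H (S : Bool) (x : Nt) : S5.dT S ⟨4, false⟩ x .H = 0 ∨ S5.dT S ⟨4, false⟩ x .H = -1 := by
  unfold S5.dT
  have h1 : d0 S ⟨4, false⟩ x .H = 0 := by
    unfold d0
    simp
  have h2 : d0 S x ⟨4, false⟩ (Pc.mir .H) = 0 ∨ d0 S x ⟨4, false⟩ (Pc.mir .H) = 1 := by
    unfold d0 Pc.mir
    by_cases hx : x = ⟨3, true⟩ <;> simp [hx]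
  rw [h1]
  rcases h2 with h2 | h2
  · left
    rw [h2]
    simp
  · right
    rw [h2]
    simp

theorem hT_FH (S : Bool) (x : Nt) {pc : Pc} (h : pc = .F ∨ pc = .H) :
    hT S ⟨4, false⟩ x pc = 0 := by
  unfold hT
  rcases h with h | h <;> subst h <;> simp [r0, Pc.mir]

/-- The flat of one slot. -/
theorem ff_slot {s : Slt} {pc : Pc} {y zs : ℂ} {w X Xm : ℝ} (hex : s.ex = true)
    (hpc : pc = .F ∨ pc = .H) (hin : s.In pc y w) (hX : |X| ≤ Xm)
    (hw : Xm ≤ 2 * (s.ys.re - zs.re)) (hw0 : zs.re < s.ys.re) (t0 : 43 / 200 ≤ s.ys.re)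
    (t1 : s.ys.re ≤ 9 / 25) (he : |s.ys.im| ≤ 13 / 100)
    (hr : Xm = 7 / 20 ∧ 3 * s.ys.re - 2 * zs.re ≤ 112 / 100 ∨
      Xm = 3 / 10 ∧ 3 * s.ys.re - 2 * zs.re ≤ 117 / 100) :
    y.im = s.ys.im ∧
    2 * Td (1 / 2 - s.ys) (1 / 2 - y) + s.e ⟨4, false⟩ pc y w +
      Td (s.ys - zs) (y - ((X : ℂ) + (zs.im : ℂ) * I)) ≤ 0 ∧
    (2 * Td (1 / 2 - s.ys) (1 / 2 - y) + s.e ⟨4, false⟩ pc y w +
      Td (s.ys - zs) (y - ((X : ℂ) + (zs.im : ℂ) * I)) = 0 → y = s.ys ∧ X = zs.re ∧ pc = .F) := by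
  have hin' : s.InE pc y w := by
    unfold Slt.In at hin
    rwa [if_pos hex] at hin
  have hp := hin'.1
  have e0 : s.e ⟨4, false⟩ pc y w = S5.dT s.S ⟨4, false⟩ s.x pc * Td (1 / 2 - s.ys) (1 / 2 - y) := by
    unfold Slt.e slE
    rw [if_pos hex, hT_FH s.S s.x hpc]
    have hw' : w = 0 := by
      rcases hpc with h | h <;> subst h <;> exact hp.1
    have he' : pc.eff y = y := by
      rcases hpc with h | h <;> subst h <;> simp [Pc.eff, Pc.box]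
    rw [hw', he']
    simp
  have him : y.im = s.ys.im := by
    rcases hpc with h | h <;> subst h <;> exact hp.2.1
  have hy : y = (y.re : ℂ) + (s.ys.im : ℂ) * I := by
    rw [← him, re_add_im]
  have hre : 0 ≤ y.re ∧ y.re ≤ 1 / 2 := by
    rcases hpc with h | h <;> subst h
    · exact ⟨by linarith [hp.2.2.1], hp.2.2.2⟩
    · exact ⟨hp.2.2.1, by linarith [hp.2.2.2]⟩
  have hr' : Xm ≤ 7 / 20 ∧ s.ys.re - zs.re ≤ 38 / 100 + (1 / 2 - s.ys.re - 14 / 100) / 2 ∨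
      Xm ≤ 3 / 10 ∧ s.ys.re - zs.re ≤ 405 / 1000 + (1 / 2 - s.ys.re - 14 / 100) / 2 := by
    rcases hr with ⟨h1, h2⟩ | ⟨h1, h2⟩
    · exact Or.inl ⟨h1.le, by linarith⟩
    · exact Or.inr ⟨h1.le, by linarith⟩
  have hX1 : Xm ≤ 7 / 20 := by
    rcases hr with ⟨h1, h2⟩ | ⟨h1, h2⟩ <;> linarith
  have hd : s.ys.re - zs.re < 1 / 2 := by
    rcases hr with ⟨h1, h2⟩ | ⟨h1, h2⟩ <;> linarith
  have k2 := ff4 (ys := s.ys) (zs := zs) (x := y.re) (X := X) (Xm := Xm) hre.1 hre.2 hX hw hw0 t0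
    t1 he hr'
  rw [← hy] at k2
  have done : ∀ k : ℝ, (k * Td (1 / 2 - s.ys) (1 / 2 - y) +
      Td (s.ys - zs) (y - ((X : ℂ) + (zs.im : ℂ) * I)) ≤ 0 ∧
    (k * Td (1 / 2 - s.ys) (1 / 2 - y) +
      Td (s.ys - zs) (y - ((X : ℂ) + (zs.im : ℂ) * I)) = 0 → y.re = s.ys.re ∧ X = zs.re)) →
      2 + S5.dT s.S ⟨4, false⟩ s.x pc = k → y.im = s.ys.im ∧
    2 * Td (1 / 2 - s.ys) (1 / 2 - y) + s.e ⟨4, false⟩ pc y w +
      Td (s.ys - zs) (y - ((X : ℂ) + (zs.im : ℂ) * I)) ≤ 0 ∧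
    (2 * Td (1 / 2 - s.ys) (1 / 2 - y) + s.e ⟨4, false⟩ pc y w +
      Td (s.ys - zs) (y - ((X : ℂ) + (zs.im : ℂ) * I)) = 0 → y = s.ys ∧ X = zs.re ∧ pc = .F) := by
    intro k hk ek
    have e1 : 2 * Td (1 / 2 - s.ys) (1 / 2 - y) + s.e ⟨4, false⟩ pc y w +
        Td (s.ys - zs) (y - ((X : ℂ) + (zs.im : ℂ) * I)) =
        k * Td (1 / 2 - s.ys) (1 / 2 - y) + Td (s.ys - zs) (y - ((X : ℂ) + (zs.im : ℂ) * I)) := by
      rw [e0, ← ek]
      ring
    rw [e1]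
    refine ⟨him, hk.1, fun h0 => ?_⟩
    obtain ⟨a1, a2⟩ := hk.2 h0
    refine ⟨Complex.ext a1 him, a2, ?_⟩
    rcases hpc with h | h
    · exact h
    · exfalso
      subst h
      have := hp.2.2.2
      linarith
  rcases hpc with h | h
  · subst h
    exact done 2 k2 (by rw [dT_F]; norm_num)
  · rcases dT_H s.S s.x with h1 | h1
    · subst h
      exact done 2 k2 (by rw [h1]; norm_num)
    · have hy3 : y.re ≤ 3 / 20 := by
        subst h
        exact hp.2.2.2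
      have k1 := ff4_near one_pos (ys := s.ys) (zs := zs) (x := y.re) (X := X) (Xm := Xm) hre.1
        hre.2 hX hw hw0 hd (by linarith) (by linarith) (by linarith)
      rw [← hy] at k1
      subst h
      exact done 1 k1 (by rw [h1]; norm_num)

/-- The tangent planes on the flats. -/
theorem ez4_flat {ys zs bs y z b : ℂ} (h1 : y.im = ys.im) (h2 : z.im = zs.im)
    (h3 : b.im = bs.im) : Ez4 ys zs bs y z b = 2 * Td (1 / 2 - ys) (1 / 2 - y) +
      Td (ys - zs) (y - z) + (2 * Td (1 / 2 - bs) (1 / 2 - b) + Td (bs - -zs) (b - -z)) := by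
  unfold Ez4
  have e1 : (((y - ys) + (z - zs)) ^ 2).im = 0 := by
    rw [pow_two, mul_im, add_im, sub_im, sub_im, h1, h2]
    ring
  have e2 : (((z - zs) - (b - bs)) ^ 2).im = 0 := by
    rw [pow_two, mul_im, sub_im, sub_im, sub_im, h3, h2]
    ring
  rw [e1, e2, show bs - -zs = zs + bs by ring, show b - -z = z + b by ring]
  ring

/-! ### The node -/

/-- The hypotheses about the slots. -/
structure Ah (R Q : List Rw) (oR oQ : ℕ) (sy sb : Slt) (zs y0 z0 b0 : ℂ) (C : ℤ) : Prop where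
  ey : sy.ex = true
  eb : sb.ex = true
  ly : sy.lam = l4y sy.ys zs
  lb : sb.lam = l4b zs sb.ys
  lz : l4z sy.ys zs sb.ys = 0
  bs : Bse y0 z0 b0 sy.ys zs sb.ys
  AR : SlA R sy y0 (l4y y0 z0).im
  NR : SlN R sy y0 (l4y y0 z0).im
  WR : SlW oR sy y0 (l4y y0 z0).im
  AQ : SlA Q sb b0 (l4b z0 b0).im
  NQ : SlN Q sb b0 (l4b z0 b0).im
  WQ : SlW oQ sb b0 (l4b z0 b0).im
  hC : 25000000 * ((l4z y0 z0 b0).im * (zs.im - z0.im) - psi y0 z0 - psi b0 (-z0)) ≤ (C : ℝ)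

section Node0

variable {R Q : List Rw} {oR oQ : ℕ} {sy sb : Slt} {zs y0 z0 b0 : ℂ} {C : ℤ}

/-- The value of the node. -/
noncomputable def Ev (sy sb : Slt) (zs y z b : ℂ) (wy wb : ℝ) (py pb : Pc) : ℝ :=
  Ez4 sy.ys zs sb.ys y z b + sy.e ⟨4, false⟩ py y wy + sb.e ⟨4, false⟩ pb b wb

theorem Ah.le (h : Ah R Q oR oQ sy sb zs y0 z0 b0 C) {y z b : ℂ} {wy wb K : ℝ} {py pb : Pc}
    (hk : phi sy ⟨4, false⟩ py y0 (l4y y0 z0).im y wy z +
      phi sb ⟨4, false⟩ pb b0 (l4b z0 b0).im b wb (-z) ≤ (K - 19377352832) / 25000000) :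
    Ev sy sb zs y z b wy wb py pb ≤ (K - 19377352832 + C) / 25000000 := by
  have r := red4 ⟨4, false⟩ py pb y z b wy wb h.ey h.eb h.ly h.lb h.lz h.bs
  have := h.hC
  unfold Ev
  linarith

theorem Ah.sA (h : Ah R Q oR oQ sy sb zs y0 z0 b0 C) {pc : Pc} {y : ℂ} {w : ℝ} (hf : pc.free)
    (hi : sy.In pc y w) : Sb (CB R) (phi sy ⟨4, false⟩ pc y0 (l4y y0 z0).im y w) :=
  fun x0 x1 β ζ M0 M1 j b c2 m0 m1 z hz hx => h.AR x0 x1 β ζ M0 M1 j b c2 m0 m1 z hz hx pc y w hf hi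

theorem Ah.sN (h : Ah R Q oR oQ sy sb zs y0 z0 b0 C) {pc : Pc} {y : ℂ} {w : ℝ} (hf : pc.free)
    (h1 : ¬(pc = .F ∨ pc = .H)) (hi : sy.In pc y w) :
    Sb (CN R) (phi sy ⟨4, false⟩ pc y0 (l4y y0 z0).im y w) :=
  fun x0 x1 β ζ M0 M1 j b c2 m0 m1 z hz hx => h.NR x0 x1 β ζ M0 M1 j b c2 m0 m1 z hz hx pc y w hf
    (fun h => h1 (Or.inl h)) (fun h => h1 (Or.inr h)) hi

theorem Ah.tA (h : Ah R Q oR oQ sy sb zs y0 z0 b0 C) {pc : Pc} {y : ℂ} {w : ℝ} (hf : pc.free)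
    (hi : sb.In pc y w) : Sb (CB Q) (phi sb ⟨4, false⟩ pc b0 (l4b z0 b0).im y w) :=
  fun x0 x1 β ζ M0 M1 j b c2 m0 m1 z hz hx => h.AQ x0 x1 β ζ M0 M1 j b c2 m0 m1 z hz hx pc y w hf hi

theorem Ah.tN (h : Ah R Q oR oQ sy sb zs y0 z0 b0 C) {pc : Pc} {y : ℂ} {w : ℝ} (hf : pc.free)
    (h1 : ¬(pc = .F ∨ pc = .H)) (hi : sb.In pc y w) :
    Sb (CN Q) (phi sb ⟨4, false⟩ pc b0 (l4b z0 b0).im y w) :=
  fun x0 x1 β ζ M0 M1 j b c2 m0 m1 z hz hx => h.NQ x0 x1 β ζ M0 M1 j b c2 m0 m1 z hz hx pc y w hf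
    (fun h => h1 (Or.inl h)) (fun h => h1 (Or.inr h)) hi

/-- Two columns, two contexts: the value of the node is bounded by the checks. -/
theorem Ah.two (h : Ah R Q oR oQ sy sb zs y0 z0 b0 C) {A B : Cx → (ℕ → ℕ) → Prop} {y z b : ℂ}
    {wy wb : ℝ} {py pb : Pc} (hf : Sb A (phi sy ⟨4, false⟩ py y0 (l4y y0 z0).im y wy))
    (hg : Sb B (phi sb ⟨4, false⟩ pb b0 (l4b z0 b0).im b wb)) {x0 x1 : Cx} {β : ℝ}
    (c : C2 x0 x1 β z.im) (h0 : x0.hi ≤ 2000) (h1 : x1.hi ≤ 2000)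
    {M0 M1 N0 N1 : ℕ → ℕ} (a0 : A x0 M0) (a1 : A x1 M1) (b0' : B (mx x0) N0) (b1 : B (mx x1) N1)
    {j : ℕ} {t : ℝ} (hx : XJ j t z.re) {κ0 κ1 : ℤ}
    (k0 : ∀ i, (i = j ∧ t ≠ 1) ∨ (i = j + 1 ∧ t ≠ 0) → M0 i + N0 (20 - i) < (κ0 - C).toNat)
    (k1 : ∀ i, (i = j ∧ t ≠ 1) ∨ (i = j + 1 ∧ t ≠ 0) → M1 i + N1 (20 - i) < (κ1 - C).toNat) :
    Ev sy sb zs y z b wy wb py pb ≤ ((1 - β) * κ0 + β * κ1 - 19377352833) / 25000000 := by
  have key := h.le (two_le hf hg c h0 h1 a0 a1 b0' b1 hx (fun i hi => col_lt (k0 i hi))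
    (fun i hi => col_lt (k1 i hi)))
  refine key.trans (le_of_eq ?_)
  ring

/-- The own variable forces the edge, first slot. -/
theorem Ah.frcA (h : Ah R Q oR oQ sy sb zs y0 z0 b0 C) {n0 n1 lo hi d w1 w2 o : ℕ}
    (H : RwF R Q oR oQ n0 n1 lo hi d (19377352832 - C).toNat w1 w2 o)
    (hl : lo ≤ hi) (hl0 : lo ≤ 1000) (hh : 1000 ≤ hi) (hh2 : hi ≤ 2000) (hd : d ≤ 100000)
    {y z b : ℂ} {wy wb : ℝ} {py pb : Pc} (hp : py.frcZ) (hf : pb.free) (iy : sy.In py y wy)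
    (ib : sb.In pb b wb) (z1 : z.im = 0) (z2 : 2 / 5 ≤ z.re) (z3 : z.re ≤ 1 / 2)
    (z4 : z.re ≤ y.re) : Ev sy sb zs y z b wy wb py pb < 0 := by
  obtain ⟨M, N, S, T, ⟨c1, c2, -⟩, cS, cT, c3, -⟩ := H.zero
  obtain ⟨j, t, j1, j2, hx⟩ := exists_xj (X := z.re) (a := 18) (c := 20) (by norm_num) le_rfl
    (by push_cast; linarith) (by push_cast; linarith)
  have p := h.WR S j t cS z z1 hx z2 py y wy hp iy z4
  have c0 : C2 (mx ⟨1000, min lo 925, max hi 1075, max d 5625⟩)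
      (mx ⟨1000, min lo 925, max hi 1075, max d 5625⟩) 0 (-0) := by
    refine c2_mir ⟨?_, ?_, le_rfl, zero_le_one, ?_, ?_, ?_, ?_, ?_, ?_, ?_⟩ ?_ ?_
    · exact ⟨by norm_num, by norm_num, by show min lo 925 ≤ max hi 1075; omega,
        by show max d 5625 ≤ 100000; omega⟩
    · exact ⟨by norm_num, by norm_num, by show min lo 925 ≤ max hi 1075; omega,
        by show max d 5625 ≤ 100000; omega⟩
    · show (0 : ℝ) = (1 - 0) * ht 1000 + 0 * ht 1000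
      rw [ht_1000]
      ring
    · rw [← ht_1000]
      exact ht_mono (by show min lo 925 ≤ 1000; omega)
    · rw [← ht_1000]
      exact ht_mono (by show 1000 ≤ max hi 1075; omega)
    · rw [← ht_1000]
      exact ht_mono (by show min lo 925 ≤ 1000; omega)
    · rw [← ht_1000]
      exact ht_mono (by show 1000 ≤ max hi 1075; omega)
    · simp
    · simp
    · show max hi 1075 ≤ 2000
      omega
    · show max hi 1075 ≤ 2000
      omega
  have q := h.tA hf ib _ _ 0 (-0) N N (19 - j) (1 - t) c0 c2 c2 (-z)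
    (by rw [neg_im, z1]) (by rw [neg_re]; exact xj_mir hx)
  have s := ip_add (K := 19377352832 - C - 1) hx (M := S) (N := N) fun i hi' => by
    have := c3 i (by rcases hi' with ⟨e, -⟩ | ⟨e, -⟩ <;> omega) (by
      rcases hi' with ⟨e, -⟩ | ⟨e, -⟩ <;> omega)
    exact_mod_cast col_lt this
  have key := h.le (y := y) (z := z) (b := b) (wy := wy) (wb := wb) (py := py) (pb := pb)
    (K := 19377352832 - C - 1) (by linarith)
  refine lt_of_le_of_lt key ?_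
  rw [show ((19377352832 : ℝ) - C - 1 - 19377352832 + C) = -1 by ring]
  norm_num

/-- The own variable forces the edge, second slot. -/
theorem Ah.frcB (h : Ah R Q oR oQ sy sb zs y0 z0 b0 C) {n0 n1 lo hi d w1 w2 o : ℕ}
    (H : RwF R Q oR oQ n0 n1 lo hi d (19377352832 - C).toNat w1 w2 o)
    (hl : lo ≤ hi) (hl0 : lo ≤ 1000) (hh : 1000 ≤ hi) (hd : d ≤ 100000)
    {y z b : ℂ} {wy wb : ℝ} {py pb : Pc} (hf : py.free) (hp : pb.frcZ) (iy : sy.In py y wy)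
    (ib : sb.In pb b wb) (z1 : z.im = 0) (z2 : -(1 / 2) ≤ z.re) (z3 : z.re ≤ -(2 / 5))
    (z4 : 0 ≤ z.re + b.re) : Ev sy sb zs y z b wy wb py pb < 0 := by
  obtain ⟨M, N, S, T, ⟨c1, c2, -⟩, cS, cT, -, c3⟩ := H.zero
  obtain ⟨j, t, j1, j2, hx⟩ := exists_xj (X := z.re) (a := 0) (c := 2) (by norm_num) (by norm_num)
    (by push_cast; linarith) (by push_cast; linarith)
  have p := h.WQ T (19 - j) (1 - t) cT (-z) (by rw [neg_im, z1, neg_zero])
    (by rw [neg_re]; exact xj_mir hx) (by rw [neg_re]; linarith) pb b wb hp ib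
    (by rw [neg_re]; linarith)
  have c0 : C2 ⟨1000, min lo 925, max hi 1075, max d 5625⟩
      ⟨1000, min lo 925, max hi 1075, max d 5625⟩ 0 0 := by
    refine ⟨?_, ?_, le_rfl, zero_le_one, ?_, ?_, ?_, ?_, ?_, ?_, ?_⟩
    · exact ⟨by norm_num, by norm_num, by show min lo 925 ≤ max hi 1075; omega,
        by show max d 5625 ≤ 100000; omega⟩
    · exact ⟨by norm_num, by norm_num, by show min lo 925 ≤ max hi 1075; omega,
        by show max d 5625 ≤ 100000; omega⟩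
    · show (0 : ℝ) = (1 - 0) * ht 1000 + 0 * ht 1000
      rw [ht_1000]
      ring
    · rw [← ht_1000]
      exact ht_mono (by show min lo 925 ≤ 1000; omega)
    · rw [← ht_1000]
      exact ht_mono (by show 1000 ≤ max hi 1075; omega)
    · rw [← ht_1000]
      exact ht_mono (by show min lo 925 ≤ 1000; omega)
    · rw [← ht_1000]
      exact ht_mono (by show 1000 ≤ max hi 1075; omega)
    · simp
    · simp
  have q := h.sA hf iy _ _ 0 0 M M j t c0 c1 c1 z z1 hx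
  have s := ip_add (K := 19377352832 - C - 1) hx (M := M) (N := T) fun i hi' => by
    have := c3 i (by rcases hi' with ⟨e, -⟩ | ⟨e, -⟩ <;> omega)
    exact_mod_cast col_lt this
  have key := h.le (y := y) (z := z) (b := b) (wy := wy) (wb := wb) (py := py) (pb := pb)
    (K := 19377352832 - C - 1) (by linarith)
  refine lt_of_le_of_lt key ?_
  rw [show ((19377352832 : ℝ) - C - 1 - 19377352832 + C) = -1 by ring]
  norm_num

end Node0

/-- The contexts of a leaf. -/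
structure Cd (n0 n1 d : ℕ) : Prop where
  h0 : 850 ≤ n0
  h1 : n0 ≤ n1
  h2 : n1 ≤ 1150
  d0 : 1000000 * (ht n1 - ht n0) ^ 2 ≤ (d : ℝ)
  d1 : 1000000 * (ht n0) ^ 2 ≤ (d : ℝ)
  d2 : 1000000 * (ht n1) ^ 2 ≤ (d : ℝ)
  d3 : d ≤ 100000

theorem Cd.ok {n0 n1 d n : ℕ} (c : Cd n0 n1 d) (hn : n = n0 ∨ n = n1) :
    CxOK ⟨n, min n0 1000, max n1 1000, d⟩ := by
  have := c.h0
  have := c.h1
  have := c.h2
  refine ⟨?_, ?_, ?_, c.d3⟩
  · show 850 ≤ n
    omega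
  · show n ≤ 1150
    omega
  · show min n0 1000 ≤ max n1 1000
    omega

theorem Cd.okz {n0 n1 d : ℕ} (c : Cd n0 n1 d) :
    CxOK ⟨1000, min (min n0 1000) 925, max (max n1 1000) 1075, max d 5625⟩ := by
  have := c.d3
  refine ⟨by norm_num, by norm_num, ?_, ?_⟩
  · show min (min n0 1000) 925 ≤ max (max n1 1000) 1075
    omega
  · show max d 5625 ≤ 100000
    omega

/-- The contexts of the flat. -/
theorem Cd.flat {n0 n1 d : ℕ} (c : Cd n0 n1 d) {ζ : ℝ} (a0 : ht n0 ≤ ζ) (a1 : ζ ≤ ht n1) :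
    ∃ β, C2 ⟨n0, min n0 1000, max n1 1000, d⟩ ⟨n1, min n0 1000, max n1 1000, d⟩ β ζ := by
  have b0 : ht (min n0 1000) ≤ ζ := (ht_mono (min_le_left _ _)).trans a0
  have b1 : ζ ≤ ht (max n1 1000) := a1.trans (ht_mono (le_max_left _ _))
  exact c2_mk (c.ok (Or.inl rfl)) (c.ok (Or.inr rfl)) (Or.inl ⟨a0, a1⟩) b0 b1 b0 b1 c.d0 c.d0

/-- The contexts between the flat and the real line. -/
theorem Cd.leg {n0 n1 d n : ℕ} (c : Cd n0 n1 d) (hn : n = n0 ∨ n = n1) {ζ : ℝ}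
    (a : (0 ≤ ζ ∧ ζ ≤ ht n) ∨ (ht n ≤ ζ ∧ ζ ≤ 0)) :
    ∃ β, C2 ⟨1000, min (min n0 1000) 925, max (max n1 1000) 1075, max d 5625⟩
      ⟨n, min n0 1000, max n1 1000, d⟩ β ζ := by
  have h1 := c.h1
  have b0 : ht (min n0 1000) ≤ ζ := by
    rcases a with ⟨a1, a2⟩ | ⟨a1, a2⟩
    · refine (ht_mono (min_le_right n0 1000)).trans ?_
      rw [ht_1000]
      exact a1
    · exact (ht_mono (by omega)).trans a1
  have b1 : ζ ≤ ht (max n1 1000) := by
    rcases a with ⟨a1, a2⟩ | ⟨a1, a2⟩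
    · exact a2.trans (ht_mono (by omega))
    · refine a2.trans ?_
      rw [← ht_1000]
      exact ht_mono (le_max_right _ _)
  have e : 1000000 * (ht n - ht 1000) ^ 2 ≤ (d : ℝ) := by
    rw [ht_1000, sub_zero]
    rcases hn with h | h
    · rw [h]
      exact c.d1
    · rw [h]
      exact c.d2
  refine c2_mk c.okz (c.ok hn) ?_ ?_ ?_ b0 b1 ?_ e
  · show (ht 1000 ≤ ζ ∧ ζ ≤ ht n) ∨ (ht n ≤ ζ ∧ ζ ≤ ht 1000)
    rw [ht_1000]
    exact a
  · exact (ht_mono (min_le_left _ _)).trans b0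
  · exact b1.trans (ht_mono (le_max_left _ _))
  · refine e.trans ?_
    show (d : ℝ) ≤ ((max d 5625 : ℕ) : ℝ)
    exact_mod_cast le_max_left _ _

section Node

variable {R Q : List Rw} {oR oQ : ℕ} {sy sb : Slt} {zs y0 z0 b0 : ℂ} {C : ℤ}
variable {n0 n1 d o : ℕ}

/-- The columns of a leaf, with the constants. -/
abbrev RW (R Q : List Rw) (oR oQ n0 n1 d o : ℕ) (C : ℤ) : Prop :=
  RwF R Q oR oQ n0 n1 (min n0 1000) (max n1 1000) d (19377352832 - C).toNat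
    (19389133402 - C).toNat (19400913952 - C).toNat o

/-- The flat, if one slot is not on its flat. -/
theorem Ah.flat1 (h : Ah R Q oR oQ sy sb zs y0 z0 b0 C) (c : Cd n0 n1 d)
    (H : RW R Q oR oQ n0 n1 d o C) (a0 : ht n0 ≤ zs.im) (a1 : zs.im ≤ ht n1)
    {y z b : ℂ} {wy wb : ℝ} {py pb : Pc} (fy : py.free) (fb : pb.free) (iy : sy.In py y wy)
    (ib : sb.In pb b wb) (z1 : z.im = zs.im) (z2 : -(2 / 5) ≤ z.re) (z3 : z.re ≤ 2 / 5)
    (hn : ¬(py = .F ∨ py = .H) ∨ ¬(pb = .F ∨ pb = .H)) : Ev sy sb zs y z b wy wb py pb < 0 := by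
  obtain ⟨β, hc⟩ := c.flat a0 a1
  rw [← z1] at hc
  obtain ⟨M0, M0', N0, N0', ⟨c1, c2, -⟩, c3, c4, c5⟩ := H.flat n0 (Or.inl rfl)
  obtain ⟨M1, M1', N1, N1', ⟨e1, e2, -⟩, e3, e4, e5⟩ := H.flat n1 (Or.inr rfl)
  obtain ⟨j, t, j1, j2, hx⟩ := exists_xj (X := z.re) (a := 2) (c := 18) (by norm_num) (by norm_num)
    (by push_cast; linarith) (by push_cast; linarith)
  have hb : max n1 1000 ≤ 2000 := by
    have := c.h2
    omega
  have hi : ∀ i, (i = j ∧ t ≠ 1) ∨ (i = j + 1 ∧ t ≠ 0) → 2 ≤ i ∧ i ≤ 18 := by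
    intro i hi
    rcases hi with ⟨e, -⟩ | ⟨e, -⟩ <;> omega
  have fin : Ev sy sb zs y z b wy wb py pb ≤
      ((1 - β) * ((19377352832 : ℤ) : ℝ) + β * ((19377352832 : ℤ) : ℝ) - 19377352833) /
        25000000 := by
    rcases hn with hn | hn
    · exact h.two (h.sN fy hn iy) (h.tA fb ib) hc hb hb c3 e3 c2 e2 hx
        (fun i hi' => (c5 i (hi i hi').1 (hi i hi').2).1)
        (fun i hi' => (e5 i (hi i hi').1 (hi i hi').2).1)
    · exact h.two (h.sA fy iy) (h.tN fb hn ib) hc hb hb c1 e1 c4 e4 hx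
        (fun i hi' => (c5 i (hi i hi').1 (hi i hi').2).2)
        (fun i hi' => (e5 i (hi i hi').1 (hi i hi').2).2)
  refine lt_of_le_of_lt fin ?_
  push_cast
  linarith

/-- The outer part of the flat. -/
theorem Ah.flat2 (h : Ah R Q oR oQ sy sb zs y0 z0 b0 C) (c : Cd n0 n1 d)
    (H : RW R Q oR oQ n0 n1 d o C) (ho : o = 2 ∨ o = 3) (a0 : ht n0 ≤ zs.im)
    (a1 : zs.im ≤ ht n1)
    {y z b : ℂ} {wy wb : ℝ} {py pb : Pc} (fy : py.free) (fb : pb.free) (iy : sy.In py y wy)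
    (ib : sb.In pb b wb) (z1 : z.im = zs.im) (z2 : -(2 / 5) ≤ z.re) (z3 : z.re ≤ 2 / 5)
    (z4 : (9 - (o : ℝ)) / 20 ≤ |z.re|) : Ev sy sb zs y z b wy wb py pb < 0 := by
  obtain ⟨β, hc⟩ := c.flat a0 a1
  rw [← z1] at hc
  obtain ⟨M0, M0', N0, N0', ⟨c1, c2, c3⟩, -, -, -⟩ := H.flat n0 (Or.inl rfl)
  obtain ⟨M1, M1', N1, N1', ⟨e1, e2, e3⟩, -, -, -⟩ := H.flat n1 (Or.inr rfl)
  have hb : max n1 1000 ≤ 2000 := by
    have := c.h2
    omega
  have hj : ∃ j t, XJ j t z.re ∧ ∀ i, (i = j ∧ t ≠ 1) ∨ (i = j + 1 ∧ t ≠ 0) →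
      i ≤ 20 ∧ ((2 ≤ i ∧ i < 2 + o) ∨ (19 - o ≤ i ∧ i < 19)) := by
    have ho' : (o : ℝ) = 2 ∨ (o : ℝ) = 3 := by
      rcases ho with h | h
      · left
        rw [h]
        norm_num
      · right
        rw [h]
        norm_num
    have oc : ((2 + (o - 1) : ℕ) : ℝ) = 1 + o := by
      rw [Nat.cast_add, Nat.cast_sub (by omega)]
      push_cast
      ring
    have oc' : ((19 - o : ℕ) : ℝ) = 19 - o := by
      rw [Nat.cast_sub (by omega)]
      push_cast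
      ring
    rcases abs_cases z.re with ⟨h1, h2⟩ | ⟨h1, h2⟩
    · rw [h1] at z4
      obtain ⟨j, t, j1, j2, hx⟩ := exists_xj (X := z.re) (a := 19 - o) (c := 18) (by omega)
        (by norm_num) (by rw [oc']; linarith) (by push_cast; linarith)
      refine ⟨j, t, hx, fun i hi => ?_⟩
      rcases hi with ⟨e, -⟩ | ⟨e, -⟩ <;> omega
    · rw [h1] at z4
      obtain ⟨j, t, j1, j2, hx⟩ := exists_xj (X := z.re) (a := 2) (c := 2 + (o - 1)) (by omega)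
        (by omega) (by push_cast; linarith) (by rw [oc]; linarith)
      refine ⟨j, t, hx, fun i hi => ?_⟩
      rcases hi with ⟨e, -⟩ | ⟨e, -⟩ <;> omega
  obtain ⟨j, t, hx, hi⟩ := hj
  have fin : Ev sy sb zs y z b wy wb py pb ≤
      ((1 - β) * ((19377352832 : ℤ) : ℝ) + β * ((19377352832 : ℤ) : ℝ) - 19377352833) /
        25000000 :=
    h.two (h.sA fy iy) (h.tA fb ib) hc hb hb c1 e1 c2 e2 hx
      (fun i hi' => c3 i (hi i hi').1 (hi i hi').2)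
      (fun i hi' => e3 i (hi i hi').1 (hi i hi').2)
  refine lt_of_le_of_lt fin ?_
  push_cast
  linarith

/-- The flats of both slots and of the variable. -/
theorem Ah.flat3 (h : Ah R Q oR oQ sy sb zs y0 z0 b0 C) (f : FFc o sy.ys zs sb.ys)
    {y z b : ℂ} {wy wb : ℝ} {py pb : Pc} (fy : py = .F ∨ py = .H) (fb : pb = .F ∨ pb = .H)
    (iy : sy.In py y wy) (ib : sb.In pb b wb) (z1 : z.im = zs.im)
    (z4 : |z.re| ≤ (9 - (o : ℝ)) / 20) : Ev sy sb zs y z b wy wb py pb < 0 ∨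
      (y = sy.ys ∧ z = zs ∧ b = sb.ys ∧ py = .F ∧ pb = .F) := by
  have hX : ∃ Xm : ℝ, |z.re| ≤ Xm ∧ (Xm = 7 / 20 ∧ o = 2 ∨ Xm = 3 / 10 ∧ o = 3) := by
    rcases f.ho with h | h
    · refine ⟨7 / 20, ?_, Or.inl ⟨rfl, h⟩⟩
      rw [h] at z4
      push_cast at z4
      linarith
    · refine ⟨3 / 10, ?_, Or.inr ⟨rfl, h⟩⟩
      rw [h] at z4
      push_cast at z4
      linarith
  obtain ⟨Xm, x1, x2⟩ := hX
  have hbs := h.bs
  have A := ff_slot (s := sy) (zs := zs) (X := z.re) (Xm := Xm) h.ey fy iy x1 (by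
    rcases x2 with ⟨e, ho⟩ | ⟨e, ho⟩
    · rw [e]; exact (f.o2 ho).2.1
    · rw [e]; exact (f.o3 ho).2.1) hbs.cl' f.y0 f.y1 f.ey (by
    rcases x2 with ⟨e, ho⟩ | ⟨e, ho⟩
    · exact Or.inl ⟨e, (f.o2 ho).1.1⟩
    · exact Or.inr ⟨e, (f.o3 ho).1.1⟩)
  have B := ff_slot (s := sb) (zs := -zs) (X := -z.re) (Xm := Xm) h.eb fb ib
    (by rw [abs_neg]; exact x1) (by
    rw [neg_re]
    rcases x2 with ⟨e, ho⟩ | ⟨e, ho⟩
    · rw [e]; linarith [(f.o2 ho).2.2]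
    · rw [e]; linarith [(f.o3 ho).2.2]) (by rw [neg_re]; linarith [hbs.dl']) f.b0 f.b1 f.eb (by
    rw [neg_re]
    rcases x2 with ⟨e, ho⟩ | ⟨e, ho⟩
    · exact Or.inl ⟨e, by linarith [(f.o2 ho).1.2]⟩
    · exact Or.inr ⟨e, by linarith [(f.o3 ho).1.2]⟩)
  have ez : (z.re : ℂ) + (zs.im : ℂ) * I = z := by
    rw [← z1, re_add_im]
  have ez' : ((-z.re : ℝ) : ℂ) + ((-zs).im : ℂ) * I = -z := by
    rw [neg_im, ← z1]
    apply Complex.ext <;> simp
  rw [ez] at A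
  rw [ez'] at B
  obtain ⟨A1, A2, A3⟩ := A
  obtain ⟨B1, B2, B3⟩ := B
  have e : Ev sy sb zs y z b wy wb py pb =
      (2 * Td (1 / 2 - sy.ys) (1 / 2 - y) + sy.e ⟨4, false⟩ py y wy + Td (sy.ys - zs) (y - z)) +
      (2 * Td (1 / 2 - sb.ys) (1 / 2 - b) + sb.e ⟨4, false⟩ pb b wb +
        Td (sb.ys - -zs) (b - -z)) := by
    unfold Ev
    rw [ez4_flat A1 z1 B1]
    ring
  rw [e]
  generalize 2 * Td (1 / 2 - sy.ys) (1 / 2 - y) + sy.e ⟨4, false⟩ py y wy +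
    Td (sy.ys - zs) (y - z) = p at *
  generalize 2 * Td (1 / 2 - sb.ys) (1 / 2 - b) + sb.e ⟨4, false⟩ pb b wb +
    Td (sb.ys - -zs) (b - -z) = q at *
  rcases lt_or_eq_of_le (add_nonpos A2 B2) with k | k
  · exact Or.inl k
  · right
    have p0 : p = 0 := by linarith
    have q0 : q = 0 := by linarith
    obtain ⟨u1, u2, u3⟩ := A3 p0
    obtain ⟨v1, v2, v3⟩ := B3 q0
    exact ⟨u1, Complex.ext u2 z1, v1, u3, v3⟩

/-- The leg: one column. -/
theorem Ah.leg (h : Ah R Q oR oQ sy sb zs y0 z0 b0 C) {y z b : ℂ} {wy wb : ℝ} {py pb : Pc}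
    (fy : py.free) (fb : pb.free) (iy : sy.In py y wy) (ib : sb.In pb b wb) {x0 x1 : Cx} {β : ℝ}
    (c : C2 x0 x1 β z.im) (h0 : x0.hi ≤ 2000) (h1 : x1.hi ≤ 2000)
    {M0 M1 N0 N1 : ℕ → ℕ} (a0 : CB R x0 M0) (a1 : CB R x1 M1) (b0' : CB Q (mx x0) N0)
    (b1 : CB Q (mx x1) N1) (hz : z.re = -(2 / 5) ∨ z.re = 2 / 5) {κ0 κ1 : ℤ}
    (k0 : ∀ i, i = 2 ∨ i = 18 → M0 i + N0 (20 - i) < (κ0 - C).toNat)
    (k1 : ∀ i, i = 2 ∨ i = 18 → M1 i + N1 (20 - i) < (κ1 - C).toNat) :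
    Ev sy sb zs y z b wy wb py pb ≤ ((1 - β) * κ0 + β * κ1 - 19377352833) / 25000000 := by
  have hj : ∃ j, (j = 2 ∨ j = 18) ∧ XJ j 0 z.re := by
    rcases hz with e | e
    · refine ⟨2, Or.inl rfl, by norm_num, le_rfl, zero_le_one, ?_⟩
      rw [e]
      norm_num
    · refine ⟨18, Or.inr rfl, by norm_num, le_rfl, zero_le_one, ?_⟩
      rw [e]
      norm_num
  obtain ⟨j, hj, hx⟩ := hj
  refine h.two (h.sA fy iy) (h.tA fb ib) c h0 h1 a0 a1 b0' b1 hx (fun i hi => ?_)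
    (fun i hi => ?_)
  · rcases hi with ⟨e, -⟩ | ⟨-, e⟩
    · exact k0 i (e ▸ hj)
    · exact absurd rfl e
  · rcases hi with ⟨e, -⟩ | ⟨-, e⟩
    · exact k1 i (e ▸ hj)
    · exact absurd rfl e

/-- The legs. -/
theorem Ah.legs (h : Ah R Q oR oQ sy sb zs y0 z0 b0 C) (c : Cd n0 n1 d)
    (H : RW R Q oR oQ n0 n1 d o C) (ho : o = 2 ∨ o = 3) (a0 : ht n0 ≤ zs.im)
    (a1 : zs.im ≤ ht n1)
    {y z b : ℂ} {wy wb : ℝ} {py pb : Pc} (fy : py.free) (fb : pb.free) (iy : sy.In py y wy)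
    (ib : sb.In pb b wb) (hz : z.re = -(2 / 5) ∨ z.re = 2 / 5) (z1 : z.im ∈ Set.uIcc 0 zs.im) :
    Ev sy sb zs y z b wy wb py pb < 0 := by
  obtain ⟨M0, M0', N0, N0', ⟨c1, c2, c3⟩, -, -, -⟩ := H.flat n0 (Or.inl rfl)
  obtain ⟨M1, M1', N1, N1', ⟨e1, e2, e3⟩, -, -, -⟩ := H.flat n1 (Or.inr rfl)
  obtain ⟨M, N, S, T, ⟨f1, f2, f3⟩, -, -, -, -⟩ := H.zero
  have := c.h2
  have hb : max n1 1000 ≤ 2000 := by omega
  have hb' : max (max n1 1000) 1075 ≤ 2000 := by omega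
  have k0 : ∀ i, i = 2 ∨ i = 18 → M0 i + N0 (20 - i) < (19377352832 - C).toNat :=
    fun i hi => c3 i (by omega) (by omega)
  have k1 : ∀ i, i = 2 ∨ i = 18 → M1 i + N1 (20 - i) < (19377352832 - C).toNat :=
    fun i hi => e3 i (by omega) (by omega)
  have kz : ∀ i, i = 2 ∨ i = 18 → M i + N (20 - i) < (19377352832 - C).toNat :=
    fun i hi => f3 i (by omega) hi
  have fin : ∃ β : ℝ, Ev sy sb zs y z b wy wb py pb ≤
      ((1 - β) * ((19377352832 : ℤ) : ℝ) + β * ((19377352832 : ℤ) : ℝ) - 19377352833) /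
        25000000 := by
    rcases lt_or_ge z.im (ht n0) with g | g
    · have z2 : 0 ≤ z.im := by
        rcases Set.mem_uIcc.1 z1 with ⟨u, v⟩ | ⟨u, v⟩
        · exact u
        · linarith
      obtain ⟨β, hc⟩ := c.leg (n := n0) (Or.inl rfl) (Or.inl ⟨z2, g.le⟩)
      exact ⟨β, h.leg fy fb iy ib hc hb' hb f1 c1 f2 c2 hz kz k0⟩
    · rcases le_or_gt z.im (ht n1) with g' | g'
      · obtain ⟨β, hc⟩ := c.flat g g'
        exact ⟨β, h.leg fy fb iy ib hc hb hb c1 e1 c2 e2 hz k0 k1⟩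
      · have z2 : z.im ≤ 0 := by
          rcases Set.mem_uIcc.1 z1 with ⟨u, v⟩ | ⟨u, v⟩
          · linarith
          · exact v
        obtain ⟨β, hc⟩ := c.leg (n := n1) (Or.inr rfl) (Or.inr ⟨g'.le, z2⟩)
        exact ⟨β, h.leg fy fb iy ib hc hb' hb f1 e1 f2 e2 hz kz k1⟩
  obtain ⟨β, fin⟩ := fin
  refine lt_of_le_of_lt fin ?_
  push_cast
  linarith

theorem cx_ok {n lo hi d : ℕ} (h0 : 850 ≤ n) (h1 : n ≤ 1150) (h2 : lo ≤ hi) (h3 : d ≤ 100000) :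
    CxOK ⟨n, lo, hi, d⟩ := ⟨h0, h1, h2, h3⟩

/-- The verticals. -/
theorem Ah.vert (h : Ah R Q oR oQ sy sb zs y0 z0 b0 C) (c : Cd n0 n1 d)
    (H : RW R Q oR oQ n0 n1 d o C)
    {y z b : ℂ} {wy wb : ℝ} {py pb : Pc} (fy : py.free) (fb : pb.free) (iy : sy.In py y wy)
    (ib : sb.In pb b wb) (hz : z.re = -(2 / 5) ∨ z.re = 2 / 5) (z1 : |z.im| ≤ 3 / 20) :
    Ev sy sb zs y z b wy wb py pb < 2 * Real.pi * |z.im| := by
  obtain ⟨M, N, S, T, ⟨f1, f2, f3⟩, -, -, -, -⟩ := H.zero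
  have := c.h2
  have hb' : max (max n1 1000) 1075 ≤ 2000 := by omega
  have kz : ∀ i, i = 2 ∨ i = 18 → M i + N (20 - i) < (19377352832 - C).toNat :=
    fun i hi => f3 i (by omega) hi
  have hpi := Real.pi_gt_d6
  have hw : 6.283184 * |z.im| ≤ 2 * Real.pi * |z.im| :=
    mul_le_mul_of_nonneg_right (by linarith) (abs_nonneg _)
  refine lt_of_lt_of_le ?_ hw
  have hd : (5625 : ℝ) ≤ ((max d 5625 : ℕ) : ℝ) := by
    exact_mod_cast le_max_right d 5625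
  obtain ⟨g1, g2⟩ := abs_le.1 z1
  rcases le_total 0 z.im with g | g
  · rw [abs_of_nonneg g]
    obtain ⟨M1, N1, e1, e2, e3⟩ := H.v1 1075 1000 1150 (Or.inl ⟨rfl, rfl, rfl⟩)
    have o1 : CxOK ⟨1075, 1000, 1150, 5625⟩ :=
      cx_ok (by norm_num) (by norm_num) (by norm_num) (by norm_num)
    rcases le_total z.im (3 / 40) with g' | g'
    · obtain ⟨β, hc⟩ := c2_mk (x0 := ⟨1000, min (min n0 1000) 925, max (max n1 1000) 1075,
          max d 5625⟩) (x1 := ⟨1075, 1000, 1150, 5625⟩) (ζ := z.im) c.okz o1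
        (Or.inl ⟨by show ht 1000 ≤ _; rw [ht_1000]; exact g,
          by show _ ≤ ht 1075; rw [ht_1075]; exact g'⟩)
        (by
          refine le_trans ?_ g
          rw [← ht_1000]
          exact ht_mono (by show min (min n0 1000) 925 ≤ 1000; omega))
        (by
          refine g'.trans ?_
          rw [← ht_1075]
          exact ht_mono (le_max_right _ _))
        (by show ht 1000 ≤ _; rw [ht_1000]; exact g)
        (by show _ ≤ ht 1150; rw [ht_1150]; linarith)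
        (by
          show 1000000 * (ht 1075 - ht 1000) ^ 2 ≤ ((max d 5625 : ℕ) : ℝ)
          rw [ht_1075, ht_1000]
          linarith)
        (by
          show 1000000 * (ht 1075 - ht 1000) ^ 2 ≤ ((5625 : ℕ) : ℝ)
          rw [ht_1075, ht_1000]
          norm_num)
      have fin := h.leg fy fb iy ib hc hb' (by norm_num) f1 e1 f2 e2 hz kz
        (fun i hi => e3 i (by omega) hi)
      have he : z.im = (1 - β) * ht 1000 + β * ht 1075 := hc.e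
      rw [ht_1000, ht_1075] at he
      push_cast at fin
      linarith [hc.b0]
    · obtain ⟨M2, N2, q1, q2, q3⟩ := H.v2 1150 1075 1150 (Or.inl ⟨rfl, rfl, rfl⟩)
      have o2 : CxOK ⟨1150, 1075, 1150, 5625⟩ :=
        cx_ok (by norm_num) (by norm_num) (by norm_num) (by norm_num)
      obtain ⟨β, hc⟩ := c2_mk (x0 := ⟨1075, 1000, 1150, 5625⟩)
        (x1 := ⟨1150, 1075, 1150, 5625⟩) (ζ := z.im) o1 o2
        (Or.inl ⟨by show ht 1075 ≤ _; rw [ht_1075]; exact g',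
          by show _ ≤ ht 1150; rw [ht_1150]; exact g2⟩)
        (by show ht 1000 ≤ _; rw [ht_1000]; exact g)
        (by show _ ≤ ht 1150; rw [ht_1150]; exact g2)
        (by show ht 1075 ≤ _; rw [ht_1075]; exact g')
        (by show _ ≤ ht 1150; rw [ht_1150]; exact g2)
        (by
          show 1000000 * (ht 1150 - ht 1075) ^ 2 ≤ ((5625 : ℕ) : ℝ)
          rw [ht_1075, ht_1150]
          norm_num)
        (by
          show 1000000 * (ht 1150 - ht 1075) ^ 2 ≤ ((5625 : ℕ) : ℝ)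
          rw [ht_1075, ht_1150]
          norm_num)
      have fin := h.leg fy fb iy ib hc (by norm_num) (by norm_num) e1 q1 e2 q2 hz
        (fun i hi => e3 i (by omega) hi) (fun i hi => q3 i (by omega) (by omega))
      have he : z.im = (1 - β) * ht 1075 + β * ht 1150 := hc.e
      rw [ht_1150, ht_1075] at he
      push_cast at fin
      linarith [hc.b0]
  · rw [abs_of_nonpos g]
    obtain ⟨M1, N1, e1, e2, e3⟩ := H.v1 925 850 1000 (Or.inr ⟨rfl, rfl, rfl⟩)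
    have o1 : CxOK ⟨925, 850, 1000, 5625⟩ :=
      cx_ok (by norm_num) (by norm_num) (by norm_num) (by norm_num)
    rcases le_total (-(3 / 40)) z.im with g' | g'
    · obtain ⟨β, hc⟩ := c2_mk (x0 := ⟨1000, min (min n0 1000) 925, max (max n1 1000) 1075,
          max d 5625⟩) (x1 := ⟨925, 850, 1000, 5625⟩) (ζ := z.im) c.okz o1
        (Or.inr ⟨by show ht 925 ≤ _; rw [ht_925]; exact g',
          by show _ ≤ ht 1000; rw [ht_1000]; exact g⟩)
        (by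
          refine le_trans ?_ g'
          rw [← ht_925]
          exact ht_mono (min_le_right _ _))
        (by
          refine g.trans ?_
          rw [← ht_1000]
          exact ht_mono (by show 1000 ≤ max (max n1 1000) 1075; omega))
        (by show ht 850 ≤ _; rw [ht_850]; linarith)
        (by show _ ≤ ht 1000; rw [ht_1000]; exact g)
        (by
          show 1000000 * (ht 925 - ht 1000) ^ 2 ≤ ((max d 5625 : ℕ) : ℝ)
          rw [ht_925, ht_1000]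
          linarith)
        (by
          show 1000000 * (ht 925 - ht 1000) ^ 2 ≤ ((5625 : ℕ) : ℝ)
          rw [ht_925, ht_1000]
          norm_num)
      have fin := h.leg fy fb iy ib hc hb' (by norm_num) f1 e1 f2 e2 hz kz
        (fun i hi => e3 i (by omega) hi)
      have he : z.im = (1 - β) * ht 1000 + β * ht 925 := hc.e
      rw [ht_1000, ht_925] at he
      push_cast at fin
      linarith [hc.b0]
    · obtain ⟨M2, N2, q1, q2, q3⟩ := H.v2 850 850 925 (Or.inr ⟨rfl, rfl, rfl⟩)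
      have o2 : CxOK ⟨850, 850, 925, 5625⟩ :=
        cx_ok (by norm_num) (by norm_num) (by norm_num) (by norm_num)
      obtain ⟨β, hc⟩ := c2_mk (x0 := ⟨925, 850, 1000, 5625⟩)
        (x1 := ⟨850, 850, 925, 5625⟩) (ζ := z.im) o1 o2
        (Or.inr ⟨by show ht 850 ≤ _; rw [ht_850]; exact g1,
          by show _ ≤ ht 925; rw [ht_925]; exact g'⟩)
        (by show ht 850 ≤ _; rw [ht_850]; exact g1)
        (by show _ ≤ ht 1000; rw [ht_1000]; exact g)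
        (by show ht 850 ≤ _; rw [ht_850]; exact g1)
        (by show _ ≤ ht 925; rw [ht_925]; exact g')
        (by
          show 1000000 * (ht 850 - ht 925) ^ 2 ≤ ((5625 : ℕ) : ℝ)
          rw [ht_925, ht_850]
          norm_num)
        (by
          show 1000000 * (ht 850 - ht 925) ^ 2 ≤ ((5625 : ℕ) : ℝ)
          rw [ht_925, ht_850]
          norm_num)
      have fin := h.leg fy fb iy ib hc (by norm_num) (by norm_num) e1 q1 e2 q2 hz
        (fun i hi => e3 i (by omega) hi) (fun i hi => q3 i (by omega) (by omega))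
      have he : z.im = (1 - β) * ht 925 + β * ht 850 := hc.e
      rw [ht_850, ht_925] at he
      push_cast at fin
      linarith [hc.b0]

/-- The horizontals. -/
theorem Ah.horz (h : Ah R Q oR oQ sy sb zs y0 z0 b0 C)
    (H : RW R Q oR oQ n0 n1 d o C)
    {y z b : ℂ} {wy wb : ℝ} {py pb : Pc} (fy : py.free) (fb : pb.free) (iy : sy.In py y wy)
    (ib : sb.In pb b wb) (z2 : -(2 / 5) ≤ z.re) (z3 : z.re ≤ 2 / 5) (z1 : |z.im| = 3 / 20) :
    Ev sy sb zs y z b wy wb py pb < 2 * Real.pi * (3 / 20) := by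
  have hpi := Real.pi_gt_d6
  obtain ⟨j, t, j1, j2, hx⟩ := exists_xj (X := z.re) (a := 2) (c := 18) (by norm_num) (by norm_num)
    (by push_cast; linarith) (by push_cast; linarith)
  have hi : ∀ i, (i = j ∧ t ≠ 1) ∨ (i = j + 1 ∧ t ≠ 0) → 2 ≤ i ∧ i ≤ 18 := by
    intro i hi
    rcases hi with ⟨e, -⟩ | ⟨e, -⟩ <;> omega
  have key : ∀ n l u : ℕ, (n = 1150 ∧ l = 1075 ∧ u = 1150) ∨ (n = 850 ∧ l = 850 ∧ u = 925) →
      z.im = ht n → Ev sy sb zs y z b wy wb py pb < 2 * Real.pi * (3 / 20) := by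
    intro n l u hn hz
    obtain ⟨M, N, c1, c2, c3⟩ := H.v2 n l u hn
    have o1 : CxOK ⟨n, l, u, 5625⟩ := cx_ok (by omega) (by omega) (by omega) (by norm_num)
    have hc : C2 ⟨n, l, u, 5625⟩ ⟨n, l, u, 5625⟩ 0 z.im := by
      have l1 : ht l ≤ z.im := by
        rw [hz]
        exact ht_mono (by omega)
      have l2 : z.im ≤ ht u := by
        rw [hz]
        exact ht_mono (by omega)
      refine ⟨o1, o1, le_rfl, zero_le_one, ?_, l1, l2, l1, l2, ?_, ?_⟩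
      · rw [hz]
        ring
      · simp
      · simp
    have fin := h.two (h.sA fy iy) (h.tA fb ib) hc (by show u ≤ 2000; omega)
      (by show u ≤ 2000; omega) c1 c1 c2 c2 hx
      (fun i hi' => c3 i (by have := (hi i hi').2; omega) (hi i hi'))
      (fun i hi' => c3 i (by have := (hi i hi').2; omega) (hi i hi'))
    refine lt_of_le_of_lt fin ?_
    push_cast
    linarith
  rcases abs_cases z.im with ⟨e, -⟩ | ⟨e, -⟩
  · exact key 1150 1075 1150 (Or.inl ⟨rfl, rfl, rfl⟩) (by rw [ht_1150]; linarith)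
  · exact key 850 850 925 (Or.inr ⟨rfl, rfl, rfl⟩) (by rw [ht_850]; linarith)

/-- **From the columns to the node.** -/
theorem asm (h : Ah R Q oR oQ sy sb zs y0 z0 b0 C) (c : Cd n0 n1 d)
    (H : RW R Q oR oQ n0 n1 d o C) (a0 : ht n0 ≤ zs.im) (a1 : zs.im ≤ ht n1)
    (f : FFc o sy.ys zs sb.ys) : V4 zs sy sb := by
  have hc1 := c.h1
  have hc2 := c.h2
  refine ⟨?_, ?_, ?_⟩
  · intro y z b wy w wb py pb fy fb iy ib hL
    show Ev sy sb zs y z b wy wb py pb < w ∨ _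
    rcases hL with ⟨e, e1, e2, e3⟩ | ⟨e, e1, e2⟩ | ⟨e, e1, e2⟩ | ⟨e, e1, e2, e3⟩
    · by_cases hF : (py = .F ∨ py = .H) ∧ (pb = .F ∨ pb = .H)
      · rcases le_total |z.re| ((9 - (o : ℝ)) / 20) with g | g
        · rcases h.flat3 f hF.1 hF.2 iy ib e1 g with k | ⟨k1, k2, k3, k4, k5⟩
          · exact Or.inl (by rw [e]; exact k)
          · exact Or.inr ⟨k1, k2, k3, k4, k5, e⟩
        · exact Or.inl (by rw [e]; exact h.flat2 c H f.ho a0 a1 fy fb iy ib e1 e2 e3 g)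
      · rw [not_and_or] at hF
        exact Or.inl (by rw [e]; exact h.flat1 c H a0 a1 fy fb iy ib e1 e2 e3 hF)
    · exact Or.inl (by rw [e]; exact h.legs c H f.ho a0 a1 fy fb iy ib e1 e2)
    · exact Or.inl (by rw [e]; exact h.vert c H fy fb iy ib e1 e2)
    · exact Or.inl (by rw [e]; exact h.horz H fy fb iy ib e2 e3 e1)
  · intro y z b wy wb py pb fy fb iy ib z1 z2 z3 z4
    exact h.frcA H (by omega) (by omega) (by omega) (by omega) c.d3 (fy h.ey) fb iy ib z1 z2 z3 z4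
  · intro y z b wy wb py pb fy fb iy ib z1 z2 z3 z4
    exact h.frcB H (by omega) (by omega) (by omega) c.d3 fy (fb h.eb) iy ib z1 z2 z3 z4

end Node

end Pool.Agent.S5.Z4
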