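import Pool.Agent.S5.Z4.Reg

/-!
# Inner nodes with four half twists: the other angles, the kernel program

`2 i sin (2 π z) = exp (-2 π i b) - exp (-2 π i y)` and
`8 κ ^ 2 - 4 = exp (-2 π i y) + exp (-2 π i b) + 2 cos (2 π z)`.
-/

set_option autoImplicit false

namespace Pool.Agent.S5.Z4

/-- Bounds for `exp (2 π η) cos (2 π t)`, shifted by `16`, unit `2 ^ (-48)`. -/
def cl (E0 E1 D : ℕ) : ℕ := bif Nat.ble 16777216 D then Nat.add 4503599627370496 (Nat.mul E0 (Nat.sub D 16777216))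
  else Nat.sub 4503599627370496 (Nat.mul (Nat.add E1 6) (Nat.sub 16777216 D))
def cu (E0 E1 D : ℕ) : ℕ := bif Nat.ble 16777216 D then
    Nat.add 4503599627370496 (Nat.mul (Nat.add E1 6) (Nat.sub D 16777216))
  else Nat.sub 4503599627370496 (Nat.mul E0 (Nat.sub 16777216 D))
def rcl (y : Rc) : ℕ := cl (eT y.e0) (eT y.e1) (dT y.t1)
def rcu (y : Rc) : ℕ := cu (eT y.e0) (eT y.e1) (Nat.add (dT y.t0) 6)
/-- The smallest and the largest distance of a point of `[p, q]` to `c`. -/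
def dmi (c p q : ℕ) : ℕ := Nat.add (Nat.sub p c) (Nat.sub c q)
def dma (c p q : ℕ) : ℕ := bif Nat.ble (Nat.sub q c) (Nat.sub c p) then Nat.sub c p else Nat.sub q c
/-- Bounds for `exp (2 π η) sin (2 π t)`. -/
def rsl (y : Rc) : ℕ := Nat.mul (eT y.e0) (Nat.sub (dT (dma 250 y.t0 y.t1)) 16777216)
def rsu (y : Rc) : ℕ := Nat.mul (Nat.add (eT y.e1) 6) (Nat.sub (Nat.add (dT (dmi 250 y.t0 y.t1)) 6) 16777216)

/-- `sinh (2 π n / 1000)`. -/
def shL (n : ℕ) : ℕ := Nat.div (Nat.sub (eT (Nat.add 500 n)) (Nat.add (eT (Nat.sub 500 n)) 6)) 2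
def shU (n : ℕ) : ℕ := Nat.succ (Nat.div (Nat.sub (Nat.add (eT (Nat.add 500 n)) 6) (eT (Nat.sub 500 n))) 2)

/-- `2 U ≤ u`, `2 |V| ≤ v` imply `ν ≤ m / 1000`. -/
def nL (u v S2 : ℕ) : Bool :=
  Nat.ble (Nat.add (Nat.mul (sqn u) (Nat.add 281474976710656 S2)) (Nat.mul (sqn v) S2))
    (Nat.mul 1125899906842624 (Nat.mul S2 (Nat.add 281474976710656 S2)))
/-- `u ≤ - 2 U`, `v ≤ 2 |V|` imply `ν ≤ - m / 1000`. -/
def nG (u v S2 : ℕ) : Bool := Nat.ble 1 u &&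
  Nat.ble (Nat.mul 1125899906842624 (Nat.mul S2 (Nat.add 281474976710656 S2)))
    (Nat.add (Nat.mul (sqn u) (Nat.add 281474976710656 S2)) (Nat.mul (sqn v) S2))
/-- `ν ≤ (n - 500) / 1000`; `2 U ≤ p - q`. -/
def nU (p q vh vl n : ℕ) : Bool :=
  bif Nat.ble 500 n then Nat.ble p q || nL (Nat.sub p q) vh (sqn (shL (Nat.sub n 500)))
  else nG (Nat.sub q p) vl (sqn (shU (Nat.sub 500 n)))
/-- `X ≤ (n - 500) / 1000`; `2 V ≤ p - q`, `n0`, `n1` the smallest and the largest `|ν|`. -/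
def xU (p q n0 n1 n : ℕ) : Bool :=
  bif Nat.ble 500 n then Nat.ble p (Nat.add q (Nat.mul 2 (Nat.mul (Nat.sub (dT (Nat.sub 750 n)) 16777216) (chL n0))))
  else Nat.ble (Nat.add p (Nat.mul 2 (Nat.mul (Nat.sub (Nat.add (dT (Nat.sub n 250)) 6) 16777216) (chU n1)))) q

/-- The largest difference. -/
def mxd (a b c d : ℕ) : ℕ := bif Nat.ble (Nat.sub a b) (Nat.sub c d) then Nat.sub c d else Nat.sub a b

/-- `yc`, `yC`, `ys`, `yS` the bounds of `y`, `bc`, `bC`, `bs`, `bS` the bounds of `b`. -/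
def z3 (yc yC ys yS bc bC bs bS : ℕ) (z : Rc) : Bool :=
  nU yC bc (mxd yS bs bS ys) (Nat.add (Nat.sub ys bS) (Nat.sub bs yS)) z.e1 &&
  (nU bC yc (mxd yS bs bS ys) (Nat.add (Nat.sub ys bS) (Nat.sub bs yS)) (Nat.sub 1000 z.e0) &&
  (xU yS bs (dmi 500 z.e0 z.e1) (dma 500 z.e0 z.e1) z.t1 &&
   xU bS ys (dmi 500 z.e0 z.e1) (dma 500 z.e0 z.e1) (Nat.sub 1000 z.t0)))
/-- `0 < cos (2 π X)`. -/
def zc (k : Ce) (yC bC : ℕ) : Bool :=
  Nat.ble (Nat.add 1125899906842625 (Nat.add yC bC))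
    (Nat.add 9007199254740992 (Nat.mul 8 (Nat.mul (uT (Nat.sub 2000 k.a0)) (cosT (Nat.mul 2 k.f1)))))
def okZ (z : Rc) : Bool := Nat.ble 250 z.t0 && (Nat.ble z.t0 z.t1 && (Nat.ble z.t1 750 && (Nat.ble 300 z.e0 &&
  (Nat.ble z.e0 z.e1 && Nat.ble z.e1 700))))
def okY (y : Rc) : Bool := okR y && (Nat.ble y.t0 y.t1 && Nat.ble y.e0 y.e1)

/-- The rectangle of `zz4`: `k` the cell of `κ`, `y` and `b` the rectangles of the slots. -/
def regZ (k : Ce) (y b z : Rc) : Bool :=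
  okC k && (okY y && (okY b && (okZ z && (zc k (rcu y) (rcu b) &&
  z3 (rcl y) (rcu y) (rsl y) (rsu y) (rcl b) (rcu b) (rsl b) (rsu b) z))))

/-! ### The discard test -/

/-- Bounds for `2 sin (2 π (x - 500) / 1000) sinh (2 π (n - 500) / 1000)`, shifted by `16`. -/
def pp (w : Bool) (a b : ℕ) (g : Bool) : ℕ :=
  bif w then
    Nat.add 4503599627370496 (Nat.mul 2 (bif g then Nat.mul (Nat.sub (Nat.add (dT a) 6) 16777216) (shU b)
      else Nat.mul (Nat.sub (dT a) 16777216) (shL b)))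
  else Nat.sub 4503599627370496 (Nat.mul 2 (bif g then Nat.mul (Nat.sub (dT a) 16777216) (shL b)
      else Nat.mul (Nat.sub (Nat.add (dT a) 6) 16777216) (shU b)))
def ab5 (c x : ℕ) : ℕ := Nat.add (Nat.sub x c) (Nat.sub c x)
def pq (x n : ℕ) (g : Bool) : ℕ :=
  pp (bif Nat.ble 500 x then Nat.ble 500 n else Nat.ble n 500) (Nat.sub 250 (ab5 500 x)) (ab5 500 n) g
def ma (a b : ℕ) : ℕ := bif Nat.ble a b then b else a
def psU (z : Rc) : ℕ := ma (ma (pq z.t0 z.e0 true) (pq z.t0 z.e1 true)) (ma (pq z.t1 z.e0 true) (pq z.t1 z.e1 true))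
def psL (z : Rc) : ℕ := mi (mi (pq z.t0 z.e0 false) (pq z.t0 z.e1 false)) (mi (pq z.t1 z.e0 false) (pq z.t1 z.e1 false))
/-- Bounds for `2 cos (2 π X) cosh (2 π ν)`. -/
def pcU (z : Rc) : ℕ := Nat.mul 2 (Nat.mul (Nat.sub (Nat.add (dT (dmi 500 z.t0 z.t1)) 6) 16777216)
  (chU (dma 500 z.e0 z.e1)))
def pcL (z : Rc) : ℕ := Nat.mul 2 (Nat.mul (Nat.sub (dT (dma 500 z.t0 z.t1)) 16777216) (chL (dmi 500 z.e0 z.e1)))

/-- No point: `k` the cell of `κ`, `y` and `b` the rectangles of the slots, `z` the rectangle of `zz4`. -/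
def dis4 (k : Ce) (y b z : Rc) : Bool :=
  okC k && (okY y && (okY b && (okZ z && (
  (Nat.ble (Nat.add 9007199254740993 (Nat.mul 8 (Nat.mul (Nat.add (uT (Nat.sub 2000 k.a1)) 6)
      (Nat.add (cosT (Nat.mul 2 k.f0)) 6))))
    (Nat.add 1125899906842624 (Nat.add (Nat.add (rcl y) (rcl b)) (pcL z))) ||
   Nat.ble (Nat.add 1125899906842625 (Nat.add (Nat.add (rcu y) (rcu b)) (pcU z)))
    (Nat.add 9007199254740992 (Nat.mul 8 (Nat.mul (uT (Nat.sub 2000 k.a0)) (cosT (Nat.mul 2 k.f1)))))) ||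
  (Nat.ble (Nat.add 4503599627370497 (Nat.mul 8 (Nat.mul (Nat.add (uT (Nat.sub 2000 k.a1)) 6)
      (Nat.add (sinT (Nat.mul 2 k.f1)) 6))))
    (Nat.add (Nat.add (rsl y) (rsl b)) (psL z)) ||
   Nat.ble (Nat.succ (Nat.add (Nat.add (rsu y) (rsu b)) (psU z)))
    (Nat.add 4503599627370496 (Nat.mul 8 (Nat.mul (uT (Nat.sub 2000 k.a0)) (sinT (Nat.mul 2 k.f0))))))))))

/-! ### The logarithm of a slot -/

/-- Bounds for `|s| ^ 2 = (u + v) ^ 2 - 4 u v sin ^ 2 (δ / 2)`, unit `2 ^ (-48)`. -/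
def r2L (u v s : ℕ) : ℕ := Nat.sub (sqn (Nat.add u v))
  (Nat.succ (Nat.div (Nat.mul (Nat.mul 4 (Nat.mul u v)) (sqn s)) 281474976710656))
def r2U (u v s : ℕ) : ℕ := Nat.sub (sqn (Nat.add u v))
  (Nat.div (Nat.mul (Nat.mul 4 (Nat.mul u v)) (sqn s)) 281474976710656)
/-- The condition for the monotonicity in `u` and `v`. -/
def mon (u v s : ℕ) : Bool := Nat.ble (Nat.mul (Nat.mul 2 v) (sqn s)) (Nat.mul 281474976710656 (Nat.add u v))

/-- `arg s ≤ 2 n / 1000`. -/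
def hx (C Ch Sn : ℕ) (S : Bool) (p q : Pv) : Bool :=
  bif S then Nat.ble (Nat.mul Ch (Nat.add (Nat.add p.y q.y) 128)) (Nat.mul Sn (Nat.add p.x q.x))
  else Nat.ble (Nat.mul Ch (Nat.add p.y 64)) (Nat.add (Nat.mul Sn (Nat.add p.x q.x)) (Nat.mul C q.y))
def aU' (S : Bool) (a b : Se) (C Sn : ℕ) : Bool :=
  bif S then (hx C (Nat.add C 6) Sn true a.i1 b.i1 && hx C (Nat.add C 6) Sn true a.i1 b.o1) &&
    (hx C (Nat.add C 6) Sn true a.o1 b.i1 && hx C (Nat.add C 6) Sn true a.o1 b.o1)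
  else (hx C (Nat.add C 6) Sn false a.i1 b.i0 && hx C (Nat.add C 6) Sn false a.i1 b.i1) &&
    (hx C (Nat.add C 6) Sn false a.o1 b.i0 && hx C (Nat.add C 6) Sn false a.o1 b.i1)
def aU (S : Bool) (a b : Se) (n : ℕ) : Bool := Nat.ble n 785 &&
  aU' S a b (cosT (Nat.mul 2 n)) (sinT (Nat.mul 2 n))
/-- `2 n / 1000 ≤ arg s`. -/
def hy (C Sh : ℕ) (S : Bool) (p q : Pv) : Bool :=
  bif S then Nat.ble (Nat.mul Sh (Nat.add (Nat.add p.x q.x) 128)) (Nat.mul C (Nat.add p.y q.y))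
  else Nat.ble (Nat.add (Nat.mul Sh (Nat.add (Nat.add p.x q.x) 128)) (Nat.mul (Nat.add C 6) (Nat.add q.y 64)))
    (Nat.mul C p.y)
def aL' (S : Bool) (a b : Se) (C Sh : ℕ) : Bool :=
  bif S then (hy C Sh true a.i0 b.i0 && hy C Sh true a.i0 b.o0) &&
    (hy C Sh true a.o0 b.i0 && hy C Sh true a.o0 b.o0)
  else (hy C Sh false a.i0 b.o0 && (hy C Sh false a.i0 b.o1 && hy C Sh false a.i0 b.v)) &&
    (hy C Sh false a.o0 b.o0 && (hy C Sh false a.o0 b.o1 && hy C Sh false a.o0 b.v))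
def aL (S : Bool) (a b : Se) (n : ℕ) : Bool := Nat.ble n 785 &&
  aL' S a b (cosT (Nat.mul 2 n)) (Nat.add (sinT (Nat.mul 2 n)) 6)

/-- `(e - 1000) / 1000 ≤ Im H`. -/
def gL (S : Bool) (a b : Se) (e : ℕ) : Bool :=
  bif Nat.ble e 1000 then aU S a b (Nat.sub 1000 e) else !S && aL false b a (Nat.sub e 1000)
/-- `Im H ≤ (e - 1000) / 1000`. -/
def gU (S : Bool) (a b : Se) (e : ℕ) : Bool :=
  bif Nat.ble 1000 e then S || aU false b a (Nat.sub e 1000) else aL S a b (Nat.sub 1000 e)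

/-- Half the largest and half the smallest difference of the angles. -/
def dfU (S : Bool) (k b : Ce) : ℕ := bif S then ma (Nat.sub k.f1 b.f0) (Nat.sub b.f1 k.f0) else Nat.add k.f1 b.f1
def dfL (S : Bool) (k b : Ce) : ℕ := bif S then Nat.add (Nat.sub k.f0 b.f1) (Nat.sub b.f0 k.f1) else Nat.add k.f0 b.f0

def rH2 (u1 u0 v1 v0 s1 s0 : ℕ) (h : Rc) : Bool :=
  mon u1 (Nat.add v0 6) (Nat.add s1 6) && (mon v1 (Nat.add u0 6) (Nat.add s1 6) &&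
  (Nat.ble (Nat.mul 16 (sqn (Nat.add (uT (Nat.add h.t1 500)) 6))) (r2L u1 v1 (Nat.add s1 6)) &&
   Nat.ble (r2U (Nat.add u0 6) (Nat.add v0 6) s0) (Nat.mul 16 (sqn (uT (Nat.add h.t0 500))))))
/-- The rectangle of `H`; the real part is shifted by `1 / 2`, the imaginary part by `1`. -/
def regH (S : Bool) (k b : Ce) (h : Rc) : Bool :=
  okC k && (okC b && (Nat.ble 100 h.t0 && (Nat.ble h.t0 1050 && (Nat.ble 100 h.t1 && (Nat.ble h.t1 1050 &&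
  (rH2 (uT k.a1) (uT k.a0) (uT b.a1) (uT b.a0) (sinT (dfU S k b)) (sinT (dfL S k b)) h &&
  (gL S (sec k) (sec b) h.e0 && gU S (sec k) (sec b) h.e1)))))))

/-! ### Regions -/

def ofR (r : E.B2.Rg) (c : Ce) : Bool :=
  okC c && (Nat.ble 1 r.k0 && (
  Nat.ble (Nat.mul (Nat.add (uT (Nat.sub 2000 c.a0)) 6) 1000000) (Nat.mul (sqn r.k0) 16777216) &&
  (Nat.ble (Nat.mul (sqn r.k1) 16777216) (Nat.mul (uT (Nat.sub 2000 c.a1)) 1000000) &&
  ((Nat.beq c.f0 0 || Nat.ble (Nat.mul 1000 (Nat.add (sinT c.f0) 6)) (Nat.mul r.t0 (cosT c.f0))) &&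
   Nat.ble (Nat.mul r.t1 (Nat.add (cosT c.f1) 6)) (Nat.mul 1000 (sinT c.f1))))))

end Pool.Agent.S5.Z4
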