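import Pool.Agent.S5.Z4.Eg
import Pool.Agent.S5.Z4.RegP

/-!
# The engine: the leaves

`k` is the cell of the node, `y`, `b` the rectangles of the slots, `z` the rectangle of the variable of
the node.
-/

set_option autoImplicit false

noncomputable section

namespace Pool.Agent.S5.Z4

open Pool.Agent.S5.Num (fN)
open Pool.Agent.S5.Tb (ent6 qE tE)

/-! ### The base point -/

/-- The angle of the table. -/
def tgl (i j : Nat) : Int := Int.ofNat (tE (ent6 i j))

/-- The value of the table, unit `1 / 25000000`, at least `- 763` off. -/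
def qg (i j : Nat) : Nat := Nat.div (Nat.mul 25000000 (qE (ent6 i j))) 1048576

/-- The angle with the sign of `a - b`. -/
def sgt (i a b : Nat) : Int :=
  cond (Nat.ble b a) (tgl i (Nat.sub a b)) (Int.neg (tgl i (Nat.sub b a)))

/-- Division with rounding. -/
def rdv (X : Int) : Int := Int.ediv (Int.add X 524288) 1048576

/-- The slope at the base point in the slot, times `5000 * 2 ^ 20`; `t / 200`, `(h - 100) / 200` the
point of the slot, `(x - 100) / 200`, `(n - 100) / 200` the point of the node. -/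
def Dx (t h x n : Nat) : Int :=
  Int.sub (Int.mul 5000 (Int.sub (Int.mul (-2) (sgt (Nat.sub 100 t) h 100))
    (sgt (Nat.sub (Nat.add t 100) x) h n)))
    (Int.mul 82354966 (Int.sub (Int.ofNat (Nat.add t x)) 200))

/-- The slope at the base point in the variable of the node. -/
def Gx (t h b g x n : Nat) : Int :=
  Int.sub (Int.mul 5000 (Int.sub (sgt (Nat.sub (Nat.add t 100) x) h n)
    (sgt (Nat.sub (Nat.add b x) 100) (Nat.add g n) 200)))
    (Int.mul 82354966 (Int.sub (Int.ofNat (Nat.add t (Nat.mul 2 x))) (Int.ofNat (Nat.add b 200))))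

/-- A lower bound of the potential at the base point. -/
def Px (t h x n : Nat) : Int :=
  Int.sub (Int.add (Int.ofNat (Nat.add (qg (Nat.sub (Nat.add t 100) x) (dst h n))
      (Nat.mul 2 (qg (Nat.sub 100 t) (dst h 100)))))
    (Int.ediv (Int.mul (Int.mul 3927 (Int.sub (Int.ofNat (Nat.add t x)) 100))
      (Int.sub (Int.ofNat (Nat.add h n)) 200)) 2))
    (Int.add (Int.mul 196350 (Int.sub (Int.ofNat h) (Int.ofNat n))) 2389)

/-! ### The parameters of the slots -/

/-- The type of the other vertex. -/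
structure Kd where
  kd : Nat
  S : Bool
  re : Bool
  rz : Bool

/-- The middle. -/
def md (a b : Nat) : Nat := Nat.div (Nat.add (Nat.add a b) 5) 10

/-- The upper bound of the potential of the edge at the base point, with the error. -/
def fbx (y : Rc) (t h : Nat) : Int :=
  Int.ofNat (Nat.add (Nat.add (qg (Nat.sub 100 t) (dst h 100)) 764)
    (Nat.mul 84 (Nat.add (mxn (sq y.t0 (Nat.mul 5 t)) (sq y.t1 (Nat.mul 5 t)))
      (mxn (sq y.e0 (Nat.mul 5 h)) (sq y.e1 (Nat.mul 5 h))))))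

/-- The parameters: `k` the cell of the node, `c` the cell of the other vertex, `y` the rectangle of the
slot, `H` the rectangle of the logarithm, `D` the slope at the base point. -/
def mkS (K : Kd) (k c : Ce) (y H : Rc) (D : Int) : Sp where
  kd := K.kd
  S := K.S
  re := K.re
  rz := K.rz
  L0 := Nat.sub (Nat.add 5000 (Nat.mul 2 c.a0)) (Nat.mul 2 k.a1)
  L1 := Nat.sub (Nat.add 5000 (Nat.mul 2 c.a1)) (Nat.mul 2 k.a0)
  T0 := Nat.sub (Nat.sub (Nat.add 5500 (Nat.mul 2 c.a0)) (Nat.mul 2 k.a1)) H.t1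
  T1 := Nat.sub (Nat.sub (Nat.add 5500 (Nat.mul 2 c.a1)) (Nat.mul 2 k.a0)) H.t0
  M0 := cond K.S (Int.sub (Int.ofNat (Nat.mul 2 k.f0)) (Int.ofNat (Nat.mul 2 c.f1)))
    (Int.ofNat (Nat.mul 2 (Nat.add k.f0 c.f0)))
  M1 := cond K.S (Int.sub (Int.ofNat (Nat.mul 2 k.f1)) (Int.ofNat (Nat.mul 2 c.f0)))
    (Int.ofNat (Nat.mul 2 (Nat.add k.f1 c.f1)))
  e0 := Nat.add y.e0 500
  e1 := Nat.add y.e1 500
  t0 := md y.t0 y.t1
  h0 := Nat.add (Nat.mul 5 (md y.e0 y.e1)) 500
  D := D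
  i0 := Int.sub (Int.ofNat H.e0) 1000
  i1 := Int.sub (Int.ofNat H.e1) 1000
  fub := fbx y (md y.t0 y.t1) (md y.e0 y.e1)

/-! ### The pairs of columns -/

/-- A lane. -/
def lan (u j : Nat) : Nat := Nat.land (Nat.shiftRight u (Nat.mul 40 j)) 1099511627775

/-- The columns `j, ..., j + n - 1`. -/
def ck (u v c j n : Nat) : Bool :=
  Nat.rec true (fun m ih => (Nat.ble (Nat.succ (Nat.add (lan u (Nat.add j m))
    (lan v (Nat.sub 20 (Nat.add j m))))) c) && ih) n

/-- A flat of the node at the height `n`: `c` the bound, `o` the number of outer columns. -/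
def flt (R Q : List Rw) (n lo hi d c o : Nat) : Bool :=
  ctx2 R ⟨n, lo, hi, d⟩ fun a b =>
    ctx2 Q ⟨Nat.sub 2000 n, Nat.sub 2000 hi, Nat.sub 2000 lo, d⟩ fun u v =>
      (ck b u c 2 17 && ck a v c 2 17) && (ck a u c 2 o && ck a u c (Nat.sub 19 o) o)

/-- The other heights. -/
def oth (R Q : List Rw) (n lo hi d : Nat) (k : Nat → Nat → Bool) : Bool :=
  ctx1 R ⟨n, lo, hi, d⟩ fun a =>
    ctx1 Q ⟨Nat.sub 2000 n, Nat.sub 2000 hi, Nat.sub 2000 lo, d⟩ fun u => k a u

/-- The own row. -/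
def own (o : Nat) (k : Nat → Bool) : Bool :=
  wrow ⟨o, 1000, 1000, 1000, 0, false⟩ ⟨1000, 1000, 1000, 0⟩ fun W =>
    fN k (cmx H336 (Nat.land W MW))

/-- All rows. -/
def rows (R Q : List Rw) (oR oQ : Nat) (n0 n1 lo hi d c w1 w2 o : Nat) : Bool :=
  (flt R Q n0 lo hi d c o && flt R Q n1 lo hi d c o) &&
  ((oth R Q 1150 1075 1150 5625 (fun a u => ck a u w2 2 17) &&
    oth R Q 850 850 925 5625 (fun a u => ck a u w2 2 17)) &&
  ((oth R Q 1075 1000 1150 5625 (fun a u => ck a u w1 2 1 && ck a u w1 18 1) &&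
    oth R Q 925 850 1000 5625 (fun a u => ck a u w1 2 1 && ck a u w1 18 1)) &&
  oth R Q 1000 (mnn lo 925) (mxn hi 1075) (mxn d 5625) (fun a u =>
    (ck a u c 2 1 && ck a u c 18 1) &&
    own oR fun s => own oQ fun t => ck s u c 18 3 && ck a t c 0 3)))

/-- The number of outer columns (`0`: not possible). -/
def ffm (y b z : Rc) : Nat :=
  cond (Nat.ble 215 y.t0 && Nat.ble 215 b.t0 && Nat.ble y.t1 360 && Nat.ble b.t1 360 &&
      Nat.ble 370 y.e0 && Nat.ble y.e1 630 && Nat.ble 370 b.e0 && Nat.ble b.e1 630)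
    (cond (Nat.ble (Nat.add (Nat.mul 3 y.t1) 1000) (Nat.add 1120 (Nat.mul 2 z.t0)) &&
        Nat.ble (Nat.add (Nat.mul 3 b.t1) (Nat.mul 2 z.t1)) 2120 &&
        Nat.ble (Nat.add 350 (Nat.mul 2 z.t1)) (Nat.add 1000 (Nat.mul 2 y.t0)) &&
        Nat.ble 1350 (Nat.add (Nat.mul 2 b.t0) (Nat.mul 2 z.t0))) 2
      (cond (Nat.ble (Nat.add (Nat.mul 3 y.t1) 1000) (Nat.add 1170 (Nat.mul 2 z.t0)) &&
        Nat.ble (Nat.add (Nat.mul 3 b.t1) (Nat.mul 2 z.t1)) 2170 &&
        Nat.ble (Nat.add 300 (Nat.mul 2 z.t1)) (Nat.add 1000 (Nat.mul 2 y.t0)) &&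
        Nat.ble 1300 (Nat.add (Nat.mul 2 b.t0) (Nat.mul 2 z.t0))) 3 0)) 0

/-- The conditions for a slot. -/
def slk (K : Kd) (y : Rc) : Bool :=
  (Nat.beq K.kd 0 || Nat.ble (md y.t0 y.t1) 72) &&
    (cond (Nat.beq K.kd 1) (Nat.ble 501 y.e0 || Nat.ble y.e1 499) true &&
      (Nat.ble 1 (md y.t0 y.t1) && Nat.ble (md y.t0 y.t1) 99))

/-- The geometry. -/
def geo (y b z : Rc) : Bool :=
  (Nat.ble (Nat.succ z.t1) (Nat.add y.t0 500) && Nat.ble y.t1 z.t0) &&
    (Nat.ble 501 (Nat.add b.t0 z.t0) && Nat.ble (Nat.add b.t1 z.t1) 1000)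

/-- The test of the slopes at the base point. -/
def nrk (X D : Int) : Bool := Nat.ble (Int.natAbs (Int.sub X (Int.mul 1048576 D))) 524288

/-- The maximum of the linear term. -/
def gzx (G : Int) (z : Rc) (n : Nat) : Int :=
  Int.add (imx (Int.mul (Int.mul 5 G) (Int.sub (Int.ofNat z.e0) (Int.ofNat (Nat.mul 5 n))))
      (Int.mul (Int.mul 5 G) (Int.sub (Int.ofNat z.e1) (Int.ofNat (Nat.mul 5 n)))))
    (Int.ofNat (Nat.mul 4 (mxn (dst z.e0 (Nat.mul 5 n)) (dst z.e1 (Nat.mul 5 n)))))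

/-- The leaf, with the base point. -/
def lf2 (A B : Kd) (k cL cR : Ce) (y b z hy hb : Rc) (o t h g s x n : Nat) (DA DB G C : Int) :
    Bool :=
  (nrk (Dx t h x n) DA && (nrk (Dx g s (Nat.sub 200 x) (Nat.sub 200 n)) DB &&
    nrk (Gx t h g s x n) G)) &&
  (spk (mkS A k cL y hy DA) && (spk (mkS B k cR b hb DB) &&
  srow (mkS A k cL y hy DA) (Nat.ble 500 y.e0) fun R oR =>
    srow (mkS B k cR b hb DB) (Nat.ble 500 b.e0) fun Q oQ =>
      fN (fun c => fN (fun w1 => fN (fun w2 => fN (fun lo => fN (fun hi => fN (fun d =>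
        rows R Q oR oQ (Nat.add z.e0 500) (Nat.add z.e1 500) lo hi d c w1 w2 o)
        (mxn (sq z.e0 z.e1) (mxn (sq z.e0 500) (sq z.e1 500))))
        (mxn (Nat.add z.e1 500) 1000)) (mnn (Nat.add z.e0 500) 1000))
        (Int.toNat (Int.sub 19400913952 C))) (Int.toNat (Int.sub 19389133402 C)))
        (Int.toNat (Int.sub 19377352832 C))))

/-- The leaf. -/
def lf (A B : Kd) (k cL cR : Ce) (y b z hy hb : Rc) : Bool :=
  (Nat.ble 1 (ffm y b z) && (slk A y && (slk B b && (geo y b z && (Nat.ble z.e0 z.e1 &&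
    (Nat.ble 350 z.e0 && Nat.ble z.e1 650)))))) &&
  fN (fun t => fN (fun h => fN (fun g => fN (fun s => fN (fun x => fN (fun n =>
    (Nat.ble (Nat.succ x) (Nat.add t 100) && Nat.ble t x) &&
    ((Nat.ble 101 (Nat.add g x) && Nat.ble (Nat.add g x) 200) &&
    lf2 A B k cL cR y b z hy hb (ffm y b z) t h g s x n (rdv (Dx t h x n))
      (rdv (Dx g s (Nat.sub 200 x) (Nat.sub 200 n))) (rdv (Gx t h g s x n))
      (Int.sub (gzx (rdv (Gx t h g s x n)) z n)
        (Int.add (Px t h x n) (Px g s (Nat.sub 200 x) (Nat.sub 200 n))))))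
    (md z.e0 z.e1)) (md z.t0 z.t1)) (md b.e0 b.e1)) (md b.t0 b.t1)) (md y.e0 y.e1)) (md y.t0 y.t1)

end Pool.Agent.S5.Z4

end
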