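import Pool.Agent.S5.Z4.RegP

/-!
# Inner nodes with four half twists: cells and rectangles
-/

set_option autoImplicit false

namespace Pool.Agent.S5.Z4

/-- The cosine of a vertex is in the cell. -/
def InC (c : Ce) (w : ℂ) : Prop :=
  ((c.a0 : ℝ) / 1000 - 1 ≤ Real.log ‖w‖ ∧ Real.log ‖w‖ ≤ (c.a1 : ℝ) / 1000 - 1) ∧
  ((c.f0 : ℝ) / 1000 ≤ -w.arg ∧ -w.arg ≤ (c.f1 : ℝ) / 1000)

/-- The angle of a slot is in the rectangle. -/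
def InY (r : Rc) (y : ℂ) : Prop :=
  ((r.t0 : ℝ) / 1000 ≤ y.re ∧ y.re ≤ (r.t1 : ℝ) / 1000) ∧
  (((r.e0 : ℝ) - 500) / 1000 ≤ y.im ∧ y.im ≤ ((r.e1 : ℝ) - 500) / 1000)

/-- The middle angle is in the rectangle. -/
def InZ (r : Rc) (z : ℂ) : Prop :=
  (((r.t0 : ℝ) - 500) / 1000 ≤ z.re ∧ z.re ≤ ((r.t1 : ℝ) - 500) / 1000) ∧
  (((r.e0 : ℝ) - 500) / 1000 ≤ z.im ∧ z.im ≤ ((r.e1 : ℝ) - 500) / 1000)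

/-- The logarithm of a slot is in the rectangle. -/
def InH (r : Rc) (h : ℂ) : Prop :=
  (((r.t0 : ℝ) - 500) / 1000 ≤ h.re ∧ h.re ≤ ((r.t1 : ℝ) - 500) / 1000) ∧
  (((r.e0 : ℝ) - 1000) / 1000 ≤ h.im ∧ h.im ≤ ((r.e1 : ℝ) - 1000) / 1000)

theorem InC.splitA {c : Ce} {w : ℂ} (h : InC c w) (m : ℕ) :
    InC ⟨c.a0, m, c.f0, c.f1⟩ w ∨ InC ⟨m, c.a1, c.f0, c.f1⟩ w := by
  obtain ⟨⟨h1, h2⟩, h3⟩ := h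
  rcases le_total (Real.log ‖w‖) ((m : ℝ) / 1000 - 1) with h | h
  · exact Or.inl ⟨⟨h1, h⟩, h3⟩
  · exact Or.inr ⟨⟨h, h2⟩, h3⟩

theorem InC.splitF {c : Ce} {w : ℂ} (h : InC c w) (m : ℕ) :
    InC ⟨c.a0, c.a1, c.f0, m⟩ w ∨ InC ⟨c.a0, c.a1, m, c.f1⟩ w := by
  obtain ⟨h0, ⟨h1, h2⟩⟩ := h
  rcases le_total (-w.arg) ((m : ℝ) / 1000) with h | h
  · exact Or.inl ⟨h0, ⟨h1, h⟩⟩
  · exact Or.inr ⟨h0, ⟨h, h2⟩⟩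

end Pool.Agent.S5.Z4
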