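import Pool.Agent.S5.I.TdL

/-!
# Chords of `-Rf`

Upper bounds of `-Rf` on horizontal and on vertical segments by its values at the ends.
-/

set_option autoImplicit false

namespace Pool.Agent.S5.Z4

open Pool.Agent.H63.VC3 Pool.Agent.S3 Complex MeasureTheory Filter Topology Set

/-- The function `-Rf` in real coordinates. -/
noncomputable def fR (x s : ℝ) : ℝ := -Rf ((x : ℂ) + s * I)

theorem fR_neg (x s : ℝ) : fR x (-s) = fR x s := by
  unfold fR
  have := Rf_conj ((x : ℂ) + s * I)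
  rw [map_add, map_mul, conj_ofReal, conj_ofReal, conj_I] at this
  rw [← this]
  congr 2
  push_cast
  ring

theorem fR_abs (x s : ℝ) : fR x |s| = fR x s := by
  rcases abs_choice s with h | h
  · rw [h]
  · rw [h, fR_neg]

theorem fR_add_one (x s : ℝ) : fR (x + 1) s = fR x s - Real.pi * |s| := by
  unfold fR
  have h := Rf_add_one ((x : ℂ) + s * I)
  have e : ((x + 1 : ℝ) : ℂ) + s * I = ((x : ℂ) + s * I) + 1 := by
    push_cast
    ring
  have e2 : ((x : ℂ) + s * I).im = s := by simp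
  rw [e, h, e2]
  ring

theorem fR_one_sub (x s : ℝ) : fR (1 - x) s = -fR x s := by
  rw [← fR_neg (1 - x) s]
  unfold fR
  have h := Rf_one_sub ((x : ℂ) + s * I)
  have e : ((1 - x : ℝ) : ℂ) + ((-s : ℝ) : ℂ) * I = 1 - ((x : ℂ) + s * I) := by
    push_cast
    ring
  rw [e, h]

theorem fR_cont_x (s : ℝ) : Continuous (fun x => fR x s) := by
  unfold fR
  exact (Rf_continuous.comp (by fun_prop)).neg

theorem fR_deriv_x {x s : ℝ} (h : s ≠ 0 ∨ (x ≠ 0 ∧ |x| < 1)) :
    HasDerivAt (fun x => fR x s) (-Lg s x) x := by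
  unfold fR
  refine (Rf_hasDerivAt (t := x) (η := s) ?_).neg
  intro h0
  have h1 := norm_two_sin_sq s x
  rw [h0, mul_zero, norm_zero] at h1
  have h2 := dn_pos h
  nlinarith

/-! ### Abstract chords -/

theorem chord_of_convex {f : ℝ → ℝ} {a b K : ℝ} (hab : a ≤ b)
    (h : ConvexOn ℝ (Icc a b) (fun x => f x + K / 2 * x ^ 2)) {τ : ℝ} (h0 : 0 ≤ τ) (h1 : τ ≤ 1) :
    f ((1 - τ) * a + τ * b) ≤ (1 - τ) * f a + τ * f b + K / 2 * (τ * (1 - τ)) * (b - a) ^ 2 := by
  have h2 := h.2 (show a ∈ Icc a b from ⟨le_rfl, hab⟩) (show b ∈ Icc a b from ⟨hab, le_rfl⟩)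
    (show 0 ≤ 1 - τ by linarith) h0 (by ring)
  simp only [smul_eq_mul] at h2
  have e : (1 - τ) * a ^ 2 + τ * b ^ 2 - ((1 - τ) * a + τ * b) ^ 2 = τ * (1 - τ) * (b - a) ^ 2 := by
    ring
  nlinarith [h2, e]

theorem mul_one_sub_le {τ : ℝ} : τ * (1 - τ) ≤ 1 / 4 := by
  nlinarith [sq_nonneg (2 * τ - 1)]

theorem chord_le {f : ℝ → ℝ} {a b K : ℝ} (hab : a ≤ b) (hK : 0 ≤ K)
    (h : ConvexOn ℝ (Icc a b) (fun x => f x + K / 2 * x ^ 2)) {τ : ℝ} (h0 : 0 ≤ τ) (h1 : τ ≤ 1) :
    f ((1 - τ) * a + τ * b) ≤ (1 - τ) * f a + τ * f b + K * (b - a) ^ 2 / 8 := by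
  have h2 := chord_of_convex hab h h0 h1
  have h3 : τ * (1 - τ) ≤ 1 / 4 := mul_one_sub_le
  have h4 : K / 2 * (τ * (1 - τ)) * (b - a) ^ 2 ≤ K / 2 * (1 / 4) * (b - a) ^ 2 := by
    gcongr
  linarith

/-- Convexity from the derivative. -/
theorem convex_of_deriv {f f' : ℝ → ℝ} {a b : ℝ} (hc : ContinuousOn f (Icc a b))
    (hd : ∀ x ∈ Ioo a b, HasDerivAt f (f' x) x) (hm : MonotoneOn f' (Ioo a b)) :
    ConvexOn ℝ (Icc a b) f := by
  refine MonotoneOn.convexOn_of_deriv (convex_Icc a b) hc ?_ ?_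
  · rw [interior_Icc]
    intro x hx
    exact (hd x hx).differentiableAt.differentiableWithinAt
  · rw [interior_Icc]
    intro x hx y hy hxy
    rw [(hd x hx).deriv, (hd y hy).deriv]
    exact hm hx hy hxy

/-! ### Horizontal chords -/

theorem fR_convex_x {s a b K : ℝ} (hs : s ≠ 0 ∨ (0 ≤ a ∧ b ≤ 1))
    (hK : ∀ x ∈ Ioo a b, Lgd s x ≤ K) :
    ConvexOn ℝ (Icc a b) (fun x => fR x s + K / 2 * x ^ 2) := by
  have hh : ∀ x ∈ Ioo a b, s ≠ 0 ∨ (x ≠ 0 ∧ |x| < 1) := by
    intro x hx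
    rcases hs with h | h
    · exact Or.inl h
    · right
      have h1 : 0 < x := lt_of_le_of_lt h.1 hx.1
      exact ⟨h1.ne', by rw [abs_of_pos h1]; linarith [hx.2, h.2]⟩
  refine convex_of_deriv (f' := fun x => -Lg s x + K * x) ?_ ?_ ?_
  · exact ((fR_cont_x s).add (by fun_prop)).continuousOn
  · intro x hx
    have h2 : HasDerivAt (fun x : ℝ => K / 2 * x ^ 2) (K * x) x := by
      have := ((hasDerivAt_id x).pow 2).const_mul (K / 2)
      refine this.congr_deriv ?_
      simp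
      ring
    exact (fR_deriv_x (hh x hx)).add h2
  · have h3 : ∀ x ∈ Ioo a b, HasDerivAt (fun x => -Lg s x + K * x) (-Lgd s x + K) x := by
      intro x hx
      have h4 : HasDerivAt (fun x : ℝ => K * x) K x := by
        simpa using (hasDerivAt_id x).const_mul K
      exact ((Lg_hasDerivAt (hh x hx)).neg).add h4
    refine monotoneOn_of_deriv_nonneg (convex_Ioo a b) ?_ ?_ ?_
    · intro x hx
      exact (h3 x hx).continuousAt.continuousWithinAt
    · rw [interior_Ioo]
      intro x hx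
      exact (h3 x hx).differentiableAt.differentiableWithinAt
    · rw [interior_Ioo]
      intro x hx
      rw [(h3 x hx).deriv]
      linarith [hK x hx]

/-- `sin y / (cosh z - cos y) ≤ 1 / sinh z`. -/
theorem Lgd_le_sinh {s x : ℝ} (hs : 0 < s) : Lgd s x ≤ Real.pi / Real.sinh (2 * Real.pi * s) := by
  have hpi := Real.pi_pos
  have h1 : 0 < Real.sinh (2 * Real.pi * s) := Real.sinh_pos_iff.2 (by positivity)
  have h2 := dn_pos (s := s) (x := x) (Or.inl hs.ne')
  unfold Lgd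
  rw [div_le_div_iff₀ h2 h1]
  have h3 : Real.sin (2 * Real.pi * x) * Real.sinh (2 * Real.pi * s) ≤ dn s x := by
    unfold dn
    have c1 := Real.cosh_sq (2 * Real.pi * s)
    have c2 := Real.sin_sq_add_cos_sq (2 * Real.pi * x)
    have c3 := Real.cosh_pos (2 * Real.pi * s)
    set C := Real.cosh (2 * Real.pi * s)
    set S := Real.sinh (2 * Real.pi * s)
    set c := Real.cos (2 * Real.pi * x)
    set d := Real.sin (2 * Real.pi * x)
    have h4 : (d * S + c) ^ 2 ≤ C ^ 2 := by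
      nlinarith [sq_nonneg (c * S - d)]
    have := abs_le_of_sq_le_sq' h4 c3.le
    linarith [this.2]
  calc Real.pi * Real.sin (2 * Real.pi * x) * Real.sinh (2 * Real.pi * s)
      = Real.pi * (Real.sin (2 * Real.pi * x) * Real.sinh (2 * Real.pi * s)) := by ring
    _ ≤ Real.pi * dn s x := mul_le_mul_of_nonneg_left h3 hpi.le

theorem cosh_ge (y : ℝ) : 1 + y ^ 2 / 2 ≤ Real.cosh y := by
  have h1 : Real.cosh y = 1 + 2 * Real.sinh (y / 2) ^ 2 := by
    have h2 := Real.cosh_two_mul (y / 2)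
    rw [show 2 * (y / 2) = y by ring] at h2
    have h3 := Real.cosh_sq (y / 2)
    linarith
  have h4 : |y / 2| ≤ |Real.sinh (y / 2)| := by
    rcases le_total 0 (y / 2) with h | h
    · rw [abs_of_nonneg h, abs_of_nonneg (Real.sinh_nonneg_iff.2 h)]
      exact Real.self_le_sinh_iff.2 h
    · rw [abs_of_nonpos h, abs_of_nonpos (Real.sinh_nonpos_iff.2 h)]
      linarith [Real.sinh_le_self_iff.2 h]
  have h5 := sq_le_sq' (by linarith [neg_abs_le (Real.sinh (y / 2)), abs_nonneg (y / 2)]) h4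
  have h6 := sq_abs (y / 2)
  have h7 := sq_abs (Real.sinh (y / 2))
  nlinarith

theorem sinh_ge {y : ℝ} (h : 0 ≤ y) : y + y ^ 3 / 6 ≤ Real.sinh y := by
  have hd : ∀ y : ℝ, HasDerivAt (fun y => Real.sinh y - (y + y ^ 3 / 6))
      (Real.cosh y - (1 + y ^ 2 / 2)) y := by
    intro y
    have h1 : HasDerivAt (fun y : ℝ => y + y ^ 3 / 6) (1 + y ^ 2 / 2) y := by
      have h2 := ((hasDerivAt_id y).pow 3).div_const 6
      have h3 := (hasDerivAt_id y).add h2
      refine h3.congr_deriv ?_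
      simp
      ring
    exact (Real.hasDerivAt_sinh y).sub h1
  have hm : MonotoneOn (fun y => Real.sinh y - (y + y ^ 3 / 6)) (Ici 0) := by
    refine monotoneOn_of_deriv_nonneg (convex_Ici 0) ?_ ?_ ?_
    · exact fun y _ => (hd y).continuousAt.continuousWithinAt
    · exact fun y _ => (hd y).differentiableAt.differentiableWithinAt
    · intro y _
      rw [(hd y).deriv]
      have := cosh_ge y
      linarith
  have := hm (mem_Ici.2 le_rfl) (mem_Ici.2 h) h
  simp at this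
  linarith

/-- The curvature away from the real line. -/
theorem Lgd_le_rat {s x : ℝ} (hs : 0 < s) : Lgd s x ≤ 1 / (2 * s * (1 + 657 / 100 * s ^ 2)) := by
  have hpi := Real.pi_pos
  have hp2 : (314 / 100 : ℝ) < Real.pi := by linarith [Real.pi_gt_d2]
  refine (Lgd_le_sinh hs).trans ?_
  have h1 : 0 < Real.sinh (2 * Real.pi * s) := Real.sinh_pos_iff.2 (by positivity)
  rw [div_le_div_iff₀ h1 (by positivity), one_mul]
  refine le_trans ?_ (sinh_ge (y := 2 * Real.pi * s) (by positivity))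
  have h3 : 657 / 100 * s ^ 2 * (2 * Real.pi * s) ≤ (2 * Real.pi * s) ^ 3 / 6 := by
    have e : (2 * Real.pi * s) ^ 3 / 6 = (4 * Real.pi ^ 2 / 6) * (s ^ 2 * (2 * Real.pi * s)) := by
      ring
    have h4 : (657 / 100 : ℝ) ≤ 4 * Real.pi ^ 2 / 6 := by nlinarith
    rw [e]
    have := mul_le_mul_of_nonneg_right h4 (show 0 ≤ s ^ 2 * (2 * Real.pi * s) by positivity)
    linarith
  nlinarith [h3]

theorem Lgd_even (s x : ℝ) : Lgd (-s) x = Lgd s x := by
  unfold Lgd dn
  congr 2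
  rw [mul_neg, Real.cosh_neg]

theorem Lgd_abs (s x : ℝ) : Lgd |s| x = Lgd s x := by
  rcases abs_choice s with h | h
  · rw [h]
  · rw [h, Lgd_even]

/-- The curvature at the real line. -/
theorem Lgd_le_cot {s x : ℝ} (h0 : 0 < x) (h1 : x ≤ 1 / 2) :
    Lgd s x ≤ Real.pi * (Real.cos (Real.pi * x) / Real.sin (Real.pi * x)) := by
  have hpi := Real.pi_pos
  have hs : 0 < Real.sin (Real.pi * x) := Real.sin_pos_of_pos_of_lt_pi (by positivity) (by nlinarith)
  have hc : 0 ≤ Real.cos (Real.pi * x) := Real.cos_nonneg_of_neg_pi_div_two_le_of_le (by nlinarith)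
    (by nlinarith)
  have e1 : Real.sin (2 * Real.pi * x) = 2 * Real.sin (Real.pi * x) * Real.cos (Real.pi * x) := by
    rw [← Real.sin_two_mul]
    congr 1
    ring
  have e2 : Real.cos (2 * Real.pi * x) = 1 - 2 * Real.sin (Real.pi * x) ^ 2 := by
    rw [show 2 * Real.pi * x = 2 * (Real.pi * x) by ring, Real.cos_two_mul, Real.cos_sq']
    ring
  have h2 : 2 * Real.sin (Real.pi * x) ^ 2 ≤ dn s x := by
    unfold dn
    rw [e2]
    linarith [Real.one_le_cosh (2 * Real.pi * s)]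
  unfold Lgd
  rw [e1]
  have h3 : 0 < dn s x := lt_of_lt_of_le (by positivity) h2
  rw [div_le_iff₀ h3]
  have h4 : Real.pi * (Real.cos (Real.pi * x) / Real.sin (Real.pi * x)) *
      (2 * Real.sin (Real.pi * x) ^ 2) ≤
      Real.pi * (Real.cos (Real.pi * x) / Real.sin (Real.pi * x)) * dn s x :=
    mul_le_mul_of_nonneg_left h2 (by positivity)
  refine le_trans (le_of_eq ?_) h4
  field_simp

theorem cot_anti {a x : ℝ} (h0 : 0 < a) (h1 : a ≤ x) (h2 : x ≤ 1 / 2) :
    Real.cos (Real.pi * x) / Real.sin (Real.pi * x) ≤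
      Real.cos (Real.pi * a) / Real.sin (Real.pi * a) := by
  have hpi := Real.pi_pos
  have hx : 0 < x := by linarith
  have s1 : 0 < Real.sin (Real.pi * x) :=
    Real.sin_pos_of_pos_of_lt_pi (by positivity) (by nlinarith)
  have s2 : 0 < Real.sin (Real.pi * a) :=
    Real.sin_pos_of_pos_of_lt_pi (by positivity) (by nlinarith)
  rw [div_le_div_iff₀ s1 s2]
  have h3 : 0 ≤ Real.sin (Real.pi * x - Real.pi * a) :=
    Real.sin_nonneg_of_nonneg_of_le_pi (by nlinarith) (by nlinarith)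
  rw [Real.sin_sub] at h3
  linarith

theorem Lgd_le_cot' {s a x : ℝ} (h0 : 0 < a) (h1 : a ≤ x) (h2 : x ≤ 1 / 2) :
    Lgd s x ≤ Real.pi * (Real.cos (Real.pi * a) / Real.sin (Real.pi * a)) :=
  (Lgd_le_cot (by linarith) h2).trans
    (mul_le_mul_of_nonneg_left (cot_anti h0 h1 h2) Real.pi_pos.le)

/-- `π cot (π x) ≤ 1 / x`. -/
theorem cot_le_inv {x : ℝ} (h0 : 0 < x) (h1 : x < 1 / 2) :
    Real.pi * (Real.cos (Real.pi * x) / Real.sin (Real.pi * x)) ≤ 1 / x := by
  have hpi := Real.pi_pos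
  have hs : 0 < Real.sin (Real.pi * x) := Real.sin_pos_of_pos_of_lt_pi (by positivity) (by nlinarith)
  have hc : 0 < Real.cos (Real.pi * x) := Real.cos_pos_of_mem_Ioo ⟨by nlinarith, by nlinarith⟩
  have ht := Real.lt_tan (show 0 < Real.pi * x by positivity) (show Real.pi * x < Real.pi / 2 by
    nlinarith)
  rw [Real.tan_eq_sin_div_cos, lt_div_iff₀ hc] at ht
  rw [← mul_div_assoc, div_le_div_iff₀ hs h0]
  nlinarith

theorem Lgd_le_inv {s x : ℝ} (h0 : 0 < x) (h1 : x < 1 / 2) : Lgd s x ≤ 1 / x :=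
  (Lgd_le_cot h0 h1.le).trans (cot_le_inv h0 h1)

/-- The first cell: `f + x log x` is convex. -/
theorem fR_chord_zero {s h : ℝ} (h0 : 0 < h) (h1 : h ≤ 1 / 2) {τ : ℝ} (t0 : 0 ≤ τ) (t1 : τ ≤ 1) :
    fR (τ * h) s ≤ (1 - τ) * fR 0 s + τ * fR h s + 368 / 1000 * h := by
  have hcv : ConvexOn ℝ (Icc 0 h) (fun x => fR x s + x * Real.log x) := by
    refine convex_of_deriv (f' := fun x => -Lg s x + (Real.log x + 1)) ?_ ?_ ?_
    · exact ((fR_cont_x s).add Real.continuous_mul_log).continuousOn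
    · intro x hx
      have h2 := Real.hasDerivAt_mul_log hx.1.ne'
      exact (fR_deriv_x (Or.inr ⟨hx.1.ne', by rw [abs_of_pos hx.1]; linarith [hx.2]⟩)).add h2
    · have h3 : ∀ x ∈ Ioo 0 h, HasDerivAt (fun x => -Lg s x + (Real.log x + 1))
          (-Lgd s x + x⁻¹) x := by
        intro x hx
        have h4 := (Real.hasDerivAt_log hx.1.ne').add_const 1
        exact ((Lg_hasDerivAt (Or.inr ⟨hx.1.ne', by
          rw [abs_of_pos hx.1]; linarith [hx.2]⟩)).neg).add h4
      refine monotoneOn_of_deriv_nonneg (convex_Ioo 0 h) ?_ ?_ ?_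
      · intro x hx
        exact (h3 x hx).continuousAt.continuousWithinAt
      · rw [interior_Ioo]
        intro x hx
        exact (h3 x hx).differentiableAt.differentiableWithinAt
      · rw [interior_Ioo]
        intro x hx
        rw [(h3 x hx).deriv]
        have := Lgd_le_inv (s := s) hx.1 (by linarith [hx.2])
        rw [one_div] at this
        linarith
  have h5 := hcv.2 (show (0 : ℝ) ∈ Icc 0 h from ⟨le_rfl, h0.le⟩)
    (show h ∈ Icc 0 h from ⟨h0.le, le_rfl⟩) (show 0 ≤ 1 - τ by linarith) t0 (by ring)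
  simp only [smul_eq_mul, mul_zero, zero_add, zero_mul, add_zero] at h5
  -- `-τ log τ ≤ 1 / e`
  have h6 : -(τ * Real.log τ) ≤ 368 / 1000 := by
    rcases t0.eq_or_lt with g | g
    · rw [← g]
      norm_num
    · have h7 := Real.add_one_le_exp (-Real.log τ - 1)
      have h8 : Real.exp (-Real.log τ - 1) = τ⁻¹ * (Real.exp 1)⁻¹ := by
        rw [Real.exp_sub, Real.exp_neg, Real.exp_log g]
        rfl
      rw [h8] at h7
      have h9 : τ * (-Real.log τ) ≤ τ * (τ⁻¹ * (Real.exp 1)⁻¹) :=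
        mul_le_mul_of_nonneg_left (by linarith) g.le
      rw [← mul_assoc, mul_inv_cancel₀ g.ne', one_mul] at h9
      have h10 : (Real.exp 1)⁻¹ ≤ 368 / 1000 := by
        rw [inv_le_comm₀ (Real.exp_pos 1) (by norm_num)]
        have := Real.exp_one_gt_d9
        norm_num at this ⊢
        linarith
      linarith
  rcases t0.eq_or_lt with g | g
  · rw [← g] at h5 ⊢
    simp only [zero_mul, sub_zero, one_mul, add_zero] at h5 ⊢
    nlinarith
  · have h11 : Real.log (τ * h) = Real.log τ + Real.log h := Real.log_mul g.ne' h0.ne'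
    rw [h11] at h5
    nlinarith [mul_le_mul_of_nonneg_right h6 h0.le]

/-! ### Vertical chords -/

theorem fR_convex_s {x : ℝ} (h0 : 0 ≤ x) (h1 : x ≤ 1 / 2) {a b : ℝ} {τ : ℝ} (t0 : 0 ≤ τ)
    (t1 : τ ≤ 1) : fR x ((1 - τ) * a + τ * b) ≤ (1 - τ) * fR x a + τ * fR x b := by
  have h := (neg_Rf_convex h0 h1).2 (mem_univ a) (mem_univ b) (show 0 ≤ 1 - τ by linarith) t0
    (by ring)
  simpa only [smul_eq_mul, fR] using h

theorem fR_deriv_s {x : ℝ} (h0 : 0 < x) (h1 : x < 1) (s : ℝ) :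
    HasDerivAt (fR x) (hh ((x : ℂ) + s * I)).im s := neg_Rf_hasDerivAt_im h0 h1 s

theorem hh_im_deriv_s {x : ℝ} (h0 : 0 < x) (h1 : x < 1) (s : ℝ) :
    HasDerivAt (fun s : ℝ => (hh ((x : ℂ) + s * I)).im) (Lgd s x) s := by
  have h := hh_im_hasDerivAt_im h0 h1 s
  refine h.congr_deriv ?_
  rw [re_ofReal_mul, cot_re]
  unfold Lgd dn
  ring

theorem Lgd_one_sub (s x : ℝ) : Lgd s (1 - x) = -Lgd s x := by
  unfold Lgd dn
  have e1 : Real.sin (2 * Real.pi * (1 - x)) = -Real.sin (2 * Real.pi * x) := by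
    rw [show 2 * Real.pi * (1 - x) = 2 * Real.pi - 2 * Real.pi * x by ring, Real.sin_two_pi_sub]
  have e2 : Real.cos (2 * Real.pi * (1 - x)) = Real.cos (2 * Real.pi * x) := by
    rw [show 2 * Real.pi * (1 - x) = 2 * Real.pi - 2 * Real.pi * x by ring, Real.cos_two_pi_sub]
  rw [e1, e2]
  ring

/-- Vertical chords in the right half of the strip; `K` bounds `π cot (π (1 - x))`. -/
theorem fR_chord_s {x K : ℝ} (h0 : 1 / 2 ≤ x) (h1 : x < 1)
    (hK : Real.pi * (Real.cos (Real.pi * (1 - x)) / Real.sin (Real.pi * (1 - x))) ≤ K)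
    {a b : ℝ} {τ : ℝ} (t0 : 0 ≤ τ) (t1 : τ ≤ 1) :
    fR x ((1 - τ) * a + τ * b) ≤
      (1 - τ) * fR x a + τ * fR x b + K / 2 * (τ * (1 - τ)) * (b - a) ^ 2 := by
  have hx0 : 0 < x := by linarith
  have key : ∀ a b : ℝ, a ≤ b → ∀ τ : ℝ, 0 ≤ τ → τ ≤ 1 → fR x ((1 - τ) * a + τ * b) ≤
      (1 - τ) * fR x a + τ * fR x b + K / 2 * (τ * (1 - τ)) * (b - a) ^ 2 := by
    intro a b hab τ t0 t1
    refine chord_of_convex hab ?_ t0 t1
    refine convex_of_deriv (f' := fun s : ℝ => (hh ((x : ℂ) + s * I)).im + K * s) ?_ ?_ ?_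
    · have hc : Continuous (fR x) := by
        unfold fR
        exact (Rf_continuous.comp (by fun_prop)).neg
      exact (hc.add (by fun_prop)).continuousOn
    · intro s _
      have h2 : HasDerivAt (fun s : ℝ => K / 2 * s ^ 2) (K * s) s := by
        have := ((hasDerivAt_id s).pow 2).const_mul (K / 2)
        refine this.congr_deriv ?_
        simp
        ring
      exact (fR_deriv_s hx0 h1 s).add h2
    · have h3 : ∀ s : ℝ, HasDerivAt (fun s : ℝ => (hh ((x : ℂ) + s * I)).im + K * s)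
          (Lgd s x + K) s := by
        intro s
        have h4 : HasDerivAt (fun s : ℝ => K * s) K s := by
          simpa using (hasDerivAt_id s).const_mul K
        exact (hh_im_deriv_s hx0 h1 s).add h4
      have hmono : Monotone (fun s : ℝ => (hh ((x : ℂ) + s * I)).im + K * s) := by
        apply monotone_of_deriv_nonneg
        · exact fun s => (h3 s).differentiableAt
        · intro s
          rw [(h3 s).deriv]
          have h5 : Lgd s (1 - x) ≤ K := (Lgd_le_cot (by linarith) (by linarith)).trans hK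
          rw [Lgd_one_sub] at h5
          linarith
      exact hmono.monotoneOn _
  rcases le_total a b with h | h
  · exact key a b h τ t0 t1
  · have := key b a h (1 - τ) (by linarith) (by linarith)
    have e : (1 - (1 - τ)) * b + (1 - τ) * a = (1 - τ) * a + τ * b := by ring
    rw [e] at this
    nlinarith [this]

end Pool.Agent.S5.Z4
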