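import Pool.Agent.S5.I.Sad
import Pool.Agent.S5.I.VOK
import Pool.Agent.S5.Z4.Ch

/-!
# The growth of a node with four half twists, split into the two slots
-/

set_option autoImplicit false

namespace Pool.Agent.S5.Z4

open Pool.Agent.H63.VC3 Pool.Agent.S3 Complex

/-- The share of a slot. -/
noncomputable def psi (y z : ℂ) : ℝ :=
  fR (y.re - z.re) (y.im - z.im) + 2 * fR (1 / 2 - y.re) y.im +
    Real.pi * ((y.re + z.re) * (y.im + z.im)) - Real.pi / 2 * (y.im - z.im)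

theorem fR_eq {z : ℂ} {x s : ℝ} (h1 : z.re = x) (h2 : z.im = s) : -Rf z = fR x s := by
  unfold fR
  rw [← h1, ← h2, re_add_im]

theorem fR_eq' {z : ℂ} {x s : ℝ} (h1 : z.re = x) (h2 : z.im = -s) : -Rf z = fR x s := by
  rw [fR_eq h1 h2, fR_neg]

theorem Gz4_psi (y z b : ℂ) : Gz4 y z b = psi y z + psi b (-z) := by
  unfold Gz4 gB gC qB qC psi
  rw [Rf_half_add y, Rf_half_add b]
  have e1 : -Rf (y - z) = fR (y.re - z.re) (y.im - z.im) := fR_eq (by simp) (by simp)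
  have e2 : -Rf (1 / 2 - y) = fR (1 / 2 - y.re) y.im := fR_eq' (by simp) (by simp)
  have e3 : -Rf (1 / 2 - b) = fR (1 / 2 - b.re) b.im := fR_eq' (by simp) (by simp)
  have e4 : -Rf (z + b) = fR (b.re - (-z).re) (b.im - (-z).im) :=
    fR_eq (by simp [add_comm]) (by simp [add_comm])
  rw [← e1, ← e2, ← e3, ← e4]
  simp only [Int.cast_neg, Int.cast_one, neg_mul, one_mul, sub_re, add_re, neg_re, mul_re, sub_im,
    add_im, neg_im, mul_im, ofReal_re, ofReal_im, I_re, I_im, div_ofNat_re, div_ofNat_im, one_re,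
    one_im, re_ofNat, im_ofNat, pow_two]
  ring

/-- The share of a slot, with everything which depends on the edge. -/
noncomputable def phi (s : Slt) (n : Nt) (pc : Pc) (y0 : ℂ) (D : ℝ) (y : ℂ) (w : ℝ) (z : ℂ) : ℝ :=
  psi y z - s.lam.re * ((pc.eff y).re - y0.re) + s.lam.im * ((pc.eff y).im - s.ys.im) +
    D * (s.ys.im - y0.im) + dT s.S n s.x pc * Td (1 / 2 - s.ys) (1 / 2 - y) - hT s.S n s.x pc - w / 2

/-- The conditions at the base point. -/
structure Bse (y0 z0 b0 ys zs bs : ℂ) : Prop where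
  yl : 0 ≤ y0.re
  yh : y0.re < 1 / 2
  bl : 0 ≤ b0.re
  bh : b0.re < 1 / 2
  cl : z0.re < y0.re
  ch : y0.re - z0.re ≤ 1 / 2
  dl : 0 < z0.re + b0.re
  dh : z0.re + b0.re ≤ 1 / 2
  yl' : 0 ≤ ys.re
  yh' : ys.re < 1 / 2
  bl' : 0 ≤ bs.re
  bh' : bs.re < 1 / 2
  cl' : zs.re < ys.re
  ch' : ys.re - zs.re ≤ 1 / 2
  dl' : 0 < zs.re + bs.re
  dh' : zs.re + bs.re ≤ 1 / 2

theorem re_lam (l u v w : ℂ) : (l * (u - cr v w)).re =
    l.re * (u.re - v.re) - l.im * (u.im - w.im) := by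
  rw [mul_re, sub_re, sub_im, cr_re, cr_im]

/-- **The reduction.** -/
theorem red4 {sy sb : Slt} {zs y0 z0 b0 : ℂ} (n : Nt) (py pb : Pc) (y z b : ℂ) (wy wb : ℝ)
    (ey : sy.ex = true) (eb : sb.ex = true) (hy : sy.lam = l4y sy.ys zs)
    (hb : sb.lam = l4b zs sb.ys) (hz : l4z sy.ys zs sb.ys = 0)
    (h : Bse y0 z0 b0 sy.ys zs sb.ys) :
    Ez4 sy.ys zs sb.ys y z b + sy.e n py y wy + sb.e n pb b wb ≤
      phi sy n py y0 (l4y y0 z0).im y wy z + phi sb n pb b0 (l4b z0 b0).im b wb (-z) -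
        psi y0 z0 - psi b0 (-z0) + (l4z y0 z0 b0).im * (zs.im - z0.im) := by
  have r1 : ∀ w : ℂ, (1 / 2 - w).re = 1 / 2 - w.re := fun w => by simp
  have h1 : An 0 (1 / 2 - y0) (1 / 2 - sy.ys) := An_zero (by rw [r1]; linarith [h.yh])
    (by rw [r1]; linarith [h.yl]) (by rw [r1]; linarith [h.yh']) (by rw [r1]; linarith [h.yl'])
  have h2 : An 0 (1 / 2 - b0) (1 / 2 - sb.ys) := An_zero (by rw [r1]; linarith [h.bh])
    (by rw [r1]; linarith [h.bl]) (by rw [r1]; linarith [h.bh']) (by rw [r1]; linarith [h.bl'])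
  have h3 : An 0 (y0 - z0) (sy.ys - zs) := An_zero (by rw [sub_re]; linarith [h.cl])
    (by rw [sub_re]; exact h.ch) (by rw [sub_re]; linarith [h.cl']) (by rw [sub_re]; exact h.ch')
  have h5 : An 0 (z0 + b0) (zs + sb.ys) := An_zero (by rw [add_re]; exact h.dl)
    (by rw [add_re]; exact h.dh) (by rw [add_re]; exact h.dl') (by rw [add_re]; exact h.dh')
  have key := sad_z4 (y := y) (z := z) (b := b) (yh := py.eff y) (bh := pb.eff b) hz h1 h2 h3 h5
  have g := Gz4_gen y0 z0 b0 y z b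
  rw [Gz4_psi, Gz4_psi] at g
  rw [re_lam, re_lam, ← hy, ← hb] at key
  have e1 : sy.e n py y wy = (sy.lam * (y - py.eff y)).re +
      dT sy.S n sy.x py * Td (1 / 2 - sy.ys) (1 / 2 - y) - hT sy.S n sy.x py - wy / 2 := by
    unfold Slt.e
    rw [if_pos ey]
    rfl
  have e2 : sb.e n pb b wb = (sb.lam * (b - pb.eff b)).re +
      dT sb.S n sb.x pb * Td (1 / 2 - sb.ys) (1 / 2 - b) - hT sb.S n sb.x pb - wb / 2 := by
    unfold Slt.e
    rw [if_pos eb]
    rfl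
  rw [e1, e2]
  unfold phi
  linarith

end Pool.Agent.S5.Z4
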