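import Pool.Agent.S5.E.E4.Tay
import Pool.Agent.S5.Z4.Red

/-!
# Tangent defects from below
-/

set_option autoImplicit false

namespace Pool.Agent.S5.Z4

open Pool.Agent.H63.VC3 Pool.Agent.S3 Complex Set
open Pool.Agent.S5.G (sin_re sin_im cos_re cos_im)

/-- `sin (7 π / 50)`. -/
theorem sin_14 : 425 / 1000 ≤ Real.sin (Real.pi * (14 / 100)) := by
  have hp1 := Real.pi_gt_d6
  have hp2 := Real.pi_lt_d6
  have h := Real.sin_bound (x := Real.pi * (14 / 100)) (by
    rw [abs_of_pos (by positivity)]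
    linarith)
  have h2 := (abs_le.1 h).1
  rw [abs_of_pos (by positivity)] at h2
  set x := Real.pi * (14 / 100) with hx
  have x1 : x ≤ 43983 / 100000 := by rw [hx]; linarith
  have x0 : 43982 / 100000 ≤ x := by rw [hx]; linarith
  have x2 : x ^ 3 ≤ (43983 / 100000) ^ 3 := pow_le_pow_left₀ (by linarith) x1 3
  have x3 : x ^ 5 ≤ (43983 / 100000) ^ 5 := pow_le_pow_left₀ (by linarith) x1 5
  norm_num at x2 x3
  linarith

/-- The cotangent on the strip `[14 / 100, 86 / 100]`. -/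
theorem cot_14 {z : ℂ} (h1 : 14 / 100 ≤ z.re) (h2 : z.re ≤ 86 / 100) :
    ‖Real.pi * cot (Real.pi * z)‖ ≤ 67 / 10 := by
  have hpi := Real.pi_pos
  have hp2 := Real.pi_lt_d6
  have hs : 425 / 1000 ≤ Real.sin (Real.pi * z.re) := by
    refine sin_14.trans ?_
    rcases le_total z.re (1 / 2) with h | h
    · apply Real.sin_le_sin_of_le_of_le_pi_div_two
      · nlinarith
      · nlinarith
      · nlinarith
    · have e : Real.sin (Real.pi * z.re) = Real.sin (Real.pi * (1 - z.re)) := by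
        rw [← Real.sin_pi_sub]
        congr 1
        ring
      rw [e]
      apply Real.sin_le_sin_of_le_of_le_pi_div_two
      · nlinarith
      · nlinarith
      · nlinarith
  have hs2 : (425 / 1000 : ℝ) ^ 2 ≤ Real.sin (Real.pi * z.re) ^ 2 := pow_le_pow_left₀ (by norm_num) hs 2
  have q2 : Real.pi ^ 2 ≤ 98697 / 10000 := by nlinarith
  have c1 : ‖cos (Real.pi * z)‖ ^ 2 =
      1 - Real.sin (Real.pi * z.re) ^ 2 + Real.sinh (Real.pi * z.im) ^ 2 := by
    rw [← normSq_eq_norm_sq, normSq_apply, cos_re, cos_im, re_ofReal_mul, im_ofReal_mul]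
    have h1 := Real.cosh_sq (Real.pi * z.im)
    have h2 := Real.sin_sq_add_cos_sq (Real.pi * z.re)
    linear_combination Real.cos (Real.pi * z.re) ^ 2 * h1 +
      (1 + Real.sinh (Real.pi * z.im) ^ 2) * h2
  have c2 := E.E4.norm_sin_pi z
  have h0 : 0 ≤ Real.sinh (Real.pi * z.im) ^ 2 := sq_nonneg _
  have hs0 : 0 < ‖sin (Real.pi * z)‖ ^ 2 := by
    rw [c2]
    have : (0 : ℝ) < (425 / 1000) ^ 2 := by norm_num
    linarith
  apply le_of_sq_le_sq _ (by norm_num)
  rw [norm_mul, norm_real, Real.norm_of_nonneg hpi.le, Complex.cot, norm_div, mul_pow, div_pow,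
    mul_div_assoc', div_le_iff₀ hs0, c1, c2]
  set s := Real.sin (Real.pi * z.re) ^ 2
  set k := Real.sinh (Real.pi * z.im) ^ 2
  have hs1 : s ≤ 1 := Real.sin_sq_le_one _
  have k1 : Real.pi ^ 2 * (1 - s + k) ≤ 98697 / 10000 * (1 - s + k) :=
    mul_le_mul_of_nonneg_right q2 (by linarith)
  norm_num at hs2 ⊢
  linarith

/-- **The tangent defect from below.** -/
theorem Td_ge {w0 w : ℂ} (h1 : 14 / 100 ≤ w0.re) (h2 : 14 / 100 ≤ w.re) (h3 : w0.re ≤ 86 / 100)
    (h4 : w.re ≤ 86 / 100) : -Td w0 w ≤ 67 / 20 * ‖w - w0‖ ^ 2 := by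
  have h := E.E4.Rf_tay (g := w0) (z := w) (u := 14 / 100) (K := 67 / 10) (by norm_num) h1 h2
    (by linarith) (by linarith) (fun s hs => cot_14 (E.E4.seg_re h1 h2 hs)
      (E.E4.seg_re' h3 h4 hs))
  have := (abs_le.1 h).2
  unfold Td
  linarith

/-- The tangent defect of a share, at a base point. -/
theorem Td_base (ys y0 y : ℂ) : -Td (1 / 2 - ys) (1 / 2 - y) =
    -fR (1 / 2 - y.re) y.im + fR (1 / 2 - y0.re) y0.im + (hh (1 / 2 - ys)).re * (y.re - y0.re) -
      (hh (1 / 2 - ys)).im * (y.im - y0.im) - Td (1 / 2 - ys) (1 / 2 - y0) := by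
  have e1 : -Rf (1 / 2 - y) = fR (1 / 2 - y.re) y.im := fR_eq' (by simp) (by simp)
  have e2 : -Rf (1 / 2 - y0) = fR (1 / 2 - y0.re) y0.im := fR_eq' (by simp) (by simp)
  rw [← e1, ← e2]
  unfold Td
  have e3 : (1 / 2 - y) - (1 / 2 - ys) = ys - y := by ring
  have e4 : (1 / 2 - y0) - (1 / 2 - ys) = ys - y0 := by ring
  rw [e3, e4]
  simp only [mul_re, sub_re, sub_im]
  ring

end Pool.Agent.S5.Z4
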