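import Pool.Agent.H63.VC5.RogGG
import Pool.Agent.S3.CV.EdgeS
import Pool.Agent.S5.Z4.Lf
import Pool.Agent.S5.Z4.RegI
import Pool.Agent.S5.Z4.TdL4

/-!
# The base point: the slope of the node, the potential, the quadratic term
-/

set_option autoImplicit false

namespace Pool.Agent.S5.Z4

open Pool.Agent.H63.VC3 Pool.Agent.S3 Complex
open Pool.Agent.S5.Tb (ent6 qE tE pt EntOK ent6_ok)
open scoped ComplexConjugate

/-- The base point of a slot. -/
noncomputable def bp (a b : ℕ) : ℂ := ((a : ℝ) / 200 : ℝ) + (((b : ℝ) - 100) / 200 : ℝ) * I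

/-- The base point of the node. -/
noncomputable def zp (x n : ℕ) : ℂ := (((x : ℝ) - 100) / 200 : ℝ) + (((n : ℝ) - 100) / 200 : ℝ) * I

@[simp] theorem bp_re (a b : ℕ) : (bp a b).re = (a : ℝ) / 200 := by simp [bp]
@[simp] theorem bp_im (a b : ℕ) : (bp a b).im = ((b : ℝ) - 100) / 200 := by simp [bp]
@[simp] theorem zp_re (x n : ℕ) : (zp x n).re = ((x : ℝ) - 100) / 200 := by simp [zp]
@[simp] theorem zp_im (x n : ℕ) : (zp x n).im = ((n : ℝ) - 100) / 200 := by simp [zp]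

theorem neg_zp {x n : ℕ} (hx : x ≤ 200) (hn : n ≤ 200) : -zp x n = zp (200 - x) (200 - n) := by
  apply Complex.ext
  · rw [neg_re, zp_re, zp_re, Nat.cast_sub hx]
    push_cast
    ring
  · rw [neg_im, zp_im, zp_im, Nat.cast_sub hn]
    push_cast
    ring

theorem dst_cast (a b : ℕ) : ((dst a b : ℕ) : ℝ) = |(a : ℝ) - b| := by
  have e : dst a b = (a - b) + (b - a) := rfl
  rw [e]
  rcases le_total b a with h | h
  · rw [Nat.sub_eq_zero_of_le h, add_zero, Nat.cast_sub h, abs_of_nonneg]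
    have : (b : ℝ) ≤ a := by exact_mod_cast h
    linarith
  · rw [Nat.sub_eq_zero_of_le h, zero_add, Nat.cast_sub h, abs_of_nonpos]
    · ring
    · have : (a : ℝ) ≤ b := by exact_mod_cast h
      linarith

/-- The values of the table. -/
theorem fR_tab {i j : ℕ} (hi : i ≤ 100) (hj : j ≤ 60) (h : 0 < i + j) {x s : ℝ}
    (hx : x = (i : ℝ) / 200) (hs : |s| = (j : ℝ) / 200) :
    |fR x s * 1048576 - (qE (ent6 i j) : ℝ)| ≤ 32 := by
  have h1 := (ent6_ok i j hi hj h).q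
  have h2 : fR x s = -Rf (pt i j) := by
    have h3 : fR x ((j : ℝ) / 200) = -Rf (pt i j) := by
      unfold fR pt
      rw [hx]
    rw [← h3, ← hs]
    rcases abs_cases s with h4 | h4
    · rw [h4.1]
    · rw [h4.1, fR_neg]
  rw [h2]
  exact h1

theorem qg_le {i j : ℕ} (hi : i ≤ 100) (hj : j ≤ 60) (h : 0 < i + j) {x s : ℝ}
    (hx : x = (i : ℝ) / 200) (hs : |s| = (j : ℝ) / 200) :
    (qg i j : ℝ) - 763 ≤ 25000000 * fR x s := by
  have h1 := (abs_le.1 (fR_tab hi hj h hx hs)).1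
  have h2 : ((qg i j : ℕ) : ℝ) ≤ 25000000 * (qE (ent6 i j) : ℝ) / 1048576 := by
    have h3 : ((qg i j : ℕ) : ℝ) ≤ ((25000000 * qE (ent6 i j) : ℕ) : ℝ) / ((1048576 : ℕ) : ℝ) :=
      Nat.cast_div_le
    push_cast at h3
    exact h3
  linarith

theorem le_qg {i j : ℕ} (hi : i ≤ 100) (hj : j ≤ 60) (h : 0 < i + j) {x s : ℝ}
    (hx : x = (i : ℝ) / 200) (hs : |s| = (j : ℝ) / 200) :
    25000000 * fR x s ≤ (qg i j : ℝ) + 764 := by
  have h1 := (abs_le.1 (fR_tab hi hj h hx hs)).2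
  have h2 : 25000000 * (qE (ent6 i j) : ℝ) / 1048576 ≤ (qg i j : ℝ) + 1 := by
    have h3 : 25000000 * qE (ent6 i j) < (qg i j + 1) * 1048576 := by
      have h4 : qg i j = 25000000 * qE (ent6 i j) / 1048576 := rfl
      rw [h4]
      exact Nat.lt_mul_of_div_lt (Nat.lt_succ_self _) (by norm_num)
    have h5 : (25000000 : ℝ) * (qE (ent6 i j) : ℝ) < ((qg i j : ℝ) + 1) * 1048576 := by
      exact_mod_cast h3
    rw [div_le_iff₀ (by norm_num)]
    exact h5.le
  linarith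

theorem pt_re (i j : ℕ) : (pt i j).re = (i : ℝ) / 200 := by
  unfold pt
  simp

theorem pt_im (i j : ℕ) : (pt i j).im = (j : ℝ) / 200 := by
  unfold pt
  simp

theorem hh_tab {i a b : ℕ} (hi0 : 1 ≤ i) (hi : i ≤ 100) (hj : dst a b ≤ 60) {z : ℂ}
    (hz : z.re = (i : ℝ) / 200) (hz' : z.im = ((a : ℝ) - b) / 200) :
    |(hh z).im * 1048576 - ((sgt i a b : ℤ) : ℝ)| ≤ 4 := by
  have hi0' : (1 : ℝ) ≤ i := by exact_mod_cast hi0
  have hi' : (i : ℝ) ≤ 100 := by exact_mod_cast hi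
  unfold sgt
  rcases le_or_gt b a with h | h
  · rw [Nat.ble_eq_true_of_le h]
    show |(hh z).im * 1048576 - ((tgl i (a - b) : ℤ) : ℝ)| ≤ 4
    have e : dst a b = a - b := by
      show (a - b) + (b - a) = a - b
      omega
    rw [e] at hj
    have h1 := (ent6_ok i (a - b) hi hj (by omega)).t
    have h2 : z = pt i (a - b) := by
      apply Complex.ext
      · rw [pt_re, hz]
      · rw [pt_im, hz', Nat.cast_sub h]
    rw [h2]
    have h3 : ((tgl i (a - b) : ℤ) : ℝ) = (tE (ent6 i (a - b)) : ℝ) := by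
      unfold tgl
      simp
    rw [h3]
    exact h1
  · have hb : Nat.ble b a = false := by
      rw [Bool.eq_false_iff]
      intro h'
      exact absurd (Nat.ble_eq.mp h') (not_le.2 h)
    rw [hb]
    show |(hh z).im * 1048576 - ((Int.neg (tgl i (b - a)) : ℤ) : ℝ)| ≤ 4
    have e : dst a b = b - a := by
      show (a - b) + (b - a) = b - a
      omega
    rw [e] at hj
    have h1 := (ent6_ok i (b - a) hi hj (by omega)).t
    have h2 : z = conj (pt i (b - a)) := by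
      apply Complex.ext
      · rw [conj_re, pt_re, hz]
      · rw [conj_im, pt_im, hz', Nat.cast_sub h.le]
        ring
    have h3 : ((Int.neg (tgl i (b - a)) : ℤ) : ℝ) = -(tE (ent6 i (b - a)) : ℝ) := by
      show ((-(tgl i (b - a)) : ℤ) : ℝ) = _
      unfold tgl
      simp
    have h4 : (hh z).im = -(hh (pt i (b - a))).im := by
      have h5 : conj (hh z) = hh (pt i (b - a)) := by
        rw [h2]
        apply CV.EdgeS_hh
        · rw [pt_re]
          linarith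
        · rw [pt_re]
          linarith
      rw [← h5, conj_im, neg_neg]
    rw [h3, h4]
    have h6 := abs_le.1 h1
    rw [abs_le]
    constructor <;> linarith [h6.1, h6.2]

/-! ### The slope in the variable of the node -/

theorem nrk_abs {X D : ℤ} (h : nrk X D = true) : |(X : ℝ) - 1048576 * D| ≤ 524288 := by
  unfold nrk at h
  have h1 : Int.natAbs (X - 1048576 * D) ≤ 524288 := Nat.ble_eq.mp h
  have h2 : |X - 1048576 * D| ≤ 524288 := by
    rw [Int.abs_eq_natAbs]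
    exact_mod_cast h1
  have h3 : ((|X - 1048576 * D| : ℤ) : ℝ) ≤ ((524288 : ℤ) : ℝ) := by exact_mod_cast h2
  push_cast at h3
  exact h3

/-- **The slope in the variable of the node.** -/
theorem Gx_sound {t h g s x n : ℕ} {G : ℤ} (hx : x + 1 ≤ t + 100) (ht : t ≤ x)
    (hg : 101 ≤ g + x) (hg' : g + x ≤ 200) (h1 : dst h n ≤ 60) (h2 : dst (s + n) 200 ≤ 60)
    (hG : nrk (Gx t h g s x n) G = true) :
    |(l4z (bp t h) (zp x n) (bp g s)).im - G / 5000| ≤ 16 / 100000 := by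
  have hG := nrk_abs hG
  have hx' : (x : ℝ) + 1 ≤ t + 100 := by exact_mod_cast hx
  have ht' : (t : ℝ) ≤ x := by exact_mod_cast ht
  have hg1 : (101 : ℝ) ≤ g + x := by exact_mod_cast hg
  have hg2 : (g : ℝ) + x ≤ 200 := by exact_mod_cast hg'
  have e1 : (hh (bp t h - zp x n)).im * 1048576 - ((sgt (t + 100 - x) h n : ℤ) : ℝ) ≤ 4 ∧
      -4 ≤ (hh (bp t h - zp x n)).im * 1048576 - ((sgt (t + 100 - x) h n : ℤ) : ℝ) := by
    have h3 := hh_tab (i := t + 100 - x) (a := h) (b := n) (by omega) (by omega) h1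
      (z := bp t h - zp x n) (by
        rw [sub_re, bp_re, zp_re, Nat.cast_sub (by omega)]
        push_cast
        ring) (by
        rw [sub_im, bp_im, zp_im]
        ring)
    exact ⟨(abs_le.1 h3).2, (abs_le.1 h3).1⟩
  have e2 : (hh (zp x n + bp g s)).im * 1048576 - ((sgt (g + x - 100) (s + n) 200 : ℤ) : ℝ) ≤ 4 ∧
      -4 ≤ (hh (zp x n + bp g s)).im * 1048576 - ((sgt (g + x - 100) (s + n) 200 : ℤ) : ℝ) := by
    have h3 := hh_tab (i := g + x - 100) (a := s + n) (b := 200) (by omega) (by omega) h2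
      (z := zp x n + bp g s) (by
        rw [add_re, bp_re, zp_re, Nat.cast_sub (by omega)]
        push_cast
        ring) (by
        rw [add_im, bp_im, zp_im]
        push_cast
        ring)
    exact ⟨(abs_le.1 h3).2, (abs_le.1 h3).1⟩
  have e3 : (l4z (bp t h) (zp x n) (bp g s)).im = (hh (bp t h - zp x n)).im -
      (hh (zp x n + bp g s)).im - Real.pi * (((t : ℝ) + 2 * x - (g + 200)) / 200) := by
    unfold l4z
    simp only [sub_im, add_im, mul_im, mul_re, ofReal_re, ofReal_im, I_re, I_im, add_re, sub_re,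
      bp_re, bp_im, zp_re, zp_im, div_ofNat_re, div_ofNat_im, one_re, one_im]
    ring
  have e4 : ((Gx t h g s x n : ℤ) : ℝ) = 5000 * (((sgt (t + 100 - x) h n : ℤ) : ℝ) -
      ((sgt (g + x - 100) (s + n) 200 : ℤ) : ℝ)) - 82354966 * ((t : ℝ) + 2 * x - (g + 200)) := by
    have e5 : Gx t h g s x n = 5000 * (sgt (t + 100 - x) h n - sgt (g + x - 100) (s + n) 200) -
      82354966 * (((t + 2 * x : ℕ) : ℤ) - ((g + 200 : ℕ) : ℤ)) := rfl
    rw [e5]
    push_cast
    ring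
  have hpi1 := Real.pi_gt_d20
  have hpi2 := Real.pi_lt_d20
  have e6 : |(t : ℝ) + 2 * x - (g + 200)| ≤ 400 := by
    rw [abs_le]
    have hg0 : (0 : ℝ) ≤ g := Nat.cast_nonneg g
    have ht0 : (0 : ℝ) ≤ t := Nat.cast_nonneg t
    have hx0 : (0 : ℝ) ≤ x := Nat.cast_nonneg x
    constructor <;> linarith
  have e7 : |(82354966 - 26214400 * Real.pi) * ((t : ℝ) + 2 * x - (g + 200))| ≤ 400 := by
    rw [abs_mul]
    have h8 : |82354966 - 26214400 * Real.pi| ≤ 1 := by
      rw [abs_le]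
      constructor <;> linarith
    calc _ ≤ 1 * (400 : ℝ) := mul_le_mul h8 e6 (abs_nonneg _) zero_le_one
      _ = 400 := by ring
  rw [e3, abs_le]
  have e8 := abs_le.1 e7
  have e9 := abs_le.1 hG
  rw [e4] at e9
  obtain ⟨a1, a2⟩ := e1
  obtain ⟨b1, b2⟩ := e2
  obtain ⟨c1, c2⟩ := e8
  obtain ⟨d1, d2⟩ := e9
  constructor <;> linarith

/-! ### The linear term -/

theorem mxn_cast (a b : ℕ) : ((mxn a b : ℕ) : ℝ) = max (a : ℝ) b := by
  unfold mxn
  rcases le_or_gt a b with h | h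
  · rw [Nat.ble_eq_true_of_le h, max_eq_right (by exact_mod_cast h)]
    rfl
  · have hb : Nat.ble a b = false := by
      rw [Bool.eq_false_iff]
      intro h'
      exact absurd (Nat.ble_eq.mp h') (not_le.2 h)
    rw [hb, max_eq_left (by exact_mod_cast h.le)]
    rfl

theorem imx_cast (a b : ℤ) : ((imx a b : ℤ) : ℝ) = max (a : ℝ) b := by
  have e : imx a b = a + ((b - a).toNat : ℤ) := rfl
  rw [e, Int.toNat_eq_max]
  push_cast
  rcases le_total a b with h | h
  · have h' : (a : ℝ) ≤ b := by exact_mod_cast h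
    rw [max_eq_left (by linarith), max_eq_right h']
    ring
  · have h' : (b : ℝ) ≤ a := by exact_mod_cast h
    rw [max_eq_right (by linarith), max_eq_left h']
    ring

/-- **The linear term.** -/
theorem gzx_sound {z : Rc} {zs : ℂ} {n : ℕ} {G : ℤ} {g : ℝ} (hz : InZ z zs)
    (hg : |g - G / 5000| ≤ 16 / 100000) :
    25000000 * (g * (zs.im - ((n : ℝ) - 100) / 200)) ≤ ((gzx G z n : ℤ) : ℝ) := by
  obtain ⟨_, h1, h2⟩ := hz
  set d := 1000 * (zs.im - ((n : ℝ) - 100) / 200) with hd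
  have d1 : (z.e0 : ℝ) - 5 * n ≤ d := by rw [hd]; linarith
  have d2 : d ≤ (z.e1 : ℝ) - 5 * n := by rw [hd]; linarith
  have e1 : ((gzx G z n : ℤ) : ℝ) = max (5 * (G : ℝ) * ((z.e0 : ℝ) - 5 * n))
      (5 * (G : ℝ) * ((z.e1 : ℝ) - 5 * n)) +
        4 * max |(z.e0 : ℝ) - 5 * n| |(z.e1 : ℝ) - 5 * n| := by
    have e2 : gzx G z n = imx ((5 * G) * ((z.e0 : ℤ) - ((5 * n : ℕ) : ℤ)))
        ((5 * G) * ((z.e1 : ℤ) - ((5 * n : ℕ) : ℤ))) +
          ((4 * mxn (dst z.e0 (5 * n)) (dst z.e1 (5 * n)) : ℕ) : ℤ) := rfl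
    rw [e2]
    push_cast
    rw [imx_cast, mxn_cast, dst_cast, dst_cast]
    push_cast
    rfl
  have e3 : 25000000 * (g * (zs.im - ((n : ℝ) - 100) / 200)) = 25000 * g * d := by
    rw [hd]
    ring
  have e4 : |d| ≤ max |(z.e0 : ℝ) - 5 * n| |(z.e1 : ℝ) - 5 * n| := abs_le_max_abs_abs d1 d2
  have e5 : 5 * (G : ℝ) * d ≤ max (5 * (G : ℝ) * ((z.e0 : ℝ) - 5 * n))
      (5 * (G : ℝ) * ((z.e1 : ℝ) - 5 * n)) := by
    rcases le_total 0 (G : ℝ) with h3 | h3
    · exact le_max_of_le_right (mul_le_mul_of_nonneg_left d2 (by linarith))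
    · exact le_max_of_le_left (mul_le_mul_of_nonpos_left d1 (by linarith))
  have e6 : 25000 * (g - G / 5000) * d ≤ 4 * |d| := by
    have h3 : (g - G / 5000) * d ≤ 16 / 100000 * |d| :=
      (le_abs_self _).trans (by
        rw [abs_mul]
        exact mul_le_mul_of_nonneg_right hg (abs_nonneg _))
    linarith
  rw [e1, e3]
  linarith

/-! ### The potential at the base point -/

/-- **The potential at the base point.** -/
theorem Px_sound {t h x n : ℕ} (ht : t ≤ 99) (hx : x + 1 ≤ t + 100) (htx : t ≤ x)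
    (h0 : 70 ≤ h) (h1 : h ≤ 130) (n0 : 70 ≤ n) (n1 : n ≤ 130) :
    ((Px t h x n : ℤ) : ℝ) ≤ 25000000 * psi (bp t h) (zp x n) := by
  have ht' : (t : ℝ) ≤ 99 := by exact_mod_cast ht
  have hx' : (x : ℝ) + 1 ≤ t + 100 := by exact_mod_cast hx
  have htx' : (t : ℝ) ≤ x := by exact_mod_cast htx
  have h0' : (70 : ℝ) ≤ h := by exact_mod_cast h0
  have h1' : (h : ℝ) ≤ 130 := by exact_mod_cast h1
  have n0' : (70 : ℝ) ≤ n := by exact_mod_cast n0
  have n1' : (n : ℝ) ≤ 130 := by exact_mod_cast n1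
  have d1 : dst h n ≤ 60 := by
    show (h - n) + (n - h) ≤ 60
    omega
  have d2 : dst h 100 ≤ 60 := by
    show (h - 100) + (100 - h) ≤ 60
    omega
  have q1 := qg_le (i := t + 100 - x) (j := dst h n) (by omega) d1 (by omega)
    (x := (bp t h).re - (zp x n).re) (s := (bp t h).im - (zp x n).im) (by
      rw [bp_re, zp_re, Nat.cast_sub (by omega)]
      push_cast
      ring) (by
      rw [bp_im, zp_im, dst_cast]
      have e : ((h : ℝ) - 100) / 200 - ((n : ℝ) - 100) / 200 = ((h : ℝ) - n) / 200 := by ring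
      rw [e, abs_div, abs_of_pos (by norm_num : (0 : ℝ) < 200)])
  have q2 := qg_le (i := 100 - t) (j := dst h 100) (by omega) d2 (by omega)
    (x := 1 / 2 - (bp t h).re) (s := (bp t h).im) (by
      rw [bp_re, Nat.cast_sub (by omega)]
      push_cast
      ring) (by
      rw [bp_im, dst_cast, abs_div, abs_of_pos (by norm_num : (0 : ℝ) < 200)]
      norm_num)
  have e1 : ((Px t h x n : ℤ) : ℝ) ≤ (qg (t + 100 - x) (dst h n) : ℝ) +
      2 * (qg (100 - t) (dst h 100) : ℝ) +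
      3927 * ((t : ℝ) + x - 100) * ((h : ℝ) + n - 200) / 2 -
      (196350 * ((h : ℝ) - n) + 2389) := by
    have e2 : Px t h x n = (((qg (t + 100 - x) (dst h n) + 2 * qg (100 - t) (dst h 100) : ℕ) : ℤ) +
      ((3927 * (((t + x : ℕ) : ℤ) - 100)) * (((h + n : ℕ) : ℤ) - 200)) / 2) -
        (196350 * ((h : ℤ) - n) + 2389) := rfl
    have e3 : ((((3927 * (((t + x : ℕ) : ℤ) - 100)) * (((h + n : ℕ) : ℤ) - 200)) / 2 : ℤ) : ℝ) ≤
        3927 * ((t : ℝ) + x - 100) * ((h : ℝ) + n - 200) / 2 := by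
      have h3 : (((3927 * (((t + x : ℕ) : ℤ) - 100)) * (((h + n : ℕ) : ℤ) - 200)) / 2 : ℤ) * 2 ≤
        (3927 * (((t + x : ℕ) : ℤ) - 100)) * (((h + n : ℕ) : ℤ) - 200) :=
        Int.ediv_mul_le _ (by norm_num)
      have h4 : (((((3927 * (((t + x : ℕ) : ℤ) - 100)) * (((h + n : ℕ) : ℤ) - 200)) / 2 : ℤ) * 2 :
        ℤ) : ℝ) ≤ (((3927 * (((t + x : ℕ) : ℤ) - 100)) * (((h + n : ℕ) : ℤ) - 200) : ℤ) : ℝ) := by
        exact_mod_cast h3
      push_cast at h4 ⊢
      linarith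
    rw [e2]
    push_cast at e3 ⊢
    linarith
  have hpi1 := Real.pi_gt_d20
  have hpi2 := Real.pi_lt_d20
  have f1 : |((t : ℝ) + x - 100) * ((h : ℝ) + n - 200)| ≤ 199 * 60 := by
    rw [abs_mul]
    have ht0 : (0 : ℝ) ≤ t := Nat.cast_nonneg t
    have hx0 : (0 : ℝ) ≤ x := Nat.cast_nonneg x
    apply mul_le_mul _ _ (abs_nonneg _) (by norm_num)
    · rw [abs_le]
      constructor <;> linarith
    · rw [abs_le]
      constructor <;> linarith
  have f2 : |(3927 / 2 - 625 * Real.pi) * (((t : ℝ) + x - 100) * ((h : ℝ) + n - 200))| ≤ 60 := by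
    rw [abs_mul]
    have h8 : |3927 / 2 - 625 * Real.pi| ≤ 46 / 10000 := by
      rw [abs_le]
      constructor <;> linarith
    calc _ ≤ 46 / 10000 * (199 * 60 : ℝ) := mul_le_mul h8 f1 (abs_nonneg _) (by norm_num)
      _ ≤ 60 := by norm_num
  have f3 : |(196350 - 62500 * Real.pi) * ((h : ℝ) - n)| ≤ 28 := by
    rw [abs_mul]
    have h8 : |196350 - 62500 * Real.pi| ≤ 46 / 100 := by
      rw [abs_le]
      constructor <;> linarith
    have h9 : |(h : ℝ) - n| ≤ 60 := by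
      rw [abs_le]
      constructor <;> linarith
    calc _ ≤ 46 / 100 * (60 : ℝ) := mul_le_mul h8 h9 (abs_nonneg _) (by norm_num)
      _ ≤ 28 := by norm_num
  have e4 : 25000000 * psi (bp t h) (zp x n) =
      25000000 * fR ((bp t h).re - (zp x n).re) ((bp t h).im - (zp x n).im) +
      2 * (25000000 * fR (1 / 2 - (bp t h).re) (bp t h).im) +
      625 * Real.pi * (((t : ℝ) + x - 100) * ((h : ℝ) + n - 200)) -
        62500 * Real.pi * ((h : ℝ) - n) := by
    unfold psi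
    rw [bp_re, bp_im, zp_re, zp_im]
    ring
  rw [e4]
  have g1 := (abs_le.1 f2).2
  have g2 := (abs_le.1 f2).1
  have g3 := (abs_le.1 f3).1
  have g4 := (abs_le.1 f3).2
  linarith

/-- The other slot. -/
theorem Px_sound' {g s x n : ℕ} (hg : g ≤ 99) (hx : 101 ≤ g + x) (hx' : g + x ≤ 200)
    (s0 : 70 ≤ s) (s1 : s ≤ 130) (n0 : 70 ≤ n) (n1 : n ≤ 130) :
    ((Px g s (200 - x) (200 - n) : ℤ) : ℝ) ≤ 25000000 * psi (bp g s) (-zp x n) := by
  rw [neg_zp (by omega) (by omega)]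
  exact Px_sound hg (by omega) (by omega) s0 s1 (by omega) (by omega)

/-! ### The quadratic term -/

theorem sq_cast (a b : ℕ) : ((sq a b : ℕ) : ℝ) = ((a : ℝ) - b) ^ 2 := by
  have e : sq a b = dst a b * dst a b := rfl
  rw [e]
  push_cast
  rw [dst_cast, abs_mul_abs_self]
  ring

theorem sq_between {x a b c : ℝ} (h1 : a ≤ x) (h2 : x ≤ b) : (x - c) ^ 2 ≤
    max ((a - c) ^ 2) ((b - c) ^ 2) := by
  rcases le_total c x with h | h
  · exact le_max_of_le_right (by nlinarith)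
  · exact le_max_of_le_left (by nlinarith)

/-- **The edge potential at the base point.** -/
theorem fbx_sound {y : Rc} {ys : ℂ} {t h : ℕ} (hy : InY y ys) (h0 : 14 / 100 ≤ 1 / 2 - ys.re)
    (ht : t ≤ 72) (hh : dst h 100 ≤ 60) :
    25000000 * (fR (1 / 2 - (bp t h).re) (bp t h).im - Td (1 / 2 - ys) (1 / 2 - bp t h)) ≤
      ((fbx y t h : ℤ) : ℝ) := by
  have ht' : (t : ℝ) ≤ 72 := by exact_mod_cast ht
  obtain ⟨⟨y1, y2⟩, y3, y4⟩ := hy
  have hy0 : (0 : ℝ) ≤ y.t0 := Nat.cast_nonneg _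
  have q1 := le_qg (i := 100 - t) (j := dst h 100) (by omega) hh (by omega)
    (x := 1 / 2 - (bp t h).re) (s := (bp t h).im) (by
      rw [bp_re, Nat.cast_sub (by omega)]
      push_cast
      ring) (by
      rw [bp_im, dst_cast, abs_div, abs_of_pos (by norm_num : (0 : ℝ) < 200)]
      norm_num)
  have q2 := Td_ge (w0 := 1 / 2 - ys) (w := 1 / 2 - bp t h) (by simp; linarith)
    (by simp; linarith) (by simp; linarith) (by
      simp
      have : (0 : ℝ) ≤ t := Nat.cast_nonneg _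
      linarith)
  have e1 : ‖(1 / 2 - bp t h) - (1 / 2 - ys)‖ ^ 2 =
      (ys.re - (t : ℝ) / 200) ^ 2 + (ys.im - ((h : ℝ) - 100) / 200) ^ 2 := by
    rw [← normSq_eq_norm_sq, normSq_apply]
    have e2 : (1 / 2 - bp t h) - (1 / 2 - ys) = ys - bp t h := by ring
    rw [e2, sub_re, sub_im, bp_re, bp_im]
    ring
  rw [e1] at q2
  have e3 : ((fbx y t h : ℤ) : ℝ) = (qg (100 - t) (dst h 100) : ℝ) + 764 +
      84 * (max (((y.t0 : ℝ) - 5 * t) ^ 2) (((y.t1 : ℝ) - 5 * t) ^ 2) +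
        max (((y.e0 : ℝ) - 5 * h) ^ 2) (((y.e1 : ℝ) - 5 * h) ^ 2)) := by
    have e4 : fbx y t h = (((qg (100 - t) (dst h 100) + 764) +
      84 * (mxn (sq y.t0 (5 * t)) (sq y.t1 (5 * t)) +
        mxn (sq y.e0 (5 * h)) (sq y.e1 (5 * h))) : ℕ) : ℤ) := rfl
    rw [e4]
    push_cast
    rw [mxn_cast, mxn_cast, sq_cast, sq_cast, sq_cast, sq_cast]
    push_cast
    rfl
  rw [e3]
  have m1 := sq_between (x := 1000 * ys.re) (c := 5 * (t : ℝ)) (a := (y.t0 : ℝ)) (b := (y.t1 : ℝ))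
    (by linarith) (by linarith)
  have m2 := sq_between (x := 1000 * ys.im + 500) (c := 5 * (h : ℝ)) (a := (y.e0 : ℝ))
    (b := (y.e1 : ℝ)) (by linarith) (by linarith)
  have m3 : (1000 * ys.re - 5 * (t : ℝ)) ^ 2 = 1000000 * (ys.re - (t : ℝ) / 200) ^ 2 := by ring
  have m4 : (1000 * ys.im + 500 - 5 * (h : ℝ)) ^ 2 =
      1000000 * (ys.im - ((h : ℝ) - 100) / 200) ^ 2 := by ring
  rw [m3] at m1
  rw [m4] at m2
  have p1 : 0 ≤ (ys.re - (t : ℝ) / 200) ^ 2 := sq_nonneg _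
  have p2 : 0 ≤ (ys.im - ((h : ℝ) - 100) / 200) ^ 2 := sq_nonneg _
  linarith

end Pool.Agent.S5.Z4
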