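import Pool.Agent.S5.Z4.SlS

/-!
# The engine: one cell

The potential at a point is bounded by the values at the vertices of the cell: first on the horizontal
line, with the sags, then on the vertical lines.
-/

set_option autoImplicit false

namespace Pool.Agent.S5.Z4

/-- The height `h` is between two rows. -/
structure H2 (r0 r1 : Rw) (α h : ℝ) : Prop where
  a0 : 0 ≤ α
  a1 : α ≤ 1
  e : h = (1 - α) * ht r0.h + α * ht r1.h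
  l0 : ht r0.lo ≤ h
  u0 : h ≤ ht r0.hi
  l1 : ht r1.lo ≤ h
  u1 : h ≤ ht r1.hi
  d0 : 1000000 * (ht r1.h - ht r0.h) ^ 2 ≤ (r0.d : ℝ)
  d1 : 1000000 * (ht r1.h - ht r0.h) ^ 2 ≤ (r1.d : ℝ)

/-- The weighted sum of the four corners. -/
noncomputable def avg (α β f g h k : ℝ) : ℝ :=
  (1 - α) * ((1 - β) * f + β * g) + α * ((1 - β) * h + β * k)

theorem chord_mono {α f f' g g' : ℝ} (a0 : 0 ≤ α) (a1 : α ≤ 1) (hf : f ≤ f') (hg : g ≤ g') :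
    (1 - α) * f + α * g ≤ (1 - α) * f' + α * g' := by
  have h1 := mul_le_mul_of_nonneg_left hf (by linarith : 0 ≤ 1 - α)
  have h2 := mul_le_mul_of_nonneg_left hg a0
  linarith

theorem avg_mono {α β f f' g g' h h' k k' : ℝ} (a0 : 0 ≤ α) (a1 : α ≤ 1) (b0 : 0 ≤ β)
    (b1 : β ≤ 1) (hf : f ≤ f') (hg : g ≤ g') (hh : h ≤ h') (hk : k ≤ k') :
    avg α β f g h k ≤ avg α β f' g' h' k' :=
  chord_mono a0 a1 (chord_mono b0 b1 hf hg) (chord_mono b0 b1 hh hk)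

theorem avg_const (α β c : ℝ) : avg α β c c c c = c := by
  unfold avg
  ring

/-- The value of the lane `n` at a corner. -/
noncomputable def qf (n : ℕ) (h z : ℝ) (i : ℕ) (d : ℝ) : ℝ :=
  25000000 * FL n (h - z) + (sgv n i : ℝ) + (kv n : ℝ) * d / 16

/-- The value of the lane `n` of the edge. -/
noncomputable def ef (n : ℕ) (h : ℝ) (i : ℕ) (d : ℝ) : ℝ :=
  25000000 * FL n h + (sgv n i : ℝ) + (kv n : ℝ) * d / 16

theorem FLv {n : ℕ} (hn : n ≤ 35) {α β h0 h1 z0 z1 : ℝ} (a0 : 0 ≤ α) (a1 : α ≤ 1) (b0 : 0 ≤ β)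
    (b1 : β ≤ 1) : FL n (((1 - α) * h0 + α * h1) - ((1 - β) * z0 + β * z1)) ≤
      avg α β (FL n (h0 - z0)) (FL n (h0 - z1)) (FL n (h1 - z0)) (FL n (h1 - z1)) +
        (kv n : ℝ) / 400 * ((h1 - h0) ^ 2 + (z1 - z0) ^ 2) := by
  obtain ⟨ζ, hζ⟩ : ∃ ζ : ℝ, ζ = (1 - β) * z0 + β * z1 := ⟨_, rfl⟩
  have k1 := FL_s hn (a := h0 - ζ) (b := h1 - ζ) a0 a1
  have k2 := FL_s hn (a := h0 - z0) (b := h0 - z1) b0 b1
  have k3 := FL_s hn (a := h1 - z0) (b := h1 - z1) b0 b1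
  have e1 : (1 - α) * (h0 - ζ) + α * (h1 - ζ) = ((1 - α) * h0 + α * h1) - ζ := by ring
  have e2 : (1 - β) * (h0 - z0) + β * (h0 - z1) = h0 - ζ := by rw [hζ]; ring
  have e3 : (1 - β) * (h1 - z0) + β * (h1 - z1) = h1 - ζ := by rw [hζ]; ring
  rw [e1] at k1
  rw [e2] at k2
  rw [e3] at k3
  rw [← hζ]
  have k4 := chord_mono a0 a1 k2 k3
  unfold avg
  have e4 : (h1 - ζ - (h0 - ζ)) ^ 2 = (h1 - h0) ^ 2 := by ring
  have e5 : (h0 - z1 - (h0 - z0)) ^ 2 = (z1 - z0) ^ 2 := by ring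
  have e6 : (h1 - z1 - (h1 - z0)) ^ 2 = (z1 - z0) ^ 2 := by ring
  rw [e4] at k1
  rw [e5, e6] at k4
  linarith

section Cell

variable {r0 r1 : Rw} {x0 x1 : Cx} {α β h ζ : ℝ} {i00 i01 i10 i11 i0 i1 : ℕ}

/-- The lane `n` at the height `h - ζ`. -/
noncomputable def Qf (r0 r1 : Rw) (x0 x1 : Cx) (α β : ℝ) (i00 i01 i10 i11 n : ℕ) : ℝ :=
  avg α β (qf n (ht r0.h) (ht x0.z) i00 ((r0.d + x0.d : ℕ) : ℝ))
    (qf n (ht r0.h) (ht x1.z) i01 ((r0.d + x1.d : ℕ) : ℝ))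
    (qf n (ht r1.h) (ht x0.z) i10 ((r1.d + x0.d : ℕ) : ℝ))
    (qf n (ht r1.h) (ht x1.z) i11 ((r1.d + x1.d : ℕ) : ℝ))

/-- The lane `n` of the edge at the height `h`. -/
noncomputable def Ef (r0 r1 : Rw) (α : ℝ) (i0 i1 n : ℕ) : ℝ :=
  (1 - α) * ef n (ht r0.h) i0 (r0.d : ℝ) + α * ef n (ht r1.h) i1 (r1.d : ℝ)

theorem Qf_lb (H : H2 r0 r1 α h) (C : C2 x0 x1 β ζ) {n : ℕ} (hn : n ≤ 35) :
    25000000 * FL n (h - ζ) + avg α β (sgv n i00 : ℝ) (sgv n i01) (sgv n i10) (sgv n i11) ≤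
      Qf r0 r1 x0 x1 α β i00 i01 i10 i11 n := by
  have k1 := FLv hn (h0 := ht r0.h) (h1 := ht r1.h) (z0 := ht x0.z) (z1 := ht x1.z) H.a0 H.a1
    C.b0 C.b1
  rw [← H.e, ← C.e] at k1
  have hk : (0 : ℝ) ≤ kv n := Nat.cast_nonneg _
  have m : ∀ d e : ℕ, 1000000 * (ht r1.h - ht r0.h) ^ 2 ≤ (d : ℝ) →
      1000000 * (ht x1.z - ht x0.z) ^ 2 ≤ (e : ℝ) →
      25000000 * ((kv n : ℝ) / 400 * ((ht r1.h - ht r0.h) ^ 2 + (ht x1.z - ht x0.z) ^ 2)) ≤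
        (kv n : ℝ) * ((d + e : ℕ) : ℝ) / 16 := by
    intro d e hd he
    have h1 := mul_le_mul_of_nonneg_left (add_le_add hd he) hk
    push_cast
    linarith
  have m00 := m _ _ H.d0 C.d0
  have m01 := m _ _ H.d0 C.d1
  have m10 := m _ _ H.d1 C.d0
  have m11 := m _ _ H.d1 C.d1
  have k2 := avg_mono H.a0 H.a1 C.b0 C.b1 m00 m01 m10 m11
  rw [avg_const] at k2
  have k3 : Qf r0 r1 x0 x1 α β i00 i01 i10 i11 n =
      25000000 * avg α β (FL n (ht r0.h - ht x0.z)) (FL n (ht r0.h - ht x1.z))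
        (FL n (ht r1.h - ht x0.z)) (FL n (ht r1.h - ht x1.z)) +
      avg α β (sgv n i00 : ℝ) (sgv n i01) (sgv n i10) (sgv n i11) +
      avg α β ((kv n : ℝ) * ((r0.d + x0.d : ℕ) : ℝ) / 16) ((kv n : ℝ) * ((r0.d + x1.d : ℕ) : ℝ) / 16)
        ((kv n : ℝ) * ((r1.d + x0.d : ℕ) : ℝ) / 16) ((kv n : ℝ) * ((r1.d + x1.d : ℕ) : ℝ) / 16) := by
    unfold Qf qf avg
    ring
  rw [k3]
  linarith

theorem Ef_lb (H : H2 r0 r1 α h) {n : ℕ} (hn : n ≤ 35) :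
    25000000 * FL n h + ((1 - α) * (sgv n i0 : ℝ) + α * (sgv n i1 : ℝ)) ≤
      Ef r0 r1 α i0 i1 n := by
  have k1 := FL_s hn (a := ht r0.h) (b := ht r1.h) H.a0 H.a1
  rw [← H.e] at k1
  have hk : (0 : ℝ) ≤ kv n := Nat.cast_nonneg _
  have m : ∀ d : ℕ, 1000000 * (ht r1.h - ht r0.h) ^ 2 ≤ (d : ℝ) →
      25000000 * ((kv n : ℝ) / 400 * (ht r1.h - ht r0.h) ^ 2) ≤ (kv n : ℝ) * (d : ℝ) / 16 := by
    intro d hd
    have h1 := mul_le_mul_of_nonneg_left hd hk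
    linarith
  have k2 := chord_mono H.a0 H.a1 (m _ H.d0) (m _ H.d1)
  unfold Ef ef
  linarith

/-- The part with `y - z` on a horizontal line. -/
theorem fR_cell (H : H2 r0 r1 α h) (C : C2 x0 x1 β ζ) {n : ℕ} (hn : n < 35) {θ : ℝ} (t0 : 0 ≤ θ)
    (t1 : θ ≤ 1) (g00 : i00 ≤ 15 ∧ (i00 : ℝ) / 100 ≤ |h - ζ|)
    (g01 : i01 ≤ 15 ∧ (i01 : ℝ) / 100 ≤ |h - ζ|) (g10 : i10 ≤ 15 ∧ (i10 : ℝ) / 100 ≤ |h - ζ|)
    (g11 : i11 ≤ 15 ∧ (i11 : ℝ) / 100 ≤ |h - ζ|) :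
    25000000 * fR (((n : ℝ) - 15 + θ) / 20) (h - ζ) ≤
      (1 - θ) * Qf r0 r1 x0 x1 α β i00 i01 i10 i11 n +
        θ * Qf r0 r1 x0 x1 α β i00 i01 i10 i11 (n + 1) := by
  have q0 := Qf_lb (i00 := i00) (i01 := i01) (i10 := i10) (i11 := i11) H C (n := n) (by omega)
  have q1 := Qf_lb (i00 := i00) (i01 := i01) (i10 := i10) (i11 := i11) H C (n := n + 1) (by omega)
  have q := chord_mono t0 t1 q0 q1
  have key : ∀ i : ℕ, i ≤ 15 ∧ (i : ℝ) / 100 ≤ |h - ζ| →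
      25000000 * fR (((n : ℝ) - 15 + θ) / 20) (h - ζ) -
        25000000 * ((1 - θ) * FL n (h - ζ) + θ * FL (n + 1) (h - ζ)) ≤
      (1 - θ) * (sgv n i : ℝ) + θ * (sgv (n + 1) i : ℝ) := by
    intro i hi
    have e1 := FL_x hn (by omega : i ≤ 30) t0 t1 hi.2
    have e2 : (sgc n i : ℝ) ≤ (sgv n i : ℝ) := by exact_mod_cast sgc_le_sgv n i
    have e3 : (sgc n i : ℝ) ≤ (sgv (n + 1) i : ℝ) := by exact_mod_cast sgc_le_sgv_succ n i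
    have e4 := chord_mono t0 t1 e2 e3
    have e5 : (1 - θ) * (sgc n i : ℝ) + θ * (sgc n i : ℝ) = (sgc n i : ℝ) := by ring
    rw [e5] at e4
    linarith
  have k := avg_mono H.a0 H.a1 C.b0 C.b1 (key _ g00) (key _ g01) (key _ g10) (key _ g11)
  rw [avg_const] at k
  have e6 : avg α β ((1 - θ) * (sgv n i00 : ℝ) + θ * (sgv (n + 1) i00 : ℝ))
      ((1 - θ) * (sgv n i01 : ℝ) + θ * (sgv (n + 1) i01 : ℝ))
      ((1 - θ) * (sgv n i10 : ℝ) + θ * (sgv (n + 1) i10 : ℝ))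
      ((1 - θ) * (sgv n i11 : ℝ) + θ * (sgv (n + 1) i11 : ℝ)) =
      (1 - θ) * avg α β (sgv n i00 : ℝ) (sgv n i01) (sgv n i10) (sgv n i11) +
      θ * avg α β (sgv (n + 1) i00 : ℝ) (sgv (n + 1) i01) (sgv (n + 1) i10) (sgv (n + 1) i11) := by
    unfold avg
    ring
  rw [e6] at k
  linarith

/-- The part of the edge on a horizontal line. -/
theorem eR_cell (H : H2 r0 r1 α h) {n : ℕ} (hn : n < 35) {θ : ℝ} (t0 : 0 ≤ θ) (t1 : θ ≤ 1)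
    (g0 : i0 ≤ 15 ∧ (i0 : ℝ) / 100 ≤ |h|) (g1 : i1 ≤ 15 ∧ (i1 : ℝ) / 100 ≤ |h|) :
    25000000 * fR (((n : ℝ) - 15 + θ) / 20) h ≤
      (1 - θ) * Ef r0 r1 α i0 i1 n + θ * Ef r0 r1 α i0 i1 (n + 1) := by
  have q0 := Ef_lb (i0 := i0) (i1 := i1) H (n := n) (by omega)
  have q1 := Ef_lb (i0 := i0) (i1 := i1) H (n := n + 1) (by omega)
  have q := chord_mono t0 t1 q0 q1
  have key : ∀ i : ℕ, i ≤ 15 ∧ (i : ℝ) / 100 ≤ |h| →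
      25000000 * fR (((n : ℝ) - 15 + θ) / 20) h -
        25000000 * ((1 - θ) * FL n h + θ * FL (n + 1) h) ≤
      (1 - θ) * (sgv n i : ℝ) + θ * (sgv (n + 1) i : ℝ) := by
    intro i hi
    have e1 := FL_x hn (by omega : i ≤ 30) t0 t1 hi.2
    have e2 : (sgc n i : ℝ) ≤ (sgv n i : ℝ) := by exact_mod_cast sgc_le_sgv n i
    have e3 : (sgc n i : ℝ) ≤ (sgv (n + 1) i : ℝ) := by exact_mod_cast sgc_le_sgv_succ n i
    have e4 := chord_mono t0 t1 e2 e3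
    have e5 : (1 - θ) * (sgc n i : ℝ) + θ * (sgc n i : ℝ) = (sgc n i : ℝ) := by ring
    rw [e5] at e4
    linarith
  have k := chord_mono H.a0 H.a1 (key _ g0) (key _ g1)
  linarith

end Cell

/-! ### The triangles -/

/-- The value of the linear interpolation. -/
noncomputable def Bary (v j : ℕ) (a b : ℝ) (F : ℕ → ℕ → ℝ) : ℝ :=
  if b ≤ a then (1 - a) * F v j + (a - b) * F (v + 1) j + b * F (v + 1) (j + 1)
  else (1 - b) * F v j + (b - a) * F v (j + 1) + a * F (v + 1) (j + 1)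

/-- The vertices with weights. -/
def Vx (v j : ℕ) (a b : ℝ) (v' j' : ℕ) : Prop :=
  (b ≤ a ∧ ((v' = v ∧ j' = j ∧ a < 1) ∨ (v' = v + 1 ∧ j' = j ∧ b < a) ∨
    (v' = v + 1 ∧ j' = j + 1 ∧ 0 < b))) ∨
  (a < b ∧ ((v' = v ∧ j' = j ∧ b < 1) ∨ (v' = v ∧ j' = j + 1) ∨ (v' = v + 1 ∧ j' = j + 1 ∧ 0 < a)))

theorem wmul_le {w x y : ℝ} (h0 : 0 ≤ w) (h : 0 < w → x ≤ y) : w * x ≤ w * y := by
  rcases h0.lt_or_eq with h1 | h1
  · exact mul_le_mul_of_nonneg_left (h h1) h0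
  · rw [← h1, zero_mul, zero_mul]

theorem Bary_mono {v j : ℕ} {a b : ℝ} {F G : ℕ → ℕ → ℝ} (a0 : 0 ≤ a) (a1 : a ≤ 1) (b0 : 0 ≤ b)
    (b1 : b ≤ 1) (h : ∀ v' j', Vx v j a b v' j' → F v' j' ≤ G v' j') :
    Bary v j a b F ≤ Bary v j a b G := by
  unfold Bary
  rcases le_or_gt b a with c | c
  · rw [if_pos c, if_pos c]
    have k1 := wmul_le (by linarith : 0 ≤ 1 - a) fun h1 : 0 < 1 - a =>
      h v j (Or.inl ⟨c, Or.inl ⟨rfl, rfl, by linarith⟩⟩)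
    have k2 := wmul_le (by linarith : 0 ≤ a - b) fun h1 : 0 < a - b =>
      h (v + 1) j (Or.inl ⟨c, Or.inr (Or.inl ⟨rfl, rfl, by linarith⟩)⟩)
    have k3 := wmul_le b0 fun h1 : 0 < b =>
      h (v + 1) (j + 1) (Or.inl ⟨c, Or.inr (Or.inr ⟨rfl, rfl, h1⟩)⟩)
    linarith
  · rw [if_neg (not_le.2 c), if_neg (not_le.2 c)]
    have k1 := wmul_le (by linarith : 0 ≤ 1 - b) fun h1 : 0 < 1 - b =>
      h v j (Or.inr ⟨c, Or.inl ⟨rfl, rfl, by linarith⟩⟩)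
    have k2 := wmul_le (by linarith : 0 ≤ b - a) fun h1 : 0 < b - a =>
      h v (j + 1) (Or.inr ⟨c, Or.inr (Or.inl ⟨rfl, rfl⟩)⟩)
    have k3 := wmul_le a0 fun h1 : 0 < a =>
      h (v + 1) (j + 1) (Or.inr ⟨c, Or.inr (Or.inr ⟨rfl, rfl, h1⟩)⟩)
    linarith

theorem Bary_add (v j : ℕ) (a b : ℝ) (F G : ℕ → ℕ → ℝ) :
    Bary v j a b (fun v j => F v j + G v j) = Bary v j a b F + Bary v j a b G := by
  unfold Bary
  split_ifs <;> ring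

theorem Bary_mul (v j : ℕ) (a b c : ℝ) (F : ℕ → ℕ → ℝ) :
    Bary v j a b (fun v j => c * F v j) = c * Bary v j a b F := by
  unfold Bary
  split_ifs <;> ring

theorem Bary_const (v j : ℕ) (a b c : ℝ) : Bary v j a b (fun _ _ => c) = c := by
  unfold Bary
  split_ifs <;> ring

theorem Bary_v (v j : ℕ) (a b : ℝ) (F : ℕ → ℝ) :
    Bary v j a b (fun v _ => F v) = (1 - a) * F v + a * F (v + 1) := by
  unfold Bary
  split_ifs <;> ring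

theorem Bary_j (v j : ℕ) (a b : ℝ) (F : ℕ → ℝ) :
    Bary v j a b (fun _ j => F j) = (1 - b) * F j + b * F (j + 1) := by
  unfold Bary
  split_ifs <;> ring

section Tri

variable {r0 r1 : Rw} {x0 x1 : Cx} {α β h ζ : ℝ} {i00 i01 i10 i11 i0 i1 : ℕ}

theorem fR_Bary (H : H2 r0 r1 α h) (C : C2 x0 x1 β ζ) {v j : ℕ} (hv : v ≤ 14) (hj : j ≤ 19)
    {a b x X : ℝ} (a0 : 0 ≤ a) (a1 : a ≤ 1) (b0 : 0 ≤ b) (b1 : b ≤ 1)
    (hx : x = ((v : ℝ) - 5 + a) / 20) (hX : X = ((j : ℝ) - 10 + b) / 20)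
    (g00 : i00 ≤ 15 ∧ (i00 : ℝ) / 100 ≤ |h - ζ|)
    (g01 : i01 ≤ 15 ∧ (i01 : ℝ) / 100 ≤ |h - ζ|) (g10 : i10 ≤ 15 ∧ (i10 : ℝ) / 100 ≤ |h - ζ|)
    (g11 : i11 ≤ 15 ∧ (i11 : ℝ) / 100 ≤ |h - ζ|) :
    25000000 * fR (x - X) (h - ζ) ≤
      Bary v j a b (fun v j => Qf r0 r1 x0 x1 α β i00 i01 i10 i11 (20 + v - j)) := by
  unfold Bary
  rcases le_or_gt b a with c | c
  · rw [if_pos c]
    have k := fR_cell H C (n := 20 + v - j) (by omega) (θ := a - b) (by linarith) (by linarith)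
      g00 g01 g10 g11
    have e1 : (((20 + v - j : ℕ) : ℝ) - 15 + (a - b)) / 20 = x - X := by
      rw [Nat.cast_sub (by omega : j ≤ 20 + v), hx, hX]
      push_cast
      ring
    rw [e1] at k
    have e2 : 20 + v - j + 1 = 20 + (v + 1) - j := by omega
    have e3 : 20 + (v + 1) - (j + 1) = 20 + v - j := by omega
    rw [e2] at k
    beta_reduce
    rw [e3]
    linarith
  · rw [if_neg (not_le.2 c)]
    have k := fR_cell H C (n := 20 + v - (j + 1)) (by omega) (θ := 1 + a - b) (by linarith)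
      (by linarith) g00 g01 g10 g11
    have e1 : (((20 + v - (j + 1) : ℕ) : ℝ) - 15 + (1 + a - b)) / 20 = x - X := by
      rw [Nat.cast_sub (by omega : j + 1 ≤ 20 + v), hx, hX]
      push_cast
      ring
    rw [e1] at k
    have e2 : 20 + v - (j + 1) + 1 = 20 + v - j := by omega
    have e3 : 20 + (v + 1) - (j + 1) = 20 + v - j := by omega
    rw [e2] at k
    beta_reduce
    rw [e3]
    linarith

theorem eR_Bary (H : H2 r0 r1 α h) {v : ℕ} (hv : v ≤ 14) {a x : ℝ} (a0 : 0 ≤ a) (a1 : a ≤ 1)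
    (hx : x = ((v : ℝ) - 5 + a) / 20) (g0 : i0 ≤ 15 ∧ (i0 : ℝ) / 100 ≤ |h|)
    (g1 : i1 ≤ 15 ∧ (i1 : ℝ) / 100 ≤ |h|) :
    25000000 * fR (1 / 2 - x) h ≤
      (1 - a) * Ef r0 r1 α i0 i1 (30 - v) + a * Ef r0 r1 α i0 i1 (30 - (v + 1)) := by
  have k := eR_cell H (n := 30 - (v + 1)) (by omega) (θ := 1 - a) (by linarith) (by linarith) g0 g1
  have e1 : (((30 - (v + 1) : ℕ) : ℝ) - 15 + (1 - a)) / 20 = 1 / 2 - x := by
    rw [Nat.cast_sub (by omega : v + 1 ≤ 30), hx]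
    push_cast
    ring
  rw [e1] at k
  have e2 : 30 - (v + 1) + 1 = 30 - v := by omega
  rw [e2] at k
  linarith

/-- The total at a corner. -/
noncomputable def WT (r : Rw) (x : Cx) (i k : ℕ) (cu l s c : ℝ) (v j : ℕ) : ℝ :=
  qf (20 + v - j) (ht r.h) (ht x.z) i ((r.d + x.d : ℕ) : ℝ) +
    25000000 * (Real.pi * ((((v : ℝ) + j - 15) / 20) * (ht r.h + ht x.z)) -
      Real.pi / 2 * (ht r.h - ht x.z)) +
    cu * ef (30 - v) (ht r.h) k (r.d : ℝ) - 25000000 * (l * (((v : ℝ) - 5) / 20 - s)) + c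

/-- The total at a vertex. -/
noncomputable def TT (r0 r1 : Rw) (x0 x1 : Cx) (α β h ζ : ℝ) (i00 i01 i10 i11 i0 i1 : ℕ)
    (cu l s K : ℝ) (v j : ℕ) : ℝ :=
  Qf r0 r1 x0 x1 α β i00 i01 i10 i11 (20 + v - j) + cu * Ef r0 r1 α i0 i1 (30 - v) +
    (25000000 * (Real.pi * ((((v : ℝ) + j - 15) / 20) * (h + ζ)) - Real.pi / 2 * (h - ζ)) -
      25000000 * (l * (((v : ℝ) - 5) / 20 - s)) + K)

theorem TT_eq (H : H2 r0 r1 α h) (C : C2 x0 x1 β ζ) (cu l s c0 c1 : ℝ) (v j : ℕ) :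
    TT r0 r1 x0 x1 α β h ζ i00 i01 i10 i11 i0 i1 cu l s ((1 - α) * c0 + α * c1) v j =
      avg α β (WT r0 x0 i00 i0 cu l s c0 v j) (WT r0 x1 i01 i0 cu l s c0 v j)
        (WT r1 x0 i10 i1 cu l s c1 v j) (WT r1 x1 i11 i1 cu l s c1 v j) := by
  unfold TT Qf Ef WT
  rw [H.e, C.e]
  unfold avg
  ring

theorem WT_le {r : Rw} {Y M : ℕ → ℕ} {x : Cx} {i k cu t0 v j : ℕ} {l c : ℝ}
    (h1 : VB1 r Y x i v j (M j)) (h2 : YB1 cu r.h k r.d v (Y (21 * v + j)) l t0 c) :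
    WT r x i k (cu : ℝ) l ((t0 : ℝ) / 200) c v j ≤ (M j : ℝ) - 9688676416 := by
  unfold VB1 wv at h1
  unfold YB1 at h2
  unfold WT qf ef
  linarith

theorem TT_Bary {x X a b : ℝ} {v j : ℕ} (hx : x = ((v : ℝ) - 5 + a) / 20)
    (hX : X = ((j : ℝ) - 10 + b) / 20) (cu l s K : ℝ) :
    Bary v j a b (TT r0 r1 x0 x1 α β h ζ i00 i01 i10 i11 i0 i1 cu l s K) =
      Bary v j a b (fun v j => Qf r0 r1 x0 x1 α β i00 i01 i10 i11 (20 + v - j)) +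
        cu * ((1 - a) * Ef r0 r1 α i0 i1 (30 - v) + a * Ef r0 r1 α i0 i1 (30 - (v + 1))) +
        (25000000 * (Real.pi * ((x + X) * (h + ζ)) - Real.pi / 2 * (h - ζ)) -
          25000000 * (l * (x - s)) + K) := by
  rw [hx, hX]
  unfold Bary TT
  split_ifs <;> push_cast <;> ring

/-- **One cell.** -/
theorem cell_main {Y0 Y1 M0 M1 : ℕ → ℕ} {P Q : ℕ → ℕ → Prop} {v j : ℕ} {a b x X : ℝ}
    {cu L0 L1 t0 a' b' : ℕ} {c0 c1 : ℤ} {l K : ℝ} (H : H2 r0 r1 α h) (C : C2 x0 x1 β ζ)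
    (hv : v ≤ 14) (hj : j ≤ 19) (a0 : 0 ≤ a) (a1 : a ≤ 1) (b0 : 0 ≤ b) (b1 : b ≤ 1)
    (hx : x = ((v : ℝ) - 5 + a) / 20) (hX : X = ((j : ℝ) - 10 + b) / 20)
    (l0 : (L0 : ℝ) / 1000 - 5 ≤ l) (l1 : l ≤ (L1 : ℝ) / 1000 - 5)
    (p0 : PB r0 Y0 cu L0 L1 t0 a' b' c0) (p1 : PB r1 Y1 cu L0 L1 t0 a' b' c1)
    (r00 : RB r0 Y0 x0 M0 P) (r01 : RB r0 Y0 x1 M1 P) (r10 : RB r1 Y1 x0 M0 Q)
    (r11 : RB r1 Y1 x1 M1 Q)
    (hV : ∀ v' j', Vx v j a b v' j' → (a' ≤ v' ∧ v' ≤ b') ∧ P v' j' ∧ Q v' j')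
    (hK : K ≤ (1 - α) * (c0 : ℝ) + α * (c1 : ℝ)) :
    25000000 * (fR (x - X) (h - ζ) + cu * fR (1 / 2 - x) h +
      (Real.pi * ((x + X) * (h + ζ)) - Real.pi / 2 * (h - ζ)) - l * (x - (t0 : ℝ) / 200)) + K ≤
      25000000 * ((1 - β) * IP M0 j b + β * IP M1 j b) := by
  obtain ⟨i0, i0a, i0b, e0⟩ := p0
  obtain ⟨i1, i1a, i1b, e1⟩ := p1
  obtain ⟨i00, ⟨g00a, g00b⟩, f00⟩ := r00
  obtain ⟨i01, ⟨g01a, g01b⟩, f01⟩ := r01
  obtain ⟨i10, ⟨g10a, g10b⟩, f10⟩ := r10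
  obtain ⟨i11, ⟨g11a, g11b⟩, f11⟩ := r11
  have k1 := fR_Bary H C hv hj a0 a1 b0 b1 hx hX
    ⟨g00a, g00b h ζ H.l0 H.u0 C.l0 C.u0⟩ ⟨g01a, g01b h ζ H.l0 H.u0 C.l1 C.u1⟩
    ⟨g10a, g10b h ζ H.l1 H.u1 C.l0 C.u0⟩ ⟨g11a, g11b h ζ H.l1 H.u1 C.l1 C.u1⟩
  have k2 := eR_Bary H hv a0 a1 hx ⟨i0a, i0b h H.l0 H.u0⟩ ⟨i1a, i1b h H.l1 H.u1⟩
  have hcu : (0 : ℝ) ≤ cu := Nat.cast_nonneg _
  have k3 := mul_le_mul_of_nonneg_left k2 hcu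
  have k4 := TT_Bary (r0 := r0) (r1 := r1) (x0 := x0) (x1 := x1) (α := α) (β := β) (h := h)
    (ζ := ζ) (i00 := i00) (i01 := i01) (i10 := i10) (i11 := i11) (i0 := i0) (i1 := i1) hx hX
    (cu : ℝ) l ((t0 : ℝ) / 200) ((1 - α) * (c0 : ℝ) + α * (c1 : ℝ))
  have k5 : Bary v j a b (TT r0 r1 x0 x1 α β h ζ i00 i01 i10 i11 i0 i1 (cu : ℝ) l ((t0 : ℝ) / 200)
      ((1 - α) * (c0 : ℝ) + α * (c1 : ℝ))) ≤
      Bary v j a b (fun _ j => (1 - β) * ((M0 j : ℝ) - 9688676416) +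
        β * ((M1 j : ℝ) - 9688676416)) := by
    refine Bary_mono a0 a1 b0 b1 fun v' j' hv' => ?_
    obtain ⟨⟨q1, q2⟩, q3, q4⟩ := hV v' j' hv'
    have q5 : v' < 16 ∧ j' < 21 := by
      rcases hv' with ⟨-, ⟨c, c', -⟩ | ⟨c, c', -⟩ | ⟨c, c', -⟩⟩ |
        ⟨-, ⟨c, c', -⟩ | ⟨c, c'⟩ | ⟨c, c', -⟩⟩ <;> omega
    rw [TT_eq H C]
    have w00 := WT_le (f00 v' q5.1 j' q5.2 q3) (e0 v' q1 q2 j' q5.2 l l0 l1)
    have w01 := WT_le (f01 v' q5.1 j' q5.2 q3) (e0 v' q1 q2 j' q5.2 l l0 l1)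
    have w10 := WT_le (f10 v' q5.1 j' q5.2 q4) (e1 v' q1 q2 j' q5.2 l l0 l1)
    have w11 := WT_le (f11 v' q5.1 j' q5.2 q4) (e1 v' q1 q2 j' q5.2 l l0 l1)
    refine (avg_mono H.a0 H.a1 C.b0 C.b1 w00 w01 w10 w11).trans (le_of_eq ?_)
    unfold avg
    ring
  rw [Bary_j, k4] at k5
  have k6 : (1 - b) * ((1 - β) * ((M0 j : ℝ) - 9688676416) + β * ((M1 j : ℝ) - 9688676416)) +
      b * ((1 - β) * ((M0 (j + 1) : ℝ) - 9688676416) + β * ((M1 (j + 1) : ℝ) - 9688676416)) =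
      25000000 * ((1 - β) * IP M0 j b + β * IP M1 j b) := by
    unfold IP
    ring
  rw [k6] at k5
  linarith

end Tri

end Pool.Agent.S5.Z4
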