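import Pool.Agent.S5.Z4.Tre
import Pool.Agent.S5.E.T.PackT

/-!
# Inner nodes with four half twists: the cover check
-/

set_option autoImplicit false

namespace Pool.Agent.S5.Z4

open Pool.Agent.S5.E (Vt types)

/-- The smaller cell is in the larger. -/
def sbc (c c' : Ce) : Bool := Nat.ble c'.a0 c.a0 && (Nat.ble c.a1 c'.a1 && (Nat.ble c'.f0 c.f0 &&
  Nat.ble c.f1 c'.f1))

/-- Intersection of cells. -/
def isc (c c' : Ce) : Ce := ⟨bif Nat.ble c.a0 c'.a0 then c'.a0 else c.a0,
  bif Nat.ble c.a1 c'.a1 then c.a1 else c'.a1, bif Nat.ble c.f0 c'.f0 then c'.f0 else c.f0,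
  bif Nat.ble c.f1 c'.f1 then c.f1 else c'.f1⟩

/-- An entry of a list of cells. -/
def gc (l : List Ce) (j : ℕ) : Ce := l.getD j ⟨0, 0, 0, 0⟩

/-- The cells contain the regions. -/
def ckc (T : Vt → Vt → E.B2.Rg) (s o : Bool) (K C : List Ce) : Bool :=
  (types s).all fun J => !J.ok || (ofR (T ⟨4, s, some o⟩ J) (gc K J.ix) &&
    ofR (T J ⟨4, s, some o⟩) (gc C J.ix))

/-- The certificate covers the pair. -/
def cvp (K C K' C' : List Ce) (j k : ℕ) (p : Pq) : Bool :=
  Nat.beq p.j j && (Nat.beq p.k k && (sbc (isc (gc K j) (gc K' k)) p.c &&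
    (sbc (gc C j) p.l && sbc (gc C' k) p.r)))

/-- All pairs outside `X` are covered, directly by `L` or in the mirror image by `L'`. -/
def cov (s o : Bool) (K C K' C' : List Ce) (L L' : List Pq) (X : ℕ → ℕ → Bool) : Bool :=
  (types s).all fun J => !J.ok || Num.fN (fun j => (types o).all fun J' => !J'.ok ||
    Num.fN (fun k => X j k || (L.any (cvp K C K' C' j k) || L'.any (cvp K' C' K C k j))) J'.ix) J.ix

end Pool.Agent.S5.Z4
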