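import Pool.Agent.S5.Z4.TreS
import Pool.Agent.S5.Z4.CvD
import Pool.Agent.S5.I.Lo4

/-!
# Inner nodes with four half twists: the class
-/

set_option autoImplicit false

namespace Pool.Agent.S5.Z4

open Pool.Agent.H63.VC3 Pool.Agent.S3 Complex
open Pool.Agent.S5.E (Vt kd aF nlF nrF nF vL vR types)
open Pool.Agent.S5.E.B2 (InR)
open Pool.Agent.S5.G (kp Sd sy O4 N4 zz4)

/-! ### The mirror image -/

theorem V4_swap {zs : ℂ} {sy sb : Slt} (h : V4 (-zs) sb sy) : V4 zs sy sb where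
  U y z b wy w wb py pb h1 h2 h3 h4 h5 := by
    have h6 := LimR_neg h5
    rcases h.U b (-z) y wb w wy pb py h2 h1 h4 h3 (by rwa [neg_im]) with h7 | h7
    · left
      rw [Ez4_swap]
      linarith
    · right
      obtain ⟨k1, k2, k3, k4, k5, k6⟩ := h7
      exact ⟨k3, neg_injective k2, k1, k5, k4, k6⟩
  P y z b wy wb py pb h1 h2 h3 h4 h5 h6 h7 h8 := by
    have h9 := h.N b (-z) y wb wy pb py h2 h1 h4 h3 (by rw [neg_im, h5, neg_zero])
      (by rw [neg_re]; linarith) (by rw [neg_re]; linarith) (by rw [neg_re]; linarith)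
    rw [Ez4_swap]
    linarith
  N y z b wy wb py pb h1 h2 h3 h4 h5 h6 h7 h8 := by
    have h9 := h.P b (-z) y wb wy pb py h2 h1 h4 h3 (by rw [neg_im, h5, neg_zero])
      (by rw [neg_re]; linarith) (by rw [neg_re]; linarith) (by rw [neg_re]; linarith)
    rw [Ez4_swap]
    linarith

theorem V5_swap {zs : ℂ} {sy sb : Slt} (h : V5 (-zs) sb sy) : V5 zs sy sb := by
  refine ⟨V4_swap h.v, ?_, ?_⟩
  · have := h.b1
    rw [neg_re] at this
    linarith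
  · have := h.y1
    rw [neg_re] at this
    linarith

/-! ### The types -/

theorem kd_ok {J : Vt} (hJ : J.ok = true) : KdOK (kdn J.s J.ix) (nt J) := by
  obtain ⟨a, s, o⟩ := J
  unfold E.Vt.ok at hJ
  simp only [Bool.and_eq_true, Nat.ble_eq] at hJ
  obtain ⟨h1, h2, -⟩ := hJ
  constructor
  all_goals
    interval_cases a <;> rcases o with _ | _ | _ <;> simp [kdn, nt, E.Vt.ix] <;> decide

theorem kdn_S (s : Bool) (j : ℕ) : (kdn s j).S = s := rfl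

theorem sbc_ok {c c' : Ce} {w : ℂ} (h : sbc c c' = true) (hw : InC c w) : InC c' w := by
  unfold sbc at h
  simp only [Bool.and_eq_true, Nat.ble_eq] at h
  obtain ⟨h1, h2, h3, h4⟩ := h
  obtain ⟨⟨a1, a2⟩, a3, a4⟩ := hw
  have h1' : (c'.a0 : ℝ) ≤ c.a0 := by exact_mod_cast h1
  have h2' : (c.a1 : ℝ) ≤ c'.a1 := by exact_mod_cast h2
  have h3' : (c'.f0 : ℝ) ≤ c.f0 := by exact_mod_cast h3
  have h4' : (c.f1 : ℝ) ≤ c'.f1 := by exact_mod_cast h4
  exact ⟨⟨by linarith, by linarith⟩, by linarith, by linarith⟩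

theorem isc_ok {c c' : Ce} {w : ℂ} (h : InC c w) (h' : InC c' w) : InC (isc c c') w := by
  obtain ⟨⟨a1, a2⟩, a3, a4⟩ := h
  obtain ⟨⟨b1, b2⟩, b3, b4⟩ := h'
  unfold isc
  refine ⟨⟨?_, ?_⟩, ?_, ?_⟩ <;> dsimp only
  · cases Nat.ble c.a0 c'.a0 <;> assumption
  · cases Nat.ble c.a1 c'.a1 <;> assumption
  · cases Nat.ble c.f0 c'.f0 <;> assumption
  · cases Nat.ble c.f1 c'.f1 <;> assumption

theorem ckc_ok {T : Vt → Vt → E.B2.Rg} {s o : Bool} {K C : List Ce} (h : ckc T s o K C = true)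
    {J : Vt} (hJ : J.ok = true) (hs : J.s = s) {u w : ℂ}
    (hu : InR (T ⟨4, s, some o⟩ J) u.re (-u.im)) (hw : InR (T J ⟨4, s, some o⟩) w.re (-w.im)) :
    InC (gc K J.ix) u ∧ InC (gc C J.ix) w := by
  have h1 := List.all_eq_true.1 h J (hs ▸ E.mem_types hJ)
  rw [hJ] at h1
  simp only [Bool.not_true, Bool.false_or, Bool.and_eq_true] at h1
  exact ⟨ofR_sound h1.1 hu, ofR_sound h1.2 hw⟩

/-- The three points are in the cells of a certificate. -/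
def Hull (s o : Bool) (J K : Vt) (c d w : ℂ) : Prop :=
  ∃ p : Pq, Cr s o p ∧ p.j = J.ix ∧ p.k = K.ix ∧ InC p.c w ∧ InC p.l c ∧ InC p.r d

theorem cvp_ok {T : Vt → Vt → E.B2.Rg} {s o : Bool} {K C K' C' : List Ce} {p : Pq}
    {J J' : Vt} (h : cvp K C K' C' J.ix J'.ix p = true) (hp : Cr s o p)
    (k1 : ckc T s o K C = true) (k2 : ckc T o s K' C' = true) (hJ : J.ok = true)
    (hs : J.s = s) (hJ' : J'.ok = true) (ho : J'.s = o) {c d w : ℂ}
    (r1 : InR (T ⟨4, s, some o⟩ J) w.re (-w.im)) (r2 : InR (T J ⟨4, s, some o⟩) c.re (-c.im))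
    (r3 : InR (T ⟨4, o, some s⟩ J') w.re (-w.im)) (r4 : InR (T J' ⟨4, o, some s⟩) d.re (-d.im)) :
    Hull s o J J' c d w := by
  unfold cvp at h
  simp only [Bool.and_eq_true] at h
  obtain ⟨h4, h5, h6, h7, h8⟩ := h
  obtain ⟨i1, i2⟩ := ckc_ok k1 hJ hs r1 r2
  obtain ⟨i3, i4⟩ := ckc_ok k2 hJ' ho r3 r4
  exact ⟨p, hp, Nat.eq_of_beq_eq_true h4, Nat.eq_of_beq_eq_true h5, sbc_ok h6 (isc_ok i1 i3),
    sbc_ok h7 i2, sbc_ok h8 i4⟩

theorem cov_ok {T : Vt → Vt → E.B2.Rg} {s o : Bool} {K C K' C' : List Ce} {L L' : List Pq}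
    {X : ℕ → ℕ → Bool} (h : cov s o K C K' C' L L' X = true) (hL : ∀ p ∈ L, Cr s o p)
    (hL' : ∀ p ∈ L', Cr o s p) (k1 : ckc T s o K C = true) (k2 : ckc T o s K' C' = true)
    {J J' : Vt} (hJ : J.ok = true) (hs : J.s = s) (hJ' : J'.ok = true) (ho : J'.s = o)
    (hX : X J.ix J'.ix = false) {c d w : ℂ}
    (r1 : InR (T ⟨4, s, some o⟩ J) w.re (-w.im)) (r2 : InR (T J ⟨4, s, some o⟩) c.re (-c.im))
    (r3 : InR (T ⟨4, o, some s⟩ J') w.re (-w.im)) (r4 : InR (T J' ⟨4, o, some s⟩) d.re (-d.im)) :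
    Hull s o J J' c d w ∨ Hull o s J' J d c w := by
  have h1 := List.all_eq_true.1 h J (hs ▸ E.mem_types hJ)
  rw [hJ, Num.fN_eq] at h1
  simp only [Bool.not_true, Bool.false_or] at h1
  have h2 := List.all_eq_true.1 h1 J' (ho ▸ E.mem_types hJ')
  rw [hJ', Num.fN_eq, hX] at h2
  simp only [Bool.not_true, Bool.false_or, Bool.or_eq_true] at h2
  rcases h2 with h2 | h2
  · obtain ⟨p, hp, h3⟩ := List.any_eq_true.1 h2
    exact Or.inl (cvp_ok h3 (hL p hp) k1 k2 hJ hs hJ' ho r1 r2 r3 r4)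
  · obtain ⟨p, hp, h3⟩ := List.any_eq_true.1 h2
    exact Or.inr (cvp_ok h3 (hL' p hp) k2 k1 hJ' ho hJ hs r3 r4 r1 r2)

theorem Hull.v5 {s o : Bool} {J K : Vt} {c d p q z : ℂ} {z1 z1' : ℝ}
    (h : Hull s o J K c d (cos z)) (n : NF s o c d p q z) (hJ : J.ok = true) (hs : J.s = s)
    (hK : K.ok = true) (ho : K.s = o) :
    V5 (zz4 p q z) (slt s (nt J) z1 c p z) (slt o (nt K) z1' d q z) := by
  obtain ⟨x, hx, e1, e2, i1, i2, i3⟩ := h
  have h1 := kd_ok hJ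
  have h2 := kd_ok hK
  rw [hs, ← e1] at h1
  rw [ho, ← e2] at h2
  exact Cl.sound (A := kdn s x.j) (B := kdn o x.k) hx h1 h2 n i1 i2 i3

/-! ### From the context -/

variable {T : Vt → Vt → E.B2.Rg} {R : ℕ} {a : ℕ → ℕ} {S : ℕ → Bool} {r : ℕ → ℤ}
  {z ql qr : ℕ → ℂ} {zF : Fin (R + 1) → ℂ}

/-- The mirror image of `nf`. -/
theorem nf' (h : Ctx T R a S r z ql qr zF) {i : ℕ} (hi : i + 1 < R) (ha : a (i + 1) = 4) :
    NF (S (i + 1)) (S i) (cos (z (i + 2))) (cos (z i)) (qr (i + 1)) (ql (i + 1)) (z (i + 1)) := by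
  have e := h.hg.crt.eq (i + 1) hi.le
  rw [ha] at e
  push_cast at e
  have e' : 4 * z (i + 1) = Real.pi + I * (qr (i + 1) + ql (i + 1)) := by
    rw [e]
    ring
  have ho := (h.hg.bx.four (i + 1) (by omega) hi ha).symm
  obtain ⟨e1, e2, e3⟩ := z4_slopes (ho.N4 e')
  have k1 := h.hg.lamL (i := i) (by omega)
  have k2 := h.hg.lamR (i := i + 1) hi
  exact ⟨h.sdr hi, h.sdl (by omega), ho, e', ho.N4 e', k2.trans e1, k1.trans e2, e3⟩

/-- The node is in a certificate, directly or in the mirror image. -/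
def Hl (R : ℕ) (a : ℕ → ℕ) (S : ℕ → Bool) (z : ℕ → ℂ) (i : ℕ) : Prop :=
  Hull (S i) (S (i + 1)) (vR a S i) (vL R a S (i + 2)) (cos (z i)) (cos (z (i + 2)))
      (cos (z (i + 1))) ∨
    Hull (S (i + 1)) (S i) (vL R a S (i + 2)) (vR a S i) (cos (z (i + 2))) (cos (z i))
      (cos (z (i + 1)))

theorem Hl.v5 (h : Ctx T R a S r z ql qr zF) {i : ℕ} (hi : i + 1 < R) (ha : a (i + 1) = 4)
    (H : Hl R a S z i) {z1 z1' : ℝ} :
    V5 (zz4 (ql (i + 1)) (qr (i + 1)) (z (i + 1)))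
      (slt (S i) (nt (vR a S i)) z1 (cos (z i)) (ql (i + 1)) (z (i + 1)))
      (slt (S (i + 1)) (nt (vL R a S (i + 2))) z1' (cos (z (i + 2))) (qr (i + 1)) (z (i + 1))) := by
  have o1 := h.toPre.ok_r (i := i) (by omega)
  have o2 := h.toPre.ok_l (i := i + 1) hi
  rcases H with H | H
  · exact H.v5 (nf h hi ha) o1 rfl o2 rfl
  · apply V5_swap
    rw [← zz4_swap]
    exact H.v5 (nf' h hi ha) o2 rfl o1 rfl

/-- All pairs outside `X`. -/
theorem hl_of {K C K' C' : List Ce} {L L' : List Pq} {X : ℕ → ℕ → Bool}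
    (h : Ctx T R a S r z ql qr zF) {i : ℕ} (hi : i + 1 < R) (ha : a (i + 1) = 4) {s o : Bool}
    (hs : S i = s) (ho : S (i + 1) = o) (hc : cov s o K C K' C' L L' X = true)
    (hL : ∀ p ∈ L, Cr s o p) (hL' : ∀ p ∈ L', Cr o s p) (k1 : ckc T s o K C = true)
    (k2 : ckc T o s K' C' = true) (hX : X (vR a S i).ix (vL R a S (i + 2)).ix = false) :
    Hl R a S z i := by
  subst hs ho
  have e1 : vL R a S (i + 1) = ⟨4, S i, some (S (i + 1))⟩ := by
    rw [Pre.vL_inner hi, ha]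
    rfl
  have e2 : vR a S (i + 1) = ⟨4, S (i + 1), some (S i)⟩ := by
    rw [Pre.vR_inner, ha]
    rfl
  have r1 := h.toPre.rr (i := i) (by omega)
  have r2 := h.toPre.rl (i := i) (by omega)
  have r3 := h.toPre.rl (i := i + 1) hi
  have r4 := h.toPre.rr (i := i + 1) hi
  rw [e1] at r1 r2
  rw [e2] at r3 r4
  exact cov_ok hc hL hL' k1 k2 (h.toPre.ok_r (by omega)) rfl (h.toPre.ok_l hi) rfl hX r1 r2 r3 r4

/-- The quadratic bound. -/
theorem V5.quad {sy sb : Slt} {zs : ℂ} (h : V5 zs sy sb) (a0 : 0 < sy.ys.re)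
    (a1 : sy.ys.re < 1 / 2) (b0 : 0 < sb.ys.re) (b1 : sb.ys.re < 1 / 2)
    (c0 : 0 < (sy.ys - zs).re) (d0 : 0 < (zs + sb.ys).re) :
    ∃ c : ℝ, 0 < c ∧ ∃ ρ : ℝ, 0 < ρ ∧ ∀ s x t : ℝ, |s| ≤ ρ → |x| ≤ ρ → |t| ≤ ρ →
      (sy.ex = false → s = 0) → (sb.ex = false → t = 0) →
      Ez4 sy.ys zs sb.ys (sy.ys + s) (zs + x) (sb.ys + t) ≤ -(c * (s ^ 2 + x ^ 2 + t ^ 2)) := by
  have r1 : ∀ w : ℂ, (1 / 2 - w).re = 1 / 2 - w.re := fun w => by simp
  have y1 := h.y1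
  have z1 := h.b1
  have c0' := c0
  have d0' := d0
  rw [sub_re] at c0'
  rw [add_re] at d0'
  have ka : 0 < Kc (1 / 2 - sy.ys) := Kc_pos' (by rw [r1]; linarith) (by rw [r1]; linarith)
  have kb : 0 < Kc (1 / 2 - sb.ys) := Kc_pos' (by rw [r1]; linarith) (by rw [r1]; linarith)
  have pc : ∀ {w : ℂ}, 0 < w.re → w.re ≤ 1 / 2 → 0 ≤ Kc w := by
    intro w w0 w1
    rcases w1.lt_or_eq with w1 | w1
    · exact (Kc_pos' w0 w1).le
    · unfold Kc Lgd
      rw [w1]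
      have : Real.sin (2 * Real.pi * (1 / 2)) = 0 := by
        rw [show 2 * Real.pi * (1 / 2) = Real.pi by ring, Real.sin_pi]
      rw [this]
      simp
  have kc : 0 ≤ Kc (sy.ys - zs) := pc c0 (by rw [sub_re]; linarith)
  have kd : 0 ≤ Kc (zs + sb.ys) := pc d0 (by rw [add_re]; linarith)
  have hk : 0 < Kc (sy.ys - zs) ∨ 0 < Kc (zs + sb.ys) := by
    by_cases hc : sy.ys.re - zs.re < 1 / 2
    · exact Or.inl (Kc_pos' c0 (by rw [sub_re]; linarith))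
    · exact Or.inr (Kc_pos' d0 (by rw [add_re]; linarith))
  refine quad_z4 (Kok_of ?_ ?_) (Kok_of ?_ ?_) (Kok_of ?_ ?_) (Kok_of ?_ ?_) ?_ ?_ ?_
  · rw [r1]; linarith
  · rw [r1]; linarith
  · rw [r1]; linarith
  · rw [r1]; linarith
  · exact c0
  · rw [sub_re]; linarith
  · exact d0
  · rw [add_re]; linarith
  · linarith
  · linarith
  · rcases hk with hk | hk
    · have e1 : 0 < 2 * Kc (1 / 2 - sy.ys) * Kc (sy.ys - zs) /
          (2 * Kc (1 / 2 - sy.ys) + Kc (sy.ys - zs)) := by positivity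
      have e2 : 0 ≤ 2 * Kc (1 / 2 - sb.ys) * Kc (zs + sb.ys) /
          (2 * Kc (1 / 2 - sb.ys) + Kc (zs + sb.ys)) := by positivity
      linarith
    · have e1 : 0 ≤ 2 * Kc (1 / 2 - sy.ys) * Kc (sy.ys - zs) /
          (2 * Kc (1 / 2 - sy.ys) + Kc (sy.ys - zs)) := by positivity
      have e2 : 0 < 2 * Kc (1 / 2 - sb.ys) * Kc (zs + sb.ys) /
          (2 * Kc (1 / 2 - sb.ys) + Kc (zs + sb.ys)) := by positivity
      linarith

theorem slB_four {i : ℕ} (hi : i + 1 < R) (ha : a (i + 1) = 4) :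
    slB R a S (flO R a S) z ql qr (i + 1) =
      slt (S i) (nt (vR a S i)) (z1O R a S i) (cos (z i)) (ql (i + 1)) (z (i + 1)) := by
  unfold slB
  rw [flO_four hi ha, if_neg (by simp), Ctx.slL_mk, ntG_l (S := S) (by omega)]
  rfl

theorem slO_four {i : ℕ} (hi : i + 1 < R) (ha : a (i + 1) = 4) :
    slO R a S (flO R a S) z ql qr (i + 1) =
      slt (S (i + 1)) (nt (vL R a S (i + 2))) (z1O R a S (i + 2)) (cos (z (i + 2))) (qr (i + 1))
        (z (i + 1)) := by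
  unfold slO
  rw [flO_four hi ha, if_neg (by simp), Ctx.slR_mk hi, ntG_r (S := S) (by omega)]
  rfl

theorem nt_four {i : ℕ} (hi : i + 1 < R) (ha : a (i + 1) = 4) : ntG R a (i + 1) = ⟨4, false⟩ := by
  unfold ntG
  rw [ha, decide_eq_false (by omega)]
  rfl

theorem qB_four {i : ℕ} (hi : i + 1 < R) (ha : a (i + 1) = 4) :
    qB' (flO R a S) ql qr (i + 1) = ql (i + 1) := by
  unfold qB'
  rw [flO_four hi ha, if_neg (by simp)]

theorem qO_four {i : ℕ} (hi : i + 1 < R) (ha : a (i + 1) = 4) :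
    qO' (flO R a S) ql qr (i + 1) = qr (i + 1) := by
  unfold qO'
  rw [flO_four hi ha, if_neg (by simp)]

/-- **An inner node with four half twists.** -/
theorem Hl.z4 {u v : Bool → Bool → ℤ} (c : Ck4 T u v) (h : Ctx T R a S r z ql qr zF) {i : ℕ}
    (hi : i + 1 < R) (ha : a (i + 1) = 4) (H : Hl R a S z i) : Z4 R a S z ql qr (i + 1) := by
  obtain ⟨t1, t2⟩ := c.low h hi ha ⟨4, false⟩
  rw [slB_four hi ha, slO_four hi ha, qB_four hi ha, qO_four hi ha] at t1 t2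
  have n := nf h hi ha
  have v := H.v5 h hi ha (z1 := z1O R a S i) (z1' := z1O R a S (i + 2))
  have q := v.quad n.n.sp.sy_re.1 n.n.b0 n.n.sr.sy_re.1 n.n.b1 n.n.g0.1 n.n.g1.1
  refine (Z4_iff (z := z) (ql := ql) (qr := qr) (S := S) hi ha).2 ?_
  have e : z1O R a S (i + 1) = 2 / 5 := z1O_ne R S (by omega)
  rw [e]
  exact ⟨v.v.U, v.v.P, v.v.N, t1, t2, q⟩

end Pool.Agent.S5.Z4
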