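import Pool.Agent.S5.Z4.Tl

/-!
# The engine: programs

Heights are in `1 / 1000`, with the offset `1000`; slopes in `1 / 1000`, with the offset `5000`; the
unit of the values is `1 / 25000000`. The lane `21 v + j` belongs to the vertex `y.re = v / 20 - 1 / 4`,
`z.re = j / 20 - 1 / 2`. All programs are written with the functions which the kernel evaluates
directly, with forced evaluation of the arguments.
-/

set_option autoImplicit false

noncomputable section

namespace Pool.Agent.S5.Z4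

open Pool.Agent.S5.Num (fN)

/-- A window of a table. -/
def rd (L i : Nat) : Nat := Nat.land (Nat.shiftRight L (Nat.mul 13440 i)) M336

/-- Distance. -/
def dst (a b : Nat) : Nat := Nat.add (Nat.sub a b) (Nat.sub b a)

/-- Minimum. -/
def mnn (a b : Nat) : Nat := cond (Nat.ble a b) a b

/-- The table `L` at the height `s / 1000`. -/
def tabF (L c s : Nat) (k : Nat → Bool) : Bool :=
  fN (fun q => fN (fun m => fN k (Nat.add (Nat.mul (Nat.sub 5 m) (rd L q))
    (Nat.mul m (rd L (Nat.succ q))))) (Nat.sub s (Nat.mul 5 q))) (mnn (Nat.div s 5) c)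

/-- The mask of the lanes `a ≤ v ≤ b`. -/
def msk (a b : Nat) : Nat :=
  Nat.sub (Nat.pow 2 (Nat.mul 840 (Nat.succ b))) (Nat.pow 2 (Nat.mul 840 a))

/-! ### Rows -/

/-- A row: `y` the packed values, `h` the height, `lo`, `hi` the range of the heights, `d` the square
of the step, `f` a flat. -/
structure Rw where
  y : Nat
  h : Nat
  lo : Nat
  hi : Nat
  d : Nat
  f : Bool

/-- A height of the other variable. -/
structure Cx where
  z : Nat
  lo : Nat
  hi : Nat
  d : Nat

/-- The values of a row. -/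
def wrow (r : Rw) (x : Cx) (k : Nat → Bool) : Bool :=
  fN (fun hz => fN (fun i => fN (fun a => tabF TL 59 (dst r.h x.z) fun V =>
    fN k (Nat.sub (Nat.add V (Nat.add (rd SGL i) (Nat.add (Nat.mul a KVL)
      (Nat.add (Nat.mul (Nat.mul 3927 hz) XVJ) (Nat.add r.y
        (Nat.mul (Nat.add (Nat.mul 39270 x.z) 1191551924) O336))))))
      (Nat.add (Nat.mul 7854000 XVJ)
        (Nat.mul (Nat.add (Nat.mul 39270 r.h) (Nat.mul 58905 hz)) O336))))
    (Nat.div (Nat.add (Nat.add r.d x.d) 40) 16))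
    (mnn 15 (Nat.div (Nat.add (Nat.sub r.lo x.hi) (Nat.sub x.lo r.hi)) 10)))
    (Nat.add r.h x.z)

/-- The maxima of the rows over the columns: all rows. -/
def ctx1 (R : List Rw) (x : Cx) (k : Nat → Bool) : Bool :=
  List.rec (motive := fun _ => Nat → Bool) (fun A => fN k (cmx H336 A))
    (fun r _ ih A => wrow r x fun W => fN ih (mxv H336 A W)) R 0

/-- The maxima of the rows over the columns: all rows, and without the right part of the flats. -/
def ctx2 (R : List Rw) (x : Cx) (k : Nat → Nat → Bool) : Bool :=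
  List.rec (motive := fun _ => Nat → Nat → Bool)
    (fun A B => fN (fun a => fN (fun b => k a b) (cmx H336 B)) (cmx H336 A))
    (fun r _ ih A B => wrow r x fun W =>
      fN (fun A' => fN (fun B' => ih A' B') (mxv H336 B (cond r.f (Nat.land W (msk 0 5)) W)))
        (mxv H336 A W)) R 0 0

/-! ### The rows of a slot -/

/-- The parameters of a slot. -/
structure Sp where
  kd : Nat
  S : Bool
  re : Bool
  rz : Bool
  L0 : Nat
  L1 : Nat
  T0 : Nat
  T1 : Nat
  M0 : Int
  M1 : Int
  e0 : Nat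
  e1 : Nat
  t0 : Nat
  h0 : Nat
  D : Int
  i0 : Int
  i1 : Int
  fub : Int

/-- Maximum. -/
def imx (a b : Int) : Int := Int.add a (Int.ofNat (Int.toNat (Int.sub b a)))

/-- The slope terms for one slope. -/
def al1 (L t0 : Nat) : Nat :=
  Nat.sub (Nat.add (Nat.mul (Nat.mul 1250 L) XR)
      (Nat.mul (Nat.add 4294967296 (Nat.mul 625000 (Nat.sub 100 t0))) O336))
    (Nat.add (Nat.mul 6250000 XR) (Nat.mul (Nat.mul (Nat.mul 125 L) (Nat.sub 100 t0)) O336))

/-- The slope terms. -/
def alv (L0 L1 t0 : Nat) (k : Nat → Bool) : Bool :=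
  fN (fun A => fN (fun B => fN k (mxv H336 A B)) (al1 L1 t0)) (al1 L0 t0)

/-- The values of the edge at the height `h`. -/
def ubv (h lo hi d : Nat) (k : Nat → Bool) : Bool :=
  fN (fun i => fN (fun a => tabF UL 29 (dst h 1000) fun U =>
    fN k (Nat.add U (Nat.add (rd SUL i) (Nat.mul a KUL))))
    (Nat.div (Nat.add d 40) 16))
    (mnn 15 (Nat.div (Nat.add (Nat.sub lo 1000) (Nat.sub 1000 hi)) 10))

/-- A piece of a row: `c` the constant, `A` the slope terms, `m` the mask. -/
def pcv (cu U A : Nat) (c : Int) (m : Nat) (k : Nat → Bool) : Bool :=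
  fN (fun n => cond (Nat.ble n 17179869184)
    (fN k (Nat.land (Nat.add (Nat.mul cu U) (Nat.add A (Nat.mul n O336))) m)) false)
    (Int.toNat (Int.sub (Int.add c 4294967296) (Int.mul (Int.ofNat cu) 25000000)))

/-- The height of a nonnegative number. -/
def iz (n : Nat) : Int := Int.sub (Int.ofNat n) 1000

def cfl (p : Sp) (dm : Int) (h : Nat) : Int :=
  Int.add (Int.mul (Int.mul 5 p.D) (Int.sub (Int.ofNat h) (Int.ofNat p.h0))) dm

def cl1 (p : Sp) (m : Int) (e h : Nat) : Int :=
  Int.add (Int.mul (Int.mul 25 m) (Int.sub (Int.ofNat h) (Int.ofNat e)))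
    (Int.mul (Int.mul 5 p.D) (Int.sub (Int.ofNat e) (Int.ofNat p.h0)))

def clg (p : Sp) (dm : Int) (h : Nat) : Int :=
  Int.add (imx (imx (cl1 p p.M0 p.e0 h) (cl1 p p.M1 p.e0 h))
    (imx (cl1 p p.M0 p.e1 h) (cl1 p p.M1 p.e1 h))) dm

def cti (p : Sp) (h : Nat) : Int :=
  Int.add p.fub (imx (Int.mul (Int.mul (-25) p.i0) (Int.sub (Int.ofNat h) (Int.ofNat p.h0)))
    (Int.mul (Int.mul (-25) p.i1) (Int.sub (Int.ofNat h) (Int.ofNat p.h0))))

/-- The maximum of two natural numbers. -/
def mxn (a b : Nat) : Nat := cond (Nat.ble a b) b a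

def sq (a b : Nat) : Nat := Nat.mul (dst a b) (dst a b)

/-- Appending a row. -/
def rwk (y h lo hi d : Nat) (f : Bool) (R : List Rw) : List Rw := ⟨y, h, lo, hi, d, f⟩ :: R

/-- The row of a flat at the height `h`. -/
def rfl_ (p : Sp) (A B : Nat) (dm : Int) (h : Nat) (R : List Rw) (k : List Rw → Bool) : Bool :=
  ubv h p.e0 p.e1 (sq p.e0 p.e1) fun U =>
    cond (Nat.beq p.kd 2)
      (pcv 1 U B (Int.add (cfl p dm h) (cti p h)) (msk 0 8) fun y1 =>
        pcv 2 U A (cfl p dm h) (msk 8 15) fun y2 =>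
          fN (fun y => k (rwk y h p.e0 p.e1 (sq p.e0 p.e1) true R)) (mxv H336 y1 y2))
      (pcv 2 U A (cfl p dm h) M336 fun y => k (rwk y h p.e0 p.e1 (sq p.e0 p.e1) true R))

/-- The lanes `0` and `15`. -/
def ylr (p : Sp) (A B U : Nat) (c : Int) (h : Nat) (k : Nat → Bool) : Bool :=
  cond (Nat.beq p.kd 2)
    (pcv 1 U B (Int.add c (cti p h)) (msk 0 0) fun y1 =>
      pcv 2 U A c (msk 15 15) fun y2 => fN k (mxv H336 y1 y2))
    (cond (Nat.beq p.kd 1)
      (pcv 2 U A (Int.add c 6000000) (msk 0 0) fun y1 =>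
        pcv 2 U A c (msk 15 15) fun y2 => fN k (mxv H336 y1 y2))
      (pcv 2 U A c (Nat.add (msk 0 0) (msk 15 15)) k))

/-- The row of a leg at the height `h`. -/
def rlg (p : Sp) (A B : Nat) (dm : Int) (lo hi d h : Nat) (R : List Rw)
    (k : List Rw → Bool) : Bool :=
  ubv h lo hi d fun U => ylr p A B U (clg p dm h) h fun y => k (rwk y h lo hi d false R)

/-- The row at the height `0`. -/
def rze (p : Sp) (A B : Nat) (c : Int) (lo hi d : Nat) (R : List Rw) (k : List Rw → Bool) : Bool :=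
  ubv 1000 lo hi d fun U => ylr p A B U c 1000 fun y1 =>
    pcv 2 U A (Int.sub c (cond p.S 5000000 3750000)) (cond p.re (msk 10 14) 0) fun y2 =>
      pcv 2 U A (Int.sub c (cond p.S 2000000 750000)) (cond p.rz (msk 12 14) 0) fun y3 =>
        fN (fun y => k (rwk y 1000 lo hi d false R)) (mxv H336 y1 (mxv H336 y2 y3))

/-- The row at the height `± 3 / 40`. -/
def rv1 (p : Sp) (A B : Nat) (c : Int) (lo hi h : Nat) (R : List Rw) (k : List Rw → Bool) : Bool :=
  ubv h lo hi 5625 fun U => ylr p A B U (Int.sub c 5890275) h fun y =>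
    k (rwk y h lo hi 5625 false R)

/-- The row at the height `± 3 / 20`; `low`: the other side of the flat. -/
def rv2 (p : Sp) (A B : Nat) (c : Int) (low : Bool) (lo hi h : Nat) (R : List Rw)
    (k : List Rw → Bool) : Bool :=
  ubv h lo hi 5625 fun U =>
    cond (Nat.beq p.kd 2)
      (pcv 1 U B (Int.add (Int.sub c 11780550) (cti p h)) (msk 0 5) fun y1 =>
        pcv 2 U A (Int.sub c 11780550) (msk 5 15) fun y2 =>
          fN (fun y => k (rwk y h lo hi 5625 false R)) (mxv H336 y1 y2))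
      (cond (Nat.beq p.kd 1)
        (cond low
          (pcv 2 U A (Int.sub c 5780550) (msk 0 5) fun y1 =>
            pcv 1 U B (Int.add (Int.sub c 8780550) (cti p h)) (msk 5 15) fun y2 =>
              pcv 2 U A (Int.sub c 13030550) (msk 15 15) fun y3 =>
                fN (fun y => k (rwk y h lo hi 5625 false R)) (mxv H336 y1 (mxv H336 y2 y3)))
          (pcv 2 U A (Int.sub c 5780550) (msk 0 0) fun y1 =>
            pcv 2 U A (Int.sub c 11780550) M336 fun y2 =>
              fN (fun y => k (rwk y h lo hi 5625 false R)) (mxv H336 y1 y2)))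
        (pcv 2 U A (Int.sub c 11780550) M336 fun y => k (rwk y h lo hi 5625 false R)))

/-- The checks of the sizes. -/
def spk (p : Sp) : Bool :=
  (Nat.ble p.L0 10000 && Nat.ble p.L1 10000 && Nat.ble p.T0 10000 && Nat.ble p.T1 10000) &&
    (Nat.ble p.t0 100 && Nat.ble p.e0 p.e1 && Nat.ble 850 p.e0 && Nat.ble p.e1 1150)

/-- The rows of a slot; `low`: the flat is above the real line. -/
def srow (p : Sp) (up : Bool) (k : List Rw → Nat → Bool) : Bool :=
  alv p.L0 p.L1 p.t0 fun A => alv p.T0 p.T1 p.t0 fun B =>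
    fN (fun dm' => fN (fun lo => fN (fun hi => fN (fun d =>
      rfl_ p A B (Int.ofNat dm') p.e0 [] fun R =>
      rfl_ p A B (Int.ofNat dm') p.e1 R fun R =>
      rlg p A B (Int.ofNat dm') lo hi d p.e0 R fun R =>
      rlg p A B (Int.ofNat dm') lo hi d p.e1 R fun R =>
      rze p A B (clg p (Int.ofNat dm') 1000) (mnn lo 925) (mxn hi 1075) (mxn d 5625) R fun R =>
      rv1 p A B (clg p (Int.ofNat dm') 1000) 1000 1150 1075 R fun R =>
      rv1 p A B (clg p (Int.ofNat dm') 1000) 850 1000 925 R fun R =>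
      rv2 p A B (clg p (Int.ofNat dm') 1000) (!up) 1075 1150 1150 R fun R =>
      rv2 p A B (clg p (Int.ofNat dm') 1000) up 850 925 850 R fun R =>
      ubv 1000 1000 1000 0 fun U =>
        pcv 2 U A (Int.add (clg p (Int.ofNat dm') 1000)
          (cond p.S 2000000 (cond (Nat.beq p.kd 1) 500000 750000))) (msk 13 15) fun o => k R o)
      (mxn (sq p.e0 p.e1) (mxn (sq p.e0 1000) (sq p.e1 1000)))) (mxn p.e1 1000))
      (mnn p.e0 1000)) (Nat.mul 4 (mxn (dst p.e0 p.h0) (dst p.e1 p.h0)))

end Pool.Agent.S5.Z4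

end
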