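import Pool.Agent.S5.Z4.EgD
import Pool.Agent.S5.Z4.TlE
import Pool.Agent.S5.Z4.TlF

/-!
# The engine: the edge part
-/

set_option autoImplicit false

namespace Pool.Agent.S5.Z4

open Pool.Agent.S5.Num (fN)

private theorem fN_y {α : Type} (f : ℕ → α) (n : ℕ) : fN f n = f n := by
  cases n <;> rfl

/-! ### The tables -/

private theorem blh_cut {f : ℕ → ℕ} {n k : ℕ} (h : n ≤ 2 ^ k) :
    blh (cut f n) k 0 = pk (2 ^ 40) n f := by
  obtain ⟨m, hm⟩ : ∃ m, 2 ^ k = n + m := ⟨2 ^ k - n, by omega⟩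
  rw [blh_eq, hm, pk_split]
  have h1 : pk (2 ^ 40) n (fun i => cut f n (0 + i)) = pk (2 ^ 40) n f := by
    refine pk_congr fun i hi => ?_
    unfold cut
    rw [zero_add, ble_false hi, cond_false]
  have h2 : pk (2 ^ 40) m (fun i => cut f n (0 + (n + i))) = 0 := by
    have : pk (2 ^ 40) m (fun i => cut f n (0 + (n + i))) = pk (2 ^ 40) m (fun _ => 0) := by
      refine pk_congr fun i _ => ?_
      unfold cut
      rw [zero_add, ble_true (by omega), cond_true]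
    rw [this]
    unfold pk
    simp
  rw [h1, h2, mul_zero, add_zero]

private theorem tabR {L k n c : ℕ} {f : ℕ → ℕ} (hL : L = blh (cut f n) k 0) (h : n ≤ 2 ^ k)
    (hf : ∀ i < n, f i ≤ c) : Rp n L f c := ⟨hL.trans (blh_cut h), hf⟩

private theorem M336_two : M336 = 2 ^ (40 * 336) - 1 := by decide +kernel

private theorem M336_msk : M336 = msk 0 15 := by decide +kernel

private theorem rdR {L N c q : ℕ} {f : ℕ → ℕ} (hL : Rp (336 * N) L f c) (hc : c < 2 ^ 40) (hq : q < N) :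
    Rp 336 (rd L q) (fun i => f (336 * q + i)) c := by
  obtain ⟨l, hl⟩ : ∃ l, 336 * N = 336 * q + 336 + l := ⟨336 * N - (336 * q + 336), by omega⟩
  rw [hl] at hL
  have h := hL.window hc
  have e : rd L q = (L >>> (40 * (336 * q))) &&& (2 ^ (40 * 336) - 1) := by
    rw [← M336_two]
    have : 40 * (336 * q) = 13440 * q := by ring
    rw [this]
    rfl
  rw [e]
  exact h

private theorem rd_ul {q : ℕ} (hq : q ≤ 30) :
    Rp 336 (rd UL q) (fun i => lfd (30 - i / 21) q) (2 ^ 24) := by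
  have h1 : Rp (336 * 31) UL ulF (2 ^ 24) := tabR UL_eq (by norm_num) fun i hi =>
    (lfd_lt (by omega) (by omega)).le
  refine (rdR h1 (by norm_num) (by omega)).congr fun i hi => ?_
  unfold ulF
  rw [Nat.mul_add_mod, Nat.mod_eq_of_lt hi, Nat.mul_add_div (by norm_num), Nat.div_eq_of_lt hi,
    add_zero]

private theorem rd_sul {q : ℕ} (hq : q ≤ 15) :
    Rp 336 (rd SUL q) (fun i => sgv (30 - i / 21) q) 460000 := by
  have h1 : Rp (336 * 16) SUL suF 460000 := tabR SUL_eq (by norm_num) fun i _ => sgv_lt _ _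
  refine (rdR h1 (by norm_num) (by omega)).congr fun i hi => ?_
  unfold suF
  rw [Nat.mul_add_mod, Nat.mod_eq_of_lt hi, Nat.mul_add_div (by norm_num), Nat.div_eq_of_lt hi,
    add_zero]

private theorem kulR : Rp 336 KUL kuF 992 := tabR KUL_eq (by norm_num) fun _ _ => kv_le _

private theorem xrR : Rp 336 XR xrF 15 := tabR XR_eq (by norm_num) fun _ _ => Nat.sub_le _ _

private theorem oneR : Rp 336 O336 (fun _ => 1) 1 := tabR O336_eq (by norm_num) fun _ _ => le_rfl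

private theorem hH : H336 = pk (2 ^ 40) 336 fun _ => 2 ^ 39 := by
  rw [H336_eq, blh_cut (by norm_num)]
  exact pk_congr fun _ _ => by norm_num

private theorem pk_ones {b : ℕ} (hb : 0 < b) (n : ℕ) : pk b n (fun _ => b - 1) + 1 = b ^ n := by
  induction n with
  | zero => rfl
  | succ n ih =>
    obtain ⟨c, rfl⟩ : ∃ c, b = c + 1 := ⟨b - 1, by omega⟩
    rw [Nat.add_sub_cancel] at ih ⊢
    rw [pk_succ, pow_succ]
    generalize (c + 1) ^ n = x at ih ⊢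
    rw [add_right_comm, ih]
    ring

/-- The lanes of a mask. -/
def mkF (a b i : ℕ) : ℕ := if a ≤ i / 21 ∧ i / 21 ≤ b then 2 ^ 40 - 1 else 0

private theorem mskR {a b : ℕ} (hab : a ≤ b) (hb : b ≤ 15) : Rp 336 (msk a b) (mkF a b) (2 ^ 40 - 1) := by
  refine ⟨?_, fun i _ => ?_⟩
  · have e : 336 = 21 * a + (21 * (b + 1 - a) + (336 - 21 * (b + 1))) := by omega
    rw [e, pk_split, pk_split]
    have h1 : pk (2 ^ 40) (21 * a) (mkF a b) = 0 := by
      have : pk (2 ^ 40) (21 * a) (mkF a b) = pk (2 ^ 40) (21 * a) (fun _ => 0) := by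
        refine pk_congr fun i hi => ?_
        unfold mkF
        rw [if_neg]
        rintro ⟨h, -⟩
        omega
      rw [this]
      unfold pk
      simp
    have h2 : pk (2 ^ 40) (21 * (b + 1 - a)) (fun i => mkF a b (21 * a + i)) =
        pk (2 ^ 40) (21 * (b + 1 - a)) (fun _ => 2 ^ 40 - 1) := by
      refine pk_congr fun i hi => ?_
      unfold mkF
      rw [if_pos]
      constructor <;> omega
    have h3 : pk (2 ^ 40) (336 - 21 * (b + 1)) (fun i => mkF a b (21 * a + (21 * (b + 1 - a) + i))) = 0 := by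
      have : pk (2 ^ 40) (336 - 21 * (b + 1)) (fun i => mkF a b (21 * a + (21 * (b + 1 - a) + i))) =
          pk (2 ^ 40) (336 - 21 * (b + 1)) (fun _ => 0) := by
        refine pk_congr fun i hi => ?_
        unfold mkF
        rw [if_neg]
        rintro ⟨-, h⟩
        omega
      rw [this]
      unfold pk
      simp
    rw [h1, h2, h3, mul_zero, add_zero, zero_add]
    have h4 := pk_ones (b := 2 ^ 40) (by norm_num) (21 * (b + 1 - a))
    have h5 : pk (2 ^ 40) (21 * (b + 1 - a)) (fun _ => 2 ^ 40 - 1) = (2 ^ 40) ^ (21 * (b + 1 - a)) - 1 := by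
      omega
    rw [h5, Nat.mul_sub, mul_one, ← pow_add]
    have e1 : 21 * a + 21 * (b + 1 - a) = 21 * (b + 1) := by omega
    rw [e1, ← pow_mul, ← pow_mul]
    have e2 : 40 * (21 * (b + 1)) = 840 * (b + 1) := by ring
    have e3 : 40 * (21 * a) = 840 * a := by ring
    rw [e2, e3]
    rfl
  · unfold mkF
    split_ifs
    · exact le_rfl
    · exact Nat.zero_le _

/-! ### The values of the edge -/

private theorem mnn_eq (a b : ℕ) : mnn a b = min a b := by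
  unfold mnn
  rcases le_total a b with h | h
  · rw [ble_true h, cond_true, min_eq_left h]
  · rcases Nat.eq_or_lt_of_le h with h' | h'
    · subst h'
      rw [ble_true le_rfl, cond_true, min_self]
    · rw [ble_false h', cond_false, min_eq_right h]

private theorem mxn_eq (a b : ℕ) : mxn a b = max a b := by
  unfold mxn
  rcases le_total a b with h | h
  · rw [ble_true h, cond_true, max_eq_right h]
  · rcases Nat.eq_or_lt_of_le h with h' | h'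
    · subst h'
      rw [ble_true le_rfl, cond_true, max_self]
    · rw [ble_false h', cond_false, max_eq_left h]

private theorem dst_eq (a b : ℕ) : dst a b = (a - b) + (b - a) := rfl

private theorem tabF_ul {s : ℕ} (hs : s ≤ 150) {k : ℕ → Bool} (H : tabF UL 29 s k = true) :
    ∃ V w, Rp 336 V w (2 ^ 27) ∧ k V = true ∧ ∀ i < 336,
      25000000 * (FL (30 - i / 21) ((s : ℝ) / 1000) + 1) ≤
        (w i : ℝ) + 25 / 16 * (kv (30 - i / 21) : ℝ) := by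
  unfold tabF at H
  simp only [fN_y] at H
  obtain ⟨q, hq⟩ : ∃ q, q = mnn (Nat.div s 5) 29 := ⟨_, rfl⟩
  obtain ⟨m, hm⟩ : ∃ m, m = Nat.sub s (Nat.mul 5 q) := ⟨_, rfl⟩
  rw [← hq, ← hm] at H
  have hq1 : q = min (s / 5) 29 := hq.trans (mnn_eq _ _)
  have hm1 : m = s - 5 * q := hm
  have c1 : q ≤ 29 := hq1.trans_le (min_le_right _ _)
  have c2 : m ≤ 5 := by omega
  have c3 : s = 5 * q + m := by omega
  have R1 := (rd_ul (q := q) (by omega)).smul (5 - m)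
  have R2 := (rd_ul (q := q + 1) (by omega)).smul m
  refine ⟨_, _, (R1.add R2).mono ?_, H, fun i hi => ?_⟩
  · have : (5 - m) * 2 ^ 24 + m * 2 ^ 24 = 5 * 2 ^ 24 := by
      rw [← Nat.add_mul]
      congr 1
      omega
    rw [this]
    norm_num
  · have h1 := FL_tab (n := 30 - i / 21) (by omega) (hq := (by omega : q ≤ 59)) c2
    rw [c3]
    exact h1

/-- The values of the edge. -/
def UOK (h lo hi d U : ℕ) (u : ℕ → ℕ) (i : ℕ) : Prop :=
  Rp 336 U u (2 ^ 31) ∧ i ≤ 15 ∧ (∀ x : ℝ, ht lo ≤ x → x ≤ ht hi → (i : ℝ) / 100 ≤ |x|) ∧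
    ∀ v : ℕ, v < 16 → ∀ j : ℕ, j < 21 → 25000000 * (FL (30 - v) (ht h) + 1) + (sgv (30 - v) i : ℝ) +
      (kv (30 - v) : ℝ) * (d : ℝ) / 16 ≤ (u (21 * v + j) : ℝ)

theorem ubv_sound {h lo hi d : ℕ} {k : ℕ → Bool} (h0 : 850 ≤ h) (h1 : h ≤ 1150) (hl : lo ≤ hi)
    (hd : d ≤ 100000) (H : ubv h lo hi d k = true) :
    ∃ U u i, UOK h lo hi d U u i ∧ k U = true := by
  unfold ubv at H
  simp only [fN_y] at H
  obtain ⟨i, hid⟩ : ∃ i, i = mnn 15 (Nat.div (Nat.add (Nat.sub lo 1000) (Nat.sub 1000 hi)) 10) :=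
    ⟨_, rfl⟩
  obtain ⟨a, ha⟩ : ∃ a, a = Nat.div (Nat.add d 40) 16 := ⟨_, rfl⟩
  rw [← hid, ← ha] at H
  have hi1 : i = min 15 (((lo - 1000) + (1000 - hi)) / 10) := hid.trans (mnn_eq _ _)
  have ha1 : a = (d + 40) / 16 := ha
  have hi15 : i ≤ 15 := hi1.trans_le (min_le_left _ _)
  have ha2 : a ≤ 6252 := by omega
  have ha3 : d + 25 ≤ 16 * a := by omega
  obtain ⟨V, w, RV, H1, HV⟩ := tabF_ul (by rw [dst_eq]; omega) H
  have R1 := RV.add ((rd_sul (q := i) hi15).add (kulR.smul a))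
  refine ⟨_, _, i, ⟨R1.mono ?_, hi15, ?_, ?_⟩, H1⟩
  · have : a * 992 ≤ 6252 * 992 := Nat.mul_le_mul_right _ ha2
    omega
  · intro x hx1 hx2
    unfold ht at hx1 hx2
    have hi2 : 10 * i ≤ (lo - 1000) + (1000 - hi) := by omega
    rcases Nat.lt_or_ge 1000 lo with c | c
    · have e : 10 * i + 1000 ≤ lo := by omega
      have e' : (10 : ℝ) * i + 1000 ≤ lo := by exact_mod_cast e
      refine le_trans ?_ (le_abs_self x)
      linarith
    · have e : 10 * i + hi ≤ 1000 ∨ i = 0 := by omega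
      rcases e with e | e
      · have e' : (10 : ℝ) * i + hi ≤ 1000 := by exact_mod_cast e
        refine le_trans ?_ (neg_le_abs x)
        linarith
      · rw [e, Nat.cast_zero, zero_div]
        exact abs_nonneg x
  · intro v hv j hj
    have e1 : (21 * v + j) / 21 = v := by omega
    have h2 := HV (21 * v + j) (by omega)
    rw [e1] at h2
    have e2 : FL (30 - v) (((dst h 1000 : ℕ) : ℝ) / 1000) = FL (30 - v) (ht h) := by
      rcases le_total h 1000 with c | c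
      · have e3 : dst h 1000 = 1000 - h := by rw [dst_eq]; omega
        rw [e3, Nat.cast_sub c, ← FL_neg]
        congr 1
        unfold ht
        push_cast
        ring
      · have e3 : dst h 1000 = h - 1000 := by rw [dst_eq]; omega
        rw [e3, Nat.cast_sub c]
        congr 1
        unfold ht
        push_cast
        ring
    rw [e2] at h2
    show _ ≤ (((w (21 * v + j) + (sgv (30 - (21 * v + j) / 21) i + a * kuF (21 * v + j)) : ℕ)) : ℝ)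
    unfold kuF
    rw [e1]
    push_cast
    have h3 : ((d : ℝ) + 25) ≤ 16 * a := by exact_mod_cast ha3
    have h4 : (0 : ℝ) ≤ (kv (30 - v) : ℝ) := Nat.cast_nonneg _
    have h5 := mul_le_mul_of_nonneg_left h3 h4
    linarith

/-- The slope terms. -/
def AOK (L0 L1 t0 A : ℕ) (a : ℕ → ℕ) : Prop :=
  Rp 336 A a (2 ^ 34) ∧ ∀ v : ℕ, v < 16 → ∀ j : ℕ, j < 21 → ∀ l : ℝ, (L0 : ℝ) / 1000 - 5 ≤ l →
    l ≤ (L1 : ℝ) / 1000 - 5 →
    -(25000000 * (l * (((v : ℝ) - 5) / 20 - (t0 : ℝ) / 200))) + 4294967296 ≤ (a (21 * v + j) : ℝ)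

private theorem al1_ok {L t0 : ℕ} (hL : L ≤ 10000) (ht : t0 ≤ 100) :
    ∃ g : ℕ → ℕ, Rp 336 (al1 L t0) g (2 ^ 34) ∧ ∀ v : ℕ, v < 16 → ∀ j : ℕ, j < 21 →
      (g (21 * v + j) : ℝ) =
      -(25000000 * (((L : ℝ) / 1000 - 5) * (((v : ℝ) - 5) / 20 - (t0 : ℝ) / 200))) + 4294967296 := by
  have R1 := (xrR.smul (1250 * L)).add (oneR.smul (4294967296 + 625000 * (100 - t0)))
  have R2 := (xrR.smul 6250000).add (oneR.smul (125 * L * (100 - t0)))
  obtain ⟨M, hM⟩ : ∃ M, M = 100 - t0 := ⟨_, rfl⟩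
  have hM' : M ≤ 100 := by omega
  rw [← hM] at R1 R2
  -- the comparison
  have key : ∀ w : ℕ, w ≤ 15 →
      6250000 * w + 125 * L * M * 1 ≤ 1250 * L * w + (4294967296 + 625000 * M) * 1 := by
    intro w hw
    have a1 : L * M ≤ 10000 * 100 := Nat.mul_le_mul hL hM'
    have a2 : 125 * L * M = 125 * (L * M) := by ring
    omega
  have R3 := R1.sub R2 fun i _ => key _ (Nat.sub_le _ _)
  refine ⟨fun i => 1250 * L * xrF i + (4294967296 + 625000 * M) * 1 -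
    (6250000 * xrF i + 125 * L * M * 1), ?_, fun v hv j hj => ?_⟩
  · have e : al1 L t0 = 1250 * L * XR + (4294967296 + 625000 * M) * O336 -
        (6250000 * XR + 125 * L * M * O336) := by
      rw [hM]
      rfl
    rw [e]
    refine R3.mono ?_
    have a1 : 1250 * L * 15 ≤ 1250 * 10000 * 15 := by
      have := Nat.mul_le_mul_left 1250 hL
      omega
    omega
  · have e1 : (21 * v + j) / 21 = v := by omega
    have k1 := key (15 - v) (Nat.sub_le _ _)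
    show (((1250 * L * xrF (21 * v + j) + (4294967296 + 625000 * M) * 1 -
        (6250000 * xrF (21 * v + j) + 125 * L * M * 1) : ℕ)) : ℝ) = _
    unfold xrF
    rw [e1, Nat.cast_sub k1]
    push_cast [Nat.cast_sub (by omega : v ≤ 15), hM, Nat.cast_sub ht]
    ring

theorem alv_sound {L0 L1 t0 : ℕ} {k : ℕ → Bool} (h0 : L0 ≤ 10000) (h1 : L1 ≤ 10000)
    (ht : t0 ≤ 100) (H : alv L0 L1 t0 k = true) : ∃ A a, AOK L0 L1 t0 A a ∧ k A = true := by
  unfold alv at H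
  simp only [fN_y] at H
  obtain ⟨g0, r0, e0⟩ := al1_ok h0 ht
  obtain ⟨g1, r1, e1⟩ := al1_ok h1 ht
  refine ⟨_, _, ⟨Rp.mx hH r0 r1 (by norm_num), ?_⟩, H⟩
  intro v hv j hj l hl0 hl1
  have e0' := e0 v hv j hj
  have e1' := e1 v hv j hj
  obtain ⟨s, hs⟩ : ∃ s : ℝ, s = ((v : ℝ) - 5) / 20 - (t0 : ℝ) / 200 := ⟨_, rfl⟩
  rw [← hs] at e0' e1' ⊢
  show _ ≤ (((max (g0 (21 * v + j)) (g1 (21 * v + j)) : ℕ)) : ℝ)
  rw [Nat.cast_max]
  rcases le_total 0 s with h | h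
  · refine le_trans ?_ (le_max_left _ _)
    rw [e0']
    have := mul_le_mul_of_nonneg_right hl0 h
    linarith
  · refine le_trans ?_ (le_max_right _ _)
    rw [e1']
    have := mul_le_mul_of_nonpos_right hl1 h
    linarith

/-- A piece of a row. -/
theorem pcv_sound {cu U A m : ℕ} {c : ℤ} {k : ℕ → Bool} {u a mm : ℕ → ℕ} (hcu : cu ≤ 2)
    (hU : Rp 336 U u (2 ^ 31)) (hA : Rp 336 A a (2 ^ 34)) (hm : Rp 336 m mm (2 ^ 40 - 1))
    (hm' : ∀ i < 336, mm i = 0 ∨ mm i = 2 ^ 40 - 1) (H : pcv cu U A c m k = true) :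
    ∃ Y y, Rp 336 Y y (2 ^ 36) ∧ k Y = true ∧ ∀ i < 336, mm i ≠ 0 →
      (cu : ℤ) * u i + a i + (c + 4294967296 - cu * 25000000) ≤ (y i : ℤ) := by
  unfold pcv at H
  simp only [fN_y] at H
  obtain ⟨n, hn⟩ : ∃ n, n = Int.toNat (Int.sub (Int.add c 4294967296)
    (Int.mul (Int.ofNat cu) 25000000)) := ⟨_, rfl⟩
  rw [← hn] at H
  have hn1 : c + 4294967296 - cu * 25000000 ≤ (n : ℤ) := by
    rw [hn]
    exact Int.self_le_toNat _
  rcases Nat.lt_or_ge 17179869184 n with hb | hb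
  · rw [ble_false hb, cond_false] at H
    exact absurd H (by simp)
  · rw [ble_true hb, cond_true] at H
    have R1 := (hU.smul cu).add (hA.add (oneR.smul n))
    have hb2 : cu * 2 ^ 31 + (2 ^ 34 + n * 1) ≤ 2 ^ 36 := by
      norm_num
      omega
    have R2 := R1.mono hb2
    refine ⟨_, _, R2.mask hm (by norm_num) hm', H, fun i hi h0 => ?_⟩
    show _ ≤ (((if mm i = 0 then 0 else cu * u i + (a i + n * 1) : ℕ)) : ℤ)
    rw [if_neg h0]
    push_cast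
    linarith

/-! ### Pieces -/

/-- The bound of the edge part on the lanes `a ≤ v ≤ b`. -/
def PL (h i d cu L0 L1 t0 a b : ℕ) (c : ℤ) (y : ℕ → ℕ) : Prop :=
  ∀ v, a ≤ v → v ≤ b → ∀ j < 21, ∀ l : ℝ, (L0 : ℝ) / 1000 - 5 ≤ l → l ≤ (L1 : ℝ) / 1000 - 5 →
    YB1 cu h i d v (y (21 * v + j)) l t0 (c : ℝ)

section PL

variable {h i d cu L0 L1 t0 a b : ℕ} {c : ℤ} {y : ℕ → ℕ}

theorem PL.mono (H : PL h i d cu L0 L1 t0 a b c y) {y' : ℕ → ℕ} (hb : b ≤ 15)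
    (hy : ∀ k < 336, y k ≤ y' k) : PL h i d cu L0 L1 t0 a b c y' := by
  intro v h1 h2 j hj l l1 l2
  have h3 := H v h1 h2 j hj l l1 l2
  unfold YB1 at h3 ⊢
  have h4 : (y (21 * v + j) : ℝ) ≤ (y' (21 * v + j) : ℝ) := by
    exact_mod_cast hy (21 * v + j) (by omega)
  linarith

theorem PL.sub (H : PL h i d cu L0 L1 t0 a b c y) {a' b' : ℕ} (ha : a ≤ a') (hb : b' ≤ b) :
    PL h i d cu L0 L1 t0 a' b' c y := fun v h1 h2 => H v (ha.trans h1) (h2.trans hb)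

theorem PL.cle (H : PL h i d cu L0 L1 t0 a b c y) {c' : ℤ} (hc : c' ≤ c) :
    PL h i d cu L0 L1 t0 a b c' y := by
  intro v h1 h2 j hj l l1 l2
  have h3 := H v h1 h2 j hj l l1 l2
  unfold YB1 at h3 ⊢
  have h4 : (c' : ℝ) ≤ (c : ℝ) := by exact_mod_cast hc
  linarith

theorem PL.app (H : PL h i d cu L0 L1 t0 a b c y) {b' : ℕ}
    (H' : PL h i d cu L0 L1 t0 (b + 1) b' c y) : PL h i d cu L0 L1 t0 a b' c y := by
  intro v h1 h2
  rcases Nat.lt_or_ge b v with h3 | h3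
  · exact H' v h3 h2
  · exact H v h1 h3

end PL

private theorem rp_add {n x y c d : ℕ} {g h : ℕ → ℕ} (hx : Rp n x g c) (hy : Rp n y h d) :
    Rp n (Nat.add x y) (fun i => g i + h i) (c + d) := hx.add hy

/-- Masks. -/
def Mk (m : ℕ) (mm : ℕ → ℕ) : Prop :=
  Rp 336 m mm (2 ^ 40 - 1) ∧ ∀ i < 336, mm i = 0 ∨ mm i = 2 ^ 40 - 1

private theorem mk_msk {a b : ℕ} (hab : a ≤ b) (hb : b ≤ 15) : Mk (msk a b) (mkF a b) := by
  refine ⟨mskR hab hb, fun i _ => ?_⟩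
  unfold mkF
  split_ifs
  · exact Or.inr rfl
  · exact Or.inl rfl

private theorem mkF_ne {a b v j : ℕ} (h1 : a ≤ v) (h2 : v ≤ b) (hj : j < 21) :
    mkF a b (21 * v + j) ≠ 0 := by
  have e1 : (21 * v + j) / 21 = v := by omega
  unfold mkF
  rw [e1, if_pos ⟨h1, h2⟩]
  norm_num

section Pcv

variable {cu U A h lo hi d i L0 L1 t0 : ℕ} {c : ℤ} {k : ℕ → Bool} {u a : ℕ → ℕ}

private theorem pcv_PL {m : ℕ} {mm : ℕ → ℕ} (hcu : cu ≤ 2) (hU : UOK h lo hi d U u i)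
    (hA : AOK L0 L1 t0 A a) (hm : Mk m mm) (H : pcv cu U A c m k = true) :
    ∃ Y y, Rp 336 Y y (2 ^ 36) ∧ k Y = true ∧ ∀ a b, b ≤ 15 →
      (∀ v, a ≤ v → v ≤ b → ∀ j < 21, mm (21 * v + j) ≠ 0) →
      PL h i d cu L0 L1 t0 a b c y := by
  obtain ⟨Y, y, h1, h2, h3⟩ := pcv_sound hcu hU.1 hA.1 hm.1 hm.2 H
  refine ⟨Y, y, h1, h2, fun a' b' hb' hM v hv1 hv2 j hj l l1 l2 => ?_⟩
  have k1 := h3 (21 * v + j) (by omega) (hM v hv1 hv2 j hj)
  have k2 := hU.2.2.2 v (by omega) j hj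
  have k3 := hA.2 v (by omega) j hj l l1 l2
  have k4 : (cu : ℝ) * (u (21 * v + j) : ℝ) + (a (21 * v + j) : ℝ) +
      ((c : ℝ) + 4294967296 - (cu : ℝ) * 25000000) ≤ (y (21 * v + j) : ℝ) := by exact_mod_cast k1
  have k5 : (0 : ℝ) ≤ (cu : ℝ) := Nat.cast_nonneg _
  have k6 := mul_le_mul_of_nonneg_left k2 k5
  unfold YB1
  linarith

private theorem pcv_msk {a' b' : ℕ} (hab : a' ≤ b') (hb : b' ≤ 15) (hcu : cu ≤ 2)
    (hU : UOK h lo hi d U u i) (hA : AOK L0 L1 t0 A a) (H : pcv cu U A c (msk a' b') k = true) :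
    ∃ Y y, Rp 336 Y y (2 ^ 36) ∧ k Y = true ∧ PL h i d cu L0 L1 t0 a' b' c y := by
  obtain ⟨Y, y, h1, h2, h3⟩ := pcv_PL hcu hU hA (mk_msk hab hb) H
  exact ⟨Y, y, h1, h2, h3 a' b' hb fun v hv1 hv2 j hj => mkF_ne hv1 hv2 hj⟩

private theorem pcv_all (hcu : cu ≤ 2) (hU : UOK h lo hi d U u i) (hA : AOK L0 L1 t0 A a)
    (H : pcv cu U A c M336 k = true) :
    ∃ Y y, Rp 336 Y y (2 ^ 36) ∧ k Y = true ∧ PL h i d cu L0 L1 t0 0 15 c y := by
  rw [M336_msk] at H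
  exact pcv_msk (by norm_num) (by norm_num) hcu hU hA H

private theorem pcv_two (hcu : cu ≤ 2) (hU : UOK h lo hi d U u i) (hA : AOK L0 L1 t0 A a)
    (H : pcv cu U A c (Nat.add (msk 0 0) (msk 15 15)) k = true) :
    ∃ Y y, Rp 336 Y y (2 ^ 36) ∧ k Y = true ∧ PL h i d cu L0 L1 t0 0 0 c y ∧
      PL h i d cu L0 L1 t0 15 15 c y := by
  have hm : Mk (Nat.add (msk 0 0) (msk 15 15)) (fun i => mkF 0 0 i + mkF 15 15 i) := by
    have key : ∀ i < 336, mkF 0 0 i + mkF 15 15 i = 0 ∨ mkF 0 0 i + mkF 15 15 i = 2 ^ 40 - 1 := by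
      intro i _
      unfold mkF
      by_cases c1 : 0 ≤ i / 21 ∧ i / 21 ≤ 0
      · rw [if_pos c1, if_neg (by omega), add_zero]
        exact Or.inr rfl
      · rw [if_neg c1, zero_add]
        split_ifs
        · exact Or.inr rfl
        · exact Or.inl rfl
    refine ⟨Rp.le (rp_add (mskR le_rfl (by norm_num)) (mskR le_rfl le_rfl)) fun i hi => ?_, key⟩
    rcases key i hi with c1 | c1
    · exact c1.trans_le (Nat.zero_le _)
    · exact c1.le
  obtain ⟨Y, y, h1, h2, h3⟩ := pcv_PL hcu hU hA hm H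
  refine ⟨Y, y, h1, h2, h3 0 0 (by norm_num) fun v hv1 hv2 j hj => ?_,
    h3 15 15 le_rfl fun v hv1 hv2 j hj => ?_⟩
  · exact fun h => mkF_ne hv1 hv2 hj (Nat.eq_zero_of_add_eq_zero_right h)
  · exact fun h => mkF_ne hv1 hv2 hj (Nat.eq_zero_of_add_eq_zero_left h)

private theorem pcv_opt {a' b' : ℕ} {B : Bool} (hab : a' ≤ b') (hb : b' ≤ 15) (hcu : cu ≤ 2)
    (hU : UOK h lo hi d U u i) (hA : AOK L0 L1 t0 A a)
    (H : pcv cu U A c (cond B (msk a' b') 0) k = true) :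
    ∃ Y y, Rp 336 Y y (2 ^ 36) ∧ k Y = true ∧ (B = true → PL h i d cu L0 L1 t0 a' b' c y) := by
  cases B
  · have hm : Mk 0 (fun _ => 0) := by
      refine ⟨⟨?_, fun _ _ => Nat.zero_le _⟩, fun _ _ => Or.inl rfl⟩
      unfold pk
      simp
    obtain ⟨Y, y, h1, h2, -⟩ := pcv_PL hcu hU hA hm H
    exact ⟨Y, y, h1, h2, fun h => absurd h (by simp)⟩
  · obtain ⟨Y, y, h1, h2, h3⟩ := pcv_msk hab hb hcu hU hA H
    exact ⟨Y, y, h1, h2, fun _ => h3⟩

end Pcv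

/-! ### The rows -/

/-- The edge part of a row at the lanes `a ≤ v ≤ b`. -/
def PB (r : Rw) (Y : ℕ → ℕ) (cu L0 L1 t0 a b : ℕ) (c : ℤ) : Prop :=
  ∃ i : ℕ, i ≤ 15 ∧ (∀ x : ℝ, ht r.lo ≤ x → x ≤ ht r.hi → (i : ℝ) / 100 ≤ |x|) ∧
    ∀ v, a ≤ v → v ≤ b → ∀ j < 21, ∀ l : ℝ, (L0 : ℝ) / 1000 - 5 ≤ l → l ≤ (L1 : ℝ) / 1000 - 5 →
      YB1 cu r.h i r.d v (Y (21 * v + j)) l t0 (c : ℝ)

/-- The edge part at the lanes `0` and `15`. -/
def LR (p : Sp) (r : Rw) (Y : ℕ → ℕ) (c : ℤ) : Prop :=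
  PB r Y 2 p.L0 p.L1 p.t0 15 15 c ∧
  (p.kd ≠ 1 → p.kd ≠ 2 → PB r Y 2 p.L0 p.L1 p.t0 0 0 c) ∧
  (p.kd = 1 → PB r Y 2 p.L0 p.L1 p.t0 0 0 (c + 6000000)) ∧
  (p.kd = 2 → PB r Y 1 p.T0 p.T1 p.t0 0 0 (c + cti p r.h))

/-- The edge part at the lanes `0` and `15`, the lane `15` lower by `q`. -/
def LQ (p : Sp) (r : Rw) (Y : ℕ → ℕ) (c q : ℤ) : Prop :=
  PB r Y 2 p.L0 p.L1 p.t0 15 15 (c - q) ∧
  (p.kd ≠ 1 → p.kd ≠ 2 → PB r Y 2 p.L0 p.L1 p.t0 0 0 c) ∧
  (p.kd = 1 → PB r Y 2 p.L0 p.L1 p.t0 0 0 (c + 6000000)) ∧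
  (p.kd = 2 → PB r Y 1 p.T0 p.T1 p.t0 0 0 (c + cti p r.h))

theorem LR.lq {p : Sp} {r : Rw} {Y : ℕ → ℕ} {c : ℤ} (h : LR p r Y c) : LQ p r Y c 0 := by
  refine ⟨?_, h.2⟩
  rw [sub_zero]
  exact h.1

private def LL (p : Sp) (h i d : ℕ) (c : ℤ) (y : ℕ → ℕ) : Prop :=
  PL h i d 2 p.L0 p.L1 p.t0 15 15 c y ∧
  (p.kd ≠ 1 → p.kd ≠ 2 → PL h i d 2 p.L0 p.L1 p.t0 0 0 c y) ∧
  (p.kd = 1 → PL h i d 2 p.L0 p.L1 p.t0 0 0 (c + 6000000) y) ∧
  (p.kd = 2 → PL h i d 1 p.T0 p.T1 p.t0 0 0 (c + cti p h) y)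

private theorem LL.mono {p : Sp} {h i d : ℕ} {c : ℤ} {y y' : ℕ → ℕ} (H : LL p h i d c y)
    (hy : ∀ k < 336, y k ≤ y' k) : LL p h i d c y' :=
  ⟨H.1.mono le_rfl hy, fun a b => (H.2.1 a b).mono (by norm_num) hy,
    fun a => (H.2.2.1 a).mono (by norm_num) hy, fun a => (H.2.2.2 a).mono (by norm_num) hy⟩

private theorem pl_pb {h lo hi d U i cu L0 L1 t0 a b y' : ℕ} {f : Bool} {c : ℤ} {u y : ℕ → ℕ}
    (hU : UOK h lo hi d U u i) (H : PL h i d cu L0 L1 t0 a b c y) :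
    PB ⟨y', h, lo, hi, d, f⟩ y cu L0 L1 t0 a b c := ⟨i, hU.2.1, hU.2.2.1, H⟩

private theorem ll_lr {p : Sp} {h lo hi d U i y' : ℕ} {f : Bool} {c : ℤ} {u y : ℕ → ℕ}
    (hU : UOK h lo hi d U u i) (H : LL p h i d c y) :
    LR p ⟨y', h, lo, hi, d, f⟩ y c :=
  ⟨pl_pb hU H.1, fun a b => pl_pb hU (H.2.1 a b), fun a => pl_pb hU (H.2.2.1 a),
    fun a => pl_pb hU (H.2.2.2 a)⟩

private theorem beq_self (a : ℕ) : Nat.beq a a = true := Nat.beq_refl a

private theorem ylr_ok {p : Sp} {A B U h lo hi d i : ℕ} {c : ℤ} {k : ℕ → Bool} {u a b : ℕ → ℕ}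
    (hA : AOK p.L0 p.L1 p.t0 A a) (hB : AOK p.T0 p.T1 p.t0 B b)
    (hU : UOK h lo hi d U u i) (H : ylr p A B U c h k = true) :
    ∃ Y y, Rp 336 Y y (2 ^ 36) ∧ k Y = true ∧ LL p h i d c y := by
  unfold ylr at H
  by_cases h2 : p.kd = 2
  · rw [h2, beq_self, cond_true] at H
    obtain ⟨Y1, y1, r1, H1, P1⟩ := pcv_msk le_rfl (by norm_num) (by norm_num) hU hB H
    obtain ⟨Y2, y2, r2, H2, P2⟩ := pcv_msk le_rfl le_rfl (by norm_num) hU hA H1
    rw [fN_y] at H2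
    refine ⟨_, _, Rp.mx hH r1 r2 (by norm_num), H2, P2.mono le_rfl fun _ _ => le_max_right _ _,
      fun _ h => absurd h2 h, fun h => absurd (h.symm.trans h2) (by norm_num),
      fun _ => P1.mono (by norm_num) fun _ _ => le_max_left _ _⟩
  · rw [beq_false h2, cond_false] at H
    by_cases h1 : p.kd = 1
    · rw [h1, beq_self, cond_true] at H
      obtain ⟨Y1, y1, r1, H1, P1⟩ := pcv_msk le_rfl (by norm_num) (by norm_num) hU hA H
      obtain ⟨Y2, y2, r2, H2, P2⟩ := pcv_msk le_rfl le_rfl (by norm_num) hU hA H1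
      rw [fN_y] at H2
      refine ⟨_, _, Rp.mx hH r1 r2 (by norm_num), H2, P2.mono le_rfl fun _ _ => le_max_right _ _,
        fun h => absurd h1 h, fun _ => P1.mono (by norm_num) fun _ _ => le_max_left _ _,
        fun h => absurd h h2⟩
    · rw [beq_false h1, cond_false] at H
      obtain ⟨Y1, y1, r1, H1, P1, P2⟩ := pcv_two (by norm_num) hU hA H
      exact ⟨_, _, r1, H1, P2, fun _ _ => P1, fun h => absurd h h1, fun h => absurd h h2⟩

/-- The bound of the distances of the heights. -/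
def dmp (p : Sp) : ℕ := 4 * max (dst p.e0 p.h0) (dst p.e1 p.h0)

/-- The lower end of the legs. -/
def lop (p : Sp) : ℕ := min p.e0 1000

/-- The upper end of the legs. -/
def hip (p : Sp) : ℕ := max p.e1 1000

/-- The bound of the squares of the steps. -/
def dsp (p : Sp) : ℕ := max (sq p.e0 p.e1) (max (sq p.e0 1000) (sq p.e1 1000))

/-- The constant at the height `0`. -/
def c0p (p : Sp) : ℤ := clg p (dmp p) 1000

/-- The side of a row at the height `± 3 / 20`. -/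
def Low (up : Bool) (h : ℕ) : Prop := (h = 1150 ∧ up = false) ∨ (h = 850 ∧ up = true)

/-- The rows of a flat. -/
def RFl (p : Sp) (h : ℕ) (r : Rw) (Y : ℕ → ℕ) : Prop :=
  RwOK r Y ∧ r.h = h ∧ r.lo = p.e0 ∧ r.hi = p.e1 ∧ r.d = sq p.e0 p.e1 ∧
    (p.kd ≠ 2 → PB r Y 2 p.L0 p.L1 p.t0 0 15 (cfl p (dmp p) h)) ∧
    (p.kd = 2 → PB r Y 1 p.T0 p.T1 p.t0 0 8 (cfl p (dmp p) h + cti p h) ∧
      PB r Y 2 p.L0 p.L1 p.t0 8 15 (cfl p (dmp p) h))

/-- The rows of a leg. -/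
def RLg (p : Sp) (h : ℕ) (r : Rw) (Y : ℕ → ℕ) : Prop :=
  RwOK r Y ∧ r.h = h ∧ r.lo = lop p ∧ r.hi = hip p ∧ r.d = dsp p ∧ r.f = false ∧
    LR p r Y (clg p (dmp p) h)

/-- The row at the height `0`. -/
def RZe (p : Sp) (r : Rw) (Y : ℕ → ℕ) : Prop :=
  RwOK r Y ∧ r.h = 1000 ∧ r.lo = min (lop p) 925 ∧ r.hi = max (hip p) 1075 ∧
    r.d = max (dsp p) 5625 ∧ r.f = false ∧ LR p r Y (c0p p) ∧
    (p.re = true → PB r Y 2 p.L0 p.L1 p.t0 10 15 (c0p p - cond p.S 5000000 3750000)) ∧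
    (p.rz = true → PB r Y 2 p.L0 p.L1 p.t0 12 15 (c0p p - cond p.S 2000000 750000))

/-- The rows at the heights `± 3 / 40`. -/
def RV1 (p : Sp) (h lo hi : ℕ) (r : Rw) (Y : ℕ → ℕ) : Prop :=
  RwOK r Y ∧ r.h = h ∧ r.lo = lo ∧ r.hi = hi ∧ r.d = 5625 ∧ r.f = false ∧
    LR p r Y (c0p p - 5890275)

/-- The rows at the heights `± 3 / 20`. -/
def RV2 (p : Sp) (up : Bool) (h lo hi : ℕ) (r : Rw) (Y : ℕ → ℕ) : Prop :=
  RwOK r Y ∧ r.h = h ∧ r.lo = lo ∧ r.hi = hi ∧ r.d = 5625 ∧ r.f = false ∧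
    (∃ q : ℤ, (q = 0 ∨ (q = 1250000 ∧ p.kd = 1 ∧ Low up h)) ∧ LQ p r Y (c0p p - 11780550) q) ∧
    (p.kd ≠ 1 → p.kd ≠ 2 → PB r Y 2 p.L0 p.L1 p.t0 0 15 (c0p p - 11780550)) ∧
    (p.kd = 2 → PB r Y 1 p.T0 p.T1 p.t0 0 5 (c0p p - 11780550 + cti p h) ∧
      PB r Y 2 p.L0 p.L1 p.t0 5 15 (c0p p - 11780550)) ∧
    (p.kd = 1 → ¬ Low up h → PB r Y 2 p.L0 p.L1 p.t0 0 15 (c0p p - 11780550)) ∧
    (p.kd = 1 → Low up h → PB r Y 2 p.L0 p.L1 p.t0 0 5 (c0p p - 5780550) ∧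
      PB r Y 1 p.T0 p.T1 p.t0 5 15 (c0p p - 8780550 + cti p h))

/-- The rows of a slot. -/
structure SR (p : Sp) (up : Bool) (R : List Rw) (o : ℕ) : Prop where
  ok : ∀ r ∈ R, ∃ Y, RwOK r Y
  flat : ∀ h, h = p.e0 ∨ h = p.e1 → ∃ r ∈ R, ∃ Y, RFl p h r Y
  leg : ∀ h, h = p.e0 ∨ h = p.e1 → ∃ r ∈ R, ∃ Y, RLg p h r Y
  zero : ∃ r ∈ R, ∃ Y, RZe p r Y
  v1 : ∀ h lo hi, (h = 1075 ∧ lo = 1000 ∧ hi = 1150) ∨ (h = 925 ∧ lo = 850 ∧ hi = 1000) →
    ∃ r ∈ R, ∃ Y, RV1 p h lo hi r Y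
  v2 : ∀ h lo hi, (h = 1150 ∧ lo = 1075 ∧ hi = 1150) ∨ (h = 850 ∧ lo = 850 ∧ hi = 925) →
    ∃ r ∈ R, ∃ Y, RV2 p up h lo hi r Y
  own : ∃ Y, RwOK ⟨o, 1000, 1000, 1000, 0, false⟩ Y ∧
    PB ⟨o, 1000, 1000, 1000, 0, false⟩ Y 2 p.L0 p.L1 p.t0 13 15
      (c0p p + cond p.S 2000000 (cond (Nat.beq p.kd 1) 500000 750000))

section Rows

variable {p : Sp} {A B : ℕ} {a b : ℕ → ℕ} {R : List Rw} {k : List Rw → Bool}

private theorem rwok {y h lo hi d : ℕ} {f : Bool} {Y : ℕ → ℕ} (hy : Rp 336 y Y (2 ^ 36))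
    (h0 : 850 ≤ h) (h1 : h ≤ 1150) (hl : lo ≤ hi) (hd : d ≤ 100000) :
    RwOK ⟨y, h, lo, hi, d, f⟩ Y := ⟨hy, h0, h1, hl, hd⟩

private theorem rfl_ok {h : ℕ} (hA : AOK p.L0 p.L1 p.t0 A a) (hB : AOK p.T0 p.T1 p.t0 B b)
    (h0 : 850 ≤ h) (h1 : h ≤ 1150) (he : p.e0 ≤ p.e1) (hd : sq p.e0 p.e1 ≤ 100000)
    (H : rfl_ p A B (Int.ofNat (dmp p)) h R k = true) :
    ∃ r, k (r :: R) = true ∧ ∃ Y, RFl p h r Y := by
  unfold rfl_ at H
  obtain ⟨U, u, i, hU, H⟩ := ubv_sound h0 h1 he hd H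
  by_cases h2 : p.kd = 2
  · rw [h2, beq_self, cond_true] at H
    obtain ⟨Y1, y1, r1, H1, P1⟩ := pcv_msk (by norm_num) (by norm_num) (by norm_num) hU hB H
    obtain ⟨Y2, y2, r2, H2, P2⟩ := pcv_msk (by norm_num) le_rfl (by norm_num) hU hA H1
    rw [fN_y] at H2
    exact ⟨_, H2, _, rwok (Rp.mx hH r1 r2 (by norm_num)) h0 h1 he hd, rfl, rfl, rfl, rfl,
      fun h => absurd h2 h, fun _ =>
        ⟨pl_pb hU (P1.mono (by norm_num) fun _ _ => le_max_left _ _),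
          pl_pb hU (P2.mono le_rfl fun _ _ => le_max_right _ _)⟩⟩
  · rw [beq_false h2, cond_false] at H
    obtain ⟨Y1, y1, r1, H1, P1⟩ := pcv_all (by norm_num) hU hA H
    exact ⟨_, H1, _, rwok r1 h0 h1 he hd, rfl, rfl, rfl, rfl, fun _ => pl_pb hU P1,
      fun h => absurd h h2⟩

private theorem rlg_ok {h lo hi d : ℕ} (hA : AOK p.L0 p.L1 p.t0 A a)
    (hB : AOK p.T0 p.T1 p.t0 B b) (h0 : 850 ≤ h) (h1 : h ≤ 1150) (hl : lo ≤ hi)
    (hd : d ≤ 100000) (e1 : lo = lop p) (e2 : hi = hip p) (e3 : d = dsp p)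
    (H : rlg p A B (Int.ofNat (dmp p)) lo hi d h R k = true) :
    ∃ r, k (r :: R) = true ∧ ∃ Y, RLg p h r Y := by
  unfold rlg at H
  obtain ⟨U, u, i, hU, H⟩ := ubv_sound h0 h1 hl hd H
  obtain ⟨Y, y, r1, H1, P1⟩ := ylr_ok hA hB hU H
  exact ⟨_, H1, _, rwok r1 h0 h1 hl hd, rfl, e1, e2, e3, rfl, ll_lr hU P1⟩

private theorem rze_ok {lo hi d : ℕ} {c : ℤ} (hA : AOK p.L0 p.L1 p.t0 A a)
    (hB : AOK p.T0 p.T1 p.t0 B b) (hl : lo ≤ hi) (hd : d ≤ 100000) (e1 : lo = min (lop p) 925)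
    (e2 : hi = max (hip p) 1075) (e3 : d = max (dsp p) 5625) (ec : c = c0p p)
    (H : rze p A B c lo hi d R k = true) :
    ∃ r, k (r :: R) = true ∧ ∃ Y, RZe p r Y := by
  unfold rze at H
  obtain ⟨U, u, i, hU, H⟩ := ubv_sound (by norm_num) (by norm_num) hl hd H
  obtain ⟨Y1, y1, r1, H1, P1⟩ := ylr_ok hA hB hU H
  obtain ⟨Y2, y2, r2, H2, P2⟩ := pcv_opt (by norm_num) (by norm_num) (by norm_num) hU hA H1
  obtain ⟨Y3, y3, r3, H3, P3⟩ := pcv_opt (by norm_num) (by norm_num) (by norm_num) hU hA H2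
  rw [fN_y] at H3
  have m23 := Rp.mx hH r2 r3 (by norm_num)
  have m123 := Rp.mx hH r1 m23 (by norm_num)
  have q1 := P1.mono (y' := fun i => max (y1 i) (max (y2 i) (y3 i))) fun _ _ => le_max_left _ _
  refine ⟨_, H3, _, rwok m123 (by norm_num) (by norm_num) hl hd, rfl, e1, e2, e3, rfl, ?_, ?_, ?_⟩
  · rw [← ec]
    exact ll_lr hU q1
  · intro hre
    rw [← ec]
    have q2 := (P2 hre).mono (y' := fun i => max (y1 i) (max (y2 i) (y3 i))) (by norm_num)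
      fun i _ => (le_max_left _ _).trans (le_max_right (y1 i) _)
    refine pl_pb hU (q2.app (q1.1.cle ?_))
    show c - cond p.S 5000000 3750000 ≤ c
    cases p.S
    · show c - 3750000 ≤ c
      omega
    · show c - 5000000 ≤ c
      omega
  · intro hrz
    rw [← ec]
    have q3 := (P3 hrz).mono (y' := fun i => max (y1 i) (max (y2 i) (y3 i))) (by norm_num)
      fun i _ => (le_max_right _ _).trans (le_max_right (y1 i) _)
    refine pl_pb hU (q3.app (q1.1.cle ?_))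
    show c - cond p.S 2000000 750000 ≤ c
    cases p.S
    · show c - 750000 ≤ c
      omega
    · show c - 2000000 ≤ c
      omega

private theorem rv1_ok {h lo hi : ℕ} {c : ℤ} (hA : AOK p.L0 p.L1 p.t0 A a)
    (hB : AOK p.T0 p.T1 p.t0 B b) (h0 : 850 ≤ h) (h1 : h ≤ 1150) (hl : lo ≤ hi)
    (ec : c = c0p p) (H : rv1 p A B c lo hi h R k = true) :
    ∃ r, k (r :: R) = true ∧ ∃ Y, RV1 p h lo hi r Y := by
  unfold rv1 at H
  obtain ⟨U, u, i, hU, H⟩ := ubv_sound h0 h1 hl (by norm_num) H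
  obtain ⟨Y, y, r1, H1, P1⟩ := ylr_ok hA hB hU H
  refine ⟨_, H1, _, rwok r1 h0 h1 hl (by norm_num), rfl, rfl, rfl, rfl, rfl, ?_⟩
  rw [← ec]
  exact ll_lr hU P1

private theorem rv2_ok {h lo hi : ℕ} {c : ℤ} {low up : Bool} (hA : AOK p.L0 p.L1 p.t0 A a)
    (hB : AOK p.T0 p.T1 p.t0 B b) (h0 : 850 ≤ h) (h1 : h ≤ 1150) (hl : lo ≤ hi)
    (ec : c = c0p p) (hlow : Low up h ↔ low = true) (H : rv2 p A B c low lo hi h R k = true) :
    ∃ r, k (r :: R) = true ∧ ∃ Y, RV2 p up h lo hi r Y := by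
  unfold rv2 at H
  obtain ⟨U, u, i, hU, H⟩ := ubv_sound h0 h1 hl (by norm_num) H
  by_cases h2 : p.kd = 2
  · rw [h2, beq_self, cond_true] at H
    obtain ⟨Y1, y1, r1, H1, P1⟩ := pcv_msk (by norm_num) (by norm_num) (by norm_num) hU hB H
    obtain ⟨Y2, y2, r2, H2, P2⟩ := pcv_msk (by norm_num) le_rfl (by norm_num) hU hA H1
    rw [fN_y] at H2
    have q1 := P1.mono (y' := fun i => max (y1 i) (y2 i)) (by norm_num) fun _ _ => le_max_left _ _
    have q2 := P2.mono (y' := fun i => max (y1 i) (y2 i)) le_rfl fun _ _ => le_max_right _ _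
    refine ⟨_, H2, _, rwok (Rp.mx hH r1 r2 (by norm_num)) h0 h1 hl (by norm_num), rfl, rfl, rfl,
      rfl, rfl, ?_, fun _ h => absurd h2 h, fun _ => ?_,
      fun h => absurd (h.symm.trans h2) (by norm_num),
      fun h => absurd (h.symm.trans h2) (by norm_num)⟩
    · rw [← ec]
      refine ⟨0, Or.inl rfl, LR.lq ?_⟩
      exact ⟨pl_pb hU (q2.sub (by norm_num) le_rfl), fun _ h => absurd h2 h,
        fun h => absurd (h.symm.trans h2) (by norm_num), fun _ => pl_pb hU (q1.sub le_rfl (by norm_num))⟩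
    · rw [← ec]
      exact ⟨pl_pb hU q1, pl_pb hU q2⟩
  · rw [beq_false h2, cond_false] at H
    by_cases hk : p.kd = 1
    · rw [hk, beq_self, cond_true] at H
      cases low
      · rw [cond_false] at H
        have hn : ¬ Low up h := fun h' => absurd (hlow.1 h') (by simp)
        obtain ⟨Y1, y1, r1, H1, P1⟩ := pcv_msk le_rfl (by norm_num) (by norm_num) hU hA H
        obtain ⟨Y2, y2, r2, H2, P2⟩ := pcv_all (by norm_num) hU hA H1
        rw [fN_y] at H2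
        have q1 := P1.mono (y' := fun i => max (y1 i) (y2 i)) (by norm_num)
          fun _ _ => le_max_left _ _
        have q2 := P2.mono (y' := fun i => max (y1 i) (y2 i)) le_rfl fun _ _ => le_max_right _ _
        refine ⟨_, H2, _, rwok (Rp.mx hH r1 r2 (by norm_num)) h0 h1 hl (by norm_num), rfl, rfl,
          rfl, rfl, rfl, ?_, fun h => absurd hk h, fun h => absurd h h2, fun _ _ => ?_,
          fun _ h => absurd h hn⟩
        · rw [← ec]
          refine ⟨0, Or.inl rfl, LR.lq ?_⟩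
          refine ⟨pl_pb hU (q2.sub (by norm_num) le_rfl), fun h => absurd hk h,
            fun _ => pl_pb hU (q1.cle ?_), fun h => absurd h h2⟩
          show c - 11780550 + 6000000 ≤ c - 5780550
          omega
        · rw [← ec]
          exact pl_pb hU q2
      · rw [cond_true] at H
        have hn : Low up h := hlow.2 rfl
        obtain ⟨Y1, y1, r1, H1, P1⟩ := pcv_msk (by norm_num) (by norm_num) (by norm_num) hU hA H
        obtain ⟨Y2, y2, r2, H2, P2⟩ := pcv_msk (by norm_num) le_rfl (by norm_num) hU hB H1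
        obtain ⟨Y3, y3, r3, H3, P3⟩ := pcv_msk le_rfl le_rfl (by norm_num) hU hA H2
        rw [fN_y] at H3
        have q1 := P1.mono (y' := fun i => max (y1 i) (max (y2 i) (y3 i))) (by norm_num)
          fun _ _ => le_max_left _ _
        have q2 := P2.mono (y' := fun i => max (y1 i) (max (y2 i) (y3 i))) le_rfl
          fun i _ => (le_max_left _ _).trans (le_max_right (y1 i) _)
        have q3 := P3.mono (y' := fun i => max (y1 i) (max (y2 i) (y3 i))) le_rfl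
          fun i _ => (le_max_right _ _).trans (le_max_right (y1 i) _)
        refine ⟨_, H3, _, rwok (Rp.mx hH r1 (Rp.mx hH r2 r3 (by norm_num)) (by norm_num)) h0 h1 hl
          (by norm_num), rfl, rfl, rfl, rfl, rfl, ?_, fun h => absurd hk h, fun h => absurd h h2,
          fun _ h => absurd hn h, fun _ _ => ?_⟩
        · rw [← ec]
          refine ⟨1250000, Or.inr ⟨rfl, hk, hn⟩, pl_pb hU (q3.cle ?_), fun h => absurd hk h,
            fun _ => pl_pb hU ((q1.sub le_rfl (by norm_num)).cle ?_), fun h => absurd h h2⟩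
          · show c - 11780550 - 1250000 ≤ c - 13030550
            omega
          · show c - 11780550 + 6000000 ≤ c - 5780550
            omega
        · rw [← ec]
          exact ⟨pl_pb hU q1, pl_pb hU q2⟩
    · rw [beq_false hk, cond_false] at H
      obtain ⟨Y1, y1, r1, H1, P1⟩ := pcv_all (by norm_num) hU hA H
      refine ⟨_, H1, _, rwok r1 h0 h1 hl (by norm_num), rfl, rfl, rfl, rfl, rfl, ?_,
        fun _ _ => ?_, fun h => absurd h h2, fun h => absurd h hk, fun h => absurd h hk⟩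
      · rw [← ec]
        refine ⟨0, Or.inl rfl, LR.lq ?_⟩
        exact ⟨pl_pb hU (P1.sub (by norm_num) le_rfl), fun _ _ => pl_pb hU (P1.sub le_rfl (by norm_num)),
          fun h => absurd h hk, fun h => absurd h h2⟩
      · rw [← ec]
        exact pl_pb hU P1

end Rows

private theorem sq_le {a b : ℕ} (ha : 850 ≤ a) (ha' : a ≤ 1150) (hb : 850 ≤ b) (hb' : b ≤ 1150) :
    sq a b ≤ 90000 := by
  have h : dst a b ≤ 300 := by
    rw [dst_eq]
    omega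
  exact Nat.mul_le_mul h h

/-- **The rows of a slot.** -/
theorem srow_sound {p : Sp} {up : Bool} {k : List Rw → ℕ → Bool} (hp : spk p = true)
    (H : srow p up k = true) : ∃ R o, k R o = true ∧ SR p up R o := by
  unfold spk at hp
  simp only [Bool.and_eq_true, Nat.ble_eq] at hp
  obtain ⟨⟨⟨⟨hL0, hL1⟩, hT0⟩, hT1⟩, ⟨⟨ht0, he⟩, he0⟩, he1⟩ := hp
  unfold srow at H
  obtain ⟨A, a, hA, H⟩ := alv_sound hL0 hL1 ht0 H
  obtain ⟨B, b, hB, H⟩ := alv_sound hT0 hT1 ht0 H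
  simp only [fN_y] at H
  have hs1 := sq_le (a := p.e0) (b := p.e1) he0 (by omega) (by omega) he1
  have hs2 := sq_le (a := p.e0) (b := 1000) he0 (by omega) (by norm_num) (by norm_num)
  have hs3 := sq_le (a := p.e1) (b := 1000) (by omega) he1 (by norm_num) (by norm_num)
  have hdm : Nat.mul 4 (mxn (dst p.e0 p.h0) (dst p.e1 p.h0)) = dmp p := by
    rw [mxn_eq]
    rfl
  have hlo : mnn p.e0 1000 = lop p := mnn_eq _ _
  have hhi : mxn p.e1 1000 = hip p := mxn_eq _ _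
  have hds : mxn (sq p.e0 p.e1) (mxn (sq p.e0 1000) (sq p.e1 1000)) = dsp p := by
    rw [mxn_eq, mxn_eq]
    rfl
  rw [hdm, hlo, hhi, hds] at H
  have hds' : dsp p ≤ 90000 := by
    unfold dsp
    omega
  have hlo' : lop p ≤ 1000 := min_le_right _ _
  have hhi' : 1000 ≤ hip p := le_max_right _ _
  obtain ⟨r1, H, hr1⟩ := rfl_ok hA hB he0 (by omega) he (by omega) H
  obtain ⟨r2, H, hr2⟩ := rfl_ok hA hB (by omega) he1 he (by omega) H
  obtain ⟨r3, H, hr3⟩ := rlg_ok hA hB he0 (by omega) (by omega) (by omega) rfl rfl rfl H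
  obtain ⟨r4, H, hr4⟩ := rlg_ok hA hB (by omega) he1 (by omega) (by omega) rfl rfl rfl H
  obtain ⟨r5, H, hr5⟩ := rze_ok hA hB (by rw [mnn_eq, mxn_eq]; omega) (by rw [mxn_eq]; omega)
    (mnn_eq _ _) (mxn_eq _ _) (mxn_eq _ _) rfl H
  obtain ⟨r6, H, hr6⟩ := rv1_ok hA hB (by norm_num) (by norm_num) (by norm_num) rfl H
  obtain ⟨r7, H, hr7⟩ := rv1_ok hA hB (by norm_num) (by norm_num) (by norm_num) rfl H
  obtain ⟨r8, H, hr8⟩ := rv2_ok (up := up) hA hB (by norm_num) (by norm_num) (by norm_num) rfl (by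
    unfold Low
    cases up <;> simp) H
  obtain ⟨r9, H, hr9⟩ := rv2_ok (up := up) hA hB (by norm_num) (by norm_num) (by norm_num) rfl (by
    unfold Low
    cases up <;> simp) H
  obtain ⟨U, u, i, hU, H⟩ := ubv_sound (by norm_num) (by norm_num) le_rfl (by norm_num) H
  obtain ⟨o, y, ho, H, P⟩ := pcv_msk (by norm_num) le_rfl (by norm_num) hU hA H
  refine ⟨_, o, H, ?_, ?_, ?_, ?_, ?_, ?_, ?_⟩
  · intro r hr
    simp only [List.mem_cons, List.not_mem_nil, or_false] at hr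
    obtain ⟨Y1, h1⟩ := hr1
    obtain ⟨Y2, h2⟩ := hr2
    obtain ⟨Y3, h3⟩ := hr3
    obtain ⟨Y4, h4⟩ := hr4
    obtain ⟨Y5, h5⟩ := hr5
    obtain ⟨Y6, h6⟩ := hr6
    obtain ⟨Y7, h7⟩ := hr7
    obtain ⟨Y8, h8⟩ := hr8
    obtain ⟨Y9, h9⟩ := hr9
    rcases hr with h | h | h | h | h | h | h | h | h
    · exact ⟨Y9, h ▸ h9.1⟩
    · exact ⟨Y8, h ▸ h8.1⟩
    · exact ⟨Y7, h ▸ h7.1⟩
    · exact ⟨Y6, h ▸ h6.1⟩
    · exact ⟨Y5, h ▸ h5.1⟩
    · exact ⟨Y4, h ▸ h4.1⟩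
    · exact ⟨Y3, h ▸ h3.1⟩
    · exact ⟨Y2, h ▸ h2.1⟩
    · exact ⟨Y1, h ▸ h1.1⟩
  · rintro h (rfl | rfl)
    · exact ⟨r1, by simp, hr1⟩
    · exact ⟨r2, by simp, hr2⟩
  · rintro h (rfl | rfl)
    · exact ⟨r3, by simp, hr3⟩
    · exact ⟨r4, by simp, hr4⟩
  · exact ⟨r5, by simp, hr5⟩
  · rintro h lo hi (⟨rfl, rfl, rfl⟩ | ⟨rfl, rfl, rfl⟩)
    · exact ⟨r6, by simp, hr6⟩
    · exact ⟨r7, by simp, hr7⟩
  · rintro h lo hi (⟨rfl, rfl, rfl⟩ | ⟨rfl, rfl, rfl⟩)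
    · exact ⟨r8, by simp, hr8⟩
    · exact ⟨r9, by simp, hr9⟩
  · exact ⟨y, rwok ho (by norm_num) (by norm_num) le_rfl (by norm_num), pl_pb hU P⟩

end Pool.Agent.S5.Z4
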