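import Pool.Agent.S5.Z4.Lf
import Pool.Agent.S5.Z4.EgW
import Pool.Agent.S5.Z4.EgY

/-!
# The engine: pairs of columns
-/

set_option autoImplicit false

namespace Pool.Agent.S5.Z4

/-- The columns `M` bound the rows `R` at the height `x`. -/
def Col (R : List Rw) (x : Cx) (M : ℕ → ℕ) : Prop :=
  ∀ r ∈ R, ∀ Y, RwOK r Y → RB r Y x M fun _ _ => True

/-- The columns `M` bound the rows `R` at the height `x`, without the right part of the flats. -/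
def Col5 (R : List Rw) (x : Cx) (M : ℕ → ℕ) : Prop :=
  ∀ r ∈ R, ∀ Y, RwOK r Y → RB r Y x M fun v _ => r.f = false ∨ v ≤ 5

/-- The own row. -/
abbrev ownR (o : ℕ) : Rw := ⟨o, 1000, 1000, 1000, 0, false⟩

/-- The bound of the own row. -/
def ColO (o : ℕ) (Y : ℕ → ℕ) (M : ℕ → ℕ) : Prop :=
  RB (ownR o) Y ⟨1000, 1000, 1000, 0⟩ M fun v j => 15 + j ≤ 20 + v

private theorem lan_eq {u j : ℕ} {M : ℕ → ℕ} (hu : Rp 21 u M (2 ^ 38)) (hj : j < 21) :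
    lan u j = M j := hu.digit (by norm_num) hj

theorem ck_sound {u v c j n : ℕ} {M N : ℕ → ℕ} (hu : Rp 21 u M (2 ^ 38)) (hv : Rp 21 v N (2 ^ 38))
    (h : j + n ≤ 21) (H : ck u v c j n = true) :
    ∀ m, j ≤ m → m < j + n → M m + N (20 - m) < c := by
  induction n with
  | zero =>
    intro m h1 h2
    omega
  | succ n ih =>
    have H' : (Nat.ble (Nat.succ (Nat.add (lan u (Nat.add j n)) (lan v (Nat.sub 20 (Nat.add j n))))) c &&
      ck u v c j n) = true := H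
    rw [Bool.and_eq_true, Nat.ble_eq] at H'
    intro m h1 h2
    rcases Nat.lt_or_ge m (j + n) with h3 | h3
    · exact ih (by omega) H'.2 m h1 h3
    · have h4 : m = j + n := by omega
      subst h4
      have h5 := H'.1
      rw [lan_eq hu (show Nat.add j n < 21 from by show j + n < 21; omega),
        lan_eq hv (show Nat.sub 20 (Nat.add j n) < 21 from by show 20 - (j + n) < 21; omega)] at h5
      exact h5

section Rows

variable {R Q : List Rw}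

private theorem flt_sound (hR : ∀ r ∈ R, ∃ Y, RwOK r Y) (hQ : ∀ r ∈ Q, ∃ Y, RwOK r Y)
    {n lo hi d c o : ℕ} (h0 : 850 ≤ n) (h1 : n ≤ 1150) (hl : lo ≤ hi) (hd : d ≤ 100000)
    (ho : o ≤ 17) (H : flt R Q n lo hi d c o = true) :
    ∃ M M' N N' : ℕ → ℕ, Col R ⟨n, lo, hi, d⟩ M ∧ Col5 R ⟨n, lo, hi, d⟩ M' ∧
      Col Q ⟨2000 - n, 2000 - hi, 2000 - lo, d⟩ N ∧ Col5 Q ⟨2000 - n, 2000 - hi, 2000 - lo, d⟩ N' ∧
      (∀ j, 2 ≤ j → j < 19 → M' j + N (20 - j) < c ∧ M j + N' (20 - j) < c) ∧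
      ∀ j, (2 ≤ j ∧ j < 2 + o) ∨ (19 - o ≤ j ∧ j < 19) → M j + N (20 - j) < c := by
  unfold flt at H
  obtain ⟨a, b, M, M', H1, ra, rb, c1⟩ := ctx2_sound hR ⟨h0, h1, hl, hd⟩ H
  obtain ⟨u, v, N, N', H2, ru, rv, c2⟩ := ctx2_sound (x := ⟨2000 - n, 2000 - hi, 2000 - lo, d⟩) hQ
    ⟨by show 850 ≤ 2000 - n; omega, by show 2000 - n ≤ 1150; omega, by show 2000 - hi ≤ 2000 - lo; omega,
      hd⟩ H1
  simp only [Bool.and_eq_true] at H2
  obtain ⟨⟨k1, k2⟩, k3, k4⟩ := H2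
  refine ⟨M, M', N, N', fun r hr Y hY => (c1 r hr Y hY).1, fun r hr Y hY => (c1 r hr Y hY).2,
    fun r hr Y hY => (c2 r hr Y hY).1, fun r hr Y hY => (c2 r hr Y hY).2, fun j h2 h19 => ⟨?_, ?_⟩,
    fun j hj => ?_⟩
  · exact ck_sound rb ru (by norm_num) k1 j h2 h19
  · exact ck_sound ra rv (by norm_num) k2 j h2 h19
  · rcases hj with ⟨h2, h3⟩ | ⟨h2, h3⟩
    · exact ck_sound ra ru (by omega) k3 j h2 h3
    · exact ck_sound ra ru (by show 19 - o + o ≤ 21; omega) k4 j h2 (by show j < 19 - o + o; omega)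

private theorem oth_sound (hR : ∀ r ∈ R, ∃ Y, RwOK r Y) (hQ : ∀ r ∈ Q, ∃ Y, RwOK r Y)
    {n lo hi d : ℕ} {k : ℕ → ℕ → Bool} (h0 : 850 ≤ n) (h1 : n ≤ 1150) (hl : lo ≤ hi) (hd : d ≤ 100000)
    (H : oth R Q n lo hi d k = true) :
    ∃ (a u : ℕ) (M N : ℕ → ℕ), k a u = true ∧ Rp 21 a M (2 ^ 38) ∧ Rp 21 u N (2 ^ 38) ∧
      Col R ⟨n, lo, hi, d⟩ M ∧ Col Q ⟨2000 - n, 2000 - hi, 2000 - lo, d⟩ N := by
  unfold oth at H
  obtain ⟨a, M, H1, ra, c1⟩ := ctx1_sound hR ⟨h0, h1, hl, hd⟩ H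
  obtain ⟨u, N, H2, ru, c2⟩ := ctx1_sound (x := ⟨2000 - n, 2000 - hi, 2000 - lo, d⟩) hQ
    ⟨by show 850 ≤ 2000 - n; omega, by show 2000 - n ≤ 1150; omega, by show 2000 - hi ≤ 2000 - lo; omega,
      hd⟩ H1
  exact ⟨a, u, M, N, H2, ra, ru, c1, c2⟩

/-- The result of the comparison of the columns. -/
structure RowsOK (R Q : List Rw) (oR oQ : ℕ) (YR YQ : ℕ → ℕ)
    (n0 n1 lo hi d c w1 w2 o : ℕ) : Prop where
  fl : ∀ n, n = n0 ∨ n = n1 → ∃ M M' N N' : ℕ → ℕ, Col R ⟨n, lo, hi, d⟩ M ∧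
    Col5 R ⟨n, lo, hi, d⟩ M' ∧ Col Q ⟨2000 - n, 2000 - hi, 2000 - lo, d⟩ N ∧
    Col5 Q ⟨2000 - n, 2000 - hi, 2000 - lo, d⟩ N' ∧
    (∀ j, 2 ≤ j → j < 19 → M' j + N (20 - j) < c ∧ M j + N' (20 - j) < c) ∧
    ∀ j, (2 ≤ j ∧ j < 2 + o) ∨ (19 - o ≤ j ∧ j < 19) → M j + N (20 - j) < c
  v2 : ∀ n l h, (n = 1150 ∧ l = 1075 ∧ h = 1150) ∨ (n = 850 ∧ l = 850 ∧ h = 925) →
    ∃ M N : ℕ → ℕ, Col R ⟨n, l, h, 5625⟩ M ∧ Col Q ⟨2000 - n, 2000 - h, 2000 - l, 5625⟩ N ∧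
      ∀ j, 2 ≤ j → j < 19 → M j + N (20 - j) < w2
  v1 : ∀ n l h, (n = 1075 ∧ l = 1000 ∧ h = 1150) ∨ (n = 925 ∧ l = 850 ∧ h = 1000) →
    ∃ M N : ℕ → ℕ, Col R ⟨n, l, h, 5625⟩ M ∧ Col Q ⟨2000 - n, 2000 - h, 2000 - l, 5625⟩ N ∧
      M 2 + N 18 < w1 ∧ M 18 + N 2 < w1
  zero : ∃ M N S T : ℕ → ℕ, Col R ⟨1000, min lo 925, max hi 1075, max d 5625⟩ M ∧
    Col Q ⟨1000, 2000 - max hi 1075, 2000 - min lo 925, max d 5625⟩ N ∧ ColO oR YR S ∧ ColO oQ YQ T ∧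
    M 2 + N 18 < c ∧ M 18 + N 2 < c ∧ (∀ j, 18 ≤ j → j < 21 → S j + N (20 - j) < c) ∧
    ∀ j < 3, M j + T (20 - j) < c

private theorem mnn_min (a b : ℕ) : mnn a b = min a b := by
  have h1 := mnn_le a b
  rcases mnn_eq a b with h | h
  · rw [h] at h1 ⊢
    exact (min_eq_left h1.2).symm
  · rw [h] at h1 ⊢
    exact (min_eq_right h1.1).symm

private theorem mxn_max (a b : ℕ) : mxn a b = max a b := by
  unfold mxn
  rcases le_total a b with h | h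
  · rw [ble_true h, cond_true, max_eq_right h]
  · rcases Nat.eq_or_lt_of_le h with h' | h'
    · subst h'
      rw [ble_true le_rfl, cond_true, max_self]
    · rw [ble_false h', cond_false, max_eq_left h]

/-- **The comparison of the columns.** -/
theorem rows_sound (hR : ∀ r ∈ R, ∃ Y, RwOK r Y) (hQ : ∀ r ∈ Q, ∃ Y, RwOK r Y) {oR oQ : ℕ}
    {YR YQ : ℕ → ℕ} (hoR : RwOK (ownR oR) YR) (hoQ : RwOK (ownR oQ) YQ)
    {n0 n1 lo hi d c w1 w2 o : ℕ} (a0 : 850 ≤ n0) (a1 : n0 ≤ 1150) (b0 : 850 ≤ n1) (b1 : n1 ≤ 1150)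
    (hl : lo ≤ hi) (hd : d ≤ 100000) (ho : o ≤ 17)
    (H : rows R Q oR oQ n0 n1 lo hi d c w1 w2 o = true) :
    RowsOK R Q oR oQ YR YQ n0 n1 lo hi d c w1 w2 o := by
  unfold rows at H
  simp only [Bool.and_eq_true] at H
  obtain ⟨⟨f0, f1⟩, ⟨p0, p1⟩, ⟨q0, q1⟩, z⟩ := H
  refine ⟨?_, ?_, ?_, ?_⟩
  · rintro n (rfl | rfl)
    · exact flt_sound hR hQ a0 a1 hl hd ho f0
    · exact flt_sound hR hQ b0 b1 hl hd ho f1
  · rintro n l h (⟨rfl, rfl, rfl⟩ | ⟨rfl, rfl, rfl⟩)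
    · obtain ⟨a, u, M, N, k, ra, ru, c1, c2⟩ :=
        oth_sound hR hQ (by norm_num) (by norm_num) (by norm_num) (by norm_num) p0
      exact ⟨M, N, c1, c2, fun j h2 h19 => ck_sound ra ru (by norm_num) k j h2 h19⟩
    · obtain ⟨a, u, M, N, k, ra, ru, c1, c2⟩ :=
        oth_sound hR hQ (by norm_num) (by norm_num) (by norm_num) (by norm_num) p1
      exact ⟨M, N, c1, c2, fun j h2 h19 => ck_sound ra ru (by norm_num) k j h2 h19⟩
  · rintro n l h (⟨rfl, rfl, rfl⟩ | ⟨rfl, rfl, rfl⟩)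
    · obtain ⟨a, u, M, N, k, ra, ru, c1, c2⟩ :=
        oth_sound hR hQ (by norm_num) (by norm_num) (by norm_num) (by norm_num) q0
      rw [Bool.and_eq_true] at k
      exact ⟨M, N, c1, c2, ck_sound ra ru (by norm_num) k.1 2 le_rfl (by norm_num),
        ck_sound ra ru (by norm_num) k.2 18 le_rfl (by norm_num)⟩
    · obtain ⟨a, u, M, N, k, ra, ru, c1, c2⟩ :=
        oth_sound hR hQ (by norm_num) (by norm_num) (by norm_num) (by norm_num) q1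
      rw [Bool.and_eq_true] at k
      exact ⟨M, N, c1, c2, ck_sound ra ru (by norm_num) k.1 2 le_rfl (by norm_num),
        ck_sound ra ru (by norm_num) k.2 18 le_rfl (by norm_num)⟩
  · rw [mnn_min, mxn_max, mxn_max] at z
    obtain ⟨a, u, M, N, k, ra, ru, c1, c2⟩ :=
      oth_sound hR hQ (by norm_num) (by norm_num) (by omega) (by omega) z
    rw [Bool.and_eq_true, Bool.and_eq_true] at k
    obtain ⟨⟨k1, k2⟩, k3⟩ := k
    unfold own at k3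
    obtain ⟨s, S, k4, rs, cs⟩ := own_sound hoR.y k3
    obtain ⟨t, T, k5, rt, ct⟩ := own_sound hoQ.y k4
    rw [Bool.and_eq_true] at k5
    exact ⟨M, N, S, T, c1, c2, cs, ct, ck_sound ra ru (by norm_num) k1 2 le_rfl (by norm_num),
      ck_sound ra ru (by norm_num) k2 18 le_rfl (by norm_num),
      fun j h18 h21 => ck_sound rs ru (by norm_num) k5.1 j h18 h21,
      fun j h3 => ck_sound ra rt (by norm_num) k5.2 j (Nat.zero_le _) (by omega)⟩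

end Rows

end Pool.Agent.S5.Z4
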