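import Pool.Agent.S5.Z4.Eg
import Pool.Agent.S5.Z4.LnA

/-!
# The engine: the statements

The values of a vertex: `y.re = v / 20 - 1 / 4`, `z.re = j / 20 - 1 / 2`, heights `h`, `z`.
-/

set_option autoImplicit false

namespace Pool.Agent.S5.Z4

/-- The height of a number. -/
noncomputable def ht (n : ℕ) : ℝ := (n : ℝ) / 1000 - 1

/-- The part of the potential with `y - z` at a vertex. -/
noncomputable def wv (v j : ℕ) (h z : ℝ) : ℝ :=
  FL (20 + v - j) (h - z) + Real.pi * (((v : ℝ) + j - 15) / 20 * (h + z)) -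
    Real.pi / 2 * (h - z)

/-- A row with the lanes `Y`. -/
structure RwOK (r : Rw) (Y : ℕ → ℕ) : Prop where
  y : Rp 336 r.y Y (2 ^ 36)
  h0 : 850 ≤ r.h
  h1 : r.h ≤ 1150
  lh : r.lo ≤ r.hi
  d : r.d ≤ 100000

/-- A height. -/
structure CxOK (x : Cx) : Prop where
  z0 : 850 ≤ x.z
  z1 : x.z ≤ 1150
  lh : x.lo ≤ x.hi
  d : x.d ≤ 100000

/-- `i / 100` is a lower bound of the distances of the heights. -/
def Gap (i : ℕ) (l0 h0 l1 h1 : ℝ) : Prop :=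
  i ≤ 15 ∧ ∀ h z : ℝ, l0 ≤ h → h ≤ h0 → l1 ≤ z → z ≤ h1 → (i : ℝ) / 100 ≤ |h - z|

/-- The value of a row at the vertex is bounded by `m`. -/
def VB1 (r : Rw) (Y : ℕ → ℕ) (x : Cx) (i v j m : ℕ) : Prop :=
  25000000 * wv v j (ht r.h) (ht x.z) + (sgv (20 + v - j) i : ℝ) +
    (kv (20 + v - j) : ℝ) * ((r.d + x.d : ℕ) : ℝ) / 16 + (Y (21 * v + j) : ℝ) + 1098741824 ≤ m

/-- The bound of a row by the column numbers `M`, on the lanes `P`. -/
def RB (r : Rw) (Y : ℕ → ℕ) (x : Cx) (M : ℕ → ℕ) (P : ℕ → ℕ → Prop) : Prop :=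
  ∃ i : ℕ, Gap i (ht r.lo) (ht r.hi) (ht x.lo) (ht x.hi) ∧
    ∀ v < 16, ∀ j < 21, P v j → VB1 r Y x i v j (M j)

/-- The edge part of the potential with the constant `c` (share `cu`, slope `l`, base `t0 / 200`),
at the lane `v`, is bounded by `m`. -/
def YB1 (cu h i d v m : ℕ) (l : ℝ) (t0 : ℕ) (c : ℝ) : Prop :=
  cu * (25000000 * FL (30 - v) (ht h) + (sgv (30 - v) i : ℝ) + (kv (30 - v) : ℝ) * (d : ℝ) / 16) -
    25000000 * (l * (((v : ℝ) - 5) / 20 - (t0 : ℝ) / 200)) + c + 8589934592 ≤ m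

end Pool.Agent.S5.Z4
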