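import Pool.Agent.S5.Z4.EgR

/-!
# The engine: a leaf
-/

set_option autoImplicit false

namespace Pool.Agent.S5.Z4

open Pool.Agent.S5.Num (fN)

private theorem fN_l {α : Type} (f : ℕ → α) (n : ℕ) : fN f n = f n := by
  cases n <;> rfl

/-- The own row of the slot `p`. -/
def OwnOK (p : Sp) (o : ℕ) (Y : ℕ → ℕ) : Prop :=
  RwOK (ownR o) Y ∧ PB (ownR o) Y 2 p.L0 p.L1 p.t0 13 15
    (c0p p + cond p.S 2000000 (cond (Nat.beq p.kd 1) 500000 750000))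

/-- The conditions of a slot: `t` the base point. -/
def SlOK (K : Kd) (y : Rc) (t : ℕ) : Prop :=
  (K.kd = 0 ∨ t ≤ 72) ∧ (K.kd = 1 → 501 ≤ y.e0 ∨ y.e1 ≤ 499) ∧ 1 ≤ t ∧ t ≤ 99

/-- The conditions of the rectangles, with `u = 120`, `350` or `170`, `300`. -/
def FfOK (y b z : Rc) (u v : ℕ) : Prop :=
  3 * y.t1 + 1000 ≤ (1000 + u) + 2 * z.t0 ∧ 3 * b.t1 + 2 * z.t1 ≤ 2000 + u ∧
    v + 2 * z.t1 ≤ 1000 + 2 * y.t0 ∧ 1000 + v ≤ 2 * b.t0 + 2 * z.t0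

/-- The facts which the program `lf` proves. -/
structure LfOK (A B : Kd) (k cL cR : Ce) (y b z hy hb : Rc) (t h g s x n : ℕ) (DA DB G C : ℤ)
    (R Q : List Rw) (oR oQ : ℕ) (YR YQ : ℕ → ℕ) : Prop where
  et : t = md y.t0 y.t1
  eh : h = md y.e0 y.e1
  eg : g = md b.t0 b.t1
  es : s = md b.e0 b.e1
  ex : x = md z.t0 z.t1
  en : n = md z.e0 z.e1
  eC : C = gzx G z n - (Px t h x n + Px g s (200 - x) (200 - n))
  dA : nrk (Dx t h x n) DA = true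
  dB : nrk (Dx g s (200 - x) (200 - n)) DB = true
  dG : nrk (Gx t h g s x n) G = true
  x1 : x + 1 ≤ t + 100
  x2 : t ≤ x
  x3 : 101 ≤ g + x
  x4 : g + x ≤ 200
  sA : SlOK A y t
  sB : SlOK B b g
  g1 : z.t1 + 1 ≤ y.t0 + 500
  g2 : y.t1 ≤ z.t0
  g3 : 501 ≤ b.t0 + z.t0
  g4 : b.t1 + z.t1 ≤ 1000
  z1 : z.e0 ≤ z.e1
  z2 : 350 ≤ z.e0
  z3 : z.e1 ≤ 650
  f1 : 215 ≤ y.t0 ∧ 215 ≤ b.t0 ∧ y.t1 ≤ 360 ∧ b.t1 ≤ 360
  f2 : 370 ≤ y.e0 ∧ y.e1 ≤ 630 ∧ 370 ≤ b.e0 ∧ b.e1 ≤ 630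
  f3 : (ffm y b z = 2 ∧ FfOK y b z 120 350) ∨ (ffm y b z = 3 ∧ FfOK y b z 170 300)
  kA : spk (mkS A k cL y hy DA) = true
  kB : spk (mkS B k cR b hb DB) = true
  SA : SR (mkS A k cL y hy DA) (Nat.ble 500 y.e0) R oR
  SB : SR (mkS B k cR b hb DB) (Nat.ble 500 b.e0) Q oQ
  oA : OwnOK (mkS A k cL y hy DA) oR YR
  oB : OwnOK (mkS B k cR b hb DB) oQ YQ
  cols : RowsOK R Q oR oQ YR YQ (z.e0 + 500) (z.e1 + 500) (min (z.e0 + 500) 1000)
    (max (z.e1 + 500) 1000) (max (sq z.e0 z.e1) (max (sq z.e0 500) (sq z.e1 500)))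
    (19377352832 - C).toNat (19389133402 - C).toNat (19400913952 - C).toNat (ffm y b z)
  rwf : RwF R Q oR oQ (z.e0 + 500) (z.e1 + 500) (min (z.e0 + 500) 1000)
    (max (z.e1 + 500) 1000) (max (sq (z.e0 + 500) (z.e1 + 500))
      (max (sq (z.e0 + 500) 1000) (sq (z.e1 + 500) 1000)))
    (Int.toNat (19377352832 - C)) (Int.toNat (19389133402 - C)) (Int.toNat (19400913952 - C))
    (ffm y b z)

private theorem mnn_min (a b : ℕ) : mnn a b = min a b := by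
  have h1 := mnn_le a b
  rcases mnn_eq a b with h | h
  · rw [h] at h1 ⊢
    exact (min_eq_left h1.2).symm
  · rw [h] at h1 ⊢
    exact (min_eq_right h1.1).symm

private theorem mxn_max (a b : ℕ) : mxn a b = max a b := by
  unfold mxn
  rcases le_total a b with h | h
  · rw [ble_true h, cond_true, max_eq_right h]
  · rcases Nat.eq_or_lt_of_le h with h' | h'
    · subst h'
      rw [ble_true le_rfl, cond_true, max_self]
    · rw [ble_false h', cond_false, max_eq_left h]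

private theorem ffm_ok {y b z : Rc} (H : 1 ≤ ffm y b z) :
    (215 ≤ y.t0 ∧ 215 ≤ b.t0 ∧ y.t1 ≤ 360 ∧ b.t1 ≤ 360) ∧
    (370 ≤ y.e0 ∧ y.e1 ≤ 630 ∧ 370 ≤ b.e0 ∧ b.e1 ≤ 630) ∧
    ((ffm y b z = 2 ∧ FfOK y b z 120 350) ∨ (ffm y b z = 3 ∧ FfOK y b z 170 300)) := by
  unfold ffm at H ⊢
  generalize h1 : (Nat.ble 215 y.t0 && Nat.ble 215 b.t0 && Nat.ble y.t1 360 && Nat.ble b.t1 360 &&
      Nat.ble 370 y.e0 && Nat.ble y.e1 630 && Nat.ble 370 b.e0 && Nat.ble b.e1 630) = c1 at H ⊢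
  cases c1
  · rw [cond_false] at H
    omega
  · rw [cond_true] at H ⊢
    simp only [Bool.and_eq_true, Nat.ble_eq] at h1
    obtain ⟨⟨⟨⟨⟨⟨⟨a1, a2⟩, a3⟩, a4⟩, a5⟩, a6⟩, a7⟩, a8⟩ := h1
    refine ⟨⟨a1, a2, a3, a4⟩, ⟨a5, a6, a7, a8⟩, ?_⟩
    generalize h2 : (Nat.ble (Nat.add (Nat.mul 3 y.t1) 1000) (Nat.add 1120 (Nat.mul 2 z.t0)) &&
        Nat.ble (Nat.add (Nat.mul 3 b.t1) (Nat.mul 2 z.t1)) 2120 &&
        Nat.ble (Nat.add 350 (Nat.mul 2 z.t1)) (Nat.add 1000 (Nat.mul 2 y.t0)) &&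
        Nat.ble 1350 (Nat.add (Nat.mul 2 b.t0) (Nat.mul 2 z.t0))) = c2 at H ⊢
    cases c2
    · rw [cond_false] at H ⊢
      generalize h3 : (Nat.ble (Nat.add (Nat.mul 3 y.t1) 1000) (Nat.add 1170 (Nat.mul 2 z.t0)) &&
        Nat.ble (Nat.add (Nat.mul 3 b.t1) (Nat.mul 2 z.t1)) 2170 &&
        Nat.ble (Nat.add 300 (Nat.mul 2 z.t1)) (Nat.add 1000 (Nat.mul 2 y.t0)) &&
        Nat.ble 1300 (Nat.add (Nat.mul 2 b.t0) (Nat.mul 2 z.t0))) = c3 at H ⊢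
      cases c3
      · rw [cond_false] at H
        omega
      · rw [cond_true]
        simp only [Bool.and_eq_true, Nat.ble_eq] at h3
        obtain ⟨⟨⟨b1, b2⟩, b3⟩, b4⟩ := h3
        exact Or.inr ⟨rfl, b1, b2, b3, b4⟩
    · rw [cond_true]
      simp only [Bool.and_eq_true, Nat.ble_eq] at h2
      obtain ⟨⟨⟨b1, b2⟩, b3⟩, b4⟩ := h2
      exact Or.inl ⟨rfl, b1, b2, b3, b4⟩

private theorem slk_ok {K : Kd} {y : Rc} (H : slk K y = true) : SlOK K y (md y.t0 y.t1) := by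
  unfold slk at H
  simp only [Bool.and_eq_true, Bool.or_eq_true, Nat.ble_eq, Nat.beq_eq] at H
  obtain ⟨h1, h2, h3, h4⟩ := H
  refine ⟨h1, fun hk => ?_, h3, h4⟩
  rw [hk] at h2
  have h5 : (Nat.ble 501 y.e0 || Nat.ble y.e1 499) = true := h2
  simpa only [Bool.or_eq_true, Nat.ble_eq] using h5

private theorem geo_ok {y b z : Rc} (H : geo y b z = true) :
    z.t1 + 1 ≤ y.t0 + 500 ∧ y.t1 ≤ z.t0 ∧ 501 ≤ b.t0 + z.t0 ∧ b.t1 + z.t1 ≤ 1000 := by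
  unfold geo at H
  simp only [Bool.and_eq_true, Nat.ble_eq] at H
  obtain ⟨⟨h1, h2⟩, h3, h4⟩ := H
  exact ⟨h1, h2, h3, h4⟩

private theorem sq_le2 {a b : ℕ} (ha : 350 ≤ a) (ha' : a ≤ 650) (hb : 350 ≤ b) (hb' : b ≤ 650) :
    sq a b ≤ 90000 := by
  have h : dst a b ≤ 300 := by
    show (a - b) + (b - a) ≤ 300
    omega
  exact Nat.mul_le_mul h h

private theorem sq_add (a b c : ℕ) : sq (a + c) (b + c) = sq a b := by
  have h : dst (a + c) (b + c) = dst a b := by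
    show (a + c - (b + c)) + (b + c - (a + c)) = (a - b) + (b - a)
    omega
  show Nat.mul (dst (a + c) (b + c)) (dst (a + c) (b + c)) = Nat.mul (dst a b) (dst a b)
  rw [h]

/-- **The leaf program.** -/
theorem lf_ok {A B : Kd} {k cL cR : Ce} {y b z hy hb : Rc}
    (H : lf A B k cL cR y b z hy hb = true) :
    ∃ (t h g s x n : ℕ) (DA DB G C : ℤ) (R Q : List Rw) (oR oQ : ℕ) (YR YQ : ℕ → ℕ),
      LfOK A B k cL cR y b z hy hb t h g s x n DA DB G C R Q oR oQ YR YQ := by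
  unfold lf at H
  rw [Bool.and_eq_true] at H
  obtain ⟨H1, H2⟩ := H
  simp only [Bool.and_eq_true, Nat.ble_eq] at H1
  obtain ⟨hf, hsA, hsB, hg, hz1, hz2, hz3⟩ := H1
  obtain ⟨F1, F2, F3⟩ := ffm_ok hf
  obtain ⟨G1, G2, G3, G4⟩ := geo_ok hg
  simp only [fN_l] at H2
  rw [Bool.and_eq_true, Bool.and_eq_true, Bool.and_eq_true, Bool.and_eq_true] at H2
  obtain ⟨⟨X1, X2⟩, ⟨X3, X4⟩, H3⟩ := H2
  rw [Nat.ble_eq] at X1 X2 X3 X4
  unfold lf2 at H3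
  rw [Bool.and_eq_true, Bool.and_eq_true, Bool.and_eq_true, Bool.and_eq_true,
    Bool.and_eq_true] at H3
  obtain ⟨⟨N1, N2, N3⟩, K1, K2, H4⟩ := H3
  obtain ⟨R, oR, H5, SA⟩ := srow_sound K1 H4
  obtain ⟨Q, oQ, H6, SB⟩ := srow_sound K2 H5
  simp only [fN_l] at H6
  obtain ⟨YR, w1, w2⟩ := SA.own
  obtain ⟨YQ, w3, w4⟩ := SB.own
  have q1 := sq_le2 hz2 (by omega) (by omega) hz3
  have q2 := sq_le2 (a := z.e0) (b := 500) hz2 (by omega) (by norm_num) (by norm_num)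
  have q3 := sq_le2 (a := z.e1) (b := 500) (by omega) (by omega) (by norm_num) (by norm_num)
  rw [mxn_max, mxn_max, mxn_max, mnn_min] at H6
  have ho : ffm y b z ≤ 17 := by
    rcases F3 with ⟨e, -⟩ | ⟨e, -⟩ <;> rw [e] <;> norm_num
  have hc := rows_sound SA.ok SB.ok w1 w3 (show 850 ≤ Nat.add z.e0 500 from by show 850 ≤ z.e0 + 500; omega)
    (show Nat.add z.e0 500 ≤ 1150 from by show z.e0 + 500 ≤ 1150; omega)
    (show 850 ≤ Nat.add z.e1 500 from by show 850 ≤ z.e1 + 500; omega)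
    (show Nat.add z.e1 500 ≤ 1150 from by show z.e1 + 500 ≤ 1150; omega)
    (show min (Nat.add z.e0 500) 1000 ≤ max (Nat.add z.e1 500) 1000 from
      (min_le_right _ _).trans (le_max_right _ _))
    (show max (sq z.e0 z.e1) (max (sq z.e0 500) (sq z.e1 500)) ≤ 100000 from by omega) ho H6
  have ho' : ffm y b z = 2 ∨ ffm y b z = 3 := by
    rcases F3 with ⟨e, -⟩ | ⟨e, -⟩
    · exact Or.inl e
    · exact Or.inr e
  have hf := rwF_of SA SB ho' (show 850 ≤ Nat.add z.e0 500 from by show 850 ≤ z.e0 + 500; omega)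
    (show Nat.add z.e0 500 ≤ Nat.add z.e1 500 from by show z.e0 + 500 ≤ z.e1 + 500; omega)
    (show Nat.add z.e1 500 ≤ 1150 from by show z.e1 + 500 ≤ 1150; omega)
    (min_le_left _ _) (le_max_left _ _)
    (show max (sq z.e0 z.e1) (max (sq z.e0 500) (sq z.e1 500)) ≤ 100000 from by omega) H6
  have e : max (sq z.e0 z.e1) (max (sq z.e0 500) (sq z.e1 500)) =
      max (sq (z.e0 + 500) (z.e1 + 500)) (max (sq (z.e0 + 500) 1000) (sq (z.e1 + 500) 1000)) := by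
    rw [sq_add z.e0 z.e1 500, ← sq_add z.e0 500 500, ← sq_add z.e1 500 500]
  rw [e] at hf
  exact ⟨_, _, _, _, _, _, _, _, _, _, R, Q, oR, oQ, YR, YQ,
    ⟨rfl, rfl, rfl, rfl, rfl, rfl, rfl, N1, N2, N3, X1, X2, X3, X4, slk_ok hsA, slk_ok hsB,
      G1, G2, G3, G4, hz1, hz2, hz3, F1, F2, F3, K1, K2, SA, SB, ⟨w1, w2⟩, ⟨w3, w4⟩, hc, hf⟩⟩

end Pool.Agent.S5.Z4
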