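import Pool.Agent.S5.Z4.SlR
import Pool.Agent.S5.Z4.EgC

/-!
# The engine: the columns of a leaf
-/

set_option autoImplicit false

namespace Pool.Agent.S5.Z4

variable {R Q : List Rw}

private theorem co_of {o : ℕ} {Y M : ℕ → ℕ} (hY : RwOK (ownR o) Y) (h : ColO o Y M) : CO o M := by
  intro Z hZ
  obtain ⟨i, h1, h2⟩ := h
  exact ⟨i, h1, fun v hv j hj hP => (h2 v hv j hj hP).congr hY hZ hv hj⟩

/-- **The columns of a leaf.** -/
theorem rwF_of {p p' : Sp} {up up' : Bool} {oR oQ n0 n1 lo hi d c w1 w2 o : ℕ}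
    (hR : SR p up R oR) (hQ : SR p' up' Q oQ) (ho : o = 2 ∨ o = 3) (h0 : 850 ≤ n0)
    (h01 : n0 ≤ n1) (h1 : n1 ≤ 1150) (hlo : lo ≤ n0) (hhi : n1 ≤ hi) (hd : d ≤ 100000)
    (H : rows R Q oR oQ n0 n1 lo hi d c w1 w2 o = true) :
    RwF R Q oR oQ n0 n1 lo hi d c w1 w2 o := by
  obtain ⟨YR, a1, -⟩ := hR.own
  obtain ⟨YQ, a2, -⟩ := hQ.own
  have K := rows_sound hR.ok hQ.ok a1 a2 h0 (by omega) (by omega) h1 (by omega) hd (by omega) H
  refine ⟨?_, ?_, ?_, ?_⟩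
  · intro n hn
    obtain ⟨M, M', N, N', c1, c2, c3, c4, c5, c6⟩ := K.fl n hn
    exact ⟨M, M', N, N', ⟨c1, c3, fun j _ hj => c6 j hj⟩, c2, c4, fun j j2 j18 => c5 j j2 (by omega)⟩
  · intro n l h hn
    obtain ⟨M, N, c1, c2, c3⟩ := K.v2 n l h hn
    exact ⟨M, N, c1, c2, fun j _ hj => c3 j hj.1 (by omega)⟩
  · intro n l h hn
    obtain ⟨M, N, c1, c2, c3, c4⟩ := K.v1 n l h hn
    refine ⟨M, N, c1, c2, fun j _ hj => ?_⟩
    rcases hj with rfl | rfl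
    · exact c3
    · exact c4
  · obtain ⟨M, N, S, T, c1, c2, c3, c4, c5, c6, c7, c8⟩ := K.zero
    refine ⟨M, N, S, T, ⟨c1, c2, fun j _ hj => ?_⟩, co_of a1 c3, co_of a2 c4,
      fun j j18 j20 => c7 j j18 (by omega), fun j j2 => c8 j (by omega)⟩
    rcases hj with rfl | rfl
    · exact c5
    · exact c6

end Pool.Agent.S5.Z4
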