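import Pool.Agent.S5.Z4.Cla
import Pool.Agent.S5.Z4.R.TAll
import Pool.Agent.S5.Fld.T4
import Pool.Agent.S5.Fld.X4

/-!
# Inner nodes with four half twists: the special neighbours
-/

set_option autoImplicit false

namespace Pool.Agent.S5.Z4

open Complex
open Pool.Agent.S5.E (Vt vL vR)
open Pool.Agent.S5.E.B2 (InR)

variable {R : ℕ} {a : ℕ → ℕ} {S : ℕ → Bool} {z ql qr : ℕ → ℂ} {zF : Fin (R + 1) → ℂ}

/-- The certificate covers three regions. -/
def cv3 (c l r : E.B2.Rg) (j k : ℕ) (p : Pq) : Bool :=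
  Nat.beq p.j j && (Nat.beq p.k k && (ofR c p.c && (ofR l p.l && ofR r p.r)))

theorem cv3_ok {s o : Bool} {L : List Pq} (hL : ∀ p ∈ L, Cr s o p) {J K : Vt} {c l r : E.B2.Rg}
    (h : L.any (cv3 c l r J.ix K.ix) = true) {u v w : ℂ} (hc : InR c w.re (-w.im))
    (hl : InR l u.re (-u.im)) (hr : InR r v.re (-v.im)) : Hull s o J K u v w := by
  obtain ⟨p, hp, h3⟩ := List.any_eq_true.1 h
  unfold cv3 at h3
  simp only [Bool.and_eq_true] at h3
  obtain ⟨h4, h5, h6, h7, h8⟩ := h3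
  exact ⟨p, hL p hp, Nat.eq_of_beq_eq_true h4, Nat.eq_of_beq_eq_true h5, ofR_sound h6 hc,
    ofR_sound h7 hl, ofR_sound h8 hr⟩

/-- The check for one type of the neighbour at the `A` edge. -/
def ck4AS (J : Vt) : Bool :=
  (E.XL J).all fun r => TallAS.any (cv3 (E.M4 J ⟨4, false, some true⟩ ⟨2, true, some false⟩)
    (E.N4 J ⟨4, false, some true⟩ ⟨2, true, some false⟩) r J.ix (⟨2, true, some false⟩ : Vt).ix)

set_option maxRecDepth 100000 in
theorem ck4AS_n : ck4AS ⟨2, false, none⟩ = true := by decide +kernel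

set_option maxRecDepth 100000 in
theorem ck4AS_f : ck4AS ⟨2, false, some false⟩ = true := by decide +kernel

set_option maxRecDepth 100000 in
theorem ck4AS_t : ck4AS ⟨2, false, some true⟩ = true := by decide +kernel

set_option maxRecDepth 100000 in
theorem ck4AA_ok : TallAA.any (cv3
    (E.M4 ⟨2, false, none⟩ ⟨4, false, some false⟩ ⟨2, false, none⟩)
    (E.N4 ⟨2, false, none⟩ ⟨4, false, some false⟩ ⟨2, false, none⟩)
    (E.N4 ⟨2, false, none⟩ ⟨4, false, some false⟩ ⟨2, false, none⟩)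
    (⟨2, false, none⟩ : Vt).ix (⟨2, false, none⟩ : Vt).ix) = true := by decide +kernel

theorem ck4AS_ok (o : Option Bool) : ck4AS ⟨2, false, o⟩ = true := by
  rcases o with _ | _ | _
  · exact ck4AS_n
  · exact ck4AS_f
  · exact ck4AS_t

theorem M4_sw (o : Option Bool) : E.M4 ⟨2, true, some false⟩ ⟨4, true, some false⟩ ⟨2, false, o⟩ =
    E.M4 ⟨2, false, o⟩ ⟨4, false, some true⟩ ⟨2, true, some false⟩ := by
  rcases o with _ | _ | _ <;> rfl

theorem vR_two {i : ℕ} (h2 : a i = 2) : ∃ o, vR a S i = ⟨2, S i, o⟩ := by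
  refine ⟨if i = 0 then none else some (S (i - 1)), ?_⟩
  unfold E.vR
  rw [h2]
  rfl

theorem vL_two {i : ℕ} (h2 : a (i + 1) = 2) : ∃ o, vL R a S (i + 1) = ⟨2, S i, o⟩ := by
  refine ⟨if i + 1 = R then none else some (S (i + 1)), ?_⟩
  unfold E.vL
  rw [h2]
  rfl

theorem two_S {o : Option Bool} (h : (⟨2, true, o⟩ : Vt).ok = true) : o = some false := by
  rcases o with _ | _ | _
  · exact absurd h (by decide)
  · rfl
  · exact absurd h (by decide)

/-- `2 A 4 S 2`. -/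
theorem ex4_AS (h : Pre E.Tfin R a S z ql qr zF) {i : ℕ} (hi : i + 1 < R) (h4 : a (i + 1) = 4)
    (hs : S i = false) (hs' : S (i + 1) = true) (h2 : a i = 2) (h2' : a (i + 2) = 2) :
    Hl R a S z i := by
  have t := Fld.tab4 h hi h4
  obtain ⟨r, hr, hr'⟩ := Fld.x4_r h hi h4 hs hs' h2 h2'
  obtain ⟨o, ho⟩ := vR_two (S := S) h2
  obtain ⟨o', ho'⟩ := vL_two (R := R) (S := S) (i := i + 1) h2'
  have k1 := h.ok_l (i := i + 1) hi
  rw [ho', hs'] at k1
  obtain rfl := two_S k1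
  have e1 : vL R a S (i + 1) = ⟨4, false, some true⟩ := by
    rw [Pre.vL_inner hi, h4, hs, hs']
    rfl
  rw [hs] at ho
  rw [hs'] at ho'
  rw [ho, ho', e1] at t
  rw [ho] at hr
  left
  rw [hs, hs', ho, ho']
  have c := List.all_eq_true.1 (ck4AS_ok o) r hr
  exact cv3_ok TallAS_ok (J := ⟨2, false, o⟩) (K := ⟨2, true, some false⟩) c t.1 t.2.1 hr'

/-- `2 S 4 A 2`. -/
theorem ex4_SA (h : Pre E.Tfin R a S z ql qr zF) {i : ℕ} (hi : i + 1 < R) (h4 : a (i + 1) = 4)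
    (hs : S i = true) (hs' : S (i + 1) = false) (h2 : a i = 2) (h2' : a (i + 2) = 2) :
    Hl R a S z i := by
  have t := Fld.tab4 h hi h4
  obtain ⟨r, hr, hr'⟩ := Fld.x4_l h hi h4 hs' hs h2' h2
  obtain ⟨o', ho'⟩ := vR_two (S := S) h2
  obtain ⟨o, ho⟩ := vL_two (R := R) (S := S) (i := i + 1) h2'
  have k1 := h.ok_r (i := i) (by omega)
  rw [ho', hs] at k1
  obtain rfl := two_S k1
  have e1 : vL R a S (i + 1) = ⟨4, true, some false⟩ := by
    rw [Pre.vL_inner hi, h4, hs, hs']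
    rfl
  have e2 : vR a S (i + 1) = ⟨4, false, some true⟩ := by
    rw [Pre.vR_inner, h4, hs, hs']
    rfl
  rw [hs'] at ho
  rw [hs] at ho'
  rw [ho, ho', e1, e2, M4_sw] at t
  rw [ho] at hr
  right
  rw [hs, hs', ho, ho']
  have c := List.all_eq_true.1 (ck4AS_ok o) r hr
  exact cv3_ok TallAS_ok (J := ⟨2, false, o⟩) (K := ⟨2, true, some false⟩) c t.1 t.2.2 hr'

/-- `2 A 4 A 2`, both neighbours at the ends. -/
theorem ex4_AA (h : Pre E.Tfin R a S z ql qr zF) {i : ℕ} (hi : i + 1 < R) (h4 : a (i + 1) = 4)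
    (hs' : S (i + 1) = false) (h2 : vR a S i = ⟨2, false, none⟩)
    (h2' : vL R a S (i + 2) = ⟨2, false, none⟩) : Hl R a S z i := by
  have t := Fld.tab4 h hi h4
  have hs : S i = false := by
    have := congrArg Vt.s h2
    exact this
  have e1 : vL R a S (i + 1) = ⟨4, false, some false⟩ := by
    rw [Pre.vL_inner hi, h4, hs, hs']
    rfl
  have e2 : vR a S (i + 1) = ⟨4, false, some false⟩ := by
    rw [Pre.vR_inner, h4, hs, hs']
    rfl
  rw [h2, h2', e1, e2] at t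
  left
  rw [hs, hs', h2, h2']
  exact cv3_ok TallAA_ok (J := ⟨2, false, none⟩) (K := ⟨2, false, none⟩) ck4AA_ok t.1 t.2.1 t.2.2

end Pool.Agent.S5.Z4
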