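import Pool.Agent.S5.I.TdL

/-!
# Flats of an inner node with four half twists: comparison of heights
-/

set_option autoImplicit false

namespace Pool.Agent.S5

open Pool.Agent.H63.VC3 Pool.Agent.S3 Complex MeasureTheory Filter Topology Set

theorem dn_le_height {s s' : ℝ} (h : |s| ≤ |s'|) (x : ℝ) : dn s x ≤ dn s' x := by
  have hC : Real.cosh (2 * Real.pi * s) ≤ Real.cosh (2 * Real.pi * s') := by
    rw [Real.cosh_le_cosh, abs_mul (2 * Real.pi) s, abs_mul (2 * Real.pi) s']
    exact mul_le_mul_of_nonneg_left h (abs_nonneg _)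
  unfold dn
  linarith

/-- `A log (1 + d / A)` increases. -/
theorem mul_log_mono {A A' d : ℝ} (h0 : 0 < A) (h1 : A ≤ A') (hd : 0 < A + d) :
    A * (Real.log (A + d) - Real.log A) ≤ A' * (Real.log (A' + d) - Real.log A') := by
  have hA' : 0 < A' := by linarith
  have hd' : 0 < A' + d := by linarith
  have hc := strictConcaveOn_log_Ioi.concaveOn
  have hθ1 : A / A' ≤ 1 := (div_le_one hA').2 h1
  have h := hc.2 (show (A + d) / A ∈ Ioi (0 : ℝ) from div_pos hd h0) (show (1 : ℝ) ∈ Ioi (0 : ℝ) from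
    mem_Ioi.2 zero_lt_one) (show 0 ≤ A / A' by positivity) (show 0 ≤ 1 - A / A' by linarith) (by ring)
  simp only [smul_eq_mul, Real.log_one, mul_zero, add_zero, mul_one] at h
  have e : A / A' * ((A + d) / A) + (1 - A / A') = (A' + d) / A' := by
    field_simp
    ring
  rw [e, Real.log_div hd.ne' h0.ne', Real.log_div hd'.ne' hA'.ne'] at h
  have h2 := mul_le_mul_of_nonneg_left h hA'.le
  have e2 : A' * (A / A' * (Real.log (A + d) - Real.log A)) =
      A * (Real.log (A + d) - Real.log A) := by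
    field_simp
  rw [e2] at h2
  exact h2

/-- The difference of the logarithms. -/
theorem Lg_sub_eq {s x y : ℝ} (hx : 0 < dn s x) (hy : 0 < dn s y) :
    Lg s y - Lg s x = (Real.log (dn s x + (Real.cos (2 * Real.pi * x) -
      Real.cos (2 * Real.pi * y))) - Real.log (dn s x)) / 2 := by
  have e : dn s x + (Real.cos (2 * Real.pi * x) - Real.cos (2 * Real.pi * y)) = dn s y := by
    unfold dn
    ring
  rw [e, Lg_eq_log, Lg_eq_log, Real.log_mul two_ne_zero hx.ne', Real.log_mul two_ne_zero hy.ne']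
  ring

/-- **The defect to the right, multiplied with the denominator, increases with the height.** -/
theorem Dd_right_height {s s' w0 w : ℝ} (h : |s| ≤ |s'|) (h0 : 0 < w0) (hw : w0 ≤ w) (h1 : w ≤ 1) :
    dn s w0 * Dd s w0 w ≤ dn s' w0 * Dd s' w0 w := by
  rcases hw.eq_or_lt with hw' | hw'
  · rw [← hw', Dd_self, Dd_self, mul_zero, mul_zero]
  have p : ∀ (s x : ℝ), 0 < x → x < 1 → 0 < dn s x := fun s x hx hx1 => dn_pos (Or.inr ⟨hx.ne', by
    rw [abs_of_pos hx]; exact hx1⟩)
  rw [Dd_eq, Dd_eq, ← intervalIntegral.integral_const_mul, ← intervalIntegral.integral_const_mul]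
  apply intervalIntegral.integral_mono_on_of_le_Ioo hw
  · exact ((Lg_integrable _ _ _).sub (by simp)).const_mul _
  · exact ((Lg_integrable _ _ _).sub (by simp)).const_mul _
  · intro u hu
    have hu0 : 0 < u := h0.trans hu.1
    have hu1 : u < 1 := lt_of_lt_of_le hu.2 h1
    have hw1 : w0 < 1 := lt_of_lt_of_le hw' h1
    have a1 := p s w0 h0 hw1
    have a2 := p s u hu0 hu1
    have a3 := p s' w0 h0 hw1
    have a4 := p s' u hu0 hu1
    rw [Lg_sub_eq a1 a2, Lg_sub_eq a3 a4]
    have e : dn s w0 + (Real.cos (2 * Real.pi * w0) - Real.cos (2 * Real.pi * u)) = dn s u := by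
      unfold dn
      ring
    have := mul_log_mono a1 (dn_le_height h w0) (by rw [e]; exact a2)
    linarith

/-- The defect to the left decreases with the height. -/
theorem Dd_left_height {s s' w0 w : ℝ} (h : |s| ≤ |s'|) (h0 : 0 ≤ w) (hw : w ≤ w0)
    (h1 : w0 ≤ 1 / 2) : Dd s' w0 w ≤ Dd s w0 w := by
  rcases hw.eq_or_lt with hw' | hw'
  · rw [← hw', Dd_self, Dd_self]
  rw [Dd_eq', Dd_eq']
  apply intervalIntegral.integral_mono_on_of_le_Ioo hw
  · exact (by simp : IntervalIntegrable (fun _ : ℝ => Lg s' w0) volume w w0).sub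
      (Lg_integrable _ _ _)
  · exact (by simp : IntervalIntegrable (fun _ : ℝ => Lg s w0) volume w w0).sub
      (Lg_integrable _ _ _)
  · intro u hu
    have hu0 : 0 < u := lt_of_le_of_lt h0 hu.1
    have hw0 : 0 < w0 := lt_of_le_of_lt h0 hw'
    have hC : Real.cosh (2 * Real.pi * s) ≤ Real.cosh (2 * Real.pi * s') := by
      rw [Real.cosh_le_cosh, abs_mul (2 * Real.pi) s, abs_mul (2 * Real.pi) s']
      exact mul_le_mul_of_nonneg_left h (abs_nonneg _)
    have hc : Real.cos (2 * Real.pi * w0) ≤ Real.cos (2 * Real.pi * u) :=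
      cos_anti hu0.le hu.2.le h1
    have p1 : ∀ s, 0 < dn s w0 := fun s => dn_pos (Or.inr ⟨hw0.ne', by
      rw [abs_of_pos hw0]; linarith⟩)
    have p2 : ∀ s, 0 < dn s u := fun s => dn_pos (Or.inr ⟨hu0.ne', by
      rw [abs_of_pos hu0]; linarith [hu.2]⟩)
    rw [Lg_eq_log, Lg_eq_log, Lg_eq_log, Lg_eq_log]
    have k : Real.log (2 * dn s' w0) + Real.log (2 * dn s u) ≤
        Real.log (2 * dn s w0) + Real.log (2 * dn s' u) := by
      have a1 := p1 s
      have a2 := p1 s'
      have a3 := p2 s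
      have a4 := p2 s'
      rw [← Real.log_mul (by positivity) (by positivity), ← Real.log_mul (by positivity)
        (by positivity)]
      apply Real.log_le_log (by positivity)
      unfold dn
      have := mul_nonneg (sub_nonneg.2 hC) (sub_nonneg.2 hc)
      nlinarith
    linarith

/-- Shift of the base point. -/
theorem Dd_shift (s a a' w : ℝ) :
    Dd s a' w = Dd s a w + Dd s a' a - (Lg s a' - Lg s a) * (w - a) := by
  unfold Dd
  ring

/-- **Reduction to the height zero.** -/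
theorem ff_height {e e0 u0 u s w0 w k : ℝ} (hk : 0 ≤ k) (he : |e| ≤ |e0|) (u1 : 0 ≤ u) (u2 : u ≤ u0)
    (u3 : u0 ≤ 1 / 2) (u4 : 0 < u0) (w1 : 0 < w0) (w2 : w0 < w) (w3 : w ≤ 1)
    (h : 0 < k * Dd e0 u0 u + Dd 0 w0 w) : 0 < k * Dd e u0 u + Dd s w0 w := by
  have h1 := Dd_left_height he u1 u2 u3
  have h1' := mul_le_mul_of_nonneg_left h1 hk
  have h2 : 0 ≤ Dd e u0 u := Dd_nonneg_left u4 u3 (by linarith) (by linarith) u2
  have hs : |(0 : ℝ)| ≤ |s| := by rw [abs_zero]; exact abs_nonneg _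
  have h3 := Dd_right_height hs w1 w2.le w3
  have p0 : 0 < dn 0 w0 := dn_pos (Or.inr ⟨w1.ne', by rw [abs_of_pos w1]; linarith⟩)
  have p1 := dn_le_height hs w0
  have ps : 0 < dn s w0 := lt_of_lt_of_le p0 p1
  rcases le_or_gt (Dd 0 w0 w) 0 with h4 | h4
  · have h5 : Dd 0 w0 w ≤ Dd s w0 w := by
      have h6 : dn s w0 * Dd 0 w0 w ≤ dn 0 w0 * Dd 0 w0 w :=
        mul_le_mul_of_nonpos_right p1 h4
      exact le_of_mul_le_mul_left (h6.trans h3) ps
    linarith
  · have h5 : 0 < Dd s w0 w := by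
      have h6 := mul_pos p0 h4
      exact (mul_pos_iff_of_pos_left ps).1 (lt_of_lt_of_le h6 h3)
    have := mul_nonneg hk h2
    linarith

end Pool.Agent.S5
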