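import Pool.Agent.S5.Z4.FFa
import Pool.Agent.S5.I.VB2

/-!
# Flats of an inner node with four half twists: the estimate on a cell
-/

set_option autoImplicit false

namespace Pool.Agent.S5

open Pool.Agent.H63.VC3 Pool.Agent.S3 Complex MeasureTheory Filter Topology Set

/-! ### The height zero -/

theorem Lgd_zero {x : ℝ} (h0 : 0 < x) (h1 : x ≤ 1 / 2) :
    Lgd 0 x = Real.pi * Real.cos (Real.pi * x) / Real.sin (Real.pi * x) := by
  have hpi := Real.pi_pos
  have hs : 0 < Real.sin (Real.pi * x) :=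
    Real.sin_pos_of_pos_of_lt_pi (by positivity) (by nlinarith)
  unfold Lgd dn
  rw [show 2 * Real.pi * x = 2 * (Real.pi * x) by ring, Real.sin_two_mul, Real.cos_two_mul,
    mul_zero, Real.cosh_zero]
  have e : 1 - (2 * Real.cos (Real.pi * x) ^ 2 - 1) = 2 * Real.sin (Real.pi * x) ^ 2 := by
    have := Real.sin_sq_add_cos_sq (Real.pi * x)
    linarith
  rw [e]
  field_simp

theorem Lgd_zero_anti {x y : ℝ} (h0 : 0 < x) (h1 : x ≤ y) (h2 : y ≤ 1 / 2) :
    Lgd 0 y ≤ Lgd 0 x := by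
  have hpi := Real.pi_pos
  have hx : 0 < Real.sin (Real.pi * x) :=
    Real.sin_pos_of_pos_of_lt_pi (by positivity) (by nlinarith)
  have hy : 0 < Real.sin (Real.pi * y) :=
    Real.sin_pos_of_pos_of_lt_pi (mul_pos hpi (by linarith)) (by nlinarith)
  rw [Lgd_zero h0 (h1.trans h2), Lgd_zero (by linarith) h2, div_le_div_iff₀ hy hx]
  have h3 : 0 ≤ Real.sin (Real.pi * y - Real.pi * x) :=
    Real.sin_nonneg_of_nonneg_of_le_pi (by nlinarith) (by nlinarith)
  rw [Real.sin_sub] at h3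
  nlinarith

theorem Lgd_zero_le_inv {x : ℝ} (h0 : 0 < x) (h1 : x ≤ 1 / 2) : Lgd 0 x ≤ 1 / x := by
  have hpi := Real.pi_pos
  have hx : 0 < Real.sin (Real.pi * x) :=
    Real.sin_pos_of_pos_of_lt_pi (by positivity) (by nlinarith)
  rw [Lgd_zero h0 h1, div_le_div_iff₀ hx h0, one_mul]
  have hp : 0 < Real.pi * x := by positivity
  rcases h1.lt_or_eq with h2 | h2
  · have h3 : Real.pi * x < Real.pi / 2 := by nlinarith
    have h4 := Real.lt_tan hp h3
    have hc := Real.cos_pos_of_mem_Ioo (x := Real.pi * x) ⟨by linarith, h3⟩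
    rw [Real.tan_eq_sin_div_cos, lt_div_iff₀ hc] at h4
    linarith
  · have e : Real.pi * x = Real.pi / 2 := by rw [h2]; ring
    rw [e, Real.cos_pi_div_two, mul_zero, zero_mul]
    rw [Real.sin_pi_div_two]
    norm_num

/-- Upper bound of a difference. -/
theorem Lg_zero_sub_le {x y κ : ℝ} (h0 : 0 < x) (h1 : x ≤ y) (h2 : y ≤ 1 / 2) (hκ : Lgd 0 x ≤ κ) :
    Lg 0 y - Lg 0 x ≤ κ * (y - x) := by
  have hd : ∀ u ∈ Icc x y, HasDerivAt (fun u => κ * u - Lg 0 u) (κ - Lgd 0 u) u := by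
    intro u hu
    have h5 : 0 < u := by linarith [hu.1]
    have h6 := ((hasDerivAt_id u).const_mul κ).sub (Lg_hasDerivAt (s := 0) (x := u)
      (Or.inr ⟨h5.ne', by rw [abs_of_pos h5]; linarith [hu.2]⟩))
    refine h6.congr_deriv ?_
    rw [mul_one]
  have hmono : MonotoneOn (fun u => κ * u - Lg 0 u) (Icc x y) := by
    apply monotoneOn_of_deriv_nonneg (convex_Icc _ _)
    · exact fun u hu => (hd u hu).continuousAt.continuousWithinAt
    · exact fun u hu => (hd u (interior_subset hu)).differentiableAt.differentiableWithinAt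
    · intro u hu
      have hu' := interior_subset hu
      rw [(hd u hu').deriv]
      have := Lgd_zero_anti h0 hu'.1 (hu'.2.trans h2)
      linarith
  have := hmono ⟨le_rfl, h1⟩ ⟨h1, le_rfl⟩ h1
  simp only at this
  linarith

/-- `Lg s` increases on `[0, 1/2]`. -/
theorem Lg_mono_half {s x y : ℝ} (h0 : 0 < x) (h1 : x ≤ y) (h2 : y ≤ 1 / 2) : Lg s x ≤ Lg s y :=
  Lg_le (dn_pos (Or.inr ⟨h0.ne', by rw [abs_of_pos h0]; linarith⟩)) (cos_anti h0.le h1 h2)

/-- `Dd 0 W w` decreases in `W`. -/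
theorem Dd_base_anti {W w0 w : ℝ} (h0 : 0 < w0) (h1 : w0 ≤ W) (h2 : W ≤ 1 / 2)
    (h3 : W ≤ w) : Dd 0 W w ≤ Dd 0 w0 w := by
  have h4 := Lg_mono_half (s := 0) h0 h1 h2
  have h5 : Dd 0 W w0 ≤ (Lg 0 W - Lg 0 w0) * (W - w0) := by
    rw [Dd_eq']
    have e : (Lg 0 W - Lg 0 w0) * (W - w0) = ∫ _ in w0..W, (Lg 0 W - Lg 0 w0) := by
      rw [intervalIntegral.integral_const, smul_eq_mul]
      ring
    rw [e]
    apply intervalIntegral.integral_mono_on h1
    · exact (by simp : IntervalIntegrable (fun _ : ℝ => Lg 0 W) volume w0 W).sub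
        (Lg_integrable _ _ _)
    · simp
    · intro u hu
      have := Lg_mono_half (s := 0) h0 hu.1 (hu.2.trans h2)
      linarith
  have h6 := Dd_shift 0 w0 W w
  have h7 : (Lg 0 W - Lg 0 w0) * (W - w0) ≤ (Lg 0 W - Lg 0 w0) * (w - w0) :=
    mul_le_mul_of_nonneg_left (by linarith) (by linarith)
  linarith

/-- `Dd 0 W (1 - b)` increases in `b`. -/
theorem Dd_b_mono {W b b' : ℝ} (h0 : 0 < b) (h1 : b ≤ b') (h2 : b' ≤ W) (h3 : W ≤ 1 / 2) :
    Dd 0 W (1 - b) ≤ Dd 0 W (1 - b') := by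
  have h4 := Dd_reflect 0 W (1 - b)
  have h5 := Dd_reflect 0 W (1 - b')
  rw [sub_sub_cancel] at h4 h5
  have h6 := Dd_sub 0 W b b'
  have h7 : ∫ u in b..b', (Lg 0 u - Lg 0 W) ≤ 0 := by
    have e : ∫ _ in b..b', (0 : ℝ) = 0 := by simp
    refine le_trans ?_ (le_of_eq e)
    apply intervalIntegral.integral_mono_on h1
    · exact (Lg_integrable _ _ _).sub (by simp)
    · simp
    · intro u hu
      have := Lg_mono_half (s := 0) (x := u) (y := W) (by linarith [hu.1]) (hu.2.trans h2) h3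
      linarith
  linarith

/-! ### The cell -/

/-- The function `Rf` on a line. -/
noncomputable def Rl (s x : ℝ) : ℝ := Rf ((x : ℂ) + s * I)

theorem Rl_one_sub (x : ℝ) : Rl 0 (1 - x) = -Rl 0 x := by
  unfold Rl
  rw [← Rf_one_sub]
  congr 1
  push_cast
  ring

theorem Dd_Rl (s w0 w : ℝ) : Dd s w0 w = Rl s w - Rl s w0 - Lg s w0 * (w - w0) := rfl

/-- The defect is nonnegative on `(0, 1/2]`. -/
theorem Dd_nonneg_half {s p u : ℝ} (h0 : 0 < p) (h1 : p ≤ 1 / 2) (h2 : 0 ≤ u) (h3 : u ≤ 1 / 2) :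
    0 ≤ Dd s p u := by
  rcases le_total u p with h | h
  · exact Dd_nonneg_left h0 h1 (by linarith) (by linarith) h
  · exact Dd_nonneg_right h0 h (by linarith)

/-- The first summand. -/
theorem cell_left {e a v p u0 u m : ℝ} (ha : 0 < a) (hv : v ≤ 1 / 2) (h1 : a ≤ u0) (h2 : u0 ≤ v)
    (hp : 0 < p) (hp1 : p ≤ 1 / 2) (hu : 0 ≤ u) (hua : u ≤ a) (hm : 0 ≤ m) (hma : m ≤ Lgd e a)
    (hmv : m ≤ Lgd e v) : Rl e p + Lg e p * (u - p) - Rl e a - Lg e a * (u - a) +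
      m * (u0 - a) * (a - u) ≤ Dd e u0 u := by
  have d1 := Dd_nonneg_half (s := e) hp hp1 hu (by linarith)
  rw [Dd_Rl] at d1
  have d2 : 0 ≤ Dd e u0 a := Dd_nonneg_half (by linarith) (by linarith) ha.le (by linarith)
  have d3 := Dd_shift e a u0 u
  have d4 := VB.Lg_sub_ge (s := e) (u := a) (w0 := u0) (v := v) (m := m) ha hv h1 h2 hm hma hmv
  have d5 := mul_le_mul_of_nonneg_right d4 (show 0 ≤ a - u by linarith)
  have d6 := Dd_Rl e a u
  linarith

/-- The second summand. -/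
theorem cell_right {W W1 q b κ r : ℝ} (hW : 0 < W) (h1 : W ≤ W1) (h2 : W1 ≤ 1 / 2) (hr : 0 < r)
    (hq : r ≤ q) (hq1 : q ≤ 1 / 2) (hb : r ≤ b) (hb1 : b ≤ 1 / 2) (hκ : Lgd 0 W ≤ κ) :
    -Rl 0 q - Lg 0 q * (b - q) - 1 / r / 2 * (b - q) ^ 2 - Rl 0 W - Lg 0 W * (1 - b - W) -
      κ * (W1 - W) * (1 - b - W) ≤ Dd 0 W1 (1 - b) := by
  have d1 : Dd 0 q b ≤ 1 / r / 2 * (b - q) ^ 2 := by
    have hsub : uIcc q b ⊆ Icc r (1 / 2) := uIcc_subset_Icc ⟨hq, hq1⟩ ⟨hb, hb1⟩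
    apply VB.Dd_le_quad
    · intro y hy
      have := hsub hy
      have h5 : 0 < y := by linarith [this.1]
      exact Or.inr ⟨h5.ne', by rw [abs_of_pos h5]; linarith [this.2]⟩
    · intro y hy
      have h6 := hsub hy
      have h5 : 0 < y := by linarith [h6.1]
      exact (Lgd_zero_le_inv h5 h6.2).trans (one_div_le_one_div_of_le hr h6.1)
  rw [Dd_Rl] at d1
  have d2 : 0 ≤ Dd 0 W1 W := Dd_nonneg_half (by linarith) h2 hW.le (by linarith)
  have d3 := Dd_shift 0 W W1 (1 - b)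
  have d4 := Lg_zero_sub_le hW h1 h2 hκ
  have d5 := mul_le_mul_of_nonneg_right d4 (show 0 ≤ 1 - b - W by linarith)
  have d6 := Dd_Rl 0 W (1 - b)
  rw [Rl_one_sub] at d6
  linarith

end Pool.Agent.S5
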