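import Pool.Agent.S5.Z4.FFb
import Pool.Agent.S5.I.NumPk

/-!
# Flats of an inner node with four half twists: the program

Positions have the unit `1 / 800`, values the unit `10 ^ (-9)`.
-/

set_option autoImplicit false

namespace Pool.Agent.S5

open Pool.Agent.H63.VC3 Pool.Agent.S3 Pool.Agent.S5.Num Complex

/-- Values of `Rf`, `Lg`, `Lgd` at the position `x`. -/
structure Nv where
  x : ℕ
  f : ℤ
  l : ℤ
  d : ℤ

/-- The values are correct. -/
structure Nv.Ok (s : ℝ) (E : ℤ) (n : Nv) : Prop where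
  x0 : (0 : ℝ) < n.x
  x1 : (n.x : ℝ) ≤ 400
  f : |Rl s ((n.x : ℝ) / 800) * 1000000000 - n.f| ≤ E
  l : |Lg s ((n.x : ℝ) / 800) * 1000000000 - n.l| ≤ 1
  d : |Lgd s ((n.x : ℝ) / 800) * 1000000000 - n.d| ≤ 1

/-- The test of one value. -/
def tvf (r e : ℕ) (f : ℤ) (E : ℤ) : Bool :=
  decide (|((r : ℤ) - 4503599627370496) * 1000000000 - f * 281474976710656| + e * 1000000000 ≤
    E * 281474976710656)

/-- The test of the values. -/
def Nv.ok (N S : ℕ) (E : ℤ) (n : Nv) : Bool :=
  decide (0 < n.x) && ptK N n.x S 800 (fun r e l t eL cr ci eC =>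
    tvf r e n.f E && tvf l eL n.l 1 && tvf cr eC n.d 1)

theorem tv_ok {y : ℝ} {r e : ℕ} {f E : ℤ} (h : |y * 281474976710656 + 4503599627370496 - r| ≤ e)
    (h' : tvf r e f E = true) : |y * 1000000000 - f| ≤ E := by
  unfold tvf at h'
  have h1 := of_decide_eq_true h'
  have h2 : |((r : ℝ) - 4503599627370496) * 1000000000 - f * 281474976710656| + e * 1000000000 ≤
      E * 281474976710656 := by exact_mod_cast h1
  have h3 := (abs_add_le (((r : ℝ) - 4503599627370496) * 1000000000 - f * 281474976710656)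
    ((y * 281474976710656 + 4503599627370496 - r) * 1000000000))
  have h4 : |(y * 281474976710656 + 4503599627370496 - r) * 1000000000| ≤ e * 1000000000 := by
    rw [abs_mul, abs_of_pos (show (0 : ℝ) < 1000000000 by norm_num)]
    exact mul_le_mul_of_nonneg_right h (by norm_num)
  have e1 : ((r : ℝ) - 4503599627370496) * 1000000000 - f * 281474976710656 +
      (y * 281474976710656 + 4503599627370496 - r) * 1000000000 =
      (y * 1000000000 - f) * 281474976710656 := by ring
  rw [e1, abs_mul, abs_of_pos (show (0 : ℝ) < 281474976710656 by norm_num)] at h3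
  have h5 : |y * 1000000000 - f| * 281474976710656 ≤ E * 281474976710656 := by linarith
  exact le_of_mul_le_mul_right h5 (by norm_num)

theorem cot_re_Lgd (x s : ℝ) : (Real.pi * cot (Real.pi * ((x : ℂ) + s * I))).re = Lgd s x := by
  rw [re_ofReal_mul, cot_re]
  unfold Lgd dn
  ring

theorem Nv.ok_sound {N S : ℕ} {E : ℤ} {n : Nv} (h : n.ok N S E = true) :
    n.Ok ((S : ℝ) / 800) E := by
  unfold Nv.ok at h
  rw [Bool.and_eq_true] at h
  have hx := of_decide_eq_true h.1
  have h := h.2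
  have hX : 2 * n.x ≤ 800 := by
    unfold ptK at h
    simp only [cond_true_iff] at h
    exact (bsK_sound h.2).2.1
  obtain ⟨r, e, l, t, eL, cr, ci, eC, h1, h2, h3⟩ := ptK_sound h
  rw [Bool.and_eq_true, Bool.and_eq_true] at h3
  obtain ⟨⟨k1, k2⟩, k3⟩ := h3
  have hU : Num.UU = 281474976710656 := rfl
  have hK : Num.KK = 4503599627370496 := rfl
  have c8 : ((800 : ℕ) : ℝ) = 800 := Nat.cast_ofNat
  rw [c8] at h1 h2
  refine ⟨by exact_mod_cast hx, ?_, ?_, ?_, ?_⟩
  · have : n.x ≤ 400 := by omega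
    exact_mod_cast this
  · apply tv_ok _ k1
    rw [hU, hK] at h2
    exact h2
  · have := tv_ok (y := Lg ((S : ℝ) / 800) ((n.x : ℝ) / 800)) (r := l) (e := eL) (by
      have h6 := h1.l
      rw [hU, hK] at h6
      rw [show Lg ((S : ℝ) / 800) ((n.x : ℝ) / 800) * 281474976710656 + 4503599627370496 - l =
        4503599627370496 + 281474976710656 * Lg ((S : ℝ) / 800) ((n.x : ℝ) / 800) - l by ring]
      exact h6) k2
    exact_mod_cast this
  · have := tv_ok (y := Lgd ((S : ℝ) / 800) ((n.x : ℝ) / 800)) (r := cr) (e := eC) (by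
      have h6 := h1.cr
      rw [hU, hK, cot_re_Lgd] at h6
      rw [show Lgd ((S : ℝ) / 800) ((n.x : ℝ) / 800) * 281474976710656 + 4503599627370496 - cr =
        4503599627370496 + 281474976710656 * Lgd ((S : ℝ) / 800) ((n.x : ℝ) / 800) - cr by ring]
      exact h6) k3
    exact_mod_cast this

/-! ### The programs -/

/-- The data of a strip: `a`, `W`, the minimum of the derivative. -/
structure St where
  A : Nv
  W : Nv
  m : ℤ

/-- The test of a cell. -/
def ffcell (h k E1 E0 : ℤ) (s : St) (P Q : Nv) : Bool :=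
  let a : ℤ := s.A.x
  let p : ℤ := P.x
  let q : ℤ := Q.x
  let w : ℤ := s.W.x
  let A0 : ℤ := 1280000 * (2 * (P.f - s.A.f) - Q.f - s.W.f -
    (4 * E1 + 2 * E0 + (625000 * k * k / (q - k) + 1) + 10)) +
    1600 * (2 * s.A.l * (a - p) - s.W.l * (800 - q - w))
  let A1 : ℤ := 1600 * (2 * P.l - 2 * s.A.l - Q.l + s.W.l)
  let B0 : ℤ := 4 * s.m * (a - p) - (s.W.d + 1) * (800 - q - w)
  let B1 : ℤ := -4 * s.m + (s.W.d + 1)
  decide (p + k ≤ a) && decide (0 < q - k) && decide (q + k ≤ 400) && decide (0 < A0 - |A1| * k) &&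
    decide (0 < A0 + h * B0 - |A1 + h * B1| * k)

/-- The test at the end. -/
def fffin (h E0 : ℤ) (s : St) (Q : Nv) : Bool :=
  let q : ℤ := Q.x
  let w : ℤ := s.W.x
  decide (0 ≤ s.W.d + 1) && decide (0 < 1280000 * (-Q.f - s.W.f - (2 * E0 + 3)) +
    1600 * (-(s.W.l * (800 - q - w))) - h * ((s.W.d + 1) * (800 - q - w)))

/-- A strip. -/
def ffstrip (c h k E1 E0 : ℤ) (s : St) : List (Nv × Nv) → ℤ → Bool
  | [], _ => false
  | R :: L, x => decide ((R.1.x : ℤ) = x + k) && decide ((R.2.x : ℤ) = R.1.x + c) &&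
      ffcell h k E1 E0 s R.1 R.2 && (fffin h E0 s R.2 || ffstrip c h k E1 E0 s L (x + 2 * k))

/-- All strips. -/
def ffall (c h k E1 E0 w0 : ℤ) (C : List (Nv × Nv)) : List St → Bool
  | [] => true
  | s :: L => (match L with
      | [] => true
      | s' :: _ => decide ((s'.A.x : ℤ) = s.A.x + h) && decide (s.m + 1 ≤ s.A.d) &&
          decide (s.m + 1 ≤ s'.A.d) && decide (0 ≤ s.m) && decide (2 * (s.W.x : ℤ) = w0 + s.A.x) &&
          decide (2 * (s.W.x : ℤ) + h ≤ 800) && ffstrip c h k E1 E0 s C 0) &&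
      ffall c h k E1 E0 w0 C L

end Pool.Agent.S5
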