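import Pool.Agent.S5.Z4.FFc

/-!
# Flats of an inner node with four half twists: soundness of the program
-/

set_option autoImplicit false

namespace Pool.Agent.S5

open Pool.Agent.H63.VC3 Pool.Agent.S3 Complex

/-- The conclusion on a strip, from `u = x` on. -/
def StripOK (e0 c u0 W1 x : ℝ) : Prop := ∀ u, x ≤ u → u + c ≤ W1 →
  (u ≤ u0 → 0 < 2 * Dd e0 u0 u + Dd 0 W1 (1 - (u + c))) ∧
    (u0 < u → 0 < Dd 0 W1 (1 - (u + c)))

/-- A bilinear function is positive. -/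
theorem bil_pos {A0 A1 B0 B1 h k d e : ℝ} (hd : 0 ≤ d) (hd1 : d ≤ h) (he : |e| ≤ k)
    (h1 : 0 < A0 - |A1| * k) (h2 : 0 < A0 + h * B0 - |A1 + h * B1| * k) :
    0 < A0 + A1 * e + d * (B0 + B1 * e) := by
  have k1 : ∀ A : ℝ, -(|A| * k) ≤ A * e := by
    intro A
    have h3 : |A * e| ≤ |A| * k := by
      rw [abs_mul]
      exact mul_le_mul_of_nonneg_left he (abs_nonneg _)
    exact (abs_le.1 h3).1
  have e1 := k1 A1
  have e2 := k1 (A1 + h * B1)
  rcases (show 0 ≤ h by linarith only [hd1, hd]).eq_or_lt with h0 | h0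
  · have hd0 : d = 0 := by linarith only [hd, h0, hd1]
    rw [hd0]
    linarith only [e1, h1]
  · have p1 : 0 < A0 + A1 * e := by linarith only [e1, h1]
    have p2 : 0 < A0 + A1 * e + h * (B0 + B1 * e) := by linarith only [e2, h2]
    have e3 : h * (A0 + A1 * e + d * (B0 + B1 * e)) =
        (h - d) * (A0 + A1 * e) + d * (A0 + A1 * e + h * (B0 + B1 * e)) := by ring
    have p3 : 0 < h * (A0 + A1 * e + d * (B0 + B1 * e)) := by
      rw [e3]
      rcases hd.eq_or_lt with h5 | h5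
      · rw [← h5]
        have := mul_pos h0 p1
        linarith only [this]
      · have q1 := mul_nonneg (show 0 ≤ h - d by linarith only [hd1]) p1.le
        have q2 := mul_pos h5 p2
        linarith only [q2, q1]
    exact (mul_pos_iff_of_pos_left h0).1 p3

/-- The product with an error. -/
theorem mul_err {x y t T : ℝ} (h : |x - y| ≤ 1) (ht : |t| ≤ T) : y * t - T ≤ x * t := by
  have h1 : |(x - y) * t| ≤ 1 * T := by
    rw [abs_mul]
    exact mul_le_mul h ht (abs_nonneg _) zero_le_one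
  have := (abs_le.1 h1).1
  linarith only [this]

theorem ffcell_sound {h k E1 E0 : ℤ} {s : St} {P Q : Nv} {e0 u0 W1 u v : ℝ}
    (hc : ffcell h k E1 E0 s P Q = true) (hk : 0 ≤ k)
    (hA : s.A.Ok e0 E1) (hW : s.W.Ok 0 E0) (hP : P.Ok e0 E1) (hQ : Q.Ok 0 E0)
    (hm0 : 0 ≤ s.m) (hm1 : (s.m : ℝ) ≤ Lgd e0 ((s.A.x : ℝ) / 800) * 1000000000)
    (hm2 : (s.m : ℝ) ≤ Lgd e0 v * 1000000000) (hv : v ≤ 1 / 2)
    (h1 : (s.A.x : ℝ) / 800 ≤ u0) (h2 : u0 ≤ v) (h3 : (u0 - (s.A.x : ℝ) / 800) * 800 ≤ h)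
    (hW1 : W1 = (s.W.x : ℝ) / 800 + (u0 - (s.A.x : ℝ) / 800) / 2) (hW2 : W1 ≤ 1 / 2)
    (hu0 : 0 ≤ u) (hu : |(u - (P.x : ℝ) / 800) * 800| ≤ k) :
    0 < 2 * Dd e0 u0 u + Dd 0 W1 (1 - ((Q.x : ℝ) / 800 + (u - (P.x : ℝ) / 800))) ∧ u ≤ u0 := by
  unfold ffcell at hc
  simp only [Bool.and_eq_true, decide_eq_true_eq] at hc
  obtain ⟨⟨⟨⟨c1, c2⟩, c3⟩, c4⟩, c5⟩ := hc
  have r1 : (P.x : ℝ) + k ≤ s.A.x := by exact_mod_cast c1
  have r2 : (0 : ℝ) < (Q.x : ℝ) - k := by exact_mod_cast c2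
  have r3 : (Q.x : ℝ) + k ≤ 400 := by exact_mod_cast c3
  have hk' : (0 : ℝ) ≤ k := by exact_mod_cast hk
  have hdiv : (625000 * (k : ℝ) * k) / ((Q.x : ℝ) - k) ≤
      ((625000 * k * k / ((Q.x : ℤ) - k) : ℤ) : ℝ) + 1 := by
    have h5 : 625000 * k * k < ((Q.x : ℤ) - k) * (625000 * k * k / ((Q.x : ℤ) - k) + 1) := by
      have := Int.lt_mul_ediv_self_add (x := 625000 * k * k) c2
      linarith only [this]
    rw [div_le_iff₀ r2]
    have h6 : (625000 * (k : ℝ) * k) < ((Q.x : ℝ) - k) *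
        (((625000 * k * k / ((Q.x : ℤ) - k) : ℤ) : ℝ) + 1) := by exact_mod_cast h5
    linarith only [h6]
  generalize hKE : 625000 * k * k / ((Q.x : ℤ) - k) = KE at *
  have r4 : (0 : ℝ) < ((1280000 * (2 * (P.f - s.A.f) - Q.f - s.W.f -
    (4 * E1 + 2 * E0 + (KE + 1) + 10)) +
    1600 * (2 * s.A.l * (s.A.x - P.x) - s.W.l * (800 - Q.x - s.W.x)) -
      |1600 * (2 * P.l - 2 * s.A.l - Q.l + s.W.l)| * k : ℤ) : ℝ) := by exact_mod_cast c4
  have r5 : (0 : ℝ) < ((1280000 * (2 * (P.f - s.A.f) - Q.f - s.W.f -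
    (4 * E1 + 2 * E0 + (KE + 1) + 10)) +
    1600 * (2 * s.A.l * (s.A.x - P.x) - s.W.l * (800 - Q.x - s.W.x)) +
      h * (4 * s.m * (s.A.x - P.x) - (s.W.d + 1) * (800 - Q.x - s.W.x)) -
      |1600 * (2 * P.l - 2 * s.A.l - Q.l + s.W.l) + h * (-4 * s.m + (s.W.d + 1))| * k : ℤ) : ℝ) := by
    exact_mod_cast c5
  push_cast at r4 r5
  clear c1 c2 c3 c4 c5 hKE
  obtain ⟨Ax0, Ax1, Af, Al, -⟩ := hA
  obtain ⟨Wx0, Wx1, Wf, Wl, Wd⟩ := hW
  obtain ⟨Px0, Px1, Pf, Pl, -⟩ := hP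
  obtain ⟨Qx0, Qx1, Qf, Ql, -⟩ := hQ
  generalize (s.A.x : ℝ) = a at *
  generalize (P.x : ℝ) = p at *
  generalize (Q.x : ℝ) = q at *
  generalize (s.W.x : ℝ) = w at *
  have ux := abs_le.1 hu
  have hua : u ≤ a / 800 := by linarith only [ux.2, r1]
  refine ⟨?_, by linarith only [ux.2, r1, h1]⟩
  have l1 := cell_left (e := e0) (a := a / 800) (v := v) (p := p / 800) (u0 := u0) (u := u)
    (m := (s.m : ℝ) / 1000000000) (by linarith only [Ax0]) hv h1 h2 (by linarith only [Px0]) (by linarith only [Px1]) hu0 hua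
    (by have : (0 : ℝ) ≤ s.m := by exact_mod_cast hm0
        positivity) (by rw [div_le_iff₀ (by norm_num)]; exact hm1)
    (by rw [div_le_iff₀ (by norm_num)]; exact hm2)
  have hκ : Lgd 0 (w / 800) ≤ ((s.W.d : ℝ) + 1) / 1000000000 := by
    rw [le_div_iff₀ (by norm_num)]
    have := (abs_le.1 Wd).2
    linarith only [this]
  have l2 := cell_right (W := w / 800) (W1 := W1) (q := q / 800)
    (b := q / 800 + (u - p / 800)) (κ := ((s.W.d : ℝ) + 1) / 1000000000) (r := (q - k) / 800)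
    (by linarith only [Wx0]) (by rw [hW1]; linarith only [h1]) hW2 (by linarith only [r2]) (by linarith only [hk']) (by linarith only [r3,
                                                                                                                          hk'])
    (by linarith only [ux.1]) (by linarith only [ux.2, r3]) hκ
  obtain ⟨δ, hδ⟩ : ∃ δ : ℝ, δ = (u0 - a / 800) * 800 := ⟨_, rfl⟩
  obtain ⟨ε, hε⟩ : ∃ ε : ℝ, ε = (u - p / 800) * 800 := ⟨_, rfl⟩
  rw [← hδ] at h3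
  rw [← hε] at hu ux
  have eu0 : u0 = a / 800 + δ / 800 := by rw [hδ]; ring
  have eu : u = p / 800 + ε / 800 := by rw [hε]; ring
  have eW : W1 = w / 800 + δ / 1600 := by rw [hW1, hδ]; ring
  rw [eu, eu0] at l1
  rw [eu, eW] at l2
  rw [eu, eu0, eW]
  have δ0 : 0 ≤ δ := by rw [hδ]; linarith only [h1]
  have key := bil_pos δ0 h3 hu r4 r5
  -- the quadratic term
  have qd : 1 / ((q - k) / 800) / 2 * (ε / 800) ^ 2 * 1000000000 ≤ (KE : ℝ) + 1 := by
    have e1 : 1 / ((q - k) / 800) / 2 * (ε / 800) ^ 2 * 1000000000 =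
        625000 * ε ^ 2 / (q - k) := by
      field_simp
      ring
    rw [e1]
    refine le_trans ?_ hdiv
    apply div_le_div_of_nonneg_right _ r2.le
    have : ε ^ 2 ≤ (k : ℝ) ^ 2 := sq_le_sq' ux.1 ux.2
    linarith only [this]
  -- the errors
  have n1 := mul_err (t := ε / 800) (T := 1) Pl (by
    rw [abs_div, div_le_one (by norm_num)]
    rw [abs_of_pos (show (0 : ℝ) < 800 by norm_num)]
    have : (k : ℝ) ≤ 400 := by linarith only [r1, Px0, h1, h2, hv]
    linarith only [hu, r1, Px0, h1, h2, hv])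
  have n2 := mul_err (t := -((p / 800 + ε / 800) - a / 800)) (T := 1) Al (by
    rw [abs_le]
    constructor <;> linarith)
  have n3 := mul_err (t := -(ε / 800)) (T := 1) Ql (by
    rw [abs_neg, abs_div, div_le_one (by norm_num)]
    rw [abs_of_pos (show (0 : ℝ) < 800 by norm_num)]
    have : (k : ℝ) ≤ 400 := by linarith only [r1, Px0, h1, h2, hv]
    linarith only [hu, r1, Px0, h1, h2, hv])
  have n4 := mul_err (t := -(1 - (q / 800 + ε / 800) - w / 800)) (T := 1) Wl (by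
    rw [abs_le]
    constructor <;> linarith)
  have f1 := (abs_le.1 Pf).1
  have f2 := (abs_le.1 Af).2
  have f3 := (abs_le.1 Qf).2
  have f4 := (abs_le.1 Wf).2
  have e2 : (q / 800 + (p / 800 + ε / 800 - p / 800)) = q / 800 + ε / 800 := by ring
  rw [e2] at l2 ⊢
  have e3 : q / 800 + ε / 800 - q / 800 = ε / 800 := by ring
  rw [e3] at l2
  have e4 : p / 800 + ε / 800 - p / 800 = ε / 800 := by ring
  rw [e4] at l1
  have e5 : a / 800 + δ / 800 - a / 800 = δ / 800 := by ring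
  rw [e5] at l1
  have e6 : w / 800 + δ / 1600 - w / 800 = δ / 1600 := by ring
  rw [e6] at l2
  have E : 0 < (2 * Dd e0 (a / 800 + δ / 800) (p / 800 + ε / 800) +
      Dd 0 (w / 800 + δ / 1600) (1 - (q / 800 + ε / 800))) * (1280000 * 1000000000) := by
    have g1 := mul_le_mul_of_nonneg_right l1 (show (0 : ℝ) ≤ 2 * (1280000 * 1000000000) by norm_num)
    have g2 := mul_le_mul_of_nonneg_right l2 (show (0 : ℝ) ≤ 1280000 * 1000000000 by norm_num)
    linarith only [f4, f3, f2, f1, n4, n3, n2, n1, qd, key, l1, l2]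
  exact (mul_pos_iff_of_pos_right (by norm_num)).1 E

end Pool.Agent.S5
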