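import Pool.Agent.S5.Z4.FFd

/-!
# Flats of an inner node with four half twists: strips
-/

set_option autoImplicit false

namespace Pool.Agent.S5

open Pool.Agent.H63.VC3 Pool.Agent.S3 Complex

theorem fffin_sound {h E0 : ℤ} {s : St} {Q : Nv} {W1 δ : ℝ}
    (hc : fffin h E0 s Q = true) (hW : s.W.Ok 0 E0) (hQ : Q.Ok 0 E0)
    (h0 : 0 ≤ δ) (h3 : δ ≤ h) (hW1 : W1 = (s.W.x : ℝ) / 800 + δ / 1600) (hW2 : W1 ≤ 1 / 2) :
    0 < Dd 0 W1 (1 - (Q.x : ℝ) / 800) := by
  unfold fffin at hc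
  simp only [Bool.and_eq_true, decide_eq_true_eq] at hc
  obtain ⟨c1, c2⟩ := hc
  have r1 : (0 : ℝ) ≤ (s.W.d : ℝ) + 1 := by exact_mod_cast c1
  have r2 : (0 : ℝ) < ((1280000 * (-Q.f - s.W.f - (2 * E0 + 3)) +
    1600 * (-(s.W.l * (800 - Q.x - s.W.x))) - h * ((s.W.d + 1) * (800 - Q.x - s.W.x)) : ℤ) : ℝ) := by
    exact_mod_cast c2
  push_cast at r2
  clear c1 c2
  obtain ⟨Wx0, Wx1, Wf, Wl, Wd⟩ := hW
  obtain ⟨Qx0, Qx1, Qf, Ql, -⟩ := hQ
  generalize (Q.x : ℝ) = q at *
  generalize (s.W.x : ℝ) = w at *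
  have hκ : Lgd 0 (w / 800) ≤ ((s.W.d : ℝ) + 1) / 1000000000 := by
    rw [le_div_iff₀ (by norm_num)]
    have := (abs_le.1 Wd).2
    linarith
  have l2 := cell_right (W := w / 800) (W1 := W1) (q := q / 800)
    (b := q / 800) (κ := ((s.W.d : ℝ) + 1) / 1000000000) (r := q / 800)
    (by linarith) (by rw [hW1]; linarith) hW2 (by linarith) le_rfl (by linarith)
    le_rfl (by linarith) hκ
  rw [hW1] at l2 ⊢
  have n4 := mul_err (t := -(1 - q / 800 - w / 800)) (T := 1) Wl (by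
    rw [abs_le]
    constructor <;> linarith)
  have f3 := (abs_le.1 Qf).2
  have f4 := (abs_le.1 Wf).2
  have e6 : w / 800 + δ / 1600 - w / 800 = δ / 1600 := by ring
  rw [e6, sub_self] at l2
  have g0 : δ * (((s.W.d : ℝ) + 1) * (800 - q - w)) ≤ h * (((s.W.d : ℝ) + 1) * (800 - q - w)) :=
    mul_le_mul_of_nonneg_right h3 (mul_nonneg r1 (by linarith))
  have E : 0 < Dd 0 (w / 800 + δ / 1600) (1 - q / 800) * (1280000 * 1000000000) := by
    have g2 := mul_le_mul_of_nonneg_right l2 (show (0 : ℝ) ≤ 1280000 * 1000000000 by norm_num)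
    linarith
  exact (mul_pos_iff_of_pos_right (by norm_num)).1 E

theorem ffstrip_sound {c h k E1 E0 : ℤ} {s : St} {e0 u0 W1 v δ : ℝ} (hk : 0 ≤ k) (hc0 : 0 ≤ c)
    (hA : s.A.Ok e0 E1) (hW : s.W.Ok 0 E0)
    (hm0 : 0 ≤ s.m) (hm1 : (s.m : ℝ) ≤ Lgd e0 ((s.A.x : ℝ) / 800) * 1000000000)
    (hm2 : (s.m : ℝ) ≤ Lgd e0 v * 1000000000) (hv : v ≤ 1 / 2)
    (hu0 : u0 = (s.A.x : ℝ) / 800 + δ / 800) (h2 : u0 ≤ v) (h0 : 0 ≤ δ) (h3 : δ ≤ h)
    (hW1 : W1 = (s.W.x : ℝ) / 800 + δ / 1600) (hW2 : W1 ≤ 1 / 2) :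
    ∀ (L : List (Nv × Nv)) (x : ℤ), (∀ R ∈ L, R.1.Ok e0 E1 ∧ R.2.Ok 0 E0) → 0 ≤ x →
      ffstrip c h k E1 E0 s L x = true → StripOK e0 ((c : ℝ) / 800) u0 W1 ((x : ℝ) / 800) := by
  intro L
  induction L with
  | nil =>
    intro x _ _ h
    unfold ffstrip at h
    exact absurd h (by simp)
  | cons R L ih =>
    intro x hL hx hh
    unfold ffstrip at hh
    rw [Bool.and_eq_true, Bool.and_eq_true, Bool.and_eq_true] at hh
    obtain ⟨⟨⟨a1, a2⟩, b1⟩, a3⟩ := hh
    have a1 := of_decide_eq_true a1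
    have a2 := of_decide_eq_true a2
    have r1 : (R.1.x : ℝ) = x + k := by exact_mod_cast a1
    have r2 : (R.2.x : ℝ) = R.1.x + c := by exact_mod_cast a2
    have hx' : (0 : ℝ) ≤ x := by exact_mod_cast hx
    have hk' : (0 : ℝ) ≤ k := by exact_mod_cast hk
    have hc' : (0 : ℝ) ≤ c := by exact_mod_cast hc0
    obtain ⟨o1, o2⟩ := hL R List.mem_cons_self
    have hAx := hA.x0
    have hq0 := o2.x0
    have hu00 : 0 < u0 := by rw [hu0]; linarith
    intro u hu hu2
    have hcell : u ≤ ((x : ℝ) + 2 * k) / 800 →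
        0 < 2 * Dd e0 u0 u + Dd 0 W1 (1 - (u + (c : ℝ) / 800)) ∧ u ≤ u0 := by
      intro h5
      have key := ffcell_sound (u := u) (u0 := u0) (W1 := W1) b1 hk hA hW o1 o2 hm0 hm1 hm2 hv
        (by rw [hu0]; linarith) h2 (by rw [hu0]; linarith) (by rw [hW1, hu0]; ring) hW2
        (by linarith) (by
          rw [abs_le, r1]
          constructor <;> linarith)
      have e : (R.2.x : ℝ) / 800 + (u - (R.1.x : ℝ) / 800) = u + (c : ℝ) / 800 := by
        rw [r2]
        ring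
      rw [e] at key
      exact key
    rw [Bool.or_eq_true] at a3
    rcases a3 with a3 | a3
    · rcases le_or_gt ((R.1.x : ℝ) / 800) u with h5 | h5
      · have k1 := fffin_sound a3 hW o2 h0 h3 hW1 hW2
        have k2 := Dd_b_mono (W := W1) (b := (R.2.x : ℝ) / 800) (b' := u + (c : ℝ) / 800)
          (by linarith) (by rw [r2]; linarith) hu2 hW2
        refine ⟨fun h6 => ?_, fun _ => by linarith⟩
        have := Dd_nonneg_half (s := e0) (p := u0) (u := u) hu00 (by linarith) (by linarith)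
          (by linarith)
        linarith
      · have key := hcell (by rw [r1] at h5; linarith)
        exact ⟨fun _ => key.1, fun h6 => absurd key.2 (by linarith)⟩
    · rcases le_or_gt u (((x : ℝ) + 2 * k) / 800) with h5 | h5
      · have key := hcell h5
        exact ⟨fun _ => key.1, fun h6 => absurd key.2 (by linarith)⟩
      · have := ih (x + 2 * k) (fun R' hR' => hL R' (List.mem_cons_of_mem _ hR'))
          (by linarith) a3
        push_cast at this
        exact this u h5.le hu2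

/-- **All strips.** -/
theorem ffall_sound {c h k E1 E0 w0 : ℤ} {C : List (Nv × Nv)} {e0 : ℝ} (hk : 0 ≤ k) (hc0 : 0 ≤ c)
    (hC : ∀ R ∈ C, R.1.Ok e0 E1 ∧ R.2.Ok 0 E0) :
    ∀ (L : List St), (∀ s ∈ L, s.A.Ok e0 E1 ∧ s.W.Ok 0 E0) → ffall c h k E1 E0 w0 C L = true →
      ∀ (s : St) (z : St), L.head? = some s → L.getLast? = some z → ∀ u0 : ℝ,
        (s.A.x : ℝ) / 800 ≤ u0 → u0 ≤ (z.A.x : ℝ) / 800 → 
        StripOK e0 ((c : ℝ) / 800) u0 ((w0 : ℝ) / 1600 + u0 / 2) 0 ∨ u0 = (z.A.x : ℝ) / 800 := by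
  intro L
  induction L with
  | nil =>
    intro _ _ s z h
    exact absurd h (by simp)
  | cons s L ih =>
    intro hL hall s' z hs hz u0 h1 h2
    rw [List.head?_cons, Option.some.injEq] at hs
    subst hs
    cases L with
    | nil =>
      rw [List.getLast?_singleton, Option.some.injEq] at hz
      subst hz
      right
      linarith
    | cons t L =>
      have hz' : (t :: L).getLast? = some z := by
        rw [List.getLast?_cons_cons] at hz
        exact hz
      unfold ffall at hall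
      simp only [Bool.and_eq_true, decide_eq_true_eq] at hall
      obtain ⟨⟨⟨⟨⟨⟨⟨a1, a2⟩, a3⟩, a4⟩, a5⟩, a6⟩, a7⟩, a8⟩ := hall
      rcases le_or_gt ((t.A.x : ℝ) / 800) u0 with h3 | h3
      · exact ih (fun s hs => hL s (List.mem_cons_of_mem _ hs)) a8 t z rfl hz' u0 h3 h2
      · left
        obtain ⟨o1, o2⟩ := hL s List.mem_cons_self
        obtain ⟨o3, -⟩ := hL t (List.mem_cons_of_mem _ List.mem_cons_self)
        have r1 : (t.A.x : ℝ) = s.A.x + h := by exact_mod_cast a1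
        have r2 : (s.m : ℝ) + 1 ≤ s.A.d := by exact_mod_cast a2
        have r3 : (s.m : ℝ) + 1 ≤ t.A.d := by exact_mod_cast a3
        have r5 : 2 * (s.W.x : ℝ) = w0 + s.A.x := by exact_mod_cast a5
        have r6 : 2 * (s.W.x : ℝ) + h ≤ 800 := by exact_mod_cast a6
        have d1 := (abs_le.1 o1.d).1
        have d2 := (abs_le.1 o3.d).1
        have x1 := o3.x1
        have key := ffstrip_sound (u0 := u0) (W1 := (w0 : ℝ) / 1600 + u0 / 2)
          (v := (t.A.x : ℝ) / 800) (δ := u0 * 800 - s.A.x) hk hc0 o1 o2 a4 (by linarith)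
          (by linarith) (by linarith) (by ring) h3.le (by linarith) (by linarith)
          (by linarith) (by linarith) C 0 hC le_rfl a7
        have e : (((0 : ℤ) : ℝ)) / 800 = 0 := by norm_num
        rw [e] at key
        exact key

end Pool.Agent.S5
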