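import Pool.Agent.S5.Z4.EgY
import Pool.Agent.S5.Z4.EgW
import Pool.Agent.S5.Z4.Red
import Pool.Agent.S5.Z4.Lf
import Pool.Agent.S5.Z4.RegI
import Pool.Agent.S5.I.FrmB

/-!
# The engine: the statements about the slots and the leaves

The node is `⟨4, false⟩`. The second slot is seen in the variable `-z`.
-/

set_option autoImplicit false

namespace Pool.Agent.S5.Z4

open Complex Pool.Agent.H63.VC3 Pool.Agent.S3 Pool.Agent.S5.G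

/-- The bound between the columns `j` and `j + 1`. -/
noncomputable def IP (M : ℕ → ℕ) (j : ℕ) (b : ℝ) : ℝ :=
  ((1 - b) * (M j : ℝ) + b * (M (j + 1) : ℝ) - 9688676416) / 25000000

/-- The abscissa is between the columns `j` and `j + 1`. -/
structure XJ (j : ℕ) (b X : ℝ) : Prop where
  hj : j ≤ 19
  b0 : 0 ≤ b
  b1 : b ≤ 1
  e : X = ((j : ℝ) - 10 + b) / 20

/-- The height `ζ` is between two contexts. -/
structure C2 (x0 x1 : Cx) (β ζ : ℝ) : Prop where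
  o0 : CxOK x0
  o1 : CxOK x1
  b0 : 0 ≤ β
  b1 : β ≤ 1
  e : ζ = (1 - β) * ht x0.z + β * ht x1.z
  l0 : ht x0.lo ≤ ζ
  u0 : ζ ≤ ht x0.hi
  l1 : ht x1.lo ≤ ζ
  u1 : ζ ≤ ht x1.hi
  d0 : 1000000 * (ht x1.z - ht x0.z) ^ 2 ≤ (x0.d : ℝ)
  d1 : 1000000 * (ht x1.z - ht x0.z) ^ 2 ≤ (x1.d : ℝ)

/-- The columns of all rows. -/
def CB (R : List Rw) (x : Cx) (M : ℕ → ℕ) : Prop :=
  ∀ r ∈ R, ∀ Y, RwOK r Y → RB r Y x M (fun _ _ => True)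

/-- The columns without the right part of the flats. -/
def CN (R : List Rw) (x : Cx) (M : ℕ → ℕ) : Prop :=
  ∀ r ∈ R, ∀ Y, RwOK r Y → RB r Y x M (fun v _ => r.f = false ∨ v ≤ 5)

/-- The columns of the own row. -/
def CO (o : ℕ) (M : ℕ → ℕ) : Prop :=
  ∀ Y, RwOK ⟨o, 1000, 1000, 1000, 0, false⟩ Y →
    RB ⟨o, 1000, 1000, 1000, 0, false⟩ Y ⟨1000, 1000, 1000, 0⟩ M (fun v j => 15 + j ≤ 20 + v)

/-- The facts about a slot: `y0` the base point, `D` the slope at the base point. -/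
structure SlF (p : Sp) (up : Bool) (s : Slt) (y0 : ℂ) (D : ℝ) : Prop where
  ex : s.ex = true
  S : s.S = p.S
  k1 : p.kd = 1 ↔ s.x = ⟨2, true⟩
  k2 : p.kd = 2 ↔ s.x = ⟨3, true⟩
  re : s.x.e = false → s.x.a ≤ 4 → p.re = true
  rz : s.x.a = 3 ∨ s.x = ⟨4, false⟩ → p.rz = true
  l0 : (p.L0 : ℝ) / 1000 - 5 ≤ s.lam.re
  l1 : s.lam.re ≤ (p.L1 : ℝ) / 1000 - 5
  m0 : (p.M0 : ℝ) / 1000 ≤ s.lam.im
  m1 : s.lam.im ≤ (p.M1 : ℝ) / 1000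
  e : p.e0 ≤ p.e1
  e0 : ht p.e0 ≤ s.ys.im
  e1 : s.ys.im ≤ ht p.e1
  ha : 850 ≤ p.e0
  hb : p.e1 ≤ 1150
  yr : y0.re = (p.t0 : ℝ) / 200
  yi : y0.im = ht p.h0
  D : |D - (p.D : ℝ) / 5000| ≤ 16 / 100000
  T0 : p.kd = 1 ∨ p.kd = 2 → (p.T0 : ℝ) / 1000 - 5 ≤ (s.lam - hh (1 / 2 - s.ys)).re
  T1 : p.kd = 1 ∨ p.kd = 2 → (s.lam - hh (1 / 2 - s.ys)).re ≤ (p.T1 : ℝ) / 1000 - 5
  i0 : p.kd = 1 ∨ p.kd = 2 → (p.i0 : ℝ) / 1000 ≤ (hh (1 / 2 - s.ys)).im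
  i1 : p.kd = 1 ∨ p.kd = 2 → (hh (1 / 2 - s.ys)).im ≤ (p.i1 : ℝ) / 1000
  fub : p.kd = 1 ∨ p.kd = 2 →
    25000000 * (fR (1 / 2 - y0.re) y0.im - Td (1 / 2 - s.ys) (1 / 2 - y0)) ≤ (p.fub : ℝ)
  up1 : p.kd = 1 → up = true → 0 < s.ys.im
  up0 : p.kd = 1 → up = false → s.ys.im < 0

/-- **All pieces.** -/
def SlA (R : List Rw) (s : Slt) (y0 : ℂ) (D : ℝ) : Prop :=
  ∀ (x0 x1 : Cx) (β ζ : ℝ) (M0 M1 : ℕ → ℕ) (j : ℕ) (b : ℝ), C2 x0 x1 β ζ → CB R x0 M0 →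
    CB R x1 M1 → ∀ z : ℂ, z.im = ζ → XJ j b z.re → ∀ (pc : Pc) (y : ℂ) (w : ℝ), pc.free →
      s.In pc y w → phi s ⟨4, false⟩ pc y0 D y w z ≤ (1 - β) * IP M0 j b + β * IP M1 j b

/-- **All pieces except the flat.** -/
def SlN (R : List Rw) (s : Slt) (y0 : ℂ) (D : ℝ) : Prop :=
  ∀ (x0 x1 : Cx) (β ζ : ℝ) (M0 M1 : ℕ → ℕ) (j : ℕ) (b : ℝ), C2 x0 x1 β ζ → CN R x0 M0 →
    CN R x1 M1 → ∀ z : ℂ, z.im = ζ → XJ j b z.re → ∀ (pc : Pc) (y : ℂ) (w : ℝ), pc.free →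
      pc ≠ .F → pc ≠ .H → s.In pc y w →
        phi s ⟨4, false⟩ pc y0 D y w z ≤ (1 - β) * IP M0 j b + β * IP M1 j b

/-- **The pieces forced by the variable of the node.** -/
def SlW (o : ℕ) (s : Slt) (y0 : ℂ) (D : ℝ) : Prop :=
  ∀ (M : ℕ → ℕ) (j : ℕ) (b : ℝ), CO o M → ∀ z : ℂ, z.im = 0 → XJ j b z.re → 2 / 5 ≤ z.re →
    ∀ (pc : Pc) (y : ℂ) (w : ℝ), pc.frcZ → s.In pc y w → z.re ≤ y.re →
      phi s ⟨4, false⟩ pc y0 D y w z ≤ IP M j b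

/-- The facts about a slot of a leaf: `k` the cell of the node, `c` the cell of the other vertex. -/
structure Lk (K : Kd) (k c : Ce) (y H : Rc) (s : Slt) : Prop where
  ex : s.ex = true
  S : s.S = K.S
  k1 : K.kd = 1 ↔ s.x = ⟨2, true⟩
  k2 : K.kd = 2 ↔ s.x = ⟨3, true⟩
  re : s.x.e = false → s.x.a ≤ 4 → K.re = true
  rz : s.x.a = 3 ∨ s.x = ⟨4, false⟩ → K.rz = true
  lam : ∃ u v : ℂ, InC k u ∧ InC c v ∧ s.lam = 2 * (log (kp K.S v) - log u)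
  ys : InY y s.ys
  hh : K.kd = 1 ∨ K.kd = 2 → InH H (hh (1 / 2 - s.ys))

/-- The statement for an inner node with four half twists, without `Ty`, `Tb`, `quad`. -/
structure V4 (zs : ℂ) (sy sb : Slt) : Prop where
  U : ∀ (y z b : ℂ) (wy w wb : ℝ) (py pb : Pc), py.free → pb.free → sy.In py y wy →
    sb.In pb b wb → LimR (-(2 / 5)) (2 / 5) (3 / 20) zs.im z w →
    Ez4 sy.ys zs sb.ys y z b + sy.e ⟨4, false⟩ py y wy + sb.e ⟨4, false⟩ pb b wb < w ∨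
      (y = sy.ys ∧ z = zs ∧ b = sb.ys ∧ py = .F ∧ pb = .F ∧ w = 0)
  P : ∀ (y z b : ℂ) (wy wb : ℝ) (py pb : Pc), (sy.ex = true → py.frcZ) → pb.free →
    sy.In py y wy → sb.In pb b wb → z.im = 0 → 2 / 5 ≤ z.re → z.re ≤ 1 / 2 → z.re ≤ y.re →
    Ez4 sy.ys zs sb.ys y z b + sy.e ⟨4, false⟩ py y wy + sb.e ⟨4, false⟩ pb b wb < 0
  N : ∀ (y z b : ℂ) (wy wb : ℝ) (py pb : Pc), py.free → (sb.ex = true → pb.frcZ) →
    sy.In py y wy → sb.In pb b wb → z.im = 0 → -(1 / 2) ≤ z.re → z.re ≤ -(2 / 5) →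
    0 ≤ z.re + b.re → Ez4 sy.ys zs sb.ys y z b + sy.e ⟨4, false⟩ py y wy +
      sb.e ⟨4, false⟩ pb b wb < 0

/-- The facts about a leaf. -/
structure LfF (A B : Kd) (k cL cR : Ce) (y b z hy hb : Rc) (sy sb : Slt) (zs : ℂ) : Prop where
  A : Lk A k cL y hy sy
  B : Lk B k cR b hb sb
  z : InZ z zs
  ly : sy.lam = l4y sy.ys zs
  lb : sb.lam = l4b zs sb.ys
  lz : l4z sy.ys zs sb.ys = 0

end Pool.Agent.S5.Z4
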