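import Pool.Agent.S5.Z4.Bp
import Pool.Agent.S5.Z4.SlS
import Pool.Agent.S5.Z4.EgL

/-!
# The engine: the parameters of a slot
-/

set_option autoImplicit false

namespace Pool.Agent.S5.Z4

open Complex Pool.Agent.H63.VC3 Pool.Agent.S3 Pool.Agent.S5.G
open scoped ComplexConjugate

theorem dmp_eq (p : Sp) : dmp p = dmc p := by
  have e : dmc p = 4 * mxn (dst p.e0 p.h0) (dst p.e1 p.h0) := rfl
  rw [e]
  unfold dmp mxn
  rcases Nat.lt_or_ge (dst p.e1 p.h0) (dst p.e0 p.h0) with h | h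
  · rw [ble_false h, cond_false, max_eq_left h.le]
  · rw [ble_true h, cond_true, max_eq_right h]

theorem lam_re (S : Bool) (u v : ℂ) :
    (2 * (log (kp S v) - log u)).re = 2 * (Real.log ‖v‖ - Real.log ‖u‖) := by
  have h : ‖kp S v‖ = ‖v‖ := by
    cases S
    · rw [kp_false, norm_conj]
    · rw [kp_true]
  rw [mul_re, sub_re, log_re, log_re, h]
  simp

theorem lam_im (S : Bool) (u v : ℂ) :
    (2 * (log (kp S v) - log u)).im = 2 * ((kp S v).arg - u.arg) := by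
  rw [mul_im, sub_im, log_im, log_im]
  simp

/-- The cells, in units of `1 / 1000`. -/
theorem InC.bd {c : Ce} {w : ℂ} (h : InC c w) :
    ((c.a0 : ℝ) ≤ 1000 * Real.log ‖w‖ + 1000 ∧ 1000 * Real.log ‖w‖ + 1000 ≤ c.a1) ∧
      ((c.f0 : ℝ) ≤ -(1000 * w.arg) ∧ -(1000 * w.arg) ≤ c.f1) := by
  obtain ⟨⟨h1, h2⟩, h3, h4⟩ := h
  refine ⟨⟨by linarith, by linarith⟩, by linarith, by linarith⟩

theorem natsub_ge (a b : ℕ) : (a : ℝ) - b ≤ ((a - b : ℕ) : ℝ) := by
  rcases le_total b a with h | h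
  · rw [Nat.cast_sub h]
  · rw [Nat.sub_eq_zero_of_le h, Nat.cast_zero]
    have : (a : ℝ) ≤ b := by exact_mod_cast h
    linarith

/-- **The parameters of a slot.** -/
theorem slf_of_lk {K : Kd} {k c : Ce} {y H : Rc} {s : Slt} {D : ℤ} {Dr : ℝ}
    (F : Lk K k c y H s) (ka : k.a1 ≤ 1550) (ht1 : K.kd = 1 ∨ K.kd = 2 → H.t1 ≤ 1050)
    (hs : SlOK K y (md y.t0 y.t1)) (y1 : y.t1 ≤ 360)
    (y2 : 370 ≤ y.e0) (y3 : y.e1 ≤ 630) (hD : |Dr - (D : ℝ) / 5000| ≤ 16 / 100000) :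
    SlF (mkS K k c y H D) (Nat.ble 500 y.e0) s (bp (md y.t0 y.t1) (md y.e0 y.e1)) Dr := by
  obtain ⟨u, v, hu, hv, hl⟩ := F.lam
  obtain ⟨⟨u1, u2⟩, u3, u4⟩ := hu.bd
  obtain ⟨⟨v1, v2⟩, v3, v4⟩ := hv.bd
  obtain ⟨⟨i1, i2⟩, i3, i4⟩ := F.ys
  have lre : s.lam.re = 2 * (Real.log ‖v‖ - Real.log ‖u‖) := by rw [hl, lam_re]
  have lim : s.lam.im = 2 * ((kp K.S v).arg - u.arg) := by rw [hl, lam_im]
  have he : y.e0 ≤ y.e1 := by
    have : ((y.e0 : ℝ) - 500) / 1000 ≤ ((y.e1 : ℝ) - 500) / 1000 := i3.trans i4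
    have : (y.e0 : ℝ) ≤ y.e1 := by linarith
    exact_mod_cast this
  have c0 : (0 : ℝ) ≤ c.a0 := Nat.cast_nonneg _
  have hL0 : ((mkS K k c y H D).L0 : ℝ) / 1000 - 5 ≤ s.lam.re := by
    have e : (mkS K k c y H D).L0 = (5000 + 2 * c.a0) - 2 * k.a1 := rfl
    rw [e, Nat.cast_sub (by omega), lre]
    push_cast
    linarith
  have hL1 : s.lam.re ≤ ((mkS K k c y H D).L1 : ℝ) / 1000 - 5 := by
    have e : (mkS K k c y H D).L1 = (5000 + 2 * c.a1) - 2 * k.a0 := rfl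
    have := natsub_ge (5000 + 2 * c.a1) (2 * k.a0)
    rw [← e] at this
    push_cast at this
    rw [lre]
    linarith
  have hkf : s.S = false → (kp K.S v).arg = -v.arg := by
    intro h
    rw [F.S] at h
    rw [h, kp_false, arg_conj, if_neg]
    intro h2
    have := Real.pi_pos
    have : (0 : ℝ) ≤ c.f0 := Nat.cast_nonneg _
    rw [h2] at v3
    linarith
  have hM0 : ((mkS K k c y H D).M0 : ℝ) / 1000 ≤ s.lam.im := by
    rw [lim]
    cases hS : K.S
    · have e : (mkS K k c y H D).M0 = ((2 * (k.f0 + c.f0) : ℕ) : ℤ) := by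
        show cond K.S _ _ = _
        rw [hS]
        rfl
      rw [e, ← hS, hkf (by rw [F.S, hS])]
      push_cast
      linarith
    · have e : (mkS K k c y H D).M0 = ((2 * k.f0 : ℕ) : ℤ) - ((2 * c.f1 : ℕ) : ℤ) := by
        show cond K.S _ _ = _
        rw [hS]
        rfl
      rw [e, kp_true]
      push_cast
      linarith
  have hM1 : s.lam.im ≤ ((mkS K k c y H D).M1 : ℝ) / 1000 := by
    rw [lim]
    cases hS : K.S
    · have e : (mkS K k c y H D).M1 = ((2 * (k.f1 + c.f1) : ℕ) : ℤ) := by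
        show cond K.S _ _ = _
        rw [hS]
        rfl
      rw [e, ← hS, hkf (by rw [F.S, hS])]
      push_cast
      linarith
    · have e : (mkS K k c y H D).M1 = ((2 * k.f1 : ℕ) : ℤ) - ((2 * c.f0 : ℕ) : ℤ) := by
        show cond K.S _ _ = _
        rw [hS]
        rfl
      rw [e, kp_true]
      push_cast
      linarith
  have hst : K.kd = 1 ∨ K.kd = 2 → md y.t0 y.t1 ≤ 72 := by
    intro h
    rcases hs.1 with h2 | h2
    · omega
    · exact h2
  have hmd : md y.e0 y.e1 = (y.e0 + y.e1 + 5) / 10 := rfl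
  have hdst : dst (md y.e0 y.e1) 100 ≤ 60 := by
    rcases dst_cases (md y.e0 y.e1) 100 with ⟨c', e⟩ | ⟨c', e⟩ <;> omega
  refine {
    ex := F.ex
    S := F.S
    k1 := F.k1
    k2 := F.k2
    re := F.re
    rz := F.rz
    l0 := hL0
    l1 := hL1
    m0 := hM0
    m1 := hM1
    e := ?_
    e0 := ?_
    e1 := ?_
    ha := ?_
    hb := ?_
    yr := bp_re _ _
    yi := bp_ht _ _
    D := hD
    T0 := ?_
    T1 := ?_
    i0 := ?_
    i1 := ?_
    fub := ?_
    up1 := ?_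
    up0 := ?_ }
  · exact Nat.add_le_add_right he 500
  · exact (ht_add y.e0).le.trans i3
  · exact i4.trans (ht_add y.e1).ge
  · show 850 ≤ y.e0 + 500
    omega
  · show y.e1 + 500 ≤ 1150
    omega
  · intro hk
    obtain ⟨⟨j1, j2⟩, -⟩ := F.hh hk
    have h3 := ht1 hk
    have e : (mkS K k c y H D).T0 = ((5500 + 2 * c.a0) - 2 * k.a1) - H.t1 := rfl
    rw [e, Nat.cast_sub (by omega), Nat.cast_sub (by omega), sub_re, lre]
    push_cast
    linarith
  · intro hk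
    obtain ⟨⟨j1, j2⟩, -⟩ := F.hh hk
    have e : (mkS K k c y H D).T1 = ((5500 + 2 * c.a1) - 2 * k.a0) - H.t0 := rfl
    have h3 := natsub_ge (5500 + 2 * c.a1) (2 * k.a0)
    have h4 := natsub_ge ((5500 + 2 * c.a1) - 2 * k.a0) H.t0
    rw [← e] at h4
    push_cast at h3 h4
    rw [sub_re, lre]
    linarith
  · intro hk
    obtain ⟨-, j3, j4⟩ := F.hh hk
    have e : (mkS K k c y H D).i0 = (H.e0 : ℤ) - 1000 := rfl
    rw [e]
    push_cast
    exact j3
  · intro hk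
    obtain ⟨-, j3, j4⟩ := F.hh hk
    have e : (mkS K k c y H D).i1 = (H.e1 : ℤ) - 1000 := rfl
    rw [e]
    push_cast
    exact j4
  · intro hk
    have y1' : (y.t1 : ℝ) ≤ 360 := by exact_mod_cast y1
    exact fbx_sound F.ys (by linarith) (hst hk) hdst
  · intro hk hup
    have h1 : 500 ≤ y.e0 := Nat.le_of_ble_eq_true hup
    have h1' : 501 ≤ y.e0 := by
      rcases hs.2.1 hk with h | h <;> omega
    have h2 : (501 : ℝ) ≤ y.e0 := by exact_mod_cast h1'
    linarith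
  · intro hk hup
    have h1 : ¬ 500 ≤ y.e0 := by
      intro h
      rw [ble_true h] at hup
      exact Bool.noConfusion hup
    have h1' : y.e1 ≤ 499 := by
      rcases hs.2.1 hk with h | h <;> omega
    have h2 : (y.e1 : ℝ) ≤ 499 := by exact_mod_cast h1'
    linarith

end Pool.Agent.S5.Z4
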