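import Pool.Agent.S5.Z4.EgL
import Pool.Agent.S5.Z4.Skf
import Pool.Agent.S5.Z4.Asm

/-!
# The engine: the leaf
-/

set_option autoImplicit false

namespace Pool.Agent.S5.Z4

open Complex Pool.Agent.H63.VC3 Pool.Agent.S3 Pool.Agent.S5.G

/-- The slot theorem. -/
def SlT : Prop :=
  ∀ (p : Sp) (up : Bool) (R : List Rw) (o : ℕ) (s : Slt) (y0 : ℂ) (D : ℝ), SR p up R o →
    SlF p up s y0 D → SlA R s y0 D ∧ SlN R s y0 D ∧ SlW o s y0 D

section Leaf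

variable {A B : Kd} {k cL cR : Ce} {y b z hy hb : Rc} {t h g s x n : ℕ} {DA DB G C : ℤ}
  {R Q : List Rw} {oR oQ : ℕ} {YR YQ : ℕ → ℕ} {sy sb : Slt} {zs : ℂ}

theorem InY.le {r : Rc} {y : ℂ} (h : InY r y) : r.e0 ≤ r.e1 := by
  obtain ⟨-, h1, h2⟩ := h
  have h3 : (r.e0 : ℝ) ≤ r.e1 := by linarith
  exact_mod_cast h3

/-- The sizes of the middles. -/
theorem LfOK.sz (L : LfOK A B k cL cR y b z hy hb t h g s x n DA DB G C R Q oR oQ YR YQ)
    (F : LfF A B k cL cR y b z hy hb sy sb zs) :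
    (74 ≤ h ∧ h ≤ 126) ∧ (74 ≤ s ∧ s ≤ 126) ∧ (70 ≤ n ∧ n ≤ 130) := by
  have a1 := F.A.ys.le
  have a2 := F.B.ys.le
  have a3 := L.f2
  have a4 := L.z1
  have a5 := L.z2
  have a6 := L.z3
  have e1 : h = (y.e0 + y.e1 + 5) / 10 := L.eh
  have e2 : s = (b.e0 + b.e1 + 5) / 10 := L.es
  have e3 : n = (z.e0 + z.e1 + 5) / 10 := L.en
  omega

theorem dst_le {a b c : ℕ} (h1 : a ≤ b + c) (h2 : b ≤ a + c) : dst a b ≤ c := by
  rcases dst_cases a b with ⟨-, e⟩ | ⟨-, e⟩ <;> omega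

/-- The conditions at the base point. -/
theorem LfOK.bse (L : LfOK A B k cL cR y b z hy hb t h g s x n DA DB G C R Q oR oQ YR YQ)
    (F : LfF A B k cL cR y b z hy hb sy sb zs) :
    Bse (bp t h) (zp x n) (bp g s) sy.ys zs sb.ys := by
  obtain ⟨⟨a1, a2⟩, -⟩ := F.A.ys
  obtain ⟨⟨b1, b2⟩, -⟩ := F.B.ys
  obtain ⟨⟨c1, c2⟩, -⟩ := F.z
  obtain ⟨-, -, t1, t2⟩ := L.sA
  obtain ⟨-, -, g1, g2⟩ := L.sB
  have x1 := L.x1
  have x2 := L.x2
  have x3 := L.x3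
  have x4 := L.x4
  have k1 := L.g1
  have k2 := L.g2
  have k3 := L.g3
  have k4 := L.g4
  obtain ⟨f1, f2, f3, f4⟩ := L.f1
  have t1' : (1 : ℝ) ≤ t := by exact_mod_cast t1
  have t2' : (t : ℝ) ≤ 99 := by exact_mod_cast t2
  have g1' : (1 : ℝ) ≤ g := by exact_mod_cast g1
  have g2' : (g : ℝ) ≤ 99 := by exact_mod_cast g2
  have x1' : (x : ℝ) + 1 ≤ t + 100 := by exact_mod_cast x1
  have x2' : (t : ℝ) ≤ x := by exact_mod_cast x2
  have x3' : (101 : ℝ) ≤ g + x := by exact_mod_cast x3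
  have x4' : (g : ℝ) + x ≤ 200 := by exact_mod_cast x4
  have k1' : (z.t1 : ℝ) + 1 ≤ y.t0 + 500 := by exact_mod_cast k1
  have k2' : (y.t1 : ℝ) ≤ z.t0 := by exact_mod_cast k2
  have k3' : (501 : ℝ) ≤ b.t0 + z.t0 := by exact_mod_cast k3
  have k4' : (b.t1 : ℝ) + z.t1 ≤ 1000 := by exact_mod_cast k4
  have f1' : (215 : ℝ) ≤ y.t0 := by exact_mod_cast f1
  have f2' : (215 : ℝ) ≤ b.t0 := by exact_mod_cast f2
  have f3' : (y.t1 : ℝ) ≤ 360 := by exact_mod_cast f3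
  have f4' : (b.t1 : ℝ) ≤ 360 := by exact_mod_cast f4
  constructor <;> (try simp only [bp_re, zp_re]) <;> linarith

/-- The slopes at the base point, first slot. -/
theorem LfOK.dAe (L : LfOK A B k cL cR y b z hy hb t h g s x n DA DB G C R Q oR oQ YR YQ)
    (F : LfF A B k cL cR y b z hy hb sy sb zs) :
    |(l4y (bp t h) (zp x n)).im - (DA : ℝ) / 5000| ≤ 16 / 100000 := by
  obtain ⟨⟨a1, a2⟩, -, c1, c2⟩ := L.sz F
  exact Dx_sound L.sA.2.2.1 L.sA.2.2.2 L.x1 L.x2 (dst_le (by omega) (by omega))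
    (dst_le (by omega) (by omega)) L.dA

/-- The slopes at the base point, second slot. -/
theorem LfOK.dBe (L : LfOK A B k cL cR y b z hy hb t h g s x n DA DB G C R Q oR oQ YR YQ)
    (F : LfF A B k cL cR y b z hy hb sy sb zs) :
    |(l4b (zp x n) (bp g s)).im - (DB : ℝ) / 5000| ≤ 16 / 100000 := by
  obtain ⟨-, ⟨b1, b2⟩, c1, c2⟩ := L.sz F
  exact Dx_sound' L.sB.2.2.1 L.sB.2.2.2 L.x3 L.x4 (by omega) (dst_le (by omega) (by omega))
    (dst_le (by omega) (by omega)) L.dB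

/-- The constant. -/
theorem LfOK.hC (L : LfOK A B k cL cR y b z hy hb t h g s x n DA DB G C R Q oR oQ YR YQ)
    (F : LfF A B k cL cR y b z hy hb sy sb zs) :
    25000000 * ((l4z (bp t h) (zp x n) (bp g s)).im * (zs.im - (zp x n).im) -
      psi (bp t h) (zp x n) - psi (bp g s) (-zp x n)) ≤ (C : ℝ) := by
  obtain ⟨⟨a1, a2⟩, ⟨b1, b2⟩, c1, c2⟩ := L.sz F
  have e1 := Gx_sound L.x1 L.x2 L.x3 L.x4 (dst_le (by omega) (by omega) : dst h n ≤ 60)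
    (dst_le (by omega) (by omega) : dst (s + n) 200 ≤ 60) L.dG
  have e2 := gzx_sound (n := n) F.z e1
  have e3 := Px_sound L.sA.2.2.2 L.x1 L.x2 (show 70 ≤ h by omega) (show h ≤ 130 by omega)
    (show 70 ≤ n by omega) (show n ≤ 130 by omega)
  have e4 := Px_sound' L.sB.2.2.2 L.x3 L.x4 (show 70 ≤ s by omega) (show s ≤ 130 by omega)
    (show 70 ≤ n by omega) (show n ≤ 130 by omega)
  rw [L.eC, zp_im]
  push_cast
  linarith

/-- The conditions for the flats. -/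
theorem LfOK.ffc (L : LfOK A B k cL cR y b z hy hb t h g s x n DA DB G C R Q oR oQ YR YQ)
    (F : LfF A B k cL cR y b z hy hb sy sb zs) : FFc (ffm y b z) sy.ys zs sb.ys := by
  obtain ⟨⟨a1, a2⟩, a3, a4⟩ := F.A.ys
  obtain ⟨⟨b1, b2⟩, b3, b4⟩ := F.B.ys
  obtain ⟨⟨c1, c2⟩, -⟩ := F.z
  obtain ⟨f1, f2, f3, f4⟩ := L.f1
  obtain ⟨g1, g2, g3, g4⟩ := L.f2
  have f1' : (215 : ℝ) ≤ y.t0 := by exact_mod_cast f1
  have f2' : (215 : ℝ) ≤ b.t0 := by exact_mod_cast f2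
  have f3' : (y.t1 : ℝ) ≤ 360 := by exact_mod_cast f3
  have f4' : (b.t1 : ℝ) ≤ 360 := by exact_mod_cast f4
  have g1' : (370 : ℝ) ≤ y.e0 := by exact_mod_cast g1
  have g2' : (y.e1 : ℝ) ≤ 630 := by exact_mod_cast g2
  have g3' : (370 : ℝ) ≤ b.e0 := by exact_mod_cast g3
  have g4' : (b.e1 : ℝ) ≤ 630 := by exact_mod_cast g4
  refine ⟨?_, by linarith, by linarith, by linarith, by linarith, ?_, ?_, ?_, ?_⟩
  · rcases L.f3 with ⟨h, -⟩ | ⟨h, -⟩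
    · exact Or.inl h
    · exact Or.inr h
  · rw [abs_le]
    constructor <;> linarith
  · rw [abs_le]
    constructor <;> linarith
  · intro ho
    rcases L.f3 with ⟨-, h1, h2, h3, h4⟩ | ⟨h, -⟩
    · have h1' : 3 * (y.t1 : ℝ) + 1000 ≤ (1000 + 120) + 2 * z.t0 := by exact_mod_cast h1
      have h2' : 3 * (b.t1 : ℝ) + 2 * z.t1 ≤ 2000 + 120 := by exact_mod_cast h2
      have h3' : 350 + 2 * (z.t1 : ℝ) ≤ 1000 + 2 * y.t0 := by exact_mod_cast h3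
      have h4' : 1000 + 350 ≤ 2 * (b.t0 : ℝ) + 2 * z.t0 := by exact_mod_cast h4
      refine ⟨⟨by linarith, by linarith⟩, by linarith, by linarith⟩
    · omega
  · intro ho
    rcases L.f3 with ⟨h, -⟩ | ⟨-, h1, h2, h3, h4⟩
    · omega
    · have h1' : 3 * (y.t1 : ℝ) + 1000 ≤ (1000 + 170) + 2 * z.t0 := by exact_mod_cast h1
      have h2' : 3 * (b.t1 : ℝ) + 2 * z.t1 ≤ 2000 + 170 := by exact_mod_cast h2
      have h3' : 300 + 2 * (z.t1 : ℝ) ≤ 1000 + 2 * y.t0 := by exact_mod_cast h3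
      have h4' : 1000 + 300 ≤ 2 * (b.t0 : ℝ) + 2 * z.t0 := by exact_mod_cast h4
      refine ⟨⟨by linarith, by linarith⟩, by linarith, by linarith⟩

/-- The contexts. -/
theorem LfOK.cd (L : LfOK A B k cL cR y b z hy hb t h g s x n DA DB G C R Q oR oQ YR YQ) :
    Cd (z.e0 + 500) (z.e1 + 500) (max (sq (z.e0 + 500) (z.e1 + 500))
      (max (sq (z.e0 + 500) 1000) (sq (z.e1 + 500) 1000))) := by
  have z1 := L.z1
  have z2 := L.z2
  have z3 := L.z3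
  have sqb : ∀ a b : ℕ, a ≤ b + 300 → b ≤ a + 300 → sq a b ≤ 100000 := by
    intro a b h1 h2
    have h : dst a b ≤ 300 := dst_le h1 h2
    have : sq a b = dst a b * dst a b := rfl
    rw [this]
    nlinarith
  have k1 : ((sq (z.e0 + 500) (z.e1 + 500) : ℕ) : ℝ) ≤ ((max (sq (z.e0 + 500) (z.e1 + 500))
      (max (sq (z.e0 + 500) 1000) (sq (z.e1 + 500) 1000)) : ℕ) : ℝ) := by
    exact_mod_cast le_max_left _ _
  have k2 : ((sq (z.e0 + 500) 1000 : ℕ) : ℝ) ≤ ((max (sq (z.e0 + 500) (z.e1 + 500))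
      (max (sq (z.e0 + 500) 1000) (sq (z.e1 + 500) 1000)) : ℕ) : ℝ) := by
    exact_mod_cast le_max_of_le_right (le_max_left _ _)
  have k3 : ((sq (z.e1 + 500) 1000 : ℕ) : ℝ) ≤ ((max (sq (z.e0 + 500) (z.e1 + 500))
      (max (sq (z.e0 + 500) 1000) (sq (z.e1 + 500) 1000)) : ℕ) : ℝ) := by
    exact_mod_cast le_max_of_le_right (le_max_right _ _)
  refine ⟨by omega, by omega, by omega, le_trans (le_of_eq ?_) k1, le_trans (le_of_eq ?_) k2,
    le_trans (le_of_eq ?_) k3, ?_⟩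
  · rw [sq_cast]
    unfold ht
    ring
  · rw [sq_cast]
    unfold ht
    push_cast
    ring
  · rw [sq_cast]
    unfold ht
    push_cast
    ring
  · exact max_le (sqb _ _ (by omega) (by omega)) (max_le (sqb _ _ (by omega) (by omega))
      (sqb _ _ (by omega) (by omega)))

/-- The parameters of the first slot. -/
theorem LfOK.fA (L : LfOK A B k cL cR y b z hy hb t h g s x n DA DB G C R Q oR oQ YR YQ)
    (F : LfF A B k cL cR y b z hy hb sy sb zs) (ka : k.a1 ≤ 1550)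
    (hA : A.kd = 1 ∨ A.kd = 2 → hy.t1 ≤ 1050) :
    SlF (mkS A k cL y hy DA) (Nat.ble 500 y.e0) sy (bp t h) (l4y (bp t h) (zp x n)).im := by
  have e := L.dAe F
  have hs := L.sA
  have e1 := L.et
  have e2 := L.eh
  subst e1
  subst e2
  exact slf_of_lk F.A ka hA hs L.f1.2.2.1 L.f2.1 L.f2.2.1 e

/-- The parameters of the second slot. -/
theorem LfOK.fB (L : LfOK A B k cL cR y b z hy hb t h g s x n DA DB G C R Q oR oQ YR YQ)
    (F : LfF A B k cL cR y b z hy hb sy sb zs) (ka : k.a1 ≤ 1550)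
    (hB : B.kd = 1 ∨ B.kd = 2 → hb.t1 ≤ 1050) :
    SlF (mkS B k cR b hb DB) (Nat.ble 500 b.e0) sb (bp g s) (l4b (zp x n) (bp g s)).im := by
  have e := L.dBe F
  have hs := L.sB
  have e1 := L.eg
  have e2 := L.es
  subst e1
  subst e2
  exact slf_of_lk F.B ka hB hs L.f1.2.2.2 L.f2.2.2.1 L.f2.2.2.2 e

/-- The leaf, from the facts about the program. -/
theorem LfOK.v4 (L : LfOK A B k cL cR y b z hy hb t h g s x n DA DB G C R Q oR oQ YR YQ)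
    (F : LfF A B k cL cR y b z hy hb sy sb zs) (T : SlT) (ka : k.a1 ≤ 1550)
    (hA : A.kd = 1 ∨ A.kd = 2 → hy.t1 ≤ 1050) (hB : B.kd = 1 ∨ B.kd = 2 → hb.t1 ≤ 1050) :
    V4 zs sy sb := by
  obtain ⟨A1, A2, A3⟩ := T _ _ _ _ _ _ _ L.SA (L.fA F ka hA)
  obtain ⟨B1, B2, B3⟩ := T _ _ _ _ _ _ _ L.SB (L.fB F ka hB)
  obtain ⟨-, c1, c2⟩ := F.z
  have a0 : ht (z.e0 + 500) ≤ zs.im := (ht_add z.e0).le.trans c1
  have a1 : zs.im ≤ ht (z.e1 + 500) := c2.trans (ht_add z.e1).ge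
  exact asm ⟨F.A.ex, F.B.ex, F.ly, F.lb, F.lz, L.bse F, A1, A2, A3, B1, B2, B3, L.hC F⟩ L.cd
    L.rwf a0 a1 (L.ffc F)

/-- **The leaf.** `T`: the slot theorem. -/
theorem lf_v4 (T : SlT) (H : lf A B k cL cR y b z hy hb = true)
    (F : LfF A B k cL cR y b z hy hb sy sb zs) (ka : k.a1 ≤ 1550)
    (hA : A.kd = 1 ∨ A.kd = 2 → hy.t1 ≤ 1050) (hB : B.kd = 1 ∨ B.kd = 2 → hb.t1 ≤ 1050) :
    V4 zs sy sb := by
  obtain ⟨t, h, g, s, x, n, DA, DB, G, C, R, Q, oR, oQ, YR, YQ, L⟩ := lf_ok H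
  exact L.v4 F T ka hA hB

end Leaf

end Pool.Agent.S5.Z4
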