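import Pool.Agent.S5.Z4.Ch
import Pool.Agent.S5.I.TbX

/-!
# The lanes of the tables

The lane `n`, `n ≤ 35`, is the abscissa `(n - 15) / 20`. The unit is `1 / 25000000`, heights are in
`1 / 1000`.
-/

set_option autoImplicit false

namespace Pool.Agent.S5.Z4

open Pool.Agent.S5.Tb

/-- The function of a lane. -/
noncomputable def FL (n : ℕ) (s : ℝ) : ℝ := if n = 35 then 0 else fR (((n : ℝ) - 15) / 20) s

/-- The table of `1 + FL n (q / 200)` in the unit `1 / 5000000` (upper bounds), `15 ≤ n`. -/
def lfp (n q : Nat) : Nat :=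
  bif Nat.ble 35 n then 5000000
  else bif Nat.beq n 15 then 5000000 + 39270 * q
  else bif Nat.ble n 25 then
    5000000 * (1048576 + qE (ent6 (10 * (n - 15)) q) + 32) / 1048576 + 1
  else 5000000 * (1048576 + 32 - qE (ent6 (10 * (35 - n)) q)) / 1048576 + 1

/-- The table of `1 + FL n (q / 200)` in the unit `1 / 5000000` (upper bounds). -/
def lfd (n q : Nat) : Nat := bif Nat.ble 15 n then lfp n q else lfp (n + 20) q + 78540 * q

/-- The bound of the second derivative, in `1 / 50`. -/
def kvp (n : Nat) : Nat :=
  bif Nat.beq n 26 then 25 else bif Nat.beq n 27 then 52 else bif Nat.beq n 28 then 81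
  else bif Nat.beq n 29 then 115 else bif Nat.beq n 30 then 158 else bif Nat.beq n 31 then 217
  else bif Nat.beq n 32 then 309 else bif Nat.beq n 33 then 484 else bif Nat.beq n 34 then 992
  else 0

/-- The bound of the second derivative in the vertical direction, in `1 / 50`. -/
def kv (n : Nat) : Nat := bif Nat.ble 15 n then kvp n else kvp (n + 20)

/-- The sag of the cell `[n, n + 1]` at the height `0`. -/
def sg0 (n : Nat) : Nat :=
  bif Nat.beq n 15 then 460000 else bif Nat.beq n 16 then 154963 else bif Nat.beq n 17 then 75538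
  else bif Nat.beq n 18 then 48170 else bif Nat.beq n 19 then 33782 else bif Nat.beq n 20 then 24544
  else bif Nat.beq n 21 then 17833 else bif Nat.beq n 22 then 12506 else bif Nat.beq n 23 then 7975
  else bif Nat.beq n 24 then 3888 else 0

/-- The sag of the cell `[n, n + 1]` at the heights `s` with `i / 100 ≤ |s|`. -/
def sgp (n i : Nat) : Nat :=
  bif Nat.beq i 0 then sg0 n
  else Nat.min (sg0 n) (390625000000 / (i * (1000000 + 657 * (i * i))) + 1)

/-- The sag of the cell `[n, n + 1]`. -/
def sgc (n i : Nat) : Nat := bif Nat.ble 15 n then sgp n i else sgp (n + 20) i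

/-- The sag of the lane. -/
def sgv (n i : Nat) : Nat :=
  bif Nat.beq n 0 then sgc 0 i else Nat.max (sgc (n - 1) i) (sgc n i)

end Pool.Agent.S5.Z4
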