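import Pool.Agent.S5.Z4.Pk
import Pool.Agent.S5.I.NumDef

/-!
# Packed arithmetic with lanes of forty bits
-/

set_option autoImplicit false

namespace Pool.Agent.S5.Z4

private theorem fN_eq4 {α : Type} (f : ℕ → α) (n : ℕ) : Num.fN f n = f n := by
  cases n <;> rfl

/-- The number `x` has the lanes `g 0, ..., g (n - 1)`, which are at most `c`. -/
def Rp (n x : ℕ) (g : ℕ → ℕ) (c : ℕ) : Prop := x = pk (2 ^ 40) n g ∧ ∀ i < n, g i ≤ c

variable {n x y c d : ℕ} {g h : ℕ → ℕ}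

theorem pk_of_digit {b : ℕ} (hb : 0 < b) (hx : x < b ^ n) (H : ∀ i < n, x / b ^ i % b = g i) :
    x = pk b n g := by
  rw [← pk_congr H]
  exact (pk_digits hb n x hx).symm

theorem Rp.lt (hx : Rp n x g c) (hc : c < 2 ^ 40) : x < (2 ^ 40) ^ n := by
  rw [hx.1]
  exact pk_lt fun i hi => (hx.2 i hi).trans_lt hc

theorem Rp.dg (hx : Rp n x g c) (hc : c < 2 ^ 40) {i : ℕ} (hi : i < n) :
    x / (2 ^ 40) ^ i % 2 ^ 40 = g i := by
  rw [hx.1]
  exact pk_digit i hi (fun j hj => (hx.2 j hj).trans_lt hc) (by positivity)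

theorem Rp.of (hx : x < (2 ^ 40) ^ n) (H : ∀ i < n, x / (2 ^ 40) ^ i % 2 ^ 40 = g i)
    (hg : ∀ i < n, g i ≤ c) : Rp n x g c := ⟨pk_of_digit (by positivity) hx H, hg⟩

theorem Rp.mono (hx : Rp n x g c) (hc : c ≤ d) : Rp n x g d :=
  ⟨hx.1, fun i hi => (hx.2 i hi).trans hc⟩

theorem Rp.congr (hx : Rp n x g c) (H : ∀ i < n, g i = h i) : Rp n x h c :=
  ⟨hx.1.trans (pk_congr H), fun i hi => by rw [← H i hi]; exact hx.2 i hi⟩

theorem Rp.le (hx : Rp n x g c) (H : ∀ i < n, g i ≤ d) : Rp n x g d := ⟨hx.1, H⟩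

theorem Rp.add (hx : Rp n x g c) (hy : Rp n y h d) :
    Rp n (x + y) (fun i => g i + h i) (c + d) := by
  refine ⟨?_, fun i hi => Nat.add_le_add (hx.2 i hi) (hy.2 i hi)⟩
  rw [pk_add, ← hx.1, ← hy.1]

theorem Rp.smul (k : ℕ) (hx : Rp n x g c) : Rp n (k * x) (fun i => k * g i) (k * c) := by
  refine ⟨?_, fun i hi => Nat.mul_le_mul_left k (hx.2 i hi)⟩
  rw [pk_mul, ← hx.1]

theorem Rp.sub (hx : Rp n x g c) (hy : Rp n y h d) (H : ∀ i < n, h i ≤ g i) :
    Rp n (x - y) (fun i => g i - h i) c := by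
  refine ⟨?_, fun i hi => (Nat.sub_le _ _).trans (hx.2 i hi)⟩
  have e : x = pk (2 ^ 40) n (fun i => g i - h i) + y := by
    rw [hx.1, hy.1, ← pk_add]
    exact pk_congr fun i hi => (Nat.sub_add_cancel (H i hi)).symm
  rw [e, Nat.add_sub_cancel]

theorem Rp.const (a : ℕ) : Rp n (pk (2 ^ 40) n fun _ => a) (fun _ => a) a := ⟨rfl, fun _ _ => le_rfl⟩

theorem land_dg (x y i : ℕ) : (x &&& y) / (2 ^ 40) ^ i % 2 ^ 40 =
    (x / (2 ^ 40) ^ i % 2 ^ 40) &&& (y / (2 ^ 40) ^ i % 2 ^ 40) := by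
  rw [← pow_mul, Nat.and_div_two_pow, Nat.and_mod_two_pow]

theorem Rp.land (hx : Rp n x g c) (hy : Rp n y h d) (hc : c < 2 ^ 40) (hd : d < 2 ^ 40) :
    Rp n (x &&& y) (fun i => g i &&& h i) c := by
  refine Rp.of (Nat.and_le_left.trans_lt (hx.lt hc)) (fun i hi => ?_)
    fun i hi => Nat.and_le_left.trans (hx.2 i hi)
  rw [land_dg, hx.dg hc hi, hy.dg hd hi]

/-- Multiplication by a mask. -/
theorem Rp.mask {m : ℕ → ℕ} (hx : Rp n x g c) (hy : Rp n y m (2 ^ 40 - 1)) (hc : c < 2 ^ 40)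
    (hm : ∀ i < n, m i = 0 ∨ m i = 2 ^ 40 - 1) :
    Rp n (x &&& y) (fun i => if m i = 0 then 0 else g i) c := by
  refine (hx.land hy hc (by norm_num)).congr fun i hi => ?_
  rcases hm i hi with h | h
  · rw [if_pos h, h, Nat.and_zero]
  · rw [if_neg (by rw [h]; norm_num), h, Nat.and_two_pow_sub_one_eq_mod]
    exact Nat.mod_eq_of_lt ((hx.2 i hi).trans_lt hc)

theorem Rp.shr (k : ℕ) (hx : Rp n x g c) (hc : c < 2 ^ 40) :
    Rp n (x >>> (40 * k)) (fun i => if i + k < n then g (i + k) else 0) c := by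
  rw [Nat.shiftRight_eq_div_pow, pow_mul]
  refine Rp.of ((Nat.div_le_self _ _).trans_lt (hx.lt hc)) (fun i hi => ?_) fun i hi => ?_
  · rw [Nat.div_div_eq_div_mul, ← pow_add]
    by_cases h : i + k < n
    · rw [if_pos h, ← hx.dg hc h, add_comm i k]
    · rw [if_neg h, Nat.div_eq_of_lt, Nat.zero_mod]
      exact (hx.lt hc).trans_le (Nat.pow_le_pow_right (by positivity) (by omega))
  · by_cases h : i + k < n
    · rw [if_pos h]
      exact hx.2 _ h
    · rw [if_neg h]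
      exact Nat.zero_le _

/-- The mask of `m` lanes. -/
def lmk (m : ℕ) : ℕ := Nat.sub (Nat.pow 2 (Nat.mul 40 m)) 1

theorem lmk_eq (m : ℕ) : lmk m = 2 ^ (40 * m) - 1 := rfl

/-- A window of the lanes. -/
theorem Rp.window {k m l : ℕ} (hx : Rp (k + m + l) x g c) (hc : c < 2 ^ 40) :
    Rp m ((x >>> (40 * k)) &&& (2 ^ (40 * m) - 1)) (fun i => g (k + i)) c := by
  refine ⟨?_, fun i hi => hx.2 _ (by omega)⟩
  rw [Nat.shiftRight_eq_div_pow, Nat.and_two_pow_sub_one_eq_mod, pow_mul, pow_mul, hx.1]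
  exact pk_window k m (by omega) (fun i hi => (hx.2 i hi).trans_lt hc) (by positivity)

/-- The first lanes. -/
theorem Rp.low {m l : ℕ} (hx : Rp (m + l) x g c) (hc : c < 2 ^ 40) : Rp m (x &&& lmk m) g c := by
  have h : Rp (0 + m + l) x g c := by rw [zero_add]; exact hx
  have k := h.window hc
  rw [← lmk_eq, mul_zero, Nat.shiftRight_zero] at k
  exact k.congr fun i _ => by rw [zero_add]

/-- One lane. -/
theorem Rp.digit (hx : Rp n x g c) (hc : c < 2 ^ 40) {i : ℕ} (hi : i < n) :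
    (x >>> (40 * i)) &&& (2 ^ 40 - 1) = g i := by
  rw [Nat.shiftRight_eq_div_pow, Nat.and_two_pow_sub_one_eq_mod, pow_mul]
  exact hx.dg hc hi

/-! ### The maximum -/

/-- The maximum of the lanes (`H` has the lanes `2 ^ 39`). -/
def mxv (H A B : ℕ) : ℕ :=
  Num.fN (fun B => Num.fN (fun D => Nat.add B (Nat.land D
    (Nat.mul (Nat.shiftRight (Nat.land D H) 39) 549755813887))) (Nat.sub (Nat.add A H) B)) B

theorem mxv_eq (H A B : ℕ) : mxv H A B =
    B + ((A + H - B) &&& ((((A + H - B) &&& H) >>> 39) * (2 ^ 39 - 1))) := by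
  unfold mxv
  rw [fN_eq4, fN_eq4]
  norm_num

theorem Rp.mx {H : ℕ} (hH : H = pk (2 ^ 40) n fun _ => 2 ^ 39) (hx : Rp n x g c)
    (hy : Rp n y h c) (hc : c < 2 ^ 39) : Rp n (mxv H x y) (fun i => max (g i) (h i)) c := by
  rw [mxv_eq]
  have hH' : Rp n H (fun _ => 2 ^ 39) (2 ^ 39) := ⟨hH, fun _ _ => le_rfl⟩
  have hp : (2 : ℕ) ^ 40 = 2 ^ 39 + 2 ^ 39 := by norm_num
  -- the differences
  have hD : Rp n (x + H - y) (fun i => g i + 2 ^ 39 - h i) (c + 2 ^ 39) :=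
    (hx.add hH').sub hy fun i hi => (hy.2 i hi).trans (by omega)
  -- the signs
  have hK : Rp n (((x + H - y) &&& H) >>> 39) (fun i => if h i ≤ g i then 1 else 0) 1 := by
    have h1 : Rp n ((x + H - y) &&& H) (fun i => 2 ^ 39 * if h i ≤ g i then 1 else 0)
        (c + 2 ^ 39) := by
      refine (hD.land hH' (by omega) (by omega)).congr fun i hi => ?_
      have a1 := hx.2 i hi
      have a2 := hy.2 i hi
      show (g i + 2 ^ 39 - h i) &&& 2 ^ 39 = 2 ^ 39 * if h i ≤ g i then 1 else 0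
      rw [Nat.and_two_pow]
      by_cases h2 : h i ≤ g i
      · rw [if_pos h2]
        have : (g i + 2 ^ 39 - h i).testBit 39 = true := by
          rw [Nat.testBit_eq_decide_div_mod_eq]
          have : (g i + 2 ^ 39 - h i) / 2 ^ 39 = 1 := by
            rw [Nat.div_eq_iff (by norm_num)]
            constructor <;> omega
          rw [this]
          rfl
        rw [this]
        rfl
      · rw [if_neg h2]
        have : (g i + 2 ^ 39 - h i).testBit 39 = false := by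
          apply Nat.testBit_lt_two_pow
          omega
        rw [this]
        rfl
    refine ⟨?_, fun i _ => ?_⟩
    · rw [h1.1, pk_mul, Nat.shiftRight_eq_div_pow, Nat.mul_div_cancel_left _ (by norm_num)]
    · show (if h i ≤ g i then 1 else 0) ≤ 1
      split_ifs <;> omega
  have hM : Rp n ((((x + H - y) &&& H) >>> 39) * (2 ^ 39 - 1))
      (fun i => (2 ^ 39 - 1) * if h i ≤ g i then 1 else 0) ((2 ^ 39 - 1) * 1) := by
    rw [mul_comm]
    exact hK.smul _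
  have hR : Rp n ((x + H - y) &&& ((((x + H - y) &&& H) >>> 39) * (2 ^ 39 - 1)))
      (fun i => g i - h i) c := by
    refine Rp.le ((hD.land hM (by omega) (by omega)).congr fun i hi => ?_)
      fun i hi => (Nat.sub_le _ _).trans (hx.2 i hi)
    have a1 := hx.2 i hi
    have a2 := hy.2 i hi
    show (g i + 2 ^ 39 - h i) &&& ((2 ^ 39 - 1) * if h i ≤ g i then 1 else 0) = g i - h i
    by_cases h2 : h i ≤ g i
    · rw [if_pos h2, mul_one, Nat.and_two_pow_sub_one_eq_mod]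
      have : g i + 2 ^ 39 - h i = (g i - h i) + 2 ^ 39 := by omega
      rw [this, Nat.add_mod_right]
      exact Nat.mod_eq_of_lt (by omega)
    · rw [if_neg h2, mul_zero, Nat.and_zero]
      omega
  refine Rp.le ((hy.add hR).congr fun i hi => ?_) fun i hi => max_le (hx.2 i hi) (hy.2 i hi)
  show h i + (g i - h i) = max (g i) (h i)
  omega

/-- The maximum of the columns, index `21 v + j`, `v < 16`, `j < 21`. -/
def cmx (H R : ℕ) : ℕ :=
  Num.fN (fun R => Num.fN (fun R => Num.fN (fun R => Num.fN (fun R =>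
    Nat.land (mxv H R (Nat.shiftRight R 840)) (lmk 21))
    (mxv H R (Nat.shiftRight R 1680))) (mxv H R (Nat.shiftRight R 3360)))
    (mxv H R (Nat.shiftRight R 6720))) R

theorem Rp.cmx {R H : ℕ} (hH : H = pk (2 ^ 40) 336 fun _ => 2 ^ 39) (hR : Rp 336 R g c)
    (hc : c < 2 ^ 39) : ∃ M : ℕ → ℕ, Rp 21 (cmx H R) M c ∧
      ∀ v < 16, ∀ j < 21, g (21 * v + j) ≤ M j := by
  have hc' : c < 2 ^ 40 := by omega
  -- one step
  have step : ∀ (R : ℕ) (g : ℕ → ℕ) (k : ℕ), Rp 336 R g c →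
      ∃ g' : ℕ → ℕ, Rp 336 (mxv H R (R >>> (40 * (21 * k)))) g' c ∧
        ∀ i, g' i = max (g i) (if i + 21 * k < 336 then g (i + 21 * k) else 0) := by
    intro R g k hR
    exact ⟨_, Rp.mx hH hR (hR.shr _ hc') hc, fun i => rfl⟩
  have low : ∀ (g g' : ℕ → ℕ) (k : ℕ), 2 * k ≤ 16 →
      (∀ i, g' i = max (g i) (if i + 21 * k < 336 then g (i + 21 * k) else 0)) →
      ∀ v < 2 * k, ∀ j < 21, ∃ v' < k, g (21 * v + j) ≤ g' (21 * v' + j) := by
    intro g g' k hk hg v hv j hj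
    by_cases h : v < k
    · refine ⟨v, h, ?_⟩
      rw [hg]
      exact le_max_left _ _
    · refine ⟨v - k, by omega, ?_⟩
      have e : 21 * (v - k) + j + 21 * k = 21 * v + j := by omega
      rw [hg, e, if_pos (by omega)]
      exact le_max_right _ _
  obtain ⟨R1, h1⟩ : ∃ R1, R1 = mxv H R (R >>> (40 * (21 * 8))) := ⟨_, rfl⟩
  obtain ⟨R2, h2⟩ : ∃ R2, R2 = mxv H R1 (R1 >>> (40 * (21 * 4))) := ⟨_, rfl⟩
  obtain ⟨R3, h3⟩ : ∃ R3, R3 = mxv H R2 (R2 >>> (40 * (21 * 2))) := ⟨_, rfl⟩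
  obtain ⟨R4, h4⟩ : ∃ R4, R4 = mxv H R3 (R3 >>> (40 * (21 * 1))) := ⟨_, rfl⟩
  have e : Z4.cmx H R = R4 &&& lmk 21 := by
    unfold Z4.cmx
    rw [fN_eq4, fN_eq4, fN_eq4, fN_eq4, h4, h3, h2, h1]
    rfl
  obtain ⟨g1, k1, e1⟩ := step R g 8 hR
  rw [← h1] at k1
  obtain ⟨g2, k2, e2⟩ := step R1 g1 4 k1
  rw [← h2] at k2
  obtain ⟨g3, k3, e3⟩ := step R2 g2 2 k2
  rw [← h3] at k3
  obtain ⟨g4, k4, e4⟩ := step R3 g3 1 k3
  rw [← h4] at k4
  refine ⟨g4, ?_, fun v hv j hj => ?_⟩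
  · rw [e]
    have k5 : Rp (21 + 315) R4 g4 c := k4
    exact k5.low hc'
  · obtain ⟨v1, w1, q1⟩ := low g g1 8 (by norm_num) e1 v (by omega) j hj
    obtain ⟨v2, w2, q2⟩ := low g1 g2 4 (by norm_num) e2 v1 (by omega) j hj
    obtain ⟨v3, w3, q3⟩ := low g2 g3 2 (by norm_num) e3 v2 (by omega) j hj
    obtain ⟨v4, w4, q4⟩ := low g3 g4 1 (by norm_num) e4 v3 (by omega) j hj
    have : v4 = 0 := by omega
    rw [this, mul_zero, zero_add] at q4
    exact (q1.trans (q2.trans (q3.trans q4)))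

/-! ### Construction -/

/-- The packed number of a function. -/
def bld (f : ℕ → ℕ) : ℕ → ℕ
  | 0 => 0
  | n + 1 => Nat.add (bld f n) (Nat.shiftLeft (f n) (Nat.mul 40 n))

theorem bld_eq (f : ℕ → ℕ) (n : ℕ) : bld f n = pk (2 ^ 40) n f := by
  induction n with
  | zero => rfl
  | succ n ih =>
    rw [pk_succ, ← ih, ← pow_mul]
    show bld f n + (f n) <<< (40 * n) = _
    rw [Nat.shiftLeft_eq]

/-- The packed number of the `2 ^ k` values from `a` on, by halves. -/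
def blh (f : ℕ → ℕ) : ℕ → ℕ → ℕ
  | 0, a => f a
  | k + 1, a => Nat.add (blh f k a) (Nat.shiftLeft (blh f k (Nat.add a (Nat.pow 2 k)))
      (Nat.mul 40 (Nat.pow 2 k)))

theorem blh_eq (f : ℕ → ℕ) (k a : ℕ) : blh f k a = pk (2 ^ 40) (2 ^ k) fun i => f (a + i) := by
  induction k generalizing a with
  | zero =>
    rw [pow_zero, pk_one]
    rfl
  | succ k ih =>
    have e : 2 ^ (k + 1) = 2 ^ k + 2 ^ k := by rw [pow_succ, mul_two]
    rw [e, pk_split, ← ih]
    show blh f k a + (blh f k (a + 2 ^ k)) <<< (40 * 2 ^ k) = _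
    rw [Nat.shiftLeft_eq, ih (a + 2 ^ k), ← pow_mul, mul_comm (pk _ _ _)]
    simp only [add_assoc]

end Pool.Agent.S5.Z4
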