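import Pool.Agent.S5.I.VOK

/-!
# The mirror image of a node with four half twists
-/

set_option autoImplicit false

namespace Pool.Agent.S5.Z4

open Pool.Agent.H63.VC3 Pool.Agent.S3 Complex

theorem Ez4_swap (ys zs bs y z b : ℂ) : Ez4 ys zs bs y z b = Ez4 bs (-zs) ys b (-z) y := by
  unfold Ez4
  have e1 : bs - -zs = zs + bs := by ring
  have e2 : b - -z = z + b := by ring
  have e3 : -zs + ys = ys - zs := by ring
  have e4 : -z + y = y - z := by ring
  have e5 : (b - bs + (-z - -zs)) ^ 2 = ((z - zs) - (b - bs)) ^ 2 := by ring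
  have e6 : (-z - -zs - (y - ys)) ^ 2 = ((y - ys) + (z - zs)) ^ 2 := by ring
  rw [e1, e2, e3, e4, e5, e6]
  ring

theorem LimR_neg {x d η : ℝ} {z : ℂ} {w : ℝ} (h : LimR (-x) x d η z w) :
    LimR (-x) x d (-η) (-z) w := by
  unfold LimR at *
  rw [neg_re, neg_im, abs_neg]
  have hu : z.im ∈ Set.uIcc 0 η → -z.im ∈ Set.uIcc 0 (-η) := by
    intro hz
    rw [Set.mem_uIcc] at *
    rcases hz with hz | hz
    · right
      constructor <;> linarith [hz.1, hz.2]
    · left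
      constructor <;> linarith [hz.1, hz.2]
  rcases h with ⟨h1, h2, h3, h4⟩ | ⟨h1, h2, h3⟩ | ⟨h1, h2, h3⟩ | ⟨h1, h2, h3, h4⟩
  · exact Or.inl ⟨h1, by rw [h2], by linarith, by linarith⟩
  · refine Or.inr (Or.inl ⟨h1, ?_, hu h3⟩)
    rcases h2 with h2 | h2
    · right
      rw [h2, neg_neg]
    · left
      rw [h2]
  · refine Or.inr (Or.inr (Or.inl ⟨h1, ?_, h3⟩))
    rcases h2 with h2 | h2
    · right
      rw [h2, neg_neg]
    · left
      rw [h2]
  · exact Or.inr (Or.inr (Or.inr ⟨h1, h2, by linarith, by linarith⟩))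

theorem VZ_swap {n : Nt} {z1 : ℝ} {zs : ℂ} {sy sb : Slt}
    (h : VZ (Ez4 sb.ys (-zs) sy.ys) n z1 (-zs) sb sy) : VZ (Ez4 sy.ys zs sb.ys) n z1 zs sy sb where
  U y z b wy w wb py pb h1 h2 h3 h4 h5 := by
    have h6 := LimR_neg h5
    rcases h.U b (-z) y wb w wy pb py h2 h1 h4 h3 (by rwa [neg_im]) with h7 | h7
    · left
      rw [Ez4_swap]
      linarith
    · right
      obtain ⟨k1, k2, k3, k4, k5, k6⟩ := h7
      exact ⟨k3, neg_injective k2, k1, k5, k4, k6⟩
  P y z b wy wb py pb h1 h2 h3 h4 h5 h6 h7 h8 := by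
    have h9 := h.N b (-z) y wb wy pb py h2 h1 h4 h3 (by rw [neg_im, h5, neg_zero])
      (by rw [neg_re]; linarith) (by rw [neg_re]; linarith) (by rw [neg_re]; linarith)
    rw [Ez4_swap]
    linarith
  N y z b wy wb py pb h1 h2 h3 h4 h5 h6 h7 h8 := by
    have h9 := h.P b (-z) y wb wy pb py h2 h1 h4 h3 (by rw [neg_im, h5, neg_zero])
      (by rw [neg_re]; linarith) (by rw [neg_re]; linarith) (by rw [neg_re]; linarith)
    rw [Ez4_swap]
    linarith
  Ty y z b wy wb pb h1 h2 h3 h4 h5 h6 h7 h8 h9 := by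
    have k := h.Tb b (-z) y wb wy pb h1 h2 h4 h3 (by rw [neg_im, h5, neg_zero])
      (by rw [neg_re]; linarith) (by rw [neg_re]; linarith) (by rw [neg_re]; linarith)
      (by rw [neg_re]; linarith)
    rw [Ez4_swap]
    linarith
  Tb y z b wy wb py h1 h2 h3 h4 h5 h6 h7 h8 h9 := by
    have k := h.Ty b (-z) y wb wy py h1 h2 h4 h3 (by rw [neg_im, h5, neg_zero])
      (by rw [neg_re]; linarith) (by rw [neg_re]; linarith) (by rw [neg_re]; linarith)
      (by rw [neg_re]; linarith)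
    rw [Ez4_swap]
    linarith
  quad := by
    obtain ⟨c, hc, ρ, hρ, hq⟩ := h.quad
    refine ⟨c, hc, ρ, hρ, fun s x t hs hx ht h1 h2 => ?_⟩
    have := hq t (-x) s ht (by rwa [abs_neg]) hs h2 h1
    rw [Ez4_swap]
    have e : -(zs + (x : ℂ)) = -zs + ((-x : ℝ) : ℂ) := by
      push_cast
      ring
    rw [e]
    refine this.trans (le_of_eq ?_)
    ring

end Pool.Agent.S5.Z4
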