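import Pool.Agent.S5.LastD
import Pool.Agent.S5.I.QuadZ
import Pool.Agent.S5.Z4.Sw

/-!
# Inner nodes with four half twists: from the context to the data of the node
-/

set_option autoImplicit false

namespace Pool.Agent.S5.Z4

open Pool.Agent.H63.VC3 Pool.Agent.S3 Complex
open Pool.Agent.S5.E (Vt kd aF nlF nrF nF vL vR)
open Pool.Agent.S5.E.B2 (InR)
open Pool.Agent.S5.G (kp Sd sy O4 N4 zz4)

/-- The data of the node: `s`, `t` the kinds of the edges, `c`, `d` the numbers of the neighbours. -/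
structure NF (s t : Bool) (c d p q z : ℂ) : Prop where
  sl : Sd s c p z
  sr : Sd t d q z
  o : O4 p q
  eq : 4 * z = Real.pi + I * (p + q)
  n : N4 p q z
  ly : 2 * (log (kp s c) - log (cos z)) = l4y (sy p z) (zz4 p q z)
  lb : 2 * (log (kp t d) - log (cos z)) = l4b (zz4 p q z) (sy q z)
  lz : l4z (sy p z) (zz4 p q z) (sy q z) = 0

/-- A slot. -/
noncomputable def slt (s : Bool) (x : Nt) (z1 : ℝ) (c p z : ℂ) : Slt :=
  ⟨true, s, x, z1, sy p z, 2 * (log (kp s c) - log (cos z))⟩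

/-- The type of the neighbour. -/
def nt (J : Vt) : Nt := ⟨min J.a 6, J.o.isNone⟩

variable {T : Vt → Vt → E.B2.Rg} {R : ℕ} {a : ℕ → ℕ} {S : ℕ → Bool} {r : ℕ → ℤ}
  {z ql qr : ℕ → ℂ} {zF : Fin (R + 1) → ℂ}

theorem ntG_l {i : ℕ} (hi : i < R) : ntG R a i = nt (vR a S i) := by
  unfold ntG nt E.vR
  congr 1
  · show min (a i) 6 = min (min (a i) 8) 6
    omega
  · by_cases hc : i = 0
    · rw [if_pos hc]
      exact decide_eq_true (Or.inl hc)
    · rw [if_neg hc]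
      exact decide_eq_false (by omega)

theorem ntG_r {i : ℕ} (hi : 0 < i) : ntG R a i = nt (vL R a S i) := by
  unfold ntG nt E.vL
  congr 1
  · show min (a i) 6 = min (min (a i) 8) 6
    omega
  · by_cases hc : i = R
    · rw [if_pos hc]
      exact decide_eq_true (Or.inr hc)
    · rw [if_neg hc]
      exact decide_eq_false (by omega)

theorem flO_four {i : ℕ} (hi : i + 1 < R) (ha : a (i + 1) = 4) : flO R a S (i + 1) = false := by
  unfold flO
  rw [if_neg (by omega), if_neg (by omega), if_neg (by omega)]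

theorem nf (h : Ctx T R a S r z ql qr zF) {i : ℕ} (hi : i + 1 < R) (ha : a (i + 1) = 4) :
    NF (S i) (S (i + 1)) (cos (z i)) (cos (z (i + 2))) (ql (i + 1)) (qr (i + 1)) (z (i + 1)) := by
  have e := h.hg.crt.eq (i + 1) hi.le
  rw [ha] at e
  push_cast at e
  have ho := h.hg.bx.four (i + 1) (by omega) hi ha
  obtain ⟨e1, e2, e3⟩ := z4_slopes (ho.N4 e)
  have k1 := h.hg.lamL (i := i) (by omega)
  have k2 := h.hg.lamR (i := i + 1) hi
  exact ⟨h.sdl (by omega), h.sdr hi, ho, e, ho.N4 e, k1.trans e1, k2.trans e2, e3⟩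

theorem Z4_iff {i : ℕ} (hi : i + 1 < R) (ha : a (i + 1) = 4) :
    Z4 R a S z ql qr (i + 1) ↔
      VZ (Ez4 (sy (ql (i + 1)) (z (i + 1))) (zz4 (ql (i + 1)) (qr (i + 1)) (z (i + 1)))
        (sy (qr (i + 1)) (z (i + 1)))) ⟨4, false⟩ (z1O R a S (i + 1))
        (zz4 (ql (i + 1)) (qr (i + 1)) (z (i + 1)))
        (slt (S i) (nt (vR a S i)) (z1O R a S i) (cos (z i)) (ql (i + 1)) (z (i + 1)))
        (slt (S (i + 1)) (nt (vL R a S (i + 2))) (z1O R a S (i + 2)) (cos (z (i + 2))) (qr (i + 1))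
          (z (i + 1))) := by
  have hf := flO_four (S := S) hi ha
  have f1 : slB R a S (flO R a S) z ql qr (i + 1) =
      slt (S i) (nt (vR a S i)) (z1O R a S i) (cos (z i)) (ql (i + 1)) (z (i + 1)) := by
    unfold slB
    rw [hf, if_neg (by simp), Ctx.slL_mk, ntG_l (S := S) (by omega)]
    rfl
  have f2 : slO R a S (flO R a S) z ql qr (i + 1) =
      slt (S (i + 1)) (nt (vL R a S (i + 2))) (z1O R a S (i + 2)) (cos (z (i + 2))) (qr (i + 1))
        (z (i + 1)) := by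
    unfold slO
    rw [hf, if_neg (by simp), Ctx.slR_mk hi, ntG_r (S := S) (by omega)]
    rfl
  have f3 : zQ R a S z ql qr (i + 1) = zz4 (ql (i + 1)) (qr (i + 1)) (z (i + 1)) := by
    unfold zQ qB' qO'
    rw [hf, if_neg (by simp), if_neg (by simp)]
  have f4 : ntG R a (i + 1) = ⟨4, false⟩ := by
    unfold ntG
    rw [ha, decide_eq_false (by omega)]
    rfl
  unfold Pool.Agent.S5.Z4
  rw [f1, f2, f3, f4]
  rfl

/-- The quadratic bound. -/
theorem quad4 {sy sb : Slt} {zs : ℂ} (a0 : 0 < sy.ys.re) (a1 : sy.ys.re < 1 / 2)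
    (b0 : 0 < sb.ys.re) (b1 : sb.ys.re < 1 / 2) (c0 : zs.re < sy.ys.re)
    (c1 : sy.ys.re - zs.re < 1 / 2) (d0 : 0 < zs.re + sb.ys.re) (d1 : zs.re + sb.ys.re < 1 / 2) :
    ∃ c : ℝ, 0 < c ∧ ∃ ρ : ℝ, 0 < ρ ∧ ∀ s x t : ℝ, |s| ≤ ρ → |x| ≤ ρ → |t| ≤ ρ →
      (sy.ex = false → s = 0) → (sb.ex = false → t = 0) →
      Ez4 sy.ys zs sb.ys (sy.ys + s) (zs + x) (sb.ys + t) ≤ -(c * (s ^ 2 + x ^ 2 + t ^ 2)) := by
  have r1 : ∀ w : ℂ, (1 / 2 - w).re = 1 / 2 - w.re := fun w => by simp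
  have ka : 0 < Kc (1 / 2 - sy.ys) := Kc_pos' (by rw [r1]; linarith) (by rw [r1]; linarith)
  have kb : 0 < Kc (1 / 2 - sb.ys) := Kc_pos' (by rw [r1]; linarith) (by rw [r1]; linarith)
  have kc : 0 < Kc (sy.ys - zs) := Kc_pos' (by rw [sub_re]; linarith) (by rw [sub_re]; linarith)
  have kd : 0 < Kc (zs + sb.ys) := Kc_pos' (by rw [add_re]; linarith) (by rw [add_re]; linarith)
  refine quad_z4 (Kok_of ?_ ?_) (Kok_of ?_ ?_) (Kok_of ?_ ?_) (Kok_of ?_ ?_) ?_ ?_ ?_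
  all_goals first
    | (rw [r1]; linarith)
    | (rw [sub_re]; linarith)
    | (rw [add_re]; linarith)
    | positivity

end Pool.Agent.S5.Z4
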