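import Mathlib

/-!
# Packed natural numbers

`pk b n g` has the digits `g 0, ..., g (n - 1)` in base `b`. The lanes of the tables have `32` bits.
-/

set_option autoImplicit false

namespace Pool.Agent.S5.Z4

/-- The packed number. -/
def pk (b n : ℕ) (g : ℕ → ℕ) : ℕ := ∑ i ∈ Finset.range n, g i * b ^ i

theorem pk_zero (b : ℕ) (g : ℕ → ℕ) : pk b 0 g = 0 := rfl

theorem pk_succ (b n : ℕ) (g : ℕ → ℕ) : pk b (n + 1) g = pk b n g + g n * b ^ n := by
  unfold pk
  rw [Finset.sum_range_succ]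

theorem pk_congr {b n : ℕ} {g h : ℕ → ℕ} (H : ∀ i < n, g i = h i) : pk b n g = pk b n h := by
  unfold pk
  exact Finset.sum_congr rfl fun i hi => by rw [H i (Finset.mem_range.1 hi)]

theorem pk_add (b n : ℕ) (g h : ℕ → ℕ) : pk b n (fun i => g i + h i) = pk b n g + pk b n h := by
  unfold pk
  rw [← Finset.sum_add_distrib]
  exact Finset.sum_congr rfl fun i _ => by ring

theorem pk_mul (b n c : ℕ) (g : ℕ → ℕ) : pk b n (fun i => c * g i) = c * pk b n g := by
  unfold pk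
  rw [Finset.mul_sum]
  exact Finset.sum_congr rfl fun i _ => by ring

theorem pk_split (b n m : ℕ) (g : ℕ → ℕ) :
    pk b (n + m) g = pk b n g + b ^ n * pk b m (fun i => g (n + i)) := by
  unfold pk
  rw [Finset.sum_range_add, Finset.mul_sum]
  congr 1
  exact Finset.sum_congr rfl fun i _ => by rw [pow_add]; ring

theorem pk_lt {b n : ℕ} {g : ℕ → ℕ} (hg : ∀ i < n, g i < b) : pk b n g < b ^ n := by
  induction n with
  | zero => simp [pk_zero]
  | succ n ih =>
    rw [pk_succ, pow_succ]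
    have h1 := ih fun i hi => hg i (by omega)
    have h2 := hg n (by omega)
    have h3 : (g n + 1) * b ^ n ≤ b * b ^ n := Nat.mul_le_mul_right _ h2
    nlinarith

/-- A window of the digits. -/
theorem pk_window {b n : ℕ} {g : ℕ → ℕ} (a m : ℕ) (h : a + m ≤ n) (hg : ∀ i < n, g i < b)
    (hb : 0 < b) : pk b n g / b ^ a % b ^ m = pk b m (fun i => g (a + i)) := by
  obtain ⟨k, rfl⟩ : ∃ k, n = a + (m + k) := ⟨n - a - m, by omega⟩
  rw [pk_split b a (m + k), pk_split b m k]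
  have h1 : pk b a g < b ^ a := pk_lt fun i hi => hg i (by omega)
  have h2 : pk b m (fun i => g (a + i)) < b ^ m := pk_lt fun i hi => hg _ (by omega)
  rw [Nat.add_mul_div_left _ _ (by positivity), Nat.div_eq_of_lt h1, zero_add,
    Nat.add_mul_mod_self_left, Nat.mod_eq_of_lt h2]

theorem pk_one (b : ℕ) (g : ℕ → ℕ) : pk b 1 g = g 0 := by
  rw [pk_succ, pk_zero]
  simp

theorem pk_digit {b n : ℕ} {g : ℕ → ℕ} (k : ℕ) (hk : k < n) (hg : ∀ i < n, g i < b) (hb : 0 < b) :
    pk b n g / b ^ k % b = g k := by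
  have h := pk_window k 1 (by omega) hg hb
  rw [pow_one, pk_one] at h
  simpa using h

/-- A number is packed by its digits. -/
theorem pk_digits {b : ℕ} (hb : 0 < b) (n x : ℕ) (hx : x < b ^ n) :
    pk b n (fun i => x / b ^ i % b) = x := by
  induction n generalizing x with
  | zero =>
    rw [pow_zero] at hx
    rw [pk_zero]
    omega
  | succ n ih =>
    have h1 : pk b (1 + n) (fun i => x / b ^ i % b) =
        x % b + b * pk b n (fun i => x / b / b ^ i % b) := by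
      rw [pk_split, pk_one, pow_one, pow_zero, Nat.div_one]
      congr 2
      refine pk_congr fun i _ => ?_
      rw [pow_add, pow_one, Nat.div_div_eq_div_mul]
    rw [add_comm n 1, h1, ih (x / b) ?_, Nat.mod_add_div]
    rw [Nat.div_lt_iff_lt_mul hb, ← pow_succ]
    exact hx

/-! ### Two levels -/

/-- The lanes `(v, j)`, `v < 16`, `j < 21`. -/
def pk2 (g : ℕ → ℕ → ℕ) : ℕ := pk ((2 ^ 32) ^ 21) 16 fun v => pk (2 ^ 32) 21 (g v)

theorem pk2_add (g h : ℕ → ℕ → ℕ) : pk2 (fun v j => g v j + h v j) = pk2 g + pk2 h := by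
  unfold pk2
  rw [← pk_add]
  exact pk_congr fun v _ => pk_add _ _ _ _

theorem pk2_mul (c : ℕ) (g : ℕ → ℕ → ℕ) : pk2 (fun v j => c * g v j) = c * pk2 g := by
  unfold pk2
  rw [← pk_mul]
  exact pk_congr fun v _ => pk_mul _ _ _ _

theorem pk2_congr {g h : ℕ → ℕ → ℕ} (H : ∀ v < 16, ∀ j < 21, g v j = h v j) :
    pk2 g = pk2 h := by
  unfold pk2
  exact pk_congr fun v hv => pk_congr fun j hj => H v hv j hj

/-- A column vector. -/
theorem pk2_col (M : ℕ → ℕ) : pk2 (fun _ j => M j) =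
    pk (2 ^ 32) 21 M * pk ((2 ^ 32) ^ 21) 16 (fun _ => 1) := by
  unfold pk2
  rw [← pk_mul]
  exact pk_congr fun v _ => by rw [mul_one]

/-- A row vector. -/
theorem pk2_row (U : ℕ → ℕ) : pk2 (fun v _ => U v) =
    pk (2 ^ 32) 21 (fun _ => 1) * pk ((2 ^ 32) ^ 21) 16 U := by
  unfold pk2
  rw [← pk_mul]
  refine pk_congr fun v _ => ?_
  rw [mul_comm, ← pk_mul]
  exact pk_congr fun j _ => by rw [mul_one]

theorem pp_digit {b m n : ℕ} {G : ℕ → ℕ → ℕ} (hb : 0 < b) (hG : ∀ v < n, ∀ j < m, G v j < b)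
    {v j : ℕ} (hv : v < n) (hj : j < m) :
    pk (b ^ m) n (fun v => pk b m (G v)) / b ^ (m * v + j) % b = G v j := by
  have a1 : pk (b ^ m) n (fun v => pk b m (G v)) / (b ^ m) ^ v % b ^ m = pk b m (G v) :=
    pk_digit v hv (fun i hi => pk_lt fun j hj => hG i hi j hj) (by positivity)
  have a2 : pk b m (G v) / b ^ j % b = G v j := pk_digit j hj (hG v hv) hb
  have e3 : b ^ (m * v + j) = (b ^ m) ^ v * b ^ j := by
    rw [← pow_mul, ← pow_add]
  rw [e3, ← Nat.div_div_eq_div_mul]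
  have e4 : b ^ m = b ^ j * (b * b ^ (m - j - 1)) := by
    rw [← pow_succ', ← pow_add]
    congr 1
    omega
  generalize pk (b ^ m) n (fun v => pk b m (G v)) = P at a1 ⊢
  generalize P / (b ^ m) ^ v = Q at a1 ⊢
  rw [← a2, ← a1]
  conv_rhs => rw [e4, Nat.mod_mul_right_div_self, Nat.mod_mul_right_mod]

theorem pp_add {b m n : ℕ} (g h : ℕ → ℕ → ℕ) :
    pk (b ^ m) n (fun v => pk b m (fun j => g v j + h v j)) =
      pk (b ^ m) n (fun v => pk b m (g v)) + pk (b ^ m) n (fun v => pk b m (h v)) := by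
  rw [← pk_add]
  exact pk_congr fun v _ => pk_add _ _ _ _

/-- The comparison of the lanes. -/
theorem pp_cmp {w m n : ℕ} {T V : ℕ → ℕ → ℕ} (hT : ∀ v < n, ∀ j < m, T v j < 2 ^ w)
    (hV : ∀ v < n, ∀ j < m, V v j < 2 ^ w) {A B C : ℕ}
    (hA : A = pk ((2 ^ (w + 1)) ^ m) n fun v => pk (2 ^ (w + 1)) m (T v))
    (hB : B = pk ((2 ^ (w + 1)) ^ m) n fun v => pk (2 ^ (w + 1)) m (V v))
    (hC : C = pk ((2 ^ (w + 1)) ^ m) n fun _ => pk (2 ^ (w + 1)) m fun _ => 2 ^ w)
    (h : (A + C - B) &&& C = C) : ∀ v < n, ∀ j < m, V v j ≤ T v j := by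
  intro v hv j hj
  have e1 : A + C - B = pk ((2 ^ (w + 1)) ^ m) n
      fun v => pk (2 ^ (w + 1)) m fun j => T v j + 2 ^ w - V v j := by
    have : A + C = pk ((2 ^ (w + 1)) ^ m) n
        (fun v => pk (2 ^ (w + 1)) m fun j => T v j + 2 ^ w - V v j) + B := by
      rw [hA, hC, hB, ← pp_add, ← pp_add]
      refine pk_congr fun v hv => pk_congr fun j hj => ?_
      have := hV v hv j hj
      omega
    rw [this, Nat.add_sub_cancel]
  rw [e1] at h
  have hw : 2 ^ (w + 1) = 2 * 2 ^ w := by rw [pow_succ]; ring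
  have hw0 : 0 < 2 ^ w := by positivity
  have b1 := pp_digit (b := 2 ^ (w + 1)) (m := m) (n := n)
    (G := fun v j => T v j + 2 ^ w - V v j) (by positivity)
    (fun v hv j hj => by have := hT v hv j hj; rw [hw]; omega) hv hj
  have b2 := pp_digit (b := 2 ^ (w + 1)) (m := m) (n := n)
    (G := fun _ _ => 2 ^ w) (by positivity)
    (fun v hv j hj => by rw [hw]; omega) hv hj
  rw [← hC, ← pow_mul] at b2
  rw [← pow_mul _ (w + 1) (m * v + j)] at b1
  have c1 : (T v j + 2 ^ w - V v j).testBit w = true := by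
    have c2 : C.testBit (w + (w + 1) * (m * v + j)) = true := by
      have c3 : (2 ^ w : ℕ).testBit w = true := Nat.testBit_two_pow_self
      rw [← b2, Nat.testBit_mod_two_pow, Nat.testBit_div_two_pow] at c3
      simp only [Bool.and_eq_true, decide_eq_true_eq] at c3
      exact c3.2
    have b1' : (T v j + 2 ^ w - V v j) = _ := b1.symm
    rw [b1', Nat.testBit_mod_two_pow, Nat.testBit_div_two_pow]
    rw [← h, Nat.testBit_land] at c2
    simp only [Bool.and_eq_true, decide_eq_true_eq] at c2 ⊢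
    exact ⟨by omega, c2.1⟩
  have c4 := Nat.ge_two_pow_of_testBit c1
  have := hV v hv j hj
  omega

theorem pk2_cmp {T V : ℕ → ℕ → ℕ} (hT : ∀ v < 16, ∀ j < 21, T v j < 2 ^ 31)
    (hV : ∀ v < 16, ∀ j < 21, V v j < 2 ^ 31)
    (h : (pk2 T + pk2 (fun _ _ => 2 ^ 31) - pk2 V) &&& pk2 (fun _ _ => 2 ^ 31) =
      pk2 (fun _ _ => 2 ^ 31)) : ∀ v < 16, ∀ j < 21, V v j ≤ T v j :=
  pp_cmp (w := 31) hT hV rfl rfl rfl h

theorem lane_land (x m j : ℕ) : (x &&& m) / (2 ^ 32) ^ j % 2 ^ 32 =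
    (x / (2 ^ 32) ^ j % 2 ^ 32) &&& (m / (2 ^ 32) ^ j % 2 ^ 32) := by
  rw [← pow_mul, Nat.and_div_two_pow, Nat.and_mod_two_pow]

theorem lt_of_land {y : ℕ} (h : y &&& 0xF8000000 = 0) (hlt : y < 2 ^ 32) : y < 2 ^ 27 := by
  apply Nat.lt_pow_two_of_testBit
  intro i hi
  rcases Nat.lt_or_ge i 32 with h4 | h4
  · by_contra h5
    have h6 : y.testBit i = true := by simpa using h5
    have h7 : (y &&& 0xF8000000).testBit i = true := by
      rw [Nat.testBit_land, h6, Bool.true_and]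
      interval_cases i <;> rfl
    rw [h, Nat.zero_testBit] at h7
    exact Bool.false_ne_true h7
  · exact Nat.testBit_lt_two_pow (lt_of_lt_of_le hlt (Nat.pow_le_pow_right (by norm_num) h4))

/-- The mask of the five upper bits. -/
def mk5 : ℕ := pk (2 ^ 32) 21 fun _ => 0xF8000000

theorem mk5_lane (j : ℕ) (hj : j < 21) : mk5 / (2 ^ 32) ^ j % 2 ^ 32 = 0xF8000000 :=
  pk_digit (b := 2 ^ 32) (n := 21) (g := fun _ => 0xF8000000) j hj
    (fun _ _ => by norm_num) (by positivity)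

/-- A bound of the lanes of a given number. -/
theorem lane_lt {x : ℕ} (h : x &&& mk5 = 0) (j : ℕ) (hj : j < 21) :
    x / (2 ^ 32) ^ j % 2 ^ 32 < 2 ^ 27 := by
  have h1 := lane_land x mk5 j
  rw [h, mk5_lane j hj, Nat.zero_div, Nat.zero_mod] at h1
  exact lt_of_land h1.symm (Nat.mod_lt _ (by positivity))

end Pool.Agent.S5.Z4
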