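import Pool.Agent.S5.Z4.Tb

/-!
# Inner nodes with four half twists: regions, the kernel program

A vertex `w = exp (ℓ - i φ)` is in a cell `(a0, a1, f0, f1)` if `a0 / 1000 - 1 ≤ ℓ ≤ a1 / 1000 - 1` and
`f0 / 1000 ≤ φ ≤ f1 / 1000`. For a slot with the own vertex `κ` and the other vertex `w` of the edge the
critical point `y` has `cos (π y) ^ 2 = 1 / s`, `s = exp (2 i φ) / |κ| ^ 2 + exp (± 2 i φ') / |w| ^ 2`. The
tests compare the hull of the two sectors with the level sets of `Re y` and `Im y`. Points have the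
unit `2 ^ (-24)`; the coordinates of a vertex of a sector are at most `64` units too small.
-/

set_option autoImplicit false

namespace Pool.Agent.S5.Z4

/-- A cell of a vertex. -/
structure Ce where
  a0 : ℕ
  a1 : ℕ
  f0 : ℕ
  f1 : ℕ

/-- A rectangle, in units of `1 / 1000`; the imaginary part is shifted by `1 / 2`. -/
structure Rc where
  t0 : ℕ
  t1 : ℕ
  e0 : ℕ
  e1 : ℕ

/-- A certificate for a rectangle of a slot. -/
structure Ct where
  r : ℕ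
  A : ℕ
  g : Bool
  m : Bool
  u0 : ℕ
  u1 : ℕ

/-- A point. -/
structure Pv where
  x : ℕ
  y : ℕ

/-- The corners of a sector (inner radius, outer radius) and the outer tangent point. -/
structure Se where
  i0 : Pv
  i1 : Pv
  o0 : Pv
  o1 : Pv
  v : Pv

def pm (U n q : ℕ) : Pv := ⟨Nat.div (Nat.mul U (cosT n)) q, Nat.div (Nat.mul U (sinT n)) q⟩

def sec (k : Ce) : Se := ⟨pm (uT k.a1) (Nat.mul 2 k.f0) 16777216, pm (uT k.a1) (Nat.mul 2 k.f1) 16777216,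
  pm (uT k.a0) (Nat.mul 2 k.f0) 16777216, pm (uT k.a0) (Nat.mul 2 k.f1) 16777216,
  pm (uT k.a0) (Nat.add k.f0 k.f1) (Nat.add (cosT (Nat.sub k.f1 k.f0)) 6)⟩

def sqn (n : ℕ) : ℕ := Nat.mul n n

/-- Bounds for `|s| ^ 2`. -/
def qh (S : Bool) (p q : Pv) : ℕ := Nat.add (sqn (Nat.add (Nat.add p.x q.x) 128))
  (bif S then sqn (Nat.add (Nat.add p.y q.y) 128)
   else sqn (Nat.add (Nat.sub (Nat.add p.y 64) q.y) (Nat.sub (Nat.add q.y 64) p.y)))
def ql (S : Bool) (p q : Pv) : ℕ := Nat.add (sqn (Nat.add p.x q.x))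
  (bif S then sqn (Nat.add p.y q.y)
   else sqn (Nat.add (Nat.sub p.y (Nat.add q.y 64)) (Nat.sub q.y (Nat.add p.y 64))))

/-! ### `Re y ≤ t` -/

def ka' (W E X Q q : ℕ) : Bool :=
  Nat.ble (sqn (Nat.sub (Nat.succ (Nat.div (Nat.mul W Q) 281474976710656)) (Nat.mul 33554432 X)))
    (Nat.mul E q)
def ka (W E : ℕ) (S : Bool) (p q : Pv) : Bool := ka' W E (Nat.add p.x q.x) (qh S p q) (ql S p q)
def kb' (W E X Q : ℕ) : Bool :=
  Nat.ble (Nat.mul E Q)
    (sqn (Nat.sub (Nat.mul 33554432 X) (Nat.succ (Nat.div (Nat.mul W Q) 281474976710656))))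
def kb (W E : ℕ) (S : Bool) (p q : Pv) : Bool := kb' W E (Nat.add p.x q.x) (qh S p q)

def t3 (g : Pv → Bool) (b : Se) : Bool := g b.o0 && (g b.o1 && g b.v)
def tA (f : Bool → Pv → Pv → Bool) (S : Bool) (a b : Se) : Bool :=
  t3 (fun p => t3 (fun q => f S p q) b) a && (t3 (fun p => f true p ⟨0, 0⟩) a &&
  (t3 (fun q => f true q ⟨0, 0⟩) b || t3 (fun q => f S a.i0 q && f S a.i1 q) b))
def tB (S : Bool) (a b : Se) (d : ℕ) : Bool :=
  bif Nat.ble d 16777216 then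
    tA (ka (Nat.mul d (Nat.sub 33554432 d)) (Nat.mul 4 (sqn (Nat.sub 16777216 d)))) S a b
  else
    Nat.ble d 33554431 &&
    tA (kb (Nat.mul d (Nat.sub 33554432 d)) (Nat.mul 4 (sqn (Nat.sub d 16777216)))) S a b
def tT1 (S : Bool) (a b : Se) (t : ℕ) : Bool := tB S a b (Nat.add (dT t) 6)

/-! ### `t ≤ Re y` -/

/-- The smaller number. -/
def mi (a b : ℕ) : ℕ := bif Nat.ble a b then a else b
/-- A linear function at a corner. -/
def lp (P B N : ℕ) (p : Pv) : ℕ :=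
  Nat.sub (Nat.add (Nat.mul P p.x) (Nat.mul B p.y)) (Nat.mul N (Nat.add p.x 64))
def ln (P B N : ℕ) (p : Pv) : ℕ :=
  Nat.sub (Nat.mul P p.x) (Nat.add (Nat.mul B (Nat.add p.y 64)) (Nat.mul N (Nat.add p.x 64)))
/-- The linear function is not negative. -/
def lpc (P B N : ℕ) (p : Pv) : Bool :=
  Nat.ble (Nat.mul N (Nat.add p.x 64)) (Nat.add (Nat.mul P p.x) (Nat.mul B p.y))
def lnc (P B N : ℕ) (p : Pv) : Bool :=
  Nat.ble (Nat.add (Nat.mul B (Nat.add p.y 64)) (Nat.mul N (Nat.add p.x 64))) (Nat.mul P p.x)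
/-- A linear test at a vertex. -/
def lv (K P B N : ℕ) (p q : Pv) : Bool :=
  Nat.ble (Nat.add K (Nat.mul 65536 (Nat.add (Nat.mul B (Nat.add q.y 64))
      (Nat.mul N (Nat.add (Nat.add p.x q.x) 128)))))
    (Nat.mul 65536 (Nat.add (Nat.mul P (Nat.add p.x q.x)) (Nat.mul B p.y)))
def tD (S m : Bool) (a b : Se) (K P B N : ℕ) : Bool :=
  lpc P B N a.i0 && (lpc P B N a.i1 &&
  bif S then
    lpc P B N b.i0 && (lpc P B N b.i1 &&
    Nat.ble K (Nat.mul 65536 (Nat.add (mi (lp P B N a.i0) (lp P B N a.i1))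
      (mi (lp P B N b.i0) (lp P B N b.i1)))))
  else bif m then
    Nat.ble (Nat.mul (Nat.sub N P) (Nat.add b.i1.y 64)) (Nat.mul B b.i1.x) &&
    ((lv K P B N a.i0 b.i1 && lv K P B N a.i0 b.o1) && (lv K P B N a.i1 b.i1 && lv K P B N a.i1 b.o1))
  else
    lnc P B N b.i0 && (lnc P B N b.i1 &&
    Nat.ble K (Nat.mul 65536 (Nat.add (mi (lp P B N a.i0) (lp P B N a.i1))
      (mi (ln P B N b.i0) (ln P B N b.i1))))))
/-- `q` the slope, `M = 65536 + A ^ 2`. -/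
def tC3 (S m : Bool) (a b : Se) (r A W q M : ℕ) : Bool :=
  tD S m a b (Nat.mul W (Nat.mul (sqn r) M)) (Nat.mul q (Nat.sub 65536 (sqn A))) (Nat.mul (Nat.mul 512 A) q)
    (Nat.mul 33554432 M)
def tC2 (S m : Bool) (a b : Se) (d r A W : ℕ) : Bool :=
  Nat.ble A 256 && (Nat.ble 33554432 (Nat.add (Nat.div (Nat.mul W r) 2147483648) (Nat.mul 2 d)) &&
  tC3 S m a b r A W (Nat.sub (Nat.add (Nat.div (Nat.mul W r) 2147483648) (Nat.mul 2 d)) 33554432)
    (Nat.add 65536 (sqn A)))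
def tC (S m : Bool) (a b : Se) (d r A : ℕ) : Bool := tC2 S m a b d r A (Nat.mul d (Nat.sub 33554432 d))
def tT0 (S : Bool) (a b : Se) (t : ℕ) (c : Ct) : Bool :=
  bif S || c.g then tC S c.m a b (dT t) c.r c.A else tC false c.m b a (dT t) c.r c.A

/-! ### `η ≤ Im y`, `0 < η` -/

/-- `cosh (2 π n / 1000)`. -/
def chU (n : ℕ) : ℕ := Nat.add (Nat.div (Nat.add (eT (Nat.add 500 n)) (eT (Nat.sub 500 n))) 2) 7
def chL (n : ℕ) : ℕ := Nat.div (Nat.add (eT (Nat.add 500 n)) (eT (Nat.sub 500 n))) 2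

/-- The vertex test of a disc. -/
def dv (Ka Kb Kc Kd : ℕ) (p q : Pv) : Bool :=
  Nat.ble (Nat.add (Nat.mul Ka (qh true p q)) (Nat.mul Kb (Nat.add (Nat.add p.x q.x) 128)))
    (Nat.add (Nat.mul Kc (Nat.add p.x q.x)) (Nat.mul Kd (Nat.add p.y q.y)))
def dw (Ka Kb Kc Kd : ℕ) (p q : Pv) : Bool :=
  Nat.ble (Nat.add q.y 64) p.y &&
  Nat.ble (Nat.add (Nat.add (Nat.mul Ka (Nat.add (sqn (Nat.add (Nat.add p.x q.x) 128))
      (sqn (Nat.sub (Nat.add p.y 64) q.y)))) (Nat.mul Kb (Nat.add (Nat.add p.x q.x) 128)))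
      (Nat.mul Kd (Nat.add q.y 64)))
    (Nat.add (Nat.mul Kc (Nat.add p.x q.x)) (Nat.mul Kd p.y))
/-- The monotonicity in the angle. -/
def ci (L R Z : ℕ) (p : Pv) : Bool := Nat.ble L (Nat.add R (Nat.mul Z p.x))
def cj (Z R : ℕ) (p : Pv) : Bool := Nat.ble (Nat.mul Z (Nat.add p.y 64)) R
/-- `Z = c ^ 2 - 1`, `M = 1 + τ ^ 2`, `N = 1 - τ ^ 2`. -/
def e3 (S : Bool) (a b : Se) (c τ M N ZM : ℕ) : Bool :=
  ci (Nat.mul (Nat.mul c N) 281474976710656) (Nat.mul 4722366482869645213696 M) ZM b.i1 &&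
  bif S then
    cj ZM (Nat.mul (Nat.mul c τ) 36893488147419103232) b.o1 &&
    (ci (Nat.mul (Nat.mul c N) 281474976710656) (Nat.mul 4722366482869645213696 M) ZM a.i1 &&
    (cj ZM (Nat.mul (Nat.mul c τ) 36893488147419103232) a.o1 &&
    ((fun f : Pv → Pv → Bool => (f a.i0 b.i0 && f a.i0 b.o0) && (f a.o0 b.i0 && f a.o0 b.o0))
      (dv ZM (Nat.mul 9444732965739290427392 M) (Nat.mul (Nat.mul c N) 562949953421312)
        (Nat.mul (Nat.mul c τ) 73786976294838206464)))))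
  else
    (fun f : Pv → Bool => f a.i0 && f a.o0)
      (fun p => (fun f : Pv → Bool => f b.i0 && (f b.i1 && (f b.o0 && (f b.o1 && f b.v))))
        (dw ZM (Nat.mul 9444732965739290427392 M) (Nat.mul (Nat.mul c N) 562949953421312)
          (Nat.mul (Nat.mul c τ) 73786976294838206464) p))
def e2 (S : Bool) (a b : Se) (c τ M : ℕ) : Bool :=
  e3 S a b c τ M (Nat.sub 4294967296 (sqn τ)) (Nat.mul (Nat.sub (sqn c) 281474976710656) M)
def tE0 (S : Bool) (a b : Se) (n τ : ℕ) : Bool :=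
  Nat.ble τ 65536 && e2 S a b (chU n) τ (Nat.add 4294967296 (sqn τ))

/-! ### `Im y ≤ η`, `0 < η` -/

/-- A linear test at a vertex. -/
def hv (Za Zj K : ℕ) (p q : Pv) : Bool :=
  Nat.ble (Nat.add (Nat.mul Za (Nat.add (Nat.add p.y q.y) 128)) K) (Nat.mul Zj (Nat.add p.x q.x))
def hw (Za Zj K : ℕ) (p q : Pv) : Bool :=
  Nat.ble (Nat.add (Nat.mul Za (Nat.add p.y 64)) K) (Nat.add (Nat.mul Zj (Nat.add p.x q.x)) (Nat.mul Za q.y))
def h5 (S : Bool) (a b : Se) (Za Zj K : ℕ) : Bool :=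
  bif S then (hv Za Zj K a.i1 b.i1 && hv Za Zj K a.i1 b.o1) && (hv Za Zj K a.o1 b.i1 && hv Za Zj K a.o1 b.o1)
  else (hw Za Zj K a.i1 b.i0 && hw Za Zj K a.i1 b.i1) && (hw Za Zj K a.o1 b.i0 && hw Za Zj K a.o1 b.i1)
/-- `k` is `κ`, `Z = c ^ 2 - 1`. -/
def h4 (S : Bool) (a b : Se) (c τ M N k Z : ℕ) : Bool :=
  Nat.ble 1 Z && (Nat.ble (Nat.mul (Nat.mul c N) 50331648) (Nat.mul (Nat.add (sqn c) 562949953421312) M) &&
  h5 S a b (Nat.mul Z (Nat.mul (Nat.mul k τ) 131072)) (Nat.mul Z (Nat.sub (Nat.mul (sqn M) 16777216) (Nat.mul k N)))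
    (Nat.mul 562949953421312 (sqn (Nat.sub (Nat.mul c M) (Nat.mul 16777216 N)))))
def h3 (S : Bool) (a b : Se) (c τ M N : ℕ) : Bool :=
  Nat.ble (Nat.mul c M) (Nat.mul 33554432 N) &&
  h4 S a b c τ M N (Nat.sub (Nat.mul 33554432 N) (Nat.mul c M)) (Nat.sub (sqn c) 281474976710656)
def h2 (S : Bool) (a b : Se) (c τ : ℕ) : Bool :=
  h3 S a b c τ (Nat.add 4294967296 (sqn τ)) (Nat.sub 4294967296 (sqn τ))
def tE1 (S : Bool) (a b : Se) (n τ : ℕ) : Bool :=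
  Nat.ble τ 65536 && (Nat.ble 22369622 (Nat.add a.i1.x b.i1.x) && h2 S a b (chL n) τ)

/-! ### The rectangle of a slot -/

/-- `Im s ≤ 0` for an `A` edge. -/
def yN (a b : Se) : Bool := Nat.ble (Nat.add a.o1.y 64) b.i0.y

/-- `Im y ≤ (e - 500) / 1000`. -/
def tU (S : Bool) (a b : Se) (e τ : ℕ) : Bool :=
  bif Nat.ble e 500 then !S && (bif Nat.beq e 500 then yN a b else tE0 false b a (Nat.sub 500 e) τ)
  else tE1 S a b (Nat.sub e 500) τ
/-- `(e - 500) / 1000 ≤ Im y`. -/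
def tL (S : Bool) (a b : Se) (e τ : ℕ) : Bool :=
  bif Nat.ble 501 e then tE0 S a b (Nat.sub e 500) τ
  else S || (bif Nat.beq e 500 then yN b a else tE1 false b a (Nat.sub 500 e) τ)

def rY (S : Bool) (a b : Se) (c : Ct) (y : Rc) : Bool :=
  tT1 S a b y.t1 && (tT0 S a b y.t0 c && (tU S a b y.e1 c.u1 && tL S a b y.e0 c.u0))

/-- The range of the tables. -/
def okC (k : Ce) : Bool := Nat.ble 520 k.a0 && (Nat.ble k.a0 k.a1 && (Nat.ble k.a1 1480 &&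
  (Nat.ble k.f0 k.f1 && (Nat.ble k.f1 785 && Nat.ble k.f1 (Nat.add k.f0 300)))))
def okR (y : Rc) : Bool := Nat.ble y.t0 500 && (Nat.ble y.t1 500 && (Nat.ble 300 y.e0 && (Nat.ble y.e0 700 &&
  (Nat.ble 300 y.e1 && Nat.ble y.e1 700))))

/-- The rectangle of a slot: `S` the edge, `k` the own vertex, `b` the other vertex. -/
def regY (S : Bool) (k b : Ce) (c : Ct) (y : Rc) : Bool :=
  okC k && (okC b && (okR y && rY S (sec k) (sec b) c y))

end Pool.Agent.S5.Z4
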