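import Mathlib

/-!
# Inner nodes with four half twists: sectors and level sets
-/

set_option autoImplicit false

namespace Pool.Agent.S5.Z4

/-! ### Convex sets -/

def Cvx (P : ℝ → ℝ → Prop) : Prop := ∀ ⦃x y x' y' a b : ℝ⦄, P x y → P x' y' → 0 ≤ a → 0 ≤ b →
  a + b = 1 → P (a * x + b * x') (a * y + b * y')

theorem Cvx.tri {P : ℝ → ℝ → Prop} (h : Cvx P) {x0 y0 x1 y1 x2 y2 a b c : ℝ} (h0 : P x0 y0)
    (h1 : P x1 y1) (h2 : P x2 y2) (ha : 0 ≤ a) (hb : 0 ≤ b) (hc : 0 ≤ c) (hs : a + b + c = 1) :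
    P (a * x0 + b * x1 + c * x2) (a * y0 + b * y1 + c * y2) := by
  rcases (add_nonneg ha hb).eq_or_lt with hw | hw
  · have a0 : a = 0 := by linarith
    have b0 : b = 0 := by linarith
    have c1 : c = 1 := by linarith
    rw [a0, b0, c1]
    simpa using h2
  · have k := h h0 h1 (div_nonneg ha hw.le) (div_nonneg hb hw.le) (by field_simp)
    have k2 := h k h2 hw.le hc hs
    convert k2 using 1 <;> · field_simp

theorem Cvx.seg {P : ℝ → ℝ → Prop} (h : Cvx P) {x y a b u : ℝ} (h0 : P (a * x) (a * y))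
    (h1 : P (b * x) (b * y)) (ha : a ≤ u) (hb : u ≤ b) : P (u * x) (u * y) := by
  rcases (ha.trans hb).eq_or_lt with hw | hw
  · have : u = a := le_antisymm (hb.trans hw.ge) ha
    rw [this]
    exact h0
  · have hw' : 0 < b - a := by linarith
    have k := h h0 h1 (div_nonneg (by linarith : 0 ≤ b - u) hw'.le)
      (div_nonneg (by linarith : 0 ≤ u - a) hw'.le) (by field_simp; ring)
    convert k using 1 <;> · field_simp; ring

theorem Cvx.shift {P : ℝ → ℝ → Prop} (h : Cvx P) (c d : ℝ) : Cvx (fun x y => P (x + c) (y + d)) := by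
  intro x y x' y' a b h0 h1 ha hb hs
  have k := h h0 h1 ha hb hs
  have e1 : a * x + b * x' + c = a * (x + c) + b * (x' + c) := by linear_combination (-c) * hs
  have e2 : a * y + b * y' + d = a * (y + d) + b * (y' + d) := by linear_combination (-d) * hs
  show P (a * x + b * x' + c) (a * y + b * y' + d)
  rw [e1, e2]
  exact k

theorem Cvx.flip {P : ℝ → ℝ → Prop} (h : Cvx P) : Cvx (fun x y => P x (-y)) := by
  intro x y x' y' a b h0 h1 ha hb hs
  have k := h h0 h1 ha hb hs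
  have e2 : -(a * y + b * y') = a * -y + b * -y' := by ring
  show P (a * x + b * x') (-(a * y + b * y'))
  rw [e2]
  exact k

/-! ### Arcs -/

/-- Cosine and sine of the double angle. -/
noncomputable def Ac (t : ℝ) : ℝ := (1 - t ^ 2) / (1 + t ^ 2)
noncomputable def As (t : ℝ) : ℝ := 2 * t / (1 + t ^ 2)
/-- The tangent point. -/
noncomputable def Vc (t0 t1 : ℝ) : ℝ := (1 - t0 * t1) / (1 + t0 * t1)
noncomputable def Vs (t0 t1 : ℝ) : ℝ := (t0 + t1) / (1 + t0 * t1)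

theorem AcAs (t : ℝ) : Ac t ^ 2 + As t ^ 2 = 1 := by
  unfold Ac As
  have : (0 : ℝ) < 1 + t ^ 2 := by positivity
  field_simp
  ring

theorem Ac_anti {t t1 : ℝ} (h0 : 0 ≤ t) (h1 : t ≤ t1) : Ac t1 ≤ Ac t := by
  unfold Ac
  rw [div_le_div_iff₀ (by positivity) (by positivity)]
  nlinarith [mul_nonneg (sub_nonneg.2 h1) (by linarith : 0 ≤ t + t1)]

theorem As_mono {t t1 : ℝ} (h0 : 0 ≤ t) (h1 : t ≤ t1) (h2 : t1 ≤ 1) : As t ≤ As t1 := by
  unfold As
  rw [div_le_div_iff₀ (by positivity) (by positivity)]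
  nlinarith [mul_nonneg (sub_nonneg.2 h1) (by nlinarith : 0 ≤ 1 - t * t1)]

theorem Ac_nonneg {t : ℝ} (h0 : 0 ≤ t) (h1 : t ≤ 1) : 0 ≤ Ac t := by
  unfold Ac
  apply div_nonneg _ (by positivity)
  nlinarith

theorem As_nonneg {t : ℝ} (h0 : 0 ≤ t) : 0 ≤ As t := by
  unfold As
  positivity

/-- A point of an arc is a convex combination of the end points and the tangent point. -/
theorem arc3 {t0 t1 t : ℝ} (h0 : 0 ≤ t0) (h1 : t0 ≤ t) (h2 : t ≤ t1) :
    ∃ a b c : ℝ, 0 ≤ a ∧ 0 ≤ b ∧ 0 ≤ c ∧ a + b + c = 1 ∧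
      Ac t = a * Ac t0 + b * Vc t0 t1 + c * Ac t1 ∧
      As t = a * As t0 + b * Vs t0 t1 + c * As t1 := by
  rcases (h1.trans h2).eq_or_lt with hw | hw
  · have : t = t0 := le_antisymm (h2.trans hw.ge) h1
    refine ⟨1, 0, 0, by norm_num, le_refl 0, le_refl 0, by norm_num, ?_, ?_⟩ <;> rw [this] <;> ring
  · have hw' : 0 < t1 - t0 := by linarith
    set τ : ℝ := (t - t0) / (t1 - t0) with hτ
    have τ0 : 0 ≤ τ := div_nonneg (by linarith) hw'.le
    have τ1 : τ ≤ 1 := by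
      rw [hτ, div_le_one hw']
      linarith
    have ht : t = (1 - τ) * t0 + τ * t1 := by
      rw [hτ]
      field_simp
      ring
    have ht1 : 0 ≤ t1 := by linarith
    have hτ' : 0 ≤ 1 - τ := by linarith
    clear_value τ
    have p : 0 < 1 + t0 * t1 := by positivity
    have q : 0 < 1 + t ^ 2 := by positivity
    have q0 : 0 < 1 + t0 ^ 2 := by positivity
    have q1 : 0 < 1 + t1 ^ 2 := by positivity
    refine ⟨(1 - τ) ^ 2 * (1 + t0 ^ 2) / (1 + t ^ 2), 2 * τ * (1 - τ) * (1 + t0 * t1) / (1 + t ^ 2),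
      τ ^ 2 * (1 + t1 ^ 2) / (1 + t ^ 2), by positivity, by positivity, by positivity, ?_, ?_, ?_⟩
    · field_simp
      rw [ht]
      ring
    · unfold Ac Vc
      field_simp
      rw [ht]
      ring
    · unfold As Vs
      field_simp
      rw [ht]
      ring

theorem arc2 {t0 t1 t : ℝ} (h0 : 0 ≤ t0) (h1 : t0 ≤ t) (h2 : t ≤ t1) :
    ∃ a c : ℝ, 0 ≤ a ∧ 0 ≤ c ∧ 1 ≤ a + c ∧
      Ac t = a * Ac t0 + c * Ac t1 ∧ As t = a * As t0 + c * As t1 := by
  obtain ⟨a, b, c, ha, hb, hc, hs, e1, e2⟩ := arc3 h0 h1 h2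
  have p : 0 < 1 + t0 * t1 := by
    have : 0 ≤ t1 := by linarith
    positivity
  have q0 : 0 < 1 + t0 ^ 2 := by positivity
  have q1 : 0 < 1 + t1 ^ 2 := by positivity
  set w : ℝ := (1 + t0 ^ 2) * (1 + t1 ^ 2) / (2 * (1 + t0 * t1) ^ 2) with hw
  have w0 : 1 ≤ 2 * w := by
    rw [hw, mul_div_assoc', le_div_iff₀ (by positivity)]
    nlinarith [sq_nonneg (t0 - t1)]
  have f1 : Vc t0 t1 = w * (Ac t0 + Ac t1) := by
    rw [hw]
    unfold Vc Ac
    field_simp
    ring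
  have f2 : Vs t0 t1 = w * (As t0 + As t1) := by
    rw [hw]
    unfold Vs As
    field_simp
    ring
  refine ⟨a + b * w, c + b * w, by nlinarith, by nlinarith, by nlinarith, ?_, ?_⟩
  · rw [e1, f1]
    ring
  · rw [e2, f2]
    ring

/-- A sector is in the hull of its corners and the outer tangent point. -/
theorem sector5 {P : ℝ → ℝ → Prop} (h : Cvx P) {r0 r1 u t0 t1 t : ℝ} (h0 : 0 ≤ t0) (h1 : t0 ≤ t)
    (h2 : t ≤ t1) (hr : 0 ≤ r1) (hu : r1 ≤ u) (hu0 : u ≤ r0)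
    (p0 : P (r1 * Ac t0) (r1 * As t0)) (p1 : P (r1 * Ac t1) (r1 * As t1))
    (p2 : P (r0 * Ac t0) (r0 * As t0)) (p3 : P (r0 * Ac t1) (r0 * As t1))
    (p4 : P (r0 * Vc t0 t1) (r0 * Vs t0 t1)) : P (u * Ac t) (u * As t) := by
  obtain ⟨a, b, c, ha, hb, hc, hs, e1, e2⟩ := arc3 h0 h1 h2
  obtain ⟨l, m, hl, hm, hlm, f1, f2⟩ := arc2 h0 h1 h2
  have k1 : P (r0 * Ac t) (r0 * As t) := by
    have k := h.tri p2 p4 p3 ha hb hc hs
    rw [e1, e2]
    convert k using 1 <;> ring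
  have hlm' : 0 < l + m := by linarith
  have k2 : P (r1 / (l + m) * Ac t) (r1 / (l + m) * As t) := by
    have k := h p0 p1 (div_nonneg hl hlm'.le) (div_nonneg hm hlm'.le) (by field_simp)
    rw [f1, f2]
    convert k using 1 <;> · field_simp
  refine h.seg k2 k1 (le_trans ?_ hu) hu0
  rw [div_le_iff₀ hlm']
  nlinarith

theorem sector3 {P : ℝ → ℝ → Prop} (h : Cvx P) {r0 u t0 t1 t : ℝ} (h0 : 0 ≤ t0) (h1 : t0 ≤ t)
    (h2 : t ≤ t1) (hu : 0 ≤ u) (hu0 : u ≤ r0) (p : P 0 0)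
    (p2 : P (r0 * Ac t0) (r0 * As t0)) (p3 : P (r0 * Ac t1) (r0 * As t1))
    (p4 : P (r0 * Vc t0 t1) (r0 * Vs t0 t1)) : P (u * Ac t) (u * As t) := by
  obtain ⟨a, b, c, ha, hb, hc, hs, e1, e2⟩ := arc3 h0 h1 h2
  have k1 : P (r0 * Ac t) (r0 * As t) := by
    have k := h.tri p2 p4 p3 ha hb hc hs
    rw [e1, e2]
    convert k using 1 <;> ring
  have k2 : P (0 * Ac t) (0 * As t) := by simpa using p
  exact h.seg k2 k1 hu hu0

/-- A linear function with values `≥ m ≥ 0` at the inner corners. -/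
theorem lin2 {A B m r1 u t0 t1 t : ℝ} (h0 : 0 ≤ t0) (h1 : t0 ≤ t)
    (h2 : t ≤ t1) (hr : 0 < r1) (hu : r1 ≤ u) (hm : 0 ≤ m)
    (p0 : m ≤ A * (r1 * Ac t0) + B * (r1 * As t0)) (p1 : m ≤ A * (r1 * Ac t1) + B * (r1 * As t1)) :
    m ≤ A * (u * Ac t) + B * (u * As t) := by
  obtain ⟨l, n, hl, hn, hln, f1, f2⟩ := arc2 h0 h1 h2
  have k : m ≤ r1 * (A * Ac t + B * As t) := by
    rw [f1, f2]
    have e : r1 * (A * (l * Ac t0 + n * Ac t1) + B * (l * As t0 + n * As t1)) =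
      l * (A * (r1 * Ac t0) + B * (r1 * As t0)) + n * (A * (r1 * Ac t1) + B * (r1 * As t1)) := by ring
    rw [e]
    nlinarith
  have k0 : 0 ≤ A * Ac t + B * As t := by
    by_contra hc
    push Not at hc
    nlinarith
  calc m ≤ r1 * (A * Ac t + B * As t) := k
    _ ≤ u * (A * Ac t + B * As t) := mul_le_mul_of_nonneg_right hu k0
    _ = A * (u * Ac t) + B * (u * As t) := by ring

/-- A linear function that decreases with the angle. -/
theorem lin1 {A B m r0 r1 u t1 t : ℝ} (h0 : 0 ≤ t) (h2 : t ≤ t1) (h3 : t1 ≤ 1) (hB : 0 ≤ B)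
    (hAB : 0 ≤ A * As t1 + B * Ac t1) (hr : 0 ≤ r1) (hu : r1 ≤ u) (hu0 : u ≤ r0)
    (p0 : m ≤ A * (r1 * Ac t1) - B * (r1 * As t1)) (p1 : m ≤ A * (r0 * Ac t1) - B * (r0 * As t1)) :
    m ≤ A * (u * Ac t) - B * (u * As t) := by
  have a1 := Ac_anti h0 h2
  have a2 := As_mono h0 h2 h3
  have a3 := As_nonneg h0
  have a4 := As_nonneg (h0.trans h2)
  have e0 := AcAs t
  have e1 := AcAs t1
  have a5 := Ac_nonneg (h0.trans h2) h3
  have k : A * Ac t1 - B * As t1 ≤ A * Ac t - B * As t := by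
    rcases le_or_gt 0 A with hA | hA
    · nlinarith [mul_le_mul_of_nonneg_left a1 hA, mul_le_mul_of_nonneg_left a2 hB]
    · rcases a4.eq_or_lt with hs | hs
      · have b1 : As t = 0 := le_antisymm (a2.trans hs.ge) a3
        have b2 : Ac t1 = 1 := by
          rw [← hs] at e1
          nlinarith
        have b3 : Ac t ≤ 1 := by nlinarith [sq_nonneg (As t)]
        have b4 : Ac t = Ac t1 := le_antisymm (by rw [b2]; exact b3) a1
        rw [b1, b4, ← hs]
      · have c1 : 0 ≤ As t1 * (B * (As t1 - As t) + A * (Ac t - Ac t1)) := by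
          have c2 : (-A) * As t1 ≤ B * Ac t1 := by linarith
          have c3 : Ac t * Ac t1 + As t * As t1 ≤ 1 := by
            nlinarith [sq_nonneg (Ac t - Ac t1), sq_nonneg (As t - As t1)]
          have c4 := mul_le_mul_of_nonneg_right c2 (by linarith : 0 ≤ Ac t - Ac t1)
          have c5 := mul_le_mul_of_nonneg_left c3 hB
          have c6 : B * (Ac t1 ^ 2 + As t1 ^ 2) = B := by rw [e1, mul_one]
          nlinarith
        have c2 := nonneg_of_mul_nonneg_right c1 hs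
        linarith
  have hu' : 0 ≤ u := hr.trans hu
  have k2 : u * (A * Ac t1 - B * As t1) ≤ A * (u * Ac t) - B * (u * As t) := by
    have := mul_le_mul_of_nonneg_left k hu'
    linarith
  refine le_trans ?_ k2
  rcases le_total 0 (A * Ac t1 - B * As t1) with hc | hc
  · have := mul_le_mul_of_nonneg_right hu hc
    linarith
  · have := mul_le_mul_of_nonpos_right hu0 hc
    linarith

/-! ### The set `Re y ≤ t` -/

/-- `D = 1 + cos (2 π t)`. -/
def KD (D x y : ℝ) : Prop :=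
  0 ≤ x ∧ D * (2 - D) * (x ^ 2 + y ^ 2) + 2 * (D - 1) * Real.sqrt (x ^ 2 + y ^ 2) ≤ 2 * x

theorem KD_cvx {D : ℝ} (h0 : 0 ≤ D) (h2 : D ≤ 2) : Cvx (KD D) := by
  intro x y x' y' a b h h' ha hb hs
  obtain ⟨hx, hF⟩ := h
  obtain ⟨hx', hF'⟩ := h'
  set ρ := Real.sqrt (x ^ 2 + y ^ 2) with hρ
  set ρ' := Real.sqrt (x' ^ 2 + y' ^ 2) with hρ'
  have r0 : 0 ≤ ρ := Real.sqrt_nonneg _
  have r0' : 0 ≤ ρ' := Real.sqrt_nonneg _
  have r2 : ρ ^ 2 = x ^ 2 + y ^ 2 := Real.sq_sqrt (by positivity)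
  have r2' : ρ' ^ 2 = x' ^ 2 + y' ^ 2 := Real.sq_sqrt (by positivity)
  have hcs : x * x' + y * y' ≤ ρ * ρ' := by
    refine le_trans (le_abs_self _) (abs_le_of_sq_le_sq ?_ (by positivity))
    rw [mul_pow, r2, r2']
    nlinarith [sq_nonneg (x * y' - y * x')]
  have hX : 0 ≤ a * x + b * x' := by positivity
  refine ⟨hX, ?_⟩
  set σ := Real.sqrt ((a * x + b * x') ^ 2 + (a * y + b * y') ^ 2) with hσ
  have s0 : 0 ≤ σ := Real.sqrt_nonneg _
  have s2 : σ ^ 2 = (a * x + b * x') ^ 2 + (a * y + b * y') ^ 2 := Real.sq_sqrt (by positivity)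
  rw [← s2]
  rw [← r2] at hF
  rw [← r2'] at hF'
  set r := a * ρ + b * ρ' with hr
  have rr : 0 ≤ r := by positivity
  have k1 : σ ≤ r := by
    apply abs_le_of_sq_le_sq' _ rr |>.2
    have e1 : (a * x + b * x') ^ 2 + (a * y + b * y') ^ 2 =
        a ^ 2 * (x ^ 2 + y ^ 2) + b ^ 2 * (x' ^ 2 + y' ^ 2) + 2 * (a * b * (x * x' + y * y')) := by ring
    have e2 : r ^ 2 = a ^ 2 * ρ ^ 2 + b ^ 2 * ρ' ^ 2 + 2 * (a * b * (ρ * ρ')) := by
      rw [hr]
      ring
    rw [s2, e1, e2, ← r2, ← r2']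
    have := mul_le_mul_of_nonneg_left hcs (mul_nonneg ha hb)
    linarith
  set E := D * (2 - D) with hE
  have E0 : 0 ≤ E := mul_nonneg h0 (by linarith)
  have k2 : r ^ 2 ≤ a * ρ ^ 2 + b * ρ' ^ 2 := by
    have : a * ρ ^ 2 + b * ρ' ^ 2 - r ^ 2 = a * b * (ρ - ρ') ^ 2 := by
      have : b = 1 - a := by linarith
      rw [hr, this]
      ring
    nlinarith [mul_nonneg (mul_nonneg ha hb) (sq_nonneg (ρ - ρ'))]
  have k3 : E * r ^ 2 + 2 * (D - 1) * r ≤ 2 * (a * x + b * x') := by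
    have t1 := mul_le_mul_of_nonneg_left k2 E0
    have t2 := mul_le_mul_of_nonneg_left hF ha
    have t3 := mul_le_mul_of_nonneg_left hF' hb
    have e : E * (a * ρ ^ 2 + b * ρ' ^ 2) + 2 * (D - 1) * r =
        a * (E * ρ ^ 2 + 2 * (D - 1) * ρ) + b * (E * ρ' ^ 2 + 2 * (D - 1) * ρ') := by
      rw [hr]
      ring
    linarith
  rcases rr.eq_or_lt with h | h
  · have : σ = 0 := le_antisymm (k1.trans h.ge) s0
    rw [this]
    simp only [ne_eq, OfNat.ofNat_ne_zero, not_false_eq_true, zero_pow, mul_zero, add_zero]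
    linarith
  · have k4 : (E * σ ^ 2 + 2 * (D - 1) * σ) * r ≤ (2 * (a * x + b * x')) * r := by
      have t1 : E * σ ^ 2 * r ≤ E * r ^ 2 * σ := by
        have : E * r ^ 2 * σ - E * σ ^ 2 * r = E * σ * r * (r - σ) := by ring
        have := mul_nonneg (mul_nonneg (mul_nonneg E0 s0) rr) (sub_nonneg.2 k1)
        linarith
      have t2 := mul_le_mul_of_nonneg_right k3 s0
      have t3 : (2 * (a * x + b * x')) * σ ≤ (2 * (a * x + b * x')) * r :=
        mul_le_mul_of_nonneg_left k1 (by linarith)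
      nlinarith
    exact le_of_mul_le_mul_right k4 h

theorem KD_zero (D : ℝ) : KD D 0 0 := by
  unfold KD
  norm_num

theorem KD_flip {D x y : ℝ} (h : KD D x y) : KD D x (-y) := by
  unfold KD at *
  rw [neg_sq]
  exact h

/-! ### Discs -/

def DK (b w z x y : ℝ) : Prop := b * (x ^ 2 + y ^ 2) ≤ w * x + z * y

theorem DK_cvx {b w z : ℝ} (hb0 : 0 ≤ b) : Cvx (DK b w z) := by
  intro x y x' y' a c h h' ha hc hs
  unfold DK at *
  have k2 : (a * x + c * x') ^ 2 + (a * y + c * y') ^ 2 ≤ a * (x ^ 2 + y ^ 2) + c * (x' ^ 2 + y' ^ 2) := by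
    have : a * (x ^ 2 + y ^ 2) + c * (x' ^ 2 + y' ^ 2) - ((a * x + c * x') ^ 2 + (a * y + c * y') ^ 2) =
        a * c * ((x - x') ^ 2 + (y - y') ^ 2) := by
      have : c = 1 - a := by linarith
      rw [this]
      ring
    nlinarith [mul_nonneg (mul_nonneg ha hc) (add_nonneg (sq_nonneg (x - x')) (sq_nonneg (y - y')))]
  have t0 := mul_le_mul_of_nonneg_left k2 hb0
  have t1 := mul_le_mul_of_nonneg_left h ha
  have t2 := mul_le_mul_of_nonneg_left h' hc
  nlinarith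

/-! ### The set `Im y ≤ η` -/

/-- The tangent of a level curve of `Im y`. -/
theorem core {c C S C' S' : ℝ} (hc : 1 ≤ c) (h1 : C ^ 2 + S ^ 2 = 1) (hS : 0 ≤ S)
    (h1' : C' ^ 2 + S' ^ 2 = 1) (hS' : 0 ≤ S') (hk : 0 ≤ 2 * C' - c) (hz : 3 * c * C ≤ c ^ 2 + 2)
    (hz' : 3 * c * C' ≤ c ^ 2 + 2) :
    (c - C) * (C - (2 * C' - c) * (C * C' + S * S')) ≤ (c - C') ^ 2 := by
  have hC : C ≤ 1 := by nlinarith
  have hC' : C' ≤ 1 := by nlinarith
  have hcC' : 0 ≤ c - C' := by linarith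
  have hcC : 0 ≤ c - C := by linarith
  -- `1 - κ c + S S' - (c - C') C ≥ 0`
  have key : 0 ≤ 1 - (2 * C' - c) * c + S * S' - (c - C') * C := by
    rcases le_total C C' with h | h
    · rcases le_or_gt 0 C with h3 | h3
      · have hSS : S' ^ 2 ≤ S * S' := by
          have t : S' ^ 2 ≤ S ^ 2 := by nlinarith
          have := abs_le_of_sq_le_sq' t hS |>.2
          nlinarith
        nlinarith
      · have t1 := mul_nonneg hS hS'
        have t2 := mul_nonneg hcC' (by linarith : 0 ≤ -C)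
        nlinarith
    · have hSS : (1 - C) * (1 + C') ≤ S * S' := by
        have t1 : ((1 - C) * (1 + C')) ^ 2 ≤ (S * S') ^ 2 := by
          have e : (S * S') ^ 2 = ((1 - C) * (1 + C)) * ((1 - C') * (1 + C')) := by
            rw [mul_pow]
            have : S ^ 2 = (1 - C) * (1 + C) := by linarith
            have : S' ^ 2 = (1 - C') * (1 + C') := by linarith
            nlinarith
          rw [e]
          have hC0' : 0 ≤ C' := by linarith
          have a1 : (1 - C) * (1 + C') ≤ (1 + C) * (1 - C') + 2 * (1 - C) * (1 + C') := by nlinarith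
          have a2 : 0 ≤ (1 - C) * (1 + C') := mul_nonneg (by linarith) (by linarith)
          have a3 : (1 - C) * (1 + C') ≤ (1 + C) * (1 - C') := by nlinarith
          nlinarith
        exact abs_le_of_sq_le_sq' t1 (mul_nonneg hS hS') |>.2
      nlinarith
  have e : (c - C') ^ 2 - (c - C) * (C - (2 * C' - c) * (C * C' + S * S')) =
      (C - C') ^ 2 - (2 * C' - c) * (c - C) * (1 - (C * C' + S * S')) := by ring
  have f : (C - C') ^ 2 * 1 = (1 - (C * C' + S * S')) * (1 - (C * C' - S * S')) := by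
    nlinarith
  have g0 : 0 ≤ 1 - (C * C' + S * S') := by nlinarith [sq_nonneg (C - C'), sq_nonneg (S - S')]
  have g1 : 1 - (C * C' - S * S') - (2 * C' - c) * (c - C) =
      1 - (2 * C' - c) * c + S * S' - (c - C') * C := by ring
  have : (c - C') ^ 2 - (c - C) * (C - (2 * C' - c) * (C * C' + S * S')) =
      (1 - (C * C' + S * S')) * (1 - (2 * C' - c) * c + S * S' - (c - C') * C) := by
    rw [e, ← g1]
    linarith
  nlinarith [mul_nonneg g0 key]

end Pool.Agent.S5.Z4
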