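import Pool.Agent.S5.Z4.Tb
import Pool.Agent.S5.I.YXC

/-!
# Inner nodes with four half twists: the tables are right
-/

set_option autoImplicit false

namespace Pool.Agent.S5.Z4

open Pool.Agent.S3.NI Pool.Agent.S5.YX

/-- `f n` is in the interval of the entry `g n` for all `n < m`. -/
def ckTb (f : ℕ → N) (g : ℕ → ℕ) : ℕ → Bool
  | 0 => true
  | n + 1 => bif (Nat.ble (Nat.mul (g n) 64) (f n).lo && Nat.ble (f n).hi (Nat.mul (Nat.add (g n) 6) 64))
      then ckTb f g n else false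

/-- The table value `n` is right for `x`. -/
def Tv (x : ℝ) (n : ℕ) : Prop := (n : ℝ) ≤ x * 16777216 ∧ x * 16777216 ≤ (n : ℝ) + 6

theorem ckTb_sound {f : ℕ → N} {g : ℕ → ℕ} : ∀ {m : ℕ}, ckTb f g m = true → ∀ {n : ℕ}, n < m →
    ∀ {x : ℝ}, Mem x (f n) → Tv x (g n) := by
  intro m
  induction m with
  | zero =>
    intro _ n hn
    exact absurd hn (Nat.not_lt_zero n)
  | succ m ih =>
    intro h n hn x hx
    unfold ckTb at h
    rcases hc : (Nat.ble (Nat.mul (g m) 64) (f m).lo && Nat.ble (f m).hi (Nat.mul (Nat.add (g m) 6) 64)) with _ | _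
    · rw [hc] at h
      exact absurd h Bool.false_ne_true
    · rw [hc] at h
      rcases Nat.lt_succ_iff_lt_or_eq.1 hn with h1 | h1
      · exact ih h h1 hx
      · subst h1
        rw [Bool.and_eq_true] at hc
        have k1 := (Nat.cast_le (α := ℝ)).2 (Nat.le_of_ble_eq_true hc.1)
        have k2 := (Nat.cast_le (α := ℝ)).2 (Nat.le_of_ble_eq_true hc.2)
        rw [cast_mul'] at k1 k2
        rw [cast_add'] at k2
        push_cast at k1 k2
        constructor
        · linarith [hx.1]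
        · linarith [hx.2]

/-! ### Cosine and sine -/

theorem tr_s9 {x : ℝ} (hx : 0 ≤ x) :
    Real.sin x ≤ x - x ^ 3 / 6 + x ^ 5 / 120 - x ^ 7 / 5040 + x ^ 9 / 362880 := by
  have h := VB.pos_of_deriv
    (f := fun x => x - x ^ 3 / 6 + x ^ 5 / 120 - x ^ 7 / 5040 + x ^ 9 / 362880 - Real.sin x)
    (f' := fun x => 1 - x ^ 2 / 2 + x ^ 4 / 24 - x ^ 6 / 720 + x ^ 8 / 40320 - Real.cos x)
    (fun x => by
      have h1 := (((((hasDerivAt_id' x).sub ((hasDerivAt_pow 3 x).div_const 6)).add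
        ((hasDerivAt_pow 5 x).div_const 120)).sub ((hasDerivAt_pow 7 x).div_const 5040)).add
        ((hasDerivAt_pow 9 x).div_const 362880)).sub (Real.hasDerivAt_sin x)
      refine h1.congr_deriv ?_
      norm_num
      try ring)
    (by simp) (fun x hx => by linarith [VB.tr_c8 hx]) hx
  linarith

theorem tr_c10 {x : ℝ} (hx : 0 ≤ x) :
    1 - x ^ 2 / 2 + x ^ 4 / 24 - x ^ 6 / 720 + x ^ 8 / 40320 - x ^ 10 / 3628800 ≤ Real.cos x := by
  have h := VB.pos_of_deriv
    (f := fun x => Real.cos x -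
      (1 - x ^ 2 / 2 + x ^ 4 / 24 - x ^ 6 / 720 + x ^ 8 / 40320 - x ^ 10 / 3628800))
    (f' := fun x => x - x ^ 3 / 6 + x ^ 5 / 120 - x ^ 7 / 5040 + x ^ 9 / 362880 - Real.sin x)
    (fun x => by
      have h1 := (Real.hasDerivAt_cos x).sub ((((((hasDerivAt_const x (1 : ℝ)).sub
        ((hasDerivAt_pow 2 x).div_const 2)).add
        ((hasDerivAt_pow 4 x).div_const 24)).sub ((hasDerivAt_pow 6 x).div_const 720)).add
        ((hasDerivAt_pow 8 x).div_const 40320)).sub ((hasDerivAt_pow 10 x).div_const 3628800))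
      refine h1.congr_deriv ?_
      norm_num
      try ring)
    (by simp) (fun x hx => by linarith [tr_s9 hx]) hx
  linarith

/-- `cos x` from `x ^ 2`, `x ^ 4`, `x ^ 6`. -/
def cz3 (a b c : N) : N :=
  ⟨((((one.add (b.dv 24)).add (b.sq.dv 40320))).sub (((a.dv 2).add (c.dv 720)).add ((c.mul b).dv 3628800))).lo,
  (((one.add (b.dv 24)).add (b.sq.dv 40320)).sub ((a.dv 2).add (c.dv 720))).hi⟩
def cz2 (a b : N) : N := cz3 a b (a.mul b)
def cz1 (a : N) : N := cz2 a a.sq

theorem mem_cz1 {x : ℝ} {A : N} (h0 : 0 ≤ x) (h1 : x ≤ 1) (h : Mem (x ^ 2) A) : Mem (Real.cos x) (cz1 A) := by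
  have k6 := tr_c10 h0
  have k8 := VB.tr_c8 h0
  have e4 : Mem (x ^ 4) A.sq := by
    have := h.sq
    rwa [← pow_mul] at this
  have e6 : Mem (x ^ 6) (A.mul A.sq) := by
    have := h.mul e4
    rwa [← pow_add] at this
  have e8 : Mem (x ^ 8) A.sq.sq := by
    have := e4.sq
    rwa [← pow_mul] at this
  have e10 : Mem (x ^ 10) ((A.mul A.sq).mul A.sq) := by
    have := e6.mul e4
    rwa [← pow_add] at this
  have p2 := (h.dv (n := 2) (by norm_num)).add (e6.dv (n := 720) (by norm_num))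
  have p4 := p2.add (e10.dv (n := 3628800) (by norm_num))
  have p1 := mem_one.add (e4.dv (n := 24) (by norm_num))
  have p3 := p1.add (e8.dv (n := 40320) (by norm_num))
  have b2 : x ^ 2 ≤ 1 := pow_le_one₀ h0 h1
  have b4 : 0 ≤ x ^ 4 := by positivity
  have b8 : 0 ≤ x ^ 8 := by positivity
  have b6 : x ^ 6 ≤ 1 := pow_le_one₀ h0 h1
  have b10 : x ^ 10 ≤ 1 := pow_le_one₀ h0 h1
  have q1 := p3.sub p4 (by push_cast; linarith)
  have q2 := p3.sub p2 (by push_cast; linarith)
  have hU : (0 : ℝ) < 1073741824 := by norm_num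
  constructor
  · refine q1.1.trans (mul_le_mul_of_nonneg_right ?_ hU.le)
    push_cast
    linarith
  · refine le_trans (mul_le_mul_of_nonneg_right ?_ hU.le) q2.2
    push_cast
    linarith

/-- `cos (n / 1000)`. -/
def CNt (n : ℕ) : N := dbl (cz1 (cst (Nat.mul n n) 4000000))
/-- `sin (n / 1000)`. -/
def SN (n : ℕ) : N := dbl (cz1 ((ang 1000).sub (cst n 2000)).sq)

theorem ckC : ckTb CNt cosT 1571 = true := by decide +kernel
theorem ckS : ckTb SN sinT 1571 = true := by decide +kernel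

theorem mem_CN {n : ℕ} (hn : n ≤ 1570) : Mem (Real.cos (n / 1000)) (CNt n) := by
  have hn1 : (n : ℝ) ≤ 1570 := by exact_mod_cast hn
  have hn0 : (0 : ℝ) ≤ n := Nat.cast_nonneg _
  have hpi := Real.pi_gt_d2
  have e : (n : ℝ) / 1000 = 2 * (n / 2000) := by ring
  have h2 : Mem (((n : ℝ) / 2000) ^ 2) (cst (Nat.mul n n) 4000000) := by
    have := mem_cst (n := Nat.mul n n) (d := 4000000) (by norm_num)
    rw [cast_mul'] at this
    convert this using 1
    push_cast
    ring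
  have h1 := mem_cz1 (x := (n : ℝ) / 2000) (by positivity) (by linarith) h2
  rw [e]
  refine mem_dbl h1 ?_
  rw [← e]
  apply Real.cos_nonneg_of_neg_pi_div_two_le_of_le <;> linarith

theorem mem_SN {n : ℕ} (hn : n ≤ 1570) : Mem (Real.sin (n / 1000)) (SN n) := by
  have hn1 : (n : ℝ) ≤ 1570 := by exact_mod_cast hn
  have hn0 : (0 : ℝ) ≤ n := Nat.cast_nonneg _
  have hpi := Real.pi_gt_d2
  have hpi2 := Real.pi_lt_d2
  have e : Real.sin (n / 1000) = Real.cos (2 * (Real.pi / 4 - n / 2000)) := by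
    rw [← Real.cos_pi_div_two_sub]
    congr 1
    ring
  have h0 : Mem (Real.pi / 4) (ang 1000) := by
    have := mem_ang 1000
    convert this using 1
    push_cast
    ring
  have h3 := h0.sub (mem_cst (n := n) (d := 2000) (by norm_num)) (by push_cast; linarith)
  push_cast at h3
  have h1 := mem_cz1 (x := Real.pi / 4 - n / 2000) (by linarith) (by linarith) h3.sq
  rw [e]
  refine mem_dbl h1 ?_
  rw [← e]
  apply Real.sin_nonneg_of_nonneg_of_le_pi <;> linarith [Real.pi_pos]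

theorem tv_cos {n : ℕ} (hn : n ≤ 1570) : Tv (Real.cos (n / 1000)) (cosT n) :=
  ckTb_sound ckC (Nat.lt_succ_of_le hn) (mem_CN hn)

theorem tv_sin {n : ℕ} (hn : n ≤ 1570) : Tv (Real.sin (n / 1000)) (sinT n) :=
  ckTb_sound ckS (Nat.lt_succ_of_le hn) (mem_SN hn)

/-! ### `exp (2 - a / 500)` -/

theorem exp5_lo : (1101712851521 : ℝ) / 1099511627776 ≤ Real.exp (1 / 500) := by
  have := Real.sum_le_exp_of_nonneg (x := 1 / 500) (by norm_num) 6
  refine le_trans ?_ this
  norm_num [Finset.sum_range_succ, Nat.factorial]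

theorem exp5_hi : Real.exp (1 / 500) ≤ (1101712851522 : ℝ) / 1099511627776 := by
  have := Real.exp_bound' (x := 1 / 500) (by norm_num) (by norm_num) (n := 6)
    (by norm_num)
  refine le_trans this ?_
  norm_num [Finset.sum_range_succ, Nat.factorial]

/-- Powers of a number near `1`. -/
def pwN (a n : ℕ) : N := ⟨Nat.div (Nat.mul (Nat.pow a n) 1073741824) (Nat.pow 2 (Nat.mul 40 n)),
  Nat.succ (Nat.div (Nat.mul (Nat.pow (Nat.succ a) n) 1073741824) (Nat.pow 2 (Nat.mul 40 n)))⟩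

theorem mem_pwN {a : ℕ} {x : ℝ} (h1 : (a : ℝ) / 1099511627776 ≤ x) (h2 : x ≤ ((a : ℝ) + 1) / 1099511627776)
    (n : ℕ) : Mem (x ^ n) (pwN a n) := by
  have ha : (0 : ℝ) ≤ a := Nat.cast_nonneg _
  have k1 := pow_le_pow_left₀ (by positivity) h1 n
  have k2 := pow_le_pow_left₀ (le_trans (by positivity) h1) h2 n
  have hp : ((2 : ℝ) ^ (40 * n)) = (1099511627776 : ℝ) ^ n := by
    rw [pow_mul]
    norm_num
  rw [div_pow] at k1 k2
  constructor
  · refine (nat_div_le _ _).trans ?_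
    have e1 : ((Nat.mul (Nat.pow a n) 1073741824 : ℕ) : ℝ) = (a : ℝ) ^ n * 1073741824 := by
      show ((a ^ n * 1073741824 : ℕ) : ℝ) = _
      push_cast
      ring
    have e2 : ((Nat.pow 2 (Nat.mul 40 n) : ℕ) : ℝ) = (1099511627776 : ℝ) ^ n := by
      show ((2 ^ (40 * n) : ℕ) : ℝ) = _
      push_cast
      exact hp
    rw [e1, e2, mul_div_right_comm]
    exact mul_le_mul_of_nonneg_right k1 (by norm_num)
  · refine le_trans ?_ (le_succ_div _ (show 0 < 2 ^ (40 * n) by positivity))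
    have e1 : ((Nat.mul (Nat.pow (Nat.succ a) n) 1073741824 : ℕ) : ℝ) =
        ((a : ℝ) + 1) ^ n * 1073741824 := by
      show (((a + 1) ^ n * 1073741824 : ℕ) : ℝ) = _
      push_cast
      ring
    have e2 : ((Nat.pow 2 (Nat.mul 40 n) : ℕ) : ℝ) = (1099511627776 : ℝ) ^ n := by
      show ((2 ^ (40 * n) : ℕ) : ℝ) = _
      push_cast
      exact hp
    rw [e1, e2, mul_div_right_comm (a := ((a : ℝ) + 1) ^ n)]
    exact mul_le_mul_of_nonneg_right k2 (by norm_num : (0 : ℝ) ≤ 1073741824)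

/-- `exp (n / 500)`. -/
def E5 (n : ℕ) : N := pwN 1101712851521 n

theorem mem_E5 (n : ℕ) : Mem (Real.exp (n / 500)) (E5 n) := by
  have e : Real.exp ((n : ℝ) / 500) = Real.exp (1 / 500) ^ n := by
    rw [← exp_nat]
    congr 1
    ring
  rw [e]
  refine mem_pwN ?_ ?_ n
  · push_cast
    exact exp5_lo
  · push_cast
    refine exp5_hi.trans (le_of_eq ?_)
    norm_num

/-- `exp (2 - (520 + n) / 500)`. -/
def UN (n : ℕ) : N := (E5 (Nat.sub 1030 n)).mul (E5 550).inv

theorem ckU : ckTb UN (fun n => tg TU 26 n) 1031 = true := by decide +kernel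

theorem mem_UN {n : ℕ} (hn : n ≤ 1030) : Mem (Real.exp (2 - (520 + n) / 500)) (UN n) := by
  have h := (mem_E5 (Nat.sub 1030 n)).mul ((mem_E5 550).inv (by decide +kernel))
  have e : ((Nat.sub 1030 n : ℕ) : ℝ) = 1030 - n := by
    have := cast_sub' hn
    rw [this]
    norm_num
  rw [e, ← Real.exp_neg, ← Real.exp_add] at h
  have e2 : (2 : ℝ) - (520 + n) / 500 = (1030 - n) / 500 + -(((550 : ℕ) : ℝ) / 500) := by
    push_cast
    ring
  rw [e2]
  exact h

theorem tv_u {a : ℕ} (h0 : 520 ≤ a) (h1 : a ≤ 1550) : Tv (Real.exp (2 - a / 500)) (uT a) := by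
  have hn : Nat.sub a 520 ≤ 1030 := by
    show a - 520 ≤ 1030
    omega
  have h := ckTb_sound ckU (Nat.lt_succ_of_le hn) (mem_UN hn)
  have e : ((Nat.sub a 520 : ℕ) : ℝ) = a - 520 := by
    have := cast_sub' h0
    rw [this]
    norm_num
  rw [e] at h
  have e2 : (520 : ℝ) + (a - 520) = a := by ring
  rw [e2] at h
  exact h

/-! ### `1 + cos (2 π n / 1000)` -/

def DZ (n : ℕ) : N := (dbl (cz1 (ang (Nat.mul 2 n)).sq)).sq.sm 2

theorem ckD : ckTb DZ dT 501 = true := by decide +kernel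

theorem mem_DZ {n : ℕ} (hn : n ≤ 500) : Mem (1 + Real.cos (2 * Real.pi * (n / 1000))) (DZ n) := by
  have hpi := Real.pi_pos
  have hpi2 := Real.pi_lt_d2
  have hn0 : (0 : ℝ) ≤ n := Nat.cast_nonneg _
  have hn1 : (n : ℝ) ≤ 500 := by exact_mod_cast hn
  have k0 := mem_ang (Nat.mul 2 n)
  have e0 : Real.pi * ((Nat.mul 2 n : ℕ) : ℝ) / 4000 = Real.pi * n / 2000 := by
    rw [cast_mul']
    push_cast
    ring
  rw [e0] at k0
  set t : ℝ := Real.pi * n / 2000 with ht
  have t0 : 0 ≤ t := by positivity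
  have t1 : t ≤ Real.pi / 4 := by
    rw [ht, div_le_div_iff₀ (by norm_num) (by norm_num)]
    nlinarith
  have k1 := mem_cz1 t0 (by linarith) k0.sq
  have k2 := mem_dbl k1 (Real.cos_nonneg_of_neg_pi_div_two_le_of_le (by linarith) (by linarith))
  have k4 := k2.sq.sm 2
  have e : 1 + Real.cos (2 * Real.pi * (n / 1000)) = ((2 : ℕ) : ℝ) * Real.cos (2 * t) ^ 2 := by
    have : 2 * Real.pi * (n / 1000) = 2 * (2 * t) := by
      rw [ht]
      ring
    rw [this, Real.cos_two_mul (2 * t)]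
    push_cast
    ring
  rw [e]
  exact k4

theorem tv_d {n : ℕ} (hn : n ≤ 500) : Tv (1 + Real.cos (2 * Real.pi * (n / 1000))) (dT n) :=
  ckTb_sound ckD (Nat.lt_succ_of_le hn) (mem_DZ hn)

/-! ### `exp (2 π (n - 500) / 1000)` -/

theorem exp2_lo : (1106441812097 : ℝ) / 1099511627776 ≤ Real.exp (2 * Real.pi / 1000) := by
  have h1 := Real.pi_gt_d20
  set t : ℝ := 2 * Real.pi / 1000 with ht
  have h2 : (0.006283185307179586475 : ℝ) ≤ t := by rw [ht]; norm_num at h1 ⊢; linarith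
  refine le_trans ?_ (Real.exp_le_exp.2 h2)
  have := Real.sum_le_exp_of_nonneg (x := 0.006283185307179586475) (by norm_num) 6
  refine le_trans ?_ this
  norm_num [Finset.sum_range_succ, Nat.factorial]

theorem exp2_hi : Real.exp (2 * Real.pi / 1000) ≤ (1106441812098 : ℝ) / 1099511627776 := by
  have h1 := Real.pi_lt_d20
  set t : ℝ := 2 * Real.pi / 1000 with ht
  have h2 : t ≤ (0.006283185307179586695 : ℝ) := by rw [ht]; norm_num at h1 ⊢; linarith
  refine le_trans (Real.exp_le_exp.2 h2) ?_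
  have := Real.exp_bound' (x := 0.006283185307179586695) (by norm_num) (by norm_num) (n := 6)
    (by norm_num)
  refine le_trans this ?_
  norm_num [Finset.sum_range_succ, Nat.factorial]

/-- `exp (2 π n / 1000)`. -/
def EP (n : ℕ) : N := pwN 1106441812097 n

theorem mem_EP (n : ℕ) : Mem (Real.exp (2 * Real.pi * (n / 1000))) (EP n) := by
  have e : Real.exp (2 * Real.pi * ((n : ℝ) / 1000)) = Real.exp (2 * Real.pi / 1000) ^ n := by
    rw [← exp_nat]
    congr 1
    ring
  rw [e]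
  refine mem_pwN ?_ ?_ n
  · push_cast
    exact exp2_lo
  · push_cast
    refine exp2_hi.trans (le_of_eq ?_)
    norm_num

/-- `exp (2 π (n - 200) / 1000)`. -/
def PN (n : ℕ) : N := (EP n).mul (EP 200).inv

theorem ckE : ckTb PN (fun n => tg TE 26 n) 401 = true := by decide +kernel

theorem mem_PN (n : ℕ) : Mem (Real.exp (2 * Real.pi * ((n - 200) / 1000))) (PN n) := by
  have h := (mem_EP n).mul ((mem_EP 200).inv (by decide +kernel))
  rw [← Real.exp_neg, ← Real.exp_add] at h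
  have e2 : 2 * Real.pi * (((n : ℝ) - 200) / 1000) =
      2 * Real.pi * ((n : ℝ) / 1000) + -(2 * Real.pi * (((200 : ℕ) : ℝ) / 1000)) := by
    push_cast
    ring
  rw [e2]
  exact h

theorem tv_e {n : ℕ} (h0 : 300 ≤ n) (h1 : n ≤ 700) :
    Tv (Real.exp (2 * Real.pi * ((n - 500) / 1000))) (eT n) := by
  have hn : Nat.sub n 300 ≤ 400 := by
    show n - 300 ≤ 400
    omega
  have h := ckTb_sound ckE (Nat.lt_succ_of_le hn) (mem_PN (Nat.sub n 300))
  have e : ((Nat.sub n 300 : ℕ) : ℝ) = n - 300 := by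
    have := cast_sub' h0
    rw [this]
    norm_num
  rw [e] at h
  have e2 : (n : ℝ) - 300 - 200 = n - 500 := by ring
  rw [e2] at h
  exact h

end Pool.Agent.S5.Z4
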