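import Pool.Agent.S5.Z4.RegA
import Pool.Agent.S5.Z4.RegI
import Pool.Agent.S5.Z4.Tc
import Pool.Agent.S5.I.YXS

/-!
# Inner nodes with four half twists: vertices of the sectors
-/

set_option autoImplicit false

namespace Pool.Agent.S5.Z4

open Pool.Agent.S3.NI
open Pool.Agent.S5.YX (sgb ble_cast sub_sub_cast)

/-- The point `(x, y)` is near `p`. -/
structure VxR (p : Pv) (x y : ℝ) : Prop where
  x0 : (p.x : ℝ) ≤ x * 16777216
  x1 : x * 16777216 ≤ (p.x : ℝ) + 64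
  y0 : (p.y : ℝ) ≤ y * 16777216
  y1 : y * 16777216 ≤ (p.y : ℝ) + 64

theorem VxR.xn {p : Pv} {x y : ℝ} (h : VxR p x y) : 0 ≤ x := by
  have := h.x0
  have : (0 : ℝ) ≤ p.x := Nat.cast_nonneg _
  by_contra hc
  push Not at hc
  linarith

theorem VxR.yn {p : Pv} {x y : ℝ} (h : VxR p x y) : 0 ≤ y := by
  have := h.y0
  have : (0 : ℝ) ≤ p.y := Nat.cast_nonneg _
  by_contra hc
  push Not at hc
  linarith

theorem VxR.zero : VxR ⟨0, 0⟩ 0 0 := by
  constructor <;> norm_num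

/-! ### The vertices of a sector -/

/-- One coordinate. -/
theorem coord {u c d : ℝ} {U C q X : ℕ} (hX : X = Nat.div (Nat.mul U C) q) (hU : Tv u U) (hC : Tv c C)
    (hu : u ≤ 3) (hc : c ≤ 1) (hd : 19 / 20 ≤ d) (hd1 : d ≤ 1) (hq : d * 16777216 ≤ q) (hq1 : (q : ℝ) ≤ d * 16777216 + 6) :
    (X : ℝ) ≤ u * c / d * 16777216 ∧ u * c / d * 16777216 ≤ (X : ℝ) + 64 := by
  have hU0 : (0 : ℝ) ≤ U := Nat.cast_nonneg _
  have hC0 : (0 : ℝ) ≤ C := Nat.cast_nonneg _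
  obtain ⟨u1, u2⟩ := hU
  obtain ⟨c1, c2⟩ := hC
  have hd0 : 0 < d := by linarith
  have hq0 : (0 : ℝ) < q := by linarith
  have hq0' : 0 < q := by exact_mod_cast hq0
  have e1 : ((Nat.mul U C : ℕ) : ℝ) = (U : ℝ) * C := cast_mul' _ _
  have l1 : (X : ℝ) ≤ (U : ℝ) * C / q := by
    rw [hX, ← e1]
    exact nat_div_le _ _
  have l2 : (U : ℝ) * C / q ≤ (X : ℝ) + 1 := by
    have := le_succ_div (Nat.mul U C) hq0'
    rw [e1, ← hX] at this
    push_cast at this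
    exact this
  have m1 : (U : ℝ) * C ≤ (u * 16777216) * (c * 16777216) :=
    mul_le_mul u1 c1 hC0 (hU0.trans u1)
  have m2 : (u * 16777216) * (c * 16777216) ≤ ((U : ℝ) + 6) * ((C : ℝ) + 6) :=
    mul_le_mul u2 c2 (hC0.trans c1) (by linarith)
  have e2 : u * c / d * 16777216 = (u * 16777216) * (c * 16777216) / (d * 16777216) := by
    field_simp
  have hU1 : (U : ℝ) ≤ 3 * 16777216 := by linarith
  have hC1 : (C : ℝ) ≤ 16777216 := by linarith
  constructor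
  · refine l1.trans ?_
    rw [e2]
    exact div_le_div₀ (le_trans (by positivity) m1) m1 (by positivity) hq
  · rw [e2, div_le_iff₀ (by positivity)]
    have l3 : (U : ℝ) * C ≤ ((X : ℝ) + 1) * q := by
      rwa [div_le_iff₀ hq0] at l2
    have hX1 : (X : ℝ) ≤ 4 * 16777216 := by
      refine l1.trans ?_
      rw [div_le_iff₀ hq0]
      nlinarith
    have l4 : ((X : ℝ) + 1) * q ≤ ((X : ℝ) + 1) * (d * 16777216) + 6 * ((X : ℝ) + 1) := by
      have hX0 : (0 : ℝ) ≤ X := Nat.cast_nonneg _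
      nlinarith
    nlinarith

/-- The numbers of a sector. -/
structure SV (a : Se) (r1 r0 t0 t1 : ℝ) : Prop where
  rp : 0 < r1
  t00 : 0 ≤ t0
  t01 : t0 ≤ t1
  t11 : t1 ≤ 1
  i0 : VxR a.i0 (r1 * Ac t0) (r1 * As t0)
  i1 : VxR a.i1 (r1 * Ac t1) (r1 * As t1)
  o0 : VxR a.o0 (r0 * Ac t0) (r0 * As t0)
  o1 : VxR a.o1 (r0 * Ac t1) (r0 * As t1)
  v : VxR a.v (r0 * Vc t0 t1) (r0 * Vs t0 t1)

theorem Ac_tan {f : ℝ} (h : Real.cos f ≠ 0) : Ac (Real.tan f) = Real.cos (2 * f) := by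
  unfold Ac
  rw [Real.tan_eq_sin_div_cos, Real.cos_two_mul']
  have := Real.sin_sq_add_cos_sq f
  have h2 : 1 + (Real.sin f / Real.cos f) ^ 2 = 1 / Real.cos f ^ 2 := by
    field_simp
    linarith
  rw [h2]
  field_simp

theorem As_tan {f : ℝ} (h : Real.cos f ≠ 0) : As (Real.tan f) = Real.sin (2 * f) := by
  unfold As
  rw [Real.tan_eq_sin_div_cos, Real.sin_two_mul]
  have := Real.sin_sq_add_cos_sq f
  have h2 : 1 + (Real.sin f / Real.cos f) ^ 2 = 1 / Real.cos f ^ 2 := by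
    field_simp
    linarith
  rw [h2]
  field_simp

theorem Vc_tan {f g : ℝ} (h : Real.cos f ≠ 0) (h' : Real.cos g ≠ 0) (h2 : Real.cos (g - f) ≠ 0) :
    Vc (Real.tan f) (Real.tan g) = Real.cos (f + g) / Real.cos (g - f) := by
  unfold Vc
  rw [Real.cos_sub] at h2
  have h3 : 1 + Real.tan f * Real.tan g ≠ 0 := by
    rw [Real.tan_eq_sin_div_cos, Real.tan_eq_sin_div_cos]
    intro hc
    apply h2
    have : Real.cos g * Real.cos f + Real.sin g * Real.sin f =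
      (1 + Real.sin f / Real.cos f * (Real.sin g / Real.cos g)) * (Real.cos f * Real.cos g) := by
      field_simp
    rw [this, hc, zero_mul]
  rw [Real.cos_add, Real.cos_sub, div_eq_div_iff h3 h2, Real.tan_eq_sin_div_cos,
    Real.tan_eq_sin_div_cos]
  field_simp

theorem Vs_tan {f g : ℝ} (h : Real.cos f ≠ 0) (h' : Real.cos g ≠ 0) (h2 : Real.cos (g - f) ≠ 0) :
    Vs (Real.tan f) (Real.tan g) = Real.sin (f + g) / Real.cos (g - f) := by
  unfold Vs
  rw [Real.cos_sub] at h2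
  have h3 : 1 + Real.tan f * Real.tan g ≠ 0 := by
    rw [Real.tan_eq_sin_div_cos, Real.tan_eq_sin_div_cos]
    intro hc
    apply h2
    have : Real.cos g * Real.cos f + Real.sin g * Real.sin f =
      (1 + Real.sin f / Real.cos f * (Real.sin g / Real.cos g)) * (Real.cos f * Real.cos g) := by
      field_simp
    rw [this, hc, zero_mul]
  rw [Real.sin_add, Real.cos_sub, div_eq_div_iff h3 h2, Real.tan_eq_sin_div_cos,
    Real.tan_eq_sin_div_cos]
  field_simp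

/-- The radius and the tangent. -/
noncomputable def Er (a : ℕ) : ℝ := Real.exp (2 - a / 500)
noncomputable def Tn (f : ℕ) : ℝ := Real.tan (f / 1000)

theorem okC_iff {k : Ce} (h : okC k = true) : 520 ≤ k.a0 ∧ k.a0 ≤ k.a1 ∧ k.a1 ≤ 1480 ∧ k.f0 ≤ k.f1 ∧
    k.f1 ≤ 785 ∧ k.f1 ≤ k.f0 + 300 := by
  unfold okC at h
  simp only [Bool.and_eq_true] at h
  obtain ⟨h1, h2, h3, h4, h5, h6⟩ := h
  exact ⟨Nat.le_of_ble_eq_true h1, Nat.le_of_ble_eq_true h2, Nat.le_of_ble_eq_true h3,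
    Nat.le_of_ble_eq_true h4, Nat.le_of_ble_eq_true h5, Nat.le_of_ble_eq_true h6⟩

theorem pi4 : (785 : ℝ) / 1000 ≤ Real.pi / 4 := by
  have := Real.pi_gt_d2
  linarith

theorem Er_le {a : ℕ} (h : 520 ≤ a) : Er a ≤ 3 := by
  have h1 : (520 : ℝ) ≤ a := by exact_mod_cast h
  have h2 : Er a ≤ Real.exp 1 := Real.exp_le_exp.2 (by linarith)
  have := Real.exp_one_lt_d9
  linarith

theorem sec_ok {k : Ce} (h : okC k = true) : SV (sec k) (Er k.a1) (Er k.a0) (Tn k.f0) (Tn k.f1) := by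
  obtain ⟨h1, h2, h3, h4, h5, h6⟩ := okC_iff h
  have hpi := Real.pi_pos
  have p4 := pi4
  have g1 : (k.f0 : ℝ) ≤ k.f1 := by exact_mod_cast h4
  have g2 : (k.f1 : ℝ) ≤ 785 := by exact_mod_cast h5
  have g3 : (k.f1 : ℝ) ≤ k.f0 + 300 := by exact_mod_cast h6
  have g0 : (0 : ℝ) ≤ k.f0 := Nat.cast_nonneg _
  have a0 : 0 ≤ (k.f0 : ℝ) / 1000 := by positivity
  have a1 : (k.f0 : ℝ) / 1000 ≤ (k.f1 : ℝ) / 1000 := by linarith
  have a2 : (k.f1 : ℝ) / 1000 ≤ Real.pi / 4 := by linarith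
  have c0 : 0 < Real.cos ((k.f0 : ℝ) / 1000) := Real.cos_pos_of_mem_Ioo ⟨by linarith, by linarith⟩
  have c1 : 0 < Real.cos ((k.f1 : ℝ) / 1000) := Real.cos_pos_of_mem_Ioo ⟨by linarith, by linarith⟩
  have dd : Real.cos ((k.f1 : ℝ) / 1000 - (k.f0 : ℝ) / 1000) = Real.cos (((Nat.sub k.f1 k.f0 : ℕ) : ℝ) / 1000) := by
    rw [cast_sub' h4]
    congr 1
    ring
  have d0 : 19 / 20 ≤ Real.cos ((k.f1 : ℝ) / 1000 - (k.f0 : ℝ) / 1000) := by
    have := Real.one_sub_sq_div_two_le_cos (x := (k.f1 : ℝ) / 1000 - (k.f0 : ℝ) / 1000)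
    nlinarith
  have hd' : Real.cos ((k.f1 : ℝ) / 1000 - (k.f0 : ℝ) / 1000) ≠ 0 := by linarith
  have u1 := tv_u (by omega : 520 ≤ k.a1) (by omega)
  have u0 := tv_u h1 (by omega : k.a0 ≤ 1550)
  have r1 := Er_le (by omega : 520 ≤ k.a1)
  have r0 := Er_le h1
  have q1 : (1 : ℝ) * 16777216 ≤ ((16777216 : ℕ) : ℝ) := by norm_num
  have q2 : ((16777216 : ℕ) : ℝ) ≤ (1 : ℝ) * 16777216 + 6 := by norm_num
  have n0 : Nat.mul 2 k.f0 ≤ 1570 := by
    show 2 * k.f0 ≤ 1570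
    omega
  have n1 : Nat.mul 2 k.f1 ≤ 1570 := by
    show 2 * k.f1 ≤ 1570
    omega
  have n2 : Nat.add k.f0 k.f1 ≤ 1570 := by
    show k.f0 + k.f1 ≤ 1570
    omega
  have n3 : Nat.sub k.f1 k.f0 ≤ 1570 := by
    show k.f1 - k.f0 ≤ 1570
    omega
  have e0 : (((Nat.mul 2 k.f0 : ℕ) : ℝ)) / 1000 = 2 * ((k.f0 : ℝ) / 1000) := by
    rw [cast_mul']
    push_cast
    ring
  have e1 : (((Nat.mul 2 k.f1 : ℕ) : ℝ)) / 1000 = 2 * ((k.f1 : ℝ) / 1000) := by
    rw [cast_mul']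
    push_cast
    ring
  have e2 : (((Nat.add k.f0 k.f1 : ℕ) : ℝ)) / 1000 = (k.f0 : ℝ) / 1000 + (k.f1 : ℝ) / 1000 := by
    rw [cast_add']
    ring
  have v0c := tv_cos n0
  have v0s := tv_sin n0
  have v1c := tv_cos n1
  have v1s := tv_sin n1
  have v2c := tv_cos n2
  have v2s := tv_sin n2
  have v3 := tv_cos n3
  rw [e0] at v0c v0s
  rw [e1] at v1c v1s
  rw [e2] at v2c v2s
  rw [← dd] at v3
  have mk : ∀ {u f : ℝ} {U n : ℕ}, Tv u U → u ≤ 3 → Tv (Real.cos (2 * f)) (cosT n) → Tv (Real.sin (2 * f)) (sinT n) →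
      Real.cos f ≠ 0 → VxR (pm U n 16777216) (u * Ac (Real.tan f)) (u * As (Real.tan f)) := by
    intro u f U n hU hu hc hs hf
    rw [Ac_tan hf, As_tan hf]
    obtain ⟨x0, x1⟩ := coord (X := (pm U n 16777216).x) rfl hU hc hu (Real.cos_le_one _) (by norm_num) le_rfl q1 q2
    obtain ⟨y0, y1⟩ := coord (X := (pm U n 16777216).y) rfl hU hs hu (Real.sin_le_one _) (by norm_num) le_rfl q1 q2
    rw [div_one] at x0 x1 y0 y1
    exact ⟨x0, x1, y0, y1⟩
  refine ⟨Real.exp_pos _, ?_, ?_, ?_, mk u1 r1 v0c v0s c0.ne', mk u1 r1 v1c v1s c1.ne', mk u0 r0 v0c v0s c0.ne',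
    mk u0 r0 v1c v1s c1.ne', ?_⟩
  · exact Real.tan_nonneg_of_nonneg_of_le_pi_div_two a0 (by linarith)
  · rcases a1.eq_or_lt with h | h
    · exact (congrArg Real.tan h).le
    · exact (Real.tan_lt_tan_of_nonneg_of_lt_pi_div_two a0 (by linarith) h).le
  · have : Tn k.f1 ≤ Real.tan (Real.pi / 4) := by
      rcases a2.eq_or_lt with h | h
      · exact (congrArg Real.tan h).le
      · exact (Real.tan_lt_tan_of_nonneg_of_lt_pi_div_two (by linarith) (by linarith) h).le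
    rwa [Real.tan_pi_div_four] at this
  · have hq1 : Real.cos ((k.f1 : ℝ) / 1000 - (k.f0 : ℝ) / 1000) * 16777216 ≤ ((Nat.add (cosT (Nat.sub k.f1 k.f0)) 6 : ℕ) : ℝ) := by
      rw [cast_add']
      push_cast
      exact v3.2
    have hq2 : ((Nat.add (cosT (Nat.sub k.f1 k.f0)) 6 : ℕ) : ℝ) ≤ Real.cos ((k.f1 : ℝ) / 1000 - (k.f0 : ℝ) / 1000) * 16777216 + 6 := by
      rw [cast_add']
      push_cast
      linarith [v3.1]
    obtain ⟨x0, x1⟩ := coord (X := (sec k).v.x) rfl u0 v2c r0 (Real.cos_le_one _) d0 (Real.cos_le_one _) hq1 hq2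
    obtain ⟨y0, y1⟩ := coord (X := (sec k).v.y) rfl u0 v2s r0 (Real.sin_le_one _) d0 (Real.cos_le_one _) hq1 hq2
    unfold Tn
    rw [Vc_tan c0.ne' c1.ne' hd', Vs_tan c0.ne' c1.ne' hd']
    rw [mul_div_assoc] at x0 x1 y0 y1
    exact ⟨x0, x1, y0, y1⟩

/-! ### Bounds for `|s| ^ 2` -/

theorem sgb_true : sgb true = 1 := if_pos rfl
theorem sgb_false : sgb false = -1 := if_neg (by decide)

theorem sqn_cast (n : ℕ) : ((sqn n : ℕ) : ℝ) = (n : ℝ) ^ 2 := by
  show ((Nat.mul n n : ℕ) : ℝ) = _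
  rw [cast_mul']
  ring

theorem sqn_le {n : ℕ} {x : ℝ} (h0 : 0 ≤ x) (h : x * 16777216 ≤ n) : x ^ 2 * 281474976710656 ≤ ((sqn n : ℕ) : ℝ) := by
  rw [sqn_cast]
  have : x ^ 2 * 281474976710656 = (x * 16777216) ^ 2 := by ring
  rw [this]
  exact pow_le_pow_left₀ (by positivity) h 2

theorem le_sqn {n : ℕ} {x : ℝ} (h : (n : ℝ) ≤ x * 16777216) : ((sqn n : ℕ) : ℝ) ≤ x ^ 2 * 281474976710656 := by
  rw [sqn_cast]
  have : x ^ 2 * 281474976710656 = (x * 16777216) ^ 2 := by ring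
  rw [this]
  exact pow_le_pow_left₀ (Nat.cast_nonneg _) h 2

theorem qh_ok {S : Bool} {p q : Pv} {x y x' y' : ℝ} (h : VxR p x y) (h' : VxR q x' y') :
    ((x + x') ^ 2 + (y + sgb S * y') ^ 2) * 281474976710656 ≤ ((qh S p q : ℕ) : ℝ) := by
  have hx := h.xn
  have hx' := h'.xn
  have hy := h.yn
  have hy' := h'.yn
  have k1 := sqn_le (n := Nat.add (Nat.add p.x q.x) 128) (x := x + x') (by positivity) (by
    rw [cast_add', cast_add']
    push_cast
    linarith [h.x1, h'.x1])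
  rw [add_mul]
  cases S
  · have k2 := sqn_le (n := Nat.add (Nat.sub (Nat.add p.y 64) q.y) (Nat.sub (Nat.add q.y 64) p.y))
      (x := |y - y'|) (abs_nonneg _) (by
      rw [cast_add']
      have l1 : (y - y') * 16777216 ≤ ((Nat.sub (Nat.add p.y 64) q.y : ℕ) : ℝ) := by
        apply le_nsub
        rw [cast_add']
        push_cast
        linarith [h.y1, h'.y0]
      have l2 : (y' - y) * 16777216 ≤ ((Nat.sub (Nat.add q.y 64) p.y : ℕ) : ℝ) := by
        apply le_nsub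
        rw [cast_add']
        push_cast
        linarith [h.y0, h'.y1]
      have l3 : (0 : ℝ) ≤ ((Nat.sub (Nat.add p.y 64) q.y : ℕ) : ℝ) := Nat.cast_nonneg _
      have l4 : (0 : ℝ) ≤ ((Nat.sub (Nat.add q.y 64) p.y : ℕ) : ℝ) := Nat.cast_nonneg _
      rcases abs_cases (y - y') with ⟨e, _⟩ | ⟨e, _⟩
      · rw [e]; linarith
      · rw [e]; linarith)
    rw [sq_abs] at k2
    have e : (y + sgb false * y') ^ 2 = (y - y') ^ 2 := by rw [sgb_false]; ring
    rw [e]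
    show _ ≤ ((Nat.add (sqn (Nat.add (Nat.add p.x q.x) 128))
      (sqn (Nat.add (Nat.sub (Nat.add p.y 64) q.y) (Nat.sub (Nat.add q.y 64) p.y))) : ℕ) : ℝ)
    rw [cast_add']
    linarith
  · have k2 := sqn_le (n := Nat.add (Nat.add p.y q.y) 128) (x := y + y') (by positivity) (by
      rw [cast_add', cast_add']
      push_cast
      linarith [h.y1, h'.y1])
    have e : (y + sgb true * y') ^ 2 = (y + y') ^ 2 := by rw [sgb_true]; ring
    rw [e]
    show _ ≤ ((Nat.add (sqn (Nat.add (Nat.add p.x q.x) 128)) (sqn (Nat.add (Nat.add p.y q.y) 128)) : ℕ) : ℝ)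
    rw [cast_add']
    linarith

theorem ql_ok {S : Bool} {p q : Pv} {x y x' y' : ℝ} (h : VxR p x y) (h' : VxR q x' y') :
    ((ql S p q : ℕ) : ℝ) ≤ ((x + x') ^ 2 + (y + sgb S * y') ^ 2) * 281474976710656 := by
  have hy := h.yn
  have hy' := h'.yn
  have k1 := le_sqn (n := Nat.add p.x q.x) (x := x + x') (by
    rw [cast_add']
    linarith [h.x0, h'.x0])
  rw [add_mul]
  cases S
  · have k2 := le_sqn (n := Nat.add (Nat.sub p.y (Nat.add q.y 64)) (Nat.sub q.y (Nat.add p.y 64)))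
      (x := |y - y'|) (by
      rw [cast_add']
      rcases le_total p.y q.y with hpq | hpq
      · have e1 : Nat.sub p.y (Nat.add q.y 64) = 0 := Nat.sub_eq_zero_of_le (le_trans hpq (Nat.le_add_right _ _))
        rw [e1]
        have l2 : ((Nat.sub q.y (Nat.add p.y 64) : ℕ) : ℝ) ≤ |y - y'| * 16777216 := by
          apply nsub_le _ (by positivity)
          rw [cast_add']
          push_cast
          have := neg_abs_le (y - y')
          nlinarith [h.y1, h'.y0]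
        push_cast
        linarith
      · have e1 : Nat.sub q.y (Nat.add p.y 64) = 0 := Nat.sub_eq_zero_of_le (le_trans hpq (Nat.le_add_right _ _))
        rw [e1]
        have l2 : ((Nat.sub p.y (Nat.add q.y 64) : ℕ) : ℝ) ≤ |y - y'| * 16777216 := by
          apply nsub_le _ (by positivity)
          rw [cast_add']
          push_cast
          have := le_abs_self (y - y')
          nlinarith [h.y0, h'.y1]
        push_cast
        linarith)
    rw [sq_abs] at k2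
    have e : (y + sgb false * y') ^ 2 = (y - y') ^ 2 := by rw [sgb_false]; ring
    rw [e]
    show ((Nat.add (sqn (Nat.add p.x q.x))
      (sqn (Nat.add (Nat.sub p.y (Nat.add q.y 64)) (Nat.sub q.y (Nat.add p.y 64)))) : ℕ) : ℝ) ≤ _
    rw [cast_add']
    linarith
  · have k2 := le_sqn (n := Nat.add p.y q.y) (x := y + y') (by
      rw [cast_add']
      linarith [h.y0, h'.y0])
    have e : (y + sgb true * y') ^ 2 = (y + y') ^ 2 := by rw [sgb_true]; ring
    rw [e]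
    show ((Nat.add (sqn (Nat.add p.x q.x)) (sqn (Nat.add p.y q.y)) : ℕ) : ℝ) ≤ _
    rw [cast_add']
    linarith

end Pool.Agent.S5.Z4
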