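import Pool.Agent.S5.Z4.RegB

/-!
# Inner nodes with four half twists: the tests for the real part
-/

set_option autoImplicit false

namespace Pool.Agent.S5.Z4

open Pool.Agent.S3.NI
open Pool.Agent.S5.YX (sgb ble_cast sub_sub_cast)

theorem cU : ((16777216 : ℕ) : ℝ) = 16777216 := by norm_num
theorem cU2 : ((281474976710656 : ℕ) : ℝ) = 16777216 ^ 2 := by norm_num
theorem c2U : ((33554432 : ℕ) : ℝ) = 2 * 16777216 := by norm_num

/-- `W / U ^ 2 = D (2 - D)`. -/
theorem W_cast {d : ℕ} (hd : d ≤ 33554432) : ((Nat.mul d (Nat.sub 33554432 d) : ℕ) : ℝ) =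
    (d : ℝ) * (2 * 16777216 - d) := by
  rw [cast_mul', cast_sub' hd, c2U]

theorem ka_ok {d : ℕ} (hd : d ≤ 16777216) {S : Bool} {p q : Pv} {x y x' y' : ℝ} (h : VxR p x y)
    (h' : VxR q x' y') (hk : ka (Nat.mul d (Nat.sub 33554432 d)) (Nat.mul 4 (sqn (Nat.sub 16777216 d))) S p q = true) :
    KD ((d : ℝ) / 16777216) (x + x') (y + sgb S * y') := by
  have q1 := qh_ok (S := S) h h'
  have q2 := ql_ok (S := S) h h'
  have hW := W_cast (d := d) (by omega)
  unfold ka ka' at hk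
  have k := ble_cast hk
  set W := Nat.mul d (Nat.sub 33554432 d) with hWd
  clear_value W
  set r := Nat.sub (Nat.succ (Nat.div (Nat.mul W (qh S p q)) 281474976710656)) (Nat.mul 33554432 (Nat.add p.x q.x)) with hr
  rw [sqn_cast, cast_mul', cast_mul', sqn_cast, cast_sub' hd, cU] at k
  set R2 : ℝ := (x + x') ^ 2 + (y + sgb S * y') ^ 2 with hR
  have R0 : 0 ≤ R2 := by positivity
  have hd0 : (0 : ℝ) ≤ d := Nat.cast_nonneg _
  have hd1 : (d : ℝ) ≤ 16777216 := by exact_mod_cast hd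
  have hW0 : (0 : ℝ) ≤ (W : ℝ) := Nat.cast_nonneg _
  have hx := h.xn
  have hx' := h'.xn
  refine ⟨by positivity, ?_⟩
  have s0 := Real.sqrt_nonneg R2
  have s2 := Real.sq_sqrt R0
  set ρ := Real.sqrt R2 with hρ
  have l1 : (W : ℝ) * R2 - 2 * 16777216 ^ 2 * (x + x') ≤ (r : ℝ) := by
    rw [hr]
    apply le_nsub
    have m1 := le_succ_div (Nat.mul W (qh S p q)) (d := 281474976710656) (by norm_num)
    rw [cast_mul', cU2] at m1
    rw [cast_mul', cast_add', c2U]
    have m2 : (W : ℝ) * R2 ≤ (W : ℝ) * ((qh S p q : ℕ) : ℝ) / 16777216 ^ 2 := by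
      rw [le_div_iff₀ (by norm_num), mul_assoc]
      apply mul_le_mul_of_nonneg_left _ hW0
      have : (281474976710656 : ℝ) = 16777216 ^ 2 := by norm_num
      rw [this] at q1
      exact q1
    have m3 := h.x0
    have m4 := h'.x0
    linarith
  have l2 : (r : ℝ) ^ 2 ≤ (2 * (16777216 - (d : ℝ)) * 16777216 * ρ) ^ 2 := by
    have e : (2 * (16777216 - (d : ℝ)) * 16777216 * ρ) ^ 2 = (4 : ℝ) * (16777216 - (d : ℝ)) ^ 2 * (R2 * 281474976710656) := by
      rw [← s2]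
      ring
    rw [e]
    refine k.trans ?_
    push_cast
    exact mul_le_mul_of_nonneg_left q2 (by positivity)
  have l3 : (r : ℝ) ≤ 2 * (16777216 - (d : ℝ)) * 16777216 * ρ := by
    refine abs_le_of_sq_le_sq' l2 ?_ |>.2
    have : 0 ≤ 16777216 - (d : ℝ) := by linarith
    positivity
  rw [hW] at l1
  have l4 := l1.trans l3
  have e1 : (d : ℝ) / 16777216 * (2 - (d : ℝ) / 16777216) * R2 + 2 * ((d : ℝ) / 16777216 - 1) * ρ =
      ((d : ℝ) * (2 * 16777216 - d) * R2 - 2 * (16777216 - (d : ℝ)) * 16777216 * ρ) / 16777216 ^ 2 := by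
    field_simp
    ring
  rw [e1, div_le_iff₀ (by norm_num)]
  linarith

theorem kb_ok {d : ℕ} (hd : 16777216 < d) (hd2 : d ≤ 33554431) {S : Bool} {p q : Pv} {x y x' y' : ℝ} (h : VxR p x y)
    (h' : VxR q x' y') (hk : kb (Nat.mul d (Nat.sub 33554432 d)) (Nat.mul 4 (sqn (Nat.sub d 16777216))) S p q = true) :
    KD ((d : ℝ) / 16777216) (x + x') (y + sgb S * y') := by
  have q1 := qh_ok (S := S) h h'
  have hW := W_cast (d := d) (by omega)
  unfold kb kb' at hk
  have k := ble_cast hk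
  set W := Nat.mul d (Nat.sub 33554432 d) with hWd
  clear_value W
  set r := Nat.sub (Nat.mul 33554432 (Nat.add p.x q.x)) (Nat.succ (Nat.div (Nat.mul W (qh S p q)) 281474976710656)) with hr
  rw [sqn_cast, cast_mul', cast_mul', sqn_cast, cast_sub' hd.le, cU] at k
  set R2 : ℝ := (x + x') ^ 2 + (y + sgb S * y') ^ 2 with hR
  have R0 : 0 ≤ R2 := by positivity
  have hd1 : (16777216 : ℝ) < d := by exact_mod_cast hd
  have hd3 : (d : ℝ) ≤ 33554431 := by exact_mod_cast hd2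
  have hW0 : (0 : ℝ) ≤ (W : ℝ) := Nat.cast_nonneg _
  have hx := h.xn
  have hx' := h'.xn
  refine ⟨by positivity, ?_⟩
  have s0 := Real.sqrt_nonneg R2
  have s2 := Real.sq_sqrt R0
  set ρ := Real.sqrt R2 with hρ
  have l2 : (2 * ((d : ℝ) - 16777216) * 16777216 * ρ) ^ 2 ≤ (r : ℝ) ^ 2 := by
    have e : (2 * ((d : ℝ) - 16777216) * 16777216 * ρ) ^ 2 = (4 : ℝ) * ((d : ℝ) - 16777216) ^ 2 * (R2 * 281474976710656) := by
      rw [← s2]
      ring
    rw [e]
    refine le_trans ?_ k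
    push_cast
    exact mul_le_mul_of_nonneg_left q1 (by positivity)
  have l3 : 2 * ((d : ℝ) - 16777216) * 16777216 * ρ ≤ (r : ℝ) :=
    abs_le_of_sq_le_sq' l2 (Nat.cast_nonneg _) |>.2
  have e1 : (d : ℝ) / 16777216 * (2 - (d : ℝ) / 16777216) * R2 + 2 * ((d : ℝ) / 16777216 - 1) * ρ =
      ((d : ℝ) * (2 * 16777216 - d) * R2 + 2 * ((d : ℝ) - 16777216) * 16777216 * ρ) / 16777216 ^ 2 := by
    field_simp
  change (d : ℝ) / 16777216 * (2 - (d : ℝ) / 16777216) * R2 + 2 * ((d : ℝ) / 16777216 - 1) * ρ ≤ 2 * (x + x')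
  rcases Nat.eq_zero_or_pos r with h0 | h0
  · have : ρ = 0 := by
      rw [h0] at l3
      push_cast at l3
      by_contra hc
      have : 0 < ρ := lt_of_le_of_ne s0 (Ne.symm hc)
      have h1 : 0 < (d : ℝ) - 16777216 := by linarith
      have : 0 < 2 * ((d : ℝ) - 16777216) * 16777216 * ρ := by positivity
      linarith
    have h2 : R2 = 0 := by rw [← s2, this]; norm_num
    rw [this, h2]
    simp only [mul_zero, add_zero]
    positivity
  · have hle : Nat.succ (Nat.div (Nat.mul W (qh S p q)) 281474976710656) ≤ Nat.mul 33554432 (Nat.add p.x q.x) := by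
      by_contra hc
      push Not at hc
      have : r = 0 := Nat.sub_eq_zero_of_le hc.le
      omega
    have l1 : (r : ℝ) ≤ 2 * 16777216 ^ 2 * (x + x') - (W : ℝ) * R2 := by
      rw [hr, cast_sub' hle]
      have m1 := le_succ_div (Nat.mul W (qh S p q)) (d := 281474976710656) (by norm_num)
      rw [cast_mul', cU2] at m1
      rw [cast_mul', cast_add', c2U]
      have m2 : (W : ℝ) * R2 ≤ (W : ℝ) * ((qh S p q : ℕ) : ℝ) / 16777216 ^ 2 := by
        rw [le_div_iff₀ (by norm_num), mul_assoc]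
        apply mul_le_mul_of_nonneg_left _ hW0
        have : (281474976710656 : ℝ) = 16777216 ^ 2 := by norm_num
        rw [this] at q1
        exact q1
      have m3 := h.x0
      have m4 := h'.x0
      linarith
    rw [hW] at l1
    rw [e1, div_le_iff₀ (by norm_num)]
    linarith

/-! ### `Re y ≤ t` -/

theorem t3_iff {g : Pv → Bool} {b : Se} (h : t3 g b = true) : g b.o0 = true ∧ g b.o1 = true ∧ g b.v = true := by
  unfold t3 at h
  simp only [Bool.and_eq_true] at h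
  exact h

theorem sgb_sq (S : Bool) : sgb S * sgb S = 1 := by
  cases S
  · rw [sgb_false]; norm_num
  · rw [sgb_true]; norm_num

theorem KD_sg {D x y : ℝ} (h : KD D x y) (S : Bool) : KD D x (sgb S * y) := by
  cases S
  · rw [sgb_false, neg_one_mul]
    exact KD_flip h
  · rw [sgb_true, one_mul]
    exact h

theorem Cvx.sg {P : ℝ → ℝ → Prop} (h : Cvx P) (S : Bool) (c d : ℝ) : Cvx (fun x y => P (c + x) (d + sgb S * y)) := by
  intro x y x' y' a b h0 h1 ha hb hs
  have k := h h0 h1 ha hb hs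
  have e1 : c + (a * x + b * x') = a * (c + x) + b * (c + x') := by linear_combination (-c) * hs
  have e2 : d + sgb S * (a * y + b * y') = a * (d + sgb S * y) + b * (d + sgb S * y') := by
    linear_combination (-d) * hs
  show P (c + (a * x + b * x')) (d + sgb S * (a * y + b * y'))
  rw [e1, e2]
  exact k

theorem tA_ok {f : Bool → Pv → Pv → Bool} {D : ℝ} (hD0 : 0 ≤ D) (hD2 : D ≤ 2)
    (hf : ∀ {S : Bool} {p q : Pv} {x y x' y' : ℝ}, VxR p x y → VxR q x' y' → f S p q = true →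
      KD D (x + x') (y + sgb S * y'))
    {S : Bool} {a b : Se} {r1 r0 t0 t1 r1' r0' t0' t1' : ℝ} (ha : SV a r1 r0 t0 t1)
    (hb : SV b r1' r0' t0' t1') (h : tA f S a b = true) {u t u' t' : ℝ}
    (hu1 : r1 ≤ u) (hu0 : u ≤ r0) (ht0 : t0 ≤ t) (ht1 : t ≤ t1)
    (hu1' : r1' ≤ u') (hu0' : u' ≤ r0') (ht0' : t0' ≤ t') (ht1' : t' ≤ t1') :
    KD D (u * Ac t + u' * Ac t') (u * As t + sgb S * (u' * As t')) := by
  have hK := KD_cvx hD0 hD2
  unfold tA at h
  simp only [Bool.and_eq_true] at h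
  obtain ⟨h9, hA, hB⟩ := h
  obtain ⟨g0, g1, g2⟩ := t3_iff h9
  obtain ⟨g00, g01, g02⟩ := t3_iff g0
  obtain ⟨g10, g11, g12⟩ := t3_iff g1
  obtain ⟨g20, g21, g22⟩ := t3_iff g2
  obtain ⟨a0, a1, a2⟩ := t3_iff hA
  have z0 : ∀ {p : Pv} {x y : ℝ}, VxR p x y → f true p ⟨0, 0⟩ = true → KD D x y := by
    intro p x y hp hfp
    have := hf hp VxR.zero hfp
    simpa [sgb_true] using this
  have A0 := z0 ha.o0 a0
  have A1 := z0 ha.o1 a1
  have A2 := z0 ha.v a2
  have up : 0 ≤ u := ha.rp.le.trans hu1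
  have up' : 0 ≤ u' := hb.rp.le.trans hu1'
  -- the point of the first sector alone
  have HA : KD D (u * Ac t) (u * As t) :=
    sector3 hK ha.t00 ht0 ht1 up hu0 (KD_zero D) A0 A1 A2
  -- the point of the first sector and an outer vertex of the second
  have HQ : ∀ {q : Pv} {x' y' : ℝ}, VxR q x' y' → f S a.o0 q = true → f S a.o1 q = true → f S a.v q = true →
      (f true q ⟨0, 0⟩ = true ∨ (f S a.i0 q = true ∧ f S a.i1 q = true)) →
      KD D (u * Ac t + x') (u * As t + sgb S * y') := by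
    intro q x' y' hq f0 f1 f2 hcase
    have hc := hK.shift x' (sgb S * y')
    rcases hcase with hz | ⟨i0, i1⟩
    · refine sector3 hc ha.t00 ht0 ht1 up hu0 ?_ (hf ha.o0 hq f0) (hf ha.o1 hq f1) (hf ha.v hq f2)
      show KD D (0 + x') (0 + sgb S * y')
      rw [zero_add, zero_add]
      exact KD_sg (z0 hq hz) S
    · exact sector5 hc ha.t00 ht0 ht1 ha.rp.le hu1 hu0 (hf ha.i0 hq i0) (hf ha.i1 hq i1)
        (hf ha.o0 hq f0) (hf ha.o1 hq f1) (hf ha.v hq f2)
  have hB' : ∀ q : Pv, (q = b.o0 ∨ q = b.o1 ∨ q = b.v) →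
      (f true q ⟨0, 0⟩ = true ∨ (f S a.i0 q = true ∧ f S a.i1 q = true)) := by
    intro q hq
    rw [Bool.or_eq_true] at hB
    rcases hB with hB | hB
    · left
      obtain ⟨b0, b1, b2⟩ := t3_iff hB
      rcases hq with rfl | rfl | rfl
      · exact b0
      · exact b1
      · exact b2
    · right
      obtain ⟨b0, b1, b2⟩ := t3_iff hB
      simp only [Bool.and_eq_true] at b0 b1 b2
      rcases hq with rfl | rfl | rfl
      · exact b0
      · exact b1
      · exact b2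
  have Q0 := HQ hb.o0 g00 g10 g20 (hB' _ (Or.inl rfl))
  have Q1 := HQ hb.o1 g01 g11 g21 (hB' _ (Or.inr (Or.inl rfl)))
  have Q2 := HQ hb.v g02 g12 g22 (hB' _ (Or.inr (Or.inr rfl)))
  have hc := hK.sg S (u * Ac t) (u * As t)
  refine sector3 hc hb.t00 ht0' ht1' up' hu0' ?_ Q0 Q1 Q2
  show KD D (u * Ac t + 0) (u * As t + sgb S * 0)
  rw [mul_zero, add_zero, add_zero]
  exact HA

/-- The points of two cells. -/
structure Pr (a b : Se) (u t u' t' : ℝ) : Prop where
  ex : ∃ r1 r0 t0 t1 r1' r0' t0' t1' : ℝ, SV a r1 r0 t0 t1 ∧ SV b r1' r0' t0' t1' ∧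
    (r1 ≤ u ∧ u ≤ r0 ∧ t0 ≤ t ∧ t ≤ t1) ∧ (r1' ≤ u' ∧ u' ≤ r0' ∧ t0' ≤ t' ∧ t' ≤ t1')

theorem Pr.symm {a b : Se} {u t u' t' : ℝ} (h : Pr a b u t u' t') : Pr b a u' t' u t := by
  obtain ⟨r1, r0, t0, t1, r1', r0', t0', t1', ha, hb, k, k'⟩ := h.ex
  exact ⟨⟨r1', r0', t0', t1', r1, r0, t0, t1, hb, ha, k', k⟩⟩

theorem tT1_ok {S : Bool} {a b : Se} {n : ℕ} (h : tT1 S a b n = true) {u t u' t' : ℝ}
    (hp : Pr a b u t u' t') : ∃ D : ℝ, D < 2 ∧ ((Nat.add (dT n) 6 : ℕ) : ℝ) = D * 16777216 ∧ 0 ≤ D ∧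
      KD D (u * Ac t + u' * Ac t') (u * As t + sgb S * (u' * As t')) := by
  obtain ⟨r1, r0, t0, t1, r1', r0', t0', t1', ha, hb, ⟨k1, k2, k3, k4⟩, ⟨k1', k2', k3', k4'⟩⟩ := hp.ex
  unfold tT1 tB at h
  set d := Nat.add (dT n) 6 with hd
  have d0 : (0 : ℝ) ≤ d := Nat.cast_nonneg _
  rcases hb' : Nat.ble d 16777216 with _ | _
  · rw [hb', cond_false, Bool.and_eq_true] at h
    have h1 : 16777216 < d := by
      by_contra hc
      push Not at hc
      rw [Nat.ble_eq_true_of_le hc] at hb'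
      exact Bool.false_ne_true hb'.symm
    have h2 : d ≤ 33554431 := Nat.le_of_ble_eq_true h.1
    have h3 : (d : ℝ) ≤ 33554431 := by exact_mod_cast h2
    refine ⟨(d : ℝ) / 16777216, ?_, ?_, by positivity, ?_⟩
    · rw [div_lt_iff₀ (by norm_num)]
      linarith
    · field_simp
    · refine tA_ok (by positivity) ?_ (fun hp hq hf => kb_ok h1 h2 hp hq hf) ha hb h.2 k1 k2 k3 k4 k1' k2' k3' k4'
      rw [div_le_iff₀ (by norm_num)]
      linarith
  · rw [hb', cond_true] at h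
    have h1 : d ≤ 16777216 := Nat.le_of_ble_eq_true hb'
    have h3 : (d : ℝ) ≤ 16777216 := by exact_mod_cast h1
    refine ⟨(d : ℝ) / 16777216, ?_, ?_, by positivity, ?_⟩
    · rw [div_lt_iff₀ (by norm_num)]
      linarith
    · field_simp
    · refine tA_ok (by positivity) ?_ (fun hp hq hf => ka_ok h1 hp hq hf) ha hb h k1 k2 k3 k4 k1' k2' k3' k4'
      rw [div_le_iff₀ (by norm_num)]
      linarith

/-! ### `t ≤ Re y` -/

/-- The set `t ≤ Re y`. -/
def LD (D x y : ℝ) : Prop :=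
  2 * x ≤ D * (2 - D) * (x ^ 2 + y ^ 2) + 2 * (D - 1) * Real.sqrt (x ^ 2 + y ^ 2)

theorem LD_flip {D x y : ℝ} (h : LD D x y) : LD D x (-y) := by
  unfold LD at *
  rw [neg_sq]
  exact h

/-- The tangent of a level curve of `Re y`. -/
theorem LD_of {D r A X Y : ℝ} (hD0 : 0 ≤ D) (hD2 : D ≤ 2) (hq : 0 ≤ 2 * D * (2 - D) * r + 2 * D - 2)
    (h : D * (2 - D) * r ^ 2 * (1 + A ^ 2) ≤
      ((2 * D * (2 - D) * r + 2 * D - 2) * (1 - A ^ 2) - 2 * (1 + A ^ 2)) * X +
        (2 * D * (2 - D) * r + 2 * D - 2) * (2 * A) * Y) : LD D X Y := by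
  unfold LD
  have s0 := Real.sqrt_nonneg (X ^ 2 + Y ^ 2)
  have s2 := Real.sq_sqrt (by positivity : 0 ≤ X ^ 2 + Y ^ 2)
  set ρ := Real.sqrt (X ^ 2 + Y ^ 2) with hρ
  rw [← s2]
  set q := 2 * D * (2 - D) * r + 2 * D - 2 with hqd
  have hM : 0 < 1 + A ^ 2 := by positivity
  -- Cauchy
  have hc : (1 - A ^ 2) * X + 2 * A * Y ≤ (1 + A ^ 2) * ρ := by
    apply abs_le_of_sq_le_sq' _ (by positivity) |>.2
    rw [mul_pow, s2]
    nlinarith [sq_nonneg ((1 - A ^ 2) * Y - 2 * A * X)]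
  have h1 : D * (2 - D) * r ^ 2 * (1 + A ^ 2) + 2 * (1 + A ^ 2) * X ≤ q * ((1 + A ^ 2) * ρ) := by
    have := mul_le_mul_of_nonneg_left hc hq
    linarith
  have h2 : D * (2 - D) * r ^ 2 + 2 * X ≤ q * ρ := by
    have : (D * (2 - D) * r ^ 2 + 2 * X) * (1 + A ^ 2) ≤ (q * ρ) * (1 + A ^ 2) := by linarith
    exact le_of_mul_le_mul_right this hM
  have h3 : 0 ≤ D * (2 - D) * (ρ - r) ^ 2 := mul_nonneg (mul_nonneg hD0 (by linarith)) (sq_nonneg _)
  rw [hqd] at h2
  linarith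

theorem mi_le (a b : ℕ) : ((mi a b : ℕ) : ℝ) ≤ a ∧ ((mi a b : ℕ) : ℝ) ≤ b := by
  unfold mi
  rcases h : Nat.ble a b with _ | _
  · refine ⟨?_, le_rfl⟩
    show (b : ℝ) ≤ a
    have : ¬ a ≤ b := fun hc => by
      rw [Nat.ble_eq_true_of_le hc] at h
      exact Bool.false_ne_true h.symm
    exact Nat.cast_le.2 (Nat.le_of_lt (not_le.1 this))
  · exact ⟨le_rfl, Nat.cast_le.2 (Nat.le_of_ble_eq_true h)⟩

theorem lp_ok {P B N : ℕ} {p : Pv} {x y : ℝ} (h : VxR p x y) (hc : lpc P B N p = true) :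
    ((lp P B N p : ℕ) : ℝ) ≤ (((P : ℝ) - N) * x + B * y) * 16777216 := by
  have hc' := Nat.le_of_ble_eq_true hc
  unfold lp
  rw [cast_sub' hc', cast_add', cast_mul', cast_mul', cast_mul', cast_add']
  push_cast
  have h1 := mul_le_mul_of_nonneg_left h.x0 (Nat.cast_nonneg (α := ℝ) P)
  have h2 := mul_le_mul_of_nonneg_left h.y0 (Nat.cast_nonneg (α := ℝ) B)
  have h3 := mul_le_mul_of_nonneg_left h.x1 (Nat.cast_nonneg (α := ℝ) N)
  linarith

theorem ln_ok {P B N : ℕ} {p : Pv} {x y : ℝ} (h : VxR p x y) (hc : lnc P B N p = true) :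
    ((ln P B N p : ℕ) : ℝ) ≤ (((P : ℝ) - N) * x - B * y) * 16777216 := by
  have hc' := Nat.le_of_ble_eq_true hc
  unfold ln
  rw [cast_sub' hc', cast_add', cast_mul', cast_mul', cast_mul', cast_add', cast_add']
  push_cast
  have h1 := mul_le_mul_of_nonneg_left h.x0 (Nat.cast_nonneg (α := ℝ) P)
  have h2 := mul_le_mul_of_nonneg_left h.y1 (Nat.cast_nonneg (α := ℝ) B)
  have h3 := mul_le_mul_of_nonneg_left h.x1 (Nat.cast_nonneg (α := ℝ) N)
  linarith

theorem lpc_nn {P B N : ℕ} {p : Pv} {x y : ℝ} (h : VxR p x y) (hc : lpc P B N p = true) :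
    0 ≤ ((P : ℝ) - N) * x + B * y := by
  have h1 := lp_ok h hc
  have h2 : (0 : ℝ) ≤ ((lp P B N p : ℕ) : ℝ) := Nat.cast_nonneg _
  by_contra hcc
  push Not at hcc
  linarith

theorem tD_ok {S m : Bool} {a b : Se} {K P B N : ℕ} (h : tD S m a b K P B N = true) {u t u' t' : ℝ}
    (hp : Pr a b u t u' t') : (K : ℝ) ≤ 65536 * 16777216 *
      (((P : ℝ) - N) * (u * Ac t + u' * Ac t') + B * (u * As t + sgb S * (u' * As t'))) := by
  obtain ⟨r1, r0, t0, t1, r1', r0', t0', t1', ha, hb, ⟨k1, k2, k3, k4⟩, ⟨k1', k2', k3', k4'⟩⟩ := hp.ex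
  unfold tD at h
  rw [Bool.and_eq_true, Bool.and_eq_true] at h
  obtain ⟨h0, h1, h2⟩ := h
  have B0 : (0 : ℝ) ≤ B := Nat.cast_nonneg _
  have up' : 0 ≤ u' := hb.rp.le.trans k1'
  have mk : ∀ {w : ℕ}, ((w : ℕ) : ℝ) ≤ ((lp P B N a.i0 : ℕ) : ℝ) → ((w : ℕ) : ℝ) ≤ ((lp P B N a.i1 : ℕ) : ℝ) →
      ((w : ℕ) : ℝ) / 16777216 ≤ ((P : ℝ) - N) * (u * Ac t) + B * (u * As t) := by
    intro w w0 w1
    refine lin2 ha.t00 k3 k4 ha.rp k1 (by positivity) ?_ ?_
    · rw [div_le_iff₀ (by norm_num)]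
      exact w0.trans (lp_ok ha.i0 h0)
    · rw [div_le_iff₀ (by norm_num)]
      exact w1.trans (lp_ok ha.i1 h1)
  cases S
  · rw [cond_false] at h2
    rw [sgb_false]
    cases m
    · rw [cond_false, Bool.and_eq_true, Bool.and_eq_true] at h2
      obtain ⟨g0, g1, g2⟩ := h2
      have m1 := mi_le (lp P B N a.i0) (lp P B N a.i1)
      have m2 := mi_le (ln P B N b.i0) (ln P B N b.i1)
      have e1 := mk m1.1 m1.2
      have e2 : ((mi (ln P B N b.i0) (ln P B N b.i1) : ℕ) : ℝ) / 16777216 ≤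
          ((P : ℝ) - N) * (u' * Ac t') + (-(B : ℝ)) * (u' * As t') := by
        refine lin2 hb.t00 k3' k4' hb.rp k1' (by positivity) ?_ ?_
        · rw [div_le_iff₀ (by norm_num)]
          have := m2.1.trans (ln_ok hb.i0 g0)
          linarith
        · rw [div_le_iff₀ (by norm_num)]
          have := m2.2.trans (ln_ok hb.i1 g1)
          linarith
      have e3 := ble_cast g2
      rw [cast_mul', cast_add'] at e3
      push_cast at e3
      rw [div_le_iff₀ (by norm_num)] at e1 e2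
      linarith
    · rw [cond_true, Bool.and_eq_true, Bool.and_eq_true, Bool.and_eq_true, Bool.and_eq_true] at h2
      obtain ⟨g0, ⟨g1, g2⟩, g3, g4⟩ := h2
      have hAB : 0 ≤ ((P : ℝ) - N) * As t1' + B * Ac t1' := by
        have e0 := ble_cast g0
        rw [cast_mul', cast_mul', cast_add'] at e0
        have l1 : (N : ℝ) - P ≤ ((Nat.sub N P : ℕ) : ℝ) := le_nsub le_rfl
        have l0 : (0 : ℝ) ≤ ((Nat.sub N P : ℕ) : ℝ) := Nat.cast_nonneg _
        have y1 := hb.i1.y1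
        have x0 := hb.i1.x0
        have yn := hb.i1.yn
        push_cast at e0
        have l2 := mul_le_mul_of_nonneg_left y1 l0
        have l3 := mul_le_mul_of_nonneg_left x0 B0
        have l4 := mul_le_mul_of_nonneg_right l1 (mul_nonneg yn (by norm_num : (0 : ℝ) ≤ 16777216))
        have l5 : 0 ≤ (((P : ℝ) - N) * As t1' + B * Ac t1') * (r1' * 16777216) := by linarith
        exact nonneg_of_mul_nonneg_left l5 (mul_pos hb.rp (by norm_num))
      -- for a vertex of the second sector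
      have HQ : ∀ {q : Pv} {x' y' : ℝ}, VxR q x' y' → lv K P B N a.i0 q = true → lv K P B N a.i1 q = true →
          (K : ℝ) / (65536 * 16777216) - (((P : ℝ) - N) * (u * Ac t) + B * (u * As t)) ≤
            ((P : ℝ) - N) * x' - B * y' := by
        intro q x' y' hq f0 f1
        have V : ∀ {p : Pv} {x y : ℝ}, VxR p x y → lv K P B N p q = true →
            (K : ℝ) / (65536 * 16777216) - (((P : ℝ) - N) * x' - B * y') ≤ ((P : ℝ) - N) * x + B * y := by
          intro p x y hpv hl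
          have e := ble_cast hl
          simp only [cast_add', cast_mul'] at e
          push_cast at e
          have c1 := mul_le_mul_of_nonneg_left hpv.x0 (Nat.cast_nonneg (α := ℝ) P)
          have c2 := mul_le_mul_of_nonneg_left hpv.y0 B0
          have c3 := mul_le_mul_of_nonneg_left hpv.x1 (Nat.cast_nonneg (α := ℝ) N)
          have c4 := mul_le_mul_of_nonneg_left hq.x0 (Nat.cast_nonneg (α := ℝ) P)
          have c5 := mul_le_mul_of_nonneg_left hq.y1 B0
          have c6 := mul_le_mul_of_nonneg_left hq.x1 (Nat.cast_nonneg (α := ℝ) N)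
          rw [sub_le_iff_le_add, div_le_iff₀ (by norm_num)]
          linarith
        set m := (K : ℝ) / (65536 * 16777216) - (((P : ℝ) - N) * x' - B * y') with hm
        have k := lin2 (m := max m 0) (A := (P : ℝ) - N) (B := (B : ℝ)) ha.t00 k3 k4 ha.rp k1 (le_max_right _ _)
          (max_le (V ha.i0 f0) (lpc_nn ha.i0 h0)) (max_le (V ha.i1 f1) (lpc_nn ha.i1 h1))
        have := (le_max_left m 0).trans k
        rw [hm] at this
        linarith
      have e1 := lin1 (A := (P : ℝ) - N) (B := (B : ℝ)) (hb.t00.trans k3') k4' hb.t11 B0 hAB hb.rp.le k1' k2'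
        (HQ hb.i1 g1 g3) (HQ hb.o1 g2 g4)
      rw [sub_le_iff_le_add, div_le_iff₀ (by norm_num)] at e1
      linarith
  · rw [cond_true, Bool.and_eq_true, Bool.and_eq_true] at h2
    obtain ⟨g0, g1, g2⟩ := h2
    rw [sgb_true]
    have m1 := mi_le (lp P B N a.i0) (lp P B N a.i1)
    have m2 := mi_le (lp P B N b.i0) (lp P B N b.i1)
    have e1 := mk m1.1 m1.2
    have e2 : ((mi (lp P B N b.i0) (lp P B N b.i1) : ℕ) : ℝ) / 16777216 ≤
        ((P : ℝ) - N) * (u' * Ac t') + B * (u' * As t') := by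
      refine lin2 hb.t00 k3' k4' hb.rp k1' (by positivity) ?_ ?_
      · rw [div_le_iff₀ (by norm_num)]
        exact m2.1.trans (lp_ok hb.i0 g0)
      · rw [div_le_iff₀ (by norm_num)]
        exact m2.2.trans (lp_ok hb.i1 g1)
    have e3 := ble_cast g2
    rw [cast_mul', cast_add'] at e3
    push_cast at e3
    rw [div_le_iff₀ (by norm_num)] at e1 e2
    linarith

theorem tC_real {D r A q X Y : ℝ} (D0 : 0 ≤ D) (D2 : D ≤ 2) (hq0 : 0 ≤ q)
    (hQ : q ≤ (2 * D * (2 - D) * (r / 256) + 2 * D - 2) * 16777216)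
    (k : D * 16777216 * (2 * 16777216 - D * 16777216) * (r ^ 2 * (65536 + A ^ 2)) ≤
      65536 * 16777216 * ((q * (65536 - A ^ 2) - 2 * 16777216 * (65536 + A ^ 2)) * X + 512 * A * q * Y)) :
    LD D X Y := by
  have s0 := Real.sqrt_nonneg (X ^ 2 + Y ^ 2)
  have s2 := Real.sq_sqrt (by positivity : 0 ≤ X ^ 2 + Y ^ 2)
  -- Cauchy
  have hc : (65536 - A ^ 2) * X + 512 * A * Y ≤ (65536 + A ^ 2) * Real.sqrt (X ^ 2 + Y ^ 2) := by
    apply abs_le_of_sq_le_sq' _ (by positivity) |>.2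
    rw [mul_pow, s2]
    nlinarith [sq_nonneg ((65536 - A ^ 2) * Y - 512 * A * X)]
  have hM : (0 : ℝ) < 65536 + A ^ 2 := by positivity
  unfold LD
  set ρ := Real.sqrt (X ^ 2 + Y ^ 2) with hρ
  rw [← s2]
  set Q : ℝ := 2 * D * (2 - D) * (r / 256) + 2 * D - 2 with hQd
  have h4 : q * ((65536 + A ^ 2) * ρ) ≤ Q * 16777216 * ((65536 + A ^ 2) * ρ) :=
    mul_le_mul_of_nonneg_right hQ (by positivity)
  have h5 := mul_le_mul_of_nonneg_left hc hq0
  have h6 : (D * (2 - D) * (r / 256) ^ 2 + 2 * X) * (65536 + A ^ 2) ≤ (Q * ρ) * (65536 + A ^ 2) := by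
    nlinarith
  have h7 := le_of_mul_le_mul_right h6 hM
  have h8 : 0 ≤ D * (2 - D) * (ρ - r / 256) ^ 2 := mul_nonneg (mul_nonneg D0 (by linarith)) (sq_nonneg _)
  rw [hQd] at h7
  nlinarith

theorem tC_ok {S m : Bool} {a b : Se} {d r A : ℕ} (hd : d ≤ 33554432) (h : tC S m a b d r A = true) {u t u' t' : ℝ}
    (hp : Pr a b u t u' t') :
    LD ((d : ℝ) / 16777216) (u * Ac t + u' * Ac t') (u * As t + sgb S * (u' * As t')) := by
  have hW := W_cast hd
  unfold tC tC2 tC3 at h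
  set W := Nat.mul d (Nat.sub 33554432 d) with hWd
  clear_value W
  rw [Bool.and_eq_true, Bool.and_eq_true] at h
  obtain ⟨h1, h2, h3⟩ := h
  have hA : A ≤ 256 := Nat.le_of_ble_eq_true h1
  have h2' := Nat.le_of_ble_eq_true h2
  have k := tD_ok h3 hp
  clear h1 h2 h3
  set q := Nat.sub (Nat.add (Nat.div (Nat.mul W r) 2147483648) (Nat.mul 2 d)) 33554432 with hq
  have q1 : (q : ℝ) = ((Nat.div (Nat.mul W r) 2147483648 : ℕ) : ℝ) + 2 * d - 2 * 16777216 := by
    rw [hq, cast_sub' h2', cast_add', cast_mul', c2U]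
    push_cast
    ring
  clear_value q
  have q2 : (q : ℝ) ≤ (W : ℝ) * r / 2147483648 + 2 * d - 2 * 16777216 := by
    rw [q1]
    have := nat_div_le (Nat.mul W r) 2147483648
    rw [cast_mul'] at this
    push_cast at this
    linarith
  have A2 : sqn A ≤ 65536 := le_trans (Nat.mul_le_mul hA hA) (by norm_num)
  rw [cast_mul', cast_mul', cast_mul', cast_mul', cast_mul', cast_mul', cast_sub' A2, cast_add', sqn_cast, sqn_cast, hW, c2U] at k
  push_cast at k
  rw [hW] at q2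
  clear A2 h2' hq hWd q1 hA
  have hd0 : (0 : ℝ) ≤ d := Nat.cast_nonneg _
  have hd1 : (d : ℝ) ≤ 33554432 := by exact_mod_cast hd
  clear hd
  have hq0 : (0 : ℝ) ≤ q := Nat.cast_nonneg _
  have hdD : (d : ℝ) = (d : ℝ) / 16777216 * 16777216 := by field_simp
  have D2 : (d : ℝ) / 16777216 ≤ 2 := by rw [div_le_iff₀ (by norm_num)]; linarith
  refine tC_real (r := r) (A := A) (by positivity) D2 hq0 ?_ ?_
  · refine q2.trans (le_of_eq ?_)
    ring
  · rw [← hdD]
    exact k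

theorem tT0_ok {S : Bool} {a b : Se} {n : ℕ} {c : Ct} (hd : dT n ≤ 33554432) (h : tT0 S a b n c = true) {u t u' t' : ℝ}
    (hp : Pr a b u t u' t') :
    LD ((dT n : ℝ) / 16777216) (u * Ac t + u' * Ac t') (u * As t + sgb S * (u' * As t')) := by
  unfold tT0 at h
  rcases hg : (S || c.g) with _ | _
  · rw [hg, cond_false] at h
    have hS : S = false := by
      cases S
      · rfl
      · simp at hg
    have k := LD_flip (tC_ok hd h hp.symm)
    rw [hS, sgb_false] at *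
    have e1 : u' * Ac t' + u * Ac t = u * Ac t + u' * Ac t' := add_comm _ _
    have e2 : -(u' * As t' + -1 * (u * As t)) = u * As t + -1 * (u' * As t') := by ring
    rw [e1, e2] at k
    exact k
  · rw [hg, cond_true] at h
    exact tC_ok hd h hp

end Pool.Agent.S5.Z4
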