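import Pool.Agent.S5.Z4.RegC

/-!
# Inner nodes with four half twists: the tests for the imaginary part
-/

set_option autoImplicit false

namespace Pool.Agent.S5.Z4

open Pool.Agent.S3.NI
open Pool.Agent.S5.YX (sgb ble_cast sub_sub_cast)

/-! ### `η ≤ Im y` -/

/-- `c = cosh (2 π η)`. -/
def GD (c x y : ℝ) : Prop := (c ^ 2 - 1) * (x ^ 2 + y ^ 2) + 2 * x ≤ 2 * c * Real.sqrt (x ^ 2 + y ^ 2)

/-- The radius of the disc and its linear function. -/
noncomputable def dB (Ka : ℕ) : ℝ := (Ka : ℝ) * 281474976710656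
noncomputable def dW (Kb Kc : ℕ) : ℝ := ((Kc : ℝ) - Kb) * 16777216
noncomputable def dZ (Kd : ℕ) : ℝ := (Kd : ℝ) * 16777216

theorem dv_ok {Ka Kb Kc Kd : ℕ} {p q : Pv} {x y x' y' : ℝ} (h : VxR p x y) (h' : VxR q x' y')
    (hd : dv Ka Kb Kc Kd p q = true) : DK (dB Ka) (dW Kb Kc) (dZ Kd) (x + x') (y + y') := by
  have q1 := qh_ok (S := true) h h'
  rw [sgb_true, one_mul] at q1
  have e := ble_cast hd
  simp only [cast_add', cast_mul'] at e
  push_cast at e
  unfold DK dB dW dZ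
  have c1 := mul_le_mul_of_nonneg_left q1 (Nat.cast_nonneg (α := ℝ) Ka)
  have c2 := mul_le_mul_of_nonneg_left h.x1 (Nat.cast_nonneg (α := ℝ) Kb)
  have c3 := mul_le_mul_of_nonneg_left h'.x1 (Nat.cast_nonneg (α := ℝ) Kb)
  have c4 := mul_le_mul_of_nonneg_left h.x0 (Nat.cast_nonneg (α := ℝ) Kc)
  have c5 := mul_le_mul_of_nonneg_left h'.x0 (Nat.cast_nonneg (α := ℝ) Kc)
  have c6 := mul_le_mul_of_nonneg_left h.y0 (Nat.cast_nonneg (α := ℝ) Kd)
  have c7 := mul_le_mul_of_nonneg_left h'.y0 (Nat.cast_nonneg (α := ℝ) Kd)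
  linarith

theorem dw_ok {Ka Kb Kc Kd : ℕ} {p q : Pv} {x y x' y' : ℝ} (h : VxR p x y) (h' : VxR q x' y')
    (hd : dw Ka Kb Kc Kd p q = true) :
    DK (dB Ka) (dW Kb Kc) (dZ Kd) (x + x') (y + sgb false * y') ∧ y' ≤ y := by
  unfold dw at hd
  rw [Bool.and_eq_true] at hd
  have hle := Nat.le_of_ble_eq_true hd.1
  have hle' := ble_cast hd.1
  rw [cast_add'] at hle'
  push_cast at hle'
  have hy : y' ≤ y := by
    have := h.y0
    have := h'.y1
    linarith
  refine ⟨?_, hy⟩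
  rw [sgb_false]
  have k1 := sqn_le (n := Nat.add (Nat.add p.x q.x) 128) (x := x + x') (by
    have := h.xn
    have := h'.xn
    positivity) (by
    rw [cast_add', cast_add']
    push_cast
    linarith [h.x1, h'.x1])
  have k2 := sqn_le (n := Nat.sub (Nat.add p.y 64) q.y) (x := y - y') (by linarith) (by
    apply le_nsub
    rw [cast_add']
    push_cast
    linarith [h.y1, h'.y0])
  have e := ble_cast hd.2
  simp only [cast_add', cast_mul'] at e
  push_cast at e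
  unfold DK dB dW dZ
  have c1 := mul_le_mul_of_nonneg_left (add_le_add k1 k2) (Nat.cast_nonneg (α := ℝ) Ka)
  have c2 := mul_le_mul_of_nonneg_left h.x1 (Nat.cast_nonneg (α := ℝ) Kb)
  have c3 := mul_le_mul_of_nonneg_left h'.x1 (Nat.cast_nonneg (α := ℝ) Kb)
  have c4 := mul_le_mul_of_nonneg_left h.x0 (Nat.cast_nonneg (α := ℝ) Kc)
  have c5 := mul_le_mul_of_nonneg_left h'.x0 (Nat.cast_nonneg (α := ℝ) Kc)
  have c6 := mul_le_mul_of_nonneg_left h.y0 (Nat.cast_nonneg (α := ℝ) Kd)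
  have c7 := mul_le_mul_of_nonneg_left h'.y1 (Nat.cast_nonneg (α := ℝ) Kd)
  have e1 : (y + -1 * y') ^ 2 = (y - y') ^ 2 := by ring
  rw [e1]
  linarith

/-- The disc condition under rotation of the second summand. -/
theorem DK_rot {b w z px py u t0 t : ℝ} (hw : w ≤ 2 * b * px) (hz : 2 * b * py ≤ z) (hu : 0 ≤ u)
    (h0 : 0 ≤ t0) (h1 : t0 ≤ t) (h2 : t ≤ 1) (h : DK b w z (px + u * Ac t0) (py + u * As t0)) :
    DK b w z (px + u * Ac t) (py + u * As t) := by
  unfold DK at *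
  have a1 := Ac_anti h0 h1
  have a2 := As_mono h0 h1 h2
  have e0 := AcAs t0
  have e1 := AcAs t
  have k : 0 ≤ u * ((2 * b * px - w) * (Ac t0 - Ac t) + (z - 2 * b * py) * (As t - As t0)) := by
    apply mul_nonneg hu
    apply add_nonneg
    · exact mul_nonneg (by linarith) (by linarith)
    · exact mul_nonneg (by linarith) (by linarith)
  have l1 : (px + u * Ac t) ^ 2 + (py + u * As t) ^ 2 =
      px ^ 2 + py ^ 2 + u ^ 2 + 2 * u * (px * Ac t + py * As t) := by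
    linear_combination u ^ 2 * e1
  have l0 : (px + u * Ac t0) ^ 2 + (py + u * As t0) ^ 2 =
      px ^ 2 + py ^ 2 + u ^ 2 + 2 * u * (px * Ac t0 + py * As t0) := by
    linear_combination u ^ 2 * e0
  rw [l1]
  rw [l0] at h
  linarith

/-- The conclusion from the disc. -/
theorem GD_of {c M N τ Z X Y : ℝ} (hc : 0 ≤ c) (hM : M = 4294967296 + τ ^ 2) (hN : N = 4294967296 - τ ^ 2)
    (hZ : c ^ 2 - 281474976710656 ≤ Z)
    (h : DK (Z * M * 281474976710656) ((c * N * 562949953421312 - 9444732965739290427392 * M) * 16777216)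
      (c * τ * 73786976294838206464 * 16777216) X Y) : GD (c / 16777216) X Y := by
  unfold DK at h
  unfold GD
  have s0 := Real.sqrt_nonneg (X ^ 2 + Y ^ 2)
  have s2 := Real.sq_sqrt (by positivity : 0 ≤ X ^ 2 + Y ^ 2)
  have R0 : 0 ≤ X ^ 2 + Y ^ 2 := by positivity
  have M0 : 0 < M := by rw [hM]; positivity
  have hcau : N * X + 131072 * τ * Y ≤ M * Real.sqrt (X ^ 2 + Y ^ 2) := by
    apply abs_le_of_sq_le_sq' _ (by positivity) |>.2
    rw [mul_pow, s2, hM, hN]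
    nlinarith [sq_nonneg ((4294967296 - τ ^ 2) * Y - 131072 * τ * X)]
  set ρ := Real.sqrt (X ^ 2 + Y ^ 2) with hρ
  set R := X ^ 2 + Y ^ 2 with hR
  have h1 : Z * M * 281474976710656 * R ≤ 9444732965739290427392 * c * (M * ρ) -
      158456325028528675187087900672 * M * X := by
    have := mul_le_mul_of_nonneg_left hcau (by positivity : 0 ≤ 9444732965739290427392 * c)
    linarith
  have h2 : (Z * 281474976710656 * R + 158456325028528675187087900672 * X) * M ≤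
      (9444732965739290427392 * c * ρ) * M := by linarith
  have h3 := le_of_mul_le_mul_right h2 M0
  have h4 := mul_le_mul_of_nonneg_right hZ R0
  have e : ((c / 16777216) ^ 2 - 1) * R + 2 * X =
      ((c ^ 2 - 281474976710656) * R * 281474976710656 + 158456325028528675187087900672 * X) /
        79228162514264337593543950336 := by
    ring
  have e2 : 2 * (c / 16777216) * ρ = (9444732965739290427392 * c * ρ) / 79228162514264337593543950336 := by
    ring
  rw [e, e2, div_le_div_iff_of_pos_right (by norm_num)]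
  linarith

theorem ci_ok {L R Z : ℕ} {p : Pv} {x y : ℝ} (h : VxR p x y) (hc : ci L R Z p = true) :
    (L : ℝ) ≤ R + Z * (x * 16777216) := by
  have e := ble_cast hc
  rw [cast_add', cast_mul'] at e
  have := mul_le_mul_of_nonneg_left h.x0 (Nat.cast_nonneg (α := ℝ) Z)
  linarith

theorem cj_ok {R Z : ℕ} {p : Pv} {x y : ℝ} (h : VxR p x y) (hc : cj Z R p = true) :
    (Z : ℝ) * (y * 16777216) ≤ R := by
  have e := ble_cast hc
  rw [cast_mul', cast_add'] at e
  push_cast at e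
  have := mul_le_mul_of_nonneg_left h.y1 (Nat.cast_nonneg (α := ℝ) Z)
  linarith

theorem e3_ok {S : Bool} {a b : Se} {c τ M N ZM : ℕ} (h : e3 S a b c τ M N ZM = true) {u t u' t' : ℝ}
    (hp : Pr a b u t u' t') :
    DK (dB ZM) (dW (Nat.mul 9444732965739290427392 M) (Nat.mul (Nat.mul c N) 562949953421312))
      (dZ (Nat.mul (Nat.mul c τ) 73786976294838206464)) (u * Ac t + u' * Ac t') (u * As t + sgb S * (u' * As t')) ∧
      (S = false → 0 ≤ u * As t + sgb S * (u' * As t')) := by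
  obtain ⟨r1, r0, t0, t1, r1', r0', t0', t1', ha, hb, ⟨k1, k2, k3, k4⟩, ⟨k1', k2', k3', k4'⟩⟩ := hp.ex
  have up : 0 ≤ u := ha.rp.le.trans k1
  have up' : 0 ≤ u' := hb.rp.le.trans k1'
  have tp : 0 ≤ t := ha.t00.trans k3
  have tp' : 0 ≤ t' := hb.t00.trans k3'
  have t1p : t ≤ 1 := k4.trans ha.t11
  have t1p' : t' ≤ 1 := k4'.trans hb.t11
  unfold e3 at h
  rw [Bool.and_eq_true] at h
  obtain ⟨hci, h⟩ := h
  have cib := ci_ok hb.i1 hci
  rw [cast_mul', cast_mul', cast_mul'] at cib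
  push_cast at cib
  set Kb := Nat.mul 9444732965739290427392 M with hKb
  set Kc := Nat.mul (Nat.mul c N) 562949953421312 with hKc
  set Kd := Nat.mul (Nat.mul c τ) 73786976294838206464 with hKd
  have Z0 : (0 : ℝ) ≤ ZM := Nat.cast_nonneg _
  have B0 : 0 ≤ dB ZM := by unfold dB; positivity
  have hcv := DK_cvx (w := dW Kb Kc) (z := dZ Kd) B0
  have ew : dW Kb Kc = ((c : ℝ) * N * 562949953421312 - 9444732965739290427392 * M) * 16777216 := by
    unfold dW
    rw [hKb, hKc, cast_mul', cast_mul', cast_mul']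
    push_cast
    ring
  have ez : dZ Kd = (c : ℝ) * τ * 73786976294838206464 * 16777216 := by
    unfold dZ
    rw [hKd, cast_mul', cast_mul']
    push_cast
    ring
  have z0 : 0 ≤ dZ Kd := mul_nonneg (Nat.cast_nonneg _) (by norm_num)
  clear_value Kb Kc Kd
  -- the conditions for rotation
  have W1 : ∀ {x : ℝ}, (c : ℝ) * N * 281474976710656 ≤ 4722366482869645213696 * M + ZM * (x * 16777216) →
      dW Kb Kc ≤ 2 * dB ZM * x := by
    intro x hx
    rw [ew]
    unfold dB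
    linarith
  have mx : ∀ {v s s1 r : ℝ}, 0 ≤ s → s ≤ s1 → s1 ≤ 1 → 0 ≤ r → r ≤ v → r * Ac s1 ≤ v * Ac s := by
    intro v s s1 r h0 h1 h2 h3 h4
    have a1 := Ac_anti h0 h1
    have a2 := Ac_nonneg (h0.trans h1) h2
    exact mul_le_mul h4 a1 a2 (h3.trans h4)
  have my : ∀ {v s s1 r : ℝ}, 0 ≤ s → s ≤ s1 → s1 ≤ 1 → 0 ≤ v → v ≤ r → v * As s ≤ r * As s1 := by
    intro v s s1 r h0 h1 h2 h3 h4
    have a1 := As_mono h0 h1 h2
    have a2 := As_nonneg h0
    exact mul_le_mul h4 a1 a2 (h3.trans h4)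
  have CB : dW Kb Kc ≤ 2 * dB ZM * (u' * Ac t') := by
    apply W1
    have := mul_le_mul_of_nonneg_left (mul_le_mul_of_nonneg_right (mx tp' k4' hb.t11 hb.rp.le k1') (by norm_num : (0:ℝ) ≤ 16777216)) Z0
    linarith
  cases S
  · rw [cond_false] at h
    simp only [Bool.and_eq_true] at h
    obtain ⟨⟨v0, v1, v2, v3, v4⟩, w0, w1, w2, w3, w4⟩ := h
    have hsg := fun (px py : ℝ) => hcv.sg false px py
    have I := sector5 (hsg (r1 * Ac t0) (r1 * As t0)) hb.t00 k3' k4' hb.rp.le k1' k2'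
      (dw_ok ha.i0 hb.i0 v0).1 (dw_ok ha.i0 hb.i1 v1).1 (dw_ok ha.i0 hb.o0 v2).1 (dw_ok ha.i0 hb.o1 v3).1
      (dw_ok ha.i0 hb.v v4).1
    have O := sector5 (hsg (r0 * Ac t0) (r0 * As t0)) hb.t00 k3' k4' hb.rp.le k1' k2'
      (dw_ok ha.o0 hb.i0 w0).1 (dw_ok ha.o0 hb.i1 w1).1 (dw_ok ha.o0 hb.o0 w2).1 (dw_ok ha.o0 hb.o1 w3).1
      (dw_ok ha.o0 hb.v w4).1
    have U := (hcv.shift (u' * Ac t') (sgb false * (u' * As t'))).seg I O k1 k2
    have U' : DK (dB ZM) (dW Kb Kc) (dZ Kd) (u' * Ac t' + u * Ac t0) (sgb false * (u' * As t') + u * As t0) := by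
      have e1 : u' * Ac t' + u * Ac t0 = u * Ac t0 + u' * Ac t' := add_comm _ _
      have e2 : sgb false * (u' * As t') + u * As t0 = u * As t0 + sgb false * (u' * As t') := add_comm _ _
      rw [e1, e2]
      exact U
    have hyq : 0 ≤ u' * As t' := mul_nonneg up' (As_nonneg tp')
    have R := DK_rot CB (by
      rw [sgb_false]
      have : 0 ≤ 2 * dB ZM * (u' * As t') := by positivity
      linarith) up ha.t00 k3 t1p U'
    refine ⟨?_, fun _ => ?_⟩
    · have e1 : u * Ac t + u' * Ac t' = u' * Ac t' + u * Ac t := add_comm _ _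
      have e2 : u * As t + sgb false * (u' * As t') = sgb false * (u' * As t') + u * As t := add_comm _ _
      rw [e1, e2]
      exact R
    · rw [sgb_false]
      have y1 := (dw_ok ha.i0 hb.o1 v3).2
      have y2 := my tp' k4' hb.t11 up' k2'
      have y3 : r1 * As t0 ≤ u * As t := by
        have a1 := As_mono ha.t00 k3 t1p
        have a2 := As_nonneg ha.t00
        exact mul_le_mul k1 a1 a2 up
      linarith
  · rw [cond_true] at h
    simp only [Bool.and_eq_true] at h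
    obtain ⟨hjb, hia, hja, ⟨v00, v01⟩, v10, v11⟩ := h
    have cjb := cj_ok hb.o1 hjb
    have cja := cj_ok ha.o1 hja
    have cia := ci_ok ha.i1 hia
    rw [cast_mul', cast_mul'] at cjb cja
    rw [cast_mul', cast_mul', cast_mul'] at cia
    push_cast at cjb cja cia
    have Z1 : ∀ {y : ℝ}, (ZM : ℝ) * (y * 16777216) ≤ (c : ℝ) * τ * 36893488147419103232 → 2 * dB ZM * y ≤ dZ Kd := by
      intro y hy
      rw [ez]
      unfold dB
      linarith
    rw [sgb_true, one_mul]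
    have hsh := fun (px py : ℝ) => hcv.shift px py
    have I := (hsh (r1' * Ac t0') (r1' * As t0')).seg (dv_ok ha.i0 hb.i0 v00) (dv_ok ha.o0 hb.i0 v10) k1 k2
    have O := (hsh (r0' * Ac t0') (r0' * As t0')).seg (dv_ok ha.i0 hb.o0 v01) (dv_ok ha.o0 hb.o0 v11) k1 k2
    have swap : ∀ {x y x' y' : ℝ}, DK (dB ZM) (dW Kb Kc) (dZ Kd) (x + x') (y + y') →
        DK (dB ZM) (dW Kb Kc) (dZ Kd) (x' + x) (y' + y) := by
      intro x y x' y' hh
      rw [add_comm x' x, add_comm y' y]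
      exact hh
    have J := (hsh (u * Ac t0) (u * As t0)).seg (swap I) (swap O) k1' k2'
    have J' := DK_rot (px := u * Ac t0) (py := u * As t0) (by
      apply W1
      have := mul_le_mul_of_nonneg_left (mul_le_mul_of_nonneg_right (mx ha.t00 ha.t01 ha.t11 ha.rp.le k1) (by norm_num : (0:ℝ) ≤ 16777216)) Z0
      linarith) (by
      apply Z1
      have := mul_le_mul_of_nonneg_left (mul_le_mul_of_nonneg_right (my ha.t00 ha.t01 ha.t11 up k2) (by norm_num : (0:ℝ) ≤ 16777216)) Z0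
      linarith) up' hb.t00 k3' t1p' (swap J)
    have K' := DK_rot (px := u' * Ac t') (py := u' * As t') CB (by
      apply Z1
      have := mul_le_mul_of_nonneg_left (mul_le_mul_of_nonneg_right (my tp' k4' hb.t11 up' k2') (by norm_num : (0:ℝ) ≤ 16777216)) Z0
      linarith) up ha.t00 k3 t1p (swap J')
    exact ⟨swap K', fun hS => absurd hS (by decide)⟩

theorem tE0_ok {S : Bool} {a b : Se} {n τ : ℕ} (h : tE0 S a b n τ = true) {u t u' t' : ℝ}
    (hp : Pr a b u t u' t') :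
    GD ((chU n : ℝ) / 16777216) (u * Ac t + u' * Ac t') (u * As t + sgb S * (u' * As t')) ∧
      (S = false → 0 ≤ u * As t + sgb S * (u' * As t')) := by
  unfold tE0 at h
  rw [Bool.and_eq_true] at h
  have hτ := Nat.le_of_ble_eq_true h.1
  have k := h.2
  unfold e2 at k
  obtain ⟨k1, k2⟩ := e3_ok k hp
  refine ⟨?_, k2⟩
  have t2 : sqn τ ≤ 4294967296 := le_trans (Nat.mul_le_mul hτ hτ) (by norm_num)
  refine GD_of (M := 4294967296 + (τ : ℝ) ^ 2) (N := 4294967296 - (τ : ℝ) ^ 2) (τ := (τ : ℝ))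
    (Z := ((Nat.sub (sqn (chU n)) 281474976710656 : ℕ) : ℝ)) (Nat.cast_nonneg _) rfl rfl ?_ ?_
  · apply le_nsub
    rw [sqn_cast]
    norm_num
  · unfold dB dW dZ at k1
    simp only [cast_mul', cast_add', cast_sub' t2, sqn_cast] at k1
    push_cast at k1
    convert k1 using 2

/-! ### `Im y ≤ η` -/

def HD (c x y : ℝ) : Prop := 2 * c * Real.sqrt (x ^ 2 + y ^ 2) ≤ (c ^ 2 - 1) * (x ^ 2 + y ^ 2) + 2 * x ∧
  1 ≤ c * Real.sqrt (x ^ 2 + y ^ 2)

theorem HD_of {γ C' S' X Y : ℝ} (hγ : 1 < γ) (h1 : C' ^ 2 + S' ^ 2 = 1) (hS' : 0 ≤ S') (hk : 0 ≤ 2 * C' - γ)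
    (hz : 3 * γ * C' ≤ γ ^ 2 + 2) (hX : 4 / 3 ≤ X) (hY : 0 ≤ Y)
    (h : 2 * (γ - C') ^ 2 ≤ (γ ^ 2 - 1) * (X - (2 * C' - γ) * (X * C' + Y * S'))) : HD γ X Y := by
  have s0 := Real.sqrt_nonneg (X ^ 2 + Y ^ 2)
  have s2 := Real.sq_sqrt (by positivity : 0 ≤ X ^ 2 + Y ^ 2)
  unfold HD
  set ρ := Real.sqrt (X ^ 2 + Y ^ 2) with hρ
  rw [← s2]
  have hXρ : X ≤ ρ := by
    apply abs_le_of_sq_le_sq' _ s0 |>.2
    rw [s2]
    nlinarith [sq_nonneg Y]
  have ρ43 : 4 / 3 ≤ ρ := hX.trans hXρ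
  have ρ0 : 0 < ρ := by linarith
  refine ⟨?_, by nlinarith⟩
  set C := X / ρ with hC
  set S := Y / ρ with hS
  have eX : X = ρ * C := by rw [hC]; field_simp
  have eY : Y = ρ * S := by rw [hS]; field_simp
  have hCS : C ^ 2 + S ^ 2 = 1 := by
    rw [hC, hS, div_pow, div_pow, ← add_div, ← s2]
    field_simp
  have S0 : 0 ≤ S := by positivity
  have g1 : 0 < γ ^ 2 - 1 := by nlinarith
  have hC'1 : C' ≤ 1 := by nlinarith
  have hC1 : C ≤ 1 := by nlinarith
  rcases le_or_gt (3 * γ * C) (γ ^ 2 + 2) with hzC | hzC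
  · have kc := core hγ.le hCS S0 h1 hS' hk hzC hz
    set w := C - (2 * C' - γ) * (C * C' + S * S') with hw
    have h' : 2 * (γ - C') ^ 2 ≤ (γ ^ 2 - 1) * (ρ * w) := by
      rw [hw]
      rw [eX, eY] at h
      linarith
    have p0 : 0 < (γ - C') ^ 2 := by
      have : 0 < γ - C' := by linarith
      positivity
    have w0 : 0 < w := by
      by_contra hc
      push Not at hc
      have : (γ ^ 2 - 1) * (ρ * w) ≤ 0 := mul_nonpos_of_nonneg_of_nonpos g1.le (mul_nonpos_of_nonneg_of_nonpos ρ0.le hc)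
      linarith
    have f : 2 * (γ - C) ≤ (γ ^ 2 - 1) * ρ := by
      have : (2 * (γ - C)) * w ≤ ((γ ^ 2 - 1) * ρ) * w := by linarith
      exact le_of_mul_le_mul_right this w0
    rw [eX]
    have := mul_le_mul_of_nonneg_right f ρ0.le
    linarith
  · rw [eX]
    have f : 2 * (γ - C) ≤ (γ ^ 2 - 1) * ρ := by
      have h3 : (γ ^ 2 - 1) * (4 / 3) ≤ (γ ^ 2 - 1) * ρ := mul_le_mul_of_nonneg_left ρ43 g1.le
      have h4 : 2 * (γ - C) * (3 * γ) ≤ (γ ^ 2 - 1) * (4 / 3) * (3 * γ) := by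
        nlinarith [mul_nonneg (sub_nonneg.2 hγ.le) g1.le]
      have h5 := le_of_mul_le_mul_right h4 (by positivity)
      linarith
    have := mul_le_mul_of_nonneg_right f ρ0.le
    linarith

theorem hv_ok {Za Zj K : ℕ} {p q : Pv} {x y x' y' : ℝ} (h : VxR p x y) (h' : VxR q x' y')
    (hd : hv Za Zj K p q = true) :
    (K : ℝ) / 16777216 - ((Zj : ℝ) * x' - Za * y') ≤ Zj * x - Za * y := by
  have e := ble_cast hd
  simp only [cast_add', cast_mul'] at e
  push_cast at e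
  have c1 := mul_le_mul_of_nonneg_left h.x0 (Nat.cast_nonneg (α := ℝ) Zj)
  have c2 := mul_le_mul_of_nonneg_left h'.x0 (Nat.cast_nonneg (α := ℝ) Zj)
  have c3 := mul_le_mul_of_nonneg_left h.y1 (Nat.cast_nonneg (α := ℝ) Za)
  have c4 := mul_le_mul_of_nonneg_left h'.y1 (Nat.cast_nonneg (α := ℝ) Za)
  rw [sub_le_iff_le_add, div_le_iff₀ (by norm_num)]
  linarith

theorem hw_ok {Za Zj K : ℕ} {p q : Pv} {x y x' y' : ℝ} (h : VxR p x y) (h' : VxR q x' y')
    (hd : hw Za Zj K p q = true) :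
    (K : ℝ) / 16777216 - ((Zj : ℝ) * x' + Za * y') ≤ Zj * x - Za * y := by
  have e := ble_cast hd
  simp only [cast_add', cast_mul'] at e
  push_cast at e
  have c1 := mul_le_mul_of_nonneg_left h.x0 (Nat.cast_nonneg (α := ℝ) Zj)
  have c2 := mul_le_mul_of_nonneg_left h'.x0 (Nat.cast_nonneg (α := ℝ) Zj)
  have c3 := mul_le_mul_of_nonneg_left h.y1 (Nat.cast_nonneg (α := ℝ) Za)
  have c4 := mul_le_mul_of_nonneg_left h'.y0 (Nat.cast_nonneg (α := ℝ) Za)
  rw [sub_le_iff_le_add, div_le_iff₀ (by norm_num)]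
  linarith

theorem h5_ok {S : Bool} {a b : Se} {Za Zj K : ℕ} (h : h5 S a b Za Zj K = true) {u t u' t' : ℝ}
    (hp : Pr a b u t u' t') :
    (K : ℝ) / 16777216 ≤ Zj * (u * Ac t + u' * Ac t') - Za * (u * As t + sgb S * (u' * As t')) := by
  obtain ⟨r1, r0, t0, t1, r1', r0', t0', t1', ha, hb, ⟨k1, k2, k3, k4⟩, ⟨k1', k2', k3', k4'⟩⟩ := hp.ex
  have tp : 0 ≤ t := ha.t00.trans k3
  have tp' : 0 ≤ t' := hb.t00.trans k3'
  have Zj0 : (0 : ℝ) ≤ Zj := Nat.cast_nonneg _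
  have Za0 : (0 : ℝ) ≤ Za := Nat.cast_nonneg _
  have AB : ∀ {s : ℝ}, 0 ≤ s → s ≤ 1 → 0 ≤ (Zj : ℝ) * As s + Za * Ac s := by
    intro s h0 h1
    have := Ac_nonneg h0 h1
    have := As_nonneg h0
    positivity
  unfold h5 at h
  cases S
  · rw [cond_false, Bool.and_eq_true, Bool.and_eq_true, Bool.and_eq_true] at h
    obtain ⟨⟨v0, v1⟩, v2, v3⟩ := h
    have I := lin1 tp k4 ha.t11 Za0 (AB (ha.t00.trans ha.t01) ha.t11) ha.rp.le k1 k2 (hw_ok ha.i1 hb.i0 v0) (hw_ok ha.o1 hb.i0 v2)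
    have O := lin1 tp k4 ha.t11 Za0 (AB (ha.t00.trans ha.t01) ha.t11) ha.rp.le k1 k2 (hw_ok ha.i1 hb.i1 v1) (hw_ok ha.o1 hb.i1 v3)
    have nn : ∀ {s : ℝ}, 0 ≤ s → s ≤ 1 → 0 ≤ (Zj : ℝ) * (r1' * Ac s) + Za * (r1' * As s) := by
      intro s h0 h1
      have := Ac_nonneg h0 h1
      have := As_nonneg h0
      have := hb.rp
      positivity
    have k := lin2 (m := max ((K : ℝ) / 16777216 - (Zj * (u * Ac t) - Za * (u * As t))) 0) (A := (Zj : ℝ))
      (B := (Za : ℝ)) hb.t00 k3' k4' hb.rp k1' (le_max_right _ _)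
      (max_le (by linarith) (nn hb.t00 (hb.t01.trans hb.t11)))
      (max_le (by linarith) (nn (hb.t00.trans hb.t01) hb.t11))
    have := (le_max_left _ _).trans k
    rw [sgb_false]
    linarith
  · rw [cond_true, Bool.and_eq_true, Bool.and_eq_true, Bool.and_eq_true] at h
    obtain ⟨⟨v0, v1⟩, v2, v3⟩ := h
    have I := lin1 tp k4 ha.t11 Za0 (AB (ha.t00.trans ha.t01) ha.t11) ha.rp.le k1 k2 (hv_ok ha.i1 hb.i1 v0) (hv_ok ha.o1 hb.i1 v2)
    have O := lin1 tp k4 ha.t11 Za0 (AB (ha.t00.trans ha.t01) ha.t11) ha.rp.le k1 k2 (hv_ok ha.i1 hb.o1 v1) (hv_ok ha.o1 hb.o1 v3)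
    have k := lin1 (m := (K : ℝ) / 16777216 - (Zj * (u * Ac t) - Za * (u * As t))) (A := (Zj : ℝ)) (B := (Za : ℝ))
      tp' k4' hb.t11 Za0 (AB (hb.t00.trans hb.t01) hb.t11) hb.rp.le k1' k2' (by linarith) (by linarith)
    rw [sgb_true]
    linarith

theorem tE1_side {c τ M N : ℝ} (hM : M = 4294967296 + τ ^ 2) (hN : N = 4294967296 - τ ^ 2)
    (c0 : 0 ≤ c) (Z1 : 1 ≤ c ^ 2 - 281474976710656) (k0 : 0 ≤ 33554432 * N - c * M) :
    16777216 < c ∧ 0 < M ∧ 0 < N ∧ 16777216 * N ≤ c * M ∧ (33554432 * N - c * M) * N ≤ M ^ 2 * 16777216 := by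
  have c1 : 16777216 < c := by
    by_contra hcc
    push Not at hcc
    have : c ^ 2 ≤ 16777216 ^ 2 := pow_le_pow_left₀ c0 hcc 2
    norm_num at this
    linarith
  have M0 : 0 < M := by rw [hM]; positivity
  have NM : N ≤ M := by rw [hM, hN]; nlinarith
  have N0 : 0 < N := by
    have : 0 < c * M := by positivity
    linarith
  refine ⟨c1, M0, N0, by nlinarith, ?_⟩
  have l1 : 33554432 * N - c * M ≤ 16777216 * M := by nlinarith
  have l2 : (33554432 * N - c * M) * N ≤ (16777216 * M) * N := mul_le_mul_of_nonneg_right l1 N0.le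
  have l3 : (16777216 * M) * N ≤ (16777216 * M) * M := mul_le_mul_of_nonneg_left NM (by positivity)
  linarith

theorem tE1_real {c τ M N X Y : ℝ} (hM : M = 4294967296 + τ ^ 2) (hN : N = 4294967296 - τ ^ 2)
    (τ0 : 0 ≤ τ) (c0 : 0 ≤ c) (Z1 : 1 ≤ c ^ 2 - 281474976710656) (k0 : 0 ≤ 33554432 * N - c * M)
    (ez : c * N * 50331648 ≤ (c ^ 2 + 562949953421312) * M) (hX : 4 / 3 ≤ X) (hY : 0 ≤ Y)
    (k : 562949953421312 * (c * M - 16777216 * N) ^ 2 / 16777216 ≤
      (c ^ 2 - 281474976710656) * (M ^ 2 * 16777216 - (33554432 * N - c * M) * N) * X -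
        (c ^ 2 - 281474976710656) * ((33554432 * N - c * M) * τ * 131072) * Y) : HD (c / 16777216) X Y := by
  obtain ⟨c1, M0, N0, _, _⟩ := tE1_side hM hN c0 Z1 k0
  refine HD_of (C' := N / M) (S' := 131072 * τ / M) ?_ ?_ (by positivity) ?_ ?_ hX hY ?_
  · rw [lt_div_iff₀ (by norm_num)]
    linarith
  · rw [div_pow, div_pow, ← add_div, div_eq_one_iff_eq (by positivity), hM, hN]
    ring
  · have : 2 * (N / M) - c / 16777216 = (33554432 * N - c * M) / (16777216 * M) := by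
      field_simp
      ring
    rw [this]
    positivity
  · have e1 : 3 * (c / 16777216) * (N / M) = (c * N * 50331648) / (281474976710656 * M) := by
      field_simp
      ring
    have e2 : (c / 16777216) ^ 2 + 2 = ((c ^ 2 + 562949953421312) * M) / (281474976710656 * M) := by
      field_simp
      ring
    rw [e1, e2]
    exact div_le_div_of_nonneg_right ez (by positivity)
  · have e1 : 2 * (c / 16777216 - N / M) ^ 2 = (2 * (c * M - 16777216 * N) ^ 2) / (281474976710656 * M ^ 2) := by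
      field_simp
      ring
    have e2 : ((c / 16777216) ^ 2 - 1) * (X - (2 * (N / M) - c / 16777216) * (X * (N / M) + Y * (131072 * τ / M))) =
        ((c ^ 2 - 281474976710656) * ((M ^ 2 * 16777216 - (33554432 * N - c * M) * N) * X -
          (33554432 * N - c * M) * τ * 131072 * Y)) / (16777216 * 281474976710656 * M ^ 2) := by
      field_simp
      ring
    rw [e1, e2, div_le_div_iff₀ (by positivity) (by positivity)]
    have k' : 562949953421312 * (c * M - 16777216 * N) ^ 2 ≤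
      ((c ^ 2 - 281474976710656) * ((M ^ 2 * 16777216 - (33554432 * N - c * M) * N) * X -
          (33554432 * N - c * M) * τ * 131072 * Y)) * 16777216 := by
      rw [div_le_iff₀ (by norm_num)] at k
      linarith
    have M2 : 0 ≤ M ^ 2 := by positivity
    have := mul_le_mul_of_nonneg_right k' M2
    linarith

theorem X43 {a b : Se} (hx : Nat.ble 22369622 (Nat.add a.i1.x b.i1.x) = true) {u t u' t' : ℝ}
    (hp : Pr a b u t u' t') : 4 / 3 ≤ u * Ac t + u' * Ac t' := by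
  obtain ⟨r1, r0, t0, t1, r1', r0', t0', t1', ha, hb, ⟨k1, k2, k3, k4⟩, ⟨k1', k2', k3', k4'⟩⟩ := hp.ex
  have e := ble_cast hx
  rw [cast_add'] at e
  clear hx
  push_cast at e
  have x1 := ha.i1.x0
  have x2 := hb.i1.x0
  have y1 : r1 * Ac t1 ≤ u * Ac t :=
    mul_le_mul k1 (Ac_anti (ha.t00.trans k3) k4) (Ac_nonneg (ha.t00.trans ha.t01) ha.t11) (ha.rp.le.trans k1)
  have y2 : r1' * Ac t1' ≤ u' * Ac t' :=
    mul_le_mul k1' (Ac_anti (hb.t00.trans k3') k4') (Ac_nonneg (hb.t00.trans hb.t01) hb.t11) (hb.rp.le.trans k1')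
  linarith

/-- The numbers `Z`, `j`, `k`, `h`. -/
theorem h3_cast {S : Bool} {a b : Se} {c τ Mn Nn : ℕ} (h : h3 S a b c τ Mn Nn = true) {u t u' t' : ℝ}
    (hp : Pr a b u t u' t') {M N : ℝ} (eM : (Mn : ℝ) = M) (eN : (Nn : ℝ) = N)
    (hM : M = 4294967296 + (τ : ℝ) ^ 2) (hN : N = 4294967296 - (τ : ℝ) ^ 2) :
    0 ≤ 33554432 * N - c * M ∧ 1 ≤ (c : ℝ) ^ 2 - 281474976710656 ∧
    (c : ℝ) * N * 50331648 ≤ ((c : ℝ) ^ 2 + 562949953421312) * M ∧
    562949953421312 * (c * M - 16777216 * N) ^ 2 / 16777216 ≤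
      ((c : ℝ) ^ 2 - 281474976710656) * (M ^ 2 * 16777216 - (33554432 * N - c * M) * N) * (u * Ac t + u' * Ac t') -
        ((c : ℝ) ^ 2 - 281474976710656) * ((33554432 * N - c * M) * τ * 131072) *
          (u * As t + sgb S * (u' * As t')) := by
  unfold h3 h4 at h
  rw [Bool.and_eq_true, Bool.and_eq_true, Bool.and_eq_true] at h
  obtain ⟨hk, hZ, hz, h5⟩ := h
  have hk' := Nat.le_of_ble_eq_true hk
  have ek : ((Nat.sub (Nat.mul 33554432 Nn) (Nat.mul c Mn) : ℕ) : ℝ) = 33554432 * N - c * M := by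
    rw [cast_sub' hk', cast_mul', cast_mul', eM, eN]
    norm_num
  have hZ' := Nat.le_of_ble_eq_true hZ
  have cle : 281474976710656 ≤ sqn c := by
    by_contra hcc
    have hcc := Nat.lt_of_not_le hcc
    have : Nat.sub (sqn c) 281474976710656 = 0 := Nat.sub_eq_zero_of_le hcc.le
    rw [this] at hZ'
    exact absurd hZ' (by norm_num)
  have eZ : ((Nat.sub (sqn c) 281474976710656 : ℕ) : ℝ) = (c : ℝ) ^ 2 - 281474976710656 := by
    rw [cast_sub' cle, sqn_cast]
    norm_num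
  have Z1 : (1 : ℝ) ≤ (c : ℝ) ^ 2 - 281474976710656 := by
    rw [← eZ]
    exact Nat.one_le_cast.2 hZ'
  have k0 : 0 ≤ 33554432 * N - (c : ℝ) * M := by
    rw [← ek]
    exact Nat.cast_nonneg _
  obtain ⟨c1, M0, N0, s1, s2⟩ := tE1_side hM hN (Nat.cast_nonneg c) Z1 k0
  have hcM : Nat.mul 16777216 Nn ≤ Nat.mul c Mn := (Nat.cast_le (α := ℝ)).1 (by
    rw [cast_mul', cast_mul', eM, eN, cU]
    exact s1)
  have hj : Nat.mul (Nat.sub (Nat.mul 33554432 Nn) (Nat.mul c Mn)) Nn ≤ Nat.mul (sqn Mn) 16777216 :=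
    (Nat.cast_le (α := ℝ)).1 (by
      rw [cast_mul', cast_mul', sqn_cast, eM, eN, ek, cU]
      exact s2)
  refine ⟨k0, Z1, ?_, ?_⟩
  · have ez := ble_cast hz
    rw [cast_mul', cast_mul', cast_mul', cast_add', sqn_cast, eM, eN] at ez
    clear h5 hk hZ hz hk' hZ' cle hcM hj
    push_cast at ez
    exact ez
  · have k := h5_ok h5 hp
    rw [cast_mul', cast_mul', cast_mul', cast_mul', cast_mul', sqn_cast, cast_sub' hj, cast_sub' hcM, cast_mul', cast_mul',
      cast_mul', cast_mul', sqn_cast, eM, eN, ek, eZ] at k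
    clear h5 hk hZ hz hk' hZ' cle hcM hj
    push_cast at k
    exact k

theorem tE1_ok {S : Bool} {a b : Se} {n τ : ℕ} (h : tE1 S a b n τ = true) {u t u' t' : ℝ}
    (hp : Pr a b u t u' t') (hY : 0 ≤ u * As t + sgb S * (u' * As t')) :
    HD ((chL n : ℝ) / 16777216) (u * Ac t + u' * Ac t') (u * As t + sgb S * (u' * As t')) := by
  unfold tE1 h2 at h
  rw [Bool.and_eq_true, Bool.and_eq_true] at h
  obtain ⟨hτ, hx, h3⟩ := h
  have hτ := Nat.le_of_ble_eq_true hτ
  have t2 : sqn τ ≤ 4294967296 := le_trans (Nat.mul_le_mul hτ hτ) (by norm_num)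
  have eM : ((Nat.add 4294967296 (sqn τ) : ℕ) : ℝ) = 4294967296 + (τ : ℝ) ^ 2 := by
    rw [cast_add', sqn_cast]
    norm_num
  have eN : ((Nat.sub 4294967296 (sqn τ) : ℕ) : ℝ) = 4294967296 - (τ : ℝ) ^ 2 := by
    rw [cast_sub' t2, sqn_cast]
    norm_num
  obtain ⟨k0, Z1, ez, k⟩ := h3_cast h3 hp eM eN rfl rfl
  exact tE1_real rfl rfl (Nat.cast_nonneg _) (Nat.cast_nonneg _) Z1 k0 ez (X43 hx hp) hY k

end Pool.Agent.S5.Z4
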