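import Pool.Agent.S5.Z4.RegE
import Pool.Agent.S5.I.YXG

/-!
# Inner nodes with four half twists: the rectangle of a slot
-/

set_option autoImplicit false

namespace Pool.Agent.S5.Z4

open Pool.Agent.S3.NI
open Pool.Agent.S5.YX (sgb ble_cast sub_sub_cast Sdat tan_parts norm_eq_sqrt)

/-! ### The level sets -/

theorem nsq (s : ℂ) : ‖s - 1‖ ^ 2 = ‖s‖ ^ 2 - 2 * s.re + 1 := by
  rw [Complex.sq_norm, Complex.sq_norm, Complex.normSq_apply, Complex.normSq_apply]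
  simp only [Complex.sub_re, Complex.one_re, Complex.sub_im, Complex.one_im]
  ring

theorem cosh_eq {s y : ℂ} (h : Sdat s y) : Real.cosh (2 * Real.pi * y.im) * ‖s‖ = 1 + ‖s - 1‖ := by
  obtain ⟨k1, k2, k3, k4⟩ := tan_parts h.y0 h.y1 h.ht
  have hn := nsq s
  have n0 := norm_nonneg (s - 1)
  set n := ‖s - 1‖
  have hT : 0 < Real.sqrt ((n + s.re - 1) / 2) := by
    rcases (Real.sqrt_nonneg ((n + s.re - 1) / 2)).eq_or_lt with h | h
    · rw [← h, zero_mul] at k3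
      exact absurd k3 (lt_irrefl 0)
    · exact h
  have hT2 : Real.sqrt ((n + s.re - 1) / 2) ^ 2 = (n + s.re - 1) / 2 :=
    Real.sq_sqrt (Real.sqrt_pos.1 hT).le
  have ρ2 : ‖s‖ ^ 2 = s.re ^ 2 + s.im ^ 2 := by
    rw [Complex.sq_norm, Complex.normSq_apply]
    ring
  set T := Real.sqrt ((n + s.re - 1) / 2)
  have hc := Real.cosh_sq (2 * Real.pi * y.im)
  have hc0 := Real.cosh_pos (2 * Real.pi * y.im)
  set C := Real.cosh (2 * Real.pi * y.im)
  set Sh := Real.sinh (2 * Real.pi * y.im)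
  have e1 : s.im ^ 2 = (n - s.re + 1) * (2 * T ^ 2) := by
    rw [hT2]
    nlinarith
  have e2 : (s.im * C) ^ 2 = (T * (1 + n) * Sh) ^ 2 := by rw [k4]
  have e3 : T ^ 2 * ((n - s.re + 1) * 2 * C ^ 2) = T ^ 2 * ((1 + n) ^ 2 * Sh ^ 2) := by
    rw [mul_pow, e1] at e2
    linear_combination e2
  have e4 := mul_left_cancel₀ (pow_ne_zero 2 hT.ne') e3
  have e5 : (C * ‖s‖) ^ 2 = (1 + n) ^ 2 := by
    rw [mul_pow]
    have : ‖s‖ ^ 2 = (1 + n) ^ 2 - 2 * (n - s.re + 1) := by linarith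
    rw [this]
    have : Sh ^ 2 = C ^ 2 - 1 := by linarith
    rw [this] at e4
    linarith
  have e6 := abs_eq_abs.2 (sq_eq_sq_iff_eq_or_eq_neg.1 e5)
  rw [abs_of_pos (by positivity), abs_of_pos (by linarith)] at e6
  exact e6

theorem sqrt_eq (s : ℂ) : Real.sqrt (s.re ^ 2 + s.im ^ 2) = ‖s‖ := (norm_eq_sqrt s).symm

theorem re2 (s : ℂ) : s.re ^ 2 + s.im ^ 2 = ‖s‖ ^ 2 := by
  rw [Complex.sq_norm, Complex.normSq_apply]
  ring

theorem re_le_of {s y : ℂ} (h : Sdat s y) {D : ℝ} (hD2 : D < 2) (hK : KD D s.re s.im)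
    {n : ℕ} (hn : n ≤ 500) (hc : Real.cos (2 * Real.pi * (n / 1000)) ≤ D - 1) : y.re ≤ (n : ℝ) / 1000 := by
  obtain ⟨k1, k2, _, _⟩ := tan_parts h.y0 h.y1 h.ht
  obtain ⟨x0, hF⟩ := hK
  rw [sqrt_eq, re2] at hF
  have hn2 := nsq s
  have n0 := norm_nonneg (s - 1)
  have tri : ‖s‖ ≤ ‖s - 1‖ + 1 := by
    have := norm_add_le (s - 1) 1
    rwa [sub_add_cancel, norm_one] at this
  have k : ‖s - 1‖ ^ 2 ≤ (1 - (D - 1) * ‖s‖) ^ 2 := by nlinarith
  have k' : ‖s - 1‖ ≤ 1 - (D - 1) * ‖s‖ := by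
    rcases le_or_gt 0 (1 - (D - 1) * ‖s‖) with h0 | h0
    · exact abs_le_of_sq_le_sq' k h0 |>.2
    · exfalso
      have h1 : ‖s - 1‖ ^ 2 ≤ ((D - 1) * ‖s‖ - 1) ^ 2 := by linarith
      have h2 := abs_le_of_sq_le_sq' h1 (by linarith) |>.2
      nlinarith
  have h1 : (D - 1) * ‖s‖ ≤ Real.cos (2 * Real.pi * y.re) * ‖s‖ := by linarith
  have h2 := le_of_mul_le_mul_right h1 k1
  by_contra hcc
  push Not at hcc
  have hpi := Real.pi_pos
  have h3 := Real.cos_lt_cos_of_nonneg_of_le_pi (x := 2 * Real.pi * (n / 1000))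
    (y := 2 * Real.pi * y.re) (by positivity) (by nlinarith [h.y1]) (by nlinarith)
  linarith

theorem le_re_of {s y : ℂ} (h : Sdat s y) {D : ℝ} (hK : LD D s.re s.im)
    {n : ℕ} (hn : n ≤ 500) (hc : D - 1 ≤ Real.cos (2 * Real.pi * (n / 1000))) : (n : ℝ) / 1000 ≤ y.re := by
  obtain ⟨k1, k2, _, _⟩ := tan_parts h.y0 h.y1 h.ht
  unfold LD at hK
  rw [sqrt_eq, re2] at hK
  have hn2 := nsq s
  have n0 := norm_nonneg (s - 1)
  have k : (1 - (D - 1) * ‖s‖) ^ 2 ≤ ‖s - 1‖ ^ 2 := by nlinarith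
  have k' : 1 - (D - 1) * ‖s‖ ≤ ‖s - 1‖ := abs_le_of_sq_le_sq' k n0 |>.2
  have h1 : Real.cos (2 * Real.pi * y.re) * ‖s‖ ≤ (D - 1) * ‖s‖ := by linarith
  have h2 := le_of_mul_le_mul_right h1 k1
  by_contra hcc
  push Not at hcc
  have hpi := Real.pi_pos
  have hy := h.y0
  have hn1 : (n : ℝ) ≤ 500 := by exact_mod_cast hn
  have h3 := Real.cos_lt_cos_of_nonneg_of_le_pi (x := 2 * Real.pi * y.re)
    (y := 2 * Real.pi * (n / 1000)) (by positivity) (by nlinarith) (by nlinarith)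
  linarith

theorem im_nonneg {s y : ℂ} (h : Sdat s y) (hs : 0 ≤ s.im) : 0 ≤ y.im := by
  obtain ⟨_, _, k3, k4⟩ := tan_parts h.y0 h.y1 h.ht
  have hch := Real.cosh_pos (2 * Real.pi * y.im)
  have h2 : 0 ≤ Real.sinh (2 * Real.pi * y.im) := by
    by_contra hcc
    push Not at hcc
    nlinarith [mul_nonneg hs hch.le, mul_neg_of_pos_of_neg k3 hcc]
  have h3 := Real.sinh_nonneg_iff.1 h2
  have hpi := Real.pi_pos
  by_contra hcc
  push Not at hcc
  nlinarith

theorem le_im_of {s y : ℂ} (h : Sdat s y) {c m : ℝ} (hK : GD c s.re s.im) (hs : 0 ≤ s.im)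
    (hm : 0 ≤ m) (hc : Real.cosh (2 * Real.pi * m) ≤ c) : m ≤ y.im := by
  obtain ⟨k1, k2, _, _⟩ := tan_parts h.y0 h.y1 h.ht
  have hce := cosh_eq h
  unfold GD at hK
  rw [sqrt_eq, re2] at hK
  have hn2 := nsq s
  have n0 := norm_nonneg (s - 1)
  have k : (c * ‖s‖ - 1) ^ 2 ≤ ‖s - 1‖ ^ 2 := by nlinarith
  have k' : c * ‖s‖ - 1 ≤ ‖s - 1‖ := abs_le_of_sq_le_sq' k n0 |>.2
  have h1 : c * ‖s‖ ≤ Real.cosh (2 * Real.pi * y.im) * ‖s‖ := by linarith
  have h2 := hc.trans (le_of_mul_le_mul_right h1 k1)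
  have h3 := Real.cosh_le_cosh.1 h2
  have hpi := Real.pi_pos
  have hy := im_nonneg h hs
  rw [abs_of_nonneg (by positivity), abs_of_nonneg (by positivity)] at h3
  exact le_of_mul_le_mul_left h3 (by positivity)

theorem im_le_of {s y : ℂ} (h : Sdat s y) {c m : ℝ} (hK : HD c s.re s.im)
    (hm : 0 ≤ m) (hc : c ≤ Real.cosh (2 * Real.pi * m)) : y.im ≤ m := by
  obtain ⟨k1, k2, _, _⟩ := tan_parts h.y0 h.y1 h.ht
  have hce := cosh_eq h
  obtain ⟨hK, h1c⟩ := hK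
  rw [sqrt_eq] at h1c
  rw [sqrt_eq, re2] at hK
  have hn2 := nsq s
  have n0 := norm_nonneg (s - 1)
  have k : ‖s - 1‖ ^ 2 ≤ (c * ‖s‖ - 1) ^ 2 := by nlinarith
  have k' : ‖s - 1‖ ≤ c * ‖s‖ - 1 := abs_le_of_sq_le_sq' k (by linarith) |>.2
  have h1 : Real.cosh (2 * Real.pi * y.im) * ‖s‖ ≤ c * ‖s‖ := by linarith
  have h2 := (le_of_mul_le_mul_right h1 k1).trans hc
  have h3 := Real.cosh_le_cosh.1 h2
  have hpi := Real.pi_pos
  have h4 := (le_abs_self _).trans h3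
  rw [abs_of_nonneg (by positivity)] at h4
  exact le_of_mul_le_mul_left h4 (by positivity)

/-! ### The hyperbolic cosine -/

theorem ch_sum {m : ℕ} (hm : m ≤ 200) :
    (((eT (Nat.add 500 m) : ℕ) : ℝ) + ((eT (Nat.sub 500 m) : ℕ) : ℝ) ≤ 2 * (Real.cosh (2 * Real.pi * (m / 1000)) * 16777216)) ∧
    2 * (Real.cosh (2 * Real.pi * (m / 1000)) * 16777216) ≤
      ((eT (Nat.add 500 m) : ℕ) : ℝ) + ((eT (Nat.sub 500 m) : ℕ) : ℝ) + 12 := by
  have h1 : Tv (Real.exp (2 * Real.pi * (m / 1000))) (eT (Nat.add 500 m)) := by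
    have := tv_e (n := Nat.add 500 m) (by show 300 ≤ 500 + m; omega) (by show 500 + m ≤ 700; omega)
    rw [cast_add'] at this
    have e : (((500 : ℕ) : ℝ) + m - 500) / 1000 = (m : ℝ) / 1000 := by push_cast; ring
    rwa [e] at this
  have h2 : Tv (Real.exp (-(2 * Real.pi * (m / 1000)))) (eT (Nat.sub 500 m)) := by
    have := tv_e (n := Nat.sub 500 m) (by show 300 ≤ 500 - m; omega) (by show 500 - m ≤ 700; omega)
    rw [cast_sub' (by omega : m ≤ 500)] at this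
    have e : 2 * Real.pi * ((((500 : ℕ) : ℝ) - m - 500) / 1000) = -(2 * Real.pi * ((m : ℝ) / 1000)) := by
      push_cast
      ring
    rwa [e] at this
  have e : 2 * (Real.cosh (2 * Real.pi * (m / 1000)) * 16777216) =
      Real.exp (2 * Real.pi * (m / 1000)) * 16777216 + Real.exp (-(2 * Real.pi * (m / 1000))) * 16777216 := by
    rw [Real.cosh_eq]
    ring
  rw [e]
  exact ⟨by linarith [h1.1, h2.1], by linarith [h1.2, h2.2]⟩

theorem chU_ok {m : ℕ} (hm : m ≤ 200) : Real.cosh (2 * Real.pi * (m / 1000)) ≤ (chU m : ℝ) / 16777216 := by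
  have h := (ch_sum hm).2
  rw [le_div_iff₀ (by norm_num)]
  unfold chU
  rw [cast_add']
  have h2 := le_succ_div (Nat.add (eT (Nat.add 500 m)) (eT (Nat.sub 500 m))) (d := 2) (by norm_num)
  rw [cast_add'] at h2
  push_cast at h2 ⊢
  linarith

theorem chL_ok {m : ℕ} (hm : m ≤ 200) : (chL m : ℝ) / 16777216 ≤ Real.cosh (2 * Real.pi * (m / 1000)) := by
  have h := (ch_sum hm).1
  rw [div_le_iff₀ (by norm_num)]
  unfold chL
  have h2 := nat_div_le (Nat.add (eT (Nat.add 500 m)) (eT (Nat.sub 500 m))) 2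
  rw [cast_add'] at h2
  push_cast at h2
  linarith

/-! ### The slot -/

/-- The number `s` of two points. -/
structure SpR (S : Bool) (s : ℂ) (u t u' t' : ℝ) : Prop where
  re : s.re = u * Ac t + u' * Ac t'
  im : s.im = u * As t + sgb S * (u' * As t')
  u0 : 0 ≤ u
  u0' : 0 ≤ u'
  t0 : 0 ≤ t
  t0' : 0 ≤ t'

open ComplexConjugate in
theorem SpR.conj {s : ℂ} {u t u' t' : ℝ} (h : SpR false s u t u' t') : SpR false (conj s) u' t' u t := by
  obtain ⟨h1, h2, h3, h4, h5, h6⟩ := h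
  refine ⟨?_, ?_, h4, h3, h6, h5⟩
  · rw [Complex.conj_re, h1]
    ring
  · rw [Complex.conj_im, h2, sgb_false]
    ring

theorem tE0_im {S : Bool} {a b : Se} {m τ : ℕ} (hm : m ≤ 200) (h : tE0 S a b m τ = true) {u t u' t' : ℝ}
    (hp : Pr a b u t u' t') {s y : ℂ} (hs : SpR S s u t u' t') (hd : Sdat s y) : (m : ℝ) / 1000 ≤ y.im := by
  obtain ⟨k1, k2⟩ := tE0_ok h hp
  rw [← hs.re, ← hs.im] at k1
  rw [← hs.im] at k2
  have him : 0 ≤ s.im := by
    cases S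
    · exact k2 rfl
    · rw [hs.im, sgb_true, one_mul]
      exact add_nonneg (mul_nonneg hs.u0 (As_nonneg hs.t0)) (mul_nonneg hs.u0' (As_nonneg hs.t0'))
  exact le_im_of hd k1 him (by positivity) (chU_ok hm)

theorem im_nonpos {s y : ℂ} (h : Sdat s y) (hs : s.im ≤ 0) : y.im ≤ 0 := by
  have := im_nonneg h.conj (by rw [Complex.conj_im]; linarith)
  rw [Complex.conj_im] at this
  linarith

theorem tE1_im {S : Bool} {a b : Se} {m τ : ℕ} (hm : m ≤ 200) (h : tE1 S a b m τ = true) {u t u' t' : ℝ}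
    (hp : Pr a b u t u' t') {s y : ℂ} (hs : SpR S s u t u' t') (hd : Sdat s y) : y.im ≤ (m : ℝ) / 1000 := by
  rcases le_total 0 s.im with him | him
  · have k := tE1_ok h hp (by rw [← hs.im]; exact him)
    rw [← hs.re, ← hs.im] at k
    exact im_le_of hd k (by positivity) (chL_ok hm)
  · exact (im_nonpos hd him).trans (by positivity)

theorem yN_im {a b : Se} (h : yN a b = true) {u t u' t' : ℝ}
    (hp : Pr a b u t u' t') {s y : ℂ} (hs : SpR false s u t u' t') (hd : Sdat s y) : y.im ≤ 0 := by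
  apply im_nonpos hd
  obtain ⟨r1, r0, t0, t1, r1', r0', t0', t1', ha, hb, ⟨k1, k2, k3, k4⟩, ⟨k1', k2', k3', k4'⟩⟩ := hp.ex
  have e := ble_cast h
  rw [cast_add'] at e
  push_cast at e
  have y1 := ha.o1.y1
  have y2 := hb.i0.y0
  have z1 : u * As t ≤ r0 * As t1 :=
    mul_le_mul k2 (As_mono (ha.t00.trans k3) k4 ha.t11) (As_nonneg (ha.t00.trans k3)) (hs.u0.trans k2)
  have z2 : r1' * As t0' ≤ u' * As t' :=
    mul_le_mul k1' (As_mono hb.t00 k3' (k4'.trans hb.t11)) (As_nonneg hb.t00) hs.u0'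
  rw [hs.im, sgb_false]
  linarith

theorem S_im {s y : ℂ} {u t u' t' : ℝ} (hs : SpR true s u t u' t') (hd : Sdat s y) : 0 ≤ y.im := by
  apply im_nonneg hd
  rw [hs.im, sgb_true, one_mul]
  exact add_nonneg (mul_nonneg hs.u0 (As_nonneg hs.t0)) (mul_nonneg hs.u0' (As_nonneg hs.t0'))

theorem tU_ok {S : Bool} {a b : Se} {e τ : ℕ} (he0 : 300 ≤ e) (he : e ≤ 700) (h : tU S a b e τ = true)
    {u t u' t' : ℝ} (hp : Pr a b u t u' t') {s y : ℂ} (hs : SpR S s u t u' t') (hd : Sdat s y) :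
    y.im ≤ ((e : ℝ) - 500) / 1000 := by
  unfold tU at h
  rcases h5 : Nat.ble e 500 with _ | _
  · rw [h5, cond_false] at h
    have h6 : 500 < e := by
      by_contra hc
      rw [Nat.ble_eq_true_of_le (Nat.le_of_not_lt hc)] at h5
      exact Bool.false_ne_true h5.symm
    have k := tE1_im (by show e - 500 ≤ 200; omega) h hp hs hd
    rw [cast_sub' h6.le] at k
    push_cast at k
    exact k
  · rw [h5, cond_true] at h
    have h6 : e ≤ 500 := Nat.le_of_ble_eq_true h5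
    rw [Bool.and_eq_true, Bool.not_eq_true'] at h
    obtain ⟨hS, h⟩ := h
    subst hS
    rcases h7 : Nat.beq e 500 with _ | _
    · rw [h7, cond_false] at h
      have k := tE0_im (by show 500 - e ≤ 200; omega) h hp.symm hs.conj hd.conj
      rw [Complex.conj_im, cast_sub' h6] at k
      push_cast at k
      linarith
    · rw [h7, cond_true] at h
      have h8 : e = 500 := Nat.eq_of_beq_eq_true h7
      have k := yN_im h hp hs hd
      rw [h8]
      push_cast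
      linarith

theorem tL_ok {S : Bool} {a b : Se} {e τ : ℕ} (he0 : 300 ≤ e) (he : e ≤ 700) (h : tL S a b e τ = true)
    {u t u' t' : ℝ} (hp : Pr a b u t u' t') {s y : ℂ} (hs : SpR S s u t u' t') (hd : Sdat s y) :
    ((e : ℝ) - 500) / 1000 ≤ y.im := by
  unfold tL at h
  rcases h5 : Nat.ble 501 e with _ | _
  · rw [h5, cond_false] at h
    have h6 : e ≤ 500 := by
      by_contra hc
      rw [Nat.ble_eq_true_of_le (by omega : 501 ≤ e)] at h5
      exact Bool.false_ne_true h5.symm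
    have h6' : (e : ℝ) ≤ 500 := by exact_mod_cast h6
    rw [Bool.or_eq_true] at h
    cases S
    · have h := h.resolve_left (by decide)
      rcases h7 : Nat.beq e 500 with _ | _
      · rw [h7, cond_false] at h
        have k := tE1_im (by show 500 - e ≤ 200; omega) h hp.symm hs.conj hd.conj
        rw [Complex.conj_im, cast_sub' h6] at k
        push_cast at k
        linarith
      · rw [h7, cond_true] at h
        have h8 : e = 500 := Nat.eq_of_beq_eq_true h7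
        have k := yN_im h hp.symm hs.conj hd.conj
        rw [Complex.conj_im] at k
        rw [h8]
        push_cast
        linarith
    · have := S_im hs hd
      linarith
  · rw [h5, cond_true] at h
    have h6 : 501 ≤ e := Nat.le_of_ble_eq_true h5
    have k := tE0_im (by show e - 500 ≤ 200; omega) h hp hs hd
    rw [cast_sub' (by omega : 500 ≤ e)] at k
    push_cast at k
    exact k

theorem okR_iff {y : Rc} (h : okR y = true) : y.t0 ≤ 500 ∧ y.t1 ≤ 500 ∧ 300 ≤ y.e0 ∧ y.e0 ≤ 700 ∧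
    300 ≤ y.e1 ∧ y.e1 ≤ 700 := by
  unfold okR at h
  simp only [Bool.and_eq_true] at h
  obtain ⟨h1, h2, h3, h4, h5, h6⟩ := h
  exact ⟨Nat.le_of_ble_eq_true h1, Nat.le_of_ble_eq_true h2, Nat.le_of_ble_eq_true h3,
    Nat.le_of_ble_eq_true h4, Nat.le_of_ble_eq_true h5, Nat.le_of_ble_eq_true h6⟩

theorem rY_ok {S : Bool} {a b : Se} {c : Ct} {Y : Rc} (ho : okR Y = true) (h : rY S a b c Y = true)
    {u t u' t' : ℝ} (hp : Pr a b u t u' t') {s y : ℂ} (hs : SpR S s u t u' t') (hd : Sdat s y) : InY Y y := by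
  obtain ⟨o1, o2, o3, o4, o5, o6⟩ := okR_iff ho
  unfold rY at h
  rw [Bool.and_eq_true, Bool.and_eq_true, Bool.and_eq_true] at h
  obtain ⟨h1, h2, h3, h4⟩ := h
  refine ⟨⟨?_, ?_⟩, tL_ok o3 o4 h4 hp hs hd, tU_ok o5 o6 h3 hp hs hd⟩
  · have td := (tv_d o1).1
    have hdn : (dT Y.t0 : ℝ) ≤ 33554432 := by
      have := Real.cos_le_one (2 * Real.pi * ((Y.t0 : ℝ) / 1000))
      linarith
    have k := tT0_ok (by exact_mod_cast hdn) h2 hp
    rw [← hs.re, ← hs.im] at k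
    refine le_re_of hd k o1 ?_
    rw [sub_le_iff_le_add, div_le_iff₀ (by norm_num)]
    linarith
  · obtain ⟨D, D2, eD, D0, k⟩ := tT1_ok h1 hp
    rw [← hs.re, ← hs.im] at k
    refine re_le_of hd D2 k o2 ?_
    have td := (tv_d o2).2
    rw [cast_add'] at eD
    push_cast at eD
    linarith

/-! ### Cells -/

theorem rc_eq (t : ℝ) : YX.rc t = Ac t := by
  unfold YX.rc Ac
  field_simp
  ring

theorem rs_eq (t : ℝ) : YX.rs t = As t := rfl

/-- The numbers of a vertex. -/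
theorem cell_nums {k : Ce} (ho : okC k = true) {w : ℂ} (h : InC k w) (hw : w ≠ 0) :
    0 < w.re ∧ (Er k.a1 ≤ 1 / (w.re ^ 2 + w.im ^ 2) ∧ 1 / (w.re ^ 2 + w.im ^ 2) ≤ Er k.a0) ∧
      (Tn k.f0 ≤ -w.im / w.re ∧ -w.im / w.re ≤ Tn k.f1) := by
  obtain ⟨h1, h2, h3, h4, h5, h6⟩ := okC_iff ho
  obtain ⟨⟨a0, a1⟩, b0, b1⟩ := h
  have p4 := pi4
  have hpi := Real.pi_pos
  have g1 : (k.f1 : ℝ) ≤ 785 := by exact_mod_cast h5
  have g0 : (0 : ℝ) ≤ k.f0 := Nat.cast_nonneg _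
  have f0 : 0 ≤ (k.f0 : ℝ) / 1000 := by positivity
  have harg : |w.arg| < Real.pi / 2 := by
    rw [abs_lt]
    constructor <;> linarith
  have hre : 0 < w.re := by
    rcases Complex.abs_arg_lt_pi_div_two_iff.1 harg with h | h
    · exact h
    · exact absurd h hw
  have hn : w.re ^ 2 + w.im ^ 2 = Real.exp (2 * Real.log ‖w‖) := by
    have n0 : 0 < ‖w‖ := norm_pos_iff.2 hw
    rw [two_mul, Real.exp_add, Real.exp_log n0, re2]
    ring
  refine ⟨hre, ⟨?_, ?_⟩, ?_, ?_⟩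
  · rw [hn, one_div, ← Real.exp_neg]
    apply Real.exp_le_exp.2
    linarith
  · rw [hn, one_div, ← Real.exp_neg]
    apply Real.exp_le_exp.2
    linarith
  · have e : -w.im / w.re = Real.tan (-w.arg) := by
      rw [Real.tan_neg, Complex.tan_arg]
      ring
    rw [e]
    rcases b0.eq_or_lt with h | h
    · exact (congrArg Real.tan h).le
    · exact (Real.tan_lt_tan_of_nonneg_of_lt_pi_div_two f0 (by linarith) h).le
  · have e : -w.im / w.re = Real.tan (-w.arg) := by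
      rw [Real.tan_neg, Complex.tan_arg]
      ring
    rw [e]
    rcases b1.eq_or_lt with h | h
    · exact (congrArg Real.tan h).le
    · exact (Real.tan_lt_tan_of_nonneg_of_lt_pi_div_two (by linarith) (by linarith) h).le

/-- The points of a slot. -/
theorem slot_pts {S : Bool} {k b : Ce} (hk : okC k = true) (hb : okC b = true) {κ c : ℂ} (h : InC k κ) (h' : InC b c)
    (hκ : κ ≠ 0) (hc : c ≠ 0) : ∃ u t u' t' : ℝ, Pr (sec k) (sec b) u t u' t' ∧
      SpR S (1 / κ ^ 2 + 1 / (G.kp S c) ^ 2) u t u' t' := by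
  obtain ⟨r1, ⟨u1, u0⟩, v1, v0⟩ := cell_nums hk h hκ
  obtain ⟨r1', ⟨u1', u0'⟩, v1', v0'⟩ := cell_nums hb h' hc
  have sk := sec_ok hk
  have sb := sec_ok hb
  refine ⟨_, _, _, _, ⟨⟨_, _, _, _, _, _, _, _, sk, sb, ⟨u1, u0, v1, v0⟩, ⟨u1', u0', v1', v0'⟩⟩⟩, ?_⟩
  refine ⟨?_, ?_, sk.rp.le.trans u1, sb.rp.le.trans u1', sk.t00.trans v1, sb.t00.trans v1'⟩
  · rw [YX.inv_sq_parts r1, YX.kp_inv_sq S r1', Complex.add_re, rc_eq, rc_eq]
  · rw [YX.inv_sq_parts r1, YX.kp_inv_sq S r1', Complex.add_im, rs_eq, rs_eq]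

/-- The rectangle of a slot. -/
theorem regY_sound {S : Bool} {k b : Ce} {ct : Ct} {Y : Rc} (h : regY S k b ct Y = true) {c q z : ℂ}
    (hs : G.Sd S c q z) (hk : InC k (Complex.cos z)) (hb : InC b c) : InY Y (G.sy q z) := by
  unfold regY at h
  rw [Bool.and_eq_true, Bool.and_eq_true, Bool.and_eq_true] at h
  obtain ⟨ok, ob, oy, hr⟩ := h
  obtain ⟨u, t, u', t', hp, hsp⟩ := slot_pts (S := S) ok ob hk hb hs.cz hs.c_ne
  refine rY_ok oy hr hp hsp ⟨hs.slot.sy_re.1, hs.re_lt, ?_⟩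
  rw [hs.tan_eq, hs.tan_sq]

end Pool.Agent.S5.Z4
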