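import Pool.Agent.S5.Z4.RegF

/-!
# Inner nodes with four half twists: the middle angle
-/

set_option autoImplicit false

namespace Pool.Agent.S5.Z4

open Pool.Agent.S3.NI
open Pool.Agent.S5.YX (sgb ble_cast sub_sub_cast)
open Pool.Agent.S5.G (Slot sy zz4 lA lB)

/-! ### The identities -/

theorem sinh_piI (x : ℂ) : Complex.sinh (Real.pi * Complex.I - x) = Complex.sinh x := by
  rw [Complex.sinh_sub, Complex.sinh_mul_I, Complex.cosh_mul_I, Complex.sin_pi, Complex.cos_pi]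
  ring

theorem sinh_pm (a b : ℂ) : Complex.sinh (a - b) + Complex.sinh (a + b) = 2 * Complex.sinh a * Complex.cosh b := by
  rw [Complex.sinh_sub, Complex.sinh_add]
  ring

theorem zz_id {p r z : ℂ} (hp : Slot p z) (hr : Slot r z) (hz : 4 * z = Real.pi + Complex.I * (p + r)) :
    Complex.exp (-(2 * Real.pi * Complex.I * sy p z)) + Complex.exp (2 * Real.pi * Complex.I * zz4 p r z) =
      4 * Complex.cos z ^ 2 - 2 := by
  have h0 : Complex.sinh (p + Complex.I * z) ≠ 0 := by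
    rw [← hp.eA]
    exact Complex.exp_ne_zero _
  have h1 : Complex.sinh (p - Complex.I * z) ≠ 0 := by
    rw [← hp.eB]
    exact Complex.exp_ne_zero _
  have e1 : Complex.exp (-(2 * Real.pi * Complex.I * sy p z)) =
      Complex.sinh (p - Complex.I * z) / Complex.sinh (p + Complex.I * z) := by
    rw [Complex.exp_neg, G.exp_sy hp, inv_div]
  have e2 : Complex.exp (2 * Real.pi * Complex.I * zz4 p r z) =
      Complex.sinh (p + 3 * (Complex.I * z)) / Complex.sinh (p + Complex.I * z) := by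
    rw [G.zz4_mul, Complex.exp_sub, hr.eA, hp.eA]
    congr 1
    rw [← sinh_piI (p + 3 * (Complex.I * z))]
    congr 1
    have hI := Complex.I_sq
    linear_combination Complex.I * hz + (p + r) * hI
  rw [e1, e2, ← add_div, div_eq_iff h0]
  have e3 : Complex.sinh (p - Complex.I * z) + Complex.sinh (p + 3 * (Complex.I * z)) =
      2 * Complex.sinh (p + Complex.I * z) * Complex.cosh (2 * (Complex.I * z)) := by
    have a : p - Complex.I * z = (p + Complex.I * z) - 2 * (Complex.I * z) := by ring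
    have b : p + 3 * (Complex.I * z) = (p + Complex.I * z) + 2 * (Complex.I * z) := by ring
    rw [a, b, sinh_pm]
  have e4 : Complex.cosh (2 * (Complex.I * z)) = 2 * Complex.cos z ^ 2 - 1 := by
    have a : 2 * (Complex.I * z) = (2 * z) * Complex.I := by ring
    rw [a, Complex.cosh_mul_I, Complex.cos_two_mul]
  rw [e3, e4]
  ring

theorem zz4_swap (p r z : ℂ) : zz4 r p z = -zz4 p r z := by
  unfold zz4
  rw [← neg_div]
  congr 1
  ring

/-- The real numbers of a node. -/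
structure Zn (A B c s c' s' X ν : ℝ) : Prop where
  a1 : 2 * (Real.cos (2 * Real.pi * X) * Real.sinh (2 * Real.pi * ν)) = c - c'
  a2 : 2 * (Real.sin (2 * Real.pi * X) * Real.cosh (2 * Real.pi * ν)) = s - s'
  a3 : 2 * (Real.cos (2 * Real.pi * X) * Real.cosh (2 * Real.pi * ν)) = 8 * A - 4 - c - c'
  a4 : 2 * (Real.sin (2 * Real.pi * X) * Real.sinh (2 * Real.pi * ν)) = 8 * B - s - s'

theorem exp_parts (y : ℂ) : Complex.exp (-(2 * Real.pi * Complex.I * y)) =
    ⟨Real.exp (2 * Real.pi * y.im) * Real.cos (2 * Real.pi * y.re),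
      -(Real.exp (2 * Real.pi * y.im) * Real.sin (2 * Real.pi * y.re))⟩ := by
  have e : -(2 * Real.pi * Complex.I * y) =
      ((2 * Real.pi * y.im : ℝ) : ℂ) + ((-(2 * Real.pi * y.re) : ℝ) : ℂ) * Complex.I := by
    apply Complex.ext <;> simp
  rw [e, Complex.exp_add, ← Complex.ofReal_exp]
  apply Complex.ext
  · rw [Complex.re_ofReal_mul, Complex.exp_ofReal_mul_I_re, Real.cos_neg]
  · rw [Complex.im_ofReal_mul, Complex.exp_ofReal_mul_I_im, Real.sin_neg]
    ring

theorem exp_parts' (y : ℂ) : Complex.exp (2 * Real.pi * Complex.I * y) =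
    ⟨Real.exp (-(2 * Real.pi * y.im)) * Real.cos (2 * Real.pi * y.re),
      Real.exp (-(2 * Real.pi * y.im)) * Real.sin (2 * Real.pi * y.re)⟩ := by
  have h := exp_parts (-y)
  have e : -(2 * Real.pi * Complex.I * -y) = 2 * Real.pi * Complex.I * y := by ring
  rw [e] at h
  rw [h, Complex.neg_re, Complex.neg_im]
  apply Complex.ext
  · simp only [mul_neg, Real.cos_neg]
  · simp only [mul_neg, Real.sin_neg, neg_neg]

theorem zn_of {p r z : ℂ} (hp : Slot p z) (hr : Slot r z) (hz : 4 * z = Real.pi + Complex.I * (p + r)) :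
    Zn (Complex.cos z ^ 2).re (-(Complex.cos z ^ 2).im)
      (Real.exp (2 * Real.pi * (sy p z).im) * Real.cos (2 * Real.pi * (sy p z).re))
      (Real.exp (2 * Real.pi * (sy p z).im) * Real.sin (2 * Real.pi * (sy p z).re))
      (Real.exp (2 * Real.pi * (sy r z).im) * Real.cos (2 * Real.pi * (sy r z).re))
      (Real.exp (2 * Real.pi * (sy r z).im) * Real.sin (2 * Real.pi * (sy r z).re))
      (zz4 p r z).re (zz4 p r z).im := by
  have k1 := zz_id hp hr hz
  have k2 := zz_id hr hp (by rw [add_comm r p]; exact hz)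
  rw [zz4_swap, mul_neg] at k2
  rw [exp_parts, exp_parts'] at k1
  rw [exp_parts, exp_parts] at k2
  set w := Complex.cos z ^ 2 with hw
  have r1 := congrArg Complex.re k1
  have i1 := congrArg Complex.im k1
  have r2 := congrArg Complex.re k2
  have i2 := congrArg Complex.im k2
  simp only [Complex.add_re, Complex.add_im, Complex.sub_re, Complex.sub_im, Complex.mul_re, Complex.mul_im,
    Complex.re_ofNat, Complex.im_ofNat, zero_mul, sub_zero, add_zero] at r1 i1 r2 i2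
  constructor
  · rw [Real.sinh_eq]
    linear_combination r2 - r1
  · rw [Real.cosh_eq]
    linear_combination i1 - i2
  · rw [Real.cosh_eq]
    linear_combination r1 + r2
  · rw [Real.sinh_eq]
    linear_combination (-1 : ℝ) * i1 - i2

/-! ### Bounds for the exponentials -/

theorem tg_lt (T w n : ℕ) : tg T w n < 2 ^ w := Nat.mod_lt _ (Nat.two_pow_pos w)

theorem eT_lt (n : ℕ) : ((eT n : ℕ) : ℝ) + 6 ≤ 4 * 16777216 + 6 := by
  have h2 : ((eT n : ℕ) : ℝ) < (((2 ^ 26 : ℕ)) : ℝ) := Nat.cast_lt.2 (tg_lt _ _ _)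
  generalize ((eT n : ℕ) : ℝ) = x at h2 ⊢
  norm_num at h2
  linarith

/-- Data of a slot. -/
structure Yb (E0 E1 D0 D1 : ℕ) (e c : ℝ) : Prop where
  e0 : (E0 : ℝ) ≤ e * 16777216
  e1 : e * 16777216 ≤ (E1 : ℝ) + 6
  d1 : (D1 : ℝ) ≤ (1 + c) * 16777216
  d0 : (1 + c) * 16777216 ≤ (D0 : ℝ)

theorem le_cast_of {a b : ℕ} (h : Nat.ble a b = false) : (b : ℝ) < a := by
  apply Nat.cast_lt.2
  by_contra hc
  rw [Nat.ble_eq_true_of_le (Nat.le_of_not_lt hc)] at h
  exact Bool.false_ne_true h.symm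

theorem cl_ok {E0 E1 D0 D1 : ℕ} {e c : ℝ} (h : Yb E0 E1 D0 D1 e c) (hE : (E1 : ℝ) + 6 ≤ 4 * 16777216 + 6) :
    ((cl E0 E1 D1 : ℕ) : ℝ) ≤ 4503599627370496 + e * c * 281474976710656 := by
  have E00 : (0 : ℝ) ≤ E0 := Nat.cast_nonneg _
  have E10 : (0 : ℝ) ≤ E1 := Nat.cast_nonneg _
  have e0 : 0 ≤ e := by
    by_contra hc
    push Not at hc
    linarith [h.e0]
  unfold cl
  rcases hb : Nat.ble 16777216 D1 with _ | _
  · rw [cond_false]
    have hb' := le_cast_of hb
    rw [cU] at hb'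
    have hle : D1 ≤ 16777216 := by
      have : (D1 : ℝ) ≤ ((16777216 : ℕ) : ℝ) := by rw [cU]; exact hb'.le
      exact Nat.cast_le.1 this
    have D10 : (0 : ℝ) ≤ D1 := Nat.cast_nonneg _
    have hu : 0 ≤ 4503599627370496 + e * c * 281474976710656 := by
      have c1 : -1 ≤ c := by linarith [h.d1]
      nlinarith [h.e1, mul_le_mul_of_nonneg_left c1 e0]
    apply nsub_le _ hu
    rw [cast_mul', cast_add', cast_sub' hle, cU]
    push_cast
    -- `e c ≥ - (E1 + 6) (U - D1)`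
    have k1 : (D1 : ℝ) - 16777216 ≤ c * 16777216 := by linarith [h.d1]
    have k2 : ((E1 : ℝ) + 6) * ((D1 : ℝ) - 16777216) ≤ (e * 16777216) * ((D1 : ℝ) - 16777216) := by
      nlinarith [h.e1]
    have k3 : (e * 16777216) * ((D1 : ℝ) - 16777216) ≤ (e * 16777216) * (c * 16777216) :=
      mul_le_mul_of_nonneg_left k1 (by positivity)
    nlinarith
  · rw [cond_true]
    have hle : 16777216 ≤ D1 := Nat.le_of_ble_eq_true hb
    have hb' : (16777216 : ℝ) ≤ D1 := by
      rw [← cU]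
      exact Nat.cast_le.2 hle
    rw [cast_add', cast_mul', cast_sub' hle, cU]
    push_cast
    have k1 : (D1 : ℝ) - 16777216 ≤ c * 16777216 := by linarith [h.d1]
    have k2 : (E0 : ℝ) * ((D1 : ℝ) - 16777216) ≤ (e * 16777216) * (c * 16777216) :=
      mul_le_mul h.e0 k1 (by linarith) (by positivity)
    linarith

theorem cu_ok {E0 E1 D0 D1 : ℕ} {e c : ℝ} (h : Yb E0 E1 D0 D1 e c) :
    4503599627370496 + e * c * 281474976710656 ≤ ((cu E0 E1 D0 : ℕ) : ℝ) := by
  have E00 : (0 : ℝ) ≤ E0 := Nat.cast_nonneg _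
  have E10 : (0 : ℝ) ≤ E1 := Nat.cast_nonneg _
  have e0 : 0 ≤ e := by
    by_contra hc
    push Not at hc
    linarith [h.e0]
  unfold cu
  rcases hb : Nat.ble 16777216 D0 with _ | _
  · rw [cond_false]
    have hb' := le_cast_of hb
    rw [cU] at hb'
    have hle : D0 ≤ 16777216 := by
      have : (D0 : ℝ) ≤ ((16777216 : ℕ) : ℝ) := by rw [cU]; exact hb'.le
      exact Nat.cast_le.1 this
    apply le_nsub
    rw [cast_mul', cast_sub' hle, cU]
    push_cast
    have k1 : c * 16777216 ≤ (D0 : ℝ) - 16777216 := by linarith [h.d0]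
    have k2 : (e * 16777216) * (c * 16777216) ≤ (e * 16777216) * ((D0 : ℝ) - 16777216) :=
      mul_le_mul_of_nonneg_left k1 (by positivity)
    have k3 : (e * 16777216) * ((D0 : ℝ) - 16777216) ≤ (E0 : ℝ) * ((D0 : ℝ) - 16777216) := by
      nlinarith [h.e0]
    nlinarith
  · rw [cond_true]
    have hle : 16777216 ≤ D0 := Nat.le_of_ble_eq_true hb
    have hb' : (16777216 : ℝ) ≤ D0 := by
      rw [← cU]
      exact Nat.cast_le.2 hle
    rw [cast_add', cast_mul', cast_add', cast_sub' hle, cU]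
    push_cast
    have k1 : c * 16777216 ≤ (D0 : ℝ) - 16777216 := by linarith [h.d0]
    have k2 : (e * 16777216) * (c * 16777216) ≤ (e * 16777216) * ((D0 : ℝ) - 16777216) :=
      mul_le_mul_of_nonneg_left k1 (by positivity)
    have k3 : (e * 16777216) * ((D0 : ℝ) - 16777216) ≤ ((E1 : ℝ) + 6) * ((D0 : ℝ) - 16777216) :=
      mul_le_mul_of_nonneg_right h.e1 (by linarith)
    nlinarith

/-- The smallest and the largest distance. -/
theorem dmi_ok {c p q : ℕ} {x : ℝ} (hpq : p ≤ q) (h0 : (p : ℝ) ≤ x) (h1 : x ≤ q) : ((dmi c p q : ℕ) : ℝ) ≤ |x - c| := by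
  unfold dmi
  rw [cast_add']
  rcases le_total c p with h | h
  · have e : Nat.sub c q = 0 := Nat.sub_eq_zero_of_le (h.trans hpq)
    rw [e, cast_sub' h]
    push_cast
    have := le_abs_self (x - c)
    linarith
  · have e : Nat.sub p c = 0 := Nat.sub_eq_zero_of_le h
    rw [e]
    push_cast
    have h3 := neg_abs_le (x - c)
    have : ((Nat.sub c q : ℕ) : ℝ) ≤ |x - c| := nsub_le (by linarith) (abs_nonneg _)
    linarith

theorem dma_ok {c p q : ℕ} {x : ℝ} (h0 : (p : ℝ) ≤ x) (h1 : x ≤ q) : |x - c| ≤ ((dma c p q : ℕ) : ℝ) := by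
  have l1 : x - c ≤ ((Nat.sub q c : ℕ) : ℝ) := le_nsub (by linarith)
  have l2 : (c : ℝ) - x ≤ ((Nat.sub c p : ℕ) : ℝ) := le_nsub (by linarith)
  unfold dma
  rw [abs_le]
  rcases h : Nat.ble (Nat.sub q c) (Nat.sub c p) with _ | _
  · rw [cond_false]
    have := le_cast_of h
    constructor <;> linarith
  · rw [cond_true]
    have := ble_cast h
    constructor <;> linarith

theorem cos_abs_mono {x a : ℝ} (h0 : 0 ≤ a) (h : a ≤ |x|) (h1 : |x| ≤ 1 / 2) :
    Real.cos (2 * Real.pi * x) ≤ Real.cos (2 * Real.pi * a) := by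
  have hpi := Real.pi_pos
  rw [← Real.cos_abs (2 * Real.pi * x), abs_mul, abs_of_pos (by positivity : 0 < 2 * Real.pi)]
  apply Real.cos_le_cos_of_nonneg_of_le_pi (by positivity) (by nlinarith)
  exact mul_le_mul_of_nonneg_left h (by positivity)

theorem cos_abs_mono' {x a : ℝ} (h : |x| ≤ a) (h1 : a ≤ 1 / 2) :
    Real.cos (2 * Real.pi * a) ≤ Real.cos (2 * Real.pi * x) := by
  have hpi := Real.pi_pos
  rw [← Real.cos_abs (2 * Real.pi * x), abs_mul, abs_of_pos (by positivity : 0 < 2 * Real.pi)]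
  apply Real.cos_le_cos_of_nonneg_of_le_pi (by positivity) (by nlinarith)
  exact mul_le_mul_of_nonneg_left h (by positivity)

/-- Bounds for the exponential of a slot. -/
structure Eb (y : Rc) (c s : ℝ) : Prop where
  cl : ((rcl y : ℕ) : ℝ) ≤ 4503599627370496 + c * 281474976710656
  cu : 4503599627370496 + c * 281474976710656 ≤ ((rcu y : ℕ) : ℝ)
  sl : ((rsl y : ℕ) : ℝ) ≤ s * 281474976710656
  su : s * 281474976710656 ≤ ((rsu y : ℕ) : ℝ)

theorem okY_iff {y : Rc} (h : okY y = true) : okR y = true ∧ y.t0 ≤ y.t1 ∧ y.e0 ≤ y.e1 := by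
  unfold okY at h
  rw [Bool.and_eq_true, Bool.and_eq_true] at h
  exact ⟨h.1, Nat.le_of_ble_eq_true h.2.1, Nat.le_of_ble_eq_true h.2.2⟩

theorem eb_of {Y : Rc} (ho : okY Y = true) {y : ℂ} (h : InY Y y) :
    Eb Y (Real.exp (2 * Real.pi * y.im) * Real.cos (2 * Real.pi * y.re))
      (Real.exp (2 * Real.pi * y.im) * Real.sin (2 * Real.pi * y.re)) := by
  obtain ⟨o, ot, oe⟩ := okY_iff ho
  obtain ⟨o1, o2, o3, o4, o5, o6⟩ := okR_iff o
  obtain ⟨⟨t0, t1⟩, e0, e1⟩ := h
  have hpi := Real.pi_pos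
  have g0 : (0 : ℝ) ≤ Y.t0 := Nat.cast_nonneg _
  have g1 : (Y.t1 : ℝ) ≤ 500 := by exact_mod_cast o2
  set e := Real.exp (2 * Real.pi * y.im) with he
  have ep : 0 < e := Real.exp_pos _
  have E0 : ((eT Y.e0 : ℕ) : ℝ) ≤ e * 16777216 := by
    refine (tv_e o3 o4).1.trans (mul_le_mul_of_nonneg_right (Real.exp_le_exp.2 ?_) (by norm_num))
    exact mul_le_mul_of_nonneg_left e0 (by positivity)
  have E1 : e * 16777216 ≤ ((eT Y.e1 : ℕ) : ℝ) + 6 := by
    refine le_trans (mul_le_mul_of_nonneg_right (Real.exp_le_exp.2 ?_) (by norm_num)) (tv_e o5 o6).2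
    exact mul_le_mul_of_nonneg_left e1 (by positivity)
  have c0 : Real.cos (2 * Real.pi * y.re) ≤ Real.cos (2 * Real.pi * ((Y.t0 : ℝ) / 1000)) :=
    Real.cos_le_cos_of_nonneg_of_le_pi (by positivity) (by nlinarith) (mul_le_mul_of_nonneg_left t0 (by positivity))
  have c1 : Real.cos (2 * Real.pi * ((Y.t1 : ℝ) / 1000)) ≤ Real.cos (2 * Real.pi * y.re) :=
    Real.cos_le_cos_of_nonneg_of_le_pi (by
      have : 0 ≤ y.re := le_trans (by positivity) t0
      positivity) (by nlinarith) (mul_le_mul_of_nonneg_left t1 (by positivity))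
  have hY : Yb (eT Y.e0) (eT Y.e1) (Nat.add (dT Y.t0) 6) (dT Y.t1) e (Real.cos (2 * Real.pi * y.re)) := by
    refine ⟨E0, E1, ?_, ?_⟩
    · exact (tv_d o2).1.trans (by linarith)
    · rw [cast_add']
      push_cast
      have := (tv_d o1).2
      linarith
  -- the sine
  have sc : Real.sin (2 * Real.pi * y.re) = Real.cos (2 * Real.pi * (y.re - 1 / 4)) := by
    rw [← Real.cos_sub_pi_div_two]
    congr 1
    ring
  have y0 : 0 ≤ y.re := le_trans (by positivity) t0
  have y1 : y.re ≤ 1 / 2 := by linarith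
  have s0 : 0 ≤ Real.sin (2 * Real.pi * y.re) := Real.sin_nonneg_of_nonneg_of_le_pi (by positivity) (by nlinarith)
  have q0 : (Y.t0 : ℝ) ≤ y.re * 1000 := by linarith
  have q1 : y.re * 1000 ≤ (Y.t1 : ℝ) := by linarith
  have m0 := dmi_ok (c := 250) ot q0 q1
  have m1 := dma_ok (c := 250) q0 q1
  have ab : |y.re * 1000 - ((250 : ℕ) : ℝ)| = |y.re - 1 / 4| * 1000 := by
    rw [show y.re * 1000 - ((250 : ℕ) : ℝ) = (y.re - 1 / 4) * 1000 by push_cast; ring, abs_mul]
    norm_num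
  rw [ab] at m0 m1
  have a4 : |y.re - 1 / 4| ≤ 1 / 4 := by
    rw [abs_le]
    constructor <;> linarith
  have hma : dma 250 Y.t0 Y.t1 ≤ 250 := by
    unfold dma
    rcases Nat.ble (Nat.sub Y.t1 250) (Nat.sub 250 Y.t0) with _ | _
    · show Y.t1 - 250 ≤ 250
      omega
    · show 250 - Y.t0 ≤ 250
      omega
  have hmi : dmi 250 Y.t0 Y.t1 ≤ 250 := by
    have : ((dmi 250 Y.t0 Y.t1 : ℕ) : ℝ) ≤ ((250 : ℕ) : ℝ) := by
      push_cast
      linarith
    exact Nat.cast_le.1 this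
  have hma' : ((dma 250 Y.t0 Y.t1 : ℕ) : ℝ) ≤ 250 := by exact_mod_cast hma
  have v1 := (tv_d (by omega : dma 250 Y.t0 Y.t1 ≤ 500)).1
  have v0 := (tv_d (by omega : dmi 250 Y.t0 Y.t1 ≤ 500)).2
  have w1 : Real.cos (2 * Real.pi * (((dma 250 Y.t0 Y.t1 : ℕ) : ℝ) / 1000)) ≤ Real.sin (2 * Real.pi * y.re) := by
    rw [sc]
    exact cos_abs_mono' (by linarith) (by linarith)
  have w0 : Real.sin (2 * Real.pi * y.re) ≤ Real.cos (2 * Real.pi * (((dmi 250 Y.t0 Y.t1 : ℕ) : ℝ) / 1000)) := by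
    rw [sc]
    exact cos_abs_mono (div_nonneg (Nat.cast_nonneg _) (by norm_num)) (by linarith) (by linarith)
  refine ⟨cl_ok hY (eT_lt _), cu_ok hY, ?_, ?_⟩
  · unfold rsl
    rw [cast_mul']
    have k : ((Nat.sub (dT (dma 250 Y.t0 Y.t1)) 16777216 : ℕ) : ℝ) ≤ Real.sin (2 * Real.pi * y.re) * 16777216 := by
      apply nsub_le _ (by positivity)
      rw [cU]
      linarith
    have := mul_le_mul E0 k (Nat.cast_nonneg _) (by positivity)
    linarith
  · unfold rsu
    rw [cast_mul', cast_add']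
    have k : Real.sin (2 * Real.pi * y.re) * 16777216 ≤ ((Nat.sub (Nat.add (dT (dmi 250 Y.t0 Y.t1)) 6) 16777216 : ℕ) : ℝ) := by
      apply le_nsub
      rw [cU, cast_add']
      push_cast
      linarith
    have E1' : e * 16777216 ≤ ((eT Y.e1 : ℕ) : ℝ) + ((6 : ℕ) : ℝ) := by
      push_cast
      exact E1
    have := mul_le_mul E1' k (mul_nonneg s0 (by norm_num)) (add_nonneg (Nat.cast_nonneg _) (Nat.cast_nonneg _))
    linarith

/-! ### The imaginary part -/

theorem sh_sub {m : ℕ} (hm : m ≤ 200) :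
    (((eT (Nat.add 500 m) : ℕ) : ℝ) - (((eT (Nat.sub 500 m) : ℕ) : ℝ) + 6) ≤ 2 * (Real.sinh (2 * Real.pi * (m / 1000)) * 16777216)) ∧
    2 * (Real.sinh (2 * Real.pi * (m / 1000)) * 16777216) ≤
      ((eT (Nat.add 500 m) : ℕ) : ℝ) + 6 - ((eT (Nat.sub 500 m) : ℕ) : ℝ) := by
  have h1 : Tv (Real.exp (2 * Real.pi * (m / 1000))) (eT (Nat.add 500 m)) := by
    have := tv_e (n := Nat.add 500 m) (by show 300 ≤ 500 + m; omega) (by show 500 + m ≤ 700; omega)
    rw [cast_add'] at this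
    have e : (((500 : ℕ) : ℝ) + m - 500) / 1000 = (m : ℝ) / 1000 := by push_cast; ring
    rwa [e] at this
  have h2 : Tv (Real.exp (-(2 * Real.pi * (m / 1000)))) (eT (Nat.sub 500 m)) := by
    have := tv_e (n := Nat.sub 500 m) (by show 300 ≤ 500 - m; omega) (by show 500 - m ≤ 700; omega)
    rw [cast_sub' (by omega : m ≤ 500)] at this
    have e : 2 * Real.pi * ((((500 : ℕ) : ℝ) - m - 500) / 1000) = -(2 * Real.pi * ((m : ℝ) / 1000)) := by
      push_cast
      ring
    rwa [e] at this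
  have e : 2 * (Real.sinh (2 * Real.pi * (m / 1000)) * 16777216) =
      Real.exp (2 * Real.pi * (m / 1000)) * 16777216 - Real.exp (-(2 * Real.pi * (m / 1000))) * 16777216 := by
    rw [Real.sinh_eq]
    ring
  rw [e]
  exact ⟨by linarith [h1.1, h2.2], by linarith [h1.2, h2.1]⟩

theorem sinh_nn {m : ℕ} : 0 ≤ Real.sinh (2 * Real.pi * ((m : ℝ) / 1000)) := by
  have hpi := Real.pi_pos
  exact Real.sinh_nonneg_iff.2 (by positivity)

theorem shL_ok {m : ℕ} (hm : m ≤ 200) : ((shL m : ℕ) : ℝ) ≤ Real.sinh (2 * Real.pi * (m / 1000)) * 16777216 := by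
  have h := (sh_sub hm).1
  have h0 := sinh_nn (m := m)
  unfold shL
  refine (nat_div_le _ 2).trans ?_
  have : ((Nat.sub (eT (Nat.add 500 m)) (Nat.add (eT (Nat.sub 500 m)) 6) : ℕ) : ℝ) ≤
      2 * (Real.sinh (2 * Real.pi * (m / 1000)) * 16777216) := by
    apply nsub_le _ (by positivity)
    rw [cast_add']
    push_cast
    exact h
  push_cast
  linarith

theorem shU_ok {m : ℕ} (hm : m ≤ 200) : Real.sinh (2 * Real.pi * (m / 1000)) * 16777216 ≤ ((shU m : ℕ) : ℝ) := by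
  have h := (sh_sub hm).2
  unfold shU
  refine le_trans ?_ (le_succ_div _ (by norm_num : 0 < 2))
  have : 2 * (Real.sinh (2 * Real.pi * (m / 1000)) * 16777216) ≤
      ((Nat.sub (Nat.add (eT (Nat.add 500 m)) 6) (eT (Nat.sub 500 m)) : ℕ) : ℝ) := by
    apply le_nsub
    rw [cast_add']
    push_cast
    exact h
  push_cast
  linarith

/-- The polynomial of `σ` and `sinh`. -/
theorem uv_id {C S σ h k : ℝ} (h1 : C ^ 2 + S ^ 2 = 1) (h2 : k ^ 2 = h ^ 2 + 1) :
    (2 * (C * h)) ^ 2 * (1 + σ ^ 2) + (2 * (S * k)) ^ 2 * σ ^ 2 - 4 * (σ ^ 2 * (1 + σ ^ 2)) =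
      4 * ((C ^ 2 + σ ^ 2) * (h ^ 2 - σ ^ 2)) := by
  have e1 : (2 * (S * k)) ^ 2 = 4 * (S ^ 2 * (h ^ 2 + 1)) := by
    rw [mul_pow, mul_pow, h2]
    ring
  have e2 : S ^ 2 = 1 - C ^ 2 := by linarith
  rw [e1, e2]
  ring

theorem nL_ok {C S h k : ℝ} {u v s : ℕ} (hC : 0 < C) (h1 : C ^ 2 + S ^ 2 = 1) (h2 : k ^ 2 = h ^ 2 + 1) (hh : 0 ≤ h)
    (hu : 2 * (C * h) * 281474976710656 ≤ u) (hv : |2 * (S * k)| * 281474976710656 ≤ v)
    (ht : nL u v (sqn s) = true) : h * 16777216 ≤ s := by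
  unfold nL at ht
  have e := ble_cast ht
  simp only [cast_add', cast_mul', sqn_cast] at e
  push_cast at e
  clear ht
  set σ : ℝ := (s : ℝ) / 16777216 with hσ
  have hs : (s : ℝ) = σ * 16777216 := by rw [hσ]; field_simp
  have hs0 : (0 : ℝ) ≤ s := Nat.cast_nonneg _
  have σ0 : 0 ≤ σ := by positivity
  rw [hs] at e ⊢
  have a1 : (2 * (C * h)) ^ 2 * 79228162514264337593543950336 ≤ (u : ℝ) ^ 2 := by
    have := pow_le_pow_left₀ (by positivity) hu 2
    calc (2 * (C * h)) ^ 2 * 79228162514264337593543950336 = (2 * (C * h) * 281474976710656) ^ 2 := by ring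
      _ ≤ _ := this
  have a2 : (2 * (S * k)) ^ 2 * 79228162514264337593543950336 ≤ (v : ℝ) ^ 2 := by
    have := pow_le_pow_left₀ (by positivity) hv 2
    calc (2 * (S * k)) ^ 2 * 79228162514264337593543950336 = (|2 * (S * k)| * 281474976710656) ^ 2 := by
          rw [← sq_abs (2 * (S * k))]; ring
      _ ≤ _ := this
  have key := uv_id (σ := σ) h1 h2
  have m1 := mul_le_mul_of_nonneg_right a1 (by positivity : 0 ≤ 281474976710656 * (1 + σ ^ 2))
  have m2 := mul_le_mul_of_nonneg_right a2 (by positivity : 0 ≤ 281474976710656 * σ ^ 2)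
  have m3 : (C ^ 2 + σ ^ 2) * (h ^ 2 - σ ^ 2) ≤ 0 := by
    have : ((2 * (C * h)) ^ 2 * (1 + σ ^ 2) + (2 * (S * k)) ^ 2 * σ ^ 2 - 4 * (σ ^ 2 * (1 + σ ^ 2))) *
        (79228162514264337593543950336 * 281474976710656) ≤ 0 := by
      nlinarith
    rw [key] at this
    nlinarith
  have m4 : h ^ 2 ≤ σ ^ 2 := by
    by_contra hc
    push Not at hc
    have : 0 < (C ^ 2 + σ ^ 2) * (h ^ 2 - σ ^ 2) := mul_pos (by positivity) (by linarith)
    linarith
  have := abs_le_of_sq_le_sq' m4 σ0 |>.2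
  linarith

theorem nG_ok {C S h k : ℝ} {u v s : ℕ} (hC : 0 < C) (h1 : C ^ 2 + S ^ 2 = 1) (h2 : k ^ 2 = h ^ 2 + 1) (hh : 0 ≤ h)
    (hu : (u : ℝ) ≤ 2 * (C * h) * 281474976710656) (hv : (v : ℝ) ≤ |2 * (S * k)| * 281474976710656)
    (ht : nG u v (sqn s) = true) : (s : ℝ) ≤ h * 16777216 := by
  unfold nG at ht
  rw [Bool.and_eq_true] at ht
  have e := ble_cast ht.2
  simp only [cast_add', cast_mul', sqn_cast] at e
  push_cast at e
  clear ht
  set σ : ℝ := (s : ℝ) / 16777216 with hσ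
  have hs : (s : ℝ) = σ * 16777216 := by rw [hσ]; field_simp
  have hs0 : (0 : ℝ) ≤ s := Nat.cast_nonneg _
  have σ0 : 0 ≤ σ := by positivity
  rw [hs] at e ⊢
  have a1 : (u : ℝ) ^ 2 ≤ (2 * (C * h)) ^ 2 * 79228162514264337593543950336 := by
    have := pow_le_pow_left₀ (Nat.cast_nonneg _) hu 2
    calc (u : ℝ) ^ 2 ≤ _ := this
      _ = _ := by ring
  have a2 : (v : ℝ) ^ 2 ≤ (2 * (S * k)) ^ 2 * 79228162514264337593543950336 := by
    have := pow_le_pow_left₀ (Nat.cast_nonneg _) hv 2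
    calc (v : ℝ) ^ 2 ≤ _ := this
      _ = _ := by rw [← sq_abs (2 * (S * k))]; ring
  have key := uv_id (σ := σ) h1 h2
  have m1 := mul_le_mul_of_nonneg_right a1 (by positivity : 0 ≤ 281474976710656 * (1 + σ ^ 2))
  have m2 := mul_le_mul_of_nonneg_right a2 (by positivity : 0 ≤ 281474976710656 * σ ^ 2)
  have m3 : 0 ≤ (C ^ 2 + σ ^ 2) * (h ^ 2 - σ ^ 2) := by
    have : 0 ≤ ((2 * (C * h)) ^ 2 * (1 + σ ^ 2) + (2 * (S * k)) ^ 2 * σ ^ 2 - 4 * (σ ^ 2 * (1 + σ ^ 2))) *
        (79228162514264337593543950336 * 281474976710656) := by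
      nlinarith
    rw [key] at this
    nlinarith
  have m4 : σ ^ 2 ≤ h ^ 2 := by
    by_contra hc
    push Not at hc
    have : (C ^ 2 + σ ^ 2) * (h ^ 2 - σ ^ 2) < 0 := mul_neg_of_pos_of_neg (by positivity) (by linarith)
    linarith
  have := abs_le_of_sq_le_sq' m4 hh |>.2
  linarith

theorem nU_ok {C S ν : ℝ} {p q vh vl n : ℕ} (hC : 0 < C) (h1 : C ^ 2 + S ^ 2 = 1)
    (hp : 2 * (C * Real.sinh (2 * Real.pi * ν)) * 281474976710656 ≤ (p : ℝ) - q)
    (hvh : |2 * (S * Real.cosh (2 * Real.pi * ν))| * 281474976710656 ≤ vh)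
    (hvl : (vl : ℝ) ≤ |2 * (S * Real.cosh (2 * Real.pi * ν))| * 281474976710656)
    (hn0 : 300 ≤ n) (hn1 : n ≤ 700) (h : nU p q vh vl n = true) : ν ≤ ((n : ℝ) - 500) / 1000 := by
  have hpi := Real.pi_pos
  have h2 := Real.cosh_sq (2 * Real.pi * ν)
  unfold nU at h
  rcases hb : Nat.ble 500 n with _ | _
  · rw [hb, cond_false] at h
    have hn : n < 500 := by
      by_contra hc
      rw [Nat.ble_eq_true_of_le (Nat.le_of_not_lt hc)] at hb
      exact Bool.false_ne_true hb.symm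
    have hg := h
    unfold nG at hg
    rw [Bool.and_eq_true] at hg
    have hu1 : 1 ≤ Nat.sub q p := Nat.le_of_ble_eq_true hg.1
    have hqp : p ≤ q := by
      by_contra hc
      have : Nat.sub q p = 0 := Nat.sub_eq_zero_of_le (Nat.le_of_not_le hc)
      omega
    have hu2 : (1 : ℝ) ≤ ((Nat.sub q p : ℕ) : ℝ) := by exact_mod_cast hu1
    rw [cast_sub' hqp] at hu2
    -- `sinh < 0`
    have hneg : Real.sinh (2 * Real.pi * ν) < 0 := by
      by_contra hc
      push Not at hc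
      have : 0 ≤ 2 * (C * Real.sinh (2 * Real.pi * ν)) * 281474976710656 := by positivity
      linarith
    have k := nG_ok (h := -Real.sinh (2 * Real.pi * ν)) (k := Real.cosh (2 * Real.pi * ν)) hC h1 (by rw [neg_sq]; exact h2)
      (by linarith) (by rw [cast_sub' hqp]; linarith) hvl h
    have hm : Nat.sub 500 n ≤ 200 := by show 500 - n ≤ 200; omega
    have k2 := (shU_ok hm).trans k
    have k3 : Real.sinh (2 * Real.pi * (((Nat.sub 500 n : ℕ) : ℝ) / 1000)) ≤ Real.sinh (-(2 * Real.pi * ν)) := by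
      rw [Real.sinh_neg]
      exact le_of_mul_le_mul_right k2 (by norm_num)
    have k4 := Real.sinh_le_sinh.1 k3
    rw [cast_sub' hn.le] at k4
    push_cast at k4
    have k5 : 2 * Real.pi * ν ≤ 2 * Real.pi * (((n : ℝ) - 500) / 1000) := by linarith
    exact le_of_mul_le_mul_left k5 (by positivity)
  · rw [hb, cond_true] at h
    have hn : 500 ≤ n := Nat.le_of_ble_eq_true hb
    have hn' : (500 : ℝ) ≤ n := by exact_mod_cast hn
    rw [Bool.or_eq_true] at h
    have neg_case : Real.sinh (2 * Real.pi * ν) ≤ 0 → ν ≤ ((n : ℝ) - 500) / 1000 := by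
      intro hs
      have : 2 * Real.pi * ν ≤ 0 := Real.sinh_nonpos_iff.1 hs
      have : ν ≤ 0 := by
        by_contra hc
        push Not at hc
        have : 0 < 2 * Real.pi * ν := by positivity
        linarith
      have : 0 ≤ ((n : ℝ) - 500) / 1000 := div_nonneg (by linarith) (by norm_num)
      linarith
    rcases h with h | h
    · have hpq := ble_cast h
      apply neg_case
      by_contra hc
      push Not at hc
      have : 0 < 2 * (C * Real.sinh (2 * Real.pi * ν)) * 281474976710656 := by positivity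
      linarith
    · rcases le_total (Real.sinh (2 * Real.pi * ν)) 0 with hs | hs
      · exact neg_case hs
      · have k := nL_ok (h := Real.sinh (2 * Real.pi * ν)) (k := Real.cosh (2 * Real.pi * ν)) hC h1 h2 hs
          (hp.trans (le_nsub le_rfl)) hvh h
        have hm : Nat.sub n 500 ≤ 200 := by show n - 500 ≤ 200; omega
        have k2 := k.trans (shL_ok hm)
        have k3 := le_of_mul_le_mul_right k2 (by norm_num)
        have k4 := Real.sinh_le_sinh.1 k3
        rw [cast_sub' hn] at k4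
        push_cast at k4
        exact le_of_mul_le_mul_left k4 (by positivity)

/-! ### The real part -/

theorem sin_eq_cos {m : ℕ} (hm : m ≤ 250) : Real.sin (2 * Real.pi * ((m : ℝ) / 1000)) =
    Real.cos (2 * Real.pi * (((Nat.sub 250 m : ℕ) : ℝ) / 1000)) := by
  rw [cast_sub' hm, ← Real.cos_pi_div_two_sub]
  congr 1
  push_cast
  ring

theorem sin_nn {m : ℕ} (hm : m ≤ 250) : 0 ≤ Real.sin (2 * Real.pi * ((m : ℝ) / 1000)) := by
  have hpi := Real.pi_pos
  have : (m : ℝ) ≤ 250 := by exact_mod_cast hm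
  exact Real.sin_nonneg_of_nonneg_of_le_pi (by positivity) (by nlinarith)

theorem sin_lo {m : ℕ} (hm : m ≤ 250) : ((Nat.sub (dT (Nat.sub 250 m)) 16777216 : ℕ) : ℝ) ≤
    Real.sin (2 * Real.pi * ((m : ℝ) / 1000)) * 16777216 := by
  have hs := sin_nn hm
  apply nsub_le _ (by positivity)
  rw [cU, sin_eq_cos hm]
  have := (tv_d (by show 250 - m ≤ 500; omega : Nat.sub 250 m ≤ 500)).1
  linarith

theorem sin_hi {m : ℕ} (hm : m ≤ 250) : Real.sin (2 * Real.pi * ((m : ℝ) / 1000)) * 16777216 ≤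
    ((Nat.sub (Nat.add (dT (Nat.sub 250 m)) 6) 16777216 : ℕ) : ℝ) := by
  apply le_nsub
  rw [cU, cast_add', sin_eq_cos hm]
  have := (tv_d (by show 250 - m ≤ 500; omega : Nat.sub 250 m ≤ 500)).2
  push_cast
  linarith

theorem cosh_mono' {ν : ℝ} {m : ℕ} (h : (m : ℝ) / 1000 ≤ |ν|) :
    Real.cosh (2 * Real.pi * ((m : ℝ) / 1000)) ≤ Real.cosh (2 * Real.pi * ν) := by
  have hpi := Real.pi_pos
  apply Real.cosh_le_cosh.2
  rw [abs_mul (2 * Real.pi) ((m : ℝ) / 1000), abs_mul (2 * Real.pi) ν, abs_of_pos (by positivity : 0 < 2 * Real.pi),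
    abs_of_nonneg (by positivity : 0 ≤ (m : ℝ) / 1000)]
  exact mul_le_mul_of_nonneg_left h (by positivity)

theorem cosh_mono'' {ν : ℝ} {m : ℕ} (h : |ν| ≤ (m : ℝ) / 1000) :
    Real.cosh (2 * Real.pi * ν) ≤ Real.cosh (2 * Real.pi * ((m : ℝ) / 1000)) := by
  have hpi := Real.pi_pos
  apply Real.cosh_le_cosh.2
  rw [abs_mul (2 * Real.pi) ((m : ℝ) / 1000), abs_mul (2 * Real.pi) ν, abs_of_pos (by positivity : 0 < 2 * Real.pi),
    abs_of_nonneg (by positivity : 0 ≤ (m : ℝ) / 1000)]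
  exact mul_le_mul_of_nonneg_left h (by positivity)

theorem chL_ok' {m : ℕ} (hm : m ≤ 200) : (chL m : ℝ) ≤ Real.cosh (2 * Real.pi * (m / 1000)) * 16777216 := by
  have := chL_ok hm
  rwa [div_le_iff₀ (by norm_num)] at this

theorem chU_ok' {m : ℕ} (hm : m ≤ 200) : Real.cosh (2 * Real.pi * (m / 1000)) * 16777216 ≤ (chU m : ℝ) := by
  have := chU_ok hm
  rwa [le_div_iff₀ (by norm_num)] at this

theorem le_of_sin {a b : ℝ} (ha : -(1 / 4) ≤ a) (hb : b ≤ 1 / 4)
    (h : Real.sin (2 * Real.pi * b) ≤ Real.sin (2 * Real.pi * a)) : b ≤ a := by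
  have hpi := Real.pi_pos
  by_contra hc
  push Not at hc
  have := Real.sin_lt_sin_of_lt_of_le_pi_div_two (x := 2 * Real.pi * a) (y := 2 * Real.pi * b) (by nlinarith)
    (by nlinarith) (mul_lt_mul_of_pos_left hc (by positivity))
  linarith

theorem xU_ok {X ν : ℝ} {p q n0 n1 n : ℕ} (hX : |X| < 1 / 4)
    (hp : 2 * (Real.sin (2 * Real.pi * X) * Real.cosh (2 * Real.pi * ν)) * 281474976710656 ≤ (p : ℝ) - q)
    (h0 : n0 ≤ 200) (h1 : n1 ≤ 200) (hn0 : (n0 : ℝ) / 1000 ≤ |ν|) (hn1 : |ν| ≤ (n1 : ℝ) / 1000)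
    (hn : 250 ≤ n) (hn' : n ≤ 750) (h : xU p q n0 n1 n = true) : X ≤ ((n : ℝ) - 500) / 1000 := by
  have hpi := Real.pi_pos
  have hX' := abs_lt.1 hX
  have hch := Real.cosh_pos (2 * Real.pi * ν)
  unfold xU at h
  rcases hb : Nat.ble 500 n with _ | _
  · rw [hb, cond_false] at h
    have hn5 : n < 500 := by
      by_contra hc
      rw [Nat.ble_eq_true_of_le (Nat.le_of_not_lt hc)] at hb
      exact Bool.false_ne_true hb.symm
    have hm : Nat.sub 500 n ≤ 250 := by show 500 - n ≤ 250; omega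
    have em : Nat.sub 250 (Nat.sub 500 n) = Nat.sub n 250 := by show 250 - (500 - n) = n - 250; omega
    have e := ble_cast h
    have shi := sin_hi hm
    rw [em] at shi
    rw [cast_add', cast_mul', cast_mul'] at e
    push_cast at e
    have k1 : Real.sin (2 * Real.pi * (((Nat.sub 500 n : ℕ) : ℝ) / 1000)) * 16777216 * (Real.cosh (2 * Real.pi * ν) * 16777216) ≤
        ((Nat.sub (Nat.add (dT (Nat.sub n 250)) 6) 16777216 : ℕ) : ℝ) * (chU n1 : ℝ) := by
      apply mul_le_mul shi _ (by positivity) (Nat.cast_nonneg _)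
      exact le_trans (mul_le_mul_of_nonneg_right (cosh_mono'' hn1) (by norm_num)) (chU_ok' h1)
    have k2 : (Real.sin (2 * Real.pi * (((Nat.sub 500 n : ℕ) : ℝ) / 1000))) * Real.cosh (2 * Real.pi * ν) ≤
        (-Real.sin (2 * Real.pi * X)) * Real.cosh (2 * Real.pi * ν) := by linarith
    have k3 := le_of_mul_le_mul_right k2 hch
    have hm' : ((Nat.sub 500 n : ℕ) : ℝ) ≤ 250 := by exact_mod_cast hm
    have em2 : ((n : ℝ) - 500) / 1000 = -(((Nat.sub 500 n : ℕ) : ℝ) / 1000) := by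
      rw [cast_sub' hn5.le]
      push_cast
      ring
    rw [em2]
    clear hb hn5 hn hn' hm em e shi k1 k2 h h0 h1
    have k4 : Real.sin (2 * Real.pi * X) ≤ Real.sin (2 * Real.pi * -(((Nat.sub 500 n : ℕ) : ℝ) / 1000)) := by
      rw [mul_neg, Real.sin_neg]
      linarith
    exact le_of_sin (by linarith) (by linarith) k4
  · rw [hb, cond_true] at h
    have hn5 : 500 ≤ n := Nat.le_of_ble_eq_true hb
    have hm : Nat.sub n 500 ≤ 250 := by show n - 500 ≤ 250; omega
    have em : Nat.sub 250 (Nat.sub n 500) = Nat.sub 750 n := by show 250 - (n - 500) = 750 - n; omega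
    have e := ble_cast h
    have slo := sin_lo hm
    rw [em] at slo
    rw [cast_add', cast_mul', cast_mul'] at e
    push_cast at e
    have k1 : ((Nat.sub (dT (Nat.sub 750 n)) 16777216 : ℕ) : ℝ) * (chL n0 : ℝ) ≤
        Real.sin (2 * Real.pi * (((Nat.sub n 500 : ℕ) : ℝ) / 1000)) * 16777216 * (Real.cosh (2 * Real.pi * ν) * 16777216) := by
      apply mul_le_mul slo _ (Nat.cast_nonneg _) (mul_nonneg (sin_nn hm) (by norm_num))
      exact (chL_ok' h0).trans (mul_le_mul_of_nonneg_right (cosh_mono' hn0) (by norm_num))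
    have k2 : (Real.sin (2 * Real.pi * X)) * Real.cosh (2 * Real.pi * ν) ≤
        (Real.sin (2 * Real.pi * (((Nat.sub n 500 : ℕ) : ℝ) / 1000))) * Real.cosh (2 * Real.pi * ν) := by linarith
    have k3 := le_of_mul_le_mul_right k2 hch
    have em2 : ((n : ℝ) - 500) / 1000 = ((Nat.sub n 500 : ℕ) : ℝ) / 1000 := by
      rw [cast_sub' hn5]
      push_cast
      ring
    rw [em2]
    have hm0 : (0 : ℝ) ≤ ((Nat.sub n 500 : ℕ) : ℝ) / 1000 := div_nonneg (Nat.cast_nonneg _) (by norm_num)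
    clear hb hn5 hn hn' hm em e slo k1 k2 h h0 h1
    exact le_of_sin (by linarith) (by linarith) k3

end Pool.Agent.S5.Z4
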