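import Pool.Agent.S5.Z4.RegG

/-!
# Inner nodes with four half twists: the rectangle of the middle angle
-/

set_option autoImplicit false

namespace Pool.Agent.S5.Z4

open Pool.Agent.S3.NI
open Pool.Agent.S5.YX (sgb ble_cast sub_sub_cast)
open Pool.Agent.S5.G (Slot sy zz4 lA lB)

/-! ### The square of a vertex -/

/-- Bounds for `κ ^ 2 = A - i B`. -/
structure Kb (k : Ce) (A B : ℝ) : Prop where
  aL : ((uT (Nat.sub 2000 k.a0) : ℕ) : ℝ) * ((cosT (Nat.mul 2 k.f1) : ℕ) : ℝ) ≤ A * 281474976710656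
  aU : A * 281474976710656 ≤ (((uT (Nat.sub 2000 k.a1) : ℕ) : ℝ) + 6) * (((cosT (Nat.mul 2 k.f0) : ℕ) : ℝ) + 6)
  bL : ((uT (Nat.sub 2000 k.a0) : ℕ) : ℝ) * ((sinT (Nat.mul 2 k.f0) : ℕ) : ℝ) ≤ B * 281474976710656
  bU : B * 281474976710656 ≤ (((uT (Nat.sub 2000 k.a1) : ℕ) : ℝ) + 6) * (((sinT (Nat.mul 2 k.f1) : ℕ) : ℝ) + 6)

theorem sq_parts {w : ℂ} (hw : w ≠ 0) : (w ^ 2).re = Real.exp (2 * Real.log ‖w‖) * Real.cos (2 * -w.arg) ∧
    -(w ^ 2).im = Real.exp (2 * Real.log ‖w‖) * Real.sin (2 * -w.arg) := by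
  have n0 : 0 < ‖w‖ := norm_pos_iff.2 hw
  have e : w ^ 2 = ((Real.exp (2 * Real.log ‖w‖) : ℝ) : ℂ) * Complex.exp (((2 * w.arg : ℝ) : ℂ) * Complex.I) := by
    rw [Complex.ofReal_exp, ← Complex.exp_add]
    have hl : Complex.log w = ((Real.log ‖w‖ : ℝ) : ℂ) + ((w.arg : ℝ) : ℂ) * Complex.I := by
      apply Complex.ext
      · rw [Complex.log_re]; simp
      · rw [Complex.log_im]; simp
    have : (((2 * Real.log ‖w‖ : ℝ) : ℂ) + ((2 * w.arg : ℝ) : ℂ) * Complex.I) = Complex.log w + Complex.log w := by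
      rw [hl]
      push_cast
      ring
    rw [this, Complex.exp_add, Complex.exp_log hw]
    ring
  constructor
  · rw [e, Complex.re_ofReal_mul, Complex.exp_ofReal_mul_I_re, mul_neg, Real.cos_neg]
  · rw [e, Complex.im_ofReal_mul, Complex.exp_ofReal_mul_I_im, mul_neg, Real.sin_neg]
    ring

theorem kb_of {k : Ce} (ho : okC k = true) {w : ℂ} (h : InC k w) (hw : w ≠ 0) : Kb k (w ^ 2).re (-(w ^ 2).im) := by
  obtain ⟨h1, h2, h3, h4, h5, h6⟩ := okC_iff ho
  obtain ⟨⟨a0, a1⟩, b0, b1⟩ := h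
  obtain ⟨e1, e2⟩ := sq_parts hw
  rw [e1, e2]
  have hpi := Real.pi_gt_d2
  have g1 : (k.f1 : ℝ) ≤ 785 := by exact_mod_cast h5
  have g0 : (0 : ℝ) ≤ k.f0 := Nat.cast_nonneg _
  set l := Real.log ‖w‖
  set φ := -w.arg
  have φ0 : 0 ≤ φ := le_trans (by positivity) b0
  have U0 : ((uT (Nat.sub 2000 k.a0) : ℕ) : ℝ) ≤ Real.exp (2 * l) * 16777216 := by
    refine (tv_u (by show 520 ≤ 2000 - k.a0; omega) (by show 2000 - k.a0 ≤ 1550; omega)).1.trans ?_
    apply mul_le_mul_of_nonneg_right _ (by norm_num)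
    apply Real.exp_le_exp.2
    rw [cast_sub' (by omega : k.a0 ≤ 2000)]
    push_cast
    linarith
  have U1 : Real.exp (2 * l) * 16777216 ≤ ((uT (Nat.sub 2000 k.a1) : ℕ) : ℝ) + 6 := by
    refine le_trans ?_ (tv_u (by show 520 ≤ 2000 - k.a1; omega) (by show 2000 - k.a1 ≤ 1550; omega)).2
    apply mul_le_mul_of_nonneg_right _ (by norm_num)
    apply Real.exp_le_exp.2
    rw [cast_sub' (by omega : k.a1 ≤ 2000)]
    push_cast
    linarith
  have m0 : ((Nat.mul 2 k.f0 : ℕ) : ℝ) = 2 * k.f0 := by rw [cast_mul']; norm_num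
  have m1 : ((Nat.mul 2 k.f1 : ℕ) : ℝ) = 2 * k.f1 := by rw [cast_mul']; norm_num
  have n0 : Nat.mul 2 k.f0 ≤ 1570 := by show 2 * k.f0 ≤ 1570; omega
  have n1 : Nat.mul 2 k.f1 ≤ 1570 := by show 2 * k.f1 ≤ 1570; omega
  have C0 : Real.cos (2 * φ) * 16777216 ≤ ((cosT (Nat.mul 2 k.f0) : ℕ) : ℝ) + 6 := by
    refine le_trans (mul_le_mul_of_nonneg_right ?_ (by norm_num)) (tv_cos n0).2
    rw [m0]
    exact Real.cos_le_cos_of_nonneg_of_le_pi (by positivity) (by linarith) (by linarith)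
  have C1 : ((cosT (Nat.mul 2 k.f1) : ℕ) : ℝ) ≤ Real.cos (2 * φ) * 16777216 := by
    refine (tv_cos n1).1.trans (mul_le_mul_of_nonneg_right ?_ (by norm_num))
    rw [m1]
    exact Real.cos_le_cos_of_nonneg_of_le_pi (by positivity) (by linarith) (by linarith)
  have S0 : ((sinT (Nat.mul 2 k.f0) : ℕ) : ℝ) ≤ Real.sin (2 * φ) * 16777216 := by
    refine (tv_sin n0).1.trans (mul_le_mul_of_nonneg_right ?_ (by norm_num))
    rw [m0]
    exact Real.sin_le_sin_of_le_of_le_pi_div_two (by linarith) (by linarith) (by linarith)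
  have S1 : Real.sin (2 * φ) * 16777216 ≤ ((sinT (Nat.mul 2 k.f1) : ℕ) : ℝ) + 6 := by
    refine le_trans (mul_le_mul_of_nonneg_right ?_ (by norm_num)) (tv_sin n1).2
    rw [m1]
    exact Real.sin_le_sin_of_le_of_le_pi_div_two (by linarith) (by linarith) (by linarith)
  have hc : 0 ≤ Real.cos (2 * φ) := Real.cos_nonneg_of_neg_pi_div_two_le_of_le (by linarith) (by linarith)
  have hs : 0 ≤ Real.sin (2 * φ) := Real.sin_nonneg_of_nonneg_of_le_pi (by linarith) (by linarith)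
  have he : 0 ≤ Real.exp (2 * l) := (Real.exp_pos _).le
  constructor
  · have := mul_le_mul U0 C1 (Nat.cast_nonneg _) (by positivity)
    linarith
  · have := mul_le_mul U1 C0 (by positivity) (add_nonneg (Nat.cast_nonneg _) (by norm_num))
    linarith
  · have := mul_le_mul U0 S0 (Nat.cast_nonneg _) (by positivity)
    linarith
  · have := mul_le_mul U1 S1 (by positivity) (add_nonneg (Nat.cast_nonneg _) (by norm_num))
    linarith

/-! ### The rectangle -/

theorem mxd_ok {a b c d : ℕ} {x : ℝ} (h1 : x ≤ (a : ℝ) - b) (h2 : -x ≤ (c : ℝ) - d) : |x| ≤ ((mxd a b c d : ℕ) : ℝ) := by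
  have l1 : x ≤ ((Nat.sub a b : ℕ) : ℝ) := le_nsub h1
  have l2 : -x ≤ ((Nat.sub c d : ℕ) : ℝ) := le_nsub h2
  unfold mxd
  rw [abs_le]
  rcases h : Nat.ble (Nat.sub a b) (Nat.sub c d) with _ | _
  · rw [cond_false]
    have := le_cast_of h
    constructor <;> linarith
  · rw [cond_true]
    have := ble_cast h
    constructor <;> linarith

theorem mnd_ok {a b c d : ℕ} {x : ℝ} (h1 : (a : ℝ) - b ≤ x) (h2 : (c : ℝ) - d ≤ -x) :
    ((Nat.add (Nat.sub a b) (Nat.sub c d) : ℕ) : ℝ) ≤ |x| := by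
  rw [cast_add']
  rcases le_total 0 x with h | h
  · have hcd : c ≤ d := by
      have : (c : ℝ) ≤ d := by linarith
      exact Nat.cast_le.1 this
    have e : Nat.sub c d = 0 := Nat.sub_eq_zero_of_le hcd
    rw [e]
    push_cast
    have : ((Nat.sub a b : ℕ) : ℝ) ≤ x := nsub_le (by linarith) h
    have := le_abs_self x
    linarith
  · have hab : a ≤ b := by
      have : (a : ℝ) ≤ b := by linarith
      exact Nat.cast_le.1 this
    have e : Nat.sub a b = 0 := Nat.sub_eq_zero_of_le hab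
    rw [e]
    push_cast
    have : ((Nat.sub c d : ℕ) : ℝ) ≤ -x := nsub_le (by linarith) (by linarith)
    have := neg_le_abs x
    linarith

theorem okZ_iff {z : Rc} (h : okZ z = true) : 250 ≤ z.t0 ∧ z.t0 ≤ z.t1 ∧ z.t1 ≤ 750 ∧ 300 ≤ z.e0 ∧
    z.e0 ≤ z.e1 ∧ z.e1 ≤ 700 := by
  unfold okZ at h
  simp only [Bool.and_eq_true] at h
  obtain ⟨h1, h2, h3, h4, h5, h6⟩ := h
  exact ⟨Nat.le_of_ble_eq_true h1, Nat.le_of_ble_eq_true h2, Nat.le_of_ble_eq_true h3,
    Nat.le_of_ble_eq_true h4, Nat.le_of_ble_eq_true h5, Nat.le_of_ble_eq_true h6⟩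

theorem zc_ok {k : Ce} {yC bC : ℕ} {A B c s c' s' X ν : ℝ} (h : zc k yC bC = true) (hZ : Zn A B c s c' s' X ν)
    (hk : Kb k A B) (hy : 4503599627370496 + c * 281474976710656 ≤ (yC : ℝ))
    (hb : 4503599627370496 + c' * 281474976710656 ≤ (bC : ℝ)) : 0 < Real.cos (2 * Real.pi * X) := by
  unfold zc at h
  have e := ble_cast h
  simp only [cast_add', cast_mul'] at e
  clear h
  have a3 := hZ.a3
  have aL := hk.aL
  have hch := Real.cosh_pos (2 * Real.pi * ν)
  generalize ((uT (Nat.sub 2000 k.a0) : ℕ) : ℝ) = u at e aL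
  have e1 : ((cosT (Nat.mul 2 k.f1) : ℕ) : ℝ) = ((cosT (Nat.mul 2 k.f1) : ℕ) : ℝ) := rfl
  generalize ((cosT (Nat.mul 2 k.f1) : ℕ) : ℝ) = v at e aL
  push_cast at e
  have h2 : 0 < Real.cos (2 * Real.pi * X) * Real.cosh (2 * Real.pi * ν) := by nlinarith
  exact (pos_iff_pos_of_mul_pos h2).2 hch

theorem abs4 {X : ℝ} (h : |X| < 1 / 2) (hc : 0 < Real.cos (2 * Real.pi * X)) : |X| < 1 / 4 := by
  have hpi := Real.pi_pos
  by_contra hn
  push Not at hn
  have := cos_abs_mono (x := X) (a := 1 / 4) (by norm_num) hn h.le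
  rw [show 2 * Real.pi * (1 / 4) = Real.pi / 2 by ring, Real.cos_pi_div_two] at this
  linarith

theorem slot_cos {q z : ℂ} (h : Slot q z) : Complex.cos z ≠ 0 := by
  intro h0
  have h1 := congrArg Complex.re h0
  rw [G.cos_re, Complex.zero_re] at h1
  have := Real.cos_pos_of_mem_Ioo ⟨by linarith [h.z0, Real.pi_pos], h.z1⟩
  have := mul_pos this (Real.cosh_pos z.im)
  linarith

/-- The rectangle of the middle angle. -/
theorem regZ_sound {k : Ce} {y b z0 : Rc} (h : regZ k y b z0 = true) {p r z : ℂ} (hp : Slot p z) (hr : Slot r z)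
    (hz : 4 * z = Real.pi + Complex.I * (p + r)) (hX : |(zz4 p r z).re| < 1 / 2) (hk : InC k (Complex.cos z))
    (hy : InY y (sy p z)) (hb : InY b (sy r z)) : InZ z0 (zz4 p r z) := by
  unfold regZ at h
  simp only [Bool.and_eq_true] at h
  obtain ⟨ok, oy, ob, oz, hc, h3⟩ := h
  have Z := zn_of hp hr hz
  have K := kb_of ok hk (slot_cos hp)
  have E := eb_of oy hy
  have F := eb_of ob hb
  obtain ⟨z1, z2, z3', z4, z5, z6⟩ := okZ_iff oz
  generalize hXe : (zz4 p r z).re = X at Z hX ⊢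
  generalize hν : (zz4 p r z).im = ν at Z ⊢
  generalize Real.exp (2 * Real.pi * (sy p z).im) * Real.cos (2 * Real.pi * (sy p z).re) = c at Z E
  generalize Real.exp (2 * Real.pi * (sy p z).im) * Real.sin (2 * Real.pi * (sy p z).re) = s at Z E
  generalize Real.exp (2 * Real.pi * (sy r z).im) * Real.cos (2 * Real.pi * (sy r z).re) = c' at Z F
  generalize Real.exp (2 * Real.pi * (sy r z).im) * Real.sin (2 * Real.pi * (sy r z).re) = s' at Z F
  have C0 := zc_ok hc Z K E.cu F.cu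
  have X4 := abs4 hX C0
  clear hc oy ob ok K
  unfold z3 at h3
  simp only [Bool.and_eq_true] at h3
  obtain ⟨n1, n2, x1, x2⟩ := h3
  have a1 := Z.a1
  have a2 := Z.a2
  have cs := Real.cos_sq_add_sin_sq (2 * Real.pi * X)
  have ycl := E.cl
  have ycu := E.cu
  have ysl := E.sl
  have ysu := E.su
  have bcl := F.cl
  have bcu := F.cu
  have bsl := F.sl
  have bsu := F.su
  generalize rcl y = yc at n1 n2 x1 x2 ycl
  generalize rcu y = yC at n1 n2 x1 x2 ycu
  generalize rsl y = ys at n1 n2 x1 x2 ysl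
  generalize rsu y = yS at n1 n2 x1 x2 ysu
  generalize rcl b = bc at n1 n2 x1 x2 bcl
  generalize rcu b = bC at n1 n2 x1 x2 bcu
  generalize rsl b = bs at n1 n2 x1 x2 bsl
  generalize rsu b = bS at n1 n2 x1 x2 bsu
  have V : |2 * (Real.sin (2 * Real.pi * X) * Real.cosh (2 * Real.pi * ν))| * 281474976710656 =
      |2 * (Real.sin (2 * Real.pi * X) * Real.cosh (2 * Real.pi * ν)) * 281474976710656| := by
    rw [abs_mul (2 * (Real.sin (2 * Real.pi * X) * Real.cosh (2 * Real.pi * ν)))]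
    norm_num
  have vh : |2 * (Real.sin (2 * Real.pi * X) * Real.cosh (2 * Real.pi * ν))| * 281474976710656 ≤
      ((mxd yS bs bS ys : ℕ) : ℝ) := by
    rw [V]
    exact mxd_ok (by linarith) (by linarith)
  have vl : ((Nat.add (Nat.sub ys bS) (Nat.sub bs yS) : ℕ) : ℝ) ≤
      |2 * (Real.sin (2 * Real.pi * X) * Real.cosh (2 * Real.pi * ν))| * 281474976710656 := by
    rw [V]
    exact mnd_ok (by linarith) (by linarith)
  have N1 := nU_ok C0 cs (by linarith) vh vl (z4.trans z5) z6 n1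
  have neg : 2 * Real.pi * -ν = -(2 * Real.pi * ν) := by ring
  have N2 := nU_ok (ν := -ν) (n := Nat.sub 1000 z0.e0) (p := bC) (q := yc) C0 cs
    (by rw [neg, Real.sinh_neg]; linarith) (by rw [neg, Real.cosh_neg]; exact vh)
    (by rw [neg, Real.cosh_neg]; exact vl) (by show 300 ≤ 1000 - z0.e0; omega) (by show 1000 - z0.e0 ≤ 700; omega) n2
  rw [cast_sub' (by omega : z0.e0 ≤ 1000)] at N2
  push_cast at N2
  -- the distances
  have d0 := dmi_ok (c := 500) z5 (x := ν * 1000 + 500) (by linarith) (by linarith)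
  have d1 := dma_ok (c := 500) (p := z0.e0) (q := z0.e1) (x := ν * 1000 + 500) (by linarith) (by linarith)
  have ab : |ν * 1000 + 500 - ((500 : ℕ) : ℝ)| = |ν| * 1000 := by
    rw [show ν * 1000 + 500 - ((500 : ℕ) : ℝ) = ν * 1000 by push_cast; ring, abs_mul]
    norm_num
  rw [ab] at d0 d1
  have hma : dma 500 z0.e0 z0.e1 ≤ 200 := by
    unfold dma
    rcases Nat.ble (Nat.sub z0.e1 500) (Nat.sub 500 z0.e0) with _ | _
    · show z0.e1 - 500 ≤ 200
      omega
    · show 500 - z0.e0 ≤ 200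
      omega
  have hmi : dmi 500 z0.e0 z0.e1 ≤ 200 := by
    have : ((dmi 500 z0.e0 z0.e1 : ℕ) : ℝ) ≤ ((dma 500 z0.e0 z0.e1 : ℕ) : ℝ) := d0.trans d1
    exact (Nat.cast_le.1 this).trans hma
  generalize dmi 500 z0.e0 z0.e1 = m0 at x1 x2 d0 hmi
  generalize dma 500 z0.e0 z0.e1 = m1 at x1 x2 d1 hma
  have X1 := xU_ok X4 (by linarith) hmi hma (by linarith) (by linarith) (z1.trans z2) z3' x1
  have negX : 2 * Real.pi * -X = -(2 * Real.pi * X) := by ring
  have X2 := xU_ok (X := -X) (ν := ν) (n := Nat.sub 1000 z0.t0) (p := bS) (q := ys) (by rwa [abs_neg])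
    (by rw [negX, Real.sin_neg]; linarith) hmi hma (by linarith) (by linarith)
    (by show 250 ≤ 1000 - z0.t0; omega) (by show 1000 - z0.t0 ≤ 750; omega) x2
  rw [cast_sub' (by omega : z0.t0 ≤ 1000)] at X2
  push_cast at X2
  refine ⟨⟨?_, ?_⟩, ?_, ?_⟩
  · rw [hXe]; linarith
  · rw [hXe]; exact X1
  · rw [hν]; linarith
  · rw [hν]; exact N1

end Pool.Agent.S5.Z4
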