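import Pool.Agent.S5.Z4.RegH

/-!
# Inner nodes with four half twists: the discard test
-/

set_option autoImplicit false

namespace Pool.Agent.S5.Z4

open Pool.Agent.S3.NI
open Pool.Agent.S5.YX (sgb ble_cast sub_sub_cast)
open Pool.Agent.S5.G (Slot sy zz4 lA lB)

/-- The product at a corner. -/
noncomputable def PP (x n : ℝ) : ℝ := Real.sin (2 * Real.pi * (x / 1000)) * Real.sinh (2 * Real.pi * (n / 1000))

theorem PP_nn {m j : ℕ} (hm : m ≤ 250) : 0 ≤ PP m j := mul_nonneg (sin_nn hm) sinh_nn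

theorem sinh_le2 {j : ℕ} (hj : j ≤ 200) : Real.sinh (2 * Real.pi * ((j : ℝ) / 1000)) ≤ 4 := by
  have h := shU_ok hj
  have h2 := (sh_sub hj).2
  have h3 := eT_lt (Nat.add 500 j)
  have h4 : (0 : ℝ) ≤ ((eT (Nat.sub 500 j) : ℕ) : ℝ) := Nat.cast_nonneg _
  generalize ((eT (Nat.add 500 j) : ℕ) : ℝ) = x at h2 h3
  generalize ((eT (Nat.sub 500 j) : ℕ) : ℝ) = y at h2 h4
  linarith

theorem PP_le {m j : ℕ} (hm : m ≤ 250) (hj : j ≤ 200) : PP m j ≤ 4 := by
  unfold PP
  have h1 := Real.sin_le_one (2 * Real.pi * ((m : ℝ) / 1000))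
  have h2 := sinh_le2 hj
  have h3 := sinh_nn (m := j)
  nlinarith

theorem ppU {m j : ℕ} (hm : m ≤ 250) (hj : j ≤ 200) : PP m j * 281474976710656 ≤
    ((Nat.sub (Nat.add (dT (Nat.sub 250 m)) 6) 16777216 : ℕ) : ℝ) * ((shU j : ℕ) : ℝ) := by
  have h0 := sinh_nn (m := j)
  have := mul_le_mul (sin_hi hm) (shU_ok hj) (mul_nonneg h0 (by norm_num)) (Nat.cast_nonneg _)
  have pe : PP m j = Real.sin (2 * Real.pi * ((m : ℝ) / 1000)) * Real.sinh (2 * Real.pi * ((j : ℝ) / 1000)) := rfl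
  rw [pe]
  linarith

theorem ppL {m j : ℕ} (hm : m ≤ 250) (hj : j ≤ 200) :
    ((Nat.sub (dT (Nat.sub 250 m)) 16777216 : ℕ) : ℝ) * ((shL j : ℕ) : ℝ) ≤ PP m j * 281474976710656 := by
  have s0 := sin_nn hm
  have := mul_le_mul (sin_lo hm) (shL_ok hj) (Nat.cast_nonneg _) (mul_nonneg s0 (by norm_num))
  have pe : PP m j = Real.sin (2 * Real.pi * ((m : ℝ) / 1000)) * Real.sinh (2 * Real.pi * ((j : ℝ) / 1000)) := rfl
  rw [pe]
  linarith

theorem kO : ((4503599627370496 : ℕ) : ℝ) = 4503599627370496 := by norm_num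

theorem k2 : ((2 : ℕ) : ℝ) = 2 := by norm_num

theorem pp1 {x : ℝ} {a b : ℕ} (h : x * 281474976710656 ≤ (a : ℝ) * b) : 4503599627370496 + 2 * x * 281474976710656 ≤
    ((Nat.add 4503599627370496 (Nat.mul 2 (Nat.mul a b)) : ℕ) : ℝ) := by
  rw [cast_add', cast_mul', cast_mul', k2, kO]
  linarith

theorem pp2 {x : ℝ} {a b : ℕ} (h : (a : ℝ) * b ≤ x * 281474976710656) :
    ((Nat.add 4503599627370496 (Nat.mul 2 (Nat.mul a b)) : ℕ) : ℝ) ≤ 4503599627370496 + 2 * x * 281474976710656 := by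
  rw [cast_add', cast_mul', cast_mul', k2, kO]
  linarith

theorem pp3 {x : ℝ} {a b : ℕ} (h : (a : ℝ) * b ≤ x * 281474976710656) : 4503599627370496 - 2 * x * 281474976710656 ≤
    ((Nat.sub 4503599627370496 (Nat.mul 2 (Nat.mul a b)) : ℕ) : ℝ) := by
  apply le_nsub
  rw [cast_mul', cast_mul', k2, kO]
  linarith

theorem pp4 {x : ℝ} {a b : ℕ} (h : x * 281474976710656 ≤ (a : ℝ) * b) (hx : x ≤ 4) :
    ((Nat.sub 4503599627370496 (Nat.mul 2 (Nat.mul a b)) : ℕ) : ℝ) ≤ 4503599627370496 - 2 * x * 281474976710656 := by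
  apply nsub_le
  · rw [cast_mul', cast_mul', k2, kO]
    linarith
  · linarith

theorem ppt {a b : ℕ} {g : Bool} : pp true a b g = Nat.add 4503599627370496 (Nat.mul 2 (bif g then
    Nat.mul (Nat.sub (Nat.add (dT a) 6) 16777216) (shU b) else Nat.mul (Nat.sub (dT a) 16777216) (shL b))) := by
  unfold pp
  exact cond_true _ _

theorem ppf {a b : ℕ} {g : Bool} : pp false a b g = Nat.sub 4503599627370496 (Nat.mul 2 (bif g then
    Nat.mul (Nat.sub (dT a) 16777216) (shL b) else Nat.mul (Nat.sub (Nat.add (dT a) 6) 16777216) (shU b))) := by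
  unfold pp
  exact cond_false _ _

theorem pp_ok {m j : ℕ} (hm : m ≤ 250) (hj : j ≤ 200) :
    (4503599627370496 + 2 * PP m j * 281474976710656 ≤ ((pp true (Nat.sub 250 m) j true : ℕ) : ℝ) ∧
      ((pp true (Nat.sub 250 m) j false : ℕ) : ℝ) ≤ 4503599627370496 + 2 * PP m j * 281474976710656) ∧
    (4503599627370496 - 2 * PP m j * 281474976710656 ≤ ((pp false (Nat.sub 250 m) j true : ℕ) : ℝ) ∧
      ((pp false (Nat.sub 250 m) j false : ℕ) : ℝ) ≤ 4503599627370496 - 2 * PP m j * 281474976710656) := by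
  have p4 := PP_le hm hj
  refine ⟨⟨?_, ?_⟩, ?_, ?_⟩
  · rw [ppt, cond_true]
    exact pp1 (ppU hm hj)
  · rw [ppt, cond_false]
    exact pp2 (ppL hm hj)
  · rw [ppf, cond_true]
    exact pp3 (ppL hm hj)
  · rw [ppf, cond_false]
    exact pp4 (ppU hm hj) p4

theorem ab5_cast (c x : ℕ) : ((ab5 c x : ℕ) : ℝ) = |(x : ℝ) - c| := by
  unfold ab5
  rw [cast_add']
  rcases le_total c x with h | h
  · have e : Nat.sub c x = 0 := Nat.sub_eq_zero_of_le h
    have h' : (c : ℝ) ≤ x := Nat.cast_le.2 h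
    rw [e, cast_sub' h, abs_of_nonneg (by linarith)]
    push_cast
    ring
  · have e : Nat.sub x c = 0 := Nat.sub_eq_zero_of_le h
    have h' : (x : ℝ) ≤ c := Nat.cast_le.2 h
    rw [e, cast_sub' h, abs_of_nonpos (by linarith)]
    push_cast
    ring

theorem ab5_le {x d : ℕ} (h0 : 500 ≤ x + d) (h1 : x ≤ 500 + d) : ab5 500 x ≤ d := by
  show (x - 500) + (500 - x) ≤ d
  omega

theorem PP_neg (x n : ℝ) : PP (-x) n = -PP x n := by
  unfold PP
  rw [neg_div, mul_neg, Real.sin_neg]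
  ring

theorem PP_neg' (x n : ℝ) : PP x (-n) = -PP x n := by
  unfold PP
  rw [neg_div, mul_neg, Real.sinh_neg]
  ring

/-- The product at a corner. -/
theorem pq_ok {x n : ℕ} (h0 : 250 ≤ x) (h1 : x ≤ 750) (h2 : 300 ≤ n) (h3 : n ≤ 700) :
    4503599627370496 + 2 * PP ((x : ℝ) - 500) ((n : ℝ) - 500) * 281474976710656 ≤ ((pq x n true : ℕ) : ℝ) ∧
      ((pq x n false : ℕ) : ℝ) ≤ 4503599627370496 + 2 * PP ((x : ℝ) - 500) ((n : ℝ) - 500) * 281474976710656 := by
  have hm : ab5 500 x ≤ 250 := ab5_le (by omega) (by omega)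
  have hj : ab5 500 n ≤ 200 := ab5_le (by omega) (by omega)
  obtain ⟨⟨p1, p2⟩, p3, p4⟩ := pp_ok hm hj
  have em := ab5_cast 500 x
  have ej := ab5_cast 500 n
  have k5 : ((500 : ℕ) : ℝ) = 500 := by norm_num
  rw [k5] at em ej
  unfold pq
  rcases hx : Nat.ble 500 x with _ | _
  · have hx' := (le_cast_of hx)
    rw [k5] at hx'
    rw [abs_of_nonpos (by linarith)] at em
    rw [cond_false]
    rcases hn : Nat.ble n 500 with _ | _
    · have hn' := (le_cast_of hn)
      rw [k5] at hn'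
      rw [abs_of_nonneg (by linarith)] at ej
      rw [em, ej, PP_neg] at p3 p4
      exact ⟨by linarith, by linarith⟩
    · have hn' := ble_cast hn
      rw [k5] at hn'
      rw [abs_of_nonpos (by linarith)] at ej
      rw [em, ej, PP_neg, PP_neg'] at p1 p2
      exact ⟨by linarith, by linarith⟩
  · have hx' := ble_cast hx
    rw [k5] at hx'
    rw [abs_of_nonneg (by linarith)] at em
    rw [cond_true]
    rcases hn : Nat.ble 500 n with _ | _
    · have hn' := (le_cast_of hn)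
      rw [k5] at hn'
      rw [abs_of_nonpos (by linarith)] at ej
      rw [em, ej, PP_neg'] at p3 p4
      exact ⟨by linarith, by linarith⟩
    · have hn' := ble_cast hn
      rw [k5] at hn'
      rw [abs_of_nonneg (by linarith)] at ej
      rw [em, ej] at p1 p2
      exact ⟨by linarith, by linarith⟩

theorem rect_max {s s0 s1 h h0 h1 M : ℝ} (a0 : s0 ≤ s) (a1 : s ≤ s1) (b0 : h0 ≤ h) (b1 : h ≤ h1)
    (c1 : s0 * h0 ≤ M) (c2 : s0 * h1 ≤ M) (c3 : s1 * h0 ≤ M) (c4 : s1 * h1 ≤ M) : s * h ≤ M := by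
  rcases le_total 0 s with hs | hs
  · have k : s * h ≤ s * h1 := mul_le_mul_of_nonneg_left b1 hs
    rcases le_total 0 h1 with hh | hh
    · exact k.trans ((mul_le_mul_of_nonneg_right a1 hh).trans c4)
    · exact k.trans ((mul_le_mul_of_nonpos_right a0 hh).trans c2)
  · have k : s * h ≤ s * h0 := mul_le_mul_of_nonpos_left b0 hs
    rcases le_total 0 h0 with hh | hh
    · exact k.trans ((mul_le_mul_of_nonneg_right a1 hh).trans c3)
    · exact k.trans ((mul_le_mul_of_nonpos_right a0 hh).trans c1)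

theorem ma_le (a b : ℕ) : (a : ℝ) ≤ ((ma a b : ℕ) : ℝ) ∧ (b : ℝ) ≤ ((ma a b : ℕ) : ℝ) := by
  unfold ma
  rcases h : Nat.ble a b with _ | _
  · rw [cond_false]
    exact ⟨le_rfl, (le_cast_of h).le⟩
  · rw [cond_true]
    exact ⟨ble_cast h, le_rfl⟩

theorem sin_mono4 {a b : ℝ} (h0 : -(1 / 4) ≤ a) (h1 : b ≤ 1 / 4) (h : a ≤ b) :
    Real.sin (2 * Real.pi * a) ≤ Real.sin (2 * Real.pi * b) := by
  have hpi := Real.pi_pos
  exact Real.sin_le_sin_of_le_of_le_pi_div_two (by nlinarith) (by nlinarith)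
    (mul_le_mul_of_nonneg_left h (by positivity))

theorem sinh_mono4 {a b : ℝ} (h : a ≤ b) : Real.sinh (2 * Real.pi * a) ≤ Real.sinh (2 * Real.pi * b) := by
  have hpi := Real.pi_pos
  exact Real.sinh_le_sinh.2 (mul_le_mul_of_nonneg_left h (by positivity))

/-- The bounds for the two products. -/
theorem ps_ok {z : Rc} (ho : okZ z = true) {w : ℂ} (h : InZ z w) :
    4503599627370496 + 2 * (Real.sin (2 * Real.pi * w.re) * Real.sinh (2 * Real.pi * w.im)) * 281474976710656 ≤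
        ((psU z : ℕ) : ℝ) ∧
      ((psL z : ℕ) : ℝ) ≤
        4503599627370496 + 2 * (Real.sin (2 * Real.pi * w.re) * Real.sinh (2 * Real.pi * w.im)) * 281474976710656 := by
  obtain ⟨z1, z2, z3, z4, z5, z6⟩ := okZ_iff ho
  obtain ⟨⟨t0, t1⟩, e0, e1⟩ := h
  have g0 : (250 : ℝ) ≤ z.t0 := by exact_mod_cast z1
  have g1 : (z.t1 : ℝ) ≤ 750 := by exact_mod_cast z3
  have g2 : (z.t0 : ℝ) ≤ z.t1 := by exact_mod_cast z2
  have s0 := sin_mono4 (a := ((z.t0 : ℝ) - 500) / 1000) (by linarith) (by linarith) t0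
  have s1 := sin_mono4 (b := ((z.t1 : ℝ) - 500) / 1000) (by linarith) (by linarith) t1
  have i0 := sinh_mono4 e0
  have i1 := sinh_mono4 e1
  have q1 := pq_ok z1 (z2.trans z3) z4 (z5.trans z6)
  have q2 := pq_ok z1 (z2.trans z3) (z4.trans z5) z6
  have q3 := pq_ok (z1.trans z2) z3 z4 (z5.trans z6)
  have q4 := pq_ok (z1.trans z2) z3 (z4.trans z5) z6
  unfold PP at q1 q2 q3 q4
  constructor
  · unfold psU
    have m1 := ma_le (ma (pq z.t0 z.e0 true) (pq z.t0 z.e1 true)) (ma (pq z.t1 z.e0 true) (pq z.t1 z.e1 true))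
    have m2 := ma_le (pq z.t0 z.e0 true) (pq z.t0 z.e1 true)
    have m3 := ma_le (pq z.t1 z.e0 true) (pq z.t1 z.e1 true)
    set M := ((ma (ma (pq z.t0 z.e0 true) (pq z.t0 z.e1 true)) (ma (pq z.t1 z.e0 true) (pq z.t1 z.e1 true)) : ℕ) : ℝ)
    have := rect_max (M := (M - 4503599627370496) / (2 * 281474976710656)) s0 s1 i0 i1
      (by rw [le_div_iff₀ (by norm_num)]; linarith [q1.1, m1.1, m2.1])
      (by rw [le_div_iff₀ (by norm_num)]; linarith [q2.1, m1.1, m2.2])
      (by rw [le_div_iff₀ (by norm_num)]; linarith [q3.1, m1.2, m3.1])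
      (by rw [le_div_iff₀ (by norm_num)]; linarith [q4.1, m1.2, m3.2])
    rw [le_div_iff₀ (by norm_num)] at this
    linarith
  · unfold psL
    have m1 := mi_le (mi (pq z.t0 z.e0 false) (pq z.t0 z.e1 false)) (mi (pq z.t1 z.e0 false) (pq z.t1 z.e1 false))
    have m2 := mi_le (pq z.t0 z.e0 false) (pq z.t0 z.e1 false)
    have m3 := mi_le (pq z.t1 z.e0 false) (pq z.t1 z.e1 false)
    set M := ((mi (mi (pq z.t0 z.e0 false) (pq z.t0 z.e1 false)) (mi (pq z.t1 z.e0 false) (pq z.t1 z.e1 false)) : ℕ) : ℝ)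
    have := rect_max (M := -((M - 4503599627370496) / (2 * 281474976710656))) s0 s1 (neg_le_neg i1) (neg_le_neg i0)
      (by rw [← neg_div, le_div_iff₀ (by norm_num)]; linarith [q2.2, m1.1, m2.2])
      (by rw [← neg_div, le_div_iff₀ (by norm_num)]; linarith [q1.2, m1.1, m2.1])
      (by rw [← neg_div, le_div_iff₀ (by norm_num)]; linarith [q4.2, m1.2, m3.2])
      (by rw [← neg_div, le_div_iff₀ (by norm_num)]; linarith [q3.2, m1.2, m3.1])
    rw [← neg_div, le_div_iff₀ (by norm_num)] at this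
    linarith

theorem pc_ok {z : Rc} (ho : okZ z = true) {w : ℂ} (h : InZ z w) :
    2 * (Real.cos (2 * Real.pi * w.re) * Real.cosh (2 * Real.pi * w.im)) * 281474976710656 ≤ ((pcU z : ℕ) : ℝ) ∧
      ((pcL z : ℕ) : ℝ) ≤ 2 * (Real.cos (2 * Real.pi * w.re) * Real.cosh (2 * Real.pi * w.im)) * 281474976710656 := by
  obtain ⟨z1, z2, z3, z4, z5, z6⟩ := okZ_iff ho
  obtain ⟨⟨t0, t1⟩, e0, e1⟩ := h
  have hpi := Real.pi_pos
  have g0 : (250 : ℝ) ≤ z.t0 := by exact_mod_cast z1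
  have g1 : (z.t1 : ℝ) ≤ 750 := by exact_mod_cast z3
  set X := w.re
  set ν := w.im
  have d0 := dmi_ok (c := 500) z5 (x := ν * 1000 + 500) (by linarith) (by linarith)
  have d1 := dma_ok (c := 500) (p := z.e0) (q := z.e1) (x := ν * 1000 + 500) (by linarith) (by linarith)
  have c0 := dmi_ok (c := 500) z2 (x := X * 1000 + 500) (by linarith) (by linarith)
  have c1 := dma_ok (c := 500) (p := z.t0) (q := z.t1) (x := X * 1000 + 500) (by linarith) (by linarith)
  have ab (u : ℝ) : |u * 1000 + 500 - ((500 : ℕ) : ℝ)| = |u| * 1000 := by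
    rw [show u * 1000 + 500 - ((500 : ℕ) : ℝ) = u * 1000 by push_cast; ring, abs_mul]
    norm_num
  rw [ab] at d0 d1 c0 c1
  have hma : dma 500 z.e0 z.e1 ≤ 200 := by
    unfold dma
    rcases Nat.ble (Nat.sub z.e1 500) (Nat.sub 500 z.e0) with _ | _
    · show z.e1 - 500 ≤ 200
      omega
    · show 500 - z.e0 ≤ 200
      omega
  have hmi : dmi 500 z.e0 z.e1 ≤ 200 := by
    have : ((dmi 500 z.e0 z.e1 : ℕ) : ℝ) ≤ ((dma 500 z.e0 z.e1 : ℕ) : ℝ) := d0.trans d1
    exact (Nat.cast_le.1 this).trans hma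
  have kma : dma 500 z.t0 z.t1 ≤ 250 := by
    unfold dma
    rcases Nat.ble (Nat.sub z.t1 500) (Nat.sub 500 z.t0) with _ | _
    · show z.t1 - 500 ≤ 250
      omega
    · show 500 - z.t0 ≤ 250
      omega
  have kmi : dmi 500 z.t0 z.t1 ≤ 250 := by
    have : ((dmi 500 z.t0 z.t1 : ℕ) : ℝ) ≤ ((dma 500 z.t0 z.t1 : ℕ) : ℝ) := c0.trans c1
    exact (Nat.cast_le.1 this).trans kma
  unfold pcU pcL
  generalize dmi 500 z.e0 z.e1 = m0 at d0 hmi ⊢
  generalize dma 500 z.e0 z.e1 = m1 at d1 hma ⊢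
  generalize dmi 500 z.t0 z.t1 = n0 at c0 kmi ⊢
  generalize dma 500 z.t0 z.t1 = n1 at c1 kma ⊢
  have kma' : (n1 : ℝ) ≤ 250 := by exact_mod_cast kma
  have kmi' : (n0 : ℝ) ≤ 250 := by exact_mod_cast kmi
  have n00 : (0 : ℝ) ≤ n0 := Nat.cast_nonneg _
  clear z1 z2 z3 z4 z5 z6
  have x4 : |X| ≤ 1 / 4 := by linarith
  have C0 : 0 ≤ Real.cos (2 * Real.pi * X) := by
    have := cos_abs_mono' (x := X) (a := 1 / 4) x4 (by norm_num)
    rwa [show 2 * Real.pi * (1 / 4) = Real.pi / 2 by ring, Real.cos_pi_div_two] at this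
  have H0 := Real.cosh_pos (2 * Real.pi * ν)
  have Hl := (chL_ok' hmi).trans (mul_le_mul_of_nonneg_right (cosh_mono' (ν := ν) (by linarith)) (by norm_num))
  have Hu := (mul_le_mul_of_nonneg_right (cosh_mono'' (ν := ν) (m := m1) (by linarith)) (by norm_num)).trans (chU_ok' hma)
  have Cu := cos_abs_mono (x := X) (a := (n0 : ℝ) / 1000) (by positivity) (by linarith) (by linarith)
  have Cl := cos_abs_mono' (x := X) (a := (n1 : ℝ) / 1000) (by linarith) (by linarith)
  have v0 := (tv_d (n := n0) (by omega)).2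
  have v1 := (tv_d (n := n1) (by omega)).1
  have k2 : ((2 : ℕ) : ℝ) = 2 := by norm_num
  have S1 : Real.cos (2 * Real.pi * X) * 16777216 ≤ ((Nat.sub (Nat.add (dT n0) 6) 16777216 : ℕ) : ℝ) := by
    apply le_nsub
    rw [cU, cast_add']
    push_cast
    linarith
  have S2 : ((Nat.sub (dT n1) 16777216 : ℕ) : ℝ) ≤ Real.cos (2 * Real.pi * X) * 16777216 := by
    apply nsub_le _ (by positivity)
    rw [cU]
    linarith
  constructor
  · rw [cast_mul', cast_mul', k2]
    have := mul_le_mul S1 Hu (by positivity) (Nat.cast_nonneg _)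
    linarith
  · rw [cast_mul', cast_mul', k2]
    have := mul_le_mul S2 Hl (Nat.cast_nonneg _) (by positivity)
    linarith

/-- The discard test. -/
theorem dis4_sound {k : Ce} {y b z0 : Rc} (h : dis4 k y b z0 = true) {p r z : ℂ} (hp : Slot p z) (hr : Slot r z)
    (hz : 4 * z = Real.pi + Complex.I * (p + r)) (hk : InC k (Complex.cos z))
    (hy : InY y (sy p z)) (hb : InY b (sy r z)) (h0 : InZ z0 (zz4 p r z)) : False := by
  unfold dis4 at h
  simp only [Bool.and_eq_true, Bool.or_eq_true] at h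
  obtain ⟨ok, oy, ob, oz, hc⟩ := h
  have Z := zn_of hp hr hz
  have K := kb_of ok hk (slot_cos hp)
  have E := eb_of oy hy
  have F := eb_of ob hb
  have P := ps_ok oz h0
  have Q := pc_ok oz h0
  generalize (zz4 p r z).re = X at Z P Q
  generalize (zz4 p r z).im = ν at Z P Q
  generalize Real.exp (2 * Real.pi * (sy p z).im) * Real.cos (2 * Real.pi * (sy p z).re) = c at Z E
  generalize Real.exp (2 * Real.pi * (sy p z).im) * Real.sin (2 * Real.pi * (sy p z).re) = s at Z E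
  generalize Real.exp (2 * Real.pi * (sy r z).im) * Real.cos (2 * Real.pi * (sy r z).re) = c' at Z F
  generalize Real.exp (2 * Real.pi * (sy r z).im) * Real.sin (2 * Real.pi * (sy r z).re) = s' at Z F
  have a3 := Z.a3
  have a4 := Z.a4
  generalize (Complex.cos z ^ 2).re = A at K a3
  generalize -(Complex.cos z ^ 2).im = B at K a4
  generalize Real.cos (2 * Real.pi * X) * Real.cosh (2 * Real.pi * ν) = G at Q a3
  generalize Real.sin (2 * Real.pi * X) * Real.sinh (2 * Real.pi * ν) = H at P a4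
  obtain ⟨P1, P2⟩ := P
  obtain ⟨Q1, Q2⟩ := Q
  obtain ⟨K1, K2, K3, K4⟩ := K
  obtain ⟨E1, E2, E3, E4⟩ := E
  obtain ⟨F1, F2, F3, F4⟩ := F
  clear Z ok oy ob oz
  rcases hc with (h | h) | (h | h)
  · have e := ble_cast h
    simp only [cast_add', cast_mul'] at e
    push_cast at e
    clear h
    linarith
  · have e := ble_cast h
    simp only [cast_add', cast_mul'] at e
    push_cast at e
    clear h
    linarith
  · have e := ble_cast h
    simp only [cast_add', cast_mul'] at e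
    push_cast at e
    clear h
    linarith
  · have e := ble_cast h
    rw [Nat.succ_eq_add_one, Nat.cast_add, Nat.cast_one] at e
    simp only [cast_add', cast_mul'] at e
    push_cast at e
    clear h
    linarith

end Pool.Agent.S5.Z4
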