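import Pool.Agent.S5.Z4.RegJ

/-!
# Inner nodes with four half twists: the logarithm of a slot
-/

set_option autoImplicit false

namespace Pool.Agent.S5.Z4

open Pool.Agent.S3.NI
open Pool.Agent.H63.VC3 (hh)
open Pool.Agent.S5.YX (sgb ble_cast sub_sub_cast)
open Pool.Agent.S5.G (Slot sy zz4 lA lB kp)

/-! ### The argument -/

/-- Numbers of an angle. -/
structure Ang (C Sn : ℕ) (c s : ℝ) : Prop where
  c0 : (C : ℝ) ≤ c * 16777216
  c1 : c * 16777216 ≤ (C : ℝ) + 6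
  s0 : (Sn : ℝ) ≤ s * 16777216
  s1 : s * 16777216 ≤ (Sn : ℝ) + 6

theorem Ang.cn {C Sn : ℕ} {c s : ℝ} (h : Ang C Sn c s) : 0 ≤ c := by
  have := h.c0
  have : (0 : ℝ) ≤ C := Nat.cast_nonneg _
  by_contra hc
  push Not at hc
  linarith

theorem Ang.sn {C Sn : ℕ} {c s : ℝ} (h : Ang C Sn c s) : 0 ≤ s := by
  have := h.s0
  have : (0 : ℝ) ≤ Sn := Nat.cast_nonneg _
  by_contra hc
  push Not at hc
  linarith

theorem hxt_ok {C Sn : ℕ} {c s : ℝ} (g : Ang C Sn c s) {p q : Pv} {x y x' y' : ℝ} (h : VxR p x y) (h' : VxR q x' y')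
    (hd : hx C (Nat.add C 6) Sn true p q = true) : 0 - (s * x' - c * y') ≤ s * x - c * y := by
  unfold hx at hd
  rw [cond_true] at hd
  have e := ble_cast hd
  simp only [cast_add', cast_mul'] at e
  push_cast at e
  clear hd
  have a1 := mul_le_mul g.c1 (add_le_add h.y1 h'.y1) (by have := h.yn; have := h'.yn; positivity)
    (add_nonneg (Nat.cast_nonneg _) (by norm_num))
  have a2 := mul_le_mul g.s0 (add_le_add h.x0 h'.x0) (add_nonneg (Nat.cast_nonneg _) (Nat.cast_nonneg _))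
    (mul_nonneg g.sn (by norm_num))
  nlinarith

theorem hxf_ok {C Sn : ℕ} {c s : ℝ} (g : Ang C Sn c s) {p q : Pv} {x y x' y' : ℝ} (h : VxR p x y) (h' : VxR q x' y')
    (hd : hx C (Nat.add C 6) Sn false p q = true) : 0 - (s * x' + c * y') ≤ s * x - c * y := by
  unfold hx at hd
  rw [cond_false] at hd
  have e := ble_cast hd
  simp only [cast_add', cast_mul'] at e
  push_cast at e
  clear hd
  have a1 := mul_le_mul g.c1 h.y1 (mul_nonneg h.yn (by norm_num)) (add_nonneg (Nat.cast_nonneg _) (by norm_num))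
  have a2 := mul_le_mul g.s0 (add_le_add h.x0 h'.x0) (add_nonneg (Nat.cast_nonneg _) (Nat.cast_nonneg _))
    (mul_nonneg g.sn (by norm_num))
  have a3 := mul_le_mul g.c0 h'.y0 (Nat.cast_nonneg _) (mul_nonneg g.cn (by norm_num))
  nlinarith

theorem aU_ok {S : Bool} {a b : Se} {C Sn : ℕ} {c s : ℝ} (g : Ang C Sn c s) (h : aU' S a b C Sn = true) {u t u' t' : ℝ}
    (hp : Pr a b u t u' t') : 0 ≤ s * (u * Ac t + u' * Ac t') - c * (u * As t + sgb S * (u' * As t')) := by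
  obtain ⟨r1, r0, t0, t1, r1', r0', t0', t1', ha, hb, ⟨k1, k2, k3, k4⟩, ⟨k1', k2', k3', k4'⟩⟩ := hp.ex
  have tp : 0 ≤ t := ha.t00.trans k3
  have tp' : 0 ≤ t' := hb.t00.trans k3'
  have Zj0 := g.sn
  have Za0 := g.cn
  have AB : ∀ {x : ℝ}, 0 ≤ x → x ≤ 1 → 0 ≤ s * As x + c * Ac x := by
    intro x h0 h1
    have := Ac_nonneg h0 h1
    have := As_nonneg h0
    positivity
  unfold aU' at h
  cases S
  · rw [cond_false, Bool.and_eq_true, Bool.and_eq_true, Bool.and_eq_true] at h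
    obtain ⟨⟨v0, v1⟩, v2, v3⟩ := h
    have I := lin1 tp k4 ha.t11 Za0 (AB (ha.t00.trans ha.t01) ha.t11) ha.rp.le k1 k2 (hxf_ok g ha.i1 hb.i0 v0) (hxf_ok g ha.o1 hb.i0 v2)
    have O := lin1 tp k4 ha.t11 Za0 (AB (ha.t00.trans ha.t01) ha.t11) ha.rp.le k1 k2 (hxf_ok g ha.i1 hb.i1 v1) (hxf_ok g ha.o1 hb.i1 v3)
    have nn : ∀ {x : ℝ}, 0 ≤ x → x ≤ 1 → 0 ≤ s * (r1' * Ac x) + c * (r1' * As x) := by
      intro x h0 h1
      have := Ac_nonneg h0 h1
      have := As_nonneg h0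
      have := hb.rp
      positivity
    have k := lin2 (m := max (0 - (s * (u * Ac t) - c * (u * As t))) 0) (A := s)
      (B := c) hb.t00 k3' k4' hb.rp k1' (le_max_right _ _)
      (max_le (by linarith) (nn hb.t00 (hb.t01.trans hb.t11)))
      (max_le (by linarith) (nn (hb.t00.trans hb.t01) hb.t11))
    have := (le_max_left _ _).trans k
    rw [sgb_false]
    linarith
  · rw [cond_true, Bool.and_eq_true, Bool.and_eq_true, Bool.and_eq_true] at h
    obtain ⟨⟨v0, v1⟩, v2, v3⟩ := h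
    have I := lin1 tp k4 ha.t11 Za0 (AB (ha.t00.trans ha.t01) ha.t11) ha.rp.le k1 k2 (hxt_ok g ha.i1 hb.i1 v0) (hxt_ok g ha.o1 hb.i1 v2)
    have O := lin1 tp k4 ha.t11 Za0 (AB (ha.t00.trans ha.t01) ha.t11) ha.rp.le k1 k2 (hxt_ok g ha.i1 hb.o1 v1) (hxt_ok g ha.o1 hb.o1 v3)
    have k := lin1 (m := 0 - (s * (u * Ac t) - c * (u * As t))) (A := s) (B := c)
      tp' k4' hb.t11 Za0 (AB (hb.t00.trans hb.t01) hb.t11) hb.rp.le k1' k2' (by linarith) (by linarith)
    rw [sgb_true]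
    linarith

/-- A linear function that increases with the angle. -/
theorem lin3 {A B m r0 r1 u t0 t : ℝ} (h0 : 0 ≤ t0) (h2 : t0 ≤ t) (h3 : t ≤ 1) (hA : 0 ≤ A) (hB : 0 ≤ B)
    (hr : 0 ≤ r1) (hu : r1 ≤ u) (hu0 : u ≤ r0)
    (p0 : m ≤ B * (r1 * As t0) - A * (r1 * Ac t0)) (p1 : m ≤ B * (r0 * As t0) - A * (r0 * Ac t0)) :
    m ≤ B * (u * As t) - A * (u * Ac t) := by
  have a1 := Ac_anti h0 h2
  have a2 := As_mono h0 h2 h3
  have k : B * As t0 - A * Ac t0 ≤ B * As t - A * Ac t := by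
    nlinarith [mul_le_mul_of_nonneg_left a1 hA, mul_le_mul_of_nonneg_left a2 hB]
  have hu' : 0 ≤ u := hr.trans hu
  have k2 : u * (B * As t0 - A * Ac t0) ≤ B * (u * As t) - A * (u * Ac t) := by
    have := mul_le_mul_of_nonneg_left k hu'
    linarith
  refine le_trans ?_ k2
  rcases le_total 0 (B * As t0 - A * Ac t0) with hc | hc
  · have := mul_le_mul_of_nonneg_right hu hc
    linarith
  · have := mul_le_mul_of_nonpos_right hu0 hc
    linarith

theorem hyt_ok {C Sn : ℕ} {c s : ℝ} (g : Ang C Sn c s) {p q : Pv} {x y x' y' : ℝ} (h : VxR p x y) (h' : VxR q x' y')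
    (hd : hy C (Nat.add Sn 6) true p q = true) : s * x' - c * y' ≤ c * y - s * x := by
  unfold hy at hd
  rw [cond_true] at hd
  have e := ble_cast hd
  simp only [cast_add', cast_mul'] at e
  push_cast at e
  clear hd
  have a1 := mul_le_mul g.s1 (add_le_add h.x1 h'.x1) (by have := h.xn; have := h'.xn; positivity)
    (add_nonneg (Nat.cast_nonneg _) (by norm_num))
  have a2 := mul_le_mul g.c0 (add_le_add h.y0 h'.y0) (add_nonneg (Nat.cast_nonneg _) (Nat.cast_nonneg _))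
    (mul_nonneg g.cn (by norm_num))
  nlinarith

theorem hyf_ok {C Sn : ℕ} {c s : ℝ} (g : Ang C Sn c s) {p q : Pv} {x y x' y' : ℝ} (h : VxR p x y) (h' : VxR q x' y')
    (hd : hy C (Nat.add Sn 6) false p q = true) : s * x' + c * y' ≤ c * y - s * x := by
  unfold hy at hd
  rw [cond_false] at hd
  have e := ble_cast hd
  simp only [cast_add', cast_mul'] at e
  push_cast at e
  clear hd
  have a1 := mul_le_mul g.s1 (add_le_add h.x1 h'.x1) (by have := h.xn; have := h'.xn; positivity)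
    (add_nonneg (Nat.cast_nonneg _) (by norm_num))
  have a2 := mul_le_mul g.c0 h.y0 (Nat.cast_nonneg _) (mul_nonneg g.cn (by norm_num))
  have a3 := mul_le_mul g.c1 h'.y1 (mul_nonneg h'.yn (by norm_num)) (add_nonneg (Nat.cast_nonneg _) (by norm_num))
  nlinarith

theorem lin_cvx (A B M : ℝ) : Cvx (fun x y => A * x + B * y ≤ M) := by
  intro x y x' y' a b h h' ha hb hab
  have e1 := mul_le_mul_of_nonneg_left h ha
  have e2 := mul_le_mul_of_nonneg_left h' hb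
  have e3 : M = a * M + b * M := by rw [← add_mul, hab, one_mul]
  show A * (a * x + b * x') + B * (a * y + b * y') ≤ M
  rw [e3]
  linarith

theorem aL_ok {S : Bool} {a b : Se} {C Sn : ℕ} {c s : ℝ} (g : Ang C Sn c s) (h : aL' S a b C (Nat.add Sn 6) = true)
    {u t u' t' : ℝ} (hp : Pr a b u t u' t') :
    s * (u * Ac t + u' * Ac t') - c * (u * As t + sgb S * (u' * As t')) ≤ 0 := by
  obtain ⟨r1, r0, t0, t1, r1', r0', t0', t1', ha, hb, ⟨k1, k2, k3, k4⟩, ⟨k1', k2', k3', k4'⟩⟩ := hp.ex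
  have s0 := g.sn
  have c0 := g.cn
  have t1 : t ≤ 1 := k4.trans ha.t11
  have t1' : t' ≤ 1 := k4'.trans hb.t11
  unfold aL' at h
  cases S
  · rw [cond_false] at h
    simp only [Bool.and_eq_true] at h
    obtain ⟨⟨v0, v1, v2⟩, v3, v4, v5⟩ := h
    have nn : 0 ≤ s * (r0' * Ac t0') + c * (r0' * As t0') := by
      have := Ac_nonneg hb.t00 (hb.t01.trans hb.t11)
      have := As_nonneg hb.t00
      have : 0 ≤ r0' := hb.rp.le.trans (k1'.trans k2')
      positivity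
    have up : 0 ≤ u' := hb.rp.le.trans k1'
    have I := sector3 (lin_cvx s c (c * (r1 * As t0) - s * (r1 * Ac t0))) hb.t00 k3' k4' up k2'
      (by rw [mul_zero, mul_zero, add_zero]; exact nn.trans (hyf_ok g ha.i0 hb.o0 v0))
      (hyf_ok g ha.i0 hb.o0 v0) (hyf_ok g ha.i0 hb.o1 v1) (hyf_ok g ha.i0 hb.v v2)
    have O := sector3 (lin_cvx s c (c * (r0 * As t0) - s * (r0 * Ac t0))) hb.t00 k3' k4' up k2'
      (by rw [mul_zero, mul_zero, add_zero]; exact nn.trans (hyf_ok g ha.o0 hb.o0 v3))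
      (hyf_ok g ha.o0 hb.o0 v3) (hyf_ok g ha.o0 hb.o1 v4) (hyf_ok g ha.o0 hb.v v5)
    have k := lin3 (m := s * (u' * Ac t') + c * (u' * As t')) (A := s) (B := c) ha.t00 k3 t1 s0 c0 ha.rp.le k1 k2 I O
    rw [sgb_false]
    linarith
  · rw [cond_true, Bool.and_eq_true, Bool.and_eq_true, Bool.and_eq_true] at h
    obtain ⟨⟨v0, v1⟩, v2, v3⟩ := h
    have I := lin3 (A := s) (B := c) ha.t00 k3 t1 s0 c0 ha.rp.le k1 k2 (hyt_ok g ha.i0 hb.i0 v0) (hyt_ok g ha.o0 hb.i0 v2)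
    have O := lin3 (A := s) (B := c) ha.t00 k3 t1 s0 c0 ha.rp.le k1 k2 (hyt_ok g ha.i0 hb.o0 v1) (hyt_ok g ha.o0 hb.o0 v3)
    have k := lin3 (m := s * (u * Ac t) - c * (u * As t)) (A := s) (B := c) hb.t00 k3' t1' s0 c0 hb.rp.le k1' k2'
      (by linarith) (by linarith)
    rw [sgb_true]
    linarith

theorem arg_le_of {s : ℂ} {θ : ℝ} (hs : 0 < s.re) (h0 : 0 ≤ θ) (h1 : θ < Real.pi / 2)
    (h : 0 ≤ Real.sin θ * s.re - Real.cos θ * s.im) : s.arg ≤ θ := by
  have ha := abs_lt.1 (Complex.abs_arg_lt_pi_div_two_iff.2 (Or.inl hs))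
  have hn : 0 < ‖s‖ := norm_pos_iff.2 (fun hz => by rw [hz] at hs; exact lt_irrefl 0 hs)
  by_contra hc
  push Not at hc
  have e1 : s.re = ‖s‖ * Real.cos s.arg := (Complex.norm_mul_cos_arg s).symm
  have e2 : s.im = ‖s‖ * Real.sin s.arg := (Complex.norm_mul_sin_arg s).symm
  have e3 : Real.sin θ * s.re - Real.cos θ * s.im = -(‖s‖ * Real.sin (s.arg - θ)) := by
    rw [Real.sin_sub, e1, e2]
    have : ‖s‖ * Real.sin s.arg = s.im := e2.symm
    have a1 : (((‖s‖ * Real.cos s.arg : ℝ) : ℝ)) = ‖s‖ * Real.cos s.arg := rfl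
    ring_nf
  have e4 := mul_pos hn (Real.sin_pos_of_pos_of_lt_pi (by linarith : 0 < s.arg - θ) (by linarith [Real.pi_pos]))
  linarith

theorem le_arg_of {s : ℂ} {θ : ℝ} (hs : 0 < s.re) (h0 : 0 ≤ θ) (h1 : θ < Real.pi / 2)
    (h : Real.sin θ * s.re - Real.cos θ * s.im ≤ 0) : θ ≤ s.arg := by
  have ha := abs_lt.1 (Complex.abs_arg_lt_pi_div_two_iff.2 (Or.inl hs))
  have hn : 0 < ‖s‖ := norm_pos_iff.2 (fun hz => by rw [hz] at hs; exact lt_irrefl 0 hs)
  by_contra hc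
  push Not at hc
  have e1 : s.re = ‖s‖ * Real.cos s.arg := (Complex.norm_mul_cos_arg s).symm
  have e2 : s.im = ‖s‖ * Real.sin s.arg := (Complex.norm_mul_sin_arg s).symm
  have e3 : Real.sin θ * s.re - Real.cos θ * s.im = ‖s‖ * Real.sin (θ - s.arg) := by
    rw [Real.sin_sub]
    linear_combination Real.sin θ * e1 - Real.cos θ * e2
  have e4 := mul_pos hn (Real.sin_pos_of_pos_of_lt_pi (by linarith : 0 < θ - s.arg) (by linarith [Real.pi_pos]))
  linarith

end Pool.Agent.S5.Z4
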