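import Pool.Agent.S5.Z4.RegK

/-!
# Inner nodes with four half twists: the logarithm of a slot, the rectangle
-/

set_option autoImplicit false

namespace Pool.Agent.S5.Z4

open Pool.Agent.S3.NI
open Pool.Agent.H63.VC3 (hh)
open Pool.Agent.S5.YX (sgb ble_cast sub_sub_cast Sdat)
open Pool.Agent.S5.G (Slot sy zz4 lA lB kp)

theorem inv_parts {w : ℂ} (hw : w ≠ 0) : (1 / w ^ 2).re = Real.exp (-(2 * Real.log ‖w‖)) * Real.cos (2 * -w.arg) ∧
    (1 / w ^ 2).im = Real.exp (-(2 * Real.log ‖w‖)) * Real.sin (2 * -w.arg) := by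
  have e : 1 / w ^ 2 = Complex.exp (-(2 * Complex.log w)) := by
    rw [Complex.exp_neg, two_mul, Complex.exp_add, Complex.exp_log hw, one_div, pow_two]
  have r : (-(2 * Complex.log w)).re = -(2 * Real.log ‖w‖) := by
    rw [Complex.neg_re, Complex.mul_re, Complex.log_re]
    simp
  have i : (-(2 * Complex.log w)).im = 2 * -w.arg := by
    rw [Complex.neg_im, Complex.mul_im, Complex.log_im]
    simp
  rw [e, Complex.exp_re, Complex.exp_im, r, i]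
  exact ⟨rfl, rfl⟩

open ComplexConjugate in
theorem kp_parts {w : ℂ} (hw : w ≠ 0) (S : Bool) :
    (1 / (kp S w) ^ 2).re = Real.exp (-(2 * Real.log ‖w‖)) * Real.cos (2 * -w.arg) ∧
    (1 / (kp S w) ^ 2).im = sgb S * (Real.exp (-(2 * Real.log ‖w‖)) * Real.sin (2 * -w.arg)) := by
  obtain ⟨a, b⟩ := inv_parts hw
  cases S
  · have e : 1 / (kp false w) ^ 2 = conj (1 / w ^ 2) := by
      rw [G.kp_false, map_div₀, map_pow, map_one]
    rw [e, Complex.conj_re, Complex.conj_im, a, b, sgb_false]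
    exact ⟨rfl, by ring⟩
  · rw [G.kp_true, a, b, sgb_true]
    exact ⟨rfl, by ring⟩

/-- The square of the norm. -/
theorem norm2 (S : Bool) (U V f g : ℝ) : (U * Real.cos (2 * f) + V * Real.cos (2 * g)) ^ 2 +
    (U * Real.sin (2 * f) + sgb S * (V * Real.sin (2 * g))) ^ 2 =
      (U + V) ^ 2 - 4 * (U * V) * Real.sin |f - sgb S * g| ^ 2 := by
  have e1 : Real.sin |f - sgb S * g| ^ 2 = Real.sin (f - sgb S * g) ^ 2 := by
    rcases abs_choice (f - sgb S * g) with h | h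
    · rw [h]
    · rw [h, Real.sin_neg, neg_sq]
  have e2 : 2 * Real.sin (f - sgb S * g) ^ 2 = 1 - Real.cos (2 * (f - sgb S * g)) := by
    rw [Real.cos_two_mul]
    linarith [Real.sin_sq_add_cos_sq (f - sgb S * g)]
  have e3 : Real.cos (2 * (f - sgb S * g)) = Real.cos (2 * f) * Real.cos (2 * g) +
      sgb S * (Real.sin (2 * f) * Real.sin (2 * g)) := by
    cases S
    · rw [sgb_false, show 2 * (f - -1 * g) = 2 * f + 2 * g by ring, Real.cos_add]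
      ring
    · rw [sgb_true, show 2 * (f - 1 * g) = 2 * f - 2 * g by ring, Real.cos_sub]
      ring
  have q := sgb_sq S
  have a1 := Real.sin_sq_add_cos_sq (2 * f)
  have a2 := Real.sin_sq_add_cos_sq (2 * g)
  rw [e1]
  rw [e3] at e2
  linear_combination U ^ 2 * a1 + V ^ 2 * a2 + (V * Real.sin (2 * g)) ^ 2 * q + 2 * (U * V) * e2

theorem r_lo {u u1 v v1 σ σ1 : ℝ} (hσ : 0 ≤ σ) (h1 : σ ≤ σ1) (hu1 : 0 ≤ u1) (hu : u1 ≤ u) (hv1 : 0 ≤ v1) (hv : v1 ≤ v)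
    (m1 : 2 * v * σ1 ^ 2 ≤ u1 + v) (m2 : 2 * u1 * σ1 ^ 2 ≤ v1 + u1) :
    (u1 + v1) ^ 2 - 4 * (u1 * v1) * σ1 ^ 2 ≤ (u + v) ^ 2 - 4 * (u * v) * σ ^ 2 := by
  have s : σ ^ 2 ≤ σ1 ^ 2 := pow_le_pow_left₀ hσ h1 2
  have a : 0 ≤ (u - u1) * (u + u1 + 2 * v - 4 * v * σ1 ^ 2) := mul_nonneg (by linarith) (by linarith)
  have b : 0 ≤ (v - v1) * (v + v1 + 2 * u1 - 4 * u1 * σ1 ^ 2) := mul_nonneg (by linarith) (by linarith)
  have c : 4 * (u * v) * σ ^ 2 ≤ 4 * (u * v) * σ1 ^ 2 :=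
    mul_le_mul_of_nonneg_left s (by have : 0 ≤ u := by linarith
                                    have : 0 ≤ v := by linarith
                                    positivity)
  nlinarith

theorem r_hi {u u0 v v0 σ σ0 σ1 : ℝ} (hσ : 0 ≤ σ0) (h0 : σ0 ≤ σ) (h1 : σ ≤ σ1) (hu' : 0 ≤ u) (hu : u ≤ u0) (hv' : 0 ≤ v)
    (hv : v ≤ v0) (m1 : 2 * v * σ1 ^ 2 ≤ u + v) (m2 : 2 * u0 * σ1 ^ 2 ≤ v + u0) :
    (u + v) ^ 2 - 4 * (u * v) * σ ^ 2 ≤ (u0 + v0) ^ 2 - 4 * (u0 * v0) * σ0 ^ 2 := by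
  have s : σ0 ^ 2 ≤ σ ^ 2 := pow_le_pow_left₀ hσ h0 2
  have s1 : σ0 ^ 2 ≤ σ1 ^ 2 := pow_le_pow_left₀ hσ (h0.trans h1) 2
  have k1 : 2 * v * σ0 ^ 2 ≤ 2 * v * σ1 ^ 2 := mul_le_mul_of_nonneg_left s1 (by positivity)
  have u00 : 0 ≤ u0 := hu'.trans hu
  have k2 : 2 * u0 * σ0 ^ 2 ≤ 2 * u0 * σ1 ^ 2 := mul_le_mul_of_nonneg_left s1 (by positivity)
  have a : 0 ≤ (u0 - u) * (u + u0 + 2 * v - 4 * v * σ0 ^ 2) := mul_nonneg (by linarith) (by linarith)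
  have b : 0 ≤ (v0 - v) * (v + v0 + 2 * u0 - 4 * u0 * σ0 ^ 2) := mul_nonneg (by linarith) (by linarith)
  have c : 4 * (u * v) * σ0 ^ 2 ≤ 4 * (u * v) * σ ^ 2 :=
    mul_le_mul_of_nonneg_left s (by positivity)
  nlinarith

theorem mon_ok {u v s : ℕ} (h : mon u v s = true) {x y σ : ℝ} (hx : (u : ℝ) ≤ x * 16777216) (hy : y * 16777216 ≤ v)
    (hy0 : 0 ≤ y) (hσ : σ * 16777216 ≤ s) (hσ0 : 0 ≤ σ) : 2 * y * σ ^ 2 ≤ x + y := by
  unfold mon at h
  have e := ble_cast h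
  simp only [cast_add', cast_mul', sqn_cast] at e
  push_cast at e
  clear h
  have hv0 : (0 : ℝ) ≤ v := Nat.cast_nonneg _
  have hu0 : (0 : ℝ) ≤ u := Nat.cast_nonneg _
  -- in real units
  set S : ℝ := (s : ℝ) / 16777216 with hS
  have es : (s : ℝ) = S * 16777216 := by rw [hS]; field_simp
  rw [es] at e hσ
  have hσS : σ ≤ S := by linarith
  have s2 : σ ^ 2 ≤ S ^ 2 := pow_le_pow_left₀ hσ0 hσS 2
  have e' : 2 * (v : ℝ) * S ^ 2 ≤ u + v := by nlinarith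
  clear e hS es hσ
  clear_value S
  rcases le_total (2 * S ^ 2) 1 with h | h
  · have : 2 * y * σ ^ 2 ≤ y := by nlinarith
    have : 0 ≤ x := by linarith
    linarith
  · have k : (2 * S ^ 2 - 1) * (y * 16777216) ≤ (2 * S ^ 2 - 1) * v := mul_le_mul_of_nonneg_left hy (by linarith)
    have k2 : y * σ ^ 2 ≤ y * S ^ 2 := mul_le_mul_of_nonneg_left s2 hy0
    nlinarith

/-- The bounds for the norm. -/
theorem rH2_ok {u1 u0 v1 v0 s1 s0 : ℕ} {h : Rc} (hr : rH2 u1 u0 v1 v0 s1 s0 h = true) {u v σ : ℝ} (hσ0 : 0 ≤ σ)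
    (a1 : (u1 : ℝ) ≤ u * 16777216) (a0 : u * 16777216 ≤ (u0 : ℝ) + 6) (b1 : (v1 : ℝ) ≤ v * 16777216)
    (b0 : v * 16777216 ≤ (v0 : ℝ) + 6) (c1 : σ * 16777216 ≤ (s1 : ℝ) + 6) (c0 : (s0 : ℝ) ≤ σ * 16777216) {R : ℝ}
    (hR : R = (u + v) ^ 2 - 4 * (u * v) * σ ^ 2) (hR0 : 0 ≤ R) :
    16 * (((uT (Nat.add h.t1 500) : ℕ) : ℝ) + 6) ^ 2 ≤ R * 281474976710656 ∧
      R * 281474976710656 ≤ 16 * ((uT (Nat.add h.t0 500) : ℕ) : ℝ) ^ 2 := by
  unfold rH2 at hr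
  simp only [Bool.and_eq_true] at hr
  obtain ⟨m1, m2, t1, t0⟩ := hr
  have k6 (n : ℕ) : ((Nat.add n 6 : ℕ) : ℝ) = (n : ℝ) + 6 := by rw [cast_add']; norm_num
  have q1 := ble_cast t1
  have q0 := ble_cast t0
  have k16 : ((16 : ℕ) : ℝ) = 16 := by norm_num
  rw [cast_mul', sqn_cast, k16, k6] at q1
  rw [cast_mul', sqn_cast, k16] at q0
  have u10 : (0 : ℝ) ≤ u1 := Nat.cast_nonneg _
  have u00 : (0 : ℝ) ≤ u0 := Nat.cast_nonneg _
  have v10 : (0 : ℝ) ≤ v1 := Nat.cast_nonneg _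
  have v00 : (0 : ℝ) ≤ v0 := Nat.cast_nonneg _
  have s10 : (0 : ℝ) ≤ s1 := Nat.cast_nonneg _
  have s00 : (0 : ℝ) ≤ s0 := Nat.cast_nonneg _
  -- real units
  obtain ⟨U1, hU1⟩ : ∃ x : ℝ, (u1 : ℝ) = x * 16777216 := ⟨u1 / 16777216, by field_simp⟩
  obtain ⟨U0, hU0⟩ : ∃ x : ℝ, (u0 : ℝ) + 6 = x * 16777216 := ⟨(u0 + 6) / 16777216, by field_simp⟩
  obtain ⟨V1, hV1⟩ : ∃ x : ℝ, (v1 : ℝ) = x * 16777216 := ⟨v1 / 16777216, by field_simp⟩
  obtain ⟨V0, hV0⟩ : ∃ x : ℝ, (v0 : ℝ) + 6 = x * 16777216 := ⟨(v0 + 6) / 16777216, by field_simp⟩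
  obtain ⟨S1, hS1⟩ : ∃ x : ℝ, (s1 : ℝ) + 6 = x * 16777216 := ⟨(s1 + 6) / 16777216, by field_simp⟩
  obtain ⟨S0, hS0⟩ : ∃ x : ℝ, (s0 : ℝ) = x * 16777216 := ⟨s0 / 16777216, by field_simp⟩
  have U1u : U1 ≤ u := by linarith
  have V1v : V1 ≤ v := by linarith
  have uU0 : u ≤ U0 := by linarith
  have vV0 : v ≤ V0 := by linarith
  have U10 : 0 ≤ U1 := by linarith
  have V10 : 0 ≤ V1 := by linarith
  have σS1 : σ ≤ S1 := by linarith
  have S0σ : S0 ≤ σ := by linarith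
  have S00 : 0 ≤ S0 := by linarith
  have S10 : 0 ≤ S1 := by linarith
  have hmS : S1 * 16777216 ≤ ((Nat.add s1 6 : ℕ) : ℝ) := by rw [k6]; linarith
  have w1 {x : ℝ} (h : x ≤ V0) : x * 16777216 ≤ ((Nat.add v0 6 : ℕ) : ℝ) := by rw [k6]; linarith
  have w2 {x : ℝ} (h : x ≤ U0) : x * 16777216 ≤ ((Nat.add u0 6 : ℕ) : ℝ) := by rw [k6]; linarith
  have M1 (x y : ℝ) (hx : U1 ≤ x) (hy : y ≤ V0) (hy0 : 0 ≤ y) : 2 * y * S1 ^ 2 ≤ x + y :=
    mon_ok m1 (by linarith) (w1 hy) hy0 hmS S10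
  have M2 (x y : ℝ) (hx : V1 ≤ x) (hy : y ≤ U0) (hy0 : 0 ≤ y) : 2 * y * S1 ^ 2 ≤ x + y :=
    mon_ok m2 (by linarith) (w2 hy) hy0 hmS S10
  have lo := r_lo hσ0 σS1 U10 U1u V10 V1v (M1 U1 v le_rfl vV0 (by linarith)) (M2 V1 U1 le_rfl (by linarith) U10)
  have hi := r_hi S00 S0σ σS1 (by linarith) uU0 (by linarith) vV0 (M1 u v U1u vV0 (by linarith))
    (M2 v U0 V1v le_rfl (by linarith))
  rw [← hR] at lo hi
  constructor
  · refine q1.trans ?_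
    unfold r2L
    apply nsub_le _ (by positivity)
    rw [sqn_cast, cast_add', hU1, hV1]
    have d := le_succ_div (Nat.mul (Nat.mul 4 (Nat.mul u1 v1)) (sqn (Nat.add s1 6))) (by norm_num : 0 < 281474976710656)
    rw [cast_mul', cast_mul', cast_mul', sqn_cast, k6, hU1, hV1, hS1, cU2] at d
    have k4 : ((4 : ℕ) : ℝ) = 4 := by norm_num
    rw [k4, div_le_iff₀ (by norm_num)] at d
    generalize ((Nat.succ (Nat.div (Nat.mul (Nat.mul 4 (Nat.mul u1 v1)) (sqn (Nat.add s1 6))) 281474976710656) : ℕ) : ℝ) = D at d ⊢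
    nlinarith
  · refine le_trans ?_ q0
    unfold r2U
    apply le_nsub
    rw [sqn_cast, cast_add', k6, k6, hU0, hV0]
    have d := nat_div_le (Nat.mul (Nat.mul 4 (Nat.mul (Nat.add u0 6) (Nat.add v0 6))) (sqn s0)) 281474976710656
    rw [cast_mul', cast_mul', cast_mul', sqn_cast, k6, k6, hU0, hV0, hS0, cU2] at d
    have k4 : ((4 : ℕ) : ℝ) = 4 := by norm_num
    rw [k4, le_div_iff₀ (by norm_num)] at d
    generalize ((Nat.div (Nat.mul (Nat.mul 4 (Nat.mul (Nat.add u0 6) (Nat.add v0 6))) (sqn s0)) 281474976710656 : ℕ) : ℝ) = D at d ⊢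
    nlinarith

/-- The logarithm. -/
theorem hh_of {s y : ℂ} (h : Sdat s y) (hs : 0 < s.re) : 2 * hh (1 / 2 - y) = Real.log 4 - Complex.log s := by
  have hs0 : s ≠ 0 := fun hz => by rw [hz] at hs; exact lt_irrefl 0 hs
  have hpi := Real.pi_pos
  set E : ℂ := 2 * Complex.cos (Real.pi * y) with hE
  have eE : 2 * Complex.sin (Real.pi * (1 / 2 - y)) = E := by
    rw [hE, show (Real.pi : ℂ) * (1 / 2 - y) = Real.pi / 2 - Real.pi * y by ring, Complex.sin_pi_div_two_sub]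
  have cr : (Complex.cos (Real.pi * y)).re = Real.cos (Real.pi * y.re) * Real.cosh (Real.pi * y.im) := by
    rw [G.cos_re, Complex.re_ofReal_mul, Complex.im_ofReal_mul]
  have c0 : 0 < (Complex.cos (Real.pi * y)).re := by
    rw [cr]
    exact mul_pos (Real.cos_pos_of_mem_Ioo ⟨by nlinarith [h.y0], by nlinarith [h.y1]⟩) (Real.cosh_pos _)
  have cn : Complex.cos (Real.pi * y) ≠ 0 := fun hz => by rw [hz] at c0; exact lt_irrefl 0 c0
  have E0 : 0 < E.re := by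
    rw [hE]
    simp only [Complex.mul_re, Complex.re_ofNat, Complex.im_ofNat, zero_mul, sub_zero]
    linarith
  have En : E ≠ 0 := fun hz => by rw [hz] at E0; exact lt_irrefl 0 E0
  have e2 : E ^ 2 = 4 * s⁻¹ := by
    have ht := h.ht
    rw [Complex.tan_eq_sin_div_cos, div_pow, div_eq_iff (pow_ne_zero 2 cn)] at ht
    have hcs := Complex.sin_sq_add_cos_sq (Real.pi * y)
    have : Complex.cos (Real.pi * y) ^ 2 * s = 1 := by linear_combination hcs - ht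
    rw [hE, mul_pow, eq_comm, ← div_eq_mul_inv, div_eq_iff hs0]
    linear_combination (-4 : ℂ) * this
  have ha := abs_lt.1 (Complex.abs_arg_lt_pi_div_two_iff.2 (Or.inl E0))
  have l1 : 2 * Complex.log E = Complex.log (E ^ 2) := by
    rw [← Complex.log_exp (x := 2 * Complex.log E)]
    · congr 1
      rw [two_mul, Complex.exp_add, Complex.exp_log En, pow_two]
    · rw [Complex.mul_im, Complex.log_im]
      simp only [Complex.re_ofNat, Complex.im_ofNat, zero_mul, add_zero]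
      linarith
    · rw [Complex.mul_im, Complex.log_im]
      simp only [Complex.re_ofNat, Complex.im_ofNat, zero_mul, add_zero]
      linarith
  unfold hh
  rw [eE, l1, e2]
  have hπ : s.arg ≠ Real.pi := by
    have := abs_lt.1 (Complex.abs_arg_lt_pi_div_two_iff.2 (Or.inl hs))
    intro h
    linarith
  have l2 := Complex.log_ofReal_mul (r := 4) (by norm_num) (inv_ne_zero hs0)
  push_cast at l2
  rw [l2, Complex.log_inv s hπ]
  push_cast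
  ring

end Pool.Agent.S5.Z4
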