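import Pool.Agent.S5.Z4.RegL

/-!
# Inner nodes with four half twists: the rectangle of the logarithm of a slot and the cell of a region
-/

set_option autoImplicit false

namespace Pool.Agent.S5.Z4

open Pool.Agent.S3.NI
open Pool.Agent.H63.VC3 (hh)
open Pool.Agent.S5.YX (sgb ble_cast sub_sub_cast Sdat)
open Pool.Agent.S5.G (Slot sy zz4 lA lB kp)

theorem two_mul_cast (n : ℕ) : ((Nat.mul 2 n : ℕ) : ℝ) = 2 * n := by rw [cast_mul']; norm_num

theorem ang_of {n : ℕ} (hn : n ≤ 785) : Ang (cosT (Nat.mul 2 n)) (sinT (Nat.mul 2 n))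
    (Real.cos (2 * n / 1000)) (Real.sin (2 * n / 1000)) := by
  have n1 : Nat.mul 2 n ≤ 1570 := by show 2 * n ≤ 1570; omega
  have c := tv_cos n1
  have s := tv_sin n1
  rw [two_mul_cast] at c s
  exact ⟨c.1, c.2, s.1, s.2⟩

theorem th_lt {n : ℕ} (hn : n ≤ 785) : 0 ≤ 2 * (n : ℝ) / 1000 ∧ 2 * (n : ℝ) / 1000 < Real.pi / 2 := by
  have : (n : ℝ) ≤ 785 := by exact_mod_cast hn
  have := Real.pi_gt_d4
  exact ⟨by positivity, by linarith⟩

theorem aU_arg {S : Bool} {a b : Se} {n : ℕ} (h : aU S a b n = true) {u t u' t' : ℝ} (hp : Pr a b u t u' t') {s : ℂ}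
    (hs : SpR S s u t u' t') (h0 : 0 < s.re) : s.arg ≤ 2 * n / 1000 := by
  unfold aU at h
  rw [Bool.and_eq_true] at h
  have hn : n ≤ 785 := Nat.le_of_ble_eq_true h.1
  have k := aU_ok (ang_of hn) h.2 hp
  rw [← hs.re, ← hs.im] at k
  exact arg_le_of h0 (th_lt hn).1 (th_lt hn).2 k

theorem aL_arg {S : Bool} {a b : Se} {n : ℕ} (h : aL S a b n = true) {u t u' t' : ℝ} (hp : Pr a b u t u' t') {s : ℂ}
    (hs : SpR S s u t u' t') (h0 : 0 < s.re) : 2 * n / 1000 ≤ s.arg := by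
  unfold aL at h
  rw [Bool.and_eq_true] at h
  have hn : n ≤ 785 := Nat.le_of_ble_eq_true h.1
  have k := aL_ok (ang_of hn) h.2 hp
  rw [← hs.re, ← hs.im] at k
  exact le_arg_of h0 (th_lt hn).1 (th_lt hn).2 k

open ComplexConjugate in
theorem arg_conj' {s : ℂ} (h0 : 0 < s.re) : (conj s).arg = -s.arg := by
  have := abs_lt.1 (Complex.abs_arg_lt_pi_div_two_iff.2 (Or.inl h0))
  rw [Complex.arg_conj, if_neg]
  intro h
  linarith [Real.pi_pos]

theorem gL_ok {S : Bool} {a b : Se} {e : ℕ} (h : gL S a b e = true) {u t u' t' : ℝ} (hp : Pr a b u t u' t') {s : ℂ}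
    (hs : SpR S s u t u' t') (h0 : 0 < s.re) : ((e : ℝ) - 1000) / 1000 ≤ -s.arg / 2 := by
  unfold gL at h
  rcases hb : Nat.ble e 1000 with _ | _
  · rw [hb, cond_false, Bool.and_eq_true] at h
    have he : 1000 ≤ e := by
      by_contra hc
      rw [Nat.ble_eq_true_of_le (Nat.le_of_not_le hc)] at hb
      exact Bool.false_ne_true hb.symm
    obtain ⟨h1, h2⟩ := h
    cases S
    · have k := aL_arg h2 hp.symm hs.conj (by rw [Complex.conj_re]; exact h0)
      rw [arg_conj' h0, cast_sub' he] at k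
      push_cast at k
      linarith
    · exact absurd h1 (by decide)
  · rw [hb, cond_true] at h
    have he : e ≤ 1000 := Nat.le_of_ble_eq_true hb
    have k := aU_arg h hp hs h0
    rw [cast_sub' he] at k
    push_cast at k
    linarith

theorem gU_ok {S : Bool} {a b : Se} {e : ℕ} (h : gU S a b e = true) {u t u' t' : ℝ} (hp : Pr a b u t u' t') {s : ℂ}
    (hs : SpR S s u t u' t') (h0 : 0 < s.re) : -s.arg / 2 ≤ ((e : ℝ) - 1000) / 1000 := by
  unfold gU at h
  rcases hb : Nat.ble 1000 e with _ | _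
  · rw [hb, cond_false] at h
    have he : e ≤ 1000 := by
      by_contra hc
      rw [Nat.ble_eq_true_of_le (Nat.le_of_not_le hc)] at hb
      exact Bool.false_ne_true hb.symm
    have k := aL_arg h hp hs h0
    rw [cast_sub' he] at k
    push_cast at k
    linarith
  · rw [hb, cond_true] at h
    have he : 1000 ≤ e := Nat.le_of_ble_eq_true hb
    have he' : (1000 : ℝ) ≤ e := by exact_mod_cast he
    cases S
    · rw [Bool.false_or] at h
      have k := aU_arg h hp.symm hs.conj (by rw [Complex.conj_re]; exact h0)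
      rw [arg_conj' h0, cast_sub' he] at k
      push_cast at k
      linarith
    · have hi : 0 ≤ s.im := by
        rw [hs.im, sgb_true]
        have := As_nonneg hs.t0
        have := As_nonneg hs.t0'
        have := hs.u0
        have := hs.u0'
        positivity
      have : 0 ≤ s.arg := Complex.arg_nonneg_iff.2 hi
      linarith

/-- The differences of the angles. -/
theorem df_ok {S : Bool} {k b : Ce} (ok : okC k = true) (ob : okC b = true) {w c : ℂ} (hk : InC k w) (hb : InC b c) :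
    (((dfL S k b : ℕ) : ℝ) / 1000 ≤ |(-w.arg) - sgb S * (-c.arg)| ∧
      |(-w.arg) - sgb S * (-c.arg)| ≤ ((dfU S k b : ℕ) : ℝ) / 1000) ∧ dfU S k b ≤ 1570 := by
  obtain ⟨_, _, _, h4, h5, _⟩ := okC_iff ok
  obtain ⟨_, _, _, g4, g5, _⟩ := okC_iff ob
  obtain ⟨_, f0, f1⟩ := hk
  obtain ⟨_, e0, e1⟩ := hb
  generalize -w.arg = φ at f0 f1 ⊢
  generalize -c.arg = ψ at e0 e1 ⊢
  have i4 : (k.f0 : ℝ) ≤ k.f1 := Nat.cast_le.2 h4
  have j4 : (b.f0 : ℝ) ≤ b.f1 := Nat.cast_le.2 g4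
  cases S
  · rw [sgb_false]
    unfold dfL dfU
    rw [cond_false, cond_false, cast_add', cast_add']
    have p0 : (0 : ℝ) ≤ k.f0 := Nat.cast_nonneg _
    have p1 : (0 : ℝ) ≤ b.f0 := Nat.cast_nonneg _
    rw [abs_of_nonneg (by linarith)]
    refine ⟨⟨by linarith, by linarith⟩, ?_⟩
    show k.f1 + b.f1 ≤ 1570
    omega
  · rw [sgb_true]
    have m1 := mnd_ok (a := k.f0) (b := b.f1) (c := b.f0) (d := k.f1) (x := (φ - 1 * ψ) * 1000) (by linarith) (by linarith)
    have m2 := mxd_ok (a := k.f1) (b := b.f0) (c := b.f1) (d := k.f0) (x := (φ - 1 * ψ) * 1000) (by linarith) (by linarith)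
    have e : |(φ - 1 * ψ) * 1000| = |φ - 1 * ψ| * 1000 := by
      rw [abs_mul]
      norm_num
    rw [e] at m1 m2
    refine ⟨⟨?_, ?_⟩, ?_⟩
    · show ((Nat.add (Nat.sub k.f0 b.f1) (Nat.sub b.f0 k.f1) : ℕ) : ℝ) / 1000 ≤ _
      linarith
    · show _ ≤ ((mxd k.f1 b.f0 b.f1 k.f0 : ℕ) : ℝ) / 1000
      linarith
    · show (bif Nat.ble (Nat.sub k.f1 b.f0) (Nat.sub b.f1 k.f0) then Nat.sub b.f1 k.f0 else Nat.sub k.f1 b.f0) ≤ 1570
      rcases Nat.ble (Nat.sub k.f1 b.f0) (Nat.sub b.f1 k.f0) with _ | _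
      · show k.f1 - b.f0 ≤ 1570
        omega
      · show b.f1 - k.f0 ≤ 1570
        omega

theorem u_ok {k : Ce} (ok : okC k = true) {w : ℂ} (h : InC k w) :
    ((uT k.a1 : ℕ) : ℝ) ≤ Real.exp (-(2 * Real.log ‖w‖)) * 16777216 ∧
      Real.exp (-(2 * Real.log ‖w‖)) * 16777216 ≤ ((uT k.a0 : ℕ) : ℝ) + 6 := by
  obtain ⟨h1, h2, h3, _, _, _⟩ := okC_iff ok
  obtain ⟨⟨a0, a1⟩, _⟩ := h
  constructor
  · refine (tv_u (h1.trans h2) (h3.trans (by norm_num))).1.trans (mul_le_mul_of_nonneg_right ?_ (by norm_num))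
    apply Real.exp_le_exp.2
    linarith
  · refine le_trans (mul_le_mul_of_nonneg_right ?_ (by norm_num)) (tv_u h1 (h2.trans (h3.trans (by norm_num)))).2
    apply Real.exp_le_exp.2
    linarith

theorem er_h {n : ℕ} (h0 : 100 ≤ n) (h1 : n ≤ 1050) :
    ((uT (Nat.add n 500) : ℕ) : ℝ) ≤ Real.exp (1 - n / 500) * 16777216 ∧
      Real.exp (1 - n / 500) * 16777216 ≤ ((uT (Nat.add n 500) : ℕ) : ℝ) + 6 := by
  have h := tv_u (a := Nat.add n 500) (by show 520 ≤ n + 500; omega) (by show n + 500 ≤ 1550; omega)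
  have e : (2 : ℝ) - ((Nat.add n 500 : ℕ) : ℝ) / 500 = 1 - n / 500 := by
    rw [cast_add']
    push_cast
    ring
  rw [e] at h
  exact h

/-- The real part. -/
theorem reH {R s : ℝ} (hs : 0 < s) (hR : R = s ^ 2) {n : ℕ} (h0 : 100 ≤ n) (h1 : n ≤ 1050) :
    (16 * (((uT (Nat.add n 500) : ℕ) : ℝ) + 6) ^ 2 ≤ R * 281474976710656 →
      Real.log 4 - Real.log s ≤ ((n : ℝ) - 500) / 500) ∧
    (R * 281474976710656 ≤ 16 * ((uT (Nat.add n 500) : ℕ) : ℝ) ^ 2 →
      ((n : ℝ) - 500) / 500 ≤ Real.log 4 - Real.log s) := by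
  obtain ⟨e1, e2⟩ := er_h h0 h1
  have u0 : (0 : ℝ) ≤ ((uT (Nat.add n 500) : ℕ) : ℝ) := Nat.cast_nonneg _
  generalize ((uT (Nat.add n 500) : ℕ) : ℝ) = U at *
  have el : Real.log (4 * Real.exp (1 - n / 500)) = Real.log 4 + (1 - n / 500) := by
    rw [Real.log_mul (by norm_num) (Real.exp_pos _).ne', Real.log_exp]
  have ep := Real.exp_pos (1 - (n : ℝ) / 500)
  constructor
  · intro h
    have k : (4 * Real.exp (1 - (n : ℝ) / 500)) ^ 2 ≤ s ^ 2 := by
      have := pow_le_pow_left₀ (by positivity) e2 2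
      rw [hR] at h
      nlinarith
    have k2 := abs_le_of_sq_le_sq' k hs.le |>.2
    have k3 := Real.log_le_log (by positivity) k2
    rw [el] at k3
    linarith
  · intro h
    have k : s ^ 2 ≤ (4 * Real.exp (1 - (n : ℝ) / 500)) ^ 2 := by
      have := pow_le_pow_left₀ u0 e1 2
      rw [hR] at h
      nlinarith
    have k2 := abs_le_of_sq_le_sq' k (by positivity) |>.2
    have k3 := Real.log_le_log hs k2
    rw [el] at k3
    linarith

/-- The rectangle of the logarithm of a slot. -/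
theorem regH_sound {S : Bool} {k b : Ce} {h : Rc} (hr : regH S k b h = true) {c q z : ℂ}
    (hs : G.Sd S c q z) (hk : InC k (Complex.cos z)) (hb : InC b c) : InH h (hh (1 / 2 - sy q z)) := by
  unfold regH at hr
  simp only [Bool.and_eq_true] at hr
  obtain ⟨ok, ob, t0, t0', t1, t1', hr, hl, hu⟩ := hr
  have t0 : 100 ≤ h.t0 := Nat.le_of_ble_eq_true t0
  have t0' : h.t0 ≤ 1050 := Nat.le_of_ble_eq_true t0'
  have t1 : 100 ≤ h.t1 := Nat.le_of_ble_eq_true t1
  have t1' : h.t1 ≤ 1050 := Nat.le_of_ble_eq_true t1'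
  obtain ⟨u, t, u', t', hp, hsp⟩ := slot_pts (S := S) ok ob hk hb hs.cz hs.c_ne
  have hd : Sdat (1 / Complex.cos z ^ 2 + 1 / (kp S c) ^ 2) (sy q z) := by
    refine ⟨hs.slot.sy_re.1, hs.re_lt, ?_⟩
    rw [hs.tan_eq, hs.tan_sq]
  obtain ⟨r1, i1⟩ := inv_parts hs.cz
  obtain ⟨r2, i2⟩ := kp_parts hs.c_ne S
  obtain ⟨⟨d0, d1⟩, d2⟩ := df_ok (S := S) ok ob hk hb
  obtain ⟨x1, x0⟩ := u_ok ok hk
  obtain ⟨y1, y0⟩ := u_ok ob hb
  have o5 := okC_iff ok
  have p5 := okC_iff ob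
  have cpos {w : ℂ} {k : Ce} (ok : okC k = true) (h : InC k w) : 0 < Real.cos (2 * -w.arg) := by
    obtain ⟨_, _, _, h4, h5, _⟩ := okC_iff ok
    obtain ⟨_, b0, b1⟩ := h
    have : (k.f1 : ℝ) ≤ 785 := by exact_mod_cast h5
    have : (0 : ℝ) ≤ k.f0 := Nat.cast_nonneg _
    have := Real.pi_gt_d4
    exact Real.cos_pos_of_mem_Ioo ⟨by linarith, by linarith⟩
  have c1 := cpos ok hk
  have c2 := cpos ob hb
  have nrm := norm2 S (Real.exp (-(2 * Real.log ‖Complex.cos z‖))) (Real.exp (-(2 * Real.log ‖c‖)))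
    (-(Complex.cos z).arg) (-c.arg)
  have sre := Complex.add_re (1 / Complex.cos z ^ 2) (1 / (kp S c) ^ 2)
  have sim := Complex.add_im (1 / Complex.cos z ^ 2) (1 / (kp S c) ^ 2)
  rw [r1, r2] at sre
  rw [i1, i2] at sim
  rw [← sre, ← sim, re2] at nrm
  have s0 : 0 < (1 / Complex.cos z ^ 2 + 1 / (kp S c) ^ 2).re := by
    rw [sre]
    have := Real.exp_pos (-(2 * Real.log ‖Complex.cos z‖))
    have := Real.exp_pos (-(2 * Real.log ‖c‖))
    positivity
  have H := hh_of hd s0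
  generalize 1 / Complex.cos z ^ 2 + 1 / (kp S c) ^ 2 = s at *
  have σ0 : 0 ≤ |(-(Complex.cos z).arg) - sgb S * (-c.arg)| := abs_nonneg _
  have d2' : ((dfU S k b : ℕ) : ℝ) ≤ 1570 := by exact_mod_cast d2
  have hpi := Real.pi_gt_d4
  have dLU : ((dfL S k b : ℕ) : ℝ) ≤ ((dfU S k b : ℕ) : ℝ) := by linarith
  have d3 : dfL S k b ≤ 1570 := (Nat.cast_le.1 dLU).trans d2
  have q1 : Real.sin |(-(Complex.cos z).arg) - sgb S * (-c.arg)| * 16777216 ≤ ((sinT (dfU S k b) : ℕ) : ℝ) + 6 := by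
    refine le_trans (mul_le_mul_of_nonneg_right ?_ (by norm_num)) (tv_sin d2).2
    exact Real.sin_le_sin_of_le_of_le_pi_div_two (by linarith) (by linarith) d1
  have q0 : ((sinT (dfL S k b) : ℕ) : ℝ) ≤ Real.sin |(-(Complex.cos z).arg) - sgb S * (-c.arg)| * 16777216 := by
    refine (tv_sin d3).1.trans (mul_le_mul_of_nonneg_right ?_ (by norm_num))
    refine Real.sin_le_sin_of_le_of_le_pi_div_two ?_ (by linarith) d0
    have : (0 : ℝ) ≤ ((dfL S k b : ℕ) : ℝ) / 1000 := div_nonneg (Nat.cast_nonneg _) (by norm_num)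
    linarith
  have qn : 0 ≤ Real.sin |(-(Complex.cos z).arg) - sgb S * (-c.arg)| :=
    Real.sin_nonneg_of_nonneg_of_le_pi σ0 (by linarith)
  have hn : 0 < ‖s‖ := norm_pos_iff.2 (fun hz => by rw [hz] at s0; exact lt_irrefl 0 s0)
  obtain ⟨b1, b0⟩ := rH2_ok hr qn x1 x0 y1 y0 q1 q0 nrm (by positivity)
  have R1 := (reH hn rfl t1 t1').1 b1
  have R0 := (reH hn rfl t0 t0').2 b0
  have L := gL_ok hl hp hsp s0
  have U := gU_ok hu hp hsp s0
  have Hre := congrArg Complex.re H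
  have Him := congrArg Complex.im H
  rw [Complex.sub_re, Complex.log_re, Complex.ofReal_re] at Hre
  rw [Complex.sub_im, Complex.log_im, Complex.ofReal_im] at Him
  simp only [Complex.mul_re, Complex.mul_im, Complex.re_ofNat, Complex.im_ofNat, zero_mul, sub_zero, add_zero] at Hre Him
  refine ⟨⟨by linarith, by linarith⟩, by linarith, by linarith⟩

/-! ### The cell of a region -/

open ComplexConjugate in
theorem ofR_sound {r : E.B2.Rg} {c : Ce} (h : ofR r c = true) {w : ℂ} (hw : E.B2.InR r w.re (-w.im)) : InC c w := by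
  unfold ofR at h
  simp only [Bool.and_eq_true, Bool.or_eq_true] at h
  obtain ⟨oc, k1, n0, n1, f0, f1⟩ := h
  obtain ⟨h1, h2, h3, h4, h5, h6⟩ := okC_iff oc
  have k1' : (1 : ℝ) ≤ r.k0 := by exact_mod_cast Nat.le_of_ble_eq_true k1
  have nn : w.re ^ 2 + (-w.im) ^ 2 = ‖w‖ ^ 2 := by rw [neg_sq]; exact re2 w
  have lo := hw.lo
  have hi := hw.hi
  rw [nn] at lo hi
  have hpos : 0 < ‖w‖ := by
    rcases (norm_nonneg w).eq_or_lt with h | h
    · rw [← h] at lo
      have : 0 < ((r.k0 : ℝ) / 1000) ^ 2 := by positivity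
      linarith
    · exact h
  have hne : w ≠ 0 := norm_pos_iff.1 hpos
  have hre : 0 < w.re := by
    rcases hw.x0.eq_or_lt with h | h
    · exfalso
      have a1 := hw.a1
      rw [← h, mul_zero] at a1
      have y0 := hw.y0
      have : w = 0 := Complex.ext (by rw [← h]; rfl) (by rw [Complex.zero_im]; linarith)
      exact hne this
    · exact h
  have ex : Real.exp (2 * Real.log ‖w‖) = ‖w‖ ^ 2 := by
    rw [two_mul, Real.exp_add, Real.exp_log hpos, pow_two]
  have U0 := (tv_u (a := Nat.sub 2000 c.a0) (by show 520 ≤ 2000 - c.a0; omega) (by show 2000 - c.a0 ≤ 1550; omega)).2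
  have U1 := (tv_u (a := Nat.sub 2000 c.a1) (by show 520 ≤ 2000 - c.a1; omega) (by show 2000 - c.a1 ≤ 1550; omega)).1
  rw [cast_sub' (by omega : c.a0 ≤ 2000)] at U0
  rw [cast_sub' (by omega : c.a1 ≤ 2000)] at U1
  have m0 := ble_cast n0
  have m1 := ble_cast n1
  simp only [cast_mul', cast_add', sqn_cast] at m0 m1
  push_cast at m0 m1 U0 U1
  generalize ((uT (Nat.sub 2000 c.a0) : ℕ) : ℝ) = u0 at m0 U0
  generalize ((uT (Nat.sub 2000 c.a1) : ℕ) : ℝ) = u1 at m1 U1
  -- the angle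
  have cre : (conj w).re = w.re := Complex.conj_re w
  have cim : (conj w).im = -w.im := Complex.conj_im w
  have carg := arg_conj' hre
  have tp : (c.f1 : ℝ) ≤ 785 := by exact_mod_cast h5
  have tq : (c.f0 : ℝ) ≤ c.f1 := by exact_mod_cast h4
  have hpi := Real.pi_gt_d4
  have z0 : (0 : ℝ) ≤ c.f0 := Nat.cast_nonneg _
  refine ⟨⟨?_, ?_⟩, ?_, ?_⟩
  · have k : Real.exp (2 - (2000 - (c.a0 : ℝ)) / 500) ≤ Real.exp (2 * Real.log ‖w‖) := by
      rw [ex]
      nlinarith
    have := Real.exp_le_exp.1 k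
    linarith
  · have k : Real.exp (2 * Real.log ‖w‖) ≤ Real.exp (2 - (2000 - (c.a1 : ℝ)) / 500) := by
      rw [ex]
      nlinarith
    have := Real.exp_le_exp.1 k
    linarith
  · rcases f0 with f0 | f0
    · have e0 : c.f0 = 0 := Nat.eq_of_beq_eq_true f0
      rw [e0]
      have : 0 ≤ (conj w).arg := Complex.arg_nonneg_iff.2 (by rw [cim]; exact hw.y0)
      rw [carg] at this
      push_cast
      linarith
    · have e := ble_cast f0
      simp only [cast_mul', cast_add'] at e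
      push_cast at e
      have C := tv_cos (by omega : c.f0 ≤ 1570)
      have S := tv_sin (by omega : c.f0 ≤ 1570)
      have C1 := C.1
      have S2 := S.2
      generalize ((cosT c.f0 : ℕ) : ℝ) = x at e C1
      generalize ((sinT c.f0 : ℕ) : ℝ) = y at e S2
      have r0 : (0 : ℝ) ≤ r.t0 := Nat.cast_nonneg _
      have k1 : (r.t0 : ℝ) * x ≤ r.t0 * (Real.cos ((c.f0 : ℝ) / 1000) * 16777216) := mul_le_mul_of_nonneg_left C1 r0
      have k2 : Real.sin ((c.f0 : ℝ) / 1000) ≤ (r.t0 : ℝ) / 1000 * Real.cos ((c.f0 : ℝ) / 1000) := by linarith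
      have k3 := mul_le_mul_of_nonneg_right k2 hre.le
      have cn : 0 ≤ Real.cos ((c.f0 : ℝ) / 1000) :=
        Real.cos_nonneg_of_neg_pi_div_two_le_of_le (by linarith) (by linarith)
      have k4 := mul_le_mul_of_nonneg_left hw.a0 cn
      have := le_arg_of (s := conj w) (θ := (c.f0 : ℝ) / 1000) (by rw [cre]; exact hre) (by positivity) (by linarith)
        (by rw [cre, cim]; linarith)
      rw [carg] at this
      exact this
  · have e := ble_cast f1
    simp only [cast_mul', cast_add'] at e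
    push_cast at e
    have C := tv_cos (by omega : c.f1 ≤ 1570)
    have S := tv_sin (by omega : c.f1 ≤ 1570)
    have C2 := C.2
    have S1 := S.1
    generalize ((cosT c.f1 : ℕ) : ℝ) = x at e C2
    generalize ((sinT c.f1 : ℕ) : ℝ) = y at e S1
    have r0 : (0 : ℝ) ≤ r.t1 := Nat.cast_nonneg _
    have k1 : (r.t1 : ℝ) * (Real.cos ((c.f1 : ℝ) / 1000) * 16777216) ≤ r.t1 * (x + 6) := mul_le_mul_of_nonneg_left C2 r0
    have k2 : (r.t1 : ℝ) / 1000 * Real.cos ((c.f1 : ℝ) / 1000) ≤ Real.sin ((c.f1 : ℝ) / 1000) := by linarith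
    have k3 := mul_le_mul_of_nonneg_right k2 hre.le
    have cn : 0 ≤ Real.cos ((c.f1 : ℝ) / 1000) :=
      Real.cos_nonneg_of_neg_pi_div_two_le_of_le (by linarith) (by linarith)
    have k4 := mul_le_mul_of_nonneg_left hw.a1 cn
    have := arg_le_of (s := conj w) (θ := (c.f1 : ℝ) / 1000) (by rw [cre]; exact hre) (by positivity) (by linarith)
      (by rw [cre, cim]; linarith)
    rw [carg] at this
    exact this

end Pool.Agent.S5.Z4
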