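import Pool.Agent.S5.Z4.SlS

/-!
# The engine: the statements about the columns of a leaf
-/

set_option autoImplicit false

namespace Pool.Agent.S5.Z4

open Complex Pool.Agent.H63.VC3 Pool.Agent.S3 Pool.Agent.S5.G

/-- Two slots at one height: the columns `j` with `P j` of the sum are bounded by `c`. -/
def C11 (R Q : List Rw) (n lo hi d c : ℕ) (P : ℕ → Prop) (M N : ℕ → ℕ) : Prop :=
  CB R ⟨n, lo, hi, d⟩ M ∧ CB Q ⟨2000 - n, 2000 - hi, 2000 - lo, d⟩ N ∧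
    ∀ j ≤ 20, P j → M j + N (20 - j) < c

/-- The columns of a leaf; `R`, `Q` the rows of the slots, `oR`, `oQ` the own rows. -/
structure RwF (R Q : List Rw) (oR oQ n0 n1 lo hi d c w1 w2 o : ℕ) : Prop where
  flat : ∀ n, n = n0 ∨ n = n1 → ∃ M M' N N' : ℕ → ℕ,
    C11 R Q n lo hi d c (fun j => (2 ≤ j ∧ j < 2 + o) ∨ (19 - o ≤ j ∧ j < 19)) M N ∧
    CN R ⟨n, lo, hi, d⟩ M' ∧ CN Q ⟨2000 - n, 2000 - hi, 2000 - lo, d⟩ N' ∧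
    ∀ j, 2 ≤ j → j ≤ 18 → M' j + N (20 - j) < c ∧ M j + N' (20 - j) < c
  v2 : ∀ n l h, (n = 1150 ∧ l = 1075 ∧ h = 1150) ∨ (n = 850 ∧ l = 850 ∧ h = 925) →
    ∃ M N : ℕ → ℕ, C11 R Q n l h 5625 w2 (fun j => 2 ≤ j ∧ j ≤ 18) M N
  v1 : ∀ n l h, (n = 1075 ∧ l = 1000 ∧ h = 1150) ∨ (n = 925 ∧ l = 850 ∧ h = 1000) →
    ∃ M N : ℕ → ℕ, C11 R Q n l h 5625 w1 (fun j => j = 2 ∨ j = 18) M N
  zero : ∃ M N S T : ℕ → ℕ,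
    C11 R Q 1000 (min lo 925) (max hi 1075) (max d 5625) c (fun j => j = 2 ∨ j = 18) M N ∧
    CO oR S ∧ CO oQ T ∧ (∀ j, 18 ≤ j → j ≤ 20 → S j + N (20 - j) < c) ∧
    ∀ j ≤ 2, M j + T (20 - j) < c

/-- The conditions for the flats of both slots. -/
structure FFc (o : ℕ) (ys zs bs : ℂ) : Prop where
  ho : o = 2 ∨ o = 3
  y0 : 43 / 200 ≤ ys.re
  y1 : ys.re ≤ 9 / 25
  b0 : 43 / 200 ≤ bs.re
  b1 : bs.re ≤ 9 / 25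
  ey : |ys.im| ≤ 13 / 100
  eb : |bs.im| ≤ 13 / 100
  o2 : o = 2 → (3 * ys.re - 2 * zs.re ≤ 112 / 100 ∧ 3 * bs.re + 2 * zs.re ≤ 112 / 100) ∧
    7 / 20 ≤ 2 * (ys.re - zs.re) ∧ 7 / 20 ≤ 2 * (bs.re + zs.re)
  o3 : o = 3 → (3 * ys.re - 2 * zs.re ≤ 117 / 100 ∧ 3 * bs.re + 2 * zs.re ≤ 117 / 100) ∧
    3 / 10 ≤ 2 * (ys.re - zs.re) ∧ 3 / 10 ≤ 2 * (bs.re + zs.re)

end Pool.Agent.S5.Z4
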