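import Pool.Agent.S5.Z4.Cel
import Pool.Agent.S5.Z4.Bp

/-!
# The engine: a slot, preparations
-/

set_option autoImplicit false

namespace Pool.Agent.S5.Z4

open Complex Pool.Agent.H63.VC3 Pool.Agent.S3 Pool.Agent.S5.G

/-- The columns: all rows (`n = true`), or without the right part of the flats. -/
def CX (n : Bool) (R : List Rw) (x : Cx) (M : ℕ → ℕ) : Prop :=
  ∀ r ∈ R, ∀ Y, RwOK r Y → RB r Y x M (fun v _ => n = true ∨ r.f = false ∨ v ≤ 5)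

theorem CB.cx {R : List Rw} {x : Cx} {M : ℕ → ℕ} (h : CB R x M) : CX true R x M := by
  intro r hr Y hY
  obtain ⟨i, g, f⟩ := h r hr Y hY
  exact ⟨i, g, fun v hv j hj _ => f v hv j hj trivial⟩

theorem CN.cx {R : List Rw} {x : Cx} {M : ℕ → ℕ} (h : CN R x M) : CX false R x M := by
  intro r hr Y hY
  obtain ⟨i, g, f⟩ := h r hr Y hY
  refine ⟨i, g, fun v hv j hj h' => f v hv j hj ?_⟩
  rcases h' with h' | h'
  · exact absurd h' (by decide)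
  · exact h'

/-- **A point between two rows.** -/
theorem app {n : Bool} {R : List Rw} {x0 x1 : Cx} {β ζ : ℝ} {M0 M1 : ℕ → ℕ} {j : ℕ} {b X : ℝ}
    (C : C2 x0 x1 β ζ) (m0 : CX n R x0 M0) (m1 : CX n R x1 M1) (J : XJ j b X)
    {r0 r1 : Rw} {Y0 Y1 : ℕ → ℕ} (q0 : r0 ∈ R) (q1 : r1 ∈ R) (o0 : RwOK r0 Y0) (o1 : RwOK r1 Y1)
    {α h : ℝ} (H : H2 r0 r1 α h) {cu L0 L1 t0 a' b' : ℕ} {c0 c1 : ℤ}
    (p0 : PB r0 Y0 cu L0 L1 t0 a' b' c0) (p1 : PB r1 Y1 cu L0 L1 t0 a' b' c1)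
    {x a : ℝ} {v : ℕ} (hv : v ≤ 14) (a0 : 0 ≤ a) (a1 : a ≤ 1) (hx : x = ((v : ℝ) - 5 + a) / 20)
    (hl : a < 1 → a' ≤ v ∧ v ≤ b') (hr : 0 < a → a' ≤ v + 1 ∧ v + 1 ≤ b')
    (hn : n = true ∨ (r0.f = false ∧ r1.f = false) ∨ v ≤ 4) {l K : ℝ}
    (l0 : (L0 : ℝ) / 1000 - 5 ≤ l) (l1 : l ≤ (L1 : ℝ) / 1000 - 5)
    (hK : K ≤ (1 - α) * (c0 : ℝ) + α * (c1 : ℝ)) :
    25000000 * (fR (x - X) (h - ζ) + cu * fR (1 / 2 - x) h +
      (Real.pi * ((x + X) * (h + ζ)) - Real.pi / 2 * (h - ζ)) - l * (x - (t0 : ℝ) / 200)) + K ≤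
      25000000 * ((1 - β) * IP M0 j b + β * IP M1 j b) := by
  refine cell_main H C hv J.hj a0 a1 J.b0 J.b1 hx J.e l0 l1 p0 p1 (m0 r0 q0 Y0 o0)
    (m1 r0 q0 Y0 o0) (m0 r1 q1 Y1 o1) (m1 r1 q1 Y1 o1) (fun v' j' hV => ?_) hK
  have b0 := J.b0
  have b1 := J.b1
  have k1 : (v' = v ∧ a < 1) ∨ (v' = v + 1 ∧ 0 < a) := by
    rcases hV with ⟨c, ⟨c1, -, c2⟩ | ⟨c1, -, c2⟩ | ⟨c1, -, c2⟩⟩ |
      ⟨c, ⟨c1, -, c2⟩ | ⟨c1, -⟩ | ⟨c1, -, c2⟩⟩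
    · exact Or.inl ⟨c1, c2⟩
    · exact Or.inr ⟨c1, by linarith⟩
    · exact Or.inr ⟨c1, by linarith⟩
    · exact Or.inl ⟨c1, by linarith⟩
    · exact Or.inl ⟨c1, by linarith⟩
    · exact Or.inr ⟨c1, c2⟩
  have k2 : a' ≤ v' ∧ v' ≤ b' := by
    rcases k1 with ⟨c1, c2⟩ | ⟨c1, c2⟩
    · rw [c1]
      exact hl c2
    · rw [c1]
      exact hr c2
  have k3 : v' ≤ v + 1 := by
    rcases k1 with ⟨c1, -⟩ | ⟨c1, -⟩ <;> omega
  refine ⟨k2, ?_, ?_⟩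
  · rcases hn with c | c | c
    · exact Or.inl c
    · exact Or.inr (Or.inl c.1)
    · exact Or.inr (Or.inr (by omega))
  · rcases hn with c | c | c
    · exact Or.inl c
    · exact Or.inr (Or.inl c.2)
    · exact Or.inr (Or.inr (by omega))

/-- The cells of the abscissae. -/
theorem xv {A B : ℕ} (h : A < B) {x : ℝ} (h0 : ((A : ℝ) - 5) / 20 ≤ x)
    (h1 : x ≤ ((B : ℝ) - 5) / 20) :
    ∃ (v : ℕ) (a : ℝ), A ≤ v ∧ v + 1 ≤ B ∧ 0 ≤ a ∧ a ≤ 1 ∧ x = ((v : ℝ) - 5 + a) / 20 := by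
  have hA : (A : ℝ) ≤ 20 * x + 5 := by linarith
  have hB : 20 * x + 5 ≤ (B : ℝ) := by linarith
  rcases lt_or_eq_of_le hB with hlt | heq
  · have h2 : (0 : ℝ) ≤ 20 * x + 5 := le_trans (Nat.cast_nonneg _) hA
    refine ⟨⌊20 * x + 5⌋₊, 20 * x + 5 - ⌊20 * x + 5⌋₊, Nat.le_floor hA, ?_, ?_, ?_, by ring⟩
    · exact (Nat.floor_lt h2).2 hlt
    · linarith [Nat.floor_le h2]
    · linarith [Nat.lt_floor_add_one (20 * x + 5)]
  · refine ⟨B - 1, 1, by omega, by omega, zero_le_one, le_rfl, ?_⟩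
    rw [Nat.cast_sub (by omega : 1 ≤ B)]
    push_cast
    linarith

/-! ### Heights -/

theorem ht_le {a b : ℕ} (h : a ≤ b) : ht a ≤ ht b := by
  unfold ht
  have : (a : ℝ) ≤ (b : ℝ) := by exact_mod_cast h
  linarith

theorem ht_1000 : ht 1000 = 0 := by
  unfold ht
  norm_num

theorem sq_ht (a b : ℕ) : 1000000 * (ht b - ht a) ^ 2 = ((sq a b : ℕ) : ℝ) := by
  rw [sq_cast]
  unfold ht
  ring

/-- A height between two rows. -/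
theorem seg {r0 r1 : Rw} {h : ℝ} (h0 : ht r0.h ≤ h) (h1 : h ≤ ht r1.h) (l0 : r0.lo ≤ r0.h)
    (u0 : r1.h ≤ r0.hi) (l1 : r1.lo ≤ r0.h) (u1 : r1.h ≤ r1.hi) (d0 : sq r0.h r1.h ≤ r0.d)
    (d1 : sq r0.h r1.h ≤ r1.d) : ∃ α : ℝ, H2 r0 r1 α h := by
  have e0 : 1000000 * (ht r1.h - ht r0.h) ^ 2 ≤ (r0.d : ℝ) := by
    rw [sq_ht]
    exact_mod_cast d0
  have e1 : 1000000 * (ht r1.h - ht r0.h) ^ 2 ≤ (r1.d : ℝ) := by
    rw [sq_ht]
    exact_mod_cast d1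
  have k0 := (ht_le l0).trans h0
  have k1 := h1.trans (ht_le u0)
  have k2 := (ht_le l1).trans h0
  have k3 := h1.trans (ht_le u1)
  rcases lt_or_eq_of_le (h0.trans h1) with hlt | heq
  · have hp : 0 < ht r1.h - ht r0.h := by linarith
    refine ⟨(h - ht r0.h) / (ht r1.h - ht r0.h), div_nonneg (by linarith) hp.le,
      (div_le_one hp).2 (by linarith), ?_, k0, k1, k2, k3, e0, e1⟩
    have e := div_mul_cancel₀ (h - ht r0.h) hp.ne'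
    linarith
  · refine ⟨0, le_rfl, zero_le_one, by linarith, k0, k1, k2, k3, e0, e1⟩

/-- One row. -/
theorem seg1 {r : Rw} {h : ℝ} (h0 : h = ht r.h) (l0 : r.lo ≤ r.h) (u0 : r.h ≤ r.hi) :
    H2 r r 0 h := by
  have e : 1000000 * (ht r.h - ht r.h) ^ 2 ≤ (r.d : ℝ) := by
    rw [sub_self]
    have : (0 : ℝ) ≤ r.d := Nat.cast_nonneg _
    linarith
  exact ⟨le_rfl, zero_le_one, by rw [h0]; ring, by rw [h0]; exact ht_le l0,
    by rw [h0]; exact ht_le u0, by rw [h0]; exact ht_le l0, by rw [h0]; exact ht_le u0, e, e⟩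

theorem mxn_max (a b : ℕ) : mxn a b = max a b := by
  unfold mxn
  rcases Nat.lt_or_ge b a with h | h
  · rw [ble_false h, cond_false, max_eq_left h.le]
  · rw [ble_true h, cond_true, max_eq_right h]

theorem dm_eq (p : Sp) : ((dmp p : ℕ) : ℤ) = Int.ofNat (dmc p) := by
  unfold dmp dmc
  rw [mxn_max]
  rfl

section Slot

variable {p : Sp} {up : Bool} {s : Slt} {y0 : ℂ} {D : ℝ}

/-- The constant of a flat at the height `ht h`, `h` an end. -/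
theorem SlF.cfl (F : SlF p up s y0 D) {h : ℕ} (hh : h = p.e0 ∨ h = p.e1) :
    25000000 * (D * (ht h - y0.im)) ≤ ((cfl p (dmp p) h : ℤ) : ℝ) := by
  rw [dm_eq, F.yi]
  rcases hh with rfl | rfl
  · exact cfl_sound0 F.D
  · exact cfl_sound1 F.D

theorem SlF.clg (F : SlF p up s y0 D) (h : ℕ) :
    25000000 * (s.lam.im * (ht h - s.ys.im) + D * (s.ys.im - y0.im)) ≤
      ((clg p (dmp p) h : ℤ) : ℝ) := by
  rw [dm_eq, F.yi]
  exact clg_sound F.D F.m0 F.m1 F.e0 F.e1 h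

theorem SlF.c0 (F : SlF p up s y0 D) :
    25000000 * (-(s.lam.im * s.ys.im) + D * (s.ys.im - y0.im)) ≤ ((c0p p : ℤ) : ℝ) := by
  have h := F.clg 1000
  rw [ht_1000] at h
  unfold c0p
  linarith

theorem SlF.cti (F : SlF p up s y0 D) (hk : p.kd = 1 ∨ p.kd = 2) (h : ℕ) :
    25000000 * ((fR (1 / 2 - y0.re) y0.im - Td (1 / 2 - s.ys) (1 / 2 - y0)) -
      (hh (1 / 2 - s.ys)).im * (ht h - y0.im)) ≤ ((cti p h : ℤ) : ℝ) := by
  have e := cti_sound (F.fub hk) (F.i0 hk) (F.i1 hk) h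
  rw [← F.yi] at e
  exact e

end Slot

end Pool.Agent.S5.Z4
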