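import Pool.Agent.S5.Z4.SlS

/-!
# The potentials of a node with four half twists, and the two forms of the share of a slot
-/

set_option autoImplicit false

namespace Pool.Agent.S5.Z4

open Complex Pool.Agent.H63.VC3 Pool.Agent.S3

/-! ### The constants -/

section

variable (S : Bool) (x : Nt)

theorem hT4_F : hT S ⟨4, false⟩ x .F = 0 := by
  simp [hT, r0, Pc.mir]
theorem hT4_H : hT S ⟨4, false⟩ x .H = 0 := by
  simp [hT, r0, Pc.mir]
theorem hT4_G : hT S ⟨4, false⟩ x .G = 0 := by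
  simp [hT, r0, Pc.mir]
theorem hT4_R : hT S ⟨4, false⟩ x .R = 0 := by
  simp [hT, r0, Pc.mir]
theorem hT4_T : hT S ⟨4, false⟩ x .T = 0 := by
  simp [hT, r0, Pc.mir]
theorem hT4_U : hT S ⟨4, false⟩ x .U = 0 := by
  simp [hT, r0, Pc.mir]
theorem hT4_Q : hT S ⟨4, false⟩ x .Q = 0 := by
  simp [hT, r0, Pc.mir]
theorem hT4_lo : hT S ⟨4, false⟩ x .lo = 0 := by
  simp [hT, r0, Pc.mir]

theorem hT4_p : hT S ⟨4, false⟩ x .p = if x = ⟨2, true⟩ then -(24 / 100) else 0 := by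
  by_cases h : x = ⟨2, true⟩
  · simp [hT, r0, Pc.mir, h]
    norm_num
  · simp [hT, r0, Pc.mir, h]
theorem hT4_u : hT S ⟨4, false⟩ x .u = if x = ⟨2, true⟩ then -(24 / 100) else 0 := by
  by_cases h : x = ⟨2, true⟩
  · simp [hT, r0, Pc.mir, h]
    norm_num
  · simp [hT, r0, Pc.mir, h]
theorem hT4_L : hT S ⟨4, false⟩ x .L = if x = ⟨2, true⟩ then -(24 / 100) else 0 := by
  by_cases h : x = ⟨2, true⟩
  · simp [hT, r0, Pc.mir, h]
    norm_num
  · simp [hT, r0, Pc.mir, h]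
theorem hT4_P : hT S ⟨4, false⟩ x .P = if x = ⟨2, true⟩ then -(24 / 100) else 0 := by
  by_cases h : x = ⟨2, true⟩
  · simp [hT, r0, Pc.mir, h]
    norm_num
  · simp [hT, r0, Pc.mir, h]
theorem hT4_t : hT S ⟨4, false⟩ x .t = if x = ⟨2, true⟩ then -(12 / 100) else 0 := by
  by_cases h : x = ⟨2, true⟩
  · simp [hT, r0, Pc.mir, h]
    norm_num
  · simp [hT, r0, Pc.mir, h]
theorem hT4_q : hT S ⟨4, false⟩ x .q = if x = ⟨2, true⟩ then 5 / 100 else 0 := by
  by_cases h : x = ⟨2, true⟩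
  · simp [hT, r0, Pc.mir, h]
  · simp [hT, r0, Pc.mir, h]

theorem hT4_q_nonneg : 0 ≤ hT S ⟨4, false⟩ x .q := by
  rw [hT4_q]
  split_ifs <;> norm_num

theorem hT4_re : hT S ⟨4, false⟩ x (.re .far) = if S = true then 20 / 100 else 15 / 100 := by
  cases S <;> simp [hT, r0, Pc.mir, Fc.mir]
theorem hT4_rz : hT S ⟨4, false⟩ x (.rz .far) = if S = true then 8 / 100 else 3 / 100 := by
  cases S <;> simp [hT, r0, Pc.mir, Fc.mir]
theorem hT4_own : hT S ⟨4, false⟩ x (.rz .own) = if S = true then -(8 / 100) else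
    if x = ⟨2, true⟩ then -(2 / 100) else -(3 / 100) := by
  cases S
  · by_cases h : x = ⟨2, true⟩
    · simp [hT, r0, Pc.mir, Fc.mir, h]
      norm_num
    · simp [hT, r0, Pc.mir, Fc.mir, h]
      norm_num
  · simp [hT, r0, Pc.mir, Fc.mir]
    norm_num
theorem hT4_both : hT S ⟨4, false⟩ x (.rz .both) = 0 := by
  simp [hT, r0, Pc.mir, Fc.mir]

/-- All pieces forced by the variable of the node. -/
theorem hT4_frcZ {pc : Pc} (h : pc.frcZ) : -hT S ⟨4, false⟩ x pc ≤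
    cond S (8 / 100) (cond (decide (x = ⟨2, true⟩)) (2 / 100) (3 / 100)) := by
  rcases h with h | h | h
  · rw [h, hT4_own]
    cases S
    · by_cases h2 : x = ⟨2, true⟩
      · simp [h2]
      · simp [h2]
    · simp
  · rw [h, hT4_both]
    cases S
    · by_cases h2 : x = ⟨2, true⟩
      · simp [h2]
        norm_num
      · simp [h2]
        norm_num
    · simp
      norm_num
  · rw [h, hT4_re]
    cases S
    · by_cases h2 : x = ⟨2, true⟩
      · simp [h2]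
        norm_num
      · simp [h2]
        norm_num
    · simp
      norm_num

/-! ### The shares -/

/-- The pieces with share one, the other vertex an end with three half twists. -/
def Pc.d3 : Pc → Bool
  | .H => true
  | .G => true
  | .L => true
  | .U => true
  | .u => true
  | .P => true
  | .p => true
  | _ => false

theorem dT4_eq {pc : Pc} : Pool.Agent.S5.dT S ⟨4, false⟩ x pc =
    if (x = ⟨3, true⟩ ∧ Pc.d3 pc = true) ∨ (x = ⟨2, true⟩ ∧ pc = .t) then -1 else 0 := by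
  by_cases h2 : x = ⟨2, true⟩
  · cases pc <;> simp [Pool.Agent.S5.dT, d0, Pc.mir, Pc.d3, h2]
  · by_cases h3 : x = ⟨3, true⟩
    · cases pc <;> simp [Pool.Agent.S5.dT, d0, Pc.mir, Pc.d3, h3]
    · cases pc <;> simp [Pool.Agent.S5.dT, d0, Pc.mir, Pc.d3, h2, h3]

theorem dT4_one {pc : Pc} (h : (x = ⟨3, true⟩ ∧ Pc.d3 pc = true) ∨ (x = ⟨2, true⟩ ∧ pc = .t)) :
    Pool.Agent.S5.dT S ⟨4, false⟩ x pc = -1 := by
  rw [dT4_eq, if_pos h]

theorem dT4_zero {pc : Pc} (h : ¬((x = ⟨3, true⟩ ∧ Pc.d3 pc = true) ∨ (x = ⟨2, true⟩ ∧ pc = .t))) :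
    Pool.Agent.S5.dT S ⟨4, false⟩ x pc = 0 := by
  rw [dT4_eq, if_neg h]

end

/-! ### The two forms -/

theorem eff_re {pc : Pc} (h : pc ≠ .lo) (y : ℂ) : (pc.eff y).re = y.re := by
  unfold Pc.eff
  cases hb : pc.box
  · simp [h]
  · simp

/-- Share two. -/
theorem phi_two {s : Slt} {pc : Pc} {y0 y z : ℂ} {D w t0 : ℝ}
    (hd : Pool.Agent.S5.dT s.S ⟨4, false⟩ s.x pc = 0) (hp : pc ≠ .lo) (h0 : y0.re = t0 / 200) :
    25000000 * phi s ⟨4, false⟩ pc y0 D y w z =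
      25000000 * (fR (y.re - z.re) (y.im - z.im) + 2 * fR (1 / 2 - y.re) y.im +
        (Real.pi * ((y.re + z.re) * (y.im + z.im)) - Real.pi / 2 * (y.im - z.im)) -
          s.lam.re * (y.re - t0 / 200)) +
        25000000 * (s.lam.im * ((pc.eff y).im - s.ys.im) + D * (s.ys.im - y0.im) -
          hT s.S ⟨4, false⟩ s.x pc - w / 2) := by
  unfold phi psi
  rw [hd, eff_re hp, h0]
  ring

/-- Share one. -/
theorem phi_one {s : Slt} {pc : Pc} {y0 y z : ℂ} {D w t0 f0 : ℝ}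
    (hd : Pool.Agent.S5.dT s.S ⟨4, false⟩ s.x pc = -1) (hp : pc ≠ .lo) (h0 : y0.re = t0 / 200)
    (hf : f0 = fR (1 / 2 - y0.re) y0.im - Td (1 / 2 - s.ys) (1 / 2 - y0)) :
    25000000 * phi s ⟨4, false⟩ pc y0 D y w z =
      25000000 * (fR (y.re - z.re) (y.im - z.im) + 1 * fR (1 / 2 - y.re) y.im +
        (Real.pi * ((y.re + z.re) * (y.im + z.im)) - Real.pi / 2 * (y.im - z.im)) -
          (s.lam - hh (1 / 2 - s.ys)).re * (y.re - t0 / 200)) +
        25000000 * (s.lam.im * ((pc.eff y).im - s.ys.im) + D * (s.ys.im - y0.im) -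
          hT s.S ⟨4, false⟩ s.x pc - w / 2 +
            (f0 - (hh (1 / 2 - s.ys)).im * (y.im - y0.im))) := by
  have e1 : ∀ v : ℂ, -Rf (1 / 2 - v) = fR (1 / 2 - v.re) v.im := by
    intro v
    refine fR_eq' ?_ ?_
    · rw [sub_re]
      norm_num
    · rw [sub_im]
      norm_num
  have e2 : Td (1 / 2 - s.ys) (1 / 2 - y) = f0 * (-1) + fR (1 / 2 - y.re) y.im -
      ((hh (1 / 2 - s.ys)).re * (y.re - y0.re) - (hh (1 / 2 - s.ys)).im * (y.im - y0.im)) := by
    rw [hf, ← e1, ← e1]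
    unfold Td
    simp only [mul_re, sub_re, sub_im]
    ring
  unfold phi psi
  rw [hd, eff_re hp, e2, ← h0, sub_re]
  ring

end Pool.Agent.S5.Z4
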