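import Pool.Agent.S5.Z4.Sla
import Pool.Agent.S5.Z4.Tb4

/-!
# The engine: the pieces of the rectangle
-/

set_option autoImplicit false

namespace Pool.Agent.S5.Z4

open Complex Pool.Agent.H63.VC3 Pool.Agent.S3 Pool.Agent.S5.G

private theorem box_ne {pc : Pc} (hb : pc.box = true) : pc ≠ .lo := by
  rintro rfl
  exact absurd hb (by decide)

private theorem box_im {pc : Pc} (hb : pc.box = true) (y : ℂ) : (pc.eff y).im = 0 := by
  unfold Pc.eff
  rw [if_pos hb, ofReal_im]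

section Box

variable {n : Bool} {R : List Rw} {p : Sp} {up : Bool} {s : Slt} {y0 : ℂ} {D : ℝ} {x0 x1 : Cx}
  {β ζ : ℝ} {M0 M1 : ℕ → ℕ} {j : ℕ} {b : ℝ} {z : ℂ} {pc : Pc} {y : ℂ} {w : ℝ}

/-- Share two. -/
private theorem fin_two (F : SlF p up s y0 D) (C : C2 x0 x1 β ζ) (m0 : CX n R x0 M0)
    (m1 : CX n R x1 M1) (hz : z.im = ζ) (J : XJ j b z.re)
    (hd : Pool.Agent.S5.dT s.S ⟨4, false⟩ s.x pc = 0) (hb : pc.box = true)
    {r0 r1 : Rw} {Y0 Y1 : ℕ → ℕ} (q0 : r0 ∈ R) (q1 : r1 ∈ R) (o0 : RwOK r0 Y0) (o1 : RwOK r1 Y1)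
    (f0 : r0.f = false) (f1 : r1.f = false)
    {α : ℝ} (H : H2 r0 r1 α y.im) {a' b' : ℕ} {c0 c1 : ℤ}
    (p0 : PB r0 Y0 2 p.L0 p.L1 p.t0 a' b' c0) (p1 : PB r1 Y1 2 p.L0 p.L1 p.t0 a' b' c1)
    {a : ℝ} {v : ℕ} (hv : v ≤ 14) (a0 : 0 ≤ a) (a1 : a ≤ 1) (hx : y.re = ((v : ℝ) - 5 + a) / 20)
    (hl : a < 1 → a' ≤ v ∧ v ≤ b') (hr : 0 < a → a' ≤ v + 1 ∧ v + 1 ≤ b')
    (hK : (c0p p : ℝ) - 25000000 * hT s.S ⟨4, false⟩ s.x pc - 25000000 * (w / 2) ≤
      (1 - α) * (c0 : ℝ) + α * (c1 : ℝ)) :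
    phi s ⟨4, false⟩ pc y0 D y w z ≤ (1 - β) * IP M0 j b + β * IP M1 j b := by
  have k0 := F.c0
  have e := phi_two (s := s) (pc := pc) (y0 := y0) (y := y) (z := z) (D := D) (w := w) hd
    (box_ne hb) F.yr
  rw [box_im hb] at e
  have h1 := app C m0 m1 J q0 q1 o0 o1 H p0 p1 hv a0 a1 hx hl hr (Or.inr (Or.inl ⟨f0, f1⟩))
    F.l0 F.l1 (K := 25000000 * (s.lam.im * (0 - s.ys.im) + D * (s.ys.im - y0.im) -
      hT s.S ⟨4, false⟩ s.x pc - w / 2)) (by linarith)
  rw [← hz] at h1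
  push_cast at h1
  linarith

/-- Share one. -/
private theorem fin_one (F : SlF p up s y0 D) (hk : p.kd = 1 ∨ p.kd = 2) (C : C2 x0 x1 β ζ)
    (m0 : CX n R x0 M0) (m1 : CX n R x1 M1) (hz : z.im = ζ) (J : XJ j b z.re)
    (hd : Pool.Agent.S5.dT s.S ⟨4, false⟩ s.x pc = -1) (hb : pc.box = true)
    {r0 r1 : Rw} {Y0 Y1 : ℕ → ℕ} (q0 : r0 ∈ R) (q1 : r1 ∈ R) (o0 : RwOK r0 Y0) (o1 : RwOK r1 Y1)
    (f0 : r0.f = false) (f1 : r1.f = false)
    {α : ℝ} (H : H2 r0 r1 α y.im) {a' b' : ℕ} {c0 c1 : ℤ}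
    (p0 : PB r0 Y0 1 p.T0 p.T1 p.t0 a' b' (c0 + cti p r0.h))
    (p1 : PB r1 Y1 1 p.T0 p.T1 p.t0 a' b' (c1 + cti p r1.h))
    {a : ℝ} {v : ℕ} (hv : v ≤ 14) (a0 : 0 ≤ a) (a1 : a ≤ 1) (hx : y.re = ((v : ℝ) - 5 + a) / 20)
    (hl : a < 1 → a' ≤ v ∧ v ≤ b') (hr : 0 < a → a' ≤ v + 1 ∧ v + 1 ≤ b')
    (hK : (c0p p : ℝ) - 25000000 * hT s.S ⟨4, false⟩ s.x pc - 25000000 * (w / 2) ≤
      (1 - α) * (c0 : ℝ) + α * (c1 : ℝ)) :
    phi s ⟨4, false⟩ pc y0 D y w z ≤ (1 - β) * IP M0 j b + β * IP M1 j b := by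
  have k0 := F.c0
  obtain ⟨f, hf⟩ : ∃ f, f = fR (1 / 2 - y0.re) y0.im - Td (1 / 2 - s.ys) (1 / 2 - y0) := ⟨_, rfl⟩
  have e := phi_one (s := s) (pc := pc) (y0 := y0) (y := y) (z := z) (D := D) (w := w) hd
    (box_ne hb) F.yr hf
  rw [box_im hb] at e
  have t0 := F.cti hk r0.h
  have t1 := F.cti hk r1.h
  rw [← hf] at t0 t1
  have t2 := mul_le_mul_of_nonneg_left t0 (show 0 ≤ 1 - α by linarith [H.a1])
  have t3 := mul_le_mul_of_nonneg_left t1 H.a0
  have e3 : (hh (1 / 2 - s.ys)).im * (y.im - y0.im) =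
      (1 - α) * ((hh (1 / 2 - s.ys)).im * (ht r0.h - y0.im)) +
        α * ((hh (1 / 2 - s.ys)).im * (ht r1.h - y0.im)) := by
    rw [H.e]
    ring
  have h1 := app C m0 m1 J q0 q1 o0 o1 H p0 p1 hv a0 a1 hx hl hr (Or.inr (Or.inl ⟨f0, f1⟩))
    (F.T0 hk) (F.T1 hk) (K := 25000000 * (s.lam.im * (0 - s.ys.im) + D * (s.ys.im - y0.im) -
      hT s.S ⟨4, false⟩ s.x pc - w / 2 + (f - (hh (1 / 2 - s.ys)).im * (y.im - y0.im)))) (by
        rw [e3]
        push_cast
        linarith)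
  rw [← hz] at h1
  push_cast at h1
  linarith

/-- The vertical sides, between two rows. -/
private theorem side (F : SlF p up s y0 D) (C : C2 x0 x1 β ζ) (m0 : CX n R x0 M0)
    (m1 : CX n R x1 M1) (hz : z.im = ζ) (J : XJ j b z.re)
    {r0 r1 : Rw} {Y0 Y1 : ℕ → ℕ} (q0 : r0 ∈ R) (q1 : r1 ∈ R) (o0 : RwOK r0 Y0) (o1 : RwOK r1 Y1)
    (f0 : r0.f = false) (f1 : r1.f = false)
    {α : ℝ} (H : H2 r0 r1 α y.im) {e0 e1 g0 g1 : ℤ} (p0 : LQ p r0 Y0 (c0p p - e0) g0)
    (p1 : LQ p r1 Y1 (c0p p - e1) g1)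
    (hg : pc = .Q ∨ pc = .q → (1 - α) * (g0 : ℝ) + α * (g1 : ℝ) ≤
      25000000 * hT s.S ⟨4, false⟩ s.x pc)
    (hw : (1 - α) * (e0 : ℝ) + α * (e1 : ℝ) ≤ 25000000 * (w / 2))
    (hp : (y.re = -(1 / 4) ∧ (pc = .P ∨ pc = .p)) ∨ (y.re = 1 / 2 ∧ (pc = .Q ∨ pc = .q))) :
    phi s ⟨4, false⟩ pc y0 D y w z ≤ (1 - β) * IP M0 j b + β * IP M1 j b := by
  rcases hp with ⟨hx, hp⟩ | ⟨hx, hp⟩
  · have hb : pc.box = true := by rcases hp with h | h <;> rw [h] <;> rfl
    have hd3 : Pc.d3 pc = true := by rcases hp with h | h <;> rw [h] <;> rfl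
    have hT' : hT s.S ⟨4, false⟩ s.x pc = if s.x = ⟨2, true⟩ then -(24 / 100) else 0 := by
      rcases hp with h | h <;> rw [h]
      · exact hT4_P _ _
      · exact hT4_p _ _
    have hpt : pc ≠ .t := by rcases hp with h | h <;> rw [h] <;> decide
    have hv : y.re = (((0 : ℕ) : ℝ) - 5 + 0) / 20 := by
      rw [hx]
      norm_num
    by_cases h2 : p.kd = 2
    · have hx3 := F.k2.1 h2
      have hd : Pool.Agent.S5.dT s.S ⟨4, false⟩ s.x pc = -1 := dT4_one _ _ (Or.inl ⟨hx3, hd3⟩)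
      refine fin_one F (Or.inr h2) C m0 m1 hz J hd hb q0 q1 o0 o1 f0 f1 H (p0.2.2.2 h2)
        (p1.2.2.2 h2) (by norm_num) le_rfl zero_le_one hv (fun _ => ⟨le_rfl, le_rfl⟩)
        (fun h => absurd h (lt_irrefl _)) ?_
      rw [hT', if_neg (by rw [hx3]; decide)]
      push_cast
      linarith
    · have hx3 : s.x ≠ ⟨3, true⟩ := fun h => h2 (F.k2.2 h)
      have hd : Pool.Agent.S5.dT s.S ⟨4, false⟩ s.x pc = 0 := by
        apply dT4_zero
        rintro (⟨h, -⟩ | ⟨-, h⟩)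
        · exact hx3 h
        · exact hpt h
      by_cases h1 : p.kd = 1
      · refine fin_two F C m0 m1 hz J hd hb q0 q1 o0 o1 f0 f1 H (p0.2.2.1 h1) (p1.2.2.1 h1)
          (by norm_num) le_rfl zero_le_one hv (fun _ => ⟨le_rfl, le_rfl⟩)
          (fun h => absurd h (lt_irrefl _)) ?_
        rw [hT', if_pos (F.k1.1 h1)]
        push_cast
        linarith
      · refine fin_two F C m0 m1 hz J hd hb q0 q1 o0 o1 f0 f1 H (p0.2.1 h1 h2) (p1.2.1 h1 h2)
          (by norm_num) le_rfl zero_le_one hv (fun _ => ⟨le_rfl, le_rfl⟩)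
          (fun h => absurd h (lt_irrefl _)) ?_
        rw [hT', if_neg fun h => h1 (F.k1.2 h)]
        push_cast
        linarith
  · have hb : pc.box = true := by rcases hp with h | h <;> rw [h] <;> rfl
    have hv : y.re = (((14 : ℕ) : ℝ) - 5 + 1) / 20 := by
      rw [hx]
      norm_num
    have hd : Pool.Agent.S5.dT s.S ⟨4, false⟩ s.x pc = 0 := by
      apply dT4_zero
      rcases hp with h | h <;> rw [h]
      · rintro (⟨-, h⟩ | ⟨-, h⟩)
        · exact absurd h (by decide)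
        · exact absurd h (by decide)
      · rintro (⟨-, h⟩ | ⟨-, h⟩)
        · exact absurd h (by decide)
        · exact absurd h (by decide)
    have hg' := hg hp
    refine fin_two F C m0 m1 hz J hd hb q0 q1 o0 o1 f0 f1 H p0.1 p1.1 le_rfl zero_le_one le_rfl
      hv (fun h => absurd h (lt_irrefl _)) (fun _ => ⟨by norm_num, by norm_num⟩) ?_
    push_cast
    linarith

end Box

private theorem pi_w : (11780550 : ℝ) ≤ 25000000 * (2 * Real.pi * (3 / 20) / 2) := by
  have := Real.pi_gt_d4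
  linarith

private theorem pi_w1 : (5890275 : ℝ) ≤ 25000000 * (Real.pi * (3 / 40)) := by
  have := Real.pi_gt_d4
  linarith

private theorem ht_1150 : ht 1150 = 3 / 20 := by
  unfold ht
  norm_num

private theorem ht_850 : ht 850 = -(3 / 20) := by
  unfold ht
  norm_num

private theorem ht_1075 : ht 1075 = 3 / 40 := by
  unfold ht
  norm_num

private theorem ht_925 : ht 925 = -(3 / 40) := by
  unfold ht
  norm_num

/-- **The pieces of the rectangle.** -/
theorem sl_box {n : Bool} {R : List Rw} {o : ℕ} {p : Sp} {up : Bool} {s : Slt} {y0 : ℂ} {D : ℝ}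
    (HR : SR p up R o) (F : SlF p up s y0 D) {x0 x1 : Cx} {β ζ : ℝ} {M0 M1 : ℕ → ℕ} {j : ℕ}
    {b : ℝ} (C : C2 x0 x1 β ζ) (m0 : CX n R x0 M0) (m1 : CX n R x1 M1) {z : ℂ} (hz : z.im = ζ)
    (J : XJ j b z.re) {pc : Pc} {y : ℂ} {w : ℝ} (hb : pc.box = true)
    (hi : pc.In (3 / 20) s.ys.im y w) :
    phi s ⟨4, false⟩ pc y0 D y w z ≤ (1 - β) * IP M0 j b + β * IP M1 j b := by
  have hpi := Real.pi_pos
  -- the vertical sides
  have sides : (pc = .P ∨ pc = .p ∨ pc = .Q ∨ pc = .q) →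
      phi s ⟨4, false⟩ pc y0 D y w z ≤ (1 - β) * IP M0 j b + β * IP M1 j b := by
    intro hp
    have hw : w = 2 * Real.pi * |y.im| := by
      rcases hp with rfl | rfl | rfl | rfl <;> exact hi.1
    have hd : |y.im| ≤ 3 / 20 := by
      rcases hp with rfl | rfl | rfl | rfl <;> exact hi.2.2.1
    have hp' : (y.re = -(1 / 4) ∧ (pc = .P ∨ pc = .p)) ∨ (y.re = 1 / 2 ∧ (pc = .Q ∨ pc = .q)) := by
      rcases hp with rfl | rfl | rfl | rfl
      · exact Or.inl ⟨hi.2.1, Or.inl rfl⟩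
      · exact Or.inl ⟨hi.2.1, Or.inr rfl⟩
      · exact Or.inr ⟨hi.2.1, Or.inl rfl⟩
      · exact Or.inr ⟨hi.2.1, Or.inr rfl⟩
    have hd' := abs_le.1 hd
    obtain ⟨rz, qz, Yz, oz, z1, z2, z3, z4, z5, z6, -, -⟩ := HR.zero
    have zl : rz.lo ≤ 925 := by rw [z2]; exact min_le_right _ _
    have zu : 1075 ≤ rz.hi := by rw [z3]; exact le_max_right _ _
    have zd : 5625 ≤ rz.d := by rw [z4]; exact le_max_right _ _
    rw [← sub_zero (c0p p)] at z6
    have pw := pi_w1
    have hTn : pc = .Q ∨ pc = .q → 0 ≤ hT s.S ⟨4, false⟩ s.x pc := by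
      rintro (h | h) <;> rw [h]
      · rw [hT4_Q]
      · exact hT4_q_nonneg _ _
    have g00 : ∀ α : ℝ, pc = .Q ∨ pc = .q → (1 - α) * ((0 : ℤ) : ℝ) + α * ((0 : ℤ) : ℝ) ≤
        25000000 * hT s.S ⟨4, false⟩ s.x pc := by
      intro α h
      have := hTn h
      push_cast
      linarith
    -- the lower constant at the height `± 3 / 20`
    have glo : ∀ (h : ℕ) (q : ℤ), (q = 0 ∨ (q = 1250000 ∧ p.kd = 1 ∧ Low up h)) →
        (0 < y.im ∧ h = 1150 ∨ y.im < 0 ∧ h = 850) → pc = .Q ∨ pc = .q →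
        (q : ℝ) ≤ 25000000 * hT s.S ⟨4, false⟩ s.x pc := by
      rintro h q (rfl | ⟨rfl, hk, hl⟩) hy hQ
      · have := hTn hQ
        push_cast
        linarith
      · have hq : pc = .q := by
          rcases hQ with hQ | hQ
          · exfalso
            rw [hQ] at hi
            have h1 : 0 ≤ y.im * s.ys.im := hi.2.2.2
            rcases hl with ⟨h2, hu⟩ | ⟨h2, hu⟩ <;> rcases hy with ⟨h3, h4⟩ | ⟨h3, h4⟩
            · have h5 := F.up0 hk hu
              have := mul_neg_of_pos_of_neg h3 h5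
              linarith
            · omega
            · omega
            · have h5 := F.up1 hk hu
              have := mul_neg_of_neg_of_pos h3 h5
              linarith
          · exact hQ
        rw [hq, hT4_q, if_pos (F.k1.1 hk)]
        push_cast
        norm_num
    rcases le_total 0 y.im with h0 | h0
    · obtain ⟨r1, q1, Y1, o1, b1, b2, b3, b4, b5, b6⟩ := HR.v1 1075 1000 1150
        (Or.inl ⟨rfl, rfl, rfl⟩)
      rw [abs_of_nonneg h0] at hw
      rcases le_total y.im (3 / 40) with h1 | h1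
      · obtain ⟨α, H⟩ := seg (r0 := rz) (r1 := r1) (h := y.im)
          (by rw [z1, ht_1000]; exact h0) (by rw [b1, ht_1075]; exact h1) (by omega) (by omega)
          (by omega) (by omega) (by rw [z1, b1]; exact zd) (by rw [z1, b1, b4]; decide)
        refine side F C m0 m1 hz J qz q1 oz o1 z5 b5 H z6.lq b6.lq (g00 α) ?_ hp'
        have e := H.e
        rw [z1, b1, ht_1000, ht_1075] at e
        rw [hw, e]
        have := mul_le_mul_of_nonneg_left pw H.a0
        push_cast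
        linarith
      · obtain ⟨r2, q2, Y2, o2, d1, d2, d3, d4, d5, ⟨g, hg, d6⟩, -⟩ := HR.v2 1150 1075 1150
          (Or.inl ⟨rfl, rfl, rfl⟩)
        obtain ⟨α, H⟩ := seg (r0 := r1) (r1 := r2) (h := y.im)
          (by rw [b1, ht_1075]; exact h1) (by rw [d1, ht_1150]; exact hd'.2) (by omega) (by omega)
          (by omega) (by omega) (by rw [b1, d1, b4]; decide) (by rw [b1, d1, d4]; decide)
        refine side F C m0 m1 hz J q1 q2 o1 o2 b5 d5 H b6.lq d6 (fun hQ => ?_) ?_ hp'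
        · have k1 := glo 1150 g hg (Or.inl ⟨by linarith, rfl⟩) hQ
          have k2 := hTn hQ
          have k3 : 0 ≤ α := H.a0
          have k4 : α ≤ 1 := H.a1
          have k5 := mul_le_mul_of_nonneg_left k1 k3
          have k6 := mul_nonneg (sub_nonneg.2 k4) k2
          push_cast
          linarith
        have e := H.e
        rw [b1, d1, ht_1075, ht_1150] at e
        rw [hw, e]
        have k1 := mul_le_mul_of_nonneg_left pw H.a0
        have k2 := mul_le_mul_of_nonneg_left pw (show 0 ≤ 1 - α by linarith [H.a1])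
        push_cast
        linarith
    · obtain ⟨r1, q1, Y1, o1, b1, b2, b3, b4, b5, b6⟩ := HR.v1 925 850 1000
        (Or.inr ⟨rfl, rfl, rfl⟩)
      rw [abs_of_nonpos h0] at hw
      rcases le_total (-(3 / 40)) y.im with h1 | h1
      · obtain ⟨α, H⟩ := seg (r0 := r1) (r1 := rz) (h := y.im)
          (by rw [b1, ht_925]; exact h1) (by rw [z1, ht_1000]; exact h0) (by omega) (by omega)
          (by omega) (by omega) (by rw [z1, b1, b4]; decide) (by rw [z1, b1]; exact zd)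
        refine side F C m0 m1 hz J q1 qz o1 oz b5 z5 H b6.lq z6.lq (g00 α) ?_ hp'
        have e := H.e
        rw [z1, b1, ht_1000, ht_925] at e
        rw [hw, e]
        have := mul_le_mul_of_nonneg_left pw (show 0 ≤ 1 - α by linarith [H.a1])
        push_cast
        linarith
      · obtain ⟨r2, q2, Y2, o2, d1, d2, d3, d4, d5, ⟨g, hg, d6⟩, -⟩ := HR.v2 850 850 925
          (Or.inr ⟨rfl, rfl, rfl⟩)
        obtain ⟨α, H⟩ := seg (r0 := r2) (r1 := r1) (h := y.im)
          (by rw [d1, ht_850]; exact hd'.1) (by rw [b1, ht_925]; exact h1) (by omega) (by omega)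
          (by omega) (by omega) (by rw [b1, d1, d4]; decide) (by rw [b1, d1, b4]; decide)
        refine side F C m0 m1 hz J q2 q1 o2 o1 d5 b5 H d6 b6.lq (fun hQ => ?_) ?_ hp'
        · have k1 := glo 850 g hg (Or.inr ⟨by linarith, rfl⟩) hQ
          have k2 := hTn hQ
          have k3 : 0 ≤ α := H.a0
          have k4 : 0 ≤ 1 - α := by linarith [H.a1]
          have k5 := mul_le_mul_of_nonneg_left k1 k4
          have k6 := mul_nonneg k3 k2
          push_cast
          linarith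
        have e := H.e
        rw [b1, d1, ht_925, ht_850] at e
        rw [hw, e]
        have k1 := mul_le_mul_of_nonneg_left pw H.a0
        have k2 := mul_le_mul_of_nonneg_left pw (show 0 ≤ 1 - α by linarith [H.a1])
        push_cast
        linarith
  -- the horizontal sides
  have hor : (pc = .T ∨ pc = .t ∨ pc = .U ∨ pc = .u) →
      phi s ⟨4, false⟩ pc y0 D y w z ≤ (1 - β) * IP M0 j b + β * IP M1 j b := by
    intro hp
    have hw : w = 2 * Real.pi * (3 / 20) := by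
      rcases hp with rfl | rfl | rfl | rfl <;> exact hi.1
    have hd : |y.im| = 3 / 20 := by
      rcases hp with rfl | rfl | rfl | rfl <;> exact hi.2.1
    -- the row
    obtain ⟨h, lo, hh', hq, hy, hlo, hhi, hside⟩ : ∃ h lo hh' : ℕ,
        ((h = 1150 ∧ lo = 1075 ∧ hh' = 1150) ∨ (h = 850 ∧ lo = 850 ∧ hh' = 925)) ∧
          y.im = ht h ∧ lo ≤ h ∧ h ≤ hh' ∧ (p.kd = 1 → ((pc = .T ∨ pc = .U) → ¬ Low up h) ∧
            ((pc = .t ∨ pc = .u) → Low up h)) := by
      have hs1 : pc = .T ∨ pc = .U → 0 ≤ y.im * s.ys.im := by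
        rintro (rfl | rfl) <;> exact hi.2.2.1
      have hs2 : pc = .t ∨ pc = .u → y.im * s.ys.im ≤ 0 := by
        rintro (rfl | rfl) <;> exact hi.2.2.1
      rcases le_total 0 y.im with h0 | h0
      · rw [abs_of_nonneg h0] at hd
        refine ⟨1150, 1075, 1150, Or.inl ⟨rfl, rfl, rfl⟩, by rw [hd, ht_1150], by norm_num, le_rfl,
          fun hk => ⟨fun hq => ?_, fun hq => ?_⟩⟩
        · rintro (⟨-, hu⟩ | ⟨h, -⟩)
          · have := F.up0 hk hu
            have := hs1 hq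
            rw [hd] at this
            linarith
          · exact absurd h (by norm_num)
        · refine Or.inl ⟨rfl, ?_⟩
          by_contra hu
          rw [Bool.not_eq_false] at hu
          have := F.up1 hk hu
          have := hs2 hq
          rw [hd] at this
          linarith
      · rw [abs_of_nonpos h0] at hd
        have hd' : y.im = -(3 / 20) := by linarith
        refine ⟨850, 850, 925, Or.inr ⟨rfl, rfl, rfl⟩, by rw [hd', ht_850], le_rfl, by norm_num,
          fun hk => ⟨fun hq => ?_, fun hq => ?_⟩⟩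
        · rintro (⟨h, -⟩ | ⟨-, hu⟩)
          · exact absurd h (by norm_num)
          · have := F.up1 hk hu
            have := hs1 hq
            rw [hd'] at this
            linarith
        · refine Or.inr ⟨rfl, ?_⟩
          by_contra hu
          rw [Bool.not_eq_true] at hu
          have := F.up0 hk hu
          have := hs2 hq
          rw [hd'] at this
          linarith
    obtain ⟨r, q, Y, ok, b1, b2, b3, b4, b5, -, k0, k2, k1n, k1l⟩ := HR.v2 h lo hh' hq
    have H : H2 r r 0 y.im := seg1 (by rw [b1]; exact hy) (by omega) (by omega)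
    have pw := pi_w
    rw [← hw] at pw
    -- the lanes
    have right : pc = .T ∨ pc = .t → ∃ (v : ℕ) (a : ℝ), 5 ≤ v ∧ v + 1 ≤ 15 ∧ 0 ≤ a ∧ a ≤ 1 ∧
        y.re = ((v : ℝ) - 5 + a) / 20 := by
      intro hq
      have h1 : 0 ≤ y.re := by rcases hq with rfl | rfl <;> exact hi.2.2.2.1
      have h2 : y.re ≤ 1 / 2 := by rcases hq with rfl | rfl <;> exact hi.2.2.2.2
      exact xv (by norm_num) (by norm_num; exact h1) (by norm_num; linarith)
    have left : pc = .U ∨ pc = .u → ∃ (v : ℕ) (a : ℝ), 0 ≤ v ∧ v + 1 ≤ 5 ∧ 0 ≤ a ∧ a ≤ 1 ∧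
        y.re = ((v : ℝ) - 5 + a) / 20 := by
      intro hq
      have h1 : -(1 / 4) ≤ y.re := by rcases hq with rfl | rfl <;> exact hi.2.2.2.1
      have h2 : y.re ≤ 0 := by rcases hq with rfl | rfl <;> exact hi.2.2.2.2
      exact xv (by norm_num) (by norm_num; linarith) (by norm_num; linarith)
    have eT : ∀ c : ℤ, hT s.S ⟨4, false⟩ s.x pc = 0 → (c : ℝ) = (c0p p : ℝ) - 11780550 →
        (c0p p : ℝ) - 25000000 * hT s.S ⟨4, false⟩ s.x pc - 25000000 * (w / 2) ≤
          (1 - (0 : ℝ)) * (c : ℝ) + 0 * (c : ℝ) := by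
      intro c h1 h2
      rw [h1, h2]
      linarith
    have cc : (((c0p p - 11780550 : ℤ)) : ℝ) = (c0p p : ℝ) - 11780550 := by push_cast; ring
    by_cases h2 : p.kd = 2
    · have hx3 := F.k2.1 h2
      have hn2 : ¬ (s.x = (⟨2, true⟩ : Nt)) := by
        rw [hx3]
        decide
      obtain ⟨P1, P2⟩ := k2 h2
      rcases hp with hp | hp | hp | hp
      · obtain ⟨v, a, v0, v1, a0, a1, hx⟩ := right (Or.inl hp)
        refine fin_two F C m0 m1 hz J ?_ hb q q ok ok b5 b5 H P2 P2 (by omega) a0 a1 hx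
          (fun _ => ⟨v0, by omega⟩) (fun _ => ⟨by omega, v1⟩) (eT _ ?_ cc)
        · apply dT4_zero
          rw [hp]
          rintro (⟨-, h⟩ | ⟨-, h⟩)
          · exact absurd h (by decide)
          · exact absurd h (by decide)
        · rw [hp, hT4_T]
      · obtain ⟨v, a, v0, v1, a0, a1, hx⟩ := right (Or.inr hp)
        refine fin_two F C m0 m1 hz J ?_ hb q q ok ok b5 b5 H P2 P2 (by omega) a0 a1 hx
          (fun _ => ⟨v0, by omega⟩) (fun _ => ⟨by omega, v1⟩) (eT _ ?_ cc)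
        · apply dT4_zero
          rw [hp]
          rintro (⟨-, h⟩ | ⟨h, -⟩)
          · exact absurd h (by decide)
          · exact hn2 h
        · rw [hp, hT4_t, if_neg hn2]
      · obtain ⟨v, a, v0, v1, a0, a1, hx⟩ := left (Or.inl hp)
        refine fin_one F (Or.inr h2) C m0 m1 hz J (dT4_one _ _ (Or.inl ⟨hx3, by rw [hp]; rfl⟩)) hb
          q q ok ok b5 b5 H (by rw [b1]; exact P1) (by rw [b1]; exact P1) (by omega) a0 a1 hx
          (fun _ => ⟨v0, by omega⟩) (fun _ => ⟨by omega, v1⟩) (eT _ ?_ cc)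
        rw [hp, hT4_U]
      · obtain ⟨v, a, v0, v1, a0, a1, hx⟩ := left (Or.inr hp)
        refine fin_one F (Or.inr h2) C m0 m1 hz J (dT4_one _ _ (Or.inl ⟨hx3, by rw [hp]; rfl⟩)) hb
          q q ok ok b5 b5 H (by rw [b1]; exact P1) (by rw [b1]; exact P1) (by omega) a0 a1 hx
          (fun _ => ⟨v0, by omega⟩) (fun _ => ⟨by omega, v1⟩) (eT _ ?_ cc)
        rw [hp, hT4_u, if_neg hn2]
    · have hx3 : s.x ≠ ⟨3, true⟩ := fun h => h2 (F.k2.2 h)
      by_cases h1 : p.kd = 1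
      · have hx2 := F.k1.1 h1
        obtain ⟨s1, s2⟩ := hside h1
        rcases hp with hp | hp | hp | hp
        · obtain ⟨v, a, v0, v1, a0, a1, hx⟩ := right (Or.inl hp)
          have P := k1n h1 (s1 (Or.inl hp))
          refine fin_two F C m0 m1 hz J ?_ hb q q ok ok b5 b5 H P P (by omega) a0 a1 hx
            (fun _ => ⟨by omega, by omega⟩) (fun _ => ⟨by omega, v1⟩) (eT _ ?_ cc)
          · apply dT4_zero
            rw [hp]
            rintro (⟨h, -⟩ | ⟨-, h⟩)
            · exact hx3 h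
            · exact absurd h (by decide)
          · rw [hp, hT4_T]
        · obtain ⟨v, a, v0, v1, a0, a1, hx⟩ := right (Or.inr hp)
          obtain ⟨-, P⟩ := k1l h1 (s2 (Or.inl hp))
          refine fin_one F (Or.inl h1) C m0 m1 hz J (dT4_one _ _ (Or.inr ⟨hx2, hp⟩)) hb
            q q ok ok b5 b5 H (by rw [b1]; exact P) (by rw [b1]; exact P) (by omega) a0 a1 hx
            (fun _ => ⟨v0, by omega⟩) (fun _ => ⟨by omega, v1⟩) ?_
          rw [hp, hT4_t, if_pos hx2]
          push_cast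
          linarith
        · obtain ⟨v, a, v0, v1, a0, a1, hx⟩ := left (Or.inl hp)
          have P := k1n h1 (s1 (Or.inr hp))
          refine fin_two F C m0 m1 hz J ?_ hb q q ok ok b5 b5 H P P (by omega) a0 a1 hx
            (fun _ => ⟨by omega, by omega⟩) (fun _ => ⟨by omega, by omega⟩) (eT _ ?_ cc)
          · apply dT4_zero
            rw [hp]
            rintro (⟨h, -⟩ | ⟨-, h⟩)
            · exact hx3 h
            · exact absurd h (by decide)
          · rw [hp, hT4_U]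
        · obtain ⟨v, a, v0, v1, a0, a1, hx⟩ := left (Or.inr hp)
          obtain ⟨P, -⟩ := k1l h1 (s2 (Or.inr hp))
          refine fin_two F C m0 m1 hz J ?_ hb q q ok ok b5 b5 H P P (by omega) a0 a1 hx
            (fun _ => ⟨v0, by omega⟩) (fun _ => ⟨by omega, v1⟩) ?_
          · apply dT4_zero
            rw [hp]
            rintro (⟨h, -⟩ | ⟨-, h⟩)
            · exact hx3 h
            · exact absurd h (by decide)
          · rw [hp, hT4_u, if_pos hx2]
            push_cast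
            linarith
      · have hx2 : ¬ (s.x = (⟨2, true⟩ : Nt)) := fun h => h1 (F.k1.2 h)
        have P := k0 h1 h2
        have hd0 : Pool.Agent.S5.dT s.S ⟨4, false⟩ s.x pc = 0 := by
          apply dT4_zero
          rintro (⟨h, -⟩ | ⟨h, -⟩)
          · exact hx3 h
          · exact hx2 h
        have hT0 : hT s.S ⟨4, false⟩ s.x pc = 0 := by
          rcases hp with hp | hp | hp | hp
          · rw [hp, hT4_T]
          · rw [hp, hT4_t, if_neg hx2]
          · rw [hp, hT4_U]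
          · rw [hp, hT4_u, if_neg hx2]
        obtain ⟨v, a, v1, a0, a1, hx⟩ : ∃ (v : ℕ) (a : ℝ), v + 1 ≤ 15 ∧ 0 ≤ a ∧ a ≤ 1 ∧
            y.re = ((v : ℝ) - 5 + a) / 20 := by
          rcases hp with hp | hp | hp | hp
          · obtain ⟨v, a, -, v1, a0, a1, hx⟩ := right (Or.inl hp)
            exact ⟨v, a, v1, a0, a1, hx⟩
          · obtain ⟨v, a, -, v1, a0, a1, hx⟩ := right (Or.inr hp)
            exact ⟨v, a, v1, a0, a1, hx⟩
          · obtain ⟨v, a, -, v1, a0, a1, hx⟩ := left (Or.inl hp)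
            exact ⟨v, a, by omega, a0, a1, hx⟩
          · obtain ⟨v, a, -, v1, a0, a1, hx⟩ := left (Or.inr hp)
            exact ⟨v, a, by omega, a0, a1, hx⟩
        exact fin_two F C m0 m1 hz J hd0 hb q q ok ok b5 b5 H P P (by omega) a0 a1 hx
          (fun _ => ⟨by omega, by omega⟩) (fun _ => ⟨by omega, v1⟩) (eT _ hT0 cc)
  rcases pc with _ | _ | _ | _ | _ | _ | _ | _ | _ | _ | _ | _ | _ | _ | f | f
  · exact absurd hb (by decide)
  · exact absurd hb (by decide)
  · exact absurd hb (by decide)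
  · exact absurd hb (by decide)
  · exact absurd hb (by decide)
  · exact hor (by simp)
  · exact hor (by simp)
  · exact hor (by simp)
  · exact hor (by simp)
  · exact sides (by simp)
  · exact sides (by simp)
  · exact sides (by simp)
  · exact sides (by simp)
  · exact absurd hb (by decide)
  · exact absurd hb (by cases f <;> decide)
  · exact absurd hb (by cases f <;> decide)

end Pool.Agent.S5.Z4
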