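import Pool.Agent.S5.Z4.Slu

/-!
# The engine: a slot, the flats, the legs and the real pieces
-/

set_option autoImplicit false

namespace Pool.Agent.S5.Z4

open Complex Pool.Agent.H63.VC3 Pool.Agent.S3 Pool.Agent.S5.G Set

variable {n : Bool} {R : List Rw} {o : ℕ} {p : Sp} {up : Bool} {s : Slt} {y0 : ℂ} {D : ℝ}
  {x0 x1 : Cx} {β ζ : ℝ} {M0 M1 : ℕ → ℕ} {j : ℕ} {b : ℝ}

theorem eff_self {pc : Pc} (h : pc.box = false) (hl : pc ≠ .lo) (y : ℂ) : pc.eff y = y := by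
  unfold Pc.eff
  rw [h, if_neg (by decide), if_neg hl]

/-! ### The flats -/

theorem sl_flat (HR : SR p up R o) (F : SlF p up s y0 D) (C : C2 x0 x1 β ζ)
    (m0 : CX n R x0 M0) (m1 : CX n R x1 M1) {z : ℂ} (hz : z.im = ζ) (J : XJ j b z.re) {pc : Pc}
    {y : ℂ} {w : ℝ} (hp : (n = true ∧ (pc = .F ∨ pc = .H)) ∨ pc = .G)
    (hi : pc.In (3 / 20) s.ys.im y w) :
    phi s ⟨4, false⟩ pc y0 D y w z ≤ (1 - β) * IP M0 j b + β * IP M1 j b := by
  obtain ⟨r0, q0, Y0, k0, h0, lo0, hi0, d0, A0, B0⟩ := HR.flat p.e0 (Or.inl rfl)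
  obtain ⟨r1, q1, Y1, k1, h1, lo1, hi1, d1, A1, B1⟩ := HR.flat p.e1 (Or.inr rfl)
  have he := F.e
  have hw : w = 0 ∧ y.im = s.ys.im := by
    rcases hp with ⟨-, rfl | rfl⟩ | rfl <;> exact ⟨hi.1, hi.2.1⟩
  obtain ⟨α, H⟩ := seg (r0 := r0) (r1 := r1) (h := y.im) (by rw [h0, hw.2]; exact F.e0)
    (by rw [h1, hw.2]; exact F.e1) (by omega) (by omega) (by omega) (by omega)
    (by rw [h0, h1, d0]) (by rw [h0, h1, d1])
  have eh : s.ys.im = (1 - α) * ht p.e0 + α * ht p.e1 := by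
    rw [← hw.2, H.e, h0, h1]
  have K0 : 25000000 * (D * (s.ys.im - y0.im)) ≤ (1 - α) * ((cfl p (dmp p) p.e0 : ℤ) : ℝ) +
      α * ((cfl p (dmp p) p.e1 : ℤ) : ℝ) := by
    have k := chord_mono H.a0 H.a1 (F.cfl (Or.inl rfl)) (F.cfl (Or.inr rfl))
    refine le_trans (le_of_eq ?_) k
    rw [eh]
    ring
  have e0 : pc.eff y = y := by
    rcases hp with ⟨-, rfl | rfl⟩ | rfl <;> exact eff_self rfl (by decide) y
  have hT0 : hT s.S ⟨4, false⟩ s.x pc = 0 := by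
    rcases hp with ⟨-, rfl | rfl⟩ | rfl
    · exact hT4_F _ _
    · exact hT4_H _ _
    · exact hT4_G _ _
  have hlo : pc ≠ .lo := by
    rcases hp with ⟨-, rfl | rfl⟩ | rfl <;> decide
  have K2 : 25000000 * (s.lam.im * ((pc.eff y).im - s.ys.im) + D * (s.ys.im - y0.im) -
      hT s.S ⟨4, false⟩ s.x pc - w / 2) = 25000000 * (D * (s.ys.im - y0.im)) := by
    rw [e0, hT0, hw.1, hw.2]
    ring
  -- the lanes
  have hv : ∃ (v : ℕ) (a : ℝ), v ≤ 14 ∧ 0 ≤ a ∧ a ≤ 1 ∧ y.re = ((v : ℝ) - 5 + a) / 20 ∧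
      (pc = .F → 8 ≤ v) ∧ (pc = .H → v ≤ 7) ∧ (pc = .G → v ≤ 4) := by
    rcases hp with ⟨-, rfl | rfl⟩ | rfl
    · obtain ⟨v, a, v0, v1, a0, a1, hx'⟩ := xv (A := 8) (B := 15) (by norm_num)
        (x := y.re) (by norm_num; linarith [hi.2.2.1]) (by norm_num; linarith [hi.2.2.2])
      exact ⟨v, a, by omega, a0, a1, hx', fun _ => v0, fun h => by simp at h,
        fun h => by simp at h⟩
    · obtain ⟨v, a, v0, v1, a0, a1, hx'⟩ := xv (A := 5) (B := 8) (by norm_num)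
        (x := y.re) (by norm_num; linarith [hi.2.2.1]) (by norm_num; linarith [hi.2.2.2])
      exact ⟨v, a, by omega, a0, a1, hx', fun h => by simp at h, fun _ => by omega,
        fun h => by simp at h⟩
    · obtain ⟨v, a, v0, v1, a0, a1, hx'⟩ := xv (A := 0) (B := 5) (by norm_num)
        (x := y.re) (by norm_num; linarith [hi.2.2.1]) (by norm_num; linarith [hi.2.2.2])
      exact ⟨v, a, by omega, a0, a1, hx', fun h => by simp at h, fun h => by simp at h,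
        fun _ => by omega⟩
  obtain ⟨v, a, hv14, a0, a1, hx, vF, vH, vG⟩ := hv
  have hn : n = true ∨ (r0.f = false ∧ r1.f = false) ∨ v ≤ 4 := by
    rcases hp with ⟨c, -⟩ | c
    · exact Or.inl c
    · exact Or.inr (Or.inr (vG c))
  by_cases hk : p.kd = 2
  · have hs : s.x = ⟨3, true⟩ := F.k2.1 hk
    by_cases hF : pc = .F
    · exact use2 F C m0 m1 hz J q0 q1 k0 k1 H (B0 hk).2 (B1 hk).2 hv14 a0 a1 hx
        (fun _ => ⟨vF hF, by omega⟩) (fun _ => ⟨by have := vF hF; omega, by omega⟩) hn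
        (by rw [hF]; exact dT4_zero _ _ (by simp [Pc.d3])) hlo (by rw [K2]; exact K0)
    · have hv7 : v ≤ 7 := by
        rcases hp with ⟨-, c | c⟩ | c
        · exact absurd c hF
        · exact vH c
        · have := vG c
          omega
      have hd : Pool.Agent.S5.dT s.S ⟨4, false⟩ s.x pc = -1 := by
        rcases hp with ⟨-, c | c⟩ | c
        · exact absurd c hF
        · rw [c]
          exact dT4_one _ _ (Or.inl ⟨hs, rfl⟩)
        · rw [c]
          exact dT4_one _ _ (Or.inl ⟨hs, rfl⟩)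
      have K1 := chord_mono H.a0 H.a1 (F.cti (Or.inr hk) p.e0) (F.cti (Or.inr hk) p.e1)
      refine use1 F (Or.inr hk) C m0 m1 hz J q0 q1 k0 k1 H (B0 hk).1 (B1 hk).1 hv14 a0 a1 hx
        (fun _ => ⟨by omega, by omega⟩) (fun _ => ⟨by omega, by omega⟩) hn hd hlo ?_
      have e2 := H.e
      rw [h0, h1] at e2
      rw [mul_add, K2]
      push_cast
      have e3 : 25000000 * ((fR (1 / 2 - y0.re) y0.im - Td (1 / 2 - s.ys) (1 / 2 - y0)) -
          (hh (1 / 2 - s.ys)).im * (y.im - y0.im)) =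
        (1 - α) * (25000000 * ((fR (1 / 2 - y0.re) y0.im - Td (1 / 2 - s.ys) (1 / 2 - y0)) -
          (hh (1 / 2 - s.ys)).im * (ht p.e0 - y0.im))) +
        α * (25000000 * ((fR (1 / 2 - y0.re) y0.im - Td (1 / 2 - s.ys) (1 / 2 - y0)) -
          (hh (1 / 2 - s.ys)).im * (ht p.e1 - y0.im))) := by
        rw [e2]
        ring
      rw [e3]
      linarith
  · have hs : s.x ≠ ⟨3, true⟩ := fun c => hk (F.k2.2 c)
    have hd : Pool.Agent.S5.dT s.S ⟨4, false⟩ s.x pc = 0 := by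
      rcases hp with ⟨-, c | c⟩ | c
      · rw [c]
        exact dT4_zero _ _ (by simp [hs])
      · rw [c]
        exact dT4_zero _ _ (by simp [hs])
      · rw [c]
        exact dT4_zero _ _ (by simp [hs])
    exact use2 F C m0 m1 hz J q0 q1 k0 k1 H (A0 hk) (A1 hk) hv14 a0 a1 hx
      (fun _ => ⟨by omega, by omega⟩) (fun _ => ⟨by omega, by omega⟩) hn hd hlo
      (by rw [K2]; exact K0)

/-! ### The legs -/

/-- A row with the lanes of a leg. -/
def LGR (p : Sp) (h : ℕ) (r : Rw) (Y : ℕ → ℕ) : Prop :=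
  RwOK r Y ∧ r.f = false ∧ r.h = h ∧ r.lo ≤ lop p ∧ hip p ≤ r.hi ∧ dsp p ≤ r.d ∧
    LR p r Y (clg p (dmp p) h)

/-- The heights of the rows of the legs. -/
def LH (p : Sp) (h : ℕ) : Prop := h = p.e0 ∨ h = p.e1 ∨ h = 1000

theorem leg_row (HR : SR p up R o) {h : ℕ} (hh : LH p h) : ∃ r ∈ R, ∃ Y, LGR p h r Y := by
  rcases hh with rfl | rfl | rfl
  · obtain ⟨r, q, Y, k, h1, h2, h3, h4, h5, h6⟩ := HR.leg p.e0 (Or.inl rfl)
    exact ⟨r, q, Y, k, h5, h1, h2.le, h3.ge, h4.ge, h6⟩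
  · obtain ⟨r, q, Y, k, h1, h2, h3, h4, h5, h6⟩ := HR.leg p.e1 (Or.inr rfl)
    exact ⟨r, q, Y, k, h5, h1, h2.le, h3.ge, h4.ge, h6⟩
  · obtain ⟨r, q, Y, k, h1, h2, h3, h4, h5, h6, -⟩ := HR.zero
    exact ⟨r, q, Y, k, h5, h1, by rw [h2]; exact min_le_left _ _, by rw [h3]; exact le_max_left _ _,
      by rw [h4]; exact le_max_left _ _, h6⟩

theorem sq_comm' (a b : ℕ) : sq a b = sq b a := by
  have : (sq a b : ℝ) = (sq b a : ℝ) := by
    rw [sq_cast, sq_cast]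
    ring
  exact_mod_cast this

theorem sq_self' (a : ℕ) : sq a a = 0 := by
  have : (sq a a : ℝ) = 0 := by
    rw [sq_cast]
    ring
  exact_mod_cast this

theorem LH.sq {h k : ℕ} (hh : LH p h) (hk : LH p k) : sq h k ≤ dsp p := by
  have a1 : Z4.sq p.e0 p.e1 ≤ dsp p := le_max_left _ _
  have a2 : Z4.sq p.e0 1000 ≤ dsp p := (le_max_left _ _).trans (le_max_right _ _)
  have a3 : Z4.sq p.e1 1000 ≤ dsp p := (le_max_right _ _).trans (le_max_right _ _)
  rcases hh with rfl | rfl | rfl <;> rcases hk with rfl | rfl | rfl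
  · rw [sq_self']
    exact Nat.zero_le _
  · exact a1
  · exact a2
  · rw [sq_comm']
    exact a1
  · rw [sq_self']
    exact Nat.zero_le _
  · exact a3
  · rw [sq_comm']
    exact a2
  · rw [sq_comm']
    exact a3
  · rw [sq_self']
    exact Nat.zero_le _

theorem LH.lo {h : ℕ} (hh : LH p h) (he : p.e0 ≤ p.e1) : lop p ≤ h ∧ h ≤ hip p := by
  unfold lop hip
  rcases hh with rfl | rfl | rfl <;> constructor <;> omega

/-- The legs are covered. -/
theorem leg_cover (F : SlF p up s y0 D) {h : ℝ} (hh : h ∈ uIcc 0 s.ys.im) :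
    ∃ h0 h1 : ℕ, LH p h0 ∧ LH p h1 ∧ ht h0 ≤ h ∧ h ≤ ht h1 := by
  rw [mem_uIcc] at hh
  have e0 := F.e0
  have e1 := F.e1
  rcases lt_or_ge h (ht p.e0) with c0 | c0
  · refine ⟨1000, p.e0, Or.inr (Or.inr rfl), Or.inl rfl, ?_, c0.le⟩
    rw [ht_1000]
    rcases hh with c | c
    · exact c.1
    · linarith [c.1]
  · rcases le_or_gt h (ht p.e1) with c1 | c1
    · exact ⟨p.e0, p.e1, Or.inl rfl, Or.inr (Or.inl rfl), c0, c1⟩
    · refine ⟨p.e1, 1000, Or.inr (Or.inl rfl), Or.inr (Or.inr rfl), c1.le, ?_⟩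
      rw [ht_1000]
      rcases hh with c | c
      · linarith [c.2]
      · exact c.2

end Pool.Agent.S5.Z4
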