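import Pool.Agent.S5.Z4.Slc

/-!
# The engine: a slot, the legs, the real pieces, the own row
-/

set_option autoImplicit false

namespace Pool.Agent.S5.Z4

open Complex Pool.Agent.H63.VC3 Pool.Agent.S3 Pool.Agent.S5.G Set

variable {n : Bool} {R : List Rw} {o : ℕ} {p : Sp} {up : Bool} {s : Slt} {y0 : ℂ} {D : ℝ}
  {x0 x1 : Cx} {β ζ : ℝ} {M0 M1 : ℕ → ℕ} {j : ℕ} {b : ℝ}

theorem sl_leg (HR : SR p up R o) (F : SlF p up s y0 D) (C : C2 x0 x1 β ζ)
    (m0 : CX n R x0 M0) (m1 : CX n R x1 M1) {z : ℂ} (hz : z.im = ζ) (J : XJ j b z.re) {pc : Pc}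
    {y : ℂ} {w : ℝ} (hp : pc = .L ∨ pc = .R) (hi : pc.In (3 / 20) s.ys.im y w) :
    phi s ⟨4, false⟩ pc y0 D y w z ≤ (1 - β) * IP M0 j b + β * IP M1 j b := by
  have hw : w = 0 ∧ y.im ∈ uIcc 0 s.ys.im := by
    rcases hp with rfl | rfl <;> exact ⟨hi.1, hi.2.2⟩
  obtain ⟨h0, h1, l0, l1, c0, c1⟩ := leg_cover F hw.2
  obtain ⟨r0, q0, Y0, k0, f0, e0, lo0, hi0, d0, A0⟩ := leg_row HR l0
  obtain ⟨r1, q1, Y1, k1, f1, e1, lo1, hi1, d1, A1⟩ := leg_row HR l1
  have he := F.e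
  have b0 := l0.lo he
  have b1 := l1.lo he
  have hsq := l0.sq l1
  obtain ⟨α, H⟩ := seg (r0 := r0) (r1 := r1) (h := y.im) (by rw [e0]; exact c0)
    (by rw [e1]; exact c1) (by omega) (by omega) (by omega) (by omega)
    (by rw [e0, e1]; omega) (by rw [e0, e1]; omega)
  have eh : y.im = (1 - α) * ht h0 + α * ht h1 := by
    rw [H.e, e0, e1]
  have K0 : 25000000 * (s.lam.im * (y.im - s.ys.im) + D * (s.ys.im - y0.im)) ≤
      (1 - α) * ((clg p (dmp p) h0 : ℤ) : ℝ) + α * ((clg p (dmp p) h1 : ℤ) : ℝ) := by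
    have k := chord_mono H.a0 H.a1 (F.clg h0) (F.clg h1)
    refine le_trans (le_of_eq ?_) k
    rw [eh]
    ring
  have hn : n = true ∨ (r0.f = false ∧ r1.f = false) ∨ (0 : ℕ) ≤ 4 := Or.inr (Or.inl ⟨f0, f1⟩)
  rcases hp with rfl | rfl
  · -- `L`
    have ee : Pc.eff .L y = y := eff_self rfl (by decide) y
    have hx : y.re = (((0 : ℕ) : ℝ) - 5 + 0) / 20 := by
      rw [hi.2.1]
      norm_num
    by_cases hk2 : p.kd = 2
    · have hs : s.x = ⟨3, true⟩ := F.k2.1 hk2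
      have hT0 : hT s.S ⟨4, false⟩ s.x .L = 0 := by
        rw [hT4_L, hs, if_neg (by decide)]
      have K1 := chord_mono H.a0 H.a1 (F.cti (Or.inr hk2) h0) (F.cti (Or.inr hk2) h1)
      have a0' := A0.2.2.2 hk2
      have a1' := A1.2.2.2 hk2
      rw [e0] at a0'
      rw [e1] at a1'
      refine use1 F (Or.inr hk2) C m0 m1 hz J q0 q1 k0 k1 H a0' a1' (by norm_num) le_rfl
        zero_le_one hx (fun _ => ⟨le_rfl, le_rfl⟩) (fun h => absurd h (lt_irrefl _)) hn
        (dT4_one _ _ (Or.inl ⟨hs, rfl⟩)) (by decide) ?_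
      rw [ee, hT0, hw.1]
      push_cast
      have e3 : 25000000 * ((fR (1 / 2 - y0.re) y0.im - Td (1 / 2 - s.ys) (1 / 2 - y0)) -
          (hh (1 / 2 - s.ys)).im * (y.im - y0.im)) =
        (1 - α) * (25000000 * ((fR (1 / 2 - y0.re) y0.im - Td (1 / 2 - s.ys) (1 / 2 - y0)) -
          (hh (1 / 2 - s.ys)).im * (ht h0 - y0.im))) +
        α * (25000000 * ((fR (1 / 2 - y0.re) y0.im - Td (1 / 2 - s.ys) (1 / 2 - y0)) -
          (hh (1 / 2 - s.ys)).im * (ht h1 - y0.im))) := by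
        rw [eh]
        ring
      have e4 : 25000000 * (s.lam.im * (y.im - s.ys.im) + D * (s.ys.im - y0.im) - 0 - 0 / 2 +
          ((fR (1 / 2 - y0.re) y0.im - Td (1 / 2 - s.ys) (1 / 2 - y0)) -
            (hh (1 / 2 - s.ys)).im * (y.im - y0.im))) =
          25000000 * (s.lam.im * (y.im - s.ys.im) + D * (s.ys.im - y0.im)) +
          25000000 * ((fR (1 / 2 - y0.re) y0.im - Td (1 / 2 - s.ys) (1 / 2 - y0)) -
            (hh (1 / 2 - s.ys)).im * (y.im - y0.im)) := by ring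
      rw [e4, e3]
      linarith
    · by_cases hk1 : p.kd = 1
      · have hs : s.x = ⟨2, true⟩ := F.k1.1 hk1
        have hT0 : hT s.S ⟨4, false⟩ s.x .L = -(24 / 100) := by
          rw [hT4_L, hs, if_pos rfl]
        refine use2 F C m0 m1 hz J q0 q1 k0 k1 H (A0.2.2.1 hk1) (A1.2.2.1 hk1) (by norm_num)
          le_rfl zero_le_one hx (fun _ => ⟨le_rfl, le_rfl⟩) (fun h => absurd h (lt_irrefl _)) hn
          (dT4_zero _ _ (by simp [hs])) (by decide) ?_
        rw [ee, hT0, hw.1]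
        push_cast
        linarith
      · have hs1 : s.x ≠ ⟨2, true⟩ := fun c => hk1 (F.k1.2 c)
        have hs2 : s.x ≠ ⟨3, true⟩ := fun c => hk2 (F.k2.2 c)
        have hT0 : hT s.S ⟨4, false⟩ s.x .L = 0 := by
          rw [hT4_L, if_neg hs1]
        refine use2 F C m0 m1 hz J q0 q1 k0 k1 H (A0.2.1 hk1 hk2) (A1.2.1 hk1 hk2) (by norm_num)
          le_rfl zero_le_one hx (fun _ => ⟨le_rfl, le_rfl⟩) (fun h => absurd h (lt_irrefl _)) hn
          (dT4_zero _ _ (by simp [hs2])) (by decide) ?_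
        rw [ee, hT0, hw.1]
        linarith
  · -- `R`
    have ee : Pc.eff .R y = y := eff_self rfl (by decide) y
    have hx : y.re = (((14 : ℕ) : ℝ) - 5 + 1) / 20 := by
      rw [hi.2.1]
      norm_num
    refine use2 F C m0 m1 hz J q0 q1 k0 k1 H A0.1 A1.1 (by norm_num)
      zero_le_one le_rfl hx (fun h => absurd h (lt_irrefl _)) (fun _ => ⟨le_rfl, le_rfl⟩)
      (Or.inr (Or.inl ⟨f0, f1⟩)) (dT4_zero _ _ (by simp [Pc.d3])) (by decide) ?_
    rw [ee, hT4_R, hw.1]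
    linarith

/-! ### The real pieces -/

theorem sl_real (HR : SR p up R o) (F : SlF p up s y0 D) (C : C2 x0 x1 β ζ)
    (m0 : CX n R x0 M0) (m1 : CX n R x1 M1) {z : ℂ} (hz : z.im = ζ) (J : XJ j b z.re) {pc : Pc}
    {y : ℂ} {w : ℝ} (hp : pc = .re .far ∨ pc = .rz .far) (hi : s.InE pc y w) :
    phi s ⟨4, false⟩ pc y0 D y w z ≤ (1 - β) * IP M0 j b + β * IP M1 j b := by
  obtain ⟨r, q, Y, k, h1, h2, h3, h4, h5, -, hre, hrz⟩ := HR.zero
  have him : y.im = 0 := by
    rcases hp with rfl | rfl <;> exact hi.1.2.1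
  have hw : w = 0 := by
    rcases hp with rfl | rfl <;> exact hi.1.1
  have b0 : lop p ≤ 1000 ∧ 1000 ≤ hip p := ⟨min_le_right _ _, le_max_right _ _⟩
  have H : H2 r r 0 y.im := seg1 (by rw [him, h1, ht_1000])
    (by rw [h1, h2]; exact (min_le_left _ _).trans b0.1)
    (by rw [h1, h3]; exact b0.2.trans (le_max_left _ _))
  have c0 := F.c0
  have hn : ∀ v : ℕ, n = true ∨ (r.f = false ∧ r.f = false) ∨ v ≤ 4 :=
    fun _ => Or.inr (Or.inl ⟨h5, h5⟩)
  rcases hp with rfl | rfl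
  · have hr := hi.2.2 (Or.inl rfl)
    have P := hre (F.re hr.1 hr.2)
    obtain ⟨v, a, v0, v1, a0, a1, hx⟩ := xv (A := 10) (B := 15) (by norm_num)
        (x := y.re) (by norm_num; linarith [hi.1.2.2.1]) (by norm_num; linarith [hi.1.2.2.2])
    refine use2 F C m0 m1 hz J q q k k H P P (by omega) a0 a1 hx (fun _ => ⟨v0, by omega⟩)
      (fun _ => ⟨by omega, v1⟩) (hn v) (dT4_zero _ _ (by simp [Pc.d3])) (by decide) ?_
    rw [eff_self rfl (by decide), hT4_re, hw, him, F.S]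
    cases p.S
    · simp only [cond_false, if_neg (by decide : ¬(false = true))]
      push_cast
      linarith
    · simp only [cond_true, if_true]
      push_cast
      linarith
  · have hr := hi.2.1 (Or.inl rfl)
    have P := hrz (F.rz hr.1)
    obtain ⟨v, a, v0, v1, a0, a1, hx⟩ := xv (A := 12) (B := 15) (by norm_num)
        (x := y.re) (by norm_num; linarith [hi.1.2.2.1]) (by norm_num; linarith [hi.1.2.2.2])
    refine use2 F C m0 m1 hz J q q k k H P P (by omega) a0 a1 hx (fun _ => ⟨v0, by omega⟩)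
      (fun _ => ⟨by omega, v1⟩) (hn v) (dT4_zero _ _ (by simp [Pc.d3])) (by decide) ?_
    rw [eff_self rfl (by decide), hT4_rz, hw, him, F.S]
    cases p.S
    · simp only [cond_false, if_neg (by decide : ¬(false = true))]
      push_cast
      linarith
    · simp only [cond_true, if_true]
      push_cast
      linarith

end Pool.Agent.S5.Z4
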