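import Pool.Agent.S5.Z4.Sld

/-!
# The engine: a slot, the own row
-/

set_option autoImplicit false

namespace Pool.Agent.S5.Z4

open Complex Pool.Agent.H63.VC3 Pool.Agent.S3 Pool.Agent.S5.G Set

variable {R : List Rw} {o : ℕ} {p : Sp} {up : Bool} {s : Slt} {y0 : ℂ} {D : ℝ}

/-- **The pieces forced by the variable of the node.** -/
theorem slot_own (HR : SR p up R o) (F : SlF p up s y0 D) : SlW o s y0 D := by
  intro M j b hM z hz J hzr pc y w hpc hi hle
  unfold Slt.In at hi
  rw [if_pos F.ex] at hi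
  obtain ⟨Y, k, P⟩ := HR.own
  have hR := hM Y k
  have hi' : w = 0 ∧ y.im = 0 ∧ y.re ≤ 1 / 2 := by
    rcases hpc with rfl | rfl | rfl
    · exact ⟨hi.1.1, hi.1.2.1, hi.1.2.2.2⟩
    · exact ⟨hi.1.1, hi.1.2.1, hi.1.2.2.2⟩
    · exact ⟨hi.1.1, hi.1.2.1, hi.1.2.2.2⟩
  obtain ⟨hw, him, hy1⟩ := hi'
  have hlo : pc ≠ .lo := by
    rcases hpc with rfl | rfl | rfl <;> decide
  have heff : pc.eff y = y := by
    rcases hpc with rfl | rfl | rfl <;> exact eff_self rfl (by decide) y
  have hd : Pool.Agent.S5.dT s.S ⟨4, false⟩ s.x pc = 0 := by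
    rcases hpc with rfl | rfl | rfl <;> exact dT4_zero _ _ (by simp [Pc.d3])
  have hTb := hT4_frcZ s.S s.x hpc
  have e := phi_two (s := s) (pc := pc) (y0 := y0) (D := D) (y := y) (w := w) (z := z)
    (t0 := p.t0) hd hlo F.yr
  -- the lanes
  obtain ⟨v, a, hv0, hv1, a0, a1, hx, hc⟩ : ∃ (v : ℕ) (a : ℝ), 13 ≤ v ∧ v ≤ 14 ∧ 0 ≤ a ∧ a ≤ 1 ∧
      y.re = ((v : ℝ) - 5 + a) / 20 ∧ (v = 14 ∨ a < 1) := by
    rcases le_or_gt (9 / 20) y.re with c | c
    · exact ⟨14, 20 * y.re - 9, by norm_num, le_rfl, by linarith, by linarith,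
        by push_cast; ring, Or.inl rfl⟩
    · exact ⟨13, 20 * y.re - 8, le_rfl, by norm_num, by linarith, by linarith,
        by push_cast; ring, Or.inr (by linarith)⟩
  have b0 := J.b0
  have b1 := J.b1
  have hj := J.hj
  have hX := J.e
  have hjb : (j : ℝ) + b ≤ (v : ℝ) + 5 + a := by
    rw [hX, hx] at hle
    linarith
  have hj18 : 18 ≤ (j : ℝ) + b := by
    rw [hX] at hzr
    linarith
  have hV : ∀ v' j', Vx v j a b v' j' → (13 ≤ v' ∧ v' ≤ 15) ∧ 15 + j' ≤ 20 + v' := by
    intro v' j' hV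
    have hjn : 17 ≤ j := by
      have : (17 : ℝ) ≤ j := by linarith
      exact_mod_cast this
    have hvx : (v = 13 ∧ a < 1) ∨ v = 14 := by
      rcases hc with c | c
      · exact Or.inr c
      · rcases Nat.lt_or_ge v 14 with c' | c'
        · exact Or.inl ⟨by omega, c⟩
        · exact Or.inr (by omega)
    rcases hvx with ⟨cv, ca⟩ | cv
    · subst cv
      have hj' : j < 19 := by
        have h1 : (j : ℝ) < 19 := by
          push_cast at hjb
          linarith
        exact_mod_cast h1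
      have hj17 : j = 17 → b = 1 := by
        intro c
        rw [c] at hj18
        push_cast at hj18
        linarith
      rcases hV with ⟨c, ⟨c1, c3, c2⟩ | ⟨c1, c3, c2⟩ | ⟨c1, c3, c2⟩⟩ |
        ⟨c, ⟨c1, c3, c2⟩ | ⟨c1, c3⟩ | ⟨c1, c3, c2⟩⟩
      · omega
      · omega
      · omega
      · omega
      · rcases Nat.lt_or_ge j 18 with d | d
        · omega
        · have : j = 18 := by omega
          rw [this] at hjb
          push_cast at hjb
          linarith
      · omega
    · subst cv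
      rcases hV with ⟨c, ⟨c1, c3, c2⟩ | ⟨c1, c3, c2⟩ | ⟨c1, c3, c2⟩⟩ |
        ⟨c, ⟨c1, c3, c2⟩ | ⟨c1, c3⟩ | ⟨c1, c3, c2⟩⟩
      · omega
      · omega
      · omega
      · omega
      · rcases Nat.lt_or_ge j 19 with d | d
        · omega
        · have : j = 19 := by omega
          rw [this] at hjb
          push_cast at hjb
          linarith
      · omega
  have C : C2 ⟨1000, 1000, 1000, 0⟩ ⟨1000, 1000, 1000, 0⟩ 0 z.im := by
    refine ⟨⟨by norm_num, by norm_num, le_rfl, by norm_num⟩, ⟨by norm_num, by norm_num, le_rfl,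
      by norm_num⟩, le_rfl, zero_le_one, ?_, ?_, ?_, ?_, ?_, ?_, ?_⟩ <;>
      simp [hz, ht_1000]
  have H : H2 ⟨o, 1000, 1000, 1000, 0, false⟩ ⟨o, 1000, 1000, 1000, 0, false⟩ 0 y.im :=
    seg1 (by rw [him]; exact ht_1000.symm) le_rfl le_rfl
  have c0 := F.c0
  have hK : 25000000 * (s.lam.im * ((pc.eff y).im - s.ys.im) + D * (s.ys.im - y0.im) -
      hT s.S ⟨4, false⟩ s.x pc - w / 2) ≤
      (1 - 0) * (((c0p p + cond p.S 2000000 (cond (Nat.beq p.kd 1) 500000 750000) : ℤ)) : ℝ) +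
        0 * (((c0p p + cond p.S 2000000 (cond (Nat.beq p.kd 1) 500000 750000) : ℤ)) : ℝ) := by
    rw [heff, him, hw, zero_mul, add_zero, sub_zero, one_mul]
    rw [F.S] at hTb ⊢
    have hk : (Nat.beq p.kd 1 = true ↔ s.x = ⟨2, true⟩) := by
      rw [Nat.beq_eq]
      exact F.k1
    cases hS : p.S
    · rw [hS, cond_false] at hTb
      rw [cond_false]
      by_cases h2 : s.x = ⟨2, true⟩
      · rw [hk.2 h2, cond_true]
        rw [decide_eq_true h2, cond_true] at hTb
        push_cast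
        linarith
      · have h3 : Nat.beq p.kd 1 = false := by
          cases h4 : Nat.beq p.kd 1
          · rfl
          · exact absurd (hk.1 h4) h2
        rw [h3, cond_false]
        rw [decide_eq_false h2, cond_false] at hTb
        push_cast
        linarith
    · rw [hS, cond_true] at hTb
      rw [cond_true]
      push_cast
      linarith
  have key := cell_main H C hv1 hj a0 a1 b0 b1 hx hX F.l0 F.l1 P P hR hR hR hR
    (fun v' j' h => ⟨(hV v' j' h).1, (hV v' j' h).2, (hV v' j' h).2⟩) hK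
  have e2 : ((2 : ℕ) : ℝ) = 2 := by norm_num
  rw [e2] at key
  linarith

end Pool.Agent.S5.Z4
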