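import Pool.Agent.S5.Z4.Sle
import Pool.Agent.S5.Z4.Slb
import Pool.Agent.S5.Z4.LfP

/-!
# The engine: the slot theorem and the leaf theorem
-/

set_option autoImplicit false

namespace Pool.Agent.S5.Z4

open Complex Pool.Agent.H63.VC3 Pool.Agent.S3 Pool.Agent.S5.G Set

variable {n : Bool} {R : List Rw} {o : ℕ} {p : Sp} {up : Bool} {s : Slt} {y0 : ℂ} {D : ℝ}

/-- **All free pieces.** -/
theorem sl_all (HR : SR p up R o) (F : SlF p up s y0 D) {x0 x1 : Cx} {β ζ : ℝ} {M0 M1 : ℕ → ℕ}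
    {j : ℕ} {b : ℝ} (C : C2 x0 x1 β ζ) (m0 : CX n R x0 M0) (m1 : CX n R x1 M1) {z : ℂ}
    (hz : z.im = ζ) (J : XJ j b z.re) {pc : Pc} {y : ℂ} {w : ℝ} (hf : pc.free)
    (hn : n = true ∨ (pc ≠ .F ∧ pc ≠ .H)) (hi : s.In pc y w) :
    phi s ⟨4, false⟩ pc y0 D y w z ≤ (1 - β) * IP M0 j b + β * IP M1 j b := by
  unfold Slt.In at hi
  rw [if_pos F.ex] at hi
  cases pc with
  | F => exact sl_flat HR F C m0 m1 hz J (Or.inl ⟨hn.resolve_right fun h => h.1 rfl, Or.inl rfl⟩) hi.1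
  | H => exact sl_flat HR F C m0 m1 hz J (Or.inl ⟨hn.resolve_right fun h => h.2 rfl, Or.inr rfl⟩) hi.1
  | G => exact sl_flat HR F C m0 m1 hz J (Or.inr rfl) hi.1
  | L => exact sl_leg HR F C m0 m1 hz J (Or.inl rfl) hi.1
  | R => exact sl_leg HR F C m0 m1 hz J (Or.inr rfl) hi.1
  | T => exact sl_box HR F C m0 m1 hz J rfl hi.1
  | t => exact sl_box HR F C m0 m1 hz J rfl hi.1
  | U => exact sl_box HR F C m0 m1 hz J rfl hi.1
  | u => exact sl_box HR F C m0 m1 hz J rfl hi.1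
  | P => exact sl_box HR F C m0 m1 hz J rfl hi.1
  | p => exact sl_box HR F C m0 m1 hz J rfl hi.1
  | Q => exact sl_box HR F C m0 m1 hz J rfl hi.1
  | q => exact sl_box HR F C m0 m1 hz J rfl hi.1
  | lo =>
    rcases hf with h | h | h
    · exact absurd h id
    · exact absurd h (by simp)
    · exact absurd h (by simp)
  | re f =>
    rcases hf with h | h | h
    · exact absurd h id
    · exact sl_real HR F C m0 m1 hz J (Or.inl h) hi
    · exact absurd h (by simp)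
  | rz f =>
    rcases hf with h | h | h
    · exact absurd h id
    · exact absurd h (by simp)
    · exact sl_real HR F C m0 m1 hz J (Or.inr h) hi

/-- **The slot theorem.** -/
theorem slT : SlT := by
  intro p up R o s y0 D HR F
  refine ⟨?_, ?_, slot_own HR F⟩
  · intro x0 x1 β ζ M0 M1 j b C h0 h1 z hz J pc y w hf hi
    exact sl_all HR F C h0.cx h1.cx hz J hf (Or.inl rfl) hi
  · intro x0 x1 β ζ M0 M1 j b C h0 h1 z hz J pc y w hf n1 n2 hi
    exact sl_all HR F C h0.cx h1.cx hz J hf (Or.inr ⟨n1, n2⟩) hi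

/-- **The leaf theorem.** -/
theorem lf_sound {A B : Kd} {k cL cR : Ce} {y b z hy hb : Rc} {sy sb : Slt} {zs : ℂ}
    (H : lf A B k cL cR y b z hy hb = true) (F : LfF A B k cL cR y b z hy hb sy sb zs)
    (ka : k.a1 ≤ 1550) (hA : A.kd = 1 ∨ A.kd = 2 → hy.t1 ≤ 1050)
    (hB : B.kd = 1 ∨ B.kd = 2 → hb.t1 ≤ 1050) : V4 zs sy sb := lf_v4 slT H F ka hA hB

end Pool.Agent.S5.Z4
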