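import Pool.Agent.S5.Z4.Sla
import Pool.Agent.S5.Z4.Tb4

/-!
# The engine: a slot, the two shares
-/

set_option autoImplicit false

namespace Pool.Agent.S5.Z4

open Complex Pool.Agent.H63.VC3 Pool.Agent.S3 Pool.Agent.S5.G

variable {n : Bool} {R : List Rw} {o : ℕ} {p : Sp} {up : Bool} {s : Slt} {y0 : ℂ} {D : ℝ}
  {x0 x1 : Cx} {β ζ : ℝ} {M0 M1 : ℕ → ℕ} {j : ℕ} {b : ℝ}

/-- The share `2`. -/
theorem use2 (F : SlF p up s y0 D) (C : C2 x0 x1 β ζ) (m0 : CX n R x0 M0) (m1 : CX n R x1 M1)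
    {z : ℂ} (hz : z.im = ζ) (J : XJ j b z.re) {r0 r1 : Rw} {Y0 Y1 : ℕ → ℕ} (q0 : r0 ∈ R)
    (q1 : r1 ∈ R) (o0 : RwOK r0 Y0) (o1 : RwOK r1 Y1) {α : ℝ} {y : ℂ} (H : H2 r0 r1 α y.im)
    {a' b' : ℕ} {c0 c1 : ℤ} (p0 : PB r0 Y0 2 p.L0 p.L1 p.t0 a' b' c0)
    (p1 : PB r1 Y1 2 p.L0 p.L1 p.t0 a' b' c1) {a : ℝ} {v : ℕ} (hv : v ≤ 14) (a0 : 0 ≤ a)
    (a1 : a ≤ 1) (hx : y.re = ((v : ℝ) - 5 + a) / 20) (hl : a < 1 → a' ≤ v ∧ v ≤ b')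
    (hr : 0 < a → a' ≤ v + 1 ∧ v + 1 ≤ b')
    (hn : n = true ∨ (r0.f = false ∧ r1.f = false) ∨ v ≤ 4) {pc : Pc} {w : ℝ}
    (hd : Pool.Agent.S5.dT s.S ⟨4, false⟩ s.x pc = 0) (hlo : pc ≠ .lo)
    (hK : 25000000 * (s.lam.im * ((pc.eff y).im - s.ys.im) + D * (s.ys.im - y0.im) -
      hT s.S ⟨4, false⟩ s.x pc - w / 2) ≤ (1 - α) * (c0 : ℝ) + α * (c1 : ℝ)) :
    phi s ⟨4, false⟩ pc y0 D y w z ≤ (1 - β) * IP M0 j b + β * IP M1 j b := by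
  have k := app C m0 m1 J q0 q1 o0 o1 H p0 p1 hv a0 a1 hx hl hr hn F.l0 F.l1 hK
  have e := phi_two (s := s) (pc := pc) (y0 := y0) (D := D) (y := y) (w := w) (z := z)
    (t0 := p.t0) hd hlo F.yr
  rw [← hz] at k
  have e2 : ((2 : ℕ) : ℝ) = 2 := by norm_num
  rw [e2] at k
  linarith

/-- The share `1`. -/
theorem use1 (F : SlF p up s y0 D) (hk : p.kd = 1 ∨ p.kd = 2) (C : C2 x0 x1 β ζ)
    (m0 : CX n R x0 M0) (m1 : CX n R x1 M1)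
    {z : ℂ} (hz : z.im = ζ) (J : XJ j b z.re) {r0 r1 : Rw} {Y0 Y1 : ℕ → ℕ} (q0 : r0 ∈ R)
    (q1 : r1 ∈ R) (o0 : RwOK r0 Y0) (o1 : RwOK r1 Y1) {α : ℝ} {y : ℂ} (H : H2 r0 r1 α y.im)
    {a' b' : ℕ} {c0 c1 : ℤ} (p0 : PB r0 Y0 1 p.T0 p.T1 p.t0 a' b' c0)
    (p1 : PB r1 Y1 1 p.T0 p.T1 p.t0 a' b' c1) {a : ℝ} {v : ℕ} (hv : v ≤ 14) (a0 : 0 ≤ a)
    (a1 : a ≤ 1) (hx : y.re = ((v : ℝ) - 5 + a) / 20) (hl : a < 1 → a' ≤ v ∧ v ≤ b')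
    (hr : 0 < a → a' ≤ v + 1 ∧ v + 1 ≤ b')
    (hn : n = true ∨ (r0.f = false ∧ r1.f = false) ∨ v ≤ 4) {pc : Pc} {w : ℝ}
    (hd : Pool.Agent.S5.dT s.S ⟨4, false⟩ s.x pc = -1) (hlo : pc ≠ .lo)
    (hK : 25000000 * (s.lam.im * ((pc.eff y).im - s.ys.im) + D * (s.ys.im - y0.im) -
      hT s.S ⟨4, false⟩ s.x pc - w / 2 + ((fR (1 / 2 - y0.re) y0.im -
        Td (1 / 2 - s.ys) (1 / 2 - y0)) - (hh (1 / 2 - s.ys)).im * (y.im - y0.im))) ≤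
        (1 - α) * (c0 : ℝ) + α * (c1 : ℝ)) :
    phi s ⟨4, false⟩ pc y0 D y w z ≤ (1 - β) * IP M0 j b + β * IP M1 j b := by
  have k := app C m0 m1 J q0 q1 o0 o1 H p0 p1 hv a0 a1 hx hl hr hn (F.T0 hk) (F.T1 hk) hK
  have e := phi_one (s := s) (pc := pc) (y0 := y0) (D := D) (y := y) (w := w) (z := z)
    (t0 := p.t0) hd hlo F.yr rfl
  rw [← hz] at k
  have e2 : ((1 : ℕ) : ℝ) = 1 := by norm_num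
  rw [e2] at k
  linarith

end Pool.Agent.S5.Z4
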