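import Pool.Agent.S5.Z4.Lr
import Pool.Agent.S5.Z4.Ln

/-!
# The lane functions of the tables

The lane `21 v + j` belongs to `y.re = v / 20 - 1 / 4` and `z.re = j / 20 - 1 / 2`.
-/

set_option autoImplicit false

namespace Pool.Agent.S5.Z4

/-- The table of `-Rf` at `y - z`: the lane `336 q + 21 v + j`. -/
def tlF (i : Nat) : Nat := lfd (20 + i % 336 / 21 - i % 336 % 21) (i / 336)

/-- The table of `-Rf` at `1 / 2 - y`. -/
def ulF (i : Nat) : Nat := lfd (30 - i % 336 / 21) (i / 336)

/-- The table of the sags at `y - z`. -/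
def sgF (i : Nat) : Nat := sgv (20 + i % 336 / 21 - i % 336 % 21) (i / 336)

/-- The table of the sags at `1 / 2 - y`. -/
def suF (i : Nat) : Nat := sgv (30 - i % 336 / 21) (i / 336)

/-- The vertical curvature at `y - z`. -/
def kvF (i : Nat) : Nat := kv (20 + i / 21 - i % 21)

/-- The vertical curvature at `1 / 2 - y`. -/
def kuF (i : Nat) : Nat := kv (30 - i / 21)

/-- The sum `v + j`. -/
def vjF (i : Nat) : Nat := i / 21 + i % 21

/-- The number `15 - v`. -/
def xrF (i : Nat) : Nat := 15 - i / 21

/-- The mask of the lanes with `z.re ≤ y.re`. -/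
def mwF (i : Nat) : Nat := bif Nat.ble (15 + i % 21) (20 + i / 21) then 1099511627775 else 0

/-- The first `n` values. -/
def cut (f : Nat → Nat) (n i : Nat) : Nat := bif Nat.ble n i then 0 else f i

end Pool.Agent.S5.Z4
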