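import Pool.Agent.S5.Z4.Lf
import Pool.Agent.S5.Z4.RegP

/-!
# Inner nodes with four half twists: the trees

`k` is the cell of the node, `cL`, `cR` the cells of the neighbours. A tree splits the cells; the leaves
are closed by the engine (`L`), or they have no points (`D`, `E`).
-/

set_option autoImplicit false

namespace Pool.Agent.S5.Z4

/-- A certificate. -/
inductive Tr where
  | E
  | D (cy cb : Ct) (y b z : Rc)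
  | L (cy cb : Ct) (y b z hy hb : Rc)
  | S (d m : Nat) (l r : Tr)

/-- The cell is empty. -/
def emp (k : Ce) : Bool := Nat.ble (Nat.succ k.a1) k.a0 || Nat.ble (Nat.succ k.f1) k.f0

/-- The rectangles. -/
def rct (A B : Kd) (k cL cR : Ce) (cy cb : Ct) (y b z : Rc) : Bool :=
  regY A.S k cL cy y && (regY B.S k cR cb b && regZ k y b z)

/-- The angles at the node are at most `1 / 2`. -/
def gq (y b z : Rc) : Bool := Nat.ble y.t1 z.t0 && Nat.ble (Nat.add b.t1 z.t1) 1000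

/-- The rectangle of the logarithm, for a neighbour with a fixed slot. -/
def rh (K : Kd) (k c : Ce) (h : Rc) : Bool := Nat.beq K.kd 0 || regH K.S k c h

/-- A leaf. -/
noncomputable def ckL (A B : Kd) (k cL cR : Ce) (cy cb : Ct) (y b z hy hb : Rc) : Bool :=
  gq y b z && (rct A B k cL cR cy cb y b z && ((rh A k cL hy && rh B k cR hb) &&
    lf A B k cL cR y b z hy hb))

/-- A split: `0`, `1` the cell of the node, `2`, `3` the left, `4`, `5` the right neighbour. -/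
noncomputable def spl (d m : Nat) (k cL cR : Ce) (f g : Ce → Ce → Ce → Bool) : Bool :=
  Ce.rec (fun a0 a1 f0 f1 => Ce.rec (fun b0 b1 g0 g1 => Ce.rec (fun c0 c1 h0 h1 =>
    cond (Nat.ble d 1)
      (cond (Nat.beq d 0)
        (f ⟨a0, m, f0, f1⟩ ⟨b0, b1, g0, g1⟩ ⟨c0, c1, h0, h1⟩ &&
          g ⟨m, a1, f0, f1⟩ ⟨b0, b1, g0, g1⟩ ⟨c0, c1, h0, h1⟩)
        (f ⟨a0, a1, f0, m⟩ ⟨b0, b1, g0, g1⟩ ⟨c0, c1, h0, h1⟩ &&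
          g ⟨a0, a1, m, f1⟩ ⟨b0, b1, g0, g1⟩ ⟨c0, c1, h0, h1⟩))
      (cond (Nat.ble d 3)
        (cond (Nat.beq d 2)
          (f ⟨a0, a1, f0, f1⟩ ⟨b0, m, g0, g1⟩ ⟨c0, c1, h0, h1⟩ &&
            g ⟨a0, a1, f0, f1⟩ ⟨m, b1, g0, g1⟩ ⟨c0, c1, h0, h1⟩)
          (f ⟨a0, a1, f0, f1⟩ ⟨b0, b1, g0, m⟩ ⟨c0, c1, h0, h1⟩ &&
            g ⟨a0, a1, f0, f1⟩ ⟨b0, b1, m, g1⟩ ⟨c0, c1, h0, h1⟩))
        (cond (Nat.beq d 4)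
          (f ⟨a0, a1, f0, f1⟩ ⟨b0, b1, g0, g1⟩ ⟨c0, m, h0, h1⟩ &&
            g ⟨a0, a1, f0, f1⟩ ⟨b0, b1, g0, g1⟩ ⟨m, c1, h0, h1⟩)
          (f ⟨a0, a1, f0, f1⟩ ⟨b0, b1, g0, g1⟩ ⟨c0, c1, h0, m⟩ &&
            g ⟨a0, a1, f0, f1⟩ ⟨b0, b1, g0, g1⟩ ⟨c0, c1, m, h1⟩)))) cR) cL) k

/-- The check of a certificate. -/
noncomputable def ckT (A B : Kd) (t : Tr) : Ce → Ce → Ce → Bool :=
  Tr.rec (motive := fun _ => Ce → Ce → Ce → Bool)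
    (fun k _ _ => emp k)
    (fun cy cb y b z k cL cR => rct A B k cL cR cy cb y b z && dis4 k y b z)
    (fun cy cb y b z hy hb k cL cR => ckL A B k cL cR cy cb y b z hy hb)
    (fun d m _ _ f g k cL cR => spl d m k cL cR f g) t

/-- All points of the three cells are closed. -/
def Cl (A B : Kd) (k cL cR : Ce) : Prop := ∃ t, ckT A B t k cL cR = true

theorem Cl.mk {A B : Kd} {k cL cR : Ce} (t : Tr) (h : ckT A B t k cL cR = true) : Cl A B k cL cR :=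
  ⟨t, h⟩

section split

variable {A B : Kd} {a0 a1 f0 f1 b0 b1 g0 g1 c0 c1 h0 h1 m : Nat}

theorem Cl.s0 (l : Cl A B ⟨a0, m, f0, f1⟩ ⟨b0, b1, g0, g1⟩ ⟨c0, c1, h0, h1⟩)
    (r : Cl A B ⟨m, a1, f0, f1⟩ ⟨b0, b1, g0, g1⟩ ⟨c0, c1, h0, h1⟩) :
    Cl A B ⟨a0, a1, f0, f1⟩ ⟨b0, b1, g0, g1⟩ ⟨c0, c1, h0, h1⟩ := by
  obtain ⟨t, ht⟩ := l
  obtain ⟨u, hu⟩ := r
  exact ⟨.S 0 m t u, Bool.and_eq_true _ _ ▸ ⟨ht, hu⟩⟩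

theorem Cl.s1 (l : Cl A B ⟨a0, a1, f0, m⟩ ⟨b0, b1, g0, g1⟩ ⟨c0, c1, h0, h1⟩)
    (r : Cl A B ⟨a0, a1, m, f1⟩ ⟨b0, b1, g0, g1⟩ ⟨c0, c1, h0, h1⟩) :
    Cl A B ⟨a0, a1, f0, f1⟩ ⟨b0, b1, g0, g1⟩ ⟨c0, c1, h0, h1⟩ := by
  obtain ⟨t, ht⟩ := l
  obtain ⟨u, hu⟩ := r
  exact ⟨.S 1 m t u, Bool.and_eq_true _ _ ▸ ⟨ht, hu⟩⟩

theorem Cl.s2 (l : Cl A B ⟨a0, a1, f0, f1⟩ ⟨b0, m, g0, g1⟩ ⟨c0, c1, h0, h1⟩)
    (r : Cl A B ⟨a0, a1, f0, f1⟩ ⟨m, b1, g0, g1⟩ ⟨c0, c1, h0, h1⟩) :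
    Cl A B ⟨a0, a1, f0, f1⟩ ⟨b0, b1, g0, g1⟩ ⟨c0, c1, h0, h1⟩ := by
  obtain ⟨t, ht⟩ := l
  obtain ⟨u, hu⟩ := r
  exact ⟨.S 2 m t u, Bool.and_eq_true _ _ ▸ ⟨ht, hu⟩⟩

theorem Cl.s3 (l : Cl A B ⟨a0, a1, f0, f1⟩ ⟨b0, b1, g0, m⟩ ⟨c0, c1, h0, h1⟩)
    (r : Cl A B ⟨a0, a1, f0, f1⟩ ⟨b0, b1, m, g1⟩ ⟨c0, c1, h0, h1⟩) :
    Cl A B ⟨a0, a1, f0, f1⟩ ⟨b0, b1, g0, g1⟩ ⟨c0, c1, h0, h1⟩ := by
  obtain ⟨t, ht⟩ := l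
  obtain ⟨u, hu⟩ := r
  exact ⟨.S 3 m t u, Bool.and_eq_true _ _ ▸ ⟨ht, hu⟩⟩

theorem Cl.s4 (l : Cl A B ⟨a0, a1, f0, f1⟩ ⟨b0, b1, g0, g1⟩ ⟨c0, m, h0, h1⟩)
    (r : Cl A B ⟨a0, a1, f0, f1⟩ ⟨b0, b1, g0, g1⟩ ⟨m, c1, h0, h1⟩) :
    Cl A B ⟨a0, a1, f0, f1⟩ ⟨b0, b1, g0, g1⟩ ⟨c0, c1, h0, h1⟩ := by
  obtain ⟨t, ht⟩ := l
  obtain ⟨u, hu⟩ := r
  exact ⟨.S 4 m t u, Bool.and_eq_true _ _ ▸ ⟨ht, hu⟩⟩

theorem Cl.s5 (l : Cl A B ⟨a0, a1, f0, f1⟩ ⟨b0, b1, g0, g1⟩ ⟨c0, c1, h0, m⟩)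
    (r : Cl A B ⟨a0, a1, f0, f1⟩ ⟨b0, b1, g0, g1⟩ ⟨c0, c1, m, h1⟩) :
    Cl A B ⟨a0, a1, f0, f1⟩ ⟨b0, b1, g0, g1⟩ ⟨c0, c1, h0, h1⟩ := by
  obtain ⟨t, ht⟩ := l
  obtain ⟨u, hu⟩ := r
  exact ⟨.S 5 m t u, Bool.and_eq_true _ _ ▸ ⟨ht, hu⟩⟩

end split

/-! ### The pairs of neighbours -/

/-- A pair of neighbours; `j`, `k` the positions of the types in the list `types`. -/
structure Pq where
  j : Nat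
  k : Nat
  c : Ce
  l : Ce
  r : Ce

/-- The type at the position `j`; `s` the edge. -/
def kdn (s : Bool) (j : Nat) : Kd :=
  ⟨cond (Nat.beq j 2) 1 (cond (Nat.beq j 5) 2 0), s,
    Nat.ble j 1 || (Nat.beq j 3 || (Nat.beq j 4 || (Nat.beq j 6 || Nat.beq j 7))),
    Nat.ble 3 j && Nat.ble j 7⟩

/-- The pair is closed; `s`, `o` the edges. -/
def Cr (s o : Bool) (p : Pq) : Prop := Cl (kdn s p.j) (kdn o p.k) p.c p.l p.r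

end Pool.Agent.S5.Z4
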