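import Pool.Agent.S5.Z4.RegJ
import Pool.Agent.S5.Z4.RegM
import Pool.Agent.S5.Z4.Slf
import Pool.Agent.S5.Z4.Nd
import Pool.Agent.S5.Z4.Tre

/-!
# Inner nodes with four half twists: the trees, soundness
-/

set_option autoImplicit false

namespace Pool.Agent.S5.Z4

open Pool.Agent.H63.VC3 Pool.Agent.S3 Complex
open Pool.Agent.S5.G (kp Sd sy O4 N4 zz4)

/-- `K` describes the neighbour `x`. -/
structure KdOK (K : Kd) (x : Nt) : Prop where
  k1 : K.kd = 1 ↔ x = ⟨2, true⟩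
  k2 : K.kd = 2 ↔ x = ⟨3, true⟩
  re : x.e = false → x.a ≤ 4 → K.re = true
  rz : x.a = 3 ∨ x = ⟨4, false⟩ → K.rz = true

/-- The statement for a node. -/
structure V5 (zs : ℂ) (sy sb : Slt) : Prop where
  v : V4 zs sy sb
  y1 : sy.ys.re - zs.re ≤ 1 / 2
  b1 : zs.re + sb.ys.re ≤ 1 / 2

/-- All points of the three cells. -/
def Pt (A B : Kd) (k cL cR : Ce) : Prop :=
  ∀ {x x' : Nt} {z1 z1' : ℝ} {c d p q z : ℂ}, KdOK A x → KdOK B x' → NF A.S B.S c d p q z →
    InC k (cos z) → InC cL c → InC cR d →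
      V5 (zz4 p q z) (slt A.S x z1 c p z) (slt B.S x' z1' d q z)

theorem emp_sound {k : Ce} {w : ℂ} (h : emp k = true) (hk : InC k w) : False := by
  unfold emp at h
  rw [Bool.or_eq_true, Nat.ble_eq, Nat.ble_eq] at h
  obtain ⟨⟨a1, a2⟩, a3, a4⟩ := hk
  rcases h with h | h
  · have : (k.a1 : ℝ) + 1 ≤ k.a0 := by exact_mod_cast h
    linarith
  · have : (k.f1 : ℝ) + 1 ≤ k.f0 := by exact_mod_cast h
    linarith

theorem okC_of_regY {S : Bool} {k b : Ce} {c : Ct} {y : Rc} (h : regY S k b c y = true) :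
    k.a1 ≤ 1550 := by
  unfold regY okC at h
  simp only [Bool.and_eq_true, Nat.ble_eq] at h
  have := h.1.2.2.1
  omega

theorem regH_t1 {S : Bool} {k b : Ce} {h : Rc} (H : regH S k b h = true) : h.t1 ≤ 1050 := by
  unfold regH at H
  simp only [Bool.and_eq_true, Nat.ble_eq] at H
  exact H.2.2.2.2.2.1

variable {A B : Kd} {k cL cR : Ce}

/-- The rectangles. -/
theorem rct_sound {cy cb : Ct} {y b z0 : Rc} (h : rct A B k cL cR cy cb y b z0 = true)
    {c d p q z : ℂ} (n : NF A.S B.S c d p q z) (hk : InC k (cos z)) (hL : InC cL c)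
    (hR : InC cR d) : k.a1 ≤ 1550 ∧ InY y (sy p z) ∧ InY b (sy q z) ∧ InZ z0 (zz4 p q z) := by
  unfold rct at h
  rw [Bool.and_eq_true, Bool.and_eq_true] at h
  obtain ⟨h1, h2, h3⟩ := h
  have i1 := regY_sound h1 n.sl hk hL
  have i2 := regY_sound h2 n.sr hk hR
  exact ⟨okC_of_regY h1, i1, i2, regZ_sound h3 n.n.sp n.n.sr n.eq n.n.g2 hk i1 i2⟩

theorem rh_sound {K : Kd} {c : Ce} {h : Rc} (H : rh K k c h = true) {cc q z : ℂ}
    (s : Sd K.S cc q z) (hk : InC k (cos z)) (hc : InC c cc) (e : K.kd = 1 ∨ K.kd = 2) :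
    h.t1 ≤ 1050 ∧ InH h (hh (1 / 2 - sy q z)) := by
  unfold rh at H
  rw [Bool.or_eq_true] at H
  rcases H with H | H
  · have : K.kd = 0 := Nat.eq_of_beq_eq_true H
    omega
  · exact ⟨regH_t1 H, regH_sound H s hk hc⟩

/-- A leaf. -/
theorem ckL_sound {cy cb : Ct} {y b z0 hy hb : Rc}
    (h : ckL A B k cL cR cy cb y b z0 hy hb = true) : Pt A B k cL cR := by
  intro x x' z1 z1' c d p q z oA oB n hk hL hR
  unfold ckL gq at h
  simp only [Bool.and_eq_true, Nat.ble_eq] at h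
  obtain ⟨⟨g1, g2⟩, h1, ⟨h2, h3⟩, h4⟩ := h
  obtain ⟨ka, i1, i2, i3⟩ := rct_sound h1 n hk hL hR
  have e1 := fun e => rh_sound h2 n.sl hk hL e
  have e2 := fun e => rh_sound h3 n.sr hk hR e
  refine ⟨lf_sound h4 ⟨?_, ?_, i3, n.ly, n.lb, n.lz⟩ ka (fun e => (e1 e).1) (fun e => (e2 e).1),
    ?_, ?_⟩
  · exact ⟨rfl, rfl, oA.k1, oA.k2, oA.re, oA.rz, ⟨_, _, hk, hL, rfl⟩, i1, fun e => (e1 e).2⟩
  · exact ⟨rfl, rfl, oB.k1, oB.k2, oB.re, oB.rz, ⟨_, _, hk, hR, rfl⟩, i2, fun e => (e2 e).2⟩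
  · have a1 := i1.1.2
    have a2 := i3.1.1
    have : (y.t1 : ℝ) ≤ z0.t0 := by exact_mod_cast g1
    show (sy p z).re - (zz4 p q z).re ≤ 1 / 2
    linarith
  · have a1 := i2.1.2
    have a2 := i3.1.2
    have : (b.t1 : ℝ) + z0.t1 ≤ 1000 := by exact_mod_cast g2
    show (zz4 p q z).re + (sy q z).re ≤ 1 / 2
    linarith

theorem spl_sound {d m : ℕ} {f g : Ce → Ce → Ce → Bool} (hf : ∀ k cL cR, f k cL cR = true → Pt A B k cL cR)
    (hg : ∀ k cL cR, g k cL cR = true → Pt A B k cL cR) (h : spl d m k cL cR f g = true) :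
    Pt A B k cL cR := by
  obtain ⟨a0, a1, f0, f1⟩ := k
  obtain ⟨b0, b1, g0, g1⟩ := cL
  obtain ⟨c0, c1, h0, h1⟩ := cR
  intro x x' z1 z1' c d p q z oA oB n hk hL hR
  unfold spl at h
  simp only [cond_eq_ite] at h
  split_ifs at h
  all_goals
    rw [Bool.and_eq_true] at h
    obtain ⟨e1, e2⟩ := h
  · rcases hk.splitA m with i | i
    · exact hf _ _ _ e1 oA oB n i hL hR
    · exact hg _ _ _ e2 oA oB n i hL hR
  · rcases hk.splitF m with i | i
    · exact hf _ _ _ e1 oA oB n i hL hR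
    · exact hg _ _ _ e2 oA oB n i hL hR
  · rcases hL.splitA m with i | i
    · exact hf _ _ _ e1 oA oB n hk i hR
    · exact hg _ _ _ e2 oA oB n hk i hR
  · rcases hL.splitF m with i | i
    · exact hf _ _ _ e1 oA oB n hk i hR
    · exact hg _ _ _ e2 oA oB n hk i hR
  · rcases hR.splitA m with i | i
    · exact hf _ _ _ e1 oA oB n hk hL i
    · exact hg _ _ _ e2 oA oB n hk hL i
  · rcases hR.splitF m with i | i
    · exact hf _ _ _ e1 oA oB n hk hL i
    · exact hg _ _ _ e2 oA oB n hk hL i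

/-- **A certificate.** -/
theorem ckT_sound (t : Tr) : ∀ k cL cR, ckT A B t k cL cR = true → Pt A B k cL cR := by
  induction t with
  | E =>
    intro k cL cR h x x' z1 z1' c d p q z oA oB n hk hL hR
    exact (emp_sound h hk).elim
  | D cy cb y b z0 =>
    intro k cL cR h x x' z1 z1' c d p q z oA oB n hk hL hR
    have h' : (rct A B k cL cR cy cb y b z0 && dis4 k y b z0) = true := h
    rw [Bool.and_eq_true] at h'
    obtain ⟨-, i1, i2, i3⟩ := rct_sound h'.1 n hk hL hR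
    exact (dis4_sound h'.2 n.n.sp n.n.sr n.eq hk i1 i2 i3).elim
  | L cy cb y b z0 hy hb =>
    intro k cL cR h
    exact ckL_sound h
  | S d m l r il ir =>
    intro k cL cR h
    exact spl_sound il ir h

theorem Cl.sound (h : Cl A B k cL cR) : Pt A B k cL cR := by
  obtain ⟨t, ht⟩ := h
  exact ckT_sound t _ _ _ ht

end Pool.Agent.S5.Z4
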